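import Pool.Agent.Lib.TWJ2.Defs
import Pool.Agent.Lib.TWJ.EXG
import Pool.Agent.Lib.TW.BB
import Pool.Agent.Lib.TW.Estar
import Pool.Agent.Lib.TWM.Ent1

/-!
# TANK W, ROW J and J.8 together: honest towers

* `J8F`: the strong form of J.8: with finitely many jumps the closure of `C(y)` is the closure of
  `E(X)`, `E` the field of a frame, `X` of transcendental type over the closure of `E`;
* `Flg.honest`: a flag `(C, y, z)` with `z` of transcendental type and `y` with finitely many jumps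
  gives a flag `(E, X, z)` of the same closed field, `X` and `z` of transcendental type;
* `tower_of_bad`: the closure of `K₀` is such a tower if `K₀(al)` is not henselian rational.
-/

set_option autoImplicit false

open Polynomial

namespace Pool.Agent.TWJ2

open Pool.Agent.H15JM (RVal)
open Pool.Agent.LU1 (adj)
open Pool.Agent.D2 (Ctx0)
open Pool.Agent.D2P (hen clI mem_clI mem_adj_self)
open Pool.Agent.TW (Full BD Fr HRone LU valG Dns Ctx)
open Pool.Agent.TWM (TL cadj clI_hen clI_adj_clI le_clI CompleteV)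

universe u

variable {k Ω : Type u} [Field k] [Field Ω] [Algebra k Ω]

/-- **J.8, strong form** (type). -/
def J8F (p : ℕ) (v : RVal Ω) (k : Type u) [Field k] [Algebra k Ω] (r D : ℕ) : Prop :=
  ∀ (C : IntermediateField k Ω) (y : Ω), C.FG → Full v C → BD p v C → Dns v C →
    Algebra.trdeg k C = (r + D : ℕ) → Transcendental C y → BD p v (adj C y) → FJ v C y →
    ∃ (R : Fr k v r D) (X : Ω) (σ : ℝ), BD p v R.K ∧ Transcendental R.K X ∧
      hen v (adj R.K X) = hen v (adj C y) ∧ TL v (clI v R.K) X σ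

variable {p : ℕ} {v : RVal Ω} {r D : ℕ}

/-- The flag with an honest middle floor. -/
theorem Flg.honest [IsAlgClosed k] [IsAlgClosed Ω] [Fact p.Prime] [CharP k p] [CharP Ω p]
    (h : Ctx k v r) (hJ : J8F p v k r D) {K C : IntermediateField k Ω} {y z : Ω} {s : ℝ}
    (hf : Flg p v (r + D) K C y z) (hT : TL v (clI v (adj C y)) z s) (hFJ : FJ v C y)
    (hd : Dns v C) : ∃ (R : Fr k v r D) (X : Ω) (σ : ℝ), Flg p v (r + D) K R.K X z ∧
      TL v (clI v R.K) X σ ∧ TL v (clI v (adj R.K X)) z s := by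
  obtain ⟨R, X, σ, h1, h2, h3, h4⟩ := hJ C y hf.fg hf.full hf.bd hd hf.tr hf.ty hf.bdy hFJ
  have hcl : clI v (adj R.K X) = clI v (adj C y) := by
    rw [← clI_hen, h3, clI_hen]
  have hTz : TL v (clI v (adj R.K X)) z s := by rwa [hcl]
  refine ⟨R, X, σ, ⟨TW.Est.fg_K R, TW.Est.full_K h R, TW.Est.trdeg_K R, h1, h2, ?_, ?_, ?_⟩, h4,
    hTz⟩
  · exact hf.bdy.of_hen' h3.symm (D2P.fg_adj (TW.Est.fg_K R) X)
  · intro h5
    exact (hTz.far z (D2P.isAlgebraic_mono (le_clI _) h5)).1 rfl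
  · rw [hf.cl]
    exact TWJ.clI_adj_congr hcl.symm z

/-- **The honest tower.** -/
theorem tower_of_bad [IsAlgClosed k] [IsAlgClosed Ω] [Fact p.Prime] [CharP k p] [CharP Ω p]
    (hJ : J8F p v k r 1) (hR : RowJ p v k r) {K₀ : IntermediateField k Ω} {al : Ω}
    (hb : Bad p v k r K₀ al) :
    ∃ (R : Fr k v r 1) (X z : Ω) (σ s : ℝ), Flg p v (r + 1) (clI v K₀) R.K X z ∧
      TL v (clI v R.K) X σ ∧ TL v (cadj v (clI v R.K) X) z s ∧
      clI v K₀ = cadj v (cadj v (clI v R.K) X) z := by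
  obtain ⟨C, y, z, s, hf, hT, hFJ⟩ := hR K₀ al hb
  have hr := hb.ctx.rpos
  have hd : Dns v C := TW.dns_of_BD p hb.ctx hf.fg hf.full hf.bd (n := r + 1)
    (by exact_mod_cast hf.tr) (by omega)
  obtain ⟨R, X, σ, h1, h2, h3⟩ := Flg.honest hb.ctx hJ (by exact_mod_cast hf) hT hFJ hd
  refine ⟨R, X, z, σ, s, by exact_mod_cast h1, h2, ?_, ?_⟩
  · rw [clI_adj_clI]
    exact h3
  · have h4 : cadj v (cadj v (clI v R.K) X) z = clI v (adj (adj R.K X) z) := by
      rw [clI_adj_clI, clI_adj_clI]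
    rw [h4]
    exact h1.cl

end Pool.Agent.TWJ2
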