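import Pool.Agent.Lib.TWJ2.FJ8
import Pool.Agent.Lib.TWJ2.Flg2
import Pool.Agent.Lib.TWR.Defs

/-!
# TANK W, ROW J.8: the distance of `y` to the algebraic elements is finite

* `exists_dec`: a monic polynomial at `y`, expanded in `1, y, .., y^(p-1)` over `F(y^p)`;
* `bound_monic`: if `F(y)` has bounded distortion, the values at `y` of the monic polynomials of
  degree `m` over `F` are bounded;
* `bound_alg`: with finitely many jumps the distance of `y` to the algebraic elements is finite;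
* `j8F_of_lub`: the strong form `J8F` of J.8, from local uniformization in the dimension `r + D`;
* `fj8`: the same with intermediate fields.
-/

set_option autoImplicit false

open Polynomial

namespace Pool.Agent.TWJ2

open Pool.Agent.H15JM (RVal)
open Pool.Agent.LU1 (adj)
open Pool.Agent.D2 (Ctx0)
open Pool.Agent.D2P (hen clI mem_clI)
open Pool.Agent.TW
open Pool.Agent.TWJ (IsMin exists_min val_roots GN_of_roots)
open Pool.Agent.TWM (TL clI_hen clI_adj_clI le_clI clI_mono algc le_algc cadj)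

universe u

variable {k Ω : Type u} [Field k] [Field Ω] [Algebra k Ω] {v : RVal Ω}
  {F : IntermediateField k Ω} {p : ℕ} {r D : ℕ}

/-- The expansion of a monic polynomial in `1, y, .., y^(p-1)`. -/
theorem exists_dec [Fact p.Prime] (Q : F[X]) (hQ : Q.Monic) :
    ∃ P : Fin p → F[X], (∀ y : Ω, aeval y Q = ∑ j : Fin p, aeval (y ^ p) (P j) * y ^ (j : ℕ)) ∧
      ∃ j : Fin p, (P j).Monic ∧ (P j).natDegree = Q.natDegree / p := by
  have hp := (Fact.out : p.Prime).pos
  set N := Q.natDegree / p + 1 with hN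
  have hlt : Q.natDegree < N * p := by
    rw [hN, add_mul, one_mul]
    have h1 := Nat.div_add_mod Q.natDegree p
    have h2 := Nat.mod_lt Q.natDegree hp
    rw [mul_comm] at h1
    omega
  refine ⟨fun j => ∑ l : Fin N, C (Q.coeff (j + p * l)) * X ^ (l : ℕ), fun y => ?_,
    ⟨Q.natDegree % p, Nat.mod_lt _ hp⟩, ?_⟩
  · rw [aeval_eq_sum_range' hlt, Finset.sum_range, ← Equiv.sum_comp finProdFinEquiv,
      Fintype.sum_prod_type, Finset.sum_comm]
    refine Finset.sum_congr rfl fun j _ => ?_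
    rw [map_sum, Finset.sum_mul]
    refine Finset.sum_congr rfl fun l _ => ?_
    rw [_root_.map_mul, _root_.map_pow, aeval_C, aeval_X, Algebra.smul_def, finProdFinEquiv_apply_val]
    ring
  · set j : Fin p := ⟨Q.natDegree % p, Nat.mod_lt _ hp⟩ with hj
    have hc : (∑ l : Fin N, C (Q.coeff (j + p * l)) * X ^ (l : ℕ)).coeff (Q.natDegree / p) = 1 := by
      rw [finsetSum_coeff, Finset.sum_eq_single (⟨Q.natDegree / p, by omega⟩ : Fin N)]
      · rw [coeff_C_mul, coeff_X_pow, if_pos rfl, mul_one]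
        show Q.coeff (Q.natDegree % p + p * (Q.natDegree / p)) = 1
        rw [Nat.mod_add_div]
        exact hQ.coeff_natDegree
      · intro l _ hl
        rw [coeff_C_mul, coeff_X_pow, if_neg, mul_zero]
        intro h
        exact hl (Fin.ext h.symm)
      · simp
    have hd : (∑ l : Fin N, C (Q.coeff (j + p * l)) * X ^ (l : ℕ)).natDegree ≤
        Q.natDegree / p := by
      refine natDegree_sum_le_of_forall_le _ _ fun l _ => ?_
      refine (natDegree_C_mul_X_pow_le _ _).trans ?_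
      have := l.2
      omega
    refine ⟨monic_of_natDegree_le_of_coeff_eq_one _ hd hc, le_antisymm hd ?_⟩
    exact le_natDegree_of_ne_zero (by rw [hc]; exact one_ne_zero)

/-- `F(y)^p ≤ F(y^p)`. -/
theorem pow_mem_adj_pow [Fact p.Prime] [CharP Ω p] {y c : Ω} (hc : c ∈ adj F y) :
    c ^ p ∈ adj F (y ^ p) := by
  rw [adj_eq, IntermediateField.mem_restrictScalars,
    IntermediateField.mem_adjoin_simple_iff] at hc ⊢
  obtain ⟨A, B, rfl⟩ := hc
  have _ := charP_I p F
  have hfr : ∀ A : F[X], (aeval y A) ^ p = aeval (y ^ p) (A.map (frobenius F p)) := by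
    intro A
    rw [← _root_.map_pow, ← map_frobenius_expand, ← expand_aeval, map_expand]
  exact ⟨_, _, by rw [div_pow, hfr, hfr]⟩

/-- **The values at `y` of the monic polynomials of degree `m` are bounded.** -/
theorem bound_monic [Fact p.Prime] [CharP Ω p] (m : ℕ) : ∀ y : Ω, Transcendental F y →
    BD p v (adj F y) → ∃ B : ℝ, ∀ Q : F[X], Q.Monic → Q.natDegree = m → v (aeval y Q) ≤ B := by
  have hp := (Fact.out : p.Prime)
  induction m using Nat.strong_induction_on with
  | _ m ih =>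
    intro y hy hBD
    rcases Nat.eq_zero_or_pos m with rfl | hm
    · refine ⟨0, fun Q hQ hQd => ?_⟩
      rw [hQ.natDegree_eq_zero.1 hQd, _root_.map_one, v.map_one]
    have hle : adj F (y ^ p) ≤ adj F y :=
      D2P.adj_le (fun a ha => (D2P.mem_adj_self F y).2 ha)
        (pow_mem (D2P.mem_adj_self F y).1 p)
    have hy' : Transcendental F (y ^ p) := hy.pow hp.pos
    have hBD' : BD p v (adj F (y ^ p)) := hBD.of_pow hle (e := 1) fun a ha => by
      rw [pow_one]
      exact pow_mem_adj_pow ha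
    obtain ⟨B, hB⟩ := ih (m / p) (Nat.div_lt_self hm hp.one_lt) (y ^ p) hy' hBD'
    have hQ' : Qp p (adj F y) ≤ (adj F (y ^ p)).toSubfield := by
      intro x hx
      obtain ⟨c, hc, rfl⟩ := mem_Qp.1 hx
      exact pow_mem_adj_pow hc
    have hind := (bas_pow (Q := (adj F (y ^ p)).toSubfield) (p := p)
      (not_mem_adj_pow p hy) (D2P.mem_adj_self F (y ^ p)).1).ind
    obtain ⟨C₀, hC₀⟩ := (hBD.bdq.mid hQ' hle).1.orthq hind
      fun l => pow_mem (D2P.mem_adj_self F y).1 _
    refine ⟨B + p * |v y| + C₀, fun Q hQ hQd => ?_⟩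
    obtain ⟨P, hP, j, hj, hjd⟩ := exists_dec (Ω := Ω) (p := p) Q hQ
    have hQ0 : aeval y Q ≠ 0 := fun h => hy ⟨Q, hQ.ne_zero, h⟩
    have hy0 : y ≠ 0 := by
      rintro rfl
      exact hy isAlgebraic_zero
    have hP0 : aeval (y ^ p) (P j) ≠ 0 := fun h => hy' ⟨_, hj.ne_zero, h⟩
    have hmem : ∀ i, aeval (y ^ p) (P i) ∈ (adj F (y ^ p)).toSubfield := by
      intro i
      show aeval (y ^ p) (P i) ∈ adj F (y ^ p)
      rw [adj_eq, IntermediateField.mem_restrictScalars]
      exact (IntermediateField.mem_adjoin_simple_iff F _).2 ⟨P i, 1, by simp⟩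
    have h1 := hC₀ (fun i => aeval (y ^ p) (P i)) hmem
      (by rw [← hP]; exact hQ0) j (mul_ne_zero hP0 (pow_ne_zero _ hy0))
    rw [← hP, v.map_mul hP0 (pow_ne_zero _ hy0), v.map_pow hy0] at h1
    have h2 := hB (P j) hj (by rw [hjd, hQd])
    have h3 : ((j : ℕ) : ℝ) * v y ≤ p * |v y| := by
      have h4 : ((j : ℕ) : ℝ) ≤ p := by exact_mod_cast j.2.le
      calc ((j : ℕ) : ℝ) * v y ≤ (j : ℕ) * |v y| :=
            mul_le_mul_of_nonneg_left (le_abs_self _) (Nat.cast_nonneg _)
        _ ≤ p * |v y| := mul_le_mul_of_nonneg_right h4 (abs_nonneg _)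
    linarith

/-- **With finitely many jumps the distance of `y` to the algebraic elements is finite.** -/
theorem bound_alg [IsAlgClosed Ω] [Fact p.Prime] [CharP Ω p] (hc : Ctx0 k v) (hd : Dns v F)
    {y : Ω} (hy : Transcendental F y) (hBD : BD p v (adj F y)) (hFJ : FJ v F y) :
    ∃ M : ℝ, ∀ ξ : Ω, IsAlgebraic F ξ → v (y - ξ) ≤ M := by
  classical
  obtain ⟨d₀, hFJ⟩ := hFJ
  choose B hB using fun m => bound_monic (v := v) (F := F) (p := p) m y hy hBD
  have hy0 : y ≠ 0 := by
    rintro rfl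
    exact hy isAlgebraic_zero
  set S := ∑ m ∈ Finset.range (d₀ + 1), |B m| with hS
  set M := S + d₀ * |v y| + |v y| with hM
  have hS0 : 0 ≤ S := Finset.sum_nonneg fun _ _ => abs_nonneg _
  have hMy : v y ≤ M := by
    have h1 : (0 : ℝ) ≤ d₀ * |v y| := mul_nonneg (Nat.cast_nonneg _) (abs_nonneg _)
    have h2 := le_abs_self (v y)
    linarith
  refine ⟨M, fun ξ hξ => ?_⟩
  by_contra hlt
  push Not at hlt
  obtain ⟨η, hη⟩ := exists_min hd hy hξ hlt
  obtain ⟨η₀, h2, h3, h4⟩ := hFJ ξ hξ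
  have hdeg : (minpoly F η).natDegree ≤ d₀ := (hη.min η₀ h2 (hlt.trans h4)).trans h3
  have hint := hη.sep.isIntegral
  have hm0 := minpoly.natDegree_pos hint
  set m := (minpoly F η).natDegree with hm
  have hbη := hη.lt
  have hyη : y - η ≠ 0 := fun h0 => hy (by rw [sub_eq_zero.1 h0]; exact hint.isAlgebraic)
  -- the roots
  have hη1 : v.Ge (v y) (y - η) := RVal.Ge.of_le (by linarith)
  have hηv : v.Ge (v y) η := by
    have h5 := (v.ge_self y).sub hη1
    rwa [sub_sub_cancel] at h5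
  have hroots : ∀ β : Ω, aeval β (minpoly F η) = 0 → v.Ge (v y) (β - η) := by
    intro β hβ
    refine RVal.Ge.sub (fun hβ0 => ?_) hηv
    have h5 := val_roots hc hy hη hβ (zero_mem F)
    rw [sub_zero, sub_zero] at h5
    rw [h5]
    refine hηv ?_
    rintro rfl
    have h6 : minpoly F (0 : Ω) = X := minpoly.zero F Ω
    rw [h6, aeval_X] at hβ
    exact hβ0 hβ
  have hGN := GN_of_roots (v := v) (minpoly.monic hint) hroots
  have hlow : v.Ge ((m - 1 : ℝ) * v y + v (y - η)) (aeval y (minpoly F η)) := by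
    rw [TW.aeval_eq_tc (η := η) (minpoly F η) y]
    refine RVal.Ge.sum _ _ fun j _ => ?_
    rcases Nat.eq_zero_or_pos j with rfl | hj
    · rw [TW.tc_zero, minpoly.aeval, zero_mul]
      exact RVal.Ge.zero
    · refine ((hGN j).mul (RVal.Ge.of_le (c := j * v (y - η)) ?_)).mono ?_
      · rw [v.map_pow hyη]
      · have h5 : (1 : ℝ) ≤ j := by exact_mod_cast hj
        have h6 : 0 ≤ v (y - η) - v y := by linarith
        rw [← hm]
        nlinarith
  have hQ0 : aeval y (minpoly F η) ≠ 0 := fun h5 =>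
    hy ⟨_, minpoly.ne_zero hint, h5⟩
  have h5 := hlow hQ0
  have h6 := hB m (minpoly F η) (minpoly.monic hint) rfl
  have h7 : B m ≤ S := (le_abs_self _).trans
    (Finset.single_le_sum (f := fun m => |B m|) (fun _ _ => abs_nonneg _)
      (Finset.mem_range.2 (by omega)))
  have h8 : -(d₀ * |v y|) ≤ (m - 1 : ℝ) * v y := by
    have h9 : (0 : ℝ) ≤ m - 1 := by
      have : (1 : ℝ) ≤ m := by exact_mod_cast hm0
      linarith
    have h10 : (m : ℝ) ≤ d₀ := by exact_mod_cast hdeg
    have h11 := neg_abs_le (v y)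
    have h12 := abs_nonneg (v y)
    nlinarith
  have h13 := abs_nonneg (v y)
  linarith

/-- **J.8, strong form.** -/
theorem j8F_of_lub [IsAlgClosed k] [IsAlgClosed Ω] (p : ℕ) [Fact p.Prime] [CharP k p] [CharP Ω p]
    {r D : ℕ} (h : Ctx k v r) (hLU : LUB p v k r (r + D)) : J8F p v k r D := by
  intro C y hFG hfull hBD hd htr hy hBDy hFJ
  obtain ⟨M, hM⟩ := bound_alg h.toCtx0 hd hy hBDy hFJ
  obtain ⟨R, X, σ, h1, -, h2, h3, h4⟩ := fj_honest p h hFG hfull hBD htr
    (fun E e1 e2 e3 e4 => hLU E e1 e2 (by exact_mod_cast e3) e4) hd hy hM hFJ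
  exact ⟨R, X, σ, h1, h2, h3, TWC.TL.base h4 (le_clI _) (clI_mono (le_algc _))⟩

/-- The same with intermediate fields. -/
theorem fj8 [IsAlgClosed k] [IsAlgClosed Ω] (p : ℕ) [Fact p.Prime] [CharP k p] [CharP Ω p]
    {r n : ℕ} (h : Ctx k v r) (hn : 2 ≤ n) (hLU : LUB p v k r n) {C : IntermediateField k Ω}
    {y : Ω} (hFG : C.FG) (hfull : Full v C) (hBD : BD p v C) (htr : Algebra.trdeg k C = n)
    (hy : Transcendental C y) (hBDy : BD p v (adj C y)) (hFJ : FJ v C y) :
    ∃ (E : IntermediateField k Ω) (X : Ω) (s : ℝ), E.FG ∧ Full v E ∧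
      Algebra.trdeg k E = n ∧ BD p v E ∧ Transcendental E X ∧ TL v (clI v E) X s ∧
      hen v (adj E X) = hen v (adj C y) ∧ clI v (adj E X) = clI v (adj C y) := by
  have hd := dns_of_BD p h hFG hfull hBD htr hn
  obtain ⟨D, rfl⟩ : ∃ D, n = r + D := by
    refine ⟨n - r, ?_⟩
    have := hfull.rank_le h htr
    omega
  obtain ⟨R, X, σ, h1, h2, h3, h4⟩ := j8F_of_lub p h hLU C y hFG hfull hBD hd
    (by exact_mod_cast htr) hy hBDy hFJ
  refine ⟨R.K, X, σ, Est.fg_K R, Est.full_K h R, ?_, h1, h2, h4, h3, ?_⟩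
  · exact_mod_cast Est.trdeg_K R
  · rw [← clI_hen, h3, clI_hen]

end Pool.Agent.TWJ2
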