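import Pool.Agent.Lib.TWJ.Defs
import Pool.Agent.Lib.TWM.B1
import Pool.Agent.Lib.TW.Exit

/-!
# TANK W, ROW J (infinitely many jumps): interface

* `FJ v C y`: `y` has finitely many jumps over `C` (approximants of bounded degree are cofinal);
* `Flg`: a flag, `K` is the closure of `C(y, z)`, `trdeg C = d`;
* `Lev v C y b φ β`: `φ` is a key polynomial of level `b`, `β` its value at this level;
* `dig φ f l`: the `l`-th digit of `f` to the base `φ`;
* `ord2`, `GBL`, `SLv`: relative order, Gauss bound and first slope at the level `b` and radius `c`;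
* `Pos`: a position; `MinW`: lower bound for the relative orders of the positions;
* `Bad`, `RowJ`: the data and the final statement.
-/

set_option autoImplicit false

open Polynomial

namespace Pool.Agent.TWJ2

open Pool.Agent.H15JM (RVal)
open Pool.Agent.LU1 (adj)
open Pool.Agent.D2P (clI)
open Pool.Agent.TW (Full BD Fr HRone LU valG Dns Ctx)
open Pool.Agent.TWM (SL MS PI PII TL Gt GB CompleteV)
open Pool.Agent.TWJ (Stt MinS Seed)

universe u

variable {k Ω : Type u} [Field k] [Field Ω] [Algebra k Ω]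

/-- `y` has finitely many jumps over `C`: approximants of bounded degree are cofinal. -/
def FJ (v : RVal Ω) (C : IntermediateField k Ω) (y : Ω) : Prop :=
  ∃ d : ℕ, ∀ ξ : Ω, IsAlgebraic C ξ → ∃ η : Ω, IsAlgebraic C η ∧ (minpoly C η).natDegree ≤ d ∧
    v (y - ξ) < v (y - η)

/-- A flag of the closed field `K`: `K` is the closure of `C(y, z)`, `trdeg C = d`. -/
structure Flg (p : ℕ) (v : RVal Ω) (d : ℕ) (K C : IntermediateField k Ω) (y z : Ω) : Prop where
  fg : C.FG
  full : Full v C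
  tr : Algebra.trdeg k C = d
  bd : BD p v C
  ty : Transcendental C y
  bdy : BD p v (adj C y)
  tz : Transcendental (adj C y) z
  cl : K = clI v (adj (adj C y) z)

/-- The level `b` of `y` over `C`: `φ` has a root nearer to `y` than `b`, no polynomial over `C` of
smaller degree has a root in the closed disc of radius `b` around `y`, and `β` is the Gauss value of
`φ` on this disc. -/
structure Lev (v : RVal Ω) (C : IntermediateField k Ω) (y : Ω) (b : ℝ) (φ : Polynomial Ω)
    (β : ℝ) : Prop where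
  mem : φ ∈ PI C
  mon : φ.Monic
  root : ∃ η : Ω, φ.eval η = 0 ∧ b < v (y - η)
  min : ∀ g ∈ PI C, g ≠ 0 → (∃ η : Ω, g.eval η = 0 ∧ v.Ge b (y - η)) → φ.natDegree ≤ g.natDegree
  ge : GB v b β (taylor y φ)
  le : ∀ β' : ℝ, GB v b β' (taylor y φ) → β' ≤ β

/-- The `l`-th digit of `f` to the base `φ`. -/
noncomputable def dig (φ f : Polynomial Ω) (l : ℕ) : Polynomial Ω := (f /ₘ φ ^ l) %ₘ φ

/-- The relative order of the monomial `Y ^ l T ^ i`. -/
def ord2 (p l i : ℕ) : ℕ := if p ∣ l ∧ p ∣ i then l + i else l + i - 1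

/-- The Gauss bound of `P(y, T)` at the level `b`, radius `c` of `T` (inner variable `y`). -/
def GBL (v : RVal Ω) (y : Ω) (b c lam : ℝ) (P : Polynomial (Polynomial Ω)) : Prop :=
  ∀ i : ℕ, GB v b (lam - i * c) (taylor y (P.coeff i))

/-- Modulo `p`-th powers of polynomials over `C`, the Gauss value of `A` at the level `b`, radius `c`
is `κ`, and a monomial of relative order `≤ S` is responsible for it. -/
structure SLv (p : ℕ) (v : RVal Ω) (C : IntermediateField k Ω) (y : Ω) (b c : ℝ)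
    (φ : Polynomial Ω) (β κ : ℝ) (S : ℕ) (A : Polynomial (Polynomial Ω)) : Prop where
  mem : PII C A
  lo : ∀ ε : ℝ, 0 < ε → ∃ G, PII C G ∧ GBL v y b c (κ - ε) (A - G ^ p)
  hi : ∀ e : ℝ, 0 < e → ∀ G, PII C G → ∃ l i : ℕ, ord2 p l i ≤ S ∧
    ¬ v.Ge (κ + e - l * β - i * c) ((dig φ ((A - G ^ p).coeff i) l).eval y)

/-- A position of the flag `(C, y, z)`: level `b`, centre `θ(y)` for `z`, radius `c`. -/
structure Pos (p : ℕ) (v : RVal Ω) (d : ℕ) (K : IntermediateField k Ω) (a : Ω)
    (C : IntermediateField k Ω) (y z : Ω) (b : ℝ) (φ : Polynomial Ω) (β : ℝ) (θ : Polynomial Ω)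
    (c κ : ℝ) (S : ℕ) (A : Polynomial (Polynomial Ω)) : Prop extends Flg p v d K C y z where
  lev : Lev v C y b φ β
  cen : θ ∈ PI C
  gtz : Gt v c (z - θ.eval y)
  rep : ∃ h ∈ K, h ≠ 0 ∧ ∃ g ∈ K, a * h ^ p - g ^ p = A.evalEval y (z - θ.eval y)
  sl : SLv p v C y b c φ β κ S A

/-- `W` is a lower bound for the relative orders of the positions. -/
def MinW (p : ℕ) (v : RVal Ω) (d : ℕ) (K : IntermediateField k Ω) (a : Ω) (W : ℕ) : Prop :=
  ∀ (C : IntermediateField k Ω) (y z : Ω) (b : ℝ) (φ : Polynomial Ω) (β : ℝ) (θ : Polynomial Ω)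
    (c κ : ℝ) (S : ℕ) (A : Polynomial (Polynomial Ω)),
    Pos p v d K a C y z b φ β θ c κ S A → W ≤ S

/-- The data of row J: `K₀(al)` is not henselian rational. -/
structure Bad (p : ℕ) (v : RVal Ω) (k : Type u) [Field k] [Algebra k Ω] (r : ℕ)
    (K₀ : IntermediateField k Ω) (al : Ω) : Prop where
  ctx : Ctx k v r
  cpl : CompleteV v
  fg : K₀.FG
  full : Full v K₀
  tr : Algebra.trdeg k K₀ = (r + 3 : ℕ)
  bd : BD p v K₀
  hr : HRone v K₀
  ng : ¬ (valG v K₀).FG
  mem : al ^ p ∈ K₀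
  bda : BD p v (adj K₀ al)
  no : ¬ HRone v (adj K₀ al)

/-- **ROW J, final statement** (type): there is a flag `(C, y, z)` of the closure of `K₀` with `z` of
transcendental type over the closure of `C(y)`, and `y` with finitely many jumps over `C`. -/
def RowJ (p : ℕ) (v : RVal Ω) (k : Type u) [Field k] [Algebra k Ω] (r : ℕ) : Prop :=
  ∀ (K₀ : IntermediateField k Ω) (al : Ω), Bad p v k r K₀ al →
    ∃ (C : IntermediateField k Ω) (y z : Ω) (s : ℝ), Flg p v (r + 1) (clI v K₀) C y z ∧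
      TL v (clI v (adj C y)) z s ∧ FJ v C y

/-- The hypothesis of the proof by contradiction. -/
def Hoo (p : ℕ) (v : RVal Ω) (r : ℕ) (K : IntermediateField k Ω) : Prop :=
  ∀ (C : IntermediateField k Ω) (y z : Ω) (s : ℝ), Flg p v (r + 1) K C y z →
    TL v (clI v (adj C y)) z s → ¬ FJ v C y

/-! ### the same relative to a fixed base `C₀` -/

/-- `C` is algebraic over `C₀`. -/
def AlgOv (C C₀ : IntermediateField k Ω) : Prop := ∀ x ∈ C, IsAlgebraic C₀ x

/-- `MinW` for the flags whose base is algebraic over `C₀`. -/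
def MinW0 (p : ℕ) (v : RVal Ω) (d : ℕ) (K : IntermediateField k Ω) (a : Ω)
    (C₀ : IntermediateField k Ω) (W : ℕ) : Prop :=
  ∀ (C : IntermediateField k Ω) (y z : Ω) (b : ℝ) (φ : Polynomial Ω) (β : ℝ) (θ : Polynomial Ω)
    (c κ : ℝ) (S : ℕ) (A : Polynomial (Polynomial Ω)), AlgOv C C₀ →
    Pos p v d K a C y z b φ β θ c κ S A → W ≤ S

/-- `Hoo` for the flags whose base is algebraic over `C₀`. -/
def Hoo0 (p : ℕ) (v : RVal Ω) (r : ℕ) (K C₀ : IntermediateField k Ω) : Prop :=
  ∀ (C : IntermediateField k Ω) (y z : Ω) (s : ℝ), AlgOv C C₀ → Flg p v (r + 1) K C y z →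
    TL v (clI v (adj C y)) z s → ¬ FJ v C y

/-- **ROW J relative to a base** (type): from a flag over `C₀` to one with finitely many jumps over
an algebraic extension of `C₀`. -/
def RowJ0 (p : ℕ) (v : RVal Ω) (k : Type u) [Field k] [Algebra k Ω] (r : ℕ) : Prop :=
  ∀ (K₀ : IntermediateField k Ω) (al : Ω), Bad p v k r K₀ al →
    ∀ (C₀ : IntermediateField k Ω) (y₀ z₀ : Ω) (s₀ : ℝ), Flg p v (r + 1) (clI v K₀) C₀ y₀ z₀ →
      TL v (clI v (adj C₀ y₀)) z₀ s₀ →
      ∃ (C : IntermediateField k Ω) (y z : Ω) (s : ℝ), AlgOv C C₀ ∧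
        Flg p v (r + 1) (clI v K₀) C y z ∧ TL v (clI v (adj C y)) z s ∧ FJ v C y

end Pool.Agent.TWJ2
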