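import Pool.Agent.Lib.TWJ.J10
import Pool.Agent.Lib.TWJ2.Defs

/-!
# TANK W, ROW J, J.9c: exact states from approximate ones

* `exact_coords`: if the coordinates `t` generate `K` up to the closure and `b ∈ k(t)` is near to
  `a h ^ p - g ^ p`, there are coordinates `t'` near to `t` and an isometry `k(t) ≅ k(t')` which maps
  `b` to `a h ^ p - g ^ p`;
* `Stt.of_approx`: approximate states of index `≤ S` give an exact one;
* `exact_two`, `Stt0.of_approx`: the form in two more variables.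
-/

set_option autoImplicit false

open Polynomial

namespace Pool.Agent.TWJ2

open Pool.Agent.H15JM (RVal)
open Pool.Agent.LU1 (adj)
open Pool.Agent.D2 (Ctx0)
open Pool.Agent.D2P (hen clI mem_clI mem_adj_self adj_le)
open Pool.Agent.TW
open Pool.Agent.TWM (CompleteV le_clI clI_mono clI_clI OI pbasis_clI gen_of_bas adj_range
  transcendental_kr SL TL PI PII Lim)
open Pool.Agent.TWJ

universe u

variable {k Ω : Type u} [Field k] [Field Ω] [Algebra k Ω] {v : RVal Ω} {r D : ℕ}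

/-- Exact coordinates. -/
theorem exact_coords [IsAlgClosed k] (p : ℕ) [Fact p.Prime] [CharP k p] [CharP Ω p]
    (h0 : Ctx0 k v) (hcv : CompleteV v) {K₀ K : IntermediateField k Ω} (hK₀ : K₀.FG) {n : ℕ}
    (htr : Algebra.trdeg k K₀ = n) (hBD : BD p v K₀) (hK : K = clI v K₀) {a : Ω} (ha : a ∈ K)
    {μ₁ : ℝ} (hμ : ∀ g ∈ K, ¬ v.Ge μ₁ (a - g ^ p)) {h₁ g₁ : Ω} (hh : h₁ ∈ K) (hh0 : h₁ ≠ 0)
    (hg : g₁ ∈ K) {t : Fin n → Ω} (hcl : clI v (kr k t) = K) (N₀ : ℝ) :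
    ∃ N : ℝ, ∀ b (hb : b ∈ kr k t), v.Ge N (a * h₁ ^ p - g₁ ^ p - b) → ∃ t' : Fin n → Ω,
      (∀ i, t' i ∈ K ∧ t' i ≠ 0 ∧ v.Ge N₀ (t i - t' i) ∧ v (t' i) = v (t i)) ∧
      clI v (kr k t') = K ∧ AlgebraicIndependent k t' ∧ BD p v (kr k t') ∧
        ∃ φ : VIso v (kr k t) (kr k t'),
          (∀ i (hi : t i ∈ kr k t), (φ.e ⟨t i, hi⟩ : Ω) = t' i) ∧
            (φ.e ⟨b, hb⟩ : Ω) = a * h₁ ^ p - g₁ ^ p := by
  classical
  obtain ⟨m, s, hsb, C, hC⟩ := id hBD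
  have hm : m = n := by
    have h4 := (hsb.trdeg p hK₀).1
    rw [htr] at h4
    exact_mod_cast h4.symm
  subst hm
  have hos : OI p v (clI v K₀) s C := (OI.of_orth_pb hC hsb).cl
  have hpb : PBasis p K s := by
    rw [hK]
    exact pbasis_clI hcv hsb hos
  have hBDK : BD p v K := ⟨_, s, hpb, C, by rw [hK]; exact hos.orth⟩
  obtain ⟨hpT, hT0, C₁, hoT⟩ := gen_of_bas hBDK hpb hcl
  have haK : a * h₁ ^ p - g₁ ^ p ∈ K := sub_mem (mul_mem ha (pow_mem hh p)) (pow_mem hg p)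
  have hdist : ∀ g ∈ K, ¬ v.Ge (μ₁ + p * v h₁) (a * h₁ ^ p - g₁ ^ p - g ^ p) := by
    intro g hg' h1
    refine hμ ((g + g₁) / h₁) (div_mem (add_mem hg' hg) hh) fun hne => ?_
    have e1 : a - ((g + g₁) / h₁) ^ p = (a * h₁ ^ p - g₁ ^ p - g ^ p) / h₁ ^ p := by
      rw [div_pow, add_pow_char, eq_div_iff (pow_ne_zero p hh0), sub_mul,
        div_mul_cancel₀ _ (pow_ne_zero p hh0)]
      ring
    rw [e1] at hne ⊢
    have h2 : a * h₁ ^ p - g₁ ^ p - g ^ p ≠ 0 := fun h3 => hne (by rw [h3, zero_div])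
    rw [v.map_div h2 (pow_ne_zero p hh0), v.map_pow hh0]
    have := h1 h2
    linarith
  obtain ⟨C₂, hC₂⟩ := exact_gen p h0 hcv hcl hoT hT0 (μ₁ + p * v h₁)
    (v (a * h₁ ^ p - g₁ ^ p)) (max N₀ (∑ i, |v (t i)| + 1))
  refine ⟨C₂, fun b hb hge => ?_⟩
  obtain ⟨t', ht', htcl, φ, hφ, hφb⟩ := hC₂ _ haK (v.ge_self _) hdist b hb hge
  obtain ⟨hpt', -, C₃, hot'⟩ := gen_of_bas hBDK hpb htcl
  have ht'0 : ∀ i, t' i ≠ 0 := fun i => (ht' i).2.1
  have hai : AlgebraicIndependent k t' := (hot'.mono (by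
    rw [← htcl]
    exact le_clI _) le_rfl).algInd ht'0
  have hval : ∀ i, v (t' i) = v (t i) := by
    intro i
    refine val_eq_of_near (c := ∑ i, |v (t i)| + 1) (hT0 i) ?_
      ((ht' i).2.2.mono (le_max_right _ _))
    have h1 : |v (t i)| ≤ ∑ i, |v (t i)| :=
      Finset.single_le_sum (f := fun i => |v (t i)|) (fun i _ => abs_nonneg _) (Finset.mem_univ i)
    have h2 := le_abs_self (v (t i))
    linarith
  have hFG' : (kr k t').FG := IntermediateField.fg_adjoin_of_finite (Set.finite_range _)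
  have hbd' : BD p v (kr k t') := (BD_dense hBDK hpb hFG' htcl).2 (by
    rw [trdeg_adjoin_eq hai.to_subtype_range]
    have h2 := Cardinal.mk_range_eq_of_injective hai.injective
    simpa using h2)
  exact ⟨t', fun i => ⟨(ht' i).1, ht'0 i, (ht' i).2.2.mono (le_max_left _ _), hval i⟩, htcl, hai,
    hbd', φ, hφ, hφb⟩

/-- The value of a polynomial over `R.K` at `X` is in `k(R.s, X)`. -/
theorem eval_mem_kr (R : Fr k v r D) {X : Ω} {A : Polynomial Ω} (hA : A ∈ PI R.K) :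
    A.eval X ∈ kr k (Fin.snoc R.s X : Fin (r + D + 1) → Ω) := by
  have hTadj : adj R.K X = kr k (Fin.snoc R.s X : Fin (r + D + 1) → Ω) := by
    rw [P1.K_eq R, adj_range]
  rw [← hTadj, eval_eq_sum_range]
  exact sum_mem fun i _ => mul_mem ((mem_adj_self _ _).2 (hA i)) (pow_mem (mem_adj_self _ _).1 i)

/-- **J.9c**: approximate states of index `≤ S` give an exact one. -/
theorem Stt.of_approx [IsAlgClosed k] [IsAlgClosed Ω] (p : ℕ) [Fact p.Prime] [CharP k p]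
    [CharP Ω p] (h : Ctx k v r) (hcv : CompleteV v) {K₀ K : IntermediateField k Ω} (hK₀ : K₀.FG)
    (htr : Algebra.trdeg k K₀ = (r + D + 1 : ℕ)) (hBD : BD p v K₀) (hK : K = clI v K₀) {a : Ω}
    (ha : a ∈ K) {μ₁ : ℝ} (hμ : ∀ g ∈ K, ¬ v.Ge μ₁ (a - g ^ p)) {h₁ g₁ : Ω} (hh : h₁ ∈ K)
    (hh0 : h₁ ≠ 0) (hg : g₁ ∈ K) (R : Fr k v r D) {X : Ω} (hcl : clI v (adj R.K X) = K) {S : ℕ}
    (N₀ : ℝ) (hyp : ∀ N : ℝ, ∃ A ∈ PI R.K, ∃ ρ κ : ℝ, SL p v R.K X ρ κ S A ∧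
      v.Ge N (a * h₁ ^ p - g₁ ^ p - A.eval X)) :
    ∃ (R' : Fr k v r D) (X' : Ω) (ρ κ : ℝ) (A' : Polynomial Ω),
      Stt p v r D K a R'.K X' ρ κ S A' ∧ (∀ i, v.Ge N₀ (R.s i - R'.s i)) ∧ v.Ge N₀ (X - X') ∧
        (∀ i, v (R'.s i) = v (R.s i)) ∧ v X' = v X ∧ a * h₁ ^ p - g₁ ^ p = A'.eval X' := by
  classical
  set T : Fin (r + D + 1) → Ω := Fin.snoc R.s X with hT
  have hTadj : adj R.K X = kr k T := by rw [P1.K_eq R, adj_range]
  have hTcl : clI v (kr k T) = K := by rw [← hTadj, hcl]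
  obtain ⟨N, hN⟩ := exact_coords p h.toCtx0 hcv hK₀ htr hBD hK ha hμ hh hh0 hg hTcl N₀
  obtain ⟨A, hA, ρ, κ, hSL, hge⟩ := hyp N
  have hbT : A.eval X ∈ kr k T := eval_mem_kr R hA
  obtain ⟨t', ht', htcl, hai, hbd', φ, hφ, hφb⟩ := hN _ hbT hge
  have hinit : Fin.snoc (Fin.init t') (t' (Fin.last (r + D))) = t' := Fin.snoc_init_self t'
  have hX1 : T (Fin.last (r + D)) = X := by rw [hT, Fin.snoc_last]
  have hTs : ∀ i : Fin (r + D), T i.castSucc = R.s i := fun i => by rw [hT, Fin.snoc_castSucc]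
  obtain ⟨R', hR'⟩ := exists_frame R (t := Fin.init t')
    (hai.comp _ (Fin.castSucc_injective _)) (fun i => (ht' _).2.1) fun i => by
      rw [Fin.init, (ht' _).2.2.2, hTs]
  have hR'K : R'.K = kr k (Fin.init t') := by rw [P1.K_eq, hR']
  have hadj' : adj R'.K (t' (Fin.last (r + D))) = kr k t' := by
    rw [hR'K, adj_range, hinit]
  have htz : Transcendental R'.K (t' (Fin.last (r + D))) := by
    rw [hR'K]
    exact tr_last hai
  have hbd : BD p v R'.K := by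
    refine BD.of_adj p (Est.fg_K R') htz ?_
    rw [hadj']
    exact hbd'
  have hbT' : A.eval (T (Fin.last (r + D))) ∈ kr k T := by
    rw [hX1]
    exact hbT
  have hTs' : (fun i : Fin (r + D) => T i.castSucc) = R.s := funext hTs
  have hRK : R.K = kr k R.s := P1.K_eq R
  obtain ⟨A'', hSL'', hA''⟩ := SL.near φ hφ (r := ρ) (κ := κ) (S := S) (A := A) (by
      rw [hTs', hX1, ← hRK]
      exact hSL) hbT'
  have hbb : (⟨A.eval (T (Fin.last (r + D))), hbT'⟩ : kr k T) = ⟨A.eval X, hbT⟩ :=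
    Subtype.ext (congrArg (fun x => A.eval x) hX1)
  have hSL₂ : SL p v R'.K (t' (Fin.last (r + D))) ρ κ S A'' := by
    rw [hR'K]
    exact hSL''
  have he : a * h₁ ^ p - g₁ ^ p = A''.eval (t' (Fin.last (r + D))) := by
    rw [hA'', hbb, hφb]
  refine ⟨R', t' (Fin.last (r + D)), ρ, κ, A'', ⟨⟨R', rfl⟩, Est.fg_K R', Est.full_K h R',
    Est.trdeg_K R', hbd, htz, ?_, ⟨h₁, hh, hh0, g₁, hg, he⟩, hSL₂⟩, fun i => ?_, ?_, fun i => ?_,
    ?_, he⟩
  · rw [hadj', htcl]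
  · rw [hR', ← hTs]
    exact (ht' i.castSucc).2.2.1
  · have h1 := (ht' (Fin.last (r + D))).2.2.1
    rwa [hX1] at h1
  · rw [hR', ← hTs]
    exact (ht' i.castSucc).2.2.2
  · rw [(ht' _).2.2.2, hX1]

/-! ### Two variables -/

/-- The restriction of an isometry. -/
theorem VIso.exists_restrict {M M' F F' : IntermediateField k Ω} (φ : VIso v M M') (hFM : F ≤ M)
    (hF : ∀ a : M, (a : Ω) ∈ F ↔ (φ.e a : Ω) ∈ F') (hFM' : F' ≤ M') :
    ∃ ψ : VIso v F F', ∀ a (ha : a ∈ F), (ψ.e ⟨a, ha⟩ : Ω) = (φ.e ⟨a, hFM ha⟩ : Ω) := by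
  let f : F →ₐ[k] Ω := (M'.val.comp (φ.e : M →ₐ[k] M')).comp (IntermediateField.inclusion hFM)
  have hf : ∀ a : F, f a = (φ.e ⟨(a : Ω), hFM a.2⟩ : Ω) := fun a => rfl
  let g : F →ₐ[k] F' := f.codRestrict F'.toSubalgebra fun a => (hF ⟨(a : Ω), hFM a.2⟩).1 a.2
  have hg : ∀ a : F, (g a : Ω) = (φ.e ⟨(a : Ω), hFM a.2⟩ : Ω) := fun a => rfl
  have hbij : Function.Bijective g := by
    refine ⟨g.injective, fun b => ?_⟩
    have h1 : (φ.e (φ.e.symm ⟨(b : Ω), hFM' b.2⟩) : Ω) = (b : Ω) := by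
      rw [φ.e.apply_symm_apply]
    have h2 : ((φ.e.symm ⟨(b : Ω), hFM' b.2⟩ : M) : Ω) ∈ F := (hF _).2 (by rw [h1]; exact b.2)
    refine ⟨⟨_, h2⟩, Subtype.ext ?_⟩
    rw [hg]
    exact h1
  refine ⟨⟨AlgEquiv.ofBijective g hbij, fun a ha => ?_⟩, fun a ha => rfl⟩
  exact φ.val ⟨(a : Ω), hFM a.2⟩ ha

theorem exists_lift_PII {M : IntermediateField k Ω} {P : Polynomial (Polynomial Ω)}
    (hP : PII M P) :
    ∃ P₀ : Polynomial (Polynomial M), P₀.map (mapRingHom (algebraMap M Ω)) = P := by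
  have hl : P ∈ Polynomial.lifts (mapRingHom (algebraMap M Ω)) := by
    rw [Polynomial.lifts_iff_coeff_lifts]
    intro i
    obtain ⟨f₀, hf₀⟩ := exists_lift_PI (hP i)
    exact ⟨f₀, hf₀⟩
  exact (Polynomial.mem_lifts _).1 hl

/-- The image of a polynomial in two variables. -/
noncomputable def trpp {M M' : IntermediateField k Ω} (φ : VIso v M M')
    (P₀ : Polynomial (Polynomial M)) : Polynomial (Polynomial Ω) :=
  P₀.map (mapRingHom ((algebraMap M' Ω).comp (φ.e : M →+* M')))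

theorem trpp_coeff {M M' : IntermediateField k Ω} (φ : VIso v M M')
    (P₀ : Polynomial (Polynomial M)) (i l : ℕ) :
    ((trpp φ P₀).coeff i).coeff l = (φ.e ((P₀.coeff i).coeff l) : Ω) := by
  rw [trpp, coeff_map, coe_mapRingHom, coeff_map]
  rfl

theorem trpp_evalEval {M M' : IntermediateField k Ω} (φ : VIso v M M')
    (P₀ : Polynomial (Polynomial M)) (x y : M) :
    (trpp φ P₀).evalEval (φ.e x : Ω) (φ.e y : Ω) = (φ.e (P₀.evalEval x y) : Ω) :=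
  map_mapRingHom_evalEval ((algebraMap M' Ω).comp (φ.e : M →+* M')) P₀ x y

/-- Two elements more. -/
theorem adj_adj_eq (R : Fr k v r D) (X T : Ω) : adj (adj R.K X) T =
    kr k (Fin.snoc (Fin.snoc R.s X : Fin (r + D + 1) → Ω) T : Fin (r + D + 1 + 1) → Ω) := by
  rw [P1.K_eq R, adj_range, adj_range]

/-- **J.9c**, two variables: exact coordinates. -/
theorem exact_two [IsAlgClosed k] [IsAlgClosed Ω] (p : ℕ) [Fact p.Prime] [CharP k p]
    [CharP Ω p] (h : Ctx k v r) (hcv : CompleteV v) {K₀ K : IntermediateField k Ω} (hK₀ : K₀.FG)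
    (htr : Algebra.trdeg k K₀ = (r + D + 1 + 1 : ℕ)) (hBD : BD p v K₀) (hK : K = clI v K₀) {a : Ω}
    (ha : a ∈ K) {μ₁ : ℝ} (hμ : ∀ g ∈ K, ¬ v.Ge μ₁ (a - g ^ p)) {h₁ g₁ : Ω} (hh : h₁ ∈ K)
    (hh0 : h₁ ≠ 0) (hg : g₁ ∈ K) (R : Fr k v r D) {X T : Ω} (hcl : clI v (adj (adj R.K X) T) = K)
    (N₀ : ℝ) : ∃ N : ℝ, ∀ P : Polynomial (Polynomial Ω), ∀ hP : PII R.K P,
      v.Ge N (a * h₁ ^ p - g₁ ^ p - P.evalEval X T) →
      ∃ (R' : Fr k v r D) (X' T' : Ω) (P' : Polynomial (Polynomial Ω)) (ψ : VIso v R.K R'.K),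
        PII R'.K P' ∧ a * h₁ ^ p - g₁ ^ p = P'.evalEval X' T' ∧
        (∀ i l, ((P'.coeff i).coeff l) = (ψ.e ⟨(P.coeff i).coeff l, hP i l⟩ : Ω)) ∧
        clI v (adj (adj R'.K X') T') = K ∧ BD p v R'.K ∧ BD p v (adj R'.K X') ∧
        Transcendental R'.K X' ∧ Transcendental (adj R'.K X') T' ∧
        (∀ i, v.Ge N₀ (R.s i - R'.s i)) ∧ v.Ge N₀ (X - X') ∧ v.Ge N₀ (T - T') ∧
        (∀ i, v (R'.s i) = v (R.s i)) ∧ v X' = v X ∧ v T' = v T ∧ X' ≠ 0 ∧ T' ≠ 0 := by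
  classical
  set t : Fin (r + D + 1 + 1) → Ω := Fin.snoc (Fin.snoc R.s X : Fin (r + D + 1) → Ω) T with ht
  have hTadj : adj (adj R.K X) T = kr k t := adj_adj_eq R X T
  have hTcl : clI v (kr k t) = K := by rw [← hTadj, hcl]
  obtain ⟨N, hN⟩ := exact_coords p h.toCtx0 hcv hK₀ htr hBD hK ha hμ hh hh0 hg hTcl N₀
  refine ⟨N, fun P hP hge => ?_⟩
  -- the members
  have htT : t (Fin.last _) = T := by rw [ht, Fin.snoc_last]
  have htX : t (Fin.last (r + D)).castSucc = X := by rw [ht, Fin.snoc_castSucc, Fin.snoc_last]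
  have hts : ∀ i : Fin (r + D), t i.castSucc.castSucc = R.s i := fun i => by
    rw [ht, Fin.snoc_castSucc, Fin.snoc_castSucc]
  have hRt : R.K ≤ kr k t := by
    rw [← hTadj]
    exact fun x hx => (mem_adj_self _ _).2 ((mem_adj_self _ _).2 hx)
  have hXt : X ∈ kr k t := by
    rw [← htX]
    exact mem_kr t _
  have hTt : T ∈ kr k t := by
    rw [← htT]
    exact mem_kr t _
  obtain ⟨P₀, hP₀⟩ := exists_lift_PII (M := kr k t) fun i l => hRt (hP i l)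
  have hPc : ∀ i l, (P.coeff i).coeff l = ((P₀.coeff i).coeff l : Ω) := by
    intro i l
    rw [← hP₀, coeff_map, coe_mapRingHom, coeff_map]
    rfl
  have hPe : P.evalEval X T = (P₀.evalEval ⟨X, hXt⟩ ⟨T, hTt⟩ : kr k t) := by
    rw [← hP₀]
    exact map_mapRingHom_evalEval (algebraMap (kr k t) Ω) P₀ ⟨X, hXt⟩ ⟨T, hTt⟩
  have hPm : P.evalEval X T ∈ kr k t := by
    rw [hPe]
    exact Subtype.mem _
  obtain ⟨t', ht', htcl, hai, hbd', φ, hφ, hφb⟩ := hN _ hPm hge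
  -- the new coordinates
  have hai1 : AlgebraicIndependent k (Fin.init t') := hai.comp _ (Fin.castSucc_injective _)
  have hai0 : AlgebraicIndependent k (Fin.init (Fin.init t')) :=
    hai1.comp _ (Fin.castSucc_injective _)
  have hinit : Fin.snoc (Fin.init t') (t' (Fin.last _)) = t' := Fin.snoc_init_self t'
  have hinit' : Fin.snoc (Fin.init (Fin.init t')) (Fin.init t' (Fin.last _)) = Fin.init t' :=
    Fin.snoc_init_self _
  obtain ⟨R', hR'⟩ := exists_frame R (t := Fin.init (Fin.init t')) hai0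
    (fun i => (ht' _).2.1) fun i => by
      rw [Fin.init, Fin.init, (ht' _).2.2.2, hts]
  have hR'K : R'.K = kr k (Fin.init (Fin.init t')) := by rw [P1.K_eq, hR']
  have hadj1 : adj R'.K (Fin.init t' (Fin.last _)) = kr k (Fin.init t') := by
    rw [hR'K, adj_range, hinit']
  have hadj2 : adj (adj R'.K (Fin.init t' (Fin.last _))) (t' (Fin.last _)) = kr k t' := by
    rw [hadj1, adj_range, hinit]
  have htz : Transcendental (adj R'.K (Fin.init t' (Fin.last _))) (t' (Fin.last _)) := by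
    rw [hadj1]
    exact tr_last hai
  have htx : Transcendental R'.K (Fin.init t' (Fin.last _)) := by
    rw [hR'K]
    exact tr_last hai1
  have hbd1 : BD p v (adj R'.K (Fin.init t' (Fin.last _))) := by
    refine BD.of_adj p ?_ htz ?_
    · rw [hadj1]
      exact IntermediateField.fg_adjoin_of_finite (Set.finite_range _)
    · rw [hadj2]
      exact hbd'
  have hbd0 : BD p v R'.K := BD.of_adj p (Est.fg_K R') htx hbd1
  -- the isometry
  have hRK : R.K = kr k (t ∘ fun i : Fin (r + D) => i.castSucc.castSucc) := by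
    rw [P1.K_eq R]
    congr 2
    exact (funext hts).symm
  have hR'K' : R'.K = kr k (t' ∘ fun i : Fin (r + D) => i.castSucc.castSucc) := hR'K
  have hR't : R'.K ≤ kr k t' := by
    rw [← hadj2]
    exact fun x hx => (mem_adj_self _ _).2 ((mem_adj_self _ _).2 hx)
  obtain ⟨ψ, hψ⟩ := VIso.exists_restrict (F := R.K) (F' := R'.K) φ hRt (fun b => by
    rw [hRK, hR'K']
    exact mem_kr_iff φ hφ _ b) hR't
  have hco : ∀ i l, ((trpp φ P₀).coeff i).coeff l =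
      (ψ.e ⟨(P.coeff i).coeff l, hP i l⟩ : Ω) := by
    intro i l
    rw [trpp_coeff, hψ]
    congr 2
    exact Subtype.ext (hPc i l).symm
  have hφX : (φ.e ⟨X, hXt⟩ : Ω) = Fin.init t' (Fin.last _) := by
    have h1 := hφ (Fin.last (r + D)).castSucc (mem_kr t _)
    rw [Fin.init, ← h1]
    congr 2
    exact Subtype.ext htX.symm
  have hφT : (φ.e ⟨T, hTt⟩ : Ω) = t' (Fin.last _) := by
    have h1 := hφ (Fin.last _) (mem_kr t _)
    rw [← h1]
    congr 2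
    exact Subtype.ext htT.symm
  refine ⟨R', Fin.init t' (Fin.last _), t' (Fin.last _), trpp φ P₀, ψ, fun i l => ?_, ?_, hco,
    ?_, hbd0, hbd1, htx, htz, fun i => ?_, ?_, ?_, fun i => ?_, ?_, ?_, (ht' _).2.1,
    (ht' _).2.1⟩
  · rw [hco]
    exact Subtype.mem _
  · rw [← hφX, ← hφT, trpp_evalEval, ← hφb]
    congr 2
    exact Subtype.ext hPe
  · rw [hadj2, htcl]
  · rw [hR', ← hts]
    exact (ht' _).2.2.1
  · have h1 := (ht' (Fin.last (r + D)).castSucc).2.2.1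
    rwa [htX] at h1
  · have h1 := (ht' (Fin.last _)).2.2.1
    rwa [htT] at h1
  · rw [hR', ← hts]
    exact (ht' _).2.2.2
  · have h1 := (ht' (Fin.last (r + D)).castSucc).2.2.2
    rwa [htX] at h1
  · have h1 := (ht' (Fin.last _)).2.2.2
    rwa [htT] at h1

/-- Transport of the distance to the `p`-th powers. -/
theorem Dst.viso {p : ℕ} {F F' : IntermediateField k Ω} (ψ : VIso v F F') {κ : ℝ} {f : F}
    (hf : Dst p v F κ (f : Ω)) : Dst p v F' κ (ψ.e f : Ω) := by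
  refine ⟨fun ε hε => ?_, fun e he g hg hge => ?_⟩
  · obtain ⟨g, hg, h1⟩ := hf.lo ε hε
    refine ⟨(ψ.e ⟨g, hg⟩ : Ω), Subtype.mem _, ?_⟩
    have h2 : (ψ.e f : Ω) - (ψ.e ⟨g, hg⟩ : Ω) ^ p = (ψ.e (f - ⟨g, hg⟩ ^ p) : Ω) := by
      rw [map_sub, map_pow]
      rfl
    rw [h2, ψ.ge_iff]
    exact h1
  · set g₀ : F := ψ.e.symm ⟨g, hg⟩ with hg₀
    have h1 : (ψ.e g₀ : Ω) = g := by rw [hg₀, ψ.e.apply_symm_apply]
    refine hf.hi e he (g₀ : Ω) g₀.2 ?_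
    have h2 : (ψ.e f : Ω) - g ^ p = (ψ.e (f - g₀ ^ p) : Ω) := by
      rw [map_sub, map_pow, ← h1]
      rfl
    rw [h2, ψ.ge_iff] at hge
    exact hge

/-- **J.9c**, two variables: the constant coefficient is responsible for the distance. -/
theorem Stt0.of_approx [IsAlgClosed k] [IsAlgClosed Ω] (p : ℕ) [Fact p.Prime] [CharP k p]
    [CharP Ω p] (h : Ctx k v r) (hcv : CompleteV v) {K₀ K : IntermediateField k Ω} (hK₀ : K₀.FG)
    (htr : Algebra.trdeg k K₀ = (r + D + 1 + 1 : ℕ)) (hBD : BD p v K₀) (hK : K = clI v K₀) {a : Ω}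
    (ha : a ∈ K) {μ₁ : ℝ} (hμ : ∀ g ∈ K, ¬ v.Ge μ₁ (a - g ^ p)) {h₁ g₁ : Ω} (hh : h₁ ∈ K)
    (hh0 : h₁ ≠ 0) (hg : g₁ ∈ K) (R : Fr k v r D) {X T : Ω} (hcl : clI v (adj (adj R.K X) T) = K)
    {κ₀ δ ρ c : ℝ} (N₀ : ℝ) (hyp : ∀ N : ℝ, ∃ P : Polynomial (Polynomial Ω), PII R.K P ∧
      v.Ge N (a * h₁ ^ p - g₁ ^ p - P.evalEval X T) ∧ Dst p v R.K κ₀ ((P.coeff 0).coeff 0) ∧
      ∀ l i : ℕ, (l ≠ 0 ∨ i ≠ 0) → v.Ge (κ₀ + δ - l * ρ - i * c) ((P.coeff i).coeff l)) :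
    ∃ (R' : Fr k v r D) (X' T' : Ω) (P' : Polynomial (Polynomial Ω)), PII R'.K P' ∧
      a * h₁ ^ p - g₁ ^ p = P'.evalEval X' T' ∧ Dst p v R'.K κ₀ ((P'.coeff 0).coeff 0) ∧
      (∀ l i : ℕ, (l ≠ 0 ∨ i ≠ 0) → v.Ge (κ₀ + δ - l * ρ - i * c) ((P'.coeff i).coeff l)) ∧
      clI v (adj (adj R'.K X') T') = K ∧ BD p v R'.K ∧ BD p v (adj R'.K X') ∧
      Transcendental R'.K X' ∧ Transcendental (adj R'.K X') T' ∧
      (∀ i, v.Ge N₀ (R.s i - R'.s i)) ∧ v.Ge N₀ (X - X') ∧ v.Ge N₀ (T - T') ∧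
      (∀ i, v (R'.s i) = v (R.s i)) ∧ v X' = v X ∧ v T' = v T ∧ X' ≠ 0 ∧ T' ≠ 0 := by
  obtain ⟨N, hN⟩ := exact_two p h hcv hK₀ htr hBD hK ha hμ hh hh0 hg R hcl N₀
  obtain ⟨P, hP, hge, hd, hc⟩ := hyp N
  obtain ⟨R', X', T', P', ψ, h1, h2, h3, h4⟩ := hN P hP hge
  refine ⟨R', X', T', P', h1, h2, ?_, fun l i hli => ?_, h4⟩
  · rw [h3]
    exact Dst.viso ψ hd
  · rw [h3, ψ.ge_iff]
    exact hc l i hli

end Pool.Agent.TWJ2
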