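import Pool.Agent.Lib.TWJ.SV
import Pool.Agent.Lib.TWJ2.Apx

/-!
# TANK W, ROW J: automorphisms of the closed field, exact states

* `exists_extCl`: an isometry extends to the closures;
* `exists_aut`: `K` closed, with bounded distortion, `f ∈ K` far from the `p`-th powers: if `b ∈ K`
  is near to `f`, there is an isometric automorphism of `K` which maps `b` to `f`. The precision
  depends on `K` and on the distance of `f` from the `p`-th powers only;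
* `exists_aut_frame`: the image of a frame under an automorphism;
* `stt_of_near`: an exact state from an approximate one, with a precision which does not depend on
  the frame.
-/

set_option autoImplicit false

open Polynomial

namespace Pool.Agent.TWJ2

open Pool.Agent.H15JM (RVal)
open Pool.Agent.LU1 (adj)
open Pool.Agent.D2 (Ctx0)
open Pool.Agent.D2P (hen clI mem_clI mem_adj_self adj_le)
open Pool.Agent.TW
open Pool.Agent.TWM (CompleteV le_clI clI_mono clI_clI OI pbasis_clI gen_of_bas adj_range SL PI)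
open Pool.Agent.TWJ

universe u

variable {k Ω : Type u} [Field k] [Field Ω] [Algebra k Ω] {v : RVal Ω} {r D : ℕ}

section Ext

variable {M M' M'' : IntermediateField k Ω}

theorem exists_rel_cl (hcv : CompleteV v) (φ : VIso v M M') {a : Ω} (ha : a ∈ clI v M) :
    ∃ a' ∈ clI v M', φ.Rel a a' := by
  have h1 : ∀ n : ℕ, ∃ c : M, v.Ge n (a - c) := by
    intro n
    obtain ⟨c, hc, h2⟩ := mem_clI.1 ha n
    exact ⟨⟨c, hc⟩, h2⟩
  choose c hc using h1
  have hle : ∀ (C : ℝ) (n : ℕ), ⌈C⌉₊ ≤ n → C ≤ n := fun C n hn =>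
    (Nat.le_ceil C).trans (by exact_mod_cast hn)
  have h2 : ∀ C : ℝ, ∃ N : ℕ, ∀ m n, N ≤ m → N ≤ n →
      v.Ge C ((φ.e (c m) : Ω) - φ.e (c n)) := by
    intro C
    refine ⟨⌈C⌉₊, fun m n hm hn => ?_⟩
    have h3 : v.Ge C ((c m - c n : M) : Ω) := by
      have h4 : ((c m - c n : M) : Ω) = (a - c n) - (a - c m) := by push_cast; ring
      rw [h4]
      exact ((hc n).mono (hle C n hn)).sub ((hc m).mono (hle C m hm))
    have h4 := φ.ge_iff.2 h3
    rw [_root_.map_sub] at h4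
    exact h4
  obtain ⟨a', ha'⟩ := hcv (fun n => (φ.e (c n) : Ω)) h2
  refine ⟨a', mem_clI.2 fun C => ?_, fun C => ?_⟩
  · obtain ⟨N, hN⟩ := ha' C
    exact ⟨φ.e (c N), (φ.e (c N)).2, hN N le_rfl⟩
  · obtain ⟨N, hN⟩ := ha' C
    exact ⟨c (max N ⌈C⌉₊), (hc _).mono (hle C _ (le_max_right _ _)), hN _ (le_max_left _ _)⟩

/-- The extension to the closures. -/
noncomputable def extCl (hcv : CompleteV v) (φ : VIso v M M') :
    VIso v (clI v M) (clI v M') where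
  e :=
    { toFun := fun a => ⟨(exists_rel_cl hcv φ a.2).choose, (exists_rel_cl hcv φ a.2).choose_spec.1⟩
      invFun := fun a => ⟨(exists_rel_cl hcv φ.symm a.2).choose,
        (exists_rel_cl hcv φ.symm a.2).choose_spec.1⟩
      left_inv := fun a => Subtype.ext <|
        VIso.Rel.uniq
          (exists_rel_cl hcv φ.symm (exists_rel_cl hcv φ a.2).choose_spec.1).choose_spec.2
          (exists_rel_cl hcv φ a.2).choose_spec.2.symm
      right_inv := fun a => Subtype.ext <|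
        VIso.Rel.uniq (φ := φ)
          (exists_rel_cl hcv φ (exists_rel_cl hcv φ.symm a.2).choose_spec.1).choose_spec.2
          (VIso.Rel.symm (exists_rel_cl hcv φ.symm a.2).choose_spec.2)
      map_mul' := fun a b => Subtype.ext <|
        VIso.Rel.uniq (exists_rel_cl hcv φ (a * b).2).choose_spec.2
          ((exists_rel_cl hcv φ a.2).choose_spec.2.mul (exists_rel_cl hcv φ b.2).choose_spec.2)
      map_add' := fun a b => Subtype.ext <|
        VIso.Rel.uniq (exists_rel_cl hcv φ (a + b).2).choose_spec.2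
          ((exists_rel_cl hcv φ a.2).choose_spec.2.add (exists_rel_cl hcv φ b.2).choose_spec.2)
      commutes' := fun c => Subtype.ext <| by
        refine VIso.Rel.uniq (exists_rel_cl hcv φ (algebraMap k (clI v M) c).2).choose_spec.2 ?_
        have h1 := VIso.Rel.base φ (algebraMap k M c)
        rwa [φ.e.commutes] at h1 }
  val := fun a ha => ((exists_rel_cl hcv φ a.2).choose_spec.2.val ha).2

theorem exists_extCl (hcv : CompleteV v) (φ : VIso v M M') {N N' : IntermediateField k Ω}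
    (hN : clI v M = N) (hN' : clI v M' = N') : ∃ Φ : VIso v N N',
      ∀ (a : M) (ha : (a : Ω) ∈ N), (Φ.e ⟨a, ha⟩ : Ω) = φ.e a := by
  subst hN
  subst hN'
  refine ⟨extCl hcv φ, fun a ha => ?_⟩
  exact VIso.Rel.uniq (exists_rel_cl hcv φ ha).choose_spec.2 (VIso.Rel.base φ a)

/-- The composition. -/
def VIso.comp (φ : VIso v M M') (ψ : VIso v M' M'') : VIso v M M'' where
  e := φ.e.trans ψ.e
  val := by
    intro a ha
    have h1 : (φ.e a : Ω) ≠ 0 := fun h0 => ha ((φ.coe_eq_zero a).1 h0)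
    exact (ψ.val _ h1).trans (φ.val a ha)

end Ext

/-- An isometric automorphism which maps `b` to `f`. -/
theorem exists_aut [IsAlgClosed k] (p : ℕ) [Fact p.Prime] [CharP k p] [CharP Ω p]
    (h0 : Ctx0 k v) (hcv : CompleteV v) {K₀ K : IntermediateField k Ω} (hK₀ : K₀.FG) {n : ℕ}
    (htr : Algebra.trdeg k K₀ = n) (hBD : BD p v K₀) (hK : K = clI v K₀) {t : Fin n → Ω}
    (hcl : clI v (kr k t) = K) (μ m₀ : ℝ) :
    ∃ N₁ : ℝ, ∀ f ∈ K, v.Ge m₀ f → (∀ g ∈ K, ¬ v.Ge μ (f - g ^ p)) → ∀ b (hb : b ∈ K),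
      v.Ge N₁ (f - b) → ∃ ψ : VIso v K K, (ψ.e ⟨b, hb⟩ : Ω) = f := by
  classical
  obtain ⟨m, s, hsb, C, hC⟩ := id hBD
  have hm : m = n := by
    have h4 := (hsb.trdeg p hK₀).1
    rw [htr] at h4
    exact_mod_cast h4.symm
  subst hm
  have hos : OI p v (clI v K₀) s C := (OI.of_orth_pb hC hsb).cl
  have hpb : PBasis p K s := by
    rw [hK]
    exact pbasis_clI hcv hsb hos
  have hBDK : BD p v K := ⟨_, s, hpb, C, by rw [hK]; exact hos.orth⟩
  obtain ⟨hpT, hT0, C₁, hoT⟩ := gen_of_bas hBDK hpb hcl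
  obtain ⟨C₂, hC₂⟩ := exact_gen p h0 hcv hcl hoT hT0 μ m₀ 0
  refine ⟨max (max m₀ μ) C₂, fun f hf hfm hfμ b hb hge => ?_⟩
  have hge1 : v.Ge m₀ (f - b) := hge.mono ((le_max_left _ _).trans (le_max_left _ _))
  have hge2 : v.Ge μ (f - b) := hge.mono ((le_max_right _ _).trans (le_max_left _ _))
  have hge3 : v.Ge C₂ (f - b) := hge.mono (le_max_right _ _)
  have hbm : v.Ge m₀ b := by
    have h1 := hfm.sub hge1
    rwa [sub_sub_cancel] at h1
  have hbμ : ∀ g ∈ K, ¬ v.Ge μ (b - g ^ p) := by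
    intro g hg h1
    refine hfμ g hg ?_
    have h2 := hge2.add h1
    rwa [sub_add_sub_cancel] at h2
  have hbcl : b ∈ clI v (kr k t) := by
    rw [hcl]
    exact hb
  obtain ⟨b₀, hb₀, h1⟩ := mem_clI.1 hbcl C₂
  have hfb : v.Ge C₂ (f - b₀) := by
    have h2 := hge3.add h1
    rwa [sub_add_sub_cancel] at h2
  obtain ⟨t', -, htcl', φ', -, hφ'⟩ := hC₂ b hb hbm hbμ b₀ hb₀ h1
  obtain ⟨t'', -, htcl'', φ'', -, hφ''⟩ := hC₂ f hf hfm hfμ b₀ hb₀ hfb
  obtain ⟨Φ', hΦ'⟩ := exists_extCl hcv φ' hcl htcl'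
  obtain ⟨Φ'', hΦ''⟩ := exists_extCl hcv φ'' hcl htcl''
  have hb₀K : b₀ ∈ K := by
    rw [← hcl]
    exact le_clI _ hb₀
  refine ⟨VIso.comp Φ'.symm Φ'', ?_⟩
  have h2 : Φ'.symm.e ⟨b, hb⟩ = ⟨b₀, hb₀K⟩ := by
    have h3 : Φ'.e ⟨b₀, hb₀K⟩ = ⟨b, hb⟩ := Subtype.ext ((hΦ' ⟨b₀, hb₀⟩ hb₀K).trans hφ')
    rw [← h3]
    exact Φ'.e.symm_apply_apply _
  show (Φ''.e (Φ'.symm.e ⟨b, hb⟩) : Ω) = f
  rw [h2]
  exact (hΦ'' ⟨b₀, hb₀⟩ hb₀K).trans hφ''

/-- The image of coordinates under an automorphism. -/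
theorem exists_aut_kr {K : IntermediateField k Ω} (ψ : VIso v K K) {n : ℕ} {t : Fin n → Ω}
    (hcl : clI v (kr k t) = K) : ∃ t' : Fin n → Ω, (∀ i, t' i ∈ K) ∧ clI v (kr k t') = K ∧
      ∃ φ : VIso v (kr k t) (kr k t'),
        (∀ i (hi : t i ∈ kr k t), (φ.e ⟨t i, hi⟩ : Ω) = t' i) ∧
        ∀ (a : kr k t) (ha : (a : Ω) ∈ K), (φ.e a : Ω) = ψ.e ⟨a, ha⟩ := by
  classical
  have hle : kr k t ≤ K := by
    rw [← hcl]
    exact le_clI _
  have hm : ∀ {n : ℕ} (s : Fin n → Ω) (j : Fin n), s j ∈ kr k s := fun s j =>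
    IntermediateField.subset_adjoin k _ ⟨j, rfl⟩
  have hKc : clI v K = K := by
    rw [← hcl]
    exact clI_clI _
  set t' : Fin n → Ω := fun i => (ψ.e ⟨t i, hle (hm t i)⟩ : Ω) with ht'
  have ht'K : ∀ i, t' i ∈ K := fun i => (ψ.e ⟨t i, hle (hm t i)⟩).2
  have hle' : kr k t' ≤ K := by
    rw [IntermediateField.adjoin_le_iff]
    rintro _ ⟨i, rfl⟩
    exact ht'K i
  have h : ∀ a ∈ kr k t, ∃ h : a ∈ K, (ψ.e ⟨a, h⟩ : Ω) ∈ kr k t' := by
    intro a ha
    refine maps_adjoin ψ ?_ ha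
    rintro _ ⟨j, rfl⟩
    exact ⟨hle (hm t j), hm t' j⟩
  have h' : ∀ a ∈ kr k t', ∃ h : a ∈ K, (ψ.symm.e ⟨a, h⟩ : Ω) ∈ kr k t := by
    intro a ha
    refine maps_adjoin ψ.symm ?_ ha
    rintro _ ⟨j, rfl⟩
    refine ⟨ht'K j, ?_⟩
    have h2 : ψ.symm.e (ψ.e ⟨t j, hle (hm t j)⟩) = ⟨t j, hle (hm t j)⟩ :=
      ψ.e.symm_apply_apply _
    have h1 : (⟨t' j, ht'K j⟩ : K) = ψ.e ⟨t j, hle (hm t j)⟩ := Subtype.ext rfl
    rw [h1, h2]
    exact hm t j
  obtain ⟨φ, hφ⟩ := exists_restr (E := kr k t) (E' := kr k t') ψ hle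
    (fun a => (h a a.2).snd) fun b hb => by
      obtain ⟨h1, h2⟩ := h' b hb
      refine ⟨⟨_, h2⟩, ?_⟩
      rw [restrHom_apply]
      have h3 : ψ.e (ψ.symm.e ⟨b, h1⟩) = ⟨b, h1⟩ := ψ.e.apply_symm_apply _
      exact congrArg Subtype.val h3
  refine ⟨t', ht'K, le_antisymm ?_ fun c hc => ?_, φ, fun i hi => ?_, hφ⟩
  · rw [← hKc]
    exact clI_mono hle'
  · refine mem_clI.2 fun N => ?_
    have hd : (ψ.symm.e ⟨c, hc⟩ : Ω) ∈ clI v (kr k t) := by
      rw [hcl]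
      exact (ψ.symm.e ⟨c, hc⟩).2
    obtain ⟨e, he, h1⟩ := mem_clI.1 hd N
    obtain ⟨heK, h2⟩ := h e he
    refine ⟨_, h2, ?_⟩
    have h3 : (c : Ω) - (ψ.e ⟨e, heK⟩ : Ω) =
        (ψ.e (ψ.symm.e ⟨c, hc⟩ - ⟨e, heK⟩) : Ω) := by
      rw [_root_.map_sub]
      have h4 : ψ.e (ψ.symm.e ⟨c, hc⟩) = ⟨c, hc⟩ := ψ.e.apply_symm_apply _
      rw [h4]
      rfl
    rw [h3]
    exact ψ.ge_iff.2 h1
  · rw [hφ _ (hle hi)]

/-- **Exact states from approximate ones**, with a precision independent of the frame. -/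
theorem stt_of_near [IsAlgClosed k] [IsAlgClosed Ω] (p : ℕ) [Fact p.Prime] [CharP k p]
    [CharP Ω p] (h : Ctx k v r) (hcv : CompleteV v) {K₀ K : IntermediateField k Ω} (hK₀ : K₀.FG)
    (htr : Algebra.trdeg k K₀ = (r + D + 1 : ℕ)) (hBD : BD p v K₀) (hK : K = clI v K₀)
    {t₀ : Fin (r + D + 1) → Ω} (ht₀ : clI v (kr k t₀) = K) {a : Ω}
    (ha : a ∈ K) {μ₁ : ℝ} (hμ : ∀ g ∈ K, ¬ v.Ge μ₁ (a - g ^ p)) {h₁ g₁ : Ω} (hh : h₁ ∈ K)
    (hh0 : h₁ ≠ 0) (hg : g₁ ∈ K) :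
    ∃ N₁ : ℝ, ∀ (R : Fr k v r D) (X : Ω), clI v (adj R.K X) = K → ∀ (S : ℕ) (ρ κ : ℝ)
      (A : Polynomial Ω), SL p v R.K X ρ κ S A → v.Ge N₁ (a * h₁ ^ p - g₁ ^ p - A.eval X) →
      ∃ (R' : Fr k v r D) (X' : Ω) (A' : Polynomial Ω), Stt p v r D K a R'.K X' ρ κ S A' ∧
        (∀ i, v (R'.s i) = v (R.s i)) ∧ v X' = v X ∧ a * h₁ ^ p - g₁ ^ p = A'.eval X' := by
  classical
  obtain ⟨m, s, hsb, C, hC⟩ := id hBD
  have hm : m = r + D + 1 := by
    have h4 := (hsb.trdeg p hK₀).1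
    rw [htr] at h4
    exact_mod_cast h4.symm
  subst hm
  have hos : OI p v (clI v K₀) s C := (OI.of_orth_pb hC hsb).cl
  have hpb : PBasis p K s := by
    rw [hK]
    exact pbasis_clI hcv hsb hos
  have hBDK : BD p v K := ⟨_, s, hpb, C, by rw [hK]; exact hos.orth⟩
  have haK : a * h₁ ^ p - g₁ ^ p ∈ K := sub_mem (mul_mem ha (pow_mem hh p)) (pow_mem hg p)
  have hdist : ∀ g ∈ K, ¬ v.Ge (μ₁ + p * v h₁) (a * h₁ ^ p - g₁ ^ p - g ^ p) := by
    intro g hg' h1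
    refine hμ ((g + g₁) / h₁) (div_mem (add_mem hg' hg) hh) fun hne => ?_
    have e1 : a - ((g + g₁) / h₁) ^ p = (a * h₁ ^ p - g₁ ^ p - g ^ p) / h₁ ^ p := by
      rw [div_pow, add_pow_char, eq_div_iff (pow_ne_zero p hh0), sub_mul,
        div_mul_cancel₀ _ (pow_ne_zero p hh0)]
      ring
    rw [e1] at hne ⊢
    have h2 : a * h₁ ^ p - g₁ ^ p - g ^ p ≠ 0 := fun h3 => hne (by rw [h3, zero_div])
    rw [v.map_div h2 (pow_ne_zero p hh0), v.map_pow hh0]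
    have := h1 h2
    linarith
  obtain ⟨N₁, hN₁⟩ := exists_aut p h.toCtx0 hcv hK₀ htr hBD hK ht₀ (μ₁ + p * v h₁)
    (v (a * h₁ ^ p - g₁ ^ p))
  refine ⟨N₁, fun R X hcl S ρ κ A hSL hge => ?_⟩
  have hAX : A.eval X ∈ K := by
    rw [← hcl]
    exact le_clI _ (eval_mem_adj hSL.mem)
  obtain ⟨ψ, hψ⟩ := hN₁ _ haK (v.ge_self _) hdist (A.eval X) hAX hge
  set T : Fin (r + D + 1) → Ω := Fin.snoc R.s X with hT
  have hTadj : adj R.K X = kr k T := by rw [P1.K_eq R, adj_range]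
  have hTcl : clI v (kr k T) = K := by rw [← hTadj, hcl]
  obtain ⟨t', ht'K, htcl, φ, hφ, hφψ⟩ := exists_aut_kr ψ hTcl
  have hbT : A.eval X ∈ kr k T := eval_mem_kr R hSL.mem
  have hφb : (φ.e ⟨A.eval X, hbT⟩ : Ω) = a * h₁ ^ p - g₁ ^ p := by
    rw [hφψ _ hAX]
    exact hψ
  obtain ⟨hpT, hT0, -, -⟩ := gen_of_bas hBDK hpb hTcl
  obtain ⟨hpt', ht'0, C₃, hot'⟩ := gen_of_bas hBDK hpb htcl
  have hai : AlgebraicIndependent k t' := (hot'.mono (by
    rw [← htcl]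
    exact le_clI _) le_rfl).algInd ht'0
  have hval : ∀ i, v (t' i) = v (T i) := by
    intro i
    have h1 := φ.val ⟨T i, IntermediateField.subset_adjoin k _ ⟨i, rfl⟩⟩ (hT0 i)
    rwa [hφ] at h1
  have hFG' : (kr k t').FG := IntermediateField.fg_adjoin_of_finite (Set.finite_range _)
  have hbd' : BD p v (kr k t') := (BD_dense hBDK hpb hFG' htcl).2 (by
    rw [trdeg_adjoin_eq hai.to_subtype_range]
    have h2 := Cardinal.mk_range_eq_of_injective hai.injective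
    simpa using h2)
  have hinit : Fin.snoc (Fin.init t') (t' (Fin.last (r + D))) = t' := Fin.snoc_init_self t'
  have hX1 : T (Fin.last (r + D)) = X := by rw [hT, Fin.snoc_last]
  have hTs : ∀ i : Fin (r + D), T i.castSucc = R.s i := fun i => by rw [hT, Fin.snoc_castSucc]
  obtain ⟨R', hR'⟩ := exists_frame R (t := Fin.init t')
    (hai.comp _ (Fin.castSucc_injective _)) (fun i => ht'0 _) fun i => by
      rw [Fin.init, hval, hTs]
  have hR'K : R'.K = kr k (Fin.init t') := by rw [P1.K_eq, hR']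
  have hadj' : adj R'.K (t' (Fin.last (r + D))) = kr k t' := by
    rw [hR'K, adj_range, hinit]
  have htz : Transcendental R'.K (t' (Fin.last (r + D))) := by
    rw [hR'K]
    exact tr_last hai
  have hbd : BD p v R'.K := by
    refine BD.of_adj p (Est.fg_K R') htz ?_
    rw [hadj']
    exact hbd'
  have hbT' : A.eval (T (Fin.last (r + D))) ∈ kr k T := by
    rw [hX1]
    exact hbT
  have hTs' : (fun i : Fin (r + D) => T i.castSucc) = R.s := funext hTs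
  have hRK : R.K = kr k R.s := P1.K_eq R
  obtain ⟨A'', hSL'', hA''⟩ := SL.near φ hφ (r := ρ) (κ := κ) (S := S) (A := A) (by
      rw [hTs', hX1, ← hRK]
      exact hSL) hbT'
  have hbb : (⟨A.eval (T (Fin.last (r + D))), hbT'⟩ : kr k T) = ⟨A.eval X, hbT⟩ :=
    Subtype.ext (congrArg (fun x => A.eval x) hX1)
  have hSL₂ : SL p v R'.K (t' (Fin.last (r + D))) ρ κ S A'' := by
    rw [hR'K]
    exact hSL''
  have he : a * h₁ ^ p - g₁ ^ p = A''.eval (t' (Fin.last (r + D))) := by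
    rw [hA'', hbb, hφb]
  refine ⟨R', t' (Fin.last (r + D)), A'', ⟨⟨R', rfl⟩, Est.fg_K R', Est.full_K h R',
    Est.trdeg_K R', hbd, htz, ?_, ⟨h₁, hh, hh0, g₁, hg, he⟩, hSL₂⟩, fun i => ?_, ?_, he⟩
  · rw [hadj', htcl]
  · rw [hR', ← hTs]
    exact hval i.castSucc
  · rw [hval, hX1]

end Pool.Agent.TWJ2
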