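import Pool.Agent.Lib.TWJ2.Grow

/-!
# TANK W, ROW J: the constraint (C')

* `back_all`, `back2_all`: the transport back, all the coefficients bounded;
* `cprime_step`: from a level just above `b` to the level `w`;
* `exists_cprimeE`: the constraint (C'), for the representations of `a` up to an error of large
  value.
-/

set_option autoImplicit false
set_option linter.unusedSectionVars false

open Polynomial

namespace Pool.Agent.TWJ2

open Pool.Agent.H15JM (RVal)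
open Pool.Agent.LU1 (adj)
open Pool.Agent.D2 (Ctx0)
open Pool.Agent.D2P (hen clI mem_clI mem_adj_self adj_le)
open Pool.Agent.TW
open Pool.Agent.TWM (CompleteV le_clI clI_mono clI_clI clI_hen PI PII GB Gt C_mem_PI X_mem_PI)
open Pool.Agent.TWJ (IsMin MinS)
open Pool.Agent.TWJ2.Dg

universe u

section Back

variable {k Ω : Type u} [Field k] [Field Ω] [Algebra k Ω] {v : RVal Ω}
  {F : IntermediateField k Ω} {z η : Ω} {ρ b₁ b : ℝ}
  {p : ℕ} {r D : ℕ} {ε : ℝ} [Fact p.Prime] [CharP k p] [CharP Ω p] [IsAlgClosed Ω]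
  [IsAlgClosed k]

/-- The transport back, one variable, all the coefficients bounded. -/
theorem back_all (h : Ctx k v r) (d : SD p k v r D F z η ρ b₁ b ε) {b' : ℝ}
    (hbb : b ≤ b') {γ : ℝ} (hQ' : GN v F η b' γ (minpoly F η)) {A P₁ : F[X]}
    {A' g' : Polynomial Ω} (hA' : A' ∈ PI d.S'.K) (hg' : g' ∈ PI d.S'.K) {L : ℝ}
    (hrep : Reg v F z η b₁ b' L (aeval z A - A'.eval d.X))
    (hP₁ : Reg v F z η b₁ b' (L / p) (g'.eval d.X - aeval z P₁))
    (hcoef : ∀ i : ℕ, v.Ge (L - i * (γ - v d.q)) ((A' - g' ^ p).coeff i)) :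
    GN v F η b' L (A - P₁ ^ p) := by
  have hb : b₁ < b' := lt_of_lt_of_le d.lt₂ hbb
  have hz := d.cen.tr
  have hpR : (0 : ℝ) < p := by exact_mod_cast (Fact.out : p.Prime).pos
  have hXr := TWJ.reg_X h d hbb hQ'
  set R := A' - g' ^ p with hR
  have hRm : R ∈ PI d.S'.K := sub_mem hA' (pow_mem hg' p)
  refine TWJ.GN.of_Reg hz hb.le ?_
  have e1 : aeval z (A - P₁ ^ p) = (aeval z A - A'.eval d.X) +
      ((g'.eval d.X - aeval z P₁) ^ p + R.eval d.X) := by
    rw [hR, eval_sub, eval_pow, sub_pow_char]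
    simp only [_root_.map_sub, _root_.map_pow]
    ring
  rw [e1]
  refine hrep.add (Reg.add ?_ ?_ hb.le) hb.le
  · refine Reg.mono (le_of_eq ?_) (TWJ.Reg.pow' hP₁ p)
    field_simp
  · rw [eval_eq_sum_range]
    refine TWJ.Reg.sum' hb.le _ _ fun i _ => ?_
    refine Reg.mono (le_of_eq ?_) ((TWJ.reg_ge h d hbb (hRm i) (hcoef i)).mul
      (TWJ.Reg.pow' hXr i))
    ring

/-- The transport back, two variables, all the coefficients bounded. -/
theorem back2_all (h : Ctx k v r) (d : SD p k v r D F z η ρ b₁ b ε) {b' : ℝ}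
    (hbb : b ≤ b') (hb'η : b' ≤ v (z - η)) {γ : ℝ} (hQ' : GN v F η b' γ (minpoly F η))
    {B P g' : Polynomial (Polynomial Ω)} (hP : PII d.S'.K P) (hg' : PII d.S'.K g') {L c : ℝ}
    (hrep : ∀ i : ℕ, ∃ a : F[X], a.map (algebraMap F Ω) = B.coeff i ∧
      Reg v F z η b₁ b' (L - i * c) (aeval z a - (P.coeff i).eval d.X))
    (hcoef : ∀ i l : ℕ,
      v.Ge (L - i * c - l * (γ - v d.q)) (((P - g' ^ p).coeff i).coeff l)) :
    ∃ G : Polynomial (Polynomial Ω), PII F G ∧ GBL v z b' c L (B - G ^ p) := by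
  classical
  have hbη : v.Ge b' (z - η) := RVal.Ge.of_le hb'η
  have hp0 : 0 < p := (Fact.out : p.Prime).pos
  have hpR : (0 : ℝ) < p := by exact_mod_cast hp0
  have hex : ∀ j : ℕ, ∃ P₁ : F[X], (g'.coeff j = 0 → P₁ = 0) ∧
      Reg v F z η b₁ b' ((L - (p * j : ℕ) * c) / p) ((g'.coeff j).eval d.X - aeval z P₁) := by
    intro j
    by_cases hj : g'.coeff j = 0
    · refine ⟨0, fun _ => rfl, ?_⟩
      rw [hj, eval_zero, _root_.map_zero, sub_zero]
      exact TWJ.Reg.zero'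
    · obtain ⟨P₁, hP₁⟩ := exists_back h d hbb hQ' (hg' j) ((L - (p * j : ℕ) * c) / p)
      exact ⟨P₁, fun h0 => absurd h0 hj, hP₁⟩
  choose P₁ h0 hP₁ using hex
  set G : Polynomial (Polynomial Ω) := ∑ j ∈ Finset.range (g'.natDegree + 1),
    monomial j ((P₁ j).map (algebraMap F Ω)) with hG
  have hGc : ∀ j, G.coeff j = (P₁ j).map (algebraMap F Ω) := by
    intro j
    rw [hG, finsetSum_coeff]
    simp only [coeff_monomial]
    rw [Finset.sum_ite_eq']
    split_ifs with h3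
    · rfl
    · rw [Finset.mem_range, not_lt] at h3
      rw [h0 j (coeff_eq_zero_of_natDegree_lt (by omega)), Polynomial.map_zero]
  refine ⟨G, fun j => by rw [hGc]; exact TWJ.map_mem_PI _, fun i => ?_⟩
  obtain ⟨a, ha, hrepi⟩ := hrep i
  by_cases hpi : p ∣ i
  · obtain ⟨j, rfl⟩ := hpi
    have hcf : ∀ Q : Polynomial (Polynomial Ω), (Q ^ p).coeff (p * j) = Q.coeff j ^ p := by
      intro Q
      rw [coeff_pow_ite', if_pos (dvd_mul_right p j), Nat.mul_div_cancel_left j hp0]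
    have h2 := back_all h d hbb hQ' (A := a) (P₁ := P₁ j) (hP (p * j)) (hg' j) hrepi
      (hP₁ j) fun l => by
        have h3 := hcoef (p * j) l
        rwa [coeff_sub, hcf] at h3
    have h3 := (gn_iff hbη).1 h2
    rw [coeff_sub, hcf, hGc, ← ha]
    rwa [Polynomial.map_sub, Polynomial.map_pow] at h3
  · have hcf : ∀ Q : Polynomial (Polynomial Ω), (Q ^ p).coeff i = 0 := by
      intro Q
      rw [coeff_pow_ite', if_neg hpi]
    have h2 := back_all h d hbb hQ' (A := a) (P₁ := 0) (hP i) (zero_mem _) hrepi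
      (by rw [eval_zero, _root_.map_zero, sub_zero]; exact TWJ.Reg.zero')
      fun l => by
        have h3 := hcoef i l
        rw [coeff_sub, hcf, sub_zero] at h3
        rwa [zero_pow hp0.ne', sub_zero]
    have h3 := (gn_iff hbη).1 h2
    rw [coeff_sub, hcf, sub_zero, ← ha]
    rwa [zero_pow hp0.ne', sub_zero] at h3

end Back

section Step

variable {k Ω : Type u} [Field k] [Field Ω] [Algebra k Ω] {v : RVal Ω} {p : ℕ} {r D : ℕ}

/-- The exactness at the precision `N₁`. -/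
def Exact2 (p : ℕ) (v : RVal Ω) (r D : ℕ) (K : IntermediateField k Ω) (f : Ω) (N₁ : ℝ) : Prop :=
  ∀ (R : Fr k v r D) (X T : Ω), clI v (adj (adj R.K X) T) = K →
    ∀ P : Polynomial (Polynomial Ω), ∀ hP : PII R.K P, v.Ge N₁ (f - P.evalEval X T) →
      ∃ (R' : Fr k v r D) (X' T' : Ω) (P' : Polynomial (Polynomial Ω)) (ψ : VIso v R.K R'.K),
        PII R'.K P' ∧ f = P'.evalEval X' T' ∧
        (∀ i l, ((P'.coeff i).coeff l) = (ψ.e ⟨(P.coeff i).coeff l, hP i l⟩ : Ω)) ∧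
        clI v (adj (adj R'.K X') T') = K ∧ BD p v (adj (adj R'.K X') T') ∧
        Transcendental R'.K X' ∧ Transcendental (adj R'.K X') T' ∧ v X' = v X ∧ v T' = v T

/-- The values of two polynomials at near points of two flags. -/
theorem near_evalEval {B P : Polynomial (Polynomial Ω)} {y X T : Ω} {M : ℝ}
    (h : ∀ i : ℕ, v.Ge (M - i * v T) ((B.coeff i).eval y - (P.coeff i).eval X)) :
    v.Ge M (B.evalEval y T - P.evalEval X T) := by
  set n := max B.natDegree P.natDegree + 1 with hn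
  rw [evalEval_range (B := B) (M := n) fun i hi => coeff_eq_zero_of_natDegree_lt (by omega),
    evalEval_range (B := P) (M := n) fun i hi => coeff_eq_zero_of_natDegree_lt (by omega),
    ← Finset.sum_sub_distrib]
  refine RVal.Ge.sum _ _ fun i _ => ?_
  rw [← sub_mul]
  exact ((h i).mul (TWM.ge_pow (v.ge_self T) i)).mono (by linarith)

/-- The image of a polynomial under the inverse isometry. -/
theorem trpp_back {M M' : IntermediateField k Ω} (ψ : VIso v M M')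
    (P₀ : Polynomial (Polynomial M)) {G' : Polynomial (Polynomial Ω)} (hG' : PII M' G') :
    ∃ g₀ : Polynomial (Polynomial M), trpp ψ g₀ = G' ∧
      ∀ (i l : ℕ) (lam : ℝ), v.Ge lam (((trpp ψ P₀ - G' ^ p).coeff i).coeff l) →
        v.Ge lam (((P₀.map (mapRingHom (algebraMap M Ω)) -
          (g₀.map (mapRingHom (algebraMap M Ω))) ^ p).coeff i).coeff l) := by
  obtain ⟨G₀, hG₀⟩ := exists_lift_PII hG'
  set g₀ : Polynomial (Polynomial M) := G₀.map (mapRingHom (ψ.e.symm : M' →+* M)) with hg₀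
  have h1 : trpp ψ g₀ = G' := by
    rw [trpp, hg₀, Polynomial.map_map, mapRingHom_comp, ← hG₀]
    congr 2
    ext x
    simp
  refine ⟨g₀, h1, fun i l lam h2 => ?_⟩
  have e1 : trpp ψ P₀ - G' ^ p = trpp ψ (P₀ - g₀ ^ p) := by
    rw [← h1, trpp, trpp, trpp, Polynomial.map_sub, Polynomial.map_pow]
  have e2 : P₀.map (mapRingHom (algebraMap M Ω)) - (g₀.map (mapRingHom (algebraMap M Ω))) ^ p =
      (P₀ - g₀ ^ p).map (mapRingHom (algebraMap M Ω)) := by
    rw [Polynomial.map_sub, Polynomial.map_pow]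
  rw [e1, trpp_coeff, ψ.ge_iff] at h2
  rw [e2, coeff_map, coe_mapRingHom, coeff_map]
  exact h2

end Step

section Main

variable {k Ω : Type u} [Field k] [Field Ω] [Algebra k Ω] {v : RVal Ω} {p : ℕ} {r D : ℕ}
  [hp : Fact p.Prime] [CharP k p] [CharP Ω p] [IsAlgClosed Ω] [IsAlgClosed k]

/-- **(C') at one level**: from the level `b_s` of the star data to the level `w`. -/
theorem cprime_step (h : Ctx k v r) (hcv : CompleteV v)
    (hLU : ∀ E : IntermediateField k Ω, E.FG → Full v E →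
      Algebra.trdeg k E = (r + D : ℕ) → BD p v E → LU p v r E)
    {K : IntermediateField k Ω} {a : Ω} (ha : a ∈ K) {μ₁ : ℝ}
    (hμ₁ : ∀ g ∈ K, ¬ v.Ge μ₁ (a - g ^ p)) {q : ℕ} (hq : MinS p v r (D + 1) K a q)
    (hpq : p ∣ q) {h₁ g₁ : Ω} (hh : h₁ ∈ K) (hh0 : h₁ ≠ 0) (hg : g₁ ∈ K) {N₁ : ℝ}
    (hN₁ : Exact2 p v r D K (a * h₁ ^ p - g₁ ^ p) N₁)
    {C : IntermediateField k Ω} {y T : Ω} (hd : Dns v C)
    (hcl : K = clI v (adj (adj C y) T)) {A : Polynomial (Polynomial Ω)} (hA : PII C A)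
    (hrep : v.Ge N₁ (a * h₁ ^ p - g₁ ^ p - A.evalEval y T)) {η : Ω} {ρ b₁ b ε' w : ℝ}
    (d : SD p k v r D C y η ρ b₁ b ε') (hbw : b ≤ w)
    (hLw : Lev v C y w ((minpoly C η).map (algebraMap C Ω))
      (gval v y w ((minpoly C η).map (algebraMap C Ω)))) (hwη : w < v (y - η)) {c κ : ℝ}
    (hT : c + (gval v y w ((minpoly C η).map (algebraMap C Ω)) - v d.q) ≤ v T)
    {G₁ : Polynomial (Polynomial Ω)} (hG₁ : PII C G₁) (hG₁b : GBL v y b c κ (A - G₁ ^ p))
    {ε : ℝ} (hε : 0 < ε) :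
    ∃ G, PII C G ∧ GBL v y w (c + (gval v y w ((minpoly C η).map (algebraMap C Ω)) - v d.q))
      (κ + q * (gval v y w ((minpoly C η).map (algebraMap C Ω)) - v d.q) - ε) (A - G ^ p) := by
  classical
  set Q := (minpoly C η).map (algebraMap C Ω) with hQ
  set γ := gval v y w Q with hγ
  set t := γ - v d.q with ht
  have ht0 : 0 ≤ t := by
    have h1 := gval_mono (v := v) (y := y) (f := Q) hbw
    rw [hQ, gval_q d, ← hQ, ← hγ] at h1
    linarith
  have hpR : (0 : ℝ) < p := by exact_mod_cast hp.out.pos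
  have hyη : y ≠ η := by
    intro h1
    refine d.cen.tr ?_
    rw [h1]
    exact d.cen.sep.isIntegral.isAlgebraic
  have hQm : PII C (A - G₁ ^ p) := PII_sub hA (PII_pow hG₁ p)
  have hqX : d.q * d.X = Q.eval y := by
    rw [SD.X, hQ, eval_map_algebraMap]
    have h3 := d.q_ne
    field_simp
  have hclK : clI v (adj (adj d.S'.K d.X) T) = K := by rw [clI_flag h hd d T, hcl]
  have hXpos := (level0_facts h hd d).2.2.2.1
  have hX0 := (level0_facts h hd d).2.2.1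
  have htX : t < v d.X := by
    have h1 : Q.eval y ≠ 0 := by
      rw [← hqX]
      exact mul_ne_zero d.q_ne hX0
    have h2 := hLw.gt h1
    rw [← hqX, v.map_mul d.q_ne hX0] at h2
    linarith
  have hQw : GN v C η w γ (minpoly C η) := by
    rw [gn_iff (RVal.Ge.of_le hwη.le)]
    exact GB_gval
  -- the two polynomials in the flag of the centre
  set L := κ - ε / 2 + q * t - ε / 4 with hL
  obtain ⟨P, hPm, -, hPb, hPr⟩ := forth2 h hd d hQm (lam := κ) (lam' := κ - ε / 2) (c := c)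
    (by linarith) hG₁b (fun i => max (N₁ - i * v T) (L - i * (c + t)))
  obtain ⟨lam₂, hlam₂⟩ := exists_gbl v y b c G₁
  obtain ⟨P₃, hP₃m, -, -, hP₃r⟩ := forth2 h hd d hG₁ (lam := lam₂) (lam' := lam₂ - 1) (c := c)
    (by linarith) hlam₂ (fun i => N₁ / p - i * v T)
  have hPe : v.Ge N₁ ((A - G₁ ^ p).evalEval y T - P.evalEval d.X T) := by
    refine near_evalEval fun i => ?_
    obtain ⟨a', ha', h1⟩ := hPr i
    rw [← ha', eval_map_algebraMap]
    exact (TWJ.Reg.ge hyη d.cen.lt' d.lt₂ h1).mono (le_max_left _ _)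
  have hP₃e : v.Ge (N₁ / p) (G₁.evalEval y T - P₃.evalEval d.X T) := by
    refine near_evalEval fun i => ?_
    obtain ⟨a', ha', h1⟩ := hP₃r i
    rw [← ha', eval_map_algebraMap]
    exact TWJ.Reg.ge hyη d.cen.lt' d.lt₂ h1
  have hP₂m : PII d.S'.K (P + P₃ ^ p) := PII_add hPm (PII_pow hP₃m p)
  have hP₂e : v.Ge N₁ (a * h₁ ^ p - g₁ ^ p - (P + P₃ ^ p).evalEval d.X T) := by
    have e1 : (P + P₃ ^ p).evalEval d.X T = P.evalEval d.X T + P₃.evalEval d.X T ^ p := by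
      rw [← coe_evalEvalRingHom, map_add, map_pow]
    have e2 : (A - G₁ ^ p).evalEval y T = A.evalEval y T - G₁.evalEval y T ^ p := by
      rw [← coe_evalEvalRingHom, map_sub, map_pow]
    have e3 : a * h₁ ^ p - g₁ ^ p - (P + P₃ ^ p).evalEval d.X T =
        (a * h₁ ^ p - g₁ ^ p - A.evalEval y T) +
          (((A - G₁ ^ p).evalEval y T - P.evalEval d.X T) +
            (G₁.evalEval y T - P₃.evalEval d.X T) ^ p) := by
      rw [e1, e2, sub_pow_char]
      ring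
    rw [e3]
    refine hrep.add (hPe.add ?_)
    refine (TWM.ge_pow hP₃e p).mono (le_of_eq ?_)
    field_simp
  obtain ⟨R', X', T', P₂', ψ, hP₂'m, hP₂'e, hP₂'c, hcl', hbd', htx', htt', hvX, hvT⟩ :=
    hN₁ d.S' d.X T hclK (P + P₃ ^ p) hP₂m hP₂e
  obtain ⟨P₀, hP₀⟩ := exists_lift_PII hPm
  obtain ⟨P₃₀, hP₃₀⟩ := exists_lift_PII hP₃m
  have hP₂' : P₂' = trpp ψ P₀ + (trpp ψ P₃₀) ^ p := by
    have e1 : trpp ψ P₀ + (trpp ψ P₃₀) ^ p = trpp ψ (P₀ + P₃₀ ^ p) := by
      rw [trpp, trpp, trpp, Polynomial.map_add, Polynomial.map_pow]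
    rw [e1]
    ext i l
    rw [hP₂'c, trpp_coeff]
    congr 2
    apply Subtype.ext
    change ((P + P₃ ^ p).coeff i).coeff l = _
    rw [← hP₀, ← hP₃₀, ← Polynomial.map_pow, ← Polynomial.map_add, coeff_map, coe_mapRingHom,
      coeff_map]
    rfl
  have htrm : ∀ H : Polynomial (Polynomial d.S'.K), PII R'.K (trpp ψ H) := fun H i l => by
    rw [trpp_coeff]
    exact Subtype.mem _
  have hrep' : ∃ h ∈ K, h ≠ 0 ∧ ∃ g ∈ K, a * h ^ p - g ^ p = (trpp ψ P₀).evalEval X' T' := by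
    refine ⟨h₁, hh, hh0, g₁ + (trpp ψ P₃₀).evalEval X' T', add_mem hg ?_, ?_⟩
    · rw [← hcl']
      exact le_clI _ (evalEval_mem0 (htrm _) X' T')
    · rw [rep_sub0 hP₂'e, hP₂', add_sub_cancel_right]
  have hd' : Dns v R'.K := by
    intro s t hst
    obtain ⟨x, hx, hx0, h3, h4⟩ := TWJ.dns_K h hd d s t hst
    exact ⟨ψ.e ⟨x, hx⟩, Subtype.mem _, fun h5 => hx0 ((ψ.coe_eq_zero _).1 h5),
      by rw [ψ.val _ hx0]; exact h3, by rw [ψ.val _ hx0]; exact h4⟩
  have hlo : Lo0 p v R'.K 0 c (κ - ε / 2) (trpp ψ P₀) := by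
    intro e he
    refine ⟨0, fun i => by rw [coeff_zero]; exact zero_mem _, fun l i => ?_⟩
    rw [zero_pow hp.out.ne_zero, sub_zero, trpp_coeff, ψ.ge_iff]
    have h1 := hPb i l
    rw [← hP₀, coeff_map, coe_mapRingHom, coeff_map] at h1
    exact h1.mono (by linarith)
  have hgrow := grow h hcv hLU hd' htx' htt' hbd' hcl'.symm ha hμ₁ hrep' (t := t) (htrm P₀) ht0
    (by rw [hvX]; linarith) (by rw [hvT]; exact hT) hq hpq hlo
  obtain ⟨G', hG'm, hG'b⟩ := hgrow (ε / 4) (by linarith)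
  obtain ⟨g₀, -, hg₀⟩ := trpp_back (p := p) ψ P₀ hG'm
  obtain ⟨G₂, hG₂, hG₂b⟩ := back2_all h d hbw hwη.le hQw (B := A - G₁ ^ p) (P := P)
    (g' := g₀.map (mapRingHom (algebraMap d.S'.K Ω))) hPm (fun i l => by
      rw [coeff_map, coe_mapRingHom, coeff_map]
      exact Subtype.mem _) (L := L) (c := c + t) (fun i => by
        obtain ⟨a', ha', h1⟩ := hPr i
        exact ⟨a', ha', TWJ.Reg.radius hbw (Reg.mono (le_max_right _ _) h1)⟩) (fun i l => by
        have h1 := hg₀ i l _ (hG'b l i)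
        rw [hP₀] at h1
        refine h1.mono ?_
        rw [hL, zero_add]
        linarith)
  refine ⟨G₁ + G₂, PII_add hG₁ hG₂, ?_⟩
  have e1 : A - (G₁ + G₂) ^ p = A - G₁ ^ p - G₂ ^ p := by
    rw [add_pow_char]
    ring
  rw [e1]
  refine hG₂b.mono ?_
  rw [hL]
  linarith

/-- The exactness. -/
theorem exists_exact2 (h : Ctx k v r) (hcv : CompleteV v) {K₀ K : IntermediateField k Ω}
    (hK₀ : K₀.FG) (htr : Algebra.trdeg k K₀ = (r + D + 1 + 1 : ℕ)) (hBD : BD p v K₀)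
    (hK : K = clI v K₀) {a : Ω} (ha : a ∈ K) {μ₁ : ℝ} (hμ₁ : ∀ g ∈ K, ¬ v.Ge μ₁ (a - g ^ p))
    {h₁ g₁ : Ω} (hh : h₁ ∈ K) (hh0 : h₁ ≠ 0) (hg : g₁ ∈ K) :
    ∃ N₁ : ℝ, Exact2 p v r D K (a * h₁ ^ p - g₁ ^ p) N₁ := by
  by_cases ht : ∃ t₀ : Fin (r + D + 1 + 1) → Ω, clI v (kr k t₀) = K
  · obtain ⟨t₀, ht₀⟩ := ht
    obtain ⟨N₁, hN₁⟩ := two_near p h hcv hK₀ htr hBD hK ht₀ ha hμ₁ hh hh0 hg
    refine ⟨N₁, fun R X T hcl P hP hge => ?_⟩
    obtain ⟨R', X', T', P', ψ, h1, h2, h3, h4, h5, h6, h7, -, -, h8, h9, -, -⟩ :=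
      hN₁ R X T hcl P hP hge
    exact ⟨R', X', T', P', ψ, h1, h2, h3, h4, h5, h6, h7, h8, h9⟩
  · refine ⟨0, fun R X T hcl => absurd ⟨Fin.snoc (Fin.snoc R.s X : Fin (r + D + 1) → Ω) T, ?_⟩ ht⟩
    rw [← adj_adj_eq, hcl]

/-- **(C')**, up to an error of value `≥ N₁`. -/
theorem cprimeE (h : Ctx k v r) (hcv : CompleteV v)
    (hLU : ∀ E : IntermediateField k Ω, E.FG → Full v E →
      Algebra.trdeg k E = (r + D : ℕ) → BD p v E → LU p v r E)
    {K : IntermediateField k Ω} {a : Ω} (ha : a ∈ K) {μ₁ : ℝ}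
    (hμ₁ : ∀ g ∈ K, ¬ v.Ge μ₁ (a - g ^ p)) {q : ℕ} (hq : MinS p v r (D + 1) K a q)
    (hpq : p ∣ q) {h₁ g₁ : Ω} (hh : h₁ ∈ K) (hh0 : h₁ ≠ 0) (hg : g₁ ∈ K) {N₁ : ℝ}
    (hN₁ : Exact2 p v r D K (a * h₁ ^ p - g₁ ^ p) N₁)
    {C : IntermediateField k Ω} {y : Ω} (hC : C.FG) (hfull : Full v C)
    (htr : Algebra.trdeg k C = (r + D : ℕ)) (hBD : BD p v C) (hd : Dns v C)
    (hy : Transcendental C y) : CprimeE p v K a q h₁ g₁ N₁ C y := by
  intro T A φ b w c κ htz hcl hA hrep hbw hφ hT hlo ε hε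
  have hLw := hφ w hbw le_rfl
  obtain ⟨ζ, hζ, hζw, -, hζm⟩ := hLw.minpoly
  obtain ⟨η, hη⟩ := TWJ.exists_min hd hy (ρ := w) (θ := ζ) hζ hζw
  set Q : Polynomial Ω := (minpoly C η).map (algebraMap C Ω) with hQ
  have hint : IsIntegral C η := hη.sep.isIntegral
  have hQm : Q.Monic := (minpoly.monic hint).map _
  have hQd : Q.natDegree ≤ φ.natDegree := by
    rw [hQ, ← hζm, natDegree_map, natDegree_map]
    exact hη.min ζ hζ hζw
  have hQη : Q.eval η = 0 := by rw [hQ, eval_map_algebraMap, minpoly.aeval]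
  have hLev : ∀ x, b < x → x ≤ w → Lev v C y x Q (gval v y x Q) := fun x hx hx' =>
    Lev.of_min (minpoly_mem_PI η) hQm ⟨η, hQη, hx'.trans_lt hη.lt⟩ fun g hg hg0 hr =>
      hQd.trans ((hφ x hx hx').min g hg hg0 hr)
  have hIs : ∀ x, b < x → x ≤ w → IsMin v C y η x := by
    intro x hx hx'
    refine ⟨hη.sep, hx'.trans_lt hη.lt, fun γ hγ hγt => ?_⟩
    have h1 := (hLev x hx hx').min _ (minpoly_mem_PI γ)
      (((minpoly.monic hγ.isIntegral).map (algebraMap C Ω)).ne_zero)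
      ⟨γ, by rw [eval_map_algebraMap, minpoly.aeval], fun _ => hγt.le⟩
    rwa [hQ, natDegree_map, natDegree_map] at h1
  have hβ : ∀ x, b < x → x ≤ w → gval v y x φ = gval v y x Q := fun x hx hx' =>
    (hφ x hx hx').beta_eq (hLev x hx hx')
  set t := gval v y w φ - gval v y b φ with ht
  set n : ℝ := (φ.natDegree : ℝ) with hn
  have hn0 : 0 ≤ n := Nat.cast_nonneg _
  have hq0 : (0 : ℝ) ≤ q := Nat.cast_nonneg q
  set δ := min (w - b) (ε / (2 * (q * n + 1))) with hδ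
  have hδ0 : 0 < δ := lt_min (by linarith) (by positivity)
  have hδw : b + δ ≤ w := by
    have := min_le_left (w - b) (ε / (2 * (q * n + 1)))
    linarith
  have hδε : q * (n * δ) ≤ ε / 2 := by
    have h1 : δ ≤ ε / (2 * (q * n + 1)) := min_le_right _ _
    calc (q : ℝ) * (n * δ) = (q * n) * δ := by ring
      _ ≤ (q * n + 1) * (ε / (2 * (q * n + 1))) :=
          mul_le_mul (by linarith) h1 hδ0.le (by positivity)
      _ = ε / 2 := by field_simp
  have hρ : b < b + δ / 2 := by linarith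
  obtain ⟨bs, b₁, ε', hb1, hb2, ⟨d⟩⟩ := exists_level0 (ρ' := b + δ) p h hC hfull hBD htr hLU hd
    hy (hIs (b + δ / 2) hρ (by linarith)) (by linarith) (by linarith [hη.lt])
  have hbs : b < bs := by linarith
  have hbsw : bs ≤ w := by linarith
  obtain ⟨G₁, hG₁, hG₁b⟩ := hlo (ε / 4) (by linarith)
  have hqv : v d.q = gval v y bs φ := by rw [hβ bs hbs hbsw, hQ, gval_q d]
  have hw : gval v y w Q = gval v y w φ := (hβ w hbw le_rfl).symm
  have h1 := gval_mono (v := v) (y := y) (f := φ) hbs.le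
  have h2 := gval_up_deg (v := v) (y := y) (f := φ) hbs.le
  rw [← hn] at h2
  have h3 : n * (bs - b) ≤ n * δ := mul_le_mul_of_nonneg_left (by linarith) hn0
  have hT0 : T ≠ 0 := fun h1 => htz (by rw [h1]; exact isAlgebraic_zero)
  have hT' := hT hT0
  obtain ⟨G, hG, hGb⟩ := cprime_step h hcv hLU ha hμ₁ hq hpq hh hh0 hg hN₁ hd hcl hA hrep d hbsw
    (hLev w hbw le_rfl) hη.lt (c := c) (κ := κ - ε / 4)
    (by rw [← hQ, hw, hqv]; linarith) hG₁ (hG₁b.level hbs.le) (ε := ε / 8) (by linarith)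
  refine ⟨G, hG, ?_⟩
  rw [← hQ, hw, hqv] at hGb
  refine (hGb.radius (by linarith)).mono ?_
  have h4 : (q : ℝ) * (gval v y bs φ - gval v y b φ) ≤ q * (n * δ) :=
    mul_le_mul_of_nonneg_left (by linarith) hq0
  rw [ht]
  nlinarith

/-- **(C')**, for the exact representations. -/
theorem cprime (h : Ctx k v r) (hcv : CompleteV v)
    (hLU : ∀ E : IntermediateField k Ω, E.FG → Full v E →
      Algebra.trdeg k E = (r + D : ℕ) → BD p v E → LU p v r E)
    {K₀ K : IntermediateField k Ω} (hK₀ : K₀.FG) (htr₀ : Algebra.trdeg k K₀ = (r + D + 1 + 1 : ℕ))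
    (hBD₀ : BD p v K₀) (hK : K = clI v K₀) {a : Ω} (ha : a ∈ K) {μ₁ : ℝ}
    (hμ₁ : ∀ g ∈ K, ¬ v.Ge μ₁ (a - g ^ p)) {q : ℕ} (hq : MinS p v r (D + 1) K a q)
    (hpq : p ∣ q) {C : IntermediateField k Ω} {y : Ω} (hC : C.FG) (hfull : Full v C)
    (htr : Algebra.trdeg k C = (r + D : ℕ)) (hBD : BD p v C) (hd : Dns v C)
    (hy : Transcendental C y) : Cprime p v K a q C y := by
  rintro T A φ b w c κ htz hcl hA ⟨h₁, hh, hh0, g₁, hg, hrep⟩ hbw hφ hT hlo
  obtain ⟨N₁, hN₁⟩ := exists_exact2 (D := D) h hcv hK₀ htr₀ hBD₀ hK ha hμ₁ hh hh0 hg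
  exact cprimeE h hcv hLU ha hμ₁ hq hpq hh hh0 hg hN₁ hC hfull htr hBD hd hy T A φ b w c κ htz
    hcl hA (by
      change v.Ge N₁ (a * h₁ ^ p - g₁ ^ p - A.evalEval y T)
      rw [hrep, sub_self]
      exact RVal.Ge.zero) hbw hφ hT hlo

end Main

end Pool.Agent.TWJ2
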