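import Pool.Agent.Lib.TWJ2.Defs

/-!
# TANK W, ROW J: algebra of the digits to the base of a monic polynomial
-/

set_option autoImplicit false

open Polynomial

namespace Pool.Agent.TWJ2.Dg

open Pool.Agent.TWM (PI)
open Pool.Agent.TWJ2 (dig)

universe u

section Any

variable {R : Type u} [CommRing R]

theorem add_div (f g : Polynomial R) {q : Polynomial R} (hq : q.Monic) :
    (f + g) /ₘ q = f /ₘ q + g /ₘ q := by
  nontriviality R
  refine (div_modByMonic_unique (f /ₘ q + g /ₘ q) (f %ₘ q + g %ₘ q) hq ⟨?_, ?_⟩).1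
  · have h1 := modByMonic_add_div f q
    have h2 := modByMonic_add_div g q
    linear_combination h1 + h2
  · exact lt_of_le_of_lt (degree_add_le _ _)
      (max_lt (degree_modByMonic_lt f hq) (degree_modByMonic_lt g hq))

theorem neg_div (f : Polynomial R) {q : Polynomial R} (hq : q.Monic) :
    (-f) /ₘ q = -(f /ₘ q) := by
  have h := add_div f (-f) hq
  rw [add_neg_cancel, zero_divByMonic] at h
  linear_combination -h

theorem sub_div (f g : Polynomial R) {q : Polynomial R} (hq : q.Monic) :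
    (f - g) /ₘ q = f /ₘ q - g /ₘ q := by
  rw [sub_eq_add_neg, add_div f (-g) hq, neg_div g hq, ← sub_eq_add_neg]

/-- Division in two steps. -/
theorem div_div (f : Polynomial R) {q r : Polynomial R} (hq : q.Monic) (hr : r.Monic) :
    f /ₘ q /ₘ r = f /ₘ (q * r) := by
  nontriviality R
  symm
  refine (div_modByMonic_unique (f /ₘ q /ₘ r) (f %ₘ q + q * ((f /ₘ q) %ₘ r)) (hq.mul hr)
    ⟨?_, ?_⟩).1
  · have h1 := modByMonic_add_div f q
    have h2 := modByMonic_add_div (f /ₘ q) r
    linear_combination h1 + q * h2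
  · have h3 : (q * r).degree = q.degree + r.degree := hr.degree_mul
    rw [h3]
    refine lt_of_le_of_lt (degree_add_le _ _) (max_lt ?_ ?_)
    · refine lt_of_lt_of_le (degree_modByMonic_lt f hq) ?_
      rw [degree_eq_natDegree hq.ne_zero, degree_eq_natDegree hr.ne_zero]
      exact_mod_cast Nat.le_add_right _ _
    · refine lt_of_le_of_lt (degree_mul_le _ _) ?_
      have h4 := degree_modByMonic_lt (f /ₘ q) hr
      rw [degree_eq_natDegree hq.ne_zero]
      rw [degree_eq_natDegree hr.ne_zero] at h4 ⊢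
      rcases eq_or_ne ((f /ₘ q) %ₘ r) 0 with h5 | h5
      · rw [h5, degree_zero, WithBot.add_bot]
        exact_mod_cast WithBot.bot_lt_coe _
      · rw [degree_eq_natDegree h5] at h4 ⊢
        have h6 : ((f /ₘ q) %ₘ r).natDegree < r.natDegree := by exact_mod_cast h4
        exact_mod_cast Nat.add_lt_add_left h6 _

end Any

variable {k Ω : Type u} [Field k] [Field Ω] [Algebra k Ω] {C : IntermediateField k Ω}
  {φ f g : Polynomial Ω}

theorem dig_add (hφ : φ.Monic) (f g : Polynomial Ω) (l : ℕ) :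
    dig φ (f + g) l = dig φ f l + dig φ g l := by
  rw [dig, dig, dig, add_div f g (hφ.pow l), add_modByMonic]

theorem dig_neg (hφ : φ.Monic) (f : Polynomial Ω) (l : ℕ) : dig φ (-f) l = -dig φ f l := by
  rw [dig, dig, neg_div f (hφ.pow l), neg_modByMonic]

theorem dig_sub (hφ : φ.Monic) (f g : Polynomial Ω) (l : ℕ) :
    dig φ (f - g) l = dig φ f l - dig φ g l := by
  rw [dig, dig, dig, sub_div f g (hφ.pow l), sub_modByMonic]

theorem dig_zero (φ : Polynomial Ω) (l : ℕ) : dig φ 0 l = 0 := by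
  rw [dig, zero_divByMonic, zero_modByMonic]

theorem dig_sum (hφ : φ.Monic) {ι : Type*} (S : Finset ι) (F : ι → Polynomial Ω) (l : ℕ) :
    dig φ (∑ i ∈ S, F i) l = ∑ i ∈ S, dig φ (F i) l := by
  classical
  induction S using Finset.induction_on with
  | empty => rw [Finset.sum_empty, Finset.sum_empty, dig_zero]
  | insert a S ha ih => rw [Finset.sum_insert ha, Finset.sum_insert ha, dig_add hφ, ih]

theorem degree_dig (hφ : φ.Monic) (f : Polynomial Ω) (l : ℕ) : (dig φ f l).degree < φ.degree :=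
  degree_modByMonic_lt _ hφ

/-- The digits of `φ ^ m * f`. -/
theorem dig_shift (hφ : φ.Monic) (f : Polynomial Ω) (m l : ℕ) :
    dig φ (φ ^ m * f) (m + l) = dig φ f l := by
  rw [dig, dig, pow_add, ← div_div _ (hφ.pow m) (hφ.pow l), mul_divByMonic_cancel_left f (hφ.pow m)]

theorem dig_shift_lt (hφ : φ.Monic) (f : Polynomial Ω) {m l : ℕ} (h : l < m) :
    dig φ (φ ^ m * f) l = 0 := by
  have h1 : φ ^ m * f = φ ^ l * (φ * (φ ^ (m - l - 1) * f)) := by
    have h2 : m = l + (1 + (m - l - 1)) := by omega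
    conv_lhs => rw [h2, pow_add, pow_add, pow_one]
    ring
  rw [dig, h1, mul_divByMonic_cancel_left _ (hφ.pow l), self_mul_modByMonic hφ]

theorem dig_of_dvd (hφ : φ.Monic) {m l : ℕ} (hf : φ ^ m ∣ f) (h : l < m) : dig φ f l = 0 := by
  obtain ⟨g, rfl⟩ := hf
  exact dig_shift_lt hφ g h

theorem dig_small_zero (hφ : φ.Monic) (hf : f.degree < φ.degree) : dig φ f 0 = f := by
  rw [dig, pow_zero, divByMonic_one]
  exact (modByMonic_eq_self_iff hφ).2 hf

theorem dig_of_lt (hφ : φ.Monic) {l : ℕ} (hf : f.degree < (φ ^ l).degree) : dig φ f l = 0 := by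
  rw [dig, (divByMonic_eq_zero_iff (hφ.pow l)).2 hf, zero_modByMonic]

theorem degree_pow_mono (hφ : φ.Monic) {l m : ℕ} (h : l ≤ m) : (φ ^ l).degree ≤ (φ ^ m).degree := by
  rw [degree_eq_natDegree (hφ.pow l).ne_zero, degree_eq_natDegree (hφ.pow m).ne_zero,
    hφ.natDegree_pow, hφ.natDegree_pow]
  exact_mod_cast Nat.mul_le_mul_right _ h

theorem dig_small_pos (hφ : φ.Monic) (hf : f.degree < φ.degree) {l : ℕ} (hl : 0 < l) :
    dig φ f l = 0 := by
  refine dig_of_lt hφ (lt_of_lt_of_le hf ?_)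
  have := degree_pow_mono hφ (show 1 ≤ l by omega)
  rwa [pow_one] at this

/-- One step of the expansion. -/
theorem div_succ (hφ : φ.Monic) (f : Polynomial Ω) (l : ℕ) :
    f /ₘ φ ^ l = dig φ f l + φ * (f /ₘ φ ^ (l + 1)) := by
  rw [dig, pow_succ, ← div_div f (hφ.pow l) hφ]
  exact (modByMonic_add_div (f /ₘ φ ^ l) φ).symm

/-- The expansion with remainder. -/
theorem expand (hφ : φ.Monic) (f : Polynomial Ω) (N : ℕ) :
    f = ∑ l ∈ Finset.range N, dig φ f l * φ ^ l + φ ^ N * (f /ₘ φ ^ N) := by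
  induction N with
  | zero => rw [Finset.range_zero, Finset.sum_empty, pow_zero, divByMonic_one, zero_add, one_mul]
  | succ N ih =>
    conv_lhs => rw [ih]
    rw [Finset.sum_range_succ, div_succ hφ f N]
    ring

/-- The expansion. -/
theorem expand_of_lt (hφ : φ.Monic) {N : ℕ} (hf : f.degree < (φ ^ N).degree) :
    f = ∑ l ∈ Finset.range N, dig φ f l * φ ^ l := by
  have h := expand hφ f N
  rwa [(divByMonic_eq_zero_iff (hφ.pow N)).2 hf, mul_zero, add_zero] at h

/-- The digits determine the polynomial. -/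
theorem exists_bound (hφ : φ.Monic) (h0 : 0 < φ.natDegree) (f : Polynomial Ω) :
    ∃ N : ℕ, f.degree < (φ ^ N).degree := by
  refine ⟨f.natDegree + 1, lt_of_le_of_lt degree_le_natDegree ?_⟩
  rw [degree_eq_natDegree (hφ.pow _).ne_zero, hφ.natDegree_pow]
  have : f.natDegree < (f.natDegree + 1) * φ.natDegree := by nlinarith
  exact_mod_cast this

/-- The digits of a sum of digits times powers. -/
theorem dig_sum_pow (hφ : φ.Monic) (N : ℕ) (d : ℕ → Polynomial Ω)
    (hd : ∀ l, (d l).degree < φ.degree) (l : ℕ) :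
    dig φ (∑ j ∈ Finset.range N, d j * φ ^ j) l = if l < N then d l else 0 := by
  rw [dig_sum hφ]
  have h1 : ∀ j ∈ Finset.range N, dig φ (d j * φ ^ j) l = if j = l then d l else 0 := by
    intro j _
    rw [mul_comm]
    split_ifs with h
    · subst h
      have := dig_shift hφ (d j) j 0
      rw [add_zero] at this
      rw [this, dig_small_zero hφ (hd j)]
    · rcases lt_or_gt_of_ne h with h2 | h2
      · obtain ⟨m, hm⟩ := Nat.exists_eq_add_of_lt h2
        have h3 : l = j + (m + 1) := by omega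
        rw [h3, dig_shift hφ, dig_small_pos hφ (hd j) (Nat.succ_pos m)]
      · exact dig_shift_lt hφ _ h2
  rw [Finset.sum_congr rfl h1, Finset.sum_ite_eq' (Finset.range N) l fun _ => d l]
  simp only [Finset.mem_range]

theorem PI_div (hφC : φ ∈ PI C) (hφ : φ.Monic) (hf : f ∈ PI C) :
    f /ₘ φ ∈ PI C ∧ f %ₘ φ ∈ PI C := by
  have lift : ∀ h : Polynomial Ω, h ∈ PI C → ∃ h' : Polynomial C, h'.map (algebraMap C Ω) = h := by
    intro h hh
    refine ⟨∑ i ∈ Finset.range (h.natDegree + 1), Polynomial.C (⟨h.coeff i, hh i⟩ : C) *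
      Polynomial.X ^ i, ?_⟩
    rw [Polynomial.map_sum]
    conv_rhs => rw [h.as_sum_range_C_mul_X_pow]
    refine Finset.sum_congr rfl fun i _ => ?_
    rw [Polynomial.map_mul, map_C, Polynomial.map_pow, map_X]
    rfl
  obtain ⟨φ', rfl⟩ := lift φ hφC
  obtain ⟨f', rfl⟩ := lift f hf
  have hφ' : φ'.Monic := monic_of_injective (algebraMap C Ω).injective hφ
  rw [← map_divByMonic _ hφ', ← map_modByMonic _ hφ']
  refine ⟨fun i => ?_, fun i => ?_⟩
  · rw [coeff_map]
    exact ((f' /ₘ φ').coeff i).2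
  · rw [coeff_map]
    exact ((f' %ₘ φ').coeff i).2

theorem PI_pow (hφC : φ ∈ PI C) (n : ℕ) : φ ^ n ∈ PI C := pow_mem hφC n

theorem dig_mem (hφC : φ ∈ PI C) (hφ : φ.Monic) (hf : f ∈ PI C) (l : ℕ) : dig φ f l ∈ PI C :=
  (PI_div hφC hφ (PI_div (pow_mem hφC l) (hφ.pow l) hf).1).2

end Pool.Agent.TWJ2.Dg
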