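import Pool.Agent.Lib.TWJ2.Defs
import Pool.Agent.Lib.TWM.S3a

/-!
# TANK W, ROW J.1a: the digit theorem of the level layer

* `Dom v b P V n`: `V` is the Gauss value of `P` at the radius `b`, and `n` is the largest index which
  attains it (`exists_dom`, `Dom.mul`, `Dom.pow`, `Dom.add_left`, `Dom.gb_iff`, `Dom.unique`);
* `Lev.str`, `Lev.gb_small`: the polynomials over `C` of degree smaller than the key degree are strict
  on the disc;
* `Lev.mul_mod`: a product of two such polynomials and its remainder have the same leading term;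
* `Lev.exists_dom`: the key polynomial has a dominant index `≥ 1`;
* `Lev.dom_sum`, `Lev.digit`: the digit theorem.
-/

set_option autoImplicit false

open Polynomial

namespace Pool.Agent.TWJ2

open Pool.Agent.H15JM (RVal)
open Pool.Agent.TWM (PI Gt GB Str ge_pow)

universe u

section Dom

variable {Ω : Type u} [Field Ω] {v : RVal Ω} {b V W : ℝ} {n m : ℕ} {P Q : Polynomial Ω}

/-- `V` is the Gauss value of `P` at the radius `b`, and `n` is the largest index which attains it. -/
structure Dom (v : RVal Ω) (b : ℝ) (P : Polynomial Ω) (V : ℝ) (n : ℕ) : Prop where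
  gb : GB v b V P
  ne : P.coeff n ≠ 0
  eq : v (P.coeff n) = V - n * b
  gt : ∀ m, n < m → Gt v (V - m * b) (P.coeff m)

theorem add_gt_dom {x y : Ω} (hx : x ≠ 0) (hy : Gt v (v x) y) : x + y ≠ 0 ∧ v (x + y) = v x := by
  by_cases h0 : y = 0
  · rw [h0, add_zero]; exact ⟨hx, rfl⟩
  · exact v.add_of_lt hx h0 (hy h0)

theorem Dom.poly_ne (h : Dom v b P V n) : P ≠ 0 := by
  rintro rfl
  exact h.ne (coeff_zero n)

theorem Dom.le (h : Dom v b P V n) {lam : ℝ} (hg : GB v b lam P) : lam ≤ V := by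
  have h1 := hg n h.ne
  rw [h.eq] at h1
  linarith

theorem Dom.gb_iff (h : Dom v b P V n) {lam : ℝ} : GB v b lam P ↔ lam ≤ V :=
  ⟨h.le, fun h1 => TWM.GB.mono h.gb h1⟩

theorem Dom.unique (h : Dom v b P V n) (h' : Dom v b P W m) : V = W ∧ n = m := by
  have h1 : V = W := le_antisymm (h'.le h.gb) (h.le h'.gb)
  subst h1
  refine ⟨rfl, ?_⟩
  rcases lt_trichotomy n m with h2 | h2 | h2
  · exact absurd (h.gt m h2 h'.ne) (by rw [h'.eq]; exact lt_irrefl _)
  · exact h2
  · exact absurd (h'.gt n h2 h.ne) (by rw [h.eq]; exact lt_irrefl _)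

theorem exists_dom (v : RVal Ω) (b : ℝ) (h0 : P ≠ 0) : ∃ V n, Dom v b P V n := by
  classical
  have hS : P.support.Nonempty := by rwa [support_nonempty]
  set f : ℕ → ℝ := fun m => v (P.coeff m) + m * b with hf
  obtain ⟨m0, hm0, hmin⟩ := P.support.exists_min_image f hS
  set T := P.support.filter fun m => f m = f m0 with hT
  have hTne : T.Nonempty := ⟨m0, Finset.mem_filter.2 ⟨hm0, rfl⟩⟩
  obtain ⟨n, hn, hmax⟩ := T.exists_max_image id hTne
  obtain ⟨hn1, hn2⟩ := Finset.mem_filter.1 hn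
  refine ⟨f m0, n, fun m h1 => ?_, mem_support_iff.1 hn1, ?_, fun m hm h1 => ?_⟩
  · have := hmin m (mem_support_iff.2 h1)
    simp only [hf] at this ⊢
    linarith
  · rw [← hn2]
    simp only [hf]
    ring
  · have h2 := hmin m (mem_support_iff.2 h1)
    have h3 : f m ≠ f m0 := by
      intro h4
      have h5 := hmax m (Finset.mem_filter.2 ⟨mem_support_iff.2 h1, h4⟩)
      simp only [id] at h5
      omega
    have h4 := lt_of_le_of_ne h2 (Ne.symm h3)
    simp only [hf] at h4 ⊢
    linarith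

theorem Dom.mul (h : Dom v b P V n) (h' : Dom v b Q W m) : Dom v b (P * Q) (V + W) (n + m) := by
  have key : ∀ l, ∀ x ∈ Finset.HasAntidiagonal.antidiagonal l, (n < x.1 ∨ m < x.2) →
      Gt v (V + W - l * b) (P.coeff x.1 * Q.coeff x.2) := by
    intro l x hx hlt
    have hx' : x.1 + x.2 = l := by simpa using hx
    have hl' : (l : ℝ) = x.1 + x.2 := by rw [← hx']; push_cast; rfl
    rcases hlt with h1 | h1
    · refine ((h.gt x.1 h1).mul_ge (h'.gb x.2)).mono ?_
      rw [hl']; linarith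
    · rw [mul_comm (P.coeff x.1)]
      refine ((h'.gt x.2 h1).mul_ge (h.gb x.1)).mono ?_
      rw [hl']; linarith
  have hc : (P * Q).coeff (n + m) = P.coeff n * Q.coeff m +
      ∑ x ∈ (Finset.HasAntidiagonal.antidiagonal (n + m)).erase (n, m),
        P.coeff x.1 * Q.coeff x.2 := by
    rw [coeff_mul, ← Finset.add_sum_erase _ _ (a := (n, m)) (by simp)]
  have hv : v (P.coeff n * Q.coeff m) = V + W - ((n + m : ℕ) : ℝ) * b := by
    rw [v.map_mul h.ne h'.ne, h.eq, h'.eq]
    push_cast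
    ring
  have hgt : Gt v (v (P.coeff n * Q.coeff m))
      (∑ x ∈ (Finset.HasAntidiagonal.antidiagonal (n + m)).erase (n, m),
        P.coeff x.1 * Q.coeff x.2) := by
    rw [hv]
    refine Gt.sum _ _ fun x hx => ?_
    obtain ⟨hx1, hx2⟩ := Finset.mem_erase.1 hx
    refine key _ x hx2 ?_
    have hx' : x.1 + x.2 = n + m := by simpa using hx2
    by_contra hcon
    push Not at hcon
    exact hx1 (Prod.ext (by simp only []; omega) (by simp only []; omega))
  obtain ⟨h1, h2⟩ := add_gt_dom (mul_ne_zero h.ne h'.ne) hgt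
  refine ⟨TWM.GB.mul h.gb h'.gb, by rw [hc]; exact h1, by rw [hc, h2, hv], fun l hl => ?_⟩
  rw [coeff_mul]
  refine Gt.sum _ _ fun x hx => key l x hx ?_
  have hx' : x.1 + x.2 = l := by simpa using hx
  omega

theorem dom_one (v : RVal Ω) (b : ℝ) : Dom v b (1 : Polynomial Ω) 0 0 := by
  refine ⟨TWM.GB.one, by simp, by simp [v.map_one], fun m hm => ?_⟩
  rw [coeff_one, if_neg (by omega)]
  exact Gt.zero

theorem Dom.pow (h : Dom v b P V n) (l : ℕ) : Dom v b (P ^ l) (l * V) (l * n) := by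
  induction l with
  | zero => simpa using dom_one v b
  | succ l ih =>
    have h1 := ih.mul h
    rw [← pow_succ] at h1
    have e1 : ((l + 1 : ℕ) : ℝ) * V = l * V + V := by push_cast; ring
    have e2 : (l + 1) * n = l * n + n := by ring
    rw [e1, e2]
    exact h1

/-- The sum with a polynomial whose Gauss value is larger, or equal with a smaller index. -/
theorem Dom.add_left (h : Dom v b P V n) (h' : Dom v b Q W m) (hlt : V < W ∨ (V = W ∧ m < n)) :
    Dom v b (P + Q) V n := by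
  have hQ : GB v b V Q := by
    rcases hlt with h1 | ⟨h1, _⟩
    · exact TWM.GB.mono h'.gb h1.le
    · rw [h1]; exact h'.gb
  have hgt : ∀ l, n ≤ l → Gt v (V - l * b) (Q.coeff l) := by
    intro l hl
    rcases hlt with h1 | ⟨h1, h2⟩
    · exact Gt.of_ge (h'.gb l) (by linarith)
    · rw [h1]
      exact h'.gt l (by omega)
  obtain ⟨h1, h2⟩ := add_gt_dom h.ne (y := Q.coeff n) (by rw [h.eq]; exact hgt n le_rfl)
  refine ⟨TWM.GB.add h.gb hQ, by rw [coeff_add]; exact h1, by rw [coeff_add, h2, h.eq],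
    fun l hl => ?_⟩
  rw [coeff_add]
  exact (h.gt l hl).add (hgt l hl.le)

theorem Dom.add_right (h : Dom v b P V n) (h' : Dom v b Q W m) (hlt : W < V ∨ (W = V ∧ n < m)) :
    Dom v b (P + Q) W m := by
  rw [add_comm]
  exact h'.add_left h hlt

/-- Strict polynomials: the index `0` is dominant. -/
theorem dom_of_str (h : Str v b P) : Dom v b P (v (P.coeff 0)) 0 :=
  ⟨fun l => h.ge l, h.ne, by simp, fun l hl => h.gt l hl⟩

theorem Dom.str (h : Dom v b P V 0) : Str v b P := by
  have h1 : v (P.coeff 0) = V := by rw [h.eq]; simp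
  exact ⟨h.ne, fun l hl => by rw [h1]; exact h.gt l hl⟩

/-- A strict polynomial has no root in the closed disc. -/
theorem str_eval (h : Str v b P) {t : Ω} (ht : v.Ge b t) :
    Gt v (v (P.coeff 0)) (P.eval t - P.coeff 0) := by
  have h2 : P.eval t - P.coeff 0 = ∑ l ∈ Finset.Icc 1 P.natDegree, P.coeff l * t ^ l := by
    rw [eval_eq_sum_range, Finset.sum_range_eq_add_Ico _ (Nat.succ_pos _)]
    rw [pow_zero, mul_one, add_sub_cancel_left]
    rfl
  rw [h2]
  refine Gt.sum _ _ fun l hl => ?_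
  refine ((h.gt l (Finset.mem_Icc.1 hl).1).mul_ge (ge_pow ht l)).mono ?_
  linarith

theorem str_eval_ne (h : Str v b P) {t : Ω} (ht : v.Ge b t) :
    P.eval t ≠ 0 ∧ v (P.eval t) = v (P.coeff 0) := by
  have h1 := str_eval h ht
  obtain ⟨h2, h3⟩ := add_gt_dom h.ne h1
  rw [add_sub_cancel] at h2 h3
  exact ⟨h2, h3⟩

end Dom

section Div

variable {k Ω : Type u} [Field k] [Field Ω] [Algebra k Ω] {C : IntermediateField k Ω}
  {f φ : Polynomial Ω}

theorem exists_lift (hf : f ∈ PI C) : ∃ f₀ : Polynomial C, f₀.map (algebraMap C Ω) = f := by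
  have hl : f ∈ Polynomial.lifts (algebraMap C Ω) := by
    rw [Polynomial.lifts_iff_coeff_lifts]
    exact fun i => ⟨⟨f.coeff i, hf i⟩, rfl⟩
  exact hl

theorem map_mem_PI (f₀ : Polynomial C) : f₀.map (algebraMap C Ω) ∈ PI C := fun i => by
  rw [coeff_map]
  exact (f₀.coeff i).2

theorem divMod_mem_PI (hf : f ∈ PI C) (hφ : φ ∈ PI C) (hm : φ.Monic) :
    f /ₘ φ ∈ PI C ∧ f %ₘ φ ∈ PI C := by
  obtain ⟨f₀, rfl⟩ := exists_lift hf
  obtain ⟨φ₀, rfl⟩ := exists_lift hφ
  have hm₀ : φ₀.Monic := monic_of_injective (algebraMap C Ω).injective hm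
  rw [← map_divByMonic _ hm₀, ← map_modByMonic _ hm₀]
  exact ⟨map_mem_PI _, map_mem_PI _⟩

theorem pow_mem_PI (hφ : φ ∈ PI C) (l : ℕ) : φ ^ l ∈ PI C := Subring.pow_mem _ hφ l

theorem dig_mem_PI (hf : f ∈ PI C) (hφ : φ ∈ PI C) (hm : φ.Monic) (l : ℕ) :
    dig φ f l ∈ PI C :=
  (divMod_mem_PI (divMod_mem_PI hf (pow_mem_PI hφ l) (hm.pow l)).1 hφ hm).2

omit [Algebra k Ω] [Field k] in
theorem div_succ {Ω : Type u} [Field Ω] {φ : Polynomial Ω} (hm : φ.Monic) (f : Polynomial Ω) (l : ℕ) :
    f /ₘ φ ^ l = dig φ f l + φ * (f /ₘ φ ^ (l + 1)) := by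
  have h1 := modByMonic_add_div f (φ ^ l)
  have h2 := modByMonic_add_div (f /ₘ φ ^ l) φ
  set q := f /ₘ φ ^ l with hq
  have h3 : f = (f %ₘ φ ^ l + φ ^ l * (q %ₘ φ)) + φ ^ (l + 1) * (q /ₘ φ) := by
    conv_lhs => rw [← h1, ← h2]
    ring
  have hd : (f %ₘ φ ^ l + φ ^ l * (q %ₘ φ)).degree < (φ ^ (l + 1)).degree := by
    refine (degree_add_le _ _).trans_lt (max_lt ?_ ?_)
    · refine (degree_modByMonic_lt f (hm.pow l)).trans_le ?_
      rw [pow_succ, hm.degree_mul]
      exact le_add_of_nonneg_right (zero_le_degree_iff.2 hm.ne_zero)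
    · have h4 := degree_modByMonic_lt q hm
      rw [pow_succ, degree_mul, degree_mul]
      exact WithBot.add_lt_add_left (degree_ne_bot.2 (hm.pow l).ne_zero) h4
  have h5 := (div_modByMonic_unique (f := f) (g := φ ^ (l + 1)) (q /ₘ φ)
    (f %ₘ φ ^ l + φ ^ l * (q %ₘ φ)) (hm.pow (l + 1)) ⟨h3.symm, hd⟩).1
  rw [h5]
  rw [dig, ← hq]
  exact h2.symm

end Div

section Lev

variable {k Ω : Type u} [Field k] [Field Ω] [Algebra k Ω] {v : RVal Ω}
  {C : IntermediateField k Ω} {y : Ω} {b β : ℝ} {φ f g g' : Polynomial Ω}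

/-- A polynomial without roots in the closed disc is strict. -/
theorem str_of_roots [IsAlgClosed Ω] {b' : ℝ} (h0 : g ≠ 0)
    (h : ∀ η, g.eval η = 0 → y ≠ η ∧ v (y - η) < b') : Str v b' (taylor y g) := by
  have h1 := (IsAlgClosed.splits g).eq_prod_roots
  rw [h1, taylor_mul, taylor_C]
  refine Str.mul (Str.C (leadingCoeff_ne_zero.2 h0)) (Str.multiset _ fun θ hθ => ?_)
  rw [mem_roots h0] at hθ
  exact h θ hθ

/-- (i) the polynomials of degree smaller than the key degree are strict, at all the radii `≥ b`. -/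
theorem Lev.str [IsAlgClosed Ω] (h : Lev v C y b φ β) (hg : g ∈ PI C) (h0 : g ≠ 0)
    (hd : g.natDegree < φ.natDegree) {b' : ℝ} (hb : b ≤ b') : Str v b' (taylor y g) := by
  refine str_of_roots h0 fun η hη => ?_
  by_contra hcon
  have h1 : v.Ge b (y - η) := by
    intro h2
    by_contra h3
    push Not at h3
    exact hcon ⟨sub_ne_zero.1 h2, h3.trans_le hb⟩
  exact absurd (h.min g hg h0 ⟨η, hη, h1⟩) (by omega)

theorem Lev.eval_ne [IsAlgClosed Ω] (h : Lev v C y b φ β) (hg : g ∈ PI C) (h0 : g ≠ 0)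
    (hd : g.natDegree < φ.natDegree) : g.eval y ≠ 0 := by
  have := (h.str hg h0 hd le_rfl).ne
  rwa [taylor_coeff_zero] at this

/-- (i) for helper34: the Gauss value of a polynomial of small degree is the value at `y`. -/
theorem Lev.gb_small [IsAlgClosed Ω] (h : Lev v C y b φ β) (hg : g ∈ PI C)
    (hd : g.natDegree < φ.natDegree) {b' lam : ℝ} (hb : b ≤ b') :
    GB v b' lam (taylor y g) ↔ v.Ge lam (g.eval y) := by
  constructor
  · intro h1
    have h2 := h1 0
    rwa [taylor_coeff_zero, Nat.cast_zero, zero_mul, sub_zero] at h2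
  · intro h1 l
    by_cases h0 : g = 0
    · rw [h0, _root_.map_zero, coeff_zero]
      exact RVal.Ge.zero
    have h2 := (h.str hg h0 hd hb).ge l
    rw [taylor_coeff_zero] at h2
    exact h2.mono (by linarith [h1 (h.eval_ne hg h0 hd)])

theorem Lev.dom_small [IsAlgClosed Ω] (h : Lev v C y b φ β) (hg : g ∈ PI C) (h0 : g ≠ 0)
    (hd : g.natDegree < φ.natDegree) : Dom v b (taylor y g) (v (g.eval y)) 0 := by
  have h1 := dom_of_str (h.str hg h0 hd le_rfl)
  rwa [taylor_coeff_zero] at h1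

theorem Lev.natDegree_pos (h : Lev v C y b φ β) : 0 < φ.natDegree := by
  obtain ⟨η, hη, _⟩ := h.root
  rcases Nat.eq_zero_or_pos φ.natDegree with h1 | h1
  · rw [h.mon.natDegree_eq_zero] at h1
    rw [h1, eval_one] at hη
    exact absurd hη one_ne_zero
  · exact h1

theorem Lev.ne_one (h : Lev v C y b φ β) : φ ≠ 1 := by
  intro h1
  have := h.natDegree_pos
  rw [h1, natDegree_one] at this
  exact lt_irrefl _ this

/-- A strict polynomial (centre `y`) at a point of the closed disc. -/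
theorem str_at {η : Ω} (h : Str v b (taylor y g)) (hη : v.Ge b (η - y)) :
    Gt v (v (g.eval y)) (g.eval η - g.eval y) ∧ g.eval η ≠ 0 ∧ v (g.eval η) = v (g.eval y) := by
  have h1 := str_eval h hη
  have h2 := str_eval_ne h hη
  rw [taylor_coeff_zero, ← TWM.eval_eq_taylor] at h1 h2
  exact ⟨h1, h2.1, h2.2⟩

/-- (ii) a product of two polynomials of small degree and its remainder modulo the key polynomial
have the same leading term at `y`. -/
theorem Lev.mul_mod [IsAlgClosed Ω] (h : Lev v C y b φ β) (hg : g ∈ PI C) (h0 : g ≠ 0)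
    (hd : g.natDegree < φ.natDegree) (hg' : g' ∈ PI C) (h0' : g' ≠ 0)
    (hd' : g'.natDegree < φ.natDegree) :
    (g * g') %ₘ φ ≠ 0 ∧
      Gt v (v (g.eval y * g'.eval y)) (g.eval y * g'.eval y - ((g * g') %ₘ φ).eval y) := by
  obtain ⟨η, hη, hbη⟩ := h.root
  have hηy : v.Ge b (η - y) := by
    rw [← neg_sub]
    exact RVal.Ge.neg fun _ => hbη.le
  have hs : Str v b (taylor y (g * g')) := by
    rw [taylor_mul]
    exact (h.str hg h0 hd le_rfl).mul (h.str hg' h0' hd' le_rfl)
  obtain ⟨h1, h2, h3⟩ := str_at hs hηy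
  have hr : (g * g').eval η = ((g * g') %ₘ φ).eval η := by
    conv_lhs => rw [← modByMonic_add_div (g * g') φ]
    rw [eval_add, eval_mul, hη, zero_mul, add_zero]
  have hr0 : (g * g') %ₘ φ ≠ 0 := by
    intro h4
    rw [hr, h4, eval_zero] at h2
    exact h2 rfl
  have hrC : (g * g') %ₘ φ ∈ PI C := (divMod_mem_PI (Subring.mul_mem _ hg hg') h.mem h.mon).2
  have hrd : ((g * g') %ₘ φ).natDegree < φ.natDegree := natDegree_modByMonic_lt _ h.mon h.ne_one
  obtain ⟨h5, h6, h7⟩ := str_at (h.str hrC hr0 hrd le_rfl) hηy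
  refine ⟨hr0, ?_⟩
  rw [← hr] at h5 h7
  rw [← eval_mul (p := g) (q := g') (x := y)]
  have e : (g * g').eval y - ((g * g') %ₘ φ).eval y =
      -((g * g').eval η - (g * g').eval y) +
        ((g * g').eval η - ((g * g') %ₘ φ).eval y) := by ring
  rw [e]
  refine Gt.add (Gt.neg h1) ?_
  rw [← h3, h7]
  exact h5

/-- The key polynomial has a dominant index `≥ 1` (the number of its roots in the closed disc). -/
theorem Lev.exists_dom (h : Lev v C y b φ β) : ∃ n, 1 ≤ n ∧ Dom v b (taylor y φ) β n := by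
  have h0 : taylor y φ ≠ 0 := by
    intro h1
    exact h.mon.ne_zero (taylor_injective y (by rw [h1, _root_.map_zero]))
  obtain ⟨V, n, hV⟩ := TWJ2.exists_dom v b h0
  have hVβ : V = β := le_antisymm (h.le V hV.gb) (hV.le h.ge)
  rw [hVβ] at hV
  refine ⟨n, ?_, hV⟩
  rcases Nat.eq_zero_or_pos n with h1 | h1
  · exfalso
    rw [h1] at hV
    obtain ⟨η, hη, hbη⟩ := h.root
    have hηy : v.Ge b (η - y) := by
      rw [← neg_sub]
      exact RVal.Ge.neg fun _ => hbη.le
    exact (str_at hV.str hηy).2.1 hη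
  · exact h1

/-- The value of the key polynomial is larger than its Gauss value. -/
theorem Lev.eval_gt (h : Lev v C y b φ β) : Gt v β (φ.eval y) := by
  obtain ⟨η, hη, hbη⟩ := h.root
  obtain ⟨ψ, hψ⟩ := dvd_iff_isRoot.2 (show IsRoot φ η from hη)
  have hφ0 := h.mon.ne_zero
  have hψ0 : ψ ≠ 0 := by
    rintro rfl
    rw [mul_zero] at hψ
    exact hφ0 hψ
  have hψ0' : taylor y ψ ≠ 0 := fun h1 => hψ0 (taylor_injective y (by rw [h1, _root_.map_zero]))
  obtain ⟨V, m, hV⟩ := TWJ2.exists_dom v b hψ0'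
  have h1 : taylor y (X - Polynomial.C η) = X + Polynomial.C (y - η) := by
    rw [map_sub, taylor_X, taylor_C, C_sub]; ring
  have h2 : Dom v b (taylor y (X - Polynomial.C η)) b 1 := by
    rw [h1]
    refine ⟨fun l => ?_, ?_, ?_, fun l hl => ?_⟩
    · rcases l with _ | _ | l
      · rw [coeff_add, coeff_X_zero, coeff_C_zero, zero_add]
        intro _
        push_cast
        linarith
      · rw [zero_add, coeff_add, coeff_X_one, coeff_C_of_ne_zero one_ne_zero, add_zero]
        intro _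
        rw [v.map_one]
        push_cast
        linarith
      · rw [coeff_add, coeff_X, if_neg (by omega), coeff_C_of_ne_zero (by omega), add_zero]
        exact RVal.Ge.zero
    · rw [coeff_add, coeff_X_one, coeff_C_of_ne_zero one_ne_zero, add_zero]
      exact one_ne_zero
    · rw [coeff_add, coeff_X_one, coeff_C_of_ne_zero one_ne_zero, add_zero, v.map_one]
      push_cast
      ring
    · rw [coeff_add, coeff_X, if_neg (by omega), coeff_C_of_ne_zero (by omega), add_zero]
      exact Gt.zero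
  obtain ⟨n, _, hn⟩ := h.exists_dom
  have h3 := h2.mul hV
  rw [← taylor_mul, ← hψ] at h3
  have h4 : b + V = β := (h3.unique hn).1
  intro h5
  have h6 : φ.eval y = (y - η) * ψ.eval y := by
    rw [hψ, eval_mul, eval_sub, eval_X, eval_C]
  rw [h6] at h5 ⊢
  have h7 := hV.gb 0
  rw [taylor_coeff_zero, Nat.cast_zero, zero_mul, sub_zero] at h7
  have h8 := h7 (right_ne_zero_of_mul h5)
  rw [v.map_mul (left_ne_zero_of_mul h5) (right_ne_zero_of_mul h5), ← h4]
  linarith

/-- The digit theorem, exact form: the sum of the `d l * φ ^ l`, `d l` of small degree. -/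
theorem Lev.dom_sum [IsAlgClosed Ω] (h : Lev v C y b φ β) {n : ℕ} (hn : 1 ≤ n)
    (hφ : Dom v b (taylor y φ) β n) (d : ℕ → Polynomial Ω)
    (hd : ∀ l, d l ∈ PI C ∧ (d l).natDegree < φ.natDegree) (N : ℕ) :
    (∀ l < N, d l = 0) ∨ ∃ L < N, d L ≠ 0 ∧
      Dom v b (taylor y (∑ l ∈ Finset.range N, d l * φ ^ l)) (v ((d L).eval y) + L * β) (L * n) ∧
      ∀ l < N, d l ≠ 0 → v ((d L).eval y) + L * β ≤ v ((d l).eval y) + l * β := by
  induction N with
  | zero => exact Or.inl fun l hl => absurd hl (Nat.not_lt_zero l)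
  | succ N ih =>
    by_cases hN : d N = 0
    · rw [Finset.sum_range_succ, hN, zero_mul, add_zero]
      rcases ih with ih | ⟨L, hL, hL0, hdom, hmin⟩
      · left
        intro l hl
        rcases Nat.lt_succ_iff_lt_or_eq.1 hl with h1 | h1
        · exact ih l h1
        · rw [h1]; exact hN
      · right
        refine ⟨L, by omega, hL0, hdom, fun l hl hl0 => ?_⟩
        rcases Nat.lt_succ_iff_lt_or_eq.1 hl with h1 | h1
        · exact hmin l h1 hl0
        · rw [h1] at hl0; exact absurd hN hl0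
    · have hterm : Dom v b (taylor y (d N * φ ^ N)) (v ((d N).eval y) + N * β) (N * n) := by
        have h1 := (h.dom_small (hd N).1 hN (hd N).2).mul (hφ.pow N)
        rw [taylor_mul, taylor_pow]
        rwa [zero_add] at h1
      right
      rcases ih with ih | ⟨L, hL, hL0, hdom, hmin⟩
      · refine ⟨N, by omega, hN, ?_, fun l hl hl0 => ?_⟩
        · have h1 : ∑ l ∈ Finset.range N, d l * φ ^ l = 0 :=
            Finset.sum_eq_zero fun l hl => by rw [ih l (Finset.mem_range.1 hl), zero_mul]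
          rw [Finset.sum_range_succ, h1, zero_add]
          exact hterm
        · rcases Nat.lt_succ_iff_lt_or_eq.1 hl with h1 | h1
          · exact absurd (ih l h1) hl0
          · rw [h1]
      · rw [Finset.sum_range_succ, map_add]
        have hLn : L * n < N * n := Nat.mul_lt_mul_of_pos_right hL hn
        by_cases hc : v ((d L).eval y) + L * β < v ((d N).eval y) + N * β
        · refine ⟨L, by omega, hL0, hdom.add_left hterm (Or.inl hc), fun l hl hl0 => ?_⟩
          rcases Nat.lt_succ_iff_lt_or_eq.1 hl with h1 | h1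
          · exact hmin l h1 hl0
          · rw [h1]; exact hc.le
        · push Not at hc
          refine ⟨N, by omega, hN, hdom.add_right hterm ?_, fun l hl hl0 => ?_⟩
          · rcases hc.lt_or_eq with h1 | h1
            · exact Or.inl h1
            · exact Or.inr ⟨h1, hLn⟩
          · rcases Nat.lt_succ_iff_lt_or_eq.1 hl with h1 | h1
            · exact hc.trans (hmin l h1 hl0)
            · rw [h1]

/-- The expansion to the base `φ`. -/
theorem eq_sum_dig (hm : φ.Monic) (f : Polynomial Ω) (N : ℕ) :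
    f = ∑ l ∈ Finset.range N, dig φ f l * φ ^ l + φ ^ N * (f /ₘ φ ^ N) := by
  induction N with
  | zero => simp
  | succ N ih =>
    rw [Finset.sum_range_succ]
    conv_lhs => rw [ih, div_succ hm f N]
    ring

theorem div_pow_eq_zero (h : Lev v C y b φ β) {N : ℕ} (hN : f.natDegree < N) :
    f /ₘ φ ^ N = 0 := by
  rw [divByMonic_eq_zero_iff (h.mon.pow N)]
  refine degree_lt_degree ?_
  rw [h.mon.natDegree_pow]
  have := h.natDegree_pos
  calc f.natDegree < N := hN
    _ = N * 1 := (Nat.mul_one N).symm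
    _ ≤ N * φ.natDegree := Nat.mul_le_mul_left N this

theorem Lev.eq_sum (h : Lev v C y b φ β) {N : ℕ} (hN : f.natDegree < N) :
    f = ∑ l ∈ Finset.range N, dig φ f l * φ ^ l := by
  have h1 := eq_sum_dig h.mon f N
  rwa [div_pow_eq_zero h hN, mul_zero, add_zero] at h1

theorem Lev.dig_eq_zero (h : Lev v C y b φ β) {l : ℕ} (hl : f.natDegree < l) :
    dig φ f l = 0 := by
  rw [dig, div_pow_eq_zero h hl, zero_modByMonic]

theorem Lev.dig_small (h : Lev v C y b φ β) (hf : f ∈ PI C) (l : ℕ) :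
    dig φ f l ∈ PI C ∧ (dig φ f l).natDegree < φ.natDegree :=
  ⟨dig_mem_PI hf h.mem h.mon l, natDegree_modByMonic_lt _ h.mon h.ne_one⟩

/-- The digit theorem, exact form. -/
theorem Lev.dom_dig [IsAlgClosed Ω] (h : Lev v C y b φ β) {n : ℕ} (hn : 1 ≤ n)
    (hφ : Dom v b (taylor y φ) β n) (hf : f ∈ PI C) (h0 : f ≠ 0) :
    ∃ L, dig φ f L ≠ 0 ∧
      Dom v b (taylor y f) (v ((dig φ f L).eval y) + L * β) (L * n) ∧
      ∀ l, dig φ f l ≠ 0 →
        v ((dig φ f L).eval y) + L * β ≤ v ((dig φ f l).eval y) + l * β := by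
  have hs := h.eq_sum (Nat.lt_succ_self f.natDegree)
  rcases h.dom_sum hn hφ (fun l => dig φ f l) (h.dig_small hf) (f.natDegree + 1) with h1 |
    ⟨L, hL, hL0, hdom, hmin⟩
  · exfalso
    apply h0
    rw [hs]
    exact Finset.sum_eq_zero fun l hl => by rw [h1 l (Finset.mem_range.1 hl), zero_mul]
  · refine ⟨L, hL0, ?_, fun l hl => ?_⟩
    · rw [← hs] at hdom
      exact hdom
    · by_cases h2 : l < f.natDegree + 1
      · exact hmin l h2 hl
      · exact absurd (h.dig_eq_zero (by omega)) hl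

/-- **The digit theorem.** -/
theorem Lev.digit [IsAlgClosed Ω] (h : Lev v C y b φ β) (hf : f ∈ PI C) {lam : ℝ} :
    GB v b lam (taylor y f) ↔ ∀ l : ℕ, v.Ge (lam - l * β) ((dig φ f l).eval y) := by
  constructor
  · intro hg l
    by_cases h0 : f = 0
    · have h1 : dig φ f l = 0 := by rw [h0, dig, zero_divByMonic, zero_modByMonic]
      rw [h1, eval_zero]
      exact RVal.Ge.zero
    obtain ⟨n, hn, hφ⟩ := h.exists_dom
    obtain ⟨L, hL, hdom, hmin⟩ := h.dom_dig hn hφ hf h0
    have h1 := hdom.le hg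
    by_cases hl : dig φ f l = 0
    · rw [hl, eval_zero]
      exact RVal.Ge.zero
    · intro _
      have h2 := hmin l hl
      linarith
  · intro hl
    rw [h.eq_sum (Nat.lt_succ_self f.natDegree), map_sum]
    refine TWM.GB.sum _ _ fun l _ => ?_
    rw [taylor_mul, taylor_pow]
    have hd := h.dig_small hf l
    have h1 := (h.gb_small hd.1 hd.2 le_rfl (lam := lam - l * β)).2 (hl l)
    have h2 : GB v b (lam - l * β + l * β) (taylor y (dig φ f l) * taylor y φ ^ l) :=
      h1.mul (TWM.GB.pow h.ge l)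
    rwa [sub_add_cancel] at h2

end Lev

end Pool.Agent.TWJ2
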