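import Pool.Agent.Lib.TWJ2.SoftDefs
import Pool.Agent.Lib.TWJ2.Lev
import Pool.Agent.Lib.TWJ2.Dig

/-!
# TANK W, ROW J, SOFT J: root counts over a henselian base

* `count`: `P` the minimal polynomial of `η`, `η` in the closed disc: `deg P * ncl g ≤ ncl P * deg g`;
* `split`: left compatibility of `P`;
* `exists_Ky`, `Ky.mult`: key polynomials; the numbers of roots are multiples of the one of the key.
-/

set_option autoImplicit false

open Polynomial

namespace Pool.Agent.TWJ2.Soft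

open Pool.Agent.H15JM (RVal)
open Pool.Agent.TWM (PI PII Gt GB isAlgebraic_root)

universe u

variable {k Ω : Type u} [Field k] [Field Ω] [Algebra k Ω]

section Cj

variable {v : RVal Ω} {N : IntermediateField k Ω} {y η η' : Ω} {b lam lam' : ℝ} {n n' : ℕ}
  {f g : Polynomial Ω}

theorem gz_unique (h : GZ v b lam n g) (h' : GZ v b lam' n' g) : lam = lam' ∧ n = n' := by
  have h1 : lam = lam' := le_antisymm (h'.le h.gb) (h.le h'.gb)
  subst h1
  refine ⟨rfl, ?_⟩
  rcases lt_trichotomy n n' with h2 | h2 | h2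
  · have h3 := h.lt n' h2 h'.ne
    rw [h'.eq] at h3
    exact absurd h3 (lt_irrefl _)
  · exact h2
  · have h3 := h'.lt n h2 h.ne
    rw [h.eq] at h3
    exact absurd h3 (lt_irrefl _)

theorem hasse_mem (hf : f ∈ PI N) (m : ℕ) : hasseDeriv m f ∈ PI N := fun i => by
  rw [hasseDeriv_coeff]
  exact mul_mem (natCast_mem N _) (hf _)

theorem cj_alg (hη : IsAlgebraic N η) (hm : minpoly N η' = minpoly N η) : IsAlgebraic N η' := by
  rw [isAlgebraic_iff_isIntegral] at hη ⊢
  rw [← minpoly.ne_zero_iff, hm]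
  exact minpoly.ne_zero hη

theorem cj_zero (hN : Cj v N) (hη : IsAlgebraic N η) (hm : minpoly N η' = minpoly N η)
    (hf : f ∈ PI N) (h0 : f.eval η = 0) : f.eval η' = 0 := by
  by_contra h1
  have h2 := hN η η' hη hm f hf (v (f.eval η') + 1) (by rw [h0]; exact RVal.Ge.zero) h1
  linarith

theorem cj_val (hN : Cj v N) (hη : IsAlgebraic N η) (hm : minpoly N η' = minpoly N η)
    (hf : f ∈ PI N) : (f.eval η = 0 ↔ f.eval η' = 0) ∧ v (f.eval η) = v (f.eval η') := by
  have hη' := cj_alg hη hm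
  have h0 : f.eval η = 0 ↔ f.eval η' = 0 :=
    ⟨cj_zero hN hη hm hf, cj_zero hN hη' hm.symm hf⟩
  refine ⟨h0, ?_⟩
  by_cases h1 : f.eval η = 0
  · rw [h1, h0.1 h1]
  · have h2 : f.eval η' ≠ 0 := fun h => h1 (h0.2 h)
    refine le_antisymm ?_ ?_
    · exact hN η η' hη hm f hf _ (fun _ => le_rfl) h2
    · exact hN η' η hη' hm.symm f hf _ (fun _ => le_rfl) h1

theorem cj_coeff (hN : Cj v N) (hη : IsAlgebraic N η) (hm : minpoly N η' = minpoly N η)
    (hf : f ∈ PI N) (m : ℕ) : ((taylor η f).coeff m = 0 ↔ (taylor η' f).coeff m = 0) ∧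
      v ((taylor η f).coeff m) = v ((taylor η' f).coeff m) := by
  rw [taylor_coeff, taylor_coeff]
  exact cj_val hN hη hm (hasse_mem hf m)

/-- The number of roots near conjugate elements is the same. -/
theorem cj_ncl [IsAlgClosed Ω] (hN : Cj v N) (hη : IsAlgebraic N η)
    (hm : minpoly N η' = minpoly N η) (hf : f ∈ PI N) (h0 : f ≠ 0) (b : ℝ) :
    ncl v η' b f = ncl v η b f := by
  have h1 := GZ_gval (v := v) (y := η) (b := b) h0
  have h2 := GZ_gval (v := v) (y := η') (b := b) h0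
  have hc := cj_coeff hN hη hm hf
  have h3 : GZ v b (gval v η b f) (ncl v η b f) (taylor η' f) := by
    refine ⟨fun m hm0 => ?_, fun h => h1.ne ((hc _).1.2 h), ?_, fun m hm1 hm0 => ?_⟩
    · rw [← (hc m).2]
      exact h1.gb m fun h => hm0 ((hc m).1.1 h)
    · rw [← (hc _).2]
      exact h1.eq
    · rw [← (hc m).2]
      exact h1.lt m hm1 fun h => hm0 ((hc m).1.1 h)
  exact (gz_unique h2 h3).2

theorem ge_swap {x x' : Ω} : v.Ge b (x - x') ↔ v.Ge b (x' - x) := by
  constructor <;> intro h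
  · rw [← neg_sub]; exact h.neg
  · rw [← neg_sub]; exact h.neg

/-- Near centres give the same number of roots. -/
theorem ncl_near {y' : Ω} (h : v.Ge b (y - y')) : ncl v y b f = ncl v y' b f := by
  classical
  unfold ncl
  refine Multiset.countP_congr rfl fun γ _ => propext ⟨?_, ?_⟩
  · intro h1
    have h2 : y' - γ = (y - γ) - (y - y') := by ring
    rw [h2]
    exact h1.sub h
  · intro h1
    have h2 : y - γ = (y' - γ) + (y - y') := by ring
    rw [h2]
    exact h1.add h

omit [Field Ω] in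
theorem countP_sum (t : Multiset Ω) (q : Ω → Prop) [DecidablePred q] :
    t.countP q = (t.map fun b => if q b then 1 else 0).sum := by
  induction t using Multiset.induction_on with
  | empty => simp
  | cons b t ih =>
    rw [Multiset.countP_cons, Multiset.map_cons, Multiset.sum_cons, ih, add_comm]

omit [Field Ω] in
/-- Double counting. -/
theorem double_count (s t : Multiset Ω) (r : Ω → Ω → Prop) [∀ a, DecidablePred (r a)]
    [∀ b, DecidablePred fun a => r a b] :
    (s.map fun a => t.countP (r a)).sum = (t.map fun b => s.countP fun a => r a b).sum := by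
  classical
  have h1 : (s.map fun a => t.countP (r a)).sum =
      (s.map fun a => (t.map fun b => if r a b then 1 else 0).sum).sum := by
    congr 1
    exact Multiset.map_congr rfl fun a _ => countP_sum t (r a)
  have h2 : (t.map fun b => s.countP fun a => r a b).sum =
      (t.map fun b => (s.map fun a => if r a b then 1 else 0).sum).sum := by
    congr 1
    refine Multiset.map_congr rfl fun b _ => ?_
    rw [countP_sum s fun a => r a b]
  rw [h1, h2, Multiset.sum_map_sum_map]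

/-- The minimal polynomial over `N`, with coefficients in `Ω`. -/
noncomputable def mp (N : IntermediateField k Ω) (η : Ω) : Polynomial Ω :=
  (minpoly N η).map (algebraMap N Ω)

theorem mp_mem (η : Ω) : mp N η ∈ PI N := minpoly_mem_PI η

theorem mp_monic (hη : IsAlgebraic N η) : (mp N η).Monic :=
  (minpoly.monic hη.isIntegral).map _

theorem mp_eval (η : Ω) : (mp N η).eval η = 0 := by
  rw [mp, eval_map_algebraMap]
  exact minpoly.aeval N η

theorem mp_deg (η : Ω) : (mp N η).natDegree = (minpoly N η).natDegree := natDegree_map _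

theorem mp_root (hη : IsAlgebraic N η) {ρ : Ω} (h : (mp N η).eval ρ = 0) :
    minpoly N ρ = minpoly N η := by
  refine (minpoly.eq_of_irreducible_of_monic (minpoly.irreducible hη.isIntegral) ?_
    (minpoly.monic hη.isIntegral)).symm
  rwa [mp, eval_map_algebraMap] at h

/-- **Root counts.** -/
theorem count [IsAlgClosed Ω] (hN : Cj v N) (hη : IsAlgebraic N η) (hb : v.Ge b (y - η))
    (hg : g ∈ PI N) (h0 : g ≠ 0) :
    (mp N η).natDegree * ncl v y b g ≤ ncl v y b (mp N η) * g.natDegree := by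
  classical
  have hP0 := (mp_monic hη).ne_zero
  have hd := double_count (mp N η).roots g.roots fun a b' => v.Ge b (a - b')
  have h1 : ((mp N η).roots.map fun a => g.roots.countP fun b' => v.Ge b (a - b')).sum =
      (mp N η).natDegree * ncl v y b g := by
    have h2 : ((mp N η).roots.map fun a => g.roots.countP fun b' => v.Ge b (a - b')) =
        (mp N η).roots.map fun _ => ncl v y b g := by
      refine Multiset.map_congr rfl fun a ha => ?_
      have ha' : (mp N η).eval a = 0 := (mem_roots hP0).1 ha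
      have h3 := cj_ncl hN hη (mp_root hη ha') hg h0 b
      rw [ncl_near hb, ← h3]
      rfl
    rw [h2, Multiset.map_const', Multiset.sum_replicate, smul_eq_mul,
      ← (IsAlgClosed.splits (mp N η)).natDegree_eq_card_roots]
  rw [h1] at hd
  rw [hd]
  have h4 : ∀ x ∈ g.roots.map fun b' => (mp N η).roots.countP fun a => v.Ge b (a - b'),
      x ≤ ncl v y b (mp N η) := by
    intro x hx
    obtain ⟨γ, hγ, rfl⟩ := Multiset.mem_map.1 hx
    rcases Nat.eq_zero_or_pos ((mp N η).roots.countP fun a => v.Ge b (a - γ)) with h5 | h5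
    · rw [h5]; exact Nat.zero_le _
    · obtain ⟨ρ, hρ, hργ⟩ := Multiset.countP_pos.1 h5
      have hρ' : (mp N η).eval ρ = 0 := (mem_roots hP0).1 hρ
      have h6 : ((mp N η).roots.countP fun a => v.Ge b (a - γ)) = ncl v γ b (mp N η) := by
        unfold ncl
        exact Multiset.countP_congr rfl fun a _ => by rw [ge_swap]
      rw [h6, ← ncl_near hργ, ncl_near hb, cj_ncl hN hη (mp_root hη hρ') (mp_mem η) hP0 b]
  have h7 := Multiset.sum_le_card_nsmul _ _ h4
  rw [Multiset.card_map, smul_eq_mul] at h7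
  calc _ ≤ g.roots.card * ncl v y b (mp N η) := h7
    _ ≤ g.natDegree * ncl v y b (mp N η) := Nat.mul_le_mul_right _ (card_roots' g)
    _ = _ := Nat.mul_comm _ _

/-- A common radius above `b` without roots of `f` in between, below a given one. -/
theorem exists_common (v : RVal Ω) (y : Ω) {b b₂ : ℝ} (h : b < b₂) (f g : Polynomial Ω) :
    ∃ b₁ : ℝ, b < b₁ ∧ b₁ ≤ b₂ ∧ ∀ b', b < b' → b' ≤ b₁ →
      ncl v y b' f = nop v y b f ∧ ncl v y b' g = nop v y b g := by
  obtain ⟨c₁, h1, h2⟩ := exists_nop_eq v y b f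
  obtain ⟨c₂, h3, h4⟩ := exists_nop_eq v y b g
  refine ⟨min b₂ (min c₁ c₂), lt_min h (lt_min h1 h3), min_le_left _ _, fun b' h5 h6 => ?_⟩
  exact ⟨h2 b' h5 (h6.trans ((min_le_right _ _).trans (min_le_left _ _))),
    h4 b' h5 (h6.trans ((min_le_right _ _).trans (min_le_right _ _)))⟩

/-- Root counts, open discs. -/
theorem count_open [IsAlgClosed Ω] (hN : Cj v N) (hη : IsAlgebraic N η) (hb : b < v (y - η))
    (hg : g ∈ PI N) (h0 : g ≠ 0) :
    (mp N η).natDegree * nop v y b g ≤ nop v y b (mp N η) * g.natDegree := by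
  obtain ⟨b₁, h1, h2, h3⟩ := exists_common v y hb g (mp N η)
  obtain ⟨h4, h5⟩ := h3 b₁ h1 le_rfl
  rw [← h4, ← h5]
  exact count hN hη (fun _ => h2) hg h0

theorem div_mem {P : Polynomial Ω} (hP : P ∈ PI N) (hm : P.Monic) (hf : f ∈ PI N) :
    f /ₘ P ∈ PI N ∧ f %ₘ P ∈ PI N := Dg.PI_div hP hm hf

/-- **Left compatibility.** -/
theorem split [IsAlgClosed Ω] (hN : Cj v N) (hη : IsAlgebraic N η) (hb : v.Ge b (y - η))
    (hf : f ∈ PI N) (h : GB v b lam (taylor y f)) (e : ℕ) :
    GB v b lam (taylor y (mp N η ^ e * (f /ₘ mp N η ^ e))) := by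
  set P := mp N η with hP
  have hPm : P.Monic := mp_monic hη
  have hPe : (P ^ e).Monic := hPm.pow e
  have hPeN : P ^ e ∈ PI N := pow_mem (mp_mem η) e
  obtain ⟨hH, hr⟩ := div_mem hPeN hPe hf
  set H := f /ₘ P ^ e with hHd
  set r := f %ₘ P ^ e with hrd
  have hsum : r + P ^ e * H = f := modByMonic_add_div f (P ^ e)
  by_cases h1 : H = 0
  · rw [h1, mul_zero, map_zero]
    exact TWM.GB.zero
  by_cases h2 : r = 0
  · rw [h2, zero_add] at hsum
    rwa [hsum]
  have h3 : P ^ e * H ≠ 0 := mul_ne_zero hPe.ne_zero h1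
  rw [GB_iff h3]
  by_contra hcon
  push Not at hcon
  have hG1 := GZ_gval (v := v) (y := y) (b := b) h3
  have hG2 := GZ_gval (v := v) (y := y) (b := b) h2
  set V := gval v y b (P ^ e * H) with hV
  set W := gval v y b r with hW
  -- the numbers of roots
  have hlt : ncl v y b r < ncl v y b (P ^ e * H) := by
    rw [ncl_mul hPe.ne_zero h1, ncl_pow]
    have hpos : 0 < ncl v y b P := (ncl_pos_iff hPm.ne_zero).2 ⟨η, mp_eval η, hb⟩
    have hc := count hN hη hb hr h2
    have hdeg : r.natDegree < e * P.natDegree := by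
      rw [← hPm.natDegree_pow]
      refine natDegree_modByMonic_lt f hPe fun h4 => h2 ?_
      rw [hrd, h4, modByMonic_one]
    have hP0 : 0 < P.natDegree := by
      rcases Nat.eq_zero_or_pos P.natDegree with h4 | h4
      · rw [h4, mul_zero] at hdeg
        exact absurd hdeg (Nat.not_lt_zero _)
      · exact h4
    have h5 : P.natDegree * ncl v y b r < P.natDegree * (e * ncl v y b P) := by
      calc P.natDegree * ncl v y b r ≤ ncl v y b P * r.natDegree := hc
        _ < ncl v y b P * (e * P.natDegree) := Nat.mul_lt_mul_of_pos_left hdeg hpos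
        _ = P.natDegree * (e * ncl v y b P) := by ring
    exact (Nat.lt_of_mul_lt_mul_left h5).trans_le (Nat.le_add_right _ _)
  have hcoe : ∀ m, (taylor y f).coeff m = (taylor y r).coeff m + (taylor y (P ^ e * H)).coeff m := by
    intro m
    rw [← coeff_add, ← map_add, hsum]
  rcases lt_or_ge W V with h4 | h4
  · -- the remainder dominates
    have h5 : Gt v (W - (ncl v y b r : ℕ) * b) ((taylor y (P ^ e * H)).coeff (ncl v y b r)) :=
      Gt.of_ge (hG1.gb _) (by linarith)
    obtain ⟨h6, h7⟩ := add_gt hG2.ne hG2.eq h5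
    rw [← hcoe] at h6 h7
    have h8 := h _ h6
    linarith
  · have h5 : Gt v (V - (ncl v y b (P ^ e * H) : ℕ) * b)
        ((taylor y r).coeff (ncl v y b (P ^ e * H))) := (hG2.lt _ hlt).mono (by linarith)
    obtain ⟨h6, h7⟩ := add_gt hG1.ne hG1.eq h5
    rw [add_comm, ← hcoe] at h6 h7
    have h8 := h _ h6
    linarith

/-! ### key polynomials -/

variable {Q θ : Polynomial Ω}

theorem Ky.ne (h : Ky v N y b Q) : Q ≠ 0 := h.mon.ne_zero

theorem Ky.alg (h : Ky v N y b Q) {η : Ω} (hη : Q.eval η = 0) : IsAlgebraic N η :=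
  isAlgebraic_root h.mem h.ne hη

/-- Existence. -/
theorem exists_Ky (hη : IsAlgebraic N η) (hb : b < v (y - η)) : ∃ Q, Ky v N y b Q := by
  classical
  have hex : ∃ d : ℕ, ∃ g ∈ PI N, g ≠ 0 ∧ g.natDegree = d ∧ ∃ ρ : Ω, g.eval ρ = 0 ∧ b < v (y - ρ) :=
    ⟨_, mp N η, mp_mem η, (mp_monic hη).ne_zero, rfl, η, mp_eval η, hb⟩
  obtain ⟨g, hg, hg0, hgd, ρ, hρ, hbρ⟩ := Nat.find_spec hex
  have hlc : g.leadingCoeff ≠ 0 := leadingCoeff_ne_zero.2 hg0
  have hm : (C g.leadingCoeff⁻¹ * g).Monic := by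
    rw [Monic, leadingCoeff_mul, leadingCoeff_C, inv_mul_cancel₀ hlc]
  refine ⟨C g.leadingCoeff⁻¹ * g, fun i => ?_, hm, ⟨ρ, ?_, hbρ⟩, fun f hf hf0 hr => ?_⟩
  · rw [coeff_C_mul]
    exact mul_mem (inv_mem (hg _)) (hg i)
  · rw [eval_mul, hρ, mul_zero]
  · rw [natDegree_C_mul (inv_ne_zero hlc), hgd]
    exact Nat.find_min' hex ⟨f, hf, hf0, rfl, hr⟩

/-- A key polynomial is the minimal polynomial of its roots nearer than `b`. -/
theorem Ky.eq_mp (h : Ky v N y b Q) {η : Ω} (hη : Q.eval η = 0) (hb : b < v (y - η)) :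
    Q = mp N η := by
  have halg := h.alg hη
  obtain ⟨Q₀, hQ₀⟩ := exists_lift h.mem
  have hdvd : minpoly N η ∣ Q₀ := by
    refine minpoly.dvd N η ?_
    rw [← eval_map_algebraMap, hQ₀, hη]
  have hdvd' : mp N η ∣ Q := by
    rw [← hQ₀, mp]
    exact Polynomial.map_dvd _ hdvd
  refine (eq_of_monic_of_dvd_of_natDegree_le (mp_monic halg) h.mon hdvd' ?_)
  exact h.min _ (mp_mem η) (mp_monic halg).ne_zero ⟨η, mp_eval η, hb⟩

/-- The key polynomial at a bigger radius. -/
theorem Ky.up (h : Ky v N y b Q) {b' : ℝ} (hbb : b ≤ b') (hr : ∃ η : Ω, Q.eval η = 0 ∧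
    b' < v (y - η)) : Ky v N y b' Q :=
  ⟨h.mem, h.mon, hr, fun g hg h0 ⟨η, h1, h2⟩ => h.min g hg h0 ⟨η, h1, hbb.trans_lt h2⟩⟩

theorem Ky.deg_mono {b' : ℝ} {Q' : Polynomial Ω} (h : Ky v N y b Q) (h' : Ky v N y b' Q')
    (hbb : b ≤ b') : Q.natDegree ≤ Q'.natDegree := by
  obtain ⟨η, h1, h2⟩ := h'.root
  exact h.min _ h'.mem h'.ne ⟨η, h1, hbb.trans_lt h2⟩

theorem Ky.deg_eq {Q' : Polynomial Ω} (h : Ky v N y b Q) (h' : Ky v N y b Q') :
    Q.natDegree = Q'.natDegree := le_antisymm (h.deg_mono h' le_rfl) (h'.deg_mono h le_rfl)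

theorem Ky.nop_pos (h : Ky v N y b Q) : 0 < nop v y b Q := by
  obtain ⟨η, h1, h2⟩ := h.root
  exact (nop_pos_iff h.ne).2 ⟨η, h1, fun _ => h2⟩

theorem Ky.deg_pos (h : Ky v N y b Q) : 0 < Q.natDegree :=
  h.nop_pos.trans_le (nop_le_ncl.trans ncl_le_natDegree)

/-- Smaller degree: no roots in the open disc. -/
theorem Ky.nop_eq (hy : Transcendental N y) (h : Ky v N y b Q) (hg : g ∈ PI N) (h0 : g ≠ 0)
    (hd : g.natDegree < Q.natDegree) : nop v y b g = 0 := by
  by_contra hn
  obtain ⟨η, h1, h2⟩ := (nop_pos_iff h0).1 (Nat.pos_of_ne_zero hn)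
  have h3 := h.min g hg h0 ⟨η, h1, h2 (root_ne hy hg h0 h1)⟩
  omega

/-- The levels just above `b`. -/
theorem Ky.lev [IsAlgClosed Ω] (hy : Transcendental N y) (h : Ky v N y b Q) {η : Ω}
    (hη : Q.eval η = 0) {b' : ℝ} (hb : b < b') (hb' : b' < v (y - η)) :
    Lev v N y b' Q (gval v y b' Q) := by
  refine Lev.of_min h.mem h.mon ⟨η, hη, hb'⟩ fun g hg h0 hr => ?_
  obtain ⟨ρ, h1, h2⟩ := hr
  exact h.min g hg h0 ⟨ρ, h1, hb.trans_le (h2 (root_ne hy hg h0 h1))⟩

/-- **The numbers of roots are multiples of the one of the key polynomial.** -/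
theorem Ky.mult [IsAlgClosed Ω] (hy : Transcendental N y) (h : Ky v N y b Q) (hf : f ∈ PI N)
    (h0 : f ≠ 0) : ∃ L : ℕ, nop v y b f = L * nop v y b Q := by
  obtain ⟨η, h1, h2⟩ := h.root
  obtain ⟨b₁, h3, h4, h5⟩ := exists_common v y h2 f Q
  obtain ⟨b', h6, h7⟩ := exists_between h3
  obtain ⟨h8, h9⟩ := h5 b' h6 h7.le
  have hL := h.lev hy h1 h6 (h7.trans_le h4)
  obtain ⟨n, hn, hdom⟩ := hL.exists_dom
  obtain ⟨L, -, hdomf, -⟩ := hL.dom_dig hn hdom hf h0
  have h10 : n = ncl v y b' Q := by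
    have h11 := GZ_gval (v := v) (y := y) (b := b') h.ne
    exact (gz_unique ⟨hdom.gb, hdom.ne, hdom.eq, hdom.gt⟩ h11).2
  have h12 : L * n = ncl v y b' f := by
    have h11 := GZ_gval (v := v) (y := y) (b := b') h0
    exact (gz_unique ⟨hdomf.gb, hdomf.ne, hdomf.eq, hdomf.gt⟩ h11).2
  exact ⟨L, by rw [← h8, ← h9, ← h12, h10]⟩

end Cj

end Pool.Agent.TWJ2.Soft
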