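import Pool.Agent.Lib.TWJ2.CprimeN
import Pool.Agent.Lib.TWJ2.Soft1

/-!
# TANK W, ROW J, cell (B): the constraint in the form of SOFT J

* `di_iff`: the bounds modulo `p`-th powers, coefficient by coefficient;
* `CprimeP.con`, `CprimeP.con_near`: from the constraint (C') over `C` to `Soft.Con` over the closure
  of `C`.
-/

set_option autoImplicit false

open Polynomial

namespace Pool.Agent.TWJ2

open Pool.Agent.H15JM (RVal)
open Pool.Agent.LU1 (adj)
open Pool.Agent.D2P (clI mem_clI)
open Pool.Agent.TWM (PI PII Gt GB C_mem_PI X_mem_PI)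
open Soft (DG DI Ky Con)

universe u

variable {k Ω : Type u} [Field k] [Field Ω] [Algebra k Ω] {v : RVal Ω}
  {N : IntermediateField k Ω} {y : Ω} {b c κ : ℝ} {p : ℕ}

/-- Bounds modulo `p`-th powers, coefficient by coefficient. -/
theorem di_iff [Fact p.Prime] [CharP Ω p] {B : Polynomial (Polynomial Ω)} :
    (∀ i : ℕ, DI p v N y i b (κ - i * c) (B.coeff i)) ↔
      ∀ ε : ℝ, 0 < ε → ∃ G, PII N G ∧ GBL v y b c (κ - ε) (B - G ^ p) := by
  have hp0 : 0 < p := (Fact.out : p.Prime).pos
  constructor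
  · intro h ε hε
    have h1 : ∀ j : ℕ, ∃ g ∈ PI N, GB v b (κ - ε - (p * j : ℕ) * c)
        (taylor y (B.coeff (p * j) - g ^ p)) ∧ (B.coeff (p * j) = 0 → g = 0) := by
      intro j
      by_cases h0 : B.coeff (p * j) = 0
      · refine ⟨0, zero_mem _, ?_, fun _ => rfl⟩
        rw [h0, zero_pow hp0.ne', sub_zero, map_zero]
        exact GB.zero
      · obtain ⟨g, hg, h2⟩ := (h (p * j)).1 (dvd_mul_right p j) ε hε
        exact ⟨g, hg, h2.mono (by linarith), fun h3 => absurd h3 h0⟩
    choose g hg hgb hg0 using h1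
    set n := B.natDegree with hn
    set G : Polynomial (Polynomial Ω) := ∑ j ∈ Finset.range (n + 1), Polynomial.C (g j) * X ^ j
      with hG
    have hco : ∀ j, G.coeff j = g j := by
      intro j
      rw [hG, finsetSum_coeff]
      simp only [coeff_C_mul_X_pow]
      rw [Finset.sum_ite_eq (Finset.range (n + 1)) j fun i => g i]
      split_ifs with h1
      · rfl
      · refine (hg0 j (coeff_eq_zero_of_natDegree_lt ?_)).symm
        rw [Finset.mem_range] at h1
        have : j ≤ p * j := Nat.le_mul_of_pos_left j hp0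
        omega
    refine ⟨G, fun j => by rw [hco]; exact hg j, fun i => ?_⟩
    rw [coeff_sub, coeff_pow_char]
    split_ifs with h1
    · obtain ⟨j, rfl⟩ := h1
      rw [Nat.mul_div_cancel_left j hp0, hco]
      exact hgb j
    · rw [sub_zero]
      exact ((h i).2 h1).mono (by linarith)
  · intro h i
    refine ⟨fun hi ε hε => ?_, fun hi => GB.of_eps fun ε hε => ?_⟩
    · obtain ⟨G, hG, h1⟩ := h ε hε
      have h2 := h1 i
      rw [coeff_sub, coeff_pow_char, if_pos hi] at h2
      exact ⟨G.coeff (i / p), hG _, h2.mono (by linarith)⟩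
    · obtain ⟨G, hG, h1⟩ := h ε hε
      have h2 := h1 i
      rw [coeff_sub, coeff_pow_char, if_neg hi, sub_zero] at h2
      exact h2.mono (by linarith)

variable {C K : IntermediateField k Ω} {z : Ω} {q : ℕ} {R : Ω → Prop}

theorem transcendental_le {C N : IntermediateField k Ω} (h : C ≤ N) (hy : Transcendental N y) :
    Transcendental C y := fun h1 => hy (D2P.isAlgebraic_mono (fun _ ha => h ha) h1)

/-- **The constraint of SOFT J**, for the polynomials over `C`. -/
theorem CprimeP.con [IsAlgClosed Ω] [Fact p.Prime] [CharP Ω p] (hC : CprimeP R p v K q C y)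
    (hy : Transcendental (clI v C) y) (hz : Transcendental (adj C y) z)
    (hK : K = clI v (adj (adj C y) z)) {A : Polynomial (Polynomial Ω)} (hA : PII C A)
    (hrep : R (A.evalEval y z)) (c' b₀ : ℝ) : Con p q v (clI v C) y z c' b₀ A := by
  intro b w Q θ c κ _ hbw hQ ⟨η, hη, hwη⟩ hθ _ _ hlt hlo
  refine di_iff.2 (hC.closed (transcendental_le (TWM.le_clI C) hy) hz hK hA hrep hθ hbw
    (fun x h1 h2 => hQ.lev hy hη h1 (h2.trans_lt hwη)) (fun _ => hlt) (di_iff.1 hlo))

/-- **The constraint of SOFT J**, for the polynomials over the closure of `C`. -/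
theorem CprimeP.con_near [IsAlgClosed Ω] [Fact p.Prime] [CharP Ω p]
    (hC : CprimeP R p v K q C y) {M₀ : ℝ} (hR : ∀ x x' : Ω, v.Ge M₀ (x - x') → R x → R x')
    (hy : Transcendental (clI v C) y) (hz : Transcendental (adj C y) z)
    (hK : K = clI v (adj (adj C y) z)) {A : Polynomial (Polynomial Ω)} (hA : PII (clI v C) A)
    (hrep : R (A.evalEval y z)) (c' b₀ : ℝ) : Con p q v (clI v C) y z c' b₀ A := by
  intro b w Q θ c κ _ hbw hQ ⟨η, hη, hwη⟩ hθ _ _ hlt hlo
  refine di_iff.2 (hC.closed_near hR (transcendental_le (TWM.le_clI C) hy) hz hK hA hrep hθ hbw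
    (fun x h1 h2 => hQ.lev hy hη h1 (h2.trans_lt hwη)) (fun _ => hlt) (di_iff.1 hlo))

/-- The representations with an error are stable. -/
theorem stable_E {a h g : Ω} {N₁ : ℝ} (x x' : Ω) (h1 : v.Ge N₁ (x - x'))
    (h2 : v.Ge N₁ (a * h ^ p - g ^ p - x)) : v.Ge N₁ (a * h ^ p - g ^ p - x') := by
  have h3 : a * h ^ p - g ^ p - x' = (a * h ^ p - g ^ p - x) + (x - x') := by ring
  rw [h3]
  exact h2.add h1

/-- **The constraint of SOFT J**, for the representations of `a` with an error. -/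
theorem CprimeE.con [IsAlgClosed Ω] [Fact p.Prime] [CharP Ω p] {a h g : Ω} {N₁ : ℝ}
    (hC : CprimeE p v K a q h g N₁ C y) (hy : Transcendental (clI v C) y)
    (hz : Transcendental (adj C y) z) (hK : K = clI v (adj (adj C y) z))
    {A : Polynomial (Polynomial Ω)} (hA : PII (clI v C) A)
    (hrep : v.Ge N₁ (a * h ^ p - g ^ p - A.evalEval y z)) (c' b₀ : ℝ) :
    Con p q v (clI v C) y z c' b₀ A :=
  CprimeP.con_near hC stable_E hy hz hK hA hrep c' b₀

/-- The constraint after a change of the centre. -/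
theorem con_recentre [IsAlgClosed Ω] {A : Polynomial (Polynomial Ω)} {b₀ c' : ℝ}
    (h : ∀ c' b₀ : ℝ, Con p q v N y z c' b₀ A) {θ₁ : Polynomial Ω} (hθ₁ : θ₁ ∈ PI N) :
    Con p q v N y (z - θ₁.eval y) c' b₀ (taylor θ₁ A) := by
  intro b w Q θ c κ _ hbw hQ hr hθ _ _ hlt hlo
  have h1 : z - θ₁.eval y - θ.eval y = z - (θ + θ₁).eval y := by rw [eval_add]; ring
  rw [h1] at hlt
  rw [taylor_taylor] at hlo ⊢
  exact h (min c (gval v y b (θ + θ₁))) b b w Q (θ + θ₁) c κ le_rfl hbw hQ hr (add_mem hθ hθ₁)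
    (GB_gval.mono (min_le_right _ _)) (min_le_left _ _) hlt hlo

end Pool.Agent.TWJ2
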