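import Pool.Agent.Lib.TWJ2.Defs
import Pool.Agent.Lib.TW.E1
import Pool.Agent.Lib.TWM.Roots
import Pool.Agent.Lib.D2P.TTP

/-!
# TANK W, leaf III.2: finitely many jumps, LEMMA R

* `FJd v F d y`: the approximants of `y` of degree `≤ d` over `F` are cofinal among all the algebraic
  ones; `FJ v F y` is the statement that this holds for some `d`;
* `lemR`: LEMMA R: if `y₁` has finitely many jumps over `F` and `z₁` over `F(y₁)`, all the
  transcendental elements of `F(y₁, z₁)` have finitely many jumps over `F`.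
-/

set_option autoImplicit false

open Polynomial

namespace Pool.Agent.TWJ2

open Pool.Agent.H15JM (RVal)
open Pool.Agent.LU1 (adj)
open Pool.Agent.D2 (Ctx0)
open Pool.Agent.D2P (clI)
open Pool.Agent.TW (Full exists_closer)
open Pool.Agent.TWM.Roots

universe u

variable {k Ω : Type u} [Field k] [Field Ω] [Algebra k Ω] {v : RVal Ω}

/-- `y` has finitely many jumps over `F`: approximants of degree `≤ d` are cofinal. -/
def FJd (v : RVal Ω) (F : IntermediateField k Ω) (d : ℕ) (y : Ω) : Prop :=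
  ∀ ξ : Ω, IsAlgebraic F ξ → ∃ η : Ω, IsAlgebraic F η ∧
    (minpoly F η).natDegree ≤ d ∧ v (y - ξ) < v (y - η)

theorem fj_iff {F : IntermediateField k Ω} {y : Ω} : FJ v F y ↔ ∃ d : ℕ, FJd v F d y := Iff.rfl

/-- A root of a polynomial with algebraic coefficients is algebraic. -/
theorem alg_root {E : IntermediateField k Ω} {P : Polynomial Ω} (hP : P ≠ 0)
    (hc : ∀ i, IsAlgebraic E (P.coeff i)) {x : Ω} (hx : P.eval x = 0) : IsAlgebraic E x := by
  set A := algebraicClosure E Ω
  have h1 : P ∈ lifts (algebraMap A Ω) := by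
    rw [lifts_iff_coeff_lifts]
    intro i
    exact ⟨⟨P.coeff i, mem_algebraicClosure_iff.2 (hc i)⟩, rfl⟩
  obtain ⟨Q, hQ⟩ := (mem_lifts _).1 h1
  have h2 : IsAlgebraic A x := by
    refine ⟨Q, ?_, ?_⟩
    · rintro rfl
      exact hP (by rw [← hQ, Polynomial.map_zero])
    · rw [← hx, ← hQ, eval_map_algebraMap]
  exact h2.restrictScalars E

/-- A root of a polynomial over the algebraic closure of `E`. -/
theorem alg_root' {E : IntermediateField k Ω} {Q : (algebraicClosure E Ω)[X]} (hQ : Q ≠ 0)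
    {x : Ω} (hx : aeval x Q = 0) : IsAlgebraic E x := by
  have h2 : IsAlgebraic (algebraicClosure E Ω) x := ⟨Q, hQ, hx⟩
  exact h2.restrictScalars E

theorem FJd.far {F : IntermediateField k Ω} {y : Ω} {d : ℕ} (h : FJd v F d y) (R : Finset Ω)
    (hR : ∀ β ∈ R, IsAlgebraic F β) : ∃ η : Ω, IsAlgebraic F η ∧
      (minpoly F η).natDegree ≤ d ∧ ∀ β ∈ R, v (y - β) < v (y - η) := by
  rcases R.eq_empty_or_nonempty with h0 | h0
  · obtain ⟨η, h1, h2, -⟩ := h 0 isAlgebraic_zero
    exact ⟨η, h1, h2, fun β hβ => by rw [h0] at hβ; exact absurd hβ (Finset.notMem_empty β)⟩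
  · obtain ⟨β, hβ, hmax⟩ := R.exists_max_image (fun β => v (y - β)) h0
    obtain ⟨η, h1, h2, h3⟩ := h β (hR β hβ)
    exact ⟨η, h1, h2, fun β' hβ' => (hmax β' hβ').trans_lt h3⟩

theorem prod_eq {y η : Ω} (hη : y - η ≠ 0) (S : Multiset Ω)
    (hS : ∀ θ ∈ S, y - θ ≠ 0 ∧ v (y - θ) < v (y - η)) :
    (S.map fun θ => y - θ).prod ≠ 0 ∧ (S.map fun θ => η - θ).prod ≠ 0 ∧
      v (S.map fun θ => η - θ).prod = v (S.map fun θ => y - θ).prod := by
  induction S using Multiset.induction_on with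
  | empty => simp
  | cons θ S ih =>
    obtain ⟨h1, h2, h3⟩ := ih fun θ' hθ' => hS θ' (Multiset.mem_cons_of_mem hθ')
    obtain ⟨h4, h5⟩ := hS θ (Multiset.mem_cons_self θ S)
    have h6 : η - θ = (y - θ) + -(y - η) := by ring
    obtain ⟨h7, h8⟩ := v.add_of_lt h4 (neg_ne_zero.2 hη) (by rwa [v.map_neg _ hη])
    rw [← h6] at h7 h8
    simp only [Multiset.map_cons, Multiset.prod_cons]
    refine ⟨mul_ne_zero h4 h1, mul_ne_zero h7 h2, ?_⟩
    rw [v.map_mul h7 h2, v.map_mul h4 h1, h3, h8]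

/-- The value of a polynomial at `y` and at a near element. -/
theorem eval_near [IsAlgClosed Ω] {y η : Ω} (hη : y - η ≠ 0) {P : Polynomial Ω} (hP : P ≠ 0)
    (h : ∀ θ ∈ P.roots, y - θ ≠ 0 ∧ v (y - θ) < v (y - η)) :
    P.eval y ≠ 0 ∧ P.eval η ≠ 0 ∧ v (P.eval η) = v (P.eval y) := by
  have hlc : P.leadingCoeff ≠ 0 := leadingCoeff_ne_zero.2 hP
  obtain ⟨h1, h2, h3⟩ := prod_eq hη P.roots h
  rw [eval_eq P y, eval_eq P η]
  refine ⟨mul_ne_zero hlc h1, mul_ne_zero hlc h2, ?_⟩
  rw [v.map_mul hlc h1, v.map_mul hlc h2, h3]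

/-- The fractions of `T(z)`. -/
theorem adj_frac {T : IntermediateField k Ω} {z a : Ω} (ha : a ∈ adj T z) :
    ∃ P Q : T[X], aeval z Q ≠ 0 ∧ a = aeval z P / aeval z Q := by
  obtain ⟨P, Q, h⟩ := D2P.mem_adj_frac ha
  by_cases h0 : aeval z Q = 0
  · refine ⟨0, 1, ?_, ?_⟩
    · rw [map_one]
      exact one_ne_zero
    · rw [h, h0, div_zero, map_zero, zero_div]
  · exact ⟨P, Q, h0, h⟩

/-- The degree of an element of `E(ζ)`. -/
theorem deg_le_of_mem {E : Type u} [Field E] [Algebra E Ω] {ζ x : Ω} (hζ : IsAlgebraic E ζ)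
    (hx : x ∈ IntermediateField.adjoin E {ζ}) :
    IsAlgebraic E x ∧ (minpoly E x).natDegree ≤ (minpoly E ζ).natDegree := by
  have h1 : IsIntegral E ζ := hζ.isIntegral
  have hfd : FiniteDimensional E (IntermediateField.adjoin E {ζ}) :=
    IntermediateField.adjoin.finiteDimensional h1
  obtain ⟨w, rfl⟩ : ∃ w : IntermediateField.adjoin E {ζ},
      algebraMap (IntermediateField.adjoin E {ζ}) Ω w = x := ⟨⟨x, hx⟩, rfl⟩
  have h2 := minpoly.natDegree_le (A := E) w
  rw [IntermediateField.adjoin.finrank h1] at h2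
  have h3 : minpoly E (algebraMap (IntermediateField.adjoin E {ζ}) Ω w) = minpoly E w :=
    minpoly.algebraMap_eq (algebraMap (IntermediateField.adjoin E {ζ}) Ω).injective w
  rw [h3]
  refine ⟨?_, h2⟩
  exact ((IsIntegral.of_finite E w).algebraMap).isAlgebraic

/-- The degree of an element algebraic over `L`, `L/F` finite. -/
theorem deg_le_mul' {F L : Type u} [Field F] [Field L] [Algebra F L] [Algebra L Ω] [Algebra F Ω]
    [IsScalarTower F L Ω] [FiniteDimensional F L] {η : Ω}
    {M : Polynomial L} (hM : M ≠ 0) (hη : aeval η M = 0) :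
    IsAlgebraic F η ∧ (minpoly F η).natDegree ≤ Module.finrank F L * M.natDegree := by
  have h2 : IsAlgebraic L η := ⟨M, hM, hη⟩
  have h6 : minpoly L η ∣ M := minpoly.dvd L η hη
  have h7 := natDegree_le_of_dvd h6 hM
  have h8 : FiniteDimensional L (IntermediateField.adjoin L {η}) :=
    IntermediateField.adjoin.finiteDimensional h2.isIntegral
  have h9 := IntermediateField.adjoin.finrank h2.isIntegral
  have h10 : FiniteDimensional F (IntermediateField.adjoin L {η}) :=
    FiniteDimensional.trans F L _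
  have h3 := Module.finrank_mul_finrank F L (IntermediateField.adjoin L {η})
  have h12 : IsScalarTower F (IntermediateField.adjoin L {η}) Ω :=
    IsScalarTower.of_algebraMap_eq fun x => by
      rw [IsScalarTower.algebraMap_apply F L Ω, IsScalarTower.algebraMap_apply F L
        (IntermediateField.adjoin L {η}), ← IsScalarTower.algebraMap_apply L
        (IntermediateField.adjoin L {η}) Ω]
  obtain ⟨w, hw⟩ : ∃ w : IntermediateField.adjoin L {η},
      algebraMap (IntermediateField.adjoin L {η}) Ω w = η :=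
    ⟨⟨η, IntermediateField.mem_adjoin_simple_self L η⟩, rfl⟩
  have h4 := minpoly.natDegree_le (A := F) w
  have h5 : minpoly F (algebraMap (IntermediateField.adjoin L {η}) Ω w) = minpoly F w :=
    minpoly.algebraMap_eq (algebraMap (IntermediateField.adjoin L {η}) Ω).injective w
  rw [hw] at h5
  rw [← h3, h9] at h4
  rw [h5]
  refine ⟨?_, h4.trans (Nat.mul_le_mul_left _ h7)⟩
  have h11 := ((IsIntegral.of_finite F w).algebraMap (B := Ω)).isAlgebraic
  rwa [hw] at h11

/-- Step 1: an element of `E(z)` is approximated by elements of bounded degree over `E`. -/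
theorem step1 [IsAlgClosed Ω] {E : IntermediateField k Ω} {z y κ : Ω} {d : ℕ}
    (hz : Transcendental E z) (h : FJd v E d z) (hy : y ∈ adj E z) (hκ : IsAlgebraic E κ)
    (hyκ : y ≠ κ) : ∃ g : Ω, IsAlgebraic E g ∧ (minpoly E g).natDegree ≤ d ∧ g ≠ κ ∧
      v (g - κ) = v (y - κ) := by
  classical
  obtain ⟨P, Q, hQ, hy'⟩ := adj_frac hy
  set PA : Polynomial Ω := P.map (algebraMap E Ω) with hPA
  set PB : Polynomial Ω := Q.map (algebraMap E Ω) with hPB
  set N : Polynomial Ω := PA - C κ * PB with hN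
  have hBz : PB.eval z = aeval z Q := by rw [hPB, eval_map_algebraMap]
  have hAz : PA.eval z = aeval z P := by rw [hPA, eval_map_algebraMap]
  have hB0 : PB ≠ 0 := by
    intro h0
    rw [h0, eval_zero] at hBz
    exact hQ hBz.symm
  have hNz : N.eval z = (y - κ) * PB.eval z := by
    rw [hN, eval_sub, eval_mul, eval_C, hAz, hBz, hy', sub_mul, div_mul_cancel₀ _ hQ]
  have hN0 : N ≠ 0 := by
    intro h0
    rw [h0, eval_zero] at hNz
    exact mul_ne_zero (sub_ne_zero.2 hyκ) (by rwa [hBz]) hNz.symm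
  have hBc : ∀ i, IsAlgebraic E (PB.coeff i) := fun i => by
    rw [hPB, coeff_map]
    exact isAlgebraic_algebraMap _
  have hNc : ∀ i, IsAlgebraic E (N.coeff i) := fun i => by
    rw [hN, coeff_sub, coeff_C_mul, hPA, coeff_map]
    exact (isAlgebraic_algebraMap _).sub (hκ.mul (hBc i))
  obtain ⟨ζ, h1, h2, h3⟩ := h.far (N.roots + PB.roots).toFinset fun β hβ => by
    rw [Multiset.mem_toFinset, Multiset.mem_add, mem_roots hN0, mem_roots hB0] at hβ
    rcases hβ with hβ | hβ
    · exact alg_root hN0 hNc hβ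
    · exact alg_root hB0 hBc hβ
  have hne : ∀ α : Ω, IsAlgebraic E α → z - α ≠ 0 := by
    intro α hα h0
    exact hz (by rw [sub_eq_zero.mp h0]; exact hα)
  have hζ := hne ζ h1
  have hmem : ∀ θ, θ ∈ N.roots ∨ θ ∈ PB.roots → z - θ ≠ 0 ∧ v (z - θ) < v (z - ζ) := by
    intro θ hθ
    refine ⟨hne θ ?_, h3 θ (by rwa [Multiset.mem_toFinset, Multiset.mem_add])⟩
    rcases hθ with hθ | hθ
    · exact alg_root hN0 hNc ((mem_roots hN0).1 hθ)
    · exact alg_root hB0 hBc ((mem_roots hB0).1 hθ)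
  obtain ⟨a1, a2, a3⟩ := eval_near hζ hN0 fun θ hθ => hmem θ (Or.inl hθ)
  obtain ⟨b1, b2, b3⟩ := eval_near hζ hB0 fun θ hθ => hmem θ (Or.inr hθ)
  have hg : PA.eval ζ / PB.eval ζ - κ = N.eval ζ / PB.eval ζ := by
    rw [hN, eval_sub, eval_mul, eval_C, sub_div, mul_div_cancel_right₀ _ b2]
  obtain ⟨c1, c2⟩ := deg_le_of_mem (x := PA.eval ζ / PB.eval ζ) h1 (by
    rw [hPA, hPB, eval_map_algebraMap, eval_map_algebraMap]
    have hm := IntermediateField.mem_adjoin_simple_self E ζ
    have hm' : ∀ R : E[X], aeval ζ R ∈ IntermediateField.adjoin E {ζ} := fun R => by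
      rw [aeval_eq_sum_range]
      exact sum_mem fun i _ => IntermediateField.smul_mem _ (pow_mem hm i)
    exact div_mem (hm' P) (hm' Q))
  refine ⟨PA.eval ζ / PB.eval ζ, c1, c2.trans h2, ?_, ?_⟩
  · rw [← sub_ne_zero, hg]
    exact div_ne_zero a2 b2
  · rw [hg, v.map_div a2 b2, a3, b3, hNz, v.map_mul (sub_ne_zero.2 hyκ) (by rwa [hBz])]
    ring

/-- A polynomial over `F[y₁]` with the root `g`. -/
theorem clear_den {F : IntermediateField k Ω} {y₁ g : Ω} (hg : IsAlgebraic (adj F y₁) g) :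
    ∃ M : Polynomial (Polynomial F), M.natDegree ≤ (minpoly (adj F y₁) g).natDegree ∧
      M.map (aeval y₁ : F[X] →ₐ[F] Ω).toRingHom ≠ 0 ∧
      (M.map (aeval y₁ : F[X] →ₐ[F] Ω).toRingHom).eval g = 0 := by
  classical
  set q := minpoly (adj F y₁) g with hq
  have hq0 : q ≠ 0 := minpoly.ne_zero hg.isIntegral
  have hqg : aeval g q = 0 := minpoly.aeval _ g
  have h1 : ∀ i : ℕ, ∃ P Q : F[X], aeval y₁ Q ≠ 0 ∧ (q.coeff i : Ω) = aeval y₁ P / aeval y₁ Q :=
    fun i => adj_frac (q.coeff i).2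
  choose P Q hQ hPQ using h1
  set n := q.natDegree
  set s := Finset.range (n + 1)
  set M : Polynomial (Polynomial F) := ∑ i ∈ s, monomial i (P i * ∏ j ∈ s.erase i, Q j) with hM
  set D : Ω := ∏ j ∈ s, aeval y₁ (Q j) with hD
  have hD0 : D ≠ 0 := Finset.prod_ne_zero_iff.2 fun j _ => hQ j
  have h2 : M.map (aeval y₁ : F[X] →ₐ[F] Ω).toRingHom = C D * q.map (algebraMap (adj F y₁) Ω) := by
    ext i
    rw [coeff_map, coeff_C_mul, coeff_map, hM, finsetSum_coeff]
    by_cases hi : i ∈ s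
    · rw [Finset.sum_eq_single_of_mem i hi fun j _ hji => by rw [coeff_monomial, if_neg hji],
        coeff_monomial, if_pos rfl]
      change aeval y₁ (P i * ∏ j ∈ s.erase i, Q j) = D * (q.coeff i : Ω)
      rw [map_mul, map_prod, hPQ i, hD, ← Finset.mul_prod_erase s _ hi]
      field_simp [hQ i]
    · have h3 : q.coeff i = 0 := by
        apply coeff_eq_zero_of_natDegree_lt
        rw [Finset.mem_range, not_lt] at hi
        omega
      rw [Finset.sum_eq_zero, map_zero, h3, map_zero, mul_zero]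
      intro j hj
      rw [coeff_monomial, if_neg]
      rintro rfl
      exact hi hj
  refine ⟨M, ?_, ?_, ?_⟩
  · refine natDegree_sum_le_of_forall_le _ _ fun i hi => ?_
    exact (natDegree_monomial_le _).trans (Nat.lt_succ_iff.1 (Finset.mem_range.1 hi))
  · rw [h2]
    exact mul_ne_zero (C_ne_zero.2 hD0)
      ((Polynomial.map_ne_zero_iff (algebraMap (adj F y₁) Ω).injective).2 hq0)
  · rw [h2, eval_mul, eval_map_algebraMap, hqg, mul_zero]

/-- Step 2: specialisation of `y₁`. -/
theorem step2 [IsAlgClosed Ω] {F : IntermediateField k Ω} {y₁ g κ : Ω} {d : ℕ}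
    (hy₁ : Transcendental F y₁) (h : FJd v F d y₁) (hg : IsAlgebraic (adj F y₁) g)
    (hκ : IsAlgebraic F κ) (hgκ : g ≠ κ) : ∃ η : Ω, IsAlgebraic F η ∧
      (minpoly F η).natDegree ≤ d * (minpoly (adj F y₁) g).natDegree ∧
      v.Ge (v (g - κ)) (κ - η) := by
  classical
  obtain ⟨M, hMd, hM0, hMg⟩ := clear_den hg
  set n := (minpoly (adj F y₁) g).natDegree
  set A := algebraicClosure F Ω with hA
  let κA : A := ⟨κ, mem_algebraicClosure_iff.2 hκ⟩
  let N : Polynomial (Polynomial A) := taylor (C κA) (M.map (mapRingHom (algebraMap F A)))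
  -- the specialisations
  have hsp : ∀ u : Ω, N.map (aeval u : A[X] →ₐ[A] Ω).toRingHom =
      taylor κ (M.map (aeval u : F[X] →ₐ[F] Ω).toRingHom) := by
    intro u
    rw [map_taylor, Polynomial.map_map]
    have h1 : (aeval u : A[X] →ₐ[A] Ω).toRingHom (C κA) = κ := by
      change aeval u (C κA) = κ
      rw [aeval_C]
      rfl
    have h2 : (aeval u : A[X] →ₐ[A] Ω).toRingHom.comp (mapRingHom (algebraMap F A)) =
        (aeval u : F[X] →ₐ[F] Ω).toRingHom := by
      apply Polynomial.ringHom_ext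
      · intro a
        simp only [RingHom.comp_apply, coe_mapRingHom, map_C]
        change aeval u (C (algebraMap F A a)) = aeval u (C a)
        rw [aeval_C, aeval_C]
        rfl
      · simp only [RingHom.comp_apply, coe_mapRingHom, map_X]
        change aeval u (X : A[X]) = aeval u (X : F[X])
        rw [aeval_X, aeval_X]
    rw [h1, h2]
  have hcf : ∀ (u : Ω) (l : ℕ), aeval u (N.coeff l) =
      (taylor κ (M.map (aeval u : F[X] →ₐ[F] Ω).toRingHom)).coeff l := by
    intro u l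
    rw [← hsp u, coeff_map]
    rfl
  -- the roots
  let B : ℕ → Polynomial Ω := fun l => (N.coeff l).map (algebraMap A Ω)
  have hBe : ∀ u l, (B l).eval u = aeval u (N.coeff l) := fun u l => by
    simp only [B]
    rw [eval_map_algebraMap]
  have hBc : ∀ l i, IsAlgebraic F ((B l).coeff i) := fun l i => by
    simp only [B]
    rw [coeff_map]
    exact mem_algebraicClosure_iff.1 ((N.coeff l).coeff i).2
  let R : Finset Ω := (Finset.range (N.natDegree + 1)).biUnion fun l => (B l).roots.toFinset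
  have hR : ∀ β ∈ R, IsAlgebraic F β := by
    intro β hβ
    obtain ⟨l, -, h1⟩ := Finset.mem_biUnion.1 hβ
    rw [Multiset.mem_toFinset] at h1
    have h2 : B l ≠ 0 := by
      intro h0
      rw [h0, roots_zero] at h1
      exact Multiset.notMem_zero _ h1
    exact alg_root h2 (hBc l) ((mem_roots h2).1 h1)
  obtain ⟨ψ, h1, h2, h3⟩ := h.far R hR
  have hne : ∀ α : Ω, IsAlgebraic F α → y₁ - α ≠ 0 := by
    intro α hα h0
    exact hy₁ (by rw [sub_eq_zero.mp h0]; exact hα)
  -- the coefficients at `y₁` and `ψ` have the same values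
  have key : ∀ l, B l ≠ 0 → (B l).eval y₁ ≠ 0 ∧ (B l).eval ψ ≠ 0 ∧
      v ((B l).eval ψ) = v ((B l).eval y₁) := by
    intro l hl
    refine eval_near (hne ψ h1) hl fun θ hθ => ?_
    have h4 : θ ∈ R := by
      refine Finset.mem_biUnion.2 ⟨l, ?_, Multiset.mem_toFinset.2 hθ⟩
      rw [Finset.mem_range, Nat.lt_succ_iff]
      by_contra hcon
      push Not at hcon
      refine hl ?_
      simp only [B]
      rw [coeff_eq_zero_of_natDegree_lt hcon, Polynomial.map_zero]
    exact ⟨hne θ (hR θ h4), h3 θ h4⟩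
  set W : Polynomial Ω := M.map (aeval ψ : F[X] →ₐ[F] Ω).toRingHom with hW
  set V : Polynomial Ω := M.map (aeval y₁ : F[X] →ₐ[F] Ω).toRingHom with hV
  have hVB : ∀ l, (taylor κ V).coeff l = (B l).eval y₁ := fun l => by rw [hBe, hcf]
  have hWB : ∀ l, (taylor κ W).coeff l = (B l).eval ψ := fun l => by rw [hBe, hcf]
  have hW0 : W ≠ 0 := by
    intro h0
    have h4 : ∀ l, (taylor κ V).coeff l = 0 := by
      intro l
      by_contra hcon
      have h5 : B l ≠ 0 := by
        intro h6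
        rw [hVB, h6, eval_zero] at hcon
        exact hcon rfl
      have h6 := (key l h5).2.1
      rw [← hWB, h0, map_zero, coeff_zero] at h6
      exact h6 rfl
    have h5 : taylor κ V = 0 := by
      ext l
      rw [h4, coeff_zero]
    exact hM0 ((taylor_eq_zero κ V).1 h5)
  -- the degree of a root
  have hdeg : ∀ θ, W.eval θ = 0 → IsAlgebraic F θ ∧ (minpoly F θ).natDegree ≤ d * n := by
    intro θ hθ
    set L := IntermediateField.adjoin F {ψ}
    have hfd : FiniteDimensional F L := IntermediateField.adjoin.finiteDimensional h1.isIntegral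
    have hL : W = (M.map (aeval (IntermediateField.AdjoinSimple.gen F ψ) :
        F[X] →ₐ[F] L).toRingHom).map (algebraMap L Ω) := by
      rw [hW, Polynomial.map_map]
      congr 1
      apply Polynomial.ringHom_ext
      · intro a
        change aeval ψ (C a) = algebraMap L Ω (aeval _ (C a))
        rw [aeval_C, aeval_C]
        rfl
      · change aeval ψ (X : F[X]) = algebraMap L Ω (aeval _ (X : F[X]))
        rw [aeval_X, aeval_X]
        rfl
    set ML := M.map (aeval (IntermediateField.AdjoinSimple.gen F ψ) : F[X] →ₐ[F] L).toRingHom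
    have h4 : ML ≠ 0 := by
      intro h0
      rw [h0, Polynomial.map_zero] at hL
      exact hW0 hL
    have h5 : aeval θ ML = 0 := by
      rw [← eval_map_algebraMap, ← hL, hθ]
    obtain ⟨h6, h7⟩ := deg_le_mul' (F := F) (L := L) h4 h5
    refine ⟨h6, h7.trans (Nat.mul_le_mul ?_ ?_)⟩
    · rw [IntermediateField.adjoin.finrank h1.isIntegral]
      exact h2
    · exact natDegree_map_le.trans hMd
  by_cases hB0 : (B 0).eval ψ = 0
  · -- `κ` is a root
    have h4 : W.eval κ = 0 := by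
      rw [← taylor_coeff_zero, hWB, hB0]
    obtain ⟨h5, h6⟩ := hdeg κ h4
    refine ⟨κ, h5, h6, ?_⟩
    rw [sub_self]
    exact RVal.Ge.zero
  · by_contra hcon
    push Not at hcon
    have h4 : ∀ θ, W.IsRoot θ → κ ≠ θ ∧ v (κ - θ) < v (g - κ) := by
      intro θ hθ
      obtain ⟨h5, h6⟩ := hdeg θ hθ
      have h7 := hcon θ h5 h6
      unfold RVal.Ge at h7
      push Not at h7
      exact ⟨sub_ne_zero.1 h7.1, h7.2⟩
    have hB0' : B 0 ≠ 0 := by
      intro h0
      rw [h0, eval_zero] at hB0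
      exact hB0 rfl
    obtain ⟨k1, k2, k3⟩ := key 0 hB0'
    have h5 : ∀ l, 1 ≤ l → (B l).eval y₁ ≠ 0 →
        v ((B 0).eval y₁) - l * v (g - κ) < v ((B l).eval y₁) := by
      intro l hl hl0
      have hBl : B l ≠ 0 := by
        intro h0
        rw [h0, eval_zero] at hl0
        exact hl0 rfl
      obtain ⟨l1, l2, l3⟩ := key l hBl
      have h6 := taylor_gt (v := v) hW0 h4 hl
      rw [hWB, ← taylor_coeff_zero, hWB] at h6
      have h7 := h6 l2
      rw [k3, l3] at h7
      exact h7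
    have hgκ' : g - κ ≠ 0 := sub_ne_zero.2 hgκ
    have h6 : V.eval g = ∑ l ∈ Finset.range ((taylor κ V).natDegree + 1),
        (taylor κ V).coeff l * (g - κ) ^ l := by
      rw [← eval_eq_sum_range, taylor_eval, sub_add_cancel]
    have h7 := D2P.sum_dom (v := v) (Finset.range ((taylor κ V).natDegree + 1))
      (fun l => (taylor κ V).coeff l * (g - κ) ^ l) (j := 0) (by simp)
      (by
        simp only [pow_zero, mul_one]
        rw [hVB]
        exact k1)
      (by
        intro l _ hl hl0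
        have h8 := left_ne_zero_of_mul hl0
        rw [hVB] at h8
        simp only [pow_zero, mul_one]
        rw [hVB, hVB, v.map_mul h8 (pow_ne_zero _ hgκ'), v.map_pow hgκ']
        have h9 := h5 l (Nat.one_le_iff_ne_zero.2 hl) h8
        linarith)
    rw [← h6] at h7
    exact h7.1 hMg

/-- **LEMMA R**, weak form. -/
theorem lemR_ge [IsAlgClosed Ω] {F : IntermediateField k Ω} {y₁ z₁ y : Ω} {d₁ d₂ : ℕ}
    (hy₁ : Transcendental F y₁) (h1 : FJd v F d₁ y₁) (hz₁ : Transcendental (adj F y₁) z₁)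
    (h2 : FJd v (adj F y₁) d₂ z₁) (hy : y ∈ adj (adj F y₁) z₁)
    {κ : Ω} (hκ : IsAlgebraic F κ) (hyκ : y ≠ κ) : ∃ η : Ω, IsAlgebraic F η ∧
      (minpoly F η).natDegree ≤ d₁ * d₂ ∧ v.Ge (v (y - κ)) (y - η) := by
  obtain ⟨g, g1, g2, g3, g4⟩ := step1 hz₁ h2 hy
    (D2P.isAlgebraic_mono (D2P.mem_adj_self F y₁).2 hκ) hyκ
  obtain ⟨η, e1, e2, e3⟩ := step2 hy₁ h1 g1 hκ g3
  refine ⟨η, e1, e2.trans (Nat.mul_le_mul_left _ g2), ?_⟩
  rw [g4] at e3
  have h4 : y - η = (y - κ) + (κ - η) := by ring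
  rw [h4]
  exact (RVal.ge_self _).add e3

/-- If the approximants of degree `≤ d` are weakly cofinal they are cofinal. -/
theorem FJd.of_le [IsAlgClosed Ω] (h0 : Ctx0 k v) {F : IntermediateField k Ω}
    (hfull : Full v F) {y : Ω} (hy : Transcendental F y) {d : ℕ}
    (h : ∀ κ : Ω, IsAlgebraic F κ → ∃ η : Ω, IsAlgebraic F η ∧
      (minpoly F η).natDegree ≤ d ∧ v (y - κ) ≤ v (y - η)) : FJd v F d y := by
  intro κ hκ
  obtain ⟨κ', h1, h2⟩ := exists_closer h0 hfull hy hκ
  obtain ⟨η, h3, h4, h5⟩ := h κ' h1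
  exact ⟨η, h3, h4, h2.trans_le h5⟩

/-- Approximation by elements of the field. -/
theorem exists_mem_near {E : IntermediateField k Ω} {a : Ω} (ha : a ∈ clI v E) (C : ℝ) :
    ∃ b ∈ E, v.Ge C (a - b) := by
  obtain ⟨b, hb, h⟩ := (D2P.mem_clI.1 ha) C
  exact ⟨b, hb, h⟩

/-- Continuity of roots: an element algebraic over the closure of `E` is near to an element of the
same degree over `E`. -/
theorem near_alg [IsAlgClosed Ω] {E : IntermediateField k Ω} {η : Ω}
    (hη : IsAlgebraic (clI v E) η) (C₀ : ℝ) : ∃ η' : Ω, IsAlgebraic E η' ∧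
      (minpoly E η').natDegree ≤ (minpoly (clI v E) η).natDegree ∧ v.Ge C₀ (η - η') := by
  classical
  set m := minpoly (clI v E) η with hm
  have hmm : m.Monic := minpoly.monic hη.isIntegral
  have hmη : aeval η m = 0 := minpoly.aeval _ η
  have hn : m.natDegree ≠ 0 := (minpoly.natDegree_pos hη.isIntegral).ne'
  set n := m.natDegree with hnd
  have h1 : ∀ i : ℕ, ∃ b : E, v.Ge (n * C₀ - i * v η) ((m.coeff i : Ω) - b) := by
    intro i
    obtain ⟨b, hb, h⟩ := exists_mem_near (m.coeff i).2 (n * C₀ - i * v η)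
    exact ⟨⟨b, hb⟩, h⟩
  choose b hb using h1
  set q : E[X] := X ^ n + ∑ i ∈ Finset.range n, C (b i) * X ^ i with hq
  have hdeg : (∑ i ∈ Finset.range n, C (b i) * X ^ i : E[X]).degree < (n : ℕ) := by
    refine (degree_sum_le _ _).trans_lt ((Finset.sup_lt_iff (by exact WithBot.bot_lt_coe n)).2 ?_)
    intro i hi
    refine (degree_C_mul_X_pow_le i (b i)).trans_lt ?_
    exact_mod_cast Finset.mem_range.1 hi
  have hqm : q.Monic := monic_X_pow_add hdeg
  have hqn : q.natDegree = n := natDegree_eq_of_degree_eq_some (by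
    rw [hq, degree_add_eq_left_of_degree_lt (by rwa [degree_X_pow]), degree_X_pow])
  have hqη : aeval η q = ∑ i ∈ Finset.range n, ((b i : Ω) - (m.coeff i : Ω)) * η ^ i := by
    have h2 : aeval η m = η ^ n + ∑ i ∈ Finset.range n, (m.coeff i : Ω) * η ^ i := by
      rw [aeval_eq_sum_range, ← hnd, Finset.sum_range_succ, add_comm]
      congr 1
      rw [hnd, hmm.coeff_natDegree, one_smul]
    rw [hmη] at h2
    have h3 : aeval η q = η ^ n + ∑ i ∈ Finset.range n, (b i : Ω) * η ^ i := by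
      rw [hq, map_add, map_pow, aeval_X, map_sum]
      congr 1
      refine Finset.sum_congr rfl fun i _ => ?_
      rw [map_mul, map_pow, aeval_C, aeval_X]
      rfl
    rw [h3, ← sub_zero (η ^ n + _), h2, add_sub_add_left_eq_sub, ← Finset.sum_sub_distrib]
    refine Finset.sum_congr rfl fun i _ => ?_
    ring
  have hge : v.Ge (n * C₀) (aeval η q) := by
    rw [hqη]
    refine RVal.Ge.sum _ _ fun i _ => ?_
    by_cases hη0 : η = 0
    · subst hη0
      rcases Nat.eq_zero_or_pos i with hi | hi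
      · subst hi
        rw [pow_zero, mul_one, ← neg_sub]
        refine (hb 0).neg.mono ?_
        push_cast
        linarith
      · rw [zero_pow hi.ne', mul_zero]
        exact RVal.Ge.zero
    · have h2 : v.Ge (i * v η) (η ^ i) := RVal.Ge.of_le (by rw [v.map_pow hη0])
      rw [← neg_sub]
      refine ((hb i).neg.mul h2).mono ?_
      linarith
  have hPd : (q.map (algebraMap E Ω)).natDegree = n := by rw [natDegree_map, hqn]
  obtain ⟨θ, h2, h3⟩ := near_root (v := v) (P := q.map (algebraMap E Ω)) (by rwa [hPd])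
    (z := η) (c := C₀) (by
      rw [(hqm.map _).leadingCoeff, v.map_one, zero_add, hPd, eval_map_algebraMap]
      exact hge)
  rw [IsRoot.def, eval_map_algebraMap] at h2
  refine ⟨θ, ⟨q, hqm.ne_zero, h2⟩, ?_, h3⟩
  rw [← hqn]
  exact natDegree_le_of_dvd (minpoly.dvd E θ h2) hqm.ne_zero

/-- **LEMMA R**: if `y₁` has finitely many jumps over `F` and `z₁` over `F(y₁)`, every element of
the closure of `F(y₁, z₁)` which is transcendental over `F` has finitely many jumps over `F`. -/
theorem lemR [IsAlgClosed Ω] (h0 : Ctx0 k v) {F : IntermediateField k Ω} (hfull : Full v F)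
    {y₁ z₁ y : Ω} (hy₁ : Transcendental F y₁) (h1 : FJ v F y₁)
    (hz₁ : Transcendental (adj F y₁) z₁) (h2 : FJ v (adj F y₁) z₁)
    (hy : y ∈ clI v (adj (adj F y₁) z₁)) (hyt : Transcendental F y) : FJ v F y := by
  obtain ⟨d₁, h1⟩ := h1
  obtain ⟨d₂, h2⟩ := h2
  refine ⟨d₁ * d₂, FJd.of_le h0 hfull hyt fun κ hκ => ?_⟩
  have hne : ∀ α : Ω, IsAlgebraic F α → y - α ≠ 0 := by
    intro α hα h0
    exact hyt (by rw [sub_eq_zero.mp h0]; exact hα)
  have hyκ := hne κ hκ
  obtain ⟨y', hy', h3⟩ := exists_mem_near hy (v (y - κ) + 1)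
  have h4 : y' ≠ κ ∧ v (y' - κ) = v (y - κ) := by
    have h5 : y' - κ = (y - κ) + -(y - y') := by ring
    by_cases h6 : y - y' = 0
    · rw [h6, neg_zero, add_zero] at h5
      exact ⟨sub_ne_zero.1 (by rwa [h5]), by rw [h5]⟩
    · obtain ⟨h7, h8⟩ := v.add_of_lt hyκ (neg_ne_zero.2 h6) (by
        rw [v.map_neg _ h6]
        have := h3 h6
        linarith)
      rw [← h5] at h7 h8
      exact ⟨sub_ne_zero.1 h7, h8⟩
  obtain ⟨η, e1, e2, e3⟩ := lemR_ge hy₁ h1 hz₁ h2 hy' hκ h4.1
  refine ⟨η, e1, e2, ?_⟩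
  rw [h4.2] at e3
  have h5 : v.Ge (v (y - κ)) (y - η) := by
    have h6 : y - η = (y - y') + (y' - η) := by ring
    rw [h6]
    exact (h3.mono (by linarith)).add e3
  exact h5 (hne η e1)

/-- The degree over a bigger field. -/
theorem deg_mono {E F : IntermediateField k Ω} (hle : F ≤ E) {η : Ω} (hη : IsAlgebraic F η) :
    (minpoly E η).natDegree ≤ (minpoly F η).natDegree := by
  set q : E[X] := (minpoly F η).map (IntermediateField.inclusion hle).toRingHom with hq
  have hqm : q.Monic := (minpoly.monic hη.isIntegral).map _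
  have hqη : aeval η q = 0 := by
    have h1 := minpoly.aeval F η
    rw [hq, aeval_def, eval₂_map]
    rw [aeval_def] at h1
    exact h1
  have h2 := natDegree_le_of_dvd (minpoly.dvd E η hqη) hqm.ne_zero
  rwa [hq, natDegree_map] at h2

/-- Finitely many jumps over the closure. -/
theorem fj_clI_iff [IsAlgClosed Ω] {E : IntermediateField k Ω} {z : Ω}
    (hz : Transcendental (clI v E) z) : FJ v (clI v E) z ↔ FJ v E z := by
  have hle : E ≤ clI v E := fun x hx => LUC.Cl.subset hx
  have hne : ∀ α : Ω, IsAlgebraic (clI v E) α → z - α ≠ 0 := by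
    intro α hα h0
    exact hz (by rw [sub_eq_zero.mp h0]; exact hα)
  have hsub : ∀ {a b : Ω} {c : ℝ}, z - a ≠ 0 → z - b ≠ 0 → v.Ge c (a - b) → v (z - a) < c →
      v (z - b) = v (z - a) := by
    intro a b c ha hb hab hc
    have h1 : z - b = (z - a) + (a - b) := by ring
    by_cases h2 : a - b = 0
    · rw [h1, h2, add_zero]
    · rw [h1]
      exact (v.add_of_lt ha h2 (hc.trans_le (hab h2))).2
  constructor
  · rintro ⟨d, h⟩
    refine ⟨d, fun ξ hξ => ?_⟩
    obtain ⟨η, h1, h2, h3⟩ := h ξ (D2P.isAlgebraic_mono hle hξ)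
    obtain ⟨η', h4, h5, h6⟩ := near_alg h1 (v (z - η) + 1)
    refine ⟨η', h4, h5.trans h2, ?_⟩
    rw [hsub (hne η h1) (hne η' (D2P.isAlgebraic_mono hle h4)) h6 (by linarith)]
    exact h3
  · rintro ⟨d, h⟩
    refine ⟨d, fun ξ hξ => ?_⟩
    obtain ⟨ξ', h1, -, h3⟩ := near_alg hξ (v (z - ξ) + 1)
    obtain ⟨η, h4, h5, h6⟩ := h ξ' h1
    have h7 : IsAlgebraic (clI v E) η := D2P.isAlgebraic_mono hle h4
    refine ⟨η, h7, (deg_mono hle h4).trans h5, ?_⟩
    rw [← hsub (hne ξ hξ) (hne ξ' (D2P.isAlgebraic_mono hle h1)) h3 (by linarith)]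
    exact h6

/-- Finitely many jumps over a finite extension. -/
theorem fj_of_le {E F : IntermediateField k Ω} (hle : F ≤ E)
    (halg : ∀ x ∈ E, IsAlgebraic F x) {y : Ω} (h : FJ v F y) : FJ v E y := by
  obtain ⟨d, h⟩ := h
  refine ⟨d, fun ξ hξ => ?_⟩
  obtain ⟨η, h1, h2, h3⟩ := h ξ (by
    obtain ⟨P, hP, hPξ⟩ := hξ
    refine alg_root (P := P.map (algebraMap E Ω))
      ((Polynomial.map_ne_zero_iff (algebraMap E Ω).injective).2 hP) (fun i => ?_) ?_
    · rw [coeff_map]
      exact halg _ (P.coeff i).2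
    · rw [eval_map_algebraMap, hPξ])
  exact ⟨η, D2P.isAlgebraic_mono hle h1, (deg_mono hle h1).trans h2, h3⟩

end Pool.Agent.TWJ2
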