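import Pool.Agent.Lib.TWJ2.SoftDefs
import Pool.Agent.Lib.TWJ2.LemR
import Pool.Agent.Lib.TWM.Ent1
import Pool.Agent.Lib.D2P.G1

/-!
# TANK W, ROW J, SOFT J: the base field is the closure of the base of the flag

* `cj_clI`: the closure is henselian, in the form `Cj`;
* `joo_clI`: if `y` has infinitely many jumps over `C`, the degrees of the key polynomials over the
  closure of `C` are not bounded;
* `exists_ky`: key polynomials exist as soon as there is an algebraic element nearer than `b`.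
-/

set_option autoImplicit false

open Polynomial

namespace Pool.Agent.TWJ2.Soft

open Pool.Agent.H15JM (RVal)
open Pool.Agent.LU1 (adj)
open Pool.Agent.D2 (Ctx0)
open Pool.Agent.D2P (hen clI)
open Pool.Agent.TW (Full exists_closer)
open Pool.Agent.TWM (PI PII Gt GB le_clI)

universe u

variable {k Ω : Type u} [Field k] [Field Ω] [Algebra k Ω] {v : RVal Ω}

theorem lift_PI {M : IntermediateField k Ω} {f : Polynomial Ω} (hf : f ∈ PI M) :
    ∃ φ : M[X], φ.map (algebraMap M Ω) = f := by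
  have h1 : f ∈ lifts (algebraMap M Ω) := by
    rw [lifts_iff_coeff_lifts]
    intro i
    exact ⟨⟨f.coeff i, hf i⟩, rfl⟩
  exact (mem_lifts _).1 h1

theorem map_mem_PI {M : IntermediateField k Ω} (φ : M[X]) : φ.map (algebraMap M Ω) ∈ PI M := by
  intro i
  rw [coeff_map]
  exact (φ.coeff i).2

/-- A henselian field: conjugate elements have the same values. -/
theorem cj_of_hen [IsAlgClosed Ω] (h : Ctx0 k v) {M : IntermediateField k Ω} (hM : hen v M = M) :
    Cj v M := by
  intro η η' hη hm f hf c hc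
  obtain ⟨φ, rfl⟩ := lift_PI hf
  rw [eval_map_algebraMap] at hc ⊢
  exact D2P.root_ge h hM hη (by rw [← hm]; exact minpoly.aeval M η') φ hc

theorem hen_clI (C : IntermediateField k Ω) : hen v (clI v C) = clI v C := by
  refine le_antisymm ?_ (D2P.le_hen _)
  intro a ha
  rw [← TWM.clI_clI]
  exact D2P.mem_clI.2 (D2P.mem_hen.1 ha).1

/-- The closure of a field is henselian. -/
theorem cj_clI [IsAlgClosed Ω] (h : Ctx0 k v) (C : IntermediateField k Ω) : Cj v (clI v C) :=
  cj_of_hen h (hen_clI C)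

theorem full_clI {C : IntermediateField k Ω} (h : Full v C) : Full v (clI v C) := fun g hg => by
  obtain ⟨m, hm, c, hc, h1⟩ := h g hg
  exact ⟨m, hm, c, le_clI C hc, h1⟩

/-- A key polynomial of the levels just above `b`. -/
theorem exists_ky {N : IntermediateField k Ω} {y η : Ω} {b : ℝ} (hη : IsAlgebraic N η)
    (hb : b < v (y - η)) : ∃ Q : Polynomial Ω, Ky v N y b Q := by
  classical
  have h1 : ∃ n : ℕ, ∃ g ∈ PI N, g ≠ 0 ∧ (∃ η : Ω, g.eval η = 0 ∧ b < v (y - η)) ∧
      g.natDegree = n := by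
    refine ⟨_, (minpoly N η).map (algebraMap N Ω), map_mem_PI _, ?_, ⟨η, ?_, hb⟩, rfl⟩
    · exact (Polynomial.map_ne_zero_iff (algebraMap N Ω).injective).2 (minpoly.ne_zero hη.isIntegral)
    · rw [eval_map_algebraMap, minpoly.aeval]
  obtain ⟨g, hg, hg0, ⟨ζ, hζ, hζb⟩, hn⟩ := Nat.find_spec h1
  have hlc : g.leadingCoeff ≠ 0 := leadingCoeff_ne_zero.2 hg0
  have hinv : g.leadingCoeff⁻¹ ∈ N := inv_mem (hg _)
  refine ⟨C g.leadingCoeff⁻¹ * g, ?_, ?_, ⟨ζ, ?_, hζb⟩, ?_⟩
  · intro i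
    rw [coeff_C_mul]
    exact mul_mem hinv (hg i)
  · rw [Monic, leadingCoeff_mul, leadingCoeff_C, inv_mul_cancel₀ hlc]
  · rw [eval_mul, hζ, mul_zero]
  · intro f hf hf0 hr
    rw [natDegree_C_mul (inv_ne_zero hlc), hn]
    exact Nat.find_min' h1 ⟨f, hf, hf0, hr, rfl⟩

/-- Infinitely many jumps: the degrees of the key polynomials are not bounded. -/
theorem joo_of_nfj [IsAlgClosed Ω] (h : Ctx0 k v) {N : IntermediateField k Ω} (hfull : Full v N)
    {y : Ω} (hy : Transcendental N y) (hJ : ¬ FJ v N y) : Joo v N y := by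
  intro d
  rw [FJ, not_exists] at hJ
  have h1 := hJ d
  push Not at h1
  obtain ⟨ξ, hξ, hmax⟩ := h1
  obtain ⟨η, hη, hlt⟩ := exists_closer h hfull hy hξ
  obtain ⟨Q, hQ⟩ := exists_ky hη hlt
  refine ⟨v (y - ξ), Q, hQ, ?_⟩
  by_contra hd
  rw [not_lt] at hd
  obtain ⟨ζ, hζ, hζb⟩ := hQ.root
  obtain ⟨φ, hφ⟩ := lift_PI hQ.mem
  have hφ0 : φ ≠ 0 := by
    rintro rfl
    have := hQ.mon.ne_zero
    rw [← hφ, Polynomial.map_zero] at this
    exact this rfl
  have hζφ : aeval ζ φ = 0 := by rw [← hζ, ← hφ, eval_map_algebraMap]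
  have hdeg : (minpoly N ζ).natDegree ≤ d := by
    refine (natDegree_le_of_dvd (minpoly.dvd N ζ hζφ) hφ0).trans ?_
    rw [← natDegree_map (algebraMap N Ω), hφ]
    exact hd
  have := hmax ζ ⟨φ, hφ0, hζφ⟩ hdeg
  linarith

/-- Infinitely many jumps: `y` is transcendental over the closure. -/
theorem ty_clI [IsAlgClosed Ω] {C : IntermediateField k Ω} {y : Ω} (hy : Transcendental C y)
    (hJ : ¬ FJ v C y) : Transcendental (clI v C) y := by
  intro hal
  refine hJ ⟨(minpoly (clI v C) y).natDegree, fun ξ _ => ?_⟩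
  obtain ⟨η, h1, h2, h3⟩ := near_alg hal (v (y - ξ) + 1)
  refine ⟨η, h1, h2, ?_⟩
  have h4 : y - η ≠ 0 := fun h0 => hy (by rw [sub_eq_zero.mp h0]; exact h1)
  have := h3 h4
  linarith

/-- **(A0.2)**: over the closure of `C` the degrees of the key polynomials are not bounded. -/
theorem joo_clI [IsAlgClosed Ω] (h : Ctx0 k v) {C : IntermediateField k Ω} (hfull : Full v C)
    {y : Ω} (hy : Transcendental C y) (hJ : ¬ FJ v C y) : Joo v (clI v C) y :=
  joo_of_nfj h (full_clI hfull) (ty_clI hy hJ) fun hF => hJ ((fj_clI_iff (ty_clI hy hJ)).1 hF)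

end Pool.Agent.TWJ2.Soft
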