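import Pool.Agent.Lib.TWJ2.Soft1
import Pool.Agent.Lib.TWJ2.A0

/-!
# TANK W, ROW J: polynomials in `y` are dense in `N(y)`

`y` is transcendental over `N` and its distance to the algebraic elements is not attained (`Full`).
* `inv_approx`: `1 / g(y)` is a limit of polynomials in `y`;
* `dense_PI`: the elements of the closure of `N(y)` are limits of polynomials in `y`.
-/

set_option autoImplicit false

open Polynomial

namespace Pool.Agent.TWJ2.Soft

open Pool.Agent.H15JM (RVal)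
open Pool.Agent.LU1 (adj)
open Pool.Agent.D2 (Ctx0)
open Pool.Agent.D2P (clI mem_clI)
open Pool.Agent.TW (Full exists_closer)
open Pool.Agent.TWM (PI PII Gt GB isAlgebraic_root)

universe u

variable {k Ω : Type u} [Field k] [Field Ω] [Algebra k Ω] {v : RVal Ω}
  {N : IntermediateField k Ω} {y : Ω} {b : ℝ} {Q g : Polynomial Ω}

/-- An algebraic element nearer than finitely many ones. -/
theorem exists_far [IsAlgClosed Ω] (h : Ctx0 k v) (hfull : Full v N) (hy : Transcendental N y)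
    (R : Finset Ω) (hR : ∀ β ∈ R, IsAlgebraic N β) :
    ∃ η : Ω, IsAlgebraic N η ∧ ∀ β ∈ R, v (y - β) < v (y - η) := by
  rcases R.eq_empty_or_nonempty with h0 | h0
  · exact ⟨0, isAlgebraic_zero, fun β hβ => by rw [h0] at hβ; exact absurd hβ (Finset.notMem_empty β)⟩
  · obtain ⟨β, hβ, hmax⟩ := R.exists_max_image (fun β => v (y - β)) h0
    obtain ⟨η, h1, h2⟩ := exists_closer h hfull hy (hR β hβ)
    exact ⟨η, h1, fun β' hβ' => (hmax β' hβ').trans_lt h2⟩

/-- The inverse modulo the key polynomial. -/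
theorem exists_inv_mod (h : Ky v N y b Q) {ζ : Ω} (hζ : Q.eval ζ = 0) (hb : b < v (y - ζ))
    (hg : g ∈ PI N) (hgζ : g.eval ζ ≠ 0) :
    ∃ f ∈ PI N, f ≠ 0 ∧ f.natDegree < Q.natDegree ∧ f.eval ζ * g.eval ζ = 1 := by
  have halg := h.alg hζ
  obtain ⟨g₀, rfl⟩ := lift_PI hg
  rw [eval_map_algebraMap] at hgζ
  have hirr := minpoly.irreducible halg.isIntegral
  have hnd : ¬ minpoly N ζ ∣ g₀ := fun hd => hgζ (by
    obtain ⟨q, hq⟩ := hd
    rw [hq, map_mul, minpoly.aeval, zero_mul])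
  obtain ⟨a, c, hac⟩ := (hirr.coprime_iff_not_dvd).2 hnd
  have hm := minpoly.monic halg.isIntegral
  set f₀ := c %ₘ minpoly N ζ with hf₀
  have h1 : aeval ζ f₀ * aeval ζ g₀ = 1 := by
    have h2 : aeval ζ f₀ = aeval ζ c := by
      have h3 := congrArg (aeval ζ) (modByMonic_add_div c (minpoly N ζ))
      rw [map_add, map_mul, minpoly.aeval, zero_mul, add_zero] at h3
      exact h3
    have h4 := congrArg (aeval ζ) hac
    rw [map_add, map_mul, map_mul, minpoly.aeval, mul_zero, zero_add, map_one] at h4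
    rw [h2, h4]
  have hf0 : f₀ ≠ 0 := by
    intro h0
    rw [h0, map_zero, zero_mul] at h1
    exact zero_ne_one h1
  refine ⟨f₀.map (algebraMap N Ω), map_mem_PI _, ?_, ?_, ?_⟩
  · exact (Polynomial.map_ne_zero_iff (algebraMap N Ω).injective).2 hf0
  · rw [h.eq_mp hζ hb, mp, natDegree_map, natDegree_map]
    exact natDegree_lt_natDegree hf0 (degree_modByMonic_lt c hm)
  · rw [eval_map_algebraMap, eval_map_algebraMap, h1]

/-- No root in the open disc: the value at a point of the open disc. -/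
theorem gt_eval_sub [IsAlgClosed Ω] {f : Polynomial Ω} (hf : f ≠ 0) (h : nop v y b f = 0) {ζ : Ω}
    (hζ : b < v (y - ζ)) : Gt v (v (f.eval y)) (f.eval ζ - f.eval y) := by
  have h1 : f.eval ζ = (taylor y f).eval (ζ - y) := by
    rw [taylor_eval, sub_add_cancel]
  have h2 : f.eval y = (taylor y f).coeff 0 := (taylor_coeff_zero y f).symm
  have h3 : f.eval ζ - f.eval y =
      ∑ l ∈ Finset.range (taylor y f).natDegree, (taylor y f).coeff (l + 1) * (ζ - y) ^ (l + 1) := by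
    rw [h1, h2, eval_eq_sum_range, Finset.sum_range_succ', pow_zero, mul_one, add_sub_cancel_right]
  rw [h3]
  refine Gt.sum _ _ fun l _ => ?_
  have h4 := GB_gval (v := v) (y := y) (b := b) (f := f) (l + 1)
  rw [← (gval_eq_eval' hf h).2] at h4
  intro h0
  have h5 := left_ne_zero_of_mul h0
  have h6 := right_ne_zero_of_mul h0
  have h7 : ζ - y ≠ 0 := fun h8 => h6 (by rw [h8, zero_pow (Nat.succ_ne_zero l)])
  rw [v.map_mul h5 h6, v.map_pow h7]
  have h8 := h4 h5
  have h9 : v (ζ - y) = v (y - ζ) := by rw [← neg_sub, v.map_neg _ (by rwa [← neg_sub, neg_ne_zero] at h7)]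
  rw [h9]
  have h10 : (0 : ℝ) < ((l + 1 : ℕ) : ℝ) := by exact_mod_cast Nat.succ_pos l
  nlinarith

/-- Approximation of `1 / g(y)` by polynomials. -/
theorem inv_approx [IsAlgClosed Ω] (h : Ctx0 k v) (hfull : Full v N) (hy : Transcendental N y)
    (hg : g ∈ PI N) (h0 : g ≠ 0) (c : ℝ) : ∃ f ∈ PI N, v.Ge c ((g.eval y)⁻¹ - f.eval y) := by
  classical
  obtain ⟨η, hη, hfar⟩ := exists_far h hfull hy g.roots.toFinset fun β hβ =>
    isAlgebraic_root hg h0 ((mem_roots h0).1 (Multiset.mem_toFinset.1 hβ))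
  set b := v (y - η) with hb
  have hclose : ∀ β : Ω, g.eval β = 0 → v (y - β) < b := fun β hβ =>
    hfar β (Multiset.mem_toFinset.2 ((mem_roots h0).2 hβ))
  have hncl : nop v y b g = 0 := by
    by_contra hn
    obtain ⟨β, h1, h2⟩ := (nop_pos_iff h0).1 (Nat.pos_of_ne_zero hn)
    have h3 := h2 (root_ne hy hg h0 h1)
    have := hclose β h1
    linarith
  obtain ⟨η', hη', hlt⟩ := exists_closer h hfull hy hη
  obtain ⟨Q, hQ⟩ := exists_Ky hη' hlt
  obtain ⟨ζ, hζ, hζb⟩ := id hQ.root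
  have hgζ : g.eval ζ ≠ 0 := fun h1 => by
    have := hclose ζ h1
    linarith
  obtain ⟨f, hf, hf0, hfd, hfg⟩ := exists_inv_mod hQ hζ hζb hg hgζ
  have hnf : nop v y b f = 0 := hQ.nop_eq hy hf hf0 hfd
  have hne : f * g ≠ 0 := mul_ne_zero hf0 h0
  have hnn : nop v y b (f * g) = 0 := by rw [nop_mul hf0 h0, hnf, hncl]
  have hgt := gt_eval_sub hne hnn hζb
  rw [eval_mul, eval_mul, hfg] at hgt
  have hgy : g.eval y ≠ 0 := eval_ne hy hg h0
  have hfy : f.eval y ≠ 0 := eval_ne hy hf hf0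
  set u := f.eval y * g.eval y with hu
  have hu0 : u ≠ 0 := mul_ne_zero hfy hgy
  have hvu : v u = 0 := by
    have h1 : (1 : Ω) = u + (1 - u) := by ring
    have h2 := (add_gt hu0 rfl hgt).2
    rw [← h1, v.map_one] at h2
    exact h2.symm
  rw [hvu] at hgt
  set t : Ω := 1 - u with ht
  obtain ⟨e, he, hte⟩ : ∃ e : ℝ, 0 < e ∧ v.Ge e t := by
    by_cases ht0 : t = 0
    · exact ⟨1, one_pos, by rw [ht0]; exact RVal.Ge.zero⟩
    · exact ⟨v t, hgt ht0, RVal.ge_self _⟩
  obtain ⟨m, hm⟩ := exists_nat_gt ((c + v (g.eval y)) / e)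
  rw [div_lt_iff₀ he] at hm
  refine ⟨f * ∑ i ∈ Finset.range m, (1 - f * g) ^ i, mul_mem hf (sum_mem fun i _ =>
    pow_mem (sub_mem (one_mem _) (mul_mem hf hg)) i), ?_⟩
  have h2 : (∑ i ∈ Finset.range m, t ^ i) * (1 - t) = 1 - t ^ m := by
    rw [mul_comm, mul_neg_geom_sum]
  have h4 : (g.eval y)⁻¹ - (f * ∑ i ∈ Finset.range m, (1 - f * g) ^ i).eval y =
      (g.eval y)⁻¹ * t ^ m := by
    rw [eval_mul, eval_finsetSum]
    simp only [eval_pow, eval_sub, eval_one, eval_mul]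
    rw [← hu, ← ht]
    have h5 : f.eval y * ∑ i ∈ Finset.range m, t ^ i =
        (g.eval y)⁻¹ * ((∑ i ∈ Finset.range m, t ^ i) * (1 - t)) := by
      rw [ht, sub_sub_cancel, hu]
      field_simp
    rw [h5, h2]
    ring
  rw [h4]
  refine ((RVal.Ge.of_le (v := v) (v.map_inv hgy).ge).mul (TWM.ge_pow hte m)).mono ?_
  linarith

/-- `N[y]` is dense in the closure of `N(y)`. -/
theorem dense_PI [IsAlgClosed Ω] (h : Ctx0 k v) (hfull : Full v N) (hy : Transcendental N y)
    {x : Ω} (hx : x ∈ clI v (adj N y)) (c : ℝ) : ∃ f ∈ PI N, v.Ge c (x - f.eval y) := by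
  obtain ⟨x', hx', h1⟩ := mem_clI.1 hx c
  have hx'' : x' ∈ adj N y := hx'
  rw [D2P.mem_adj_iff, IntermediateField.mem_adjoin_simple_iff] at hx''
  obtain ⟨P, Q, rfl⟩ := hx''
  rw [← eval_map_algebraMap, ← eval_map_algebraMap] at h1
  set f := P.map (algebraMap N Ω) with hf
  set g := Q.map (algebraMap N Ω) with hg
  by_cases hg0 : g = 0
  · refine ⟨0, zero_mem _, ?_⟩
    rw [hg0, eval_zero, div_zero] at h1
    rwa [eval_zero]
  by_cases hf0 : f.eval y = 0
  · refine ⟨0, zero_mem _, ?_⟩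
    rw [hf0, zero_div] at h1
    rwa [eval_zero]
  obtain ⟨q, hq, h2⟩ := inv_approx h hfull hy (map_mem_PI Q) hg0 (c - v (f.eval y))
  refine ⟨f * q, mul_mem (map_mem_PI P) hq, ?_⟩
  have h3 : x - (f * q).eval y =
      (x - f.eval y / g.eval y) + f.eval y * ((g.eval y)⁻¹ - q.eval y) := by
    rw [eval_mul]
    ring
  rw [h3]
  refine h1.add (((RVal.ge_self _).mul h2).mono ?_)
  linarith

end Pool.Agent.TWJ2.Soft
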