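import Pool.Agent.Lib.TWJ2.Ext3

/-!
# TANK W, ROW J, exit, strong form

`(C, y, z)` a flag, `z` of transcendental type over the closure of `C(y)`, radius `s`, and `z` is a
limit, up to `s`, of polynomials of bounded degree in `y` over `C` (or over the closure of `C`).

* `fj_sub`: if `y` has infinitely many jumps over `C`, there is `θ₀` such that `z - θ₀(y)` has finitely
  many jumps over `C`;
* `star_fj`: if `q` is a lower bound for the indices of the states, `p ≤ q`, then `y` has finitely many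
  jumps over `C`. (Only the pair `(C, y)` is used.)
-/

set_option autoImplicit false

open Polynomial

namespace Pool.Agent.TWJ2

open Pool.Agent.H15JM (RVal)
open Pool.Agent.LU1 (adj)
open Pool.Agent.D2 (Ctx0)
open Pool.Agent.D2P (hen clI mem_clI mem_adj_self adj_le)
open Pool.Agent.TW
open Pool.Agent.TWM (PI SL GB Gt Lim TL CompleteV OI pbasis_clI clI_hen clI_clI le_clI clI_mono
  adj_range cadj clI_adj_clI)
open Pool.Agent.TWJ

universe u

variable {k Ω : Type u} [Field k] [Field Ω] [Algebra k Ω] {v : RVal Ω}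

/-- **A coordinate with finitely many jumps.** -/
theorem fj_sub [IsAlgClosed Ω] (h : Ctx0 k v) {C : IntermediateField k Ω} (hfull : Full v C)
    (hd : Dns v C) {y z : Ω} {s : ℝ} (hy : Transcendental C y)
    (hTL : TL v (clI v (adj C y)) z s) (hnf : ¬ FJ v C y) {m1 : ℕ}
    (hstar : ∀ ε : ℝ, 0 < ε → ∃ θ ∈ PI C, θ.natDegree < m1 ∧ v.Ge (s - ε) (z - θ.eval y)) :
    ∃ θ₀ ∈ PI C, FJ v C (z - θ₀.eval y) := by
  obtain ⟨η, ρ, hη, hdeg⟩ := exists_deg h hfull hd hy hnf m1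
  have hint : IsIntegral C η := hη.sep.isIntegral
  have hyη : y ≠ η := by
    intro h0
    refine hy ?_
    rw [h0]
    exact hint.isAlgebraic
  obtain ⟨π, hπC, hπ0, hb1, hb2⟩ := hd ρ (v (y - η)) hη.lt
  have hcen := cen_of_min hy hη hπC hπ0 hb1 hb2
  set t := v (y - η) - ρ with ht
  have ht0 : 0 < t := sub_pos.2 hη.lt
  obtain ⟨θ₀, hθ₀, hθ₀d, hθ₀v⟩ := hstar t ht0
  have hf0 : θ₀.eval y ∈ adj C y := TWJ.eval_mem_adj hθ₀
  have hT : TL v (clI v (adj C y)) (z - θ₀.eval y) s := hTL.sub_mem (le_clI _ hf0)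
  have hle : C ≤ clI v (adj C y) := fun a ha => le_clI _ ((mem_adj_self C y).2 ha)
  refine ⟨θ₀, hθ₀, (minpoly C η).natDegree, fun ξ hξ => ?_⟩
  obtain ⟨-, hξs⟩ := hT.far ξ (D2P.isAlgebraic_mono hle hξ)
  set ε := min t ((s - v (z - θ₀.eval y - ξ)) / 2) with hε
  have hε0 : 0 < ε := lt_min ht0 (by linarith)
  have hεt : ε ≤ t := min_le_left _ _
  have hεξ : ε ≤ (s - v (z - θ₀.eval y - ξ)) / 2 := min_le_right _ _
  obtain ⟨θ, hθ, hθd, hθv⟩ := hstar ε hε0
  obtain ⟨δ, hδ⟩ := exists_lift (sub_mem hθ hθ₀)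
  have hδd : δ.natDegree < m1 := by
    have h1 : (δ.map (algebraMap C Ω)).natDegree = δ.natDegree := natDegree_map _
    rw [← h1, hδ]
    exact (natDegree_sub_le _ _).trans_lt (max_lt hθd hθ₀d)
  have hδy : aeval y δ = θ.eval y - θ₀.eval y := by
    rw [← eval_map_algebraMap, hδ, eval_sub]
  have hz' : z - θ₀.eval y = (z - θ.eval y) + aeval y δ := by
    rw [hδy]
    ring
  -- the approximant
  have hmem : aeval η δ ∈ IntermediateField.adjoin C {η} :=
    IntermediateField.algebra_adjoin_le_adjoin C {η} (aeval_mem_adjoin_singleton C η)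
  obtain ⟨ha, hdega⟩ := deg_le_of_mem hint.isAlgebraic hmem
  have hdiff : v.Ge s (aeval y δ - aeval η δ) := by
    by_cases hδ0 : δ = 0
    · rw [hδ0, _root_.map_zero, _root_.map_zero, sub_zero]
      exact RVal.Ge.zero
    have hRB : RB v C η ρ δ := hcen.tb _ hδ0 (hδd.trans hdeg)
    have h1 := hRB.near (x := y) fun _ => hη.lt
    have h2 : v.Ge (s - t) (aeval y δ) := by
      have h3 : aeval y δ = (z - θ₀.eval y) - (z - θ.eval y) := by rw [hz']; ring
      rw [h3]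
      exact hθ₀v.sub (hθv.mono (by linarith))
    have h3 : s - t ≤ v (aeval η δ) := by
      rw [← h1.2.1]
      exact h2 h1.1
    exact (h1.2.2 hyη).mono (by linarith)
  refine ⟨aeval η δ, ha, hdega, ?_⟩
  have h4 : v.Ge (s - ε) (z - θ₀.eval y - aeval η δ) := by
    have h5 : z - θ₀.eval y - aeval η δ = (z - θ.eval y) + (aeval y δ - aeval η δ) := by
      rw [hz']
      ring
    rw [h5]
    exact hθv.add (hdiff.mono (by linarith))
  have h5 : z - θ₀.eval y - aeval η δ ≠ 0 :=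
    sub_ne_zero.2 (hT.far _ (D2P.isAlgebraic_mono hle ha)).1
  have h6 := h4 h5
  linarith

/-- **The exit of row J, strong form.** -/
theorem star_fj [IsAlgClosed Ω] [IsAlgClosed k] (p : ℕ) [hp : Fact p.Prime] [CharP k p]
    [CharP Ω p] {r D : ℕ} (h : Ctx k v r) (hcv : CompleteV v)
    (hLU : ∀ E : IntermediateField k Ω, E.FG → Full v E →
      Algebra.trdeg k E = (r + (D + 1) : ℕ) → BD p v E → LU p v r E)
    {K₀ : IntermediateField k Ω} (hK₀ : K₀.FG)
    (htr₀ : Algebra.trdeg k K₀ = (r + (D + 1) + 1 : ℕ)) (hBD₀ : BD p v K₀) {a : Ω}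
    (ha : a ∈ clI v K₀) {μ : ℝ} (hμ : ∀ g ∈ clI v K₀, ¬ v.Ge μ (a - g ^ p)) {q : ℕ} (hq : p ≤ q)
    (hmin : MinS p v r (D + 1) (clI v K₀) a q) {C : IntermediateField k Ω} {y z : Ω} {s : ℝ}
    (hC : C.FG) (hfull : Full v C) (htr : Algebra.trdeg k C = (r + D : ℕ)) (hd : Dns v C)
    (hy : Transcendental C y) (hcl : clI v K₀ = clI v (adj (adj C y) z))
    (hTL : TL v (clI v (adj C y)) z s) {m1 : ℕ}
    (hstar : ∀ ε : ℝ, 0 < ε → ∃ θ ∈ PI (clI v C), θ.natDegree < m1 ∧
      v.Ge (s - ε) (z - θ.eval y)) : FJ v C y := by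
  by_contra hnf
  obtain ⟨θ₀, hθ₀, hfj⟩ := fj_sub h.toCtx0 hfull hd hy hTL hnf (m1 := m1) fun ε hε => by
    obtain ⟨θ, hθ, hd, h1⟩ := hstar ε hε
    obtain ⟨θ', hθ', hd', h2⟩ := exists_PI_near hθ y (s - ε)
    refine ⟨θ', hθ', hd'.trans_lt hd, ?_⟩
    have h3 := h1.add h2
    rwa [sub_add_sub_cancel] at h3
  set z' := z - θ₀.eval y with hz'
  have hf0 : θ₀.eval y ∈ adj C y := TWJ.eval_mem_adj hθ₀
  have hT : TL v (clI v (adj C y)) z' s := hTL.sub_mem (le_clI _ hf0)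
  have htz : Transcendental (adj C y) z' := fun h1 =>
    tl_tr hT (D2P.isAlgebraic_mono (le_clI _) h1)
  have hCle : C ≤ adj C y := fun a ha => (mem_adj_self C y).2 ha
  have hzC : Transcendental C z' := fun h1 => htz (D2P.isAlgebraic_mono hCle h1)
  have hyz : Transcendental (adj C z') y := tr_swap hy htz
  have hnf' : ¬ FJ v (adj C z') y := fun hf =>
    hnf (lemR h.toCtx0 hfull hzC hfj hyz hf (le_clI _ (mem_adj_self _ y).1) hy)
  have hswap : adj (adj C z') y = adj (adj C y) z := adj_adj_swap hf0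
  have hcl' : clI v K₀ = clI v (adj (adj C z') y) := by rw [hswap]; exact hcl
  have hle : C ≤ adj C z' := fun a ha => (mem_adj_self C z').2 ha
  have hd' : Dns v (adj C z') := by
    intro a b hab
    obtain ⟨c, hc, hc'⟩ := hd a b hab
    exact ⟨c, hle hc, hc'⟩
  have htr1 : Algebra.trdeg k (adj C z') = (r + (D + 1) : ℕ) := by
    rw [HRLU.trdeg_adj hzC, htr]
    push_cast
    ring
  have htr2 : Algebra.trdeg k (adj (adj C z') y) = (r + (D + 1) + 1 : ℕ) := by
    rw [HRLU.trdeg_adj hyz, htr1]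
    push_cast
    ring
  have hfg : (adj C z').FG := D2P.fg_adj hC z'
  have hfg2 : (adj (adj C z') y).FG := D2P.fg_adj hfg y
  have hbd2 : BD p v (adj (adj C z') y) := bd_of_cl p hcv hK₀ htr₀ hBD₀ hfg2 hcl'.symm htr2
  have hbd : BD p v (adj C z') := BD.of_adj p hfg hyz hbd2
  obtain ⟨F', z₂, ρ, κ, A, hst⟩ := exists_stt_small p h hcv hLU hK₀ htr₀ hBD₀ ha hμ hfg
    (hfull.mono hle) hbd htr1 hd' hyz hcl' hnf'
  have h1 := hmin F' z₂ ρ κ (p - 1) A hst
  have h2 := hp.out.pos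
  omega

end Pool.Agent.TWJ2
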