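import Pool.Agent.Lib.TWJ2.Gauss

/-!
# TANK W, ROW J, SOFT J: interface

* `DG p v N y b lam G`: the distance of `G` to the `p`-th powers of polynomials over `N`, at the
  level `b`, is `≥ lam`; `DI`: the same for `p ∣ i`, the Gauss value itself for `p ∤ i`;
* `Ky v N y b Q`: `Q` is a key polynomial of the levels just above `b`;
* `Joo v N y`: the degrees of the key polynomials are not bounded;
* `Cj v N`: conjugate elements over `N` have the same values (`N` is henselian);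
* `Con …`: the constraint;
* `SoftD …`: the data of SOFT J: `A(Y, Z)` over `N`, of degree `≤ q` in `Z`, centre `0` for `z`.
-/

set_option autoImplicit false

open Polynomial

namespace Pool.Agent.TWJ2.Soft

open Pool.Agent.H15JM (RVal)
open Pool.Agent.TWM (PI PII Gt GB)

universe u

variable {k Ω : Type u} [Field k] [Field Ω] [Algebra k Ω]

/-- The distance of `G` to the `p`-th powers of polynomials over `N`, at the level `b`, is
`≥ lam`. -/
def DG (p : ℕ) (v : RVal Ω) (N : IntermediateField k Ω) (y : Ω) (b lam : ℝ)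
    (G : Polynomial Ω) : Prop :=
  ∀ ε : ℝ, 0 < ε → ∃ g ∈ PI N, GB v b (lam - ε) (taylor y (G - g ^ p))

/-- The coefficient of index `i`: modulo `p`-th powers if `p ∣ i`. -/
def DI (p : ℕ) (v : RVal Ω) (N : IntermediateField k Ω) (y : Ω) (i : ℕ) (b lam : ℝ)
    (G : Polynomial Ω) : Prop :=
  (p ∣ i → DG p v N y b lam G) ∧ (¬ p ∣ i → GB v b lam (taylor y G))

/-- `Q` is a key polynomial of the levels just above `b`. -/
structure Ky (v : RVal Ω) (N : IntermediateField k Ω) (y : Ω) (b : ℝ) (Q : Polynomial Ω) :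
    Prop where
  mem : Q ∈ PI N
  mon : Q.Monic
  root : ∃ η : Ω, Q.eval η = 0 ∧ b < v (y - η)
  min : ∀ g ∈ PI N, g ≠ 0 → (∃ η : Ω, g.eval η = 0 ∧ b < v (y - η)) → Q.natDegree ≤ g.natDegree

/-- The degrees of the key polynomials are not bounded. -/
def Joo (v : RVal Ω) (N : IntermediateField k Ω) (y : Ω) : Prop :=
  ∀ d : ℕ, ∃ (b : ℝ) (Q : Polynomial Ω), Ky v N y b Q ∧ d < Q.natDegree

/-- Conjugate elements over `N` have the same values. -/
def Cj (v : RVal Ω) (N : IntermediateField k Ω) : Prop :=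
  ∀ η η' : Ω, IsAlgebraic N η → minpoly N η' = minpoly N η → ∀ f ∈ PI N, ∀ c : ℝ,
    v.Ge c (f.eval η) → v.Ge c (f.eval η')

/-- The constraint at the position `(θ, b, c)`, `c ≥ c'`, `θ` of Gauss value `≥ c'`, `b ≥ b₀`;
`κ` is a lower bound for the Gauss value modulo `p`-th powers. -/
def Con (p q : ℕ) (v : RVal Ω) (N : IntermediateField k Ω) (y z : Ω) (c' b₀ : ℝ)
    (A : Polynomial (Polynomial Ω)) : Prop :=
  ∀ (b w : ℝ) (Q θ : Polynomial Ω) (c κ : ℝ), b₀ ≤ b → b < w → Ky v N y b Q →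
    (∃ η : Ω, Q.eval η = 0 ∧ w < v (y - η)) → θ ∈ PI N → GB v b c' (taylor y θ) → c' ≤ c →
    c + (gval v y w Q - gval v y b Q) < v (z - θ.eval y) →
    (∀ i : ℕ, DI p v N y i b (κ - i * c) ((taylor θ A).coeff i)) →
    ∀ i : ℕ, DI p v N y i w (κ + q * (gval v y w Q - gval v y b Q) -
      i * (c + (gval v y w Q - gval v y b Q))) ((taylor θ A).coeff i)

/-- The data of SOFT J. -/
structure SoftD (p q : ℕ) (v : RVal Ω) (N : IntermediateField k Ω) (y z : Ω) (s Dq c' b₀ : ℝ)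
    (A : Polynomial (Polynomial Ω)) : Prop where
  mem : PII N A
  deg : A.natDegree ≤ q
  ne : ∀ θ ∈ PI N, z ≠ θ.eval y
  lt : ∀ θ ∈ PI N, v (z - θ.eval y) < s
  sup : ∀ c < s, ∃ θ ∈ PI N, c < v (z - θ.eval y)
  cen : c' < v z
  hi : ∀ b lam : ℝ, DG p v N y b lam (A.coeff q) → lam ≤ Dq
  lo : ∀ m < q, p ∣ m → DG p v N y b₀ (Dq + (q - m) * c') (A.coeff m)
  nd : ∀ l : ℕ, ¬ p ∣ l → GB v b₀ (Dq + (q - 1) * s - (l - 1) * c') (taylor y (A.coeff l))
  con : Con p q v N y z c' b₀ A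

end Pool.Agent.TWJ2.Soft
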