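import Pool.Agent.Lib.TWJ2.SeedA
import Pool.Agent.Lib.TWJ2.SoftDefs
import Pool.Agent.Lib.TWC.BaseCh

/-!
# TANK W, ROW J, SOFT J, cell (D): the data of SOFT J from a seed

* `taylor_near`: the Taylor coefficients are continuous in the centre;
* `Seed.high'`, `Seed.mid'`, `Seed.low'`: the properties of a seed at the centres of the closure;
* `map_taylor_eval`, `taylor_coeff_ge`: the coefficients at `y`, change of the centre;
* `DG.add_small`, `DI.add_small`: a small perturbation does not change the distance;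
* `exists_softD`: the data of SOFT J.
-/

set_option autoImplicit false

open Polynomial

namespace Pool.Agent.TWJ2.Soft

open Pool.Agent.H15JM (RVal)
open Pool.Agent.LU1 (adj)
open Pool.Agent.D2 (Ctx0)
open Pool.Agent.D2P (clI mem_clI)
open Pool.Agent.TW (Full BD Fr)
open Pool.Agent.TWM (PI PII TL Gt GB C_mem_PI X_mem_PI isAlgebraic_root le_clI clI_mono cld_clI
  clI_adj_clI clI_clI le_algc Cld)
open Pool.Agent.TWJ (Seed Dst)

universe u

variable {k Ω : Type u} [Field k] [Field Ω] [Algebra k Ω] {v : RVal Ω}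
  {C F : IntermediateField k Ω} {y z : Ω}

/-! ### Change of the centre -/

theorem taylor_coeff_ge {P : Polynomial Ω} {n : ℕ} (hn : P.natDegree ≤ n) {M cz : ℝ} (hcz : cz ≤ 0)
    {δ : Ω} (hδ : v.Ge cz δ) (h : ∀ i, v.Ge M (P.coeff i)) (i : ℕ) :
    v.Ge (M + n * cz) ((taylor δ P).coeff i) := by
  rw [taylor_coeff_sum δ P hn i]
  refine RVal.Ge.sum _ _ fun j hj => ?_
  have h1 : (j : ℝ) ≤ n := by exact_mod_cast Nat.lt_succ_iff.1 (Finset.mem_range.1 hj)
  refine (((TWM.ge_natCast v _).mul (h (j + i))).mul (TWM.ge_pow hδ j)).mono ?_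
  have := mul_le_mul_of_nonpos_right h1 hcz
  linarith

theorem exists_coeff_ge (v : RVal Ω) (P : Polynomial Ω) : ∃ lam : ℝ, ∀ i, v.Ge lam (P.coeff i) := by
  classical
  obtain ⟨M, hM⟩ := (P.support.image fun i => -v (P.coeff i)).exists_le
  refine ⟨-M, fun i hi => ?_⟩
  have := hM _ (Finset.mem_image.2 ⟨i, mem_support_iff.2 hi, rfl⟩)
  linarith

/-- The Taylor coefficients are continuous in the centre. -/
theorem taylor_near (f : Polynomial Ω) (θ : Ω) (B : ℝ) : ∃ B' : ℝ, ∀ θ' : Ω, v.Ge B' (θ' - θ) →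
    ∀ m : ℕ, v.Ge B ((taylor θ' f).coeff m - (taylor θ f).coeff m) := by
  classical
  obtain ⟨lam, hl⟩ := exists_coeff_ge v (taylor θ f)
  refine ⟨max 0 (B - lam), fun θ' h m => ?_⟩
  have e1 : taylor θ' f = taylor (θ' - θ) (taylor θ f) := by
    rw [taylor_taylor, sub_add_cancel]
  rw [e1, taylor_coeff_sum (θ' - θ) (taylor θ f) le_rfl m, Finset.sum_range_succ']
  have e2 : (((0 + m).choose m : ℕ) : Ω) * (taylor θ f).coeff (0 + m) * (θ' - θ) ^ 0 =
      (taylor θ f).coeff m := by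
    rw [Nat.zero_add, Nat.choose_self, Nat.cast_one, one_mul, pow_zero, mul_one]
  rw [e2, add_sub_cancel_right]
  refine RVal.Ge.sum _ _ fun j _ => ?_
  refine (((TWM.ge_natCast v _).mul (hl _)).mul (TWM.ge_pow h (j + 1))).mono ?_
  have h1 := le_max_left 0 (B - lam)
  have h2 := le_max_right 0 (B - lam)
  have h3 : (0 : ℝ) ≤ j := Nat.cast_nonneg j
  push_cast
  nlinarith

/-! ### The properties of a seed at the centres of the closure -/

section Seed

variable {p : ℕ} [hp : Fact p.Prime] [CharP Ω p] {K : IntermediateField k Ω} {a : Ω} {r D q : ℕ}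
  {s Dq e₀ c₀ : ℝ} {A : Polynomial Ω}

omit hp [CharP Ω p] in
/-- A centre of `F` near a centre of the closure of `F`. -/
theorem Seed.exists_centre (_ : Seed p v r D K a q F z s Dq e₀ c₀ A) {θ : Ω} (hθ : θ ∈ clI v F)
    (B B₁ : ℝ) : ∃ θ' ∈ F, v.Ge B₁ (θ - θ') ∧
      ∀ m : ℕ, v.Ge B ((taylor θ' A).coeff m - (taylor θ A).coeff m) := by
  obtain ⟨B', hB'⟩ := taylor_near (v := v) A θ B
  obtain ⟨θ', h1, h2⟩ := mem_clI.1 hθ (max B' B₁)
  refine ⟨θ', h1, h2.mono (le_max_right _ _), hB' θ' ?_⟩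
  rw [← neg_sub]
  exact (h2.mono (le_max_left _ _)).neg

omit hp [CharP Ω p] in
theorem Seed.high' (hS : Seed p v r D K a q F z s Dq e₀ c₀ A) {θ : Ω} (hθ : θ ∈ clI v F)
    (hc : v.Ge c₀ (z - θ)) {m : ℕ} (hm : q < m) :
    v.Ge (Dq + q * s + e₀ - m * s) ((taylor θ A).coeff m) := by
  obtain ⟨θ', h1, h2, h3⟩ := Seed.exists_centre hS hθ (Dq + q * s + e₀ - m * s) c₀
  have h4 := hS.high θ' h1 (by
    have := hc.add h2
    rwa [sub_add_sub_cancel] at this) m hm
  have h5 := h4.sub (h3 m)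
  rwa [sub_sub_cancel] at h5

omit hp [CharP Ω p] in
theorem Seed.mid_lo (hS : Seed p v r D K a q F z s Dq e₀ c₀ A) {θ : Ω} (hθ : θ ∈ clI v F)
    (hc : v.Ge c₀ (z - θ)) {ε : ℝ} (hε : 0 < ε) :
    ∃ g ∈ F, v.Ge (Dq - ε) ((taylor θ A).coeff q - g ^ p) := by
  obtain ⟨θ', h1, h2, h3⟩ := Seed.exists_centre hS hθ (Dq - ε) c₀
  obtain ⟨g, hg, h4⟩ := (hS.mid θ' h1 (by
    have := hc.add h2
    rwa [sub_add_sub_cancel] at this)).lo ε hε
  refine ⟨g, hg, ?_⟩
  have h5 := h4.sub (h3 q)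
  have e1 : (taylor θ' A).coeff q - g ^ p - ((taylor θ' A).coeff q - (taylor θ A).coeff q) =
    (taylor θ A).coeff q - g ^ p := by ring
  rwa [e1] at h5

theorem Seed.mid_hi (hS : Seed p v r D K a q F z s Dq e₀ c₀ A) {θ : Ω} (hθ : θ ∈ clI v F)
    (hc : v.Ge c₀ (z - θ)) {e : ℝ} (he : 0 < e) {g : Ω} (hg : g ∈ clI v F) :
    ¬ v.Ge (Dq + e) ((taylor θ A).coeff q - g ^ p) := by
  intro hge
  obtain ⟨θ', h1, h2, h3⟩ := Seed.exists_centre hS hθ (Dq + e) c₀
  obtain ⟨g', hg', h4⟩ := mem_clI.1 hg ((Dq + e) / p)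
  have hp0 : (p : ℝ) ≠ 0 := by exact_mod_cast hp.out.ne_zero
  have h5 : v.Ge (Dq + e) (g ^ p - g' ^ p) := by
    rw [← sub_pow_char]
    refine (TWM.ge_pow h4 p).mono (le_of_eq ?_)
    rw [mul_div_cancel₀ _ hp0]
  refine (hS.mid θ' h1 (by
    have := hc.add h2
    rwa [sub_add_sub_cancel] at this)).hi e he g' hg' ?_
  have e1 : (taylor θ' A).coeff q - g' ^ p = ((taylor θ A).coeff q - g ^ p) +
    ((taylor θ' A).coeff q - (taylor θ A).coeff q) + (g ^ p - g' ^ p) := by ring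
  rw [e1]
  exact (hge.add (h3 q)).add h5

omit hp [CharP Ω p] in
theorem Seed.low' (hS : Seed p v r D K a q F z s Dq e₀ c₀ A) {θ : Ω} (hθ : θ ∈ clI v F)
    {c : ℝ} (hc : c₀ ≤ c) (hc' : Gt v c (z - θ)) : ∃ g ∈ PI F,
      ∀ m : ℕ, m < q → v.Ge (Dq + q * c - m * c) ((taylor θ A - g ^ p).coeff m) := by
  obtain ⟨θ', h1, h2, h3⟩ := Seed.exists_centre hS hθ (Dq + q * |c|) (c + 1)
  have h4 : Gt v c (z - θ') := by
    have h5 : Gt v c (θ - θ') := fun h0 => by
      have := h2 h0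
      linarith
    have := hc'.add h5
    rwa [sub_add_sub_cancel] at this
  have h6 : z - θ' ≠ 0 :=
    sub_ne_zero.2 (hS.ty.far θ' (isAlgebraic_algebraMap (R := F) (A := Ω) (⟨θ', h1⟩ : F))).1
  obtain ⟨e, he, g, hg, -, h7⟩ := hS.low θ' h1 c hc (h4 h6)
  refine ⟨g, hg, fun m hm => ?_⟩
  have h8 := ((h7 m hm).mono (by linarith : Dq + q * c - m * c ≤ Dq + q * c + e - m * c)).sub
    ((h3 m).mono (by
      have h9 : (m : ℝ) ≤ q := by exact_mod_cast hm.le
      have h10 : ((q : ℝ) - m) * c ≤ (q - m) * |c| :=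
        mul_le_mul_of_nonneg_left (le_abs_self c) (by linarith)
      have h11 : (0 : ℝ) ≤ m * |c| := by positivity
      nlinarith))
  have e1 : (taylor θ' A - g ^ p).coeff m - ((taylor θ' A).coeff m - (taylor θ A).coeff m) =
      (taylor θ A - g ^ p).coeff m := by
    rw [coeff_sub, coeff_sub]
    ring
  rwa [e1] at h8

end Seed

/-! ### The coefficients at `y` -/

theorem map_taylor_eval (y : Ω) (δ : Polynomial Ω) (P : Polynomial (Polynomial Ω)) :
    (taylor δ P).map (evalRingHom y) = taylor (δ.eval y) (P.map (evalRingHom y)) := by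
  rw [taylor_apply, taylor_apply, Polynomial.map_comp, Polynomial.map_add, map_X, map_C,
    coe_evalRingHom]

theorem coeff_taylor_eval (y : Ω) (δ : Polynomial Ω) (P : Polynomial (Polynomial Ω)) (m : ℕ) :
    ((taylor δ P).coeff m).eval y = (taylor (δ.eval y) (P.map (evalRingHom y))).coeff m := by
  rw [← map_taylor_eval, coeff_map, coe_evalRingHom]

/-- Bounds at `y` and change of the centre. -/
theorem recentre_eval {P : Polynomial (Polynomial Ω)} {c lam : ℝ} {δ : Polynomial Ω}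
    (hδ : v.Ge c (δ.eval y)) (h : ∀ i : ℕ, v.Ge (lam - i * c) ((P.coeff i).eval y)) (m : ℕ) :
    v.Ge (lam - m * c) (((taylor δ P).coeff m).eval y) := by
  rw [coeff_taylor_eval]
  have h1 : GB v c lam (taylor 0 (P.map (evalRingHom y))) := fun i => by
    rw [taylor_zero, coeff_map, coe_evalRingHom]
    exact h i
  exact GB.centre (z := 0) (by rwa [sub_zero]) h1 m

theorem taylor_mem_PII {N : IntermediateField k Ω} {P : Polynomial (Polynomial Ω)} (hP : PII N P)
    {δ : Polynomial Ω} (hδ : δ ∈ PI N) : PII N (taylor δ P) := by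
  intro i
  rw [taylor_coeff_sum δ P le_rfl i]
  exact sum_mem fun j _ => mul_mem (mul_mem (natCast_mem _ _) (hP _)) (pow_mem hδ _)

/-! ### Small perturbations -/

variable {p : ℕ} {N : IntermediateField k Ω} {b lam : ℝ} {G H : Polynomial Ω}

theorem DG.add_small (h : DG p v N y b lam G) (h' : GB v b lam (taylor y H)) :
    DG p v N y b lam (G + H) := by
  intro ε hε
  obtain ⟨g, hg, h1⟩ := h ε hε
  refine ⟨g, hg, ?_⟩
  have e1 : G + H - g ^ p = (G - g ^ p) + H := by ring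
  rw [e1, map_add]
  exact h1.add (h'.mono (by linarith))

theorem DI.add_small {i : ℕ} (h : DI p v N y i b lam G) (h' : GB v b lam (taylor y H)) :
    DI p v N y i b lam (G + H) :=
  ⟨fun hi => (h.1 hi).add_small h', fun hi => by
    rw [map_add]
    exact (h.2 hi).add h'⟩

theorem DI.sub_small {i : ℕ} (h : DI p v N y i b lam G) (h' : GB v b lam (taylor y H)) :
    DI p v N y i b lam (G - H) := by
  rw [sub_eq_add_neg]
  refine h.add_small ?_
  rw [map_neg]
  exact h'.neg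

theorem taylor_coeff_top {q : ℕ} {B : Polynomial (Polynomial Ω)} (hB : B.natDegree ≤ q)
    (θ : Polynomial Ω) : (taylor θ B).coeff q = B.coeff q := by
  classical
  rw [taylor_coeff_sum θ B hB, Finset.sum_eq_single 0]
  · rw [Nat.zero_add, Nat.choose_self, Nat.cast_one, one_mul, pow_zero, mul_one]
  · intro j _ hj
    rw [coeff_eq_zero_of_natDegree_lt (by omega : B.natDegree < j + q), mul_zero, zero_mul]
  · intro h
    exact absurd (Finset.mem_range.2 (Nat.succ_pos q)) h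

/-- The constraint of the full polynomial gives the constraint of the cut polynomial. -/
theorem Con.cut [IsAlgClosed Ω] {q : ℕ} (hpq : p ∣ q) {A B : Polynomial (Polynomial Ω)}
    {θ₁ : Polynomial Ω} (hθ₁ : θ₁ ∈ PI N) (hB : B.natDegree ≤ q) {Dq s η c' b₀ : ℝ} (hη : 0 ≤ η)
    (hA : ∀ c b : ℝ, Con p q v N y z c b A)
    (hhi : ∀ b lam : ℝ, DG p v N y b lam (B.coeff q) → lam ≤ Dq)
    (hH : ∀ b : ℝ, b₀ ≤ b → GBL v y b c' (Dq + q * s + η) (taylor θ₁ A - B))
    (hs : ∀ θ ∈ PI N, v (z - θ.eval y) < s) : Con p q v N y (z - θ₁.eval y) c' b₀ B := by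
  intro b w Q θ c κ hb hbw hQ hη' hθ hθb hcc hlt hDI i
  have hev : z - (θ + θ₁).eval y = z - θ₁.eval y - θ.eval y := by
    rw [eval_add]
    ring
  have h1 : c + (gval v y w Q - gval v y b Q) < s := by
    have := hs (θ + θ₁) (add_mem hθ hθ₁)
    rw [hev] at this
    linarith
  have ht : gval v y b Q ≤ gval v y w Q := gval_mono hbw.le
  have h2 : κ - q * c ≤ Dq := by
    refine hhi b _ ?_
    have := (hDI q).1 hpq
    rwa [taylor_coeff_top hB] at this
  have hq0 : (0 : ℝ) ≤ q := Nat.cast_nonneg q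
  have hsum : taylor (θ + θ₁) A = taylor θ B + taylor θ (taylor θ₁ A - B) := by
    rw [map_sub, taylor_taylor]
    ring
  have hHb : ∀ b' c'' κ' : ℝ, b ≤ b' → c ≤ c'' → κ' ≤ Dq + q * s →
      GBL v y b' c'' κ' (taylor θ (taylor θ₁ A - B)) := by
    intro b' c'' κ' hbb hc'' hκ'
    refine ((GBL.recentre ?_ (hH b' (hb.trans hbb))).radius_c (hcc.trans hc'')).mono (by linarith)
    exact GB.radius_le hθb hbb
  obtain ⟨lam, hlam⟩ : ∃ lam : ℝ, GB v b lam (taylor y θ₁) := ⟨_, GB_gval⟩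
  have h3 := hA (min c' lam) b b w Q (θ + θ₁) c κ le_rfl hbw hQ hη' (add_mem hθ hθ₁) (by
    rw [map_add]
    exact (hθb.mono (min_le_left _ _)).add (hlam.mono (min_le_right _ _)))
    ((min_le_left _ _).trans hcc) (by rwa [hev]) (fun i => by
      rw [hsum, coeff_add]
      refine (hDI i).add_small ?_
      exact hHb b c κ le_rfl le_rfl (by nlinarith) i) i
  have e1 : (taylor θ B).coeff i = (taylor (θ + θ₁) A).coeff i -
      (taylor θ (taylor θ₁ A - B)).coeff i := by
    rw [hsum, coeff_add]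
    ring
  rw [e1]
  refine h3.sub_small ?_
  exact hHb w _ _ hbw.le (by linarith) (by nlinarith) i

/-! ### The data of SOFT J -/

/-- The levels above a small level are small. -/
theorem Evl.up_closed {P : ℝ → Prop} (h : Evl v C y P) :
    Evl v C y fun b => ∀ b' : ℝ, b ≤ b' → P b' := by
  obtain ⟨ξ, h1, h2⟩ := h
  exact ⟨ξ, h1, fun b hb b' hb' => h2 b' (hb.trans_le hb')⟩

/-- A set of small levels contains a level below the distance of some algebraic element. -/
theorem Evl.exists_lt [IsAlgClosed Ω] (h0 : Ctx0 k v) (hfull : Full v C) (hy : Transcendental C y)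
    {P : ℝ → Prop} (h : Evl v C y P) : ∃ b₀ : ℝ, (∀ b : ℝ, b₀ ≤ b → P b) ∧
      ∃ η : Ω, IsAlgebraic C η ∧ b₀ < v (y - η) := by
  obtain ⟨ξ, h1, h2⟩ := h
  obtain ⟨η, h3, h4⟩ := TW.exists_closer h0 hfull hy h1
  exact ⟨(v (y - ξ) + v (y - η)) / 2, fun b hb => h2 b (by linarith), η, h3, by linarith⟩

section Main

variable [hp : Fact p.Prime] [CharP Ω p] {K : IntermediateField k Ω} {a : Ω} {r D q : ℕ}
  {s Dq e₀ c₀ : ℝ} {A : Polynomial Ω}

/-- **The data of SOFT J from a seed**; the constraint for the chosen polynomials over `C[Y]`. -/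
theorem exists_softD' [IsAlgClosed Ω]
    (hS : Seed p v r D K a q F z s Dq e₀ c₀ A) (hpq : p ∣ q) (hq : 0 < q)
    (hy : Transcendental C y)
    (hden : ∀ w ∈ clI v F, ∀ B : ℝ, ∃ f ∈ PI C, v.Ge B (w - f.eval y))
    (hCF : adj C y ≤ clI v F)
    (happ : ∀ θ₀ ∈ PI C, ∀ M : ℝ, ∃ f : ℕ → Polynomial Ω, (∀ l, f l ∈ PI C) ∧
      (∀ l, v.Ge M ((taylor (θ₀.eval y) A).coeff l - (f l).eval y)) ∧
      ∀ c' b₀ : ℝ, Con p q v (clI v C) y z c' b₀ (taylor (-θ₀)
        (∑ l ∈ Finset.range (A.natDegree + 1), Polynomial.C (f l) * Polynomial.X ^ l))) :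
    ∃ A₁ : Polynomial (Polynomial Ω), PII C A₁ ∧ A₁.natDegree ≤ q ∧ A₁.coeff q ≠ 0 ∧
      ∀ c < s, ∃ θ ∈ PI C, ∃ c' : ℝ, c < c' ∧ c' < v (z - θ.eval y) ∧
        Evl v C y fun b₀ =>
          SoftD p q v (clI v C) y (z - θ.eval y) s Dq c' b₀ (taylor θ A₁) := by
  classical
  have hp0 : 0 < p := hp.out.pos
  set n := A.natDegree with hn
  have he0 := hS.pos
  have hn0 : (0 : ℝ) ≤ n := Nat.cast_nonneg n
  have hq0 : (1 : ℝ) ≤ q := by exact_mod_cast hq
  -- closures
  have hCN : C ≤ clI v C := le_clI C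
  have hCF' : clI v C ≤ clI v F := by
    have h1 := clI_mono (v := v) (((D2P.mem_adj_self C y).2).trans hCF)
    rwa [clI_clI] at h1
  have hyF : y ∈ clI v F := hCF (D2P.mem_adj_self C y).1
  have hevF : ∀ g ∈ PI (clI v C), g.eval y ∈ clI v F := fun g hg =>
    D2P.adj_le hCF' hyF (TWM.eval_mem_adj hg y)
  have hTL : TL v (clI v F) z s := TWC.TL.base hS.ty (le_clI F) (clI_mono (le_algc F))
  have hfar : ∀ g ∈ PI (clI v C), z ≠ g.eval y ∧ v (z - g.eval y) < s := fun g hg =>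
    hTL.far _ (isAlgebraic_algebraMap (R := clI v F) (A := Ω) (⟨g.eval y, hevF g hg⟩ : clI v F))
  have hmono : PI C ≤ PI (clI v C) := TWM.PI_mono hCN
  have hlim : ∀ c < s, ∃ g ∈ PI C, c < v (z - g.eval y) := by
    intro c hc
    obtain ⟨w, hw, h1⟩ := hS.ty.lim ((s - c) / 2) (by linarith)
    obtain ⟨g, hg, h2⟩ := hden w (le_clI F hw) s
    refine ⟨g, hg, ?_⟩
    have h3 := h1.add (h2.mono (by linarith : s - (s - c) / 2 ≤ s))
    rw [sub_add_sub_cancel] at h3
    have := h3 (sub_ne_zero.2 (hfar g (hmono hg)).1)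
    linarith
  -- the radius
  obtain ⟨c₁, h1, h2, h3, hder⟩ := Seed.exists_der hS hpq hq (cs := s - e₀ / (2 * (n + 1))) (by
    have : 0 < e₀ / (2 * ((n : ℝ) + 1)) := div_pos hS.pos (by positivity)
    linarith)
  obtain ⟨θ₀, hθ₀, h4⟩ := hlim c₁ h3
  have hz0 : v.Ge c₁ (z - θ₀.eval y) := fun _ => h4.le
  obtain ⟨cz, hcz0, hcz⟩ : ∃ cz : ℝ, cz ≤ 0 ∧ cz ≤ c₁ := ⟨min 0 c₁, min_le_left _ _,
    min_le_right _ _⟩
  -- the precision
  have hb0 : 0 ≤ (q : ℝ) * |s| := by positivity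
  have hb1 : 0 ≤ (q : ℝ) * |c₁| := by positivity
  have hb2 : 0 ≤ ((n : ℝ) + 1) * |c₁| := by positivity
  have hb3 : n * cz ≤ 0 := mul_nonpos_of_nonneg_of_nonpos hn0 hcz0
  have hb5 := abs_nonneg Dq
  have hb7 := le_abs_self Dq
  obtain ⟨M, hM⟩ : ∃ M : ℝ, M = |Dq| + q * |s| + q * |c₁| + (n + 1) * |c₁| + e₀ + 1 :=
    ⟨_, rfl⟩
  set A' := taylor (θ₀.eval y) A with hA'
  have hA'F : A' ∈ PI (clI v F) :=
    TWM.taylor_mem_PI (TWM.PI_mono (le_clI F) hS.mem) (hevF _ (hmono hθ₀))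
  have hn' : A'.natDegree = n := natDegree_taylor A _
  obtain ⟨f, hfC, hf, hN₁⟩ := happ θ₀ hθ₀ (M - n * cz)
  set A₀ : Polynomial (Polynomial Ω) :=
    ∑ l ∈ Finset.range (n + 1), Polynomial.C (f l) * Polynomial.X ^ l with hA₀
  have hcoef : ∀ i, A₀.coeff i = if i ≤ n then f i else 0 := by
    intro i
    rw [hA₀, finsetSum_coeff]
    simp only [coeff_C_mul, coeff_X_pow, mul_ite, mul_one, mul_zero]
    rw [Finset.sum_ite_eq]
    simp
  have hA₀C : PII C A₀ := fun i => by
    rw [hcoef]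
    split_ifs
    exacts [hfC i, zero_mem _]
  have hA₀n : A₀.natDegree ≤ n := by
    rw [natDegree_le_iff_coeff_eq_zero]
    intro i hi
    rw [hcoef, if_neg (by omega)]
  have hnear : ∀ i, v.Ge (M - n * cz) (A'.coeff i - (A₀.coeff i).eval y) := by
    intro i
    rw [hcoef]
    split_ifs with hi
    · exact hf i
    · rw [eval_zero, sub_zero, coeff_eq_zero_of_natDegree_lt (by omega)]
      exact RVal.Ge.zero
  have hnear0 : ∀ i, v.Ge M (A'.coeff i - (A₀.coeff i).eval y) := fun i =>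
    (hnear i).mono (by linarith)
  -- the difference at `y`
  have hdd : (A' - A₀.map (evalRingHom y)).natDegree ≤ n :=
    (natDegree_sub_le _ _).trans (max_le hn'.le ((natDegree_map_le).trans hA₀n))
  have hdc : ∀ i, v.Ge (M - n * cz) ((A' - A₀.map (evalRingHom y)).coeff i) := by
    intro i
    rw [coeff_sub, coeff_map, coe_evalRingHom]
    exact hnear i
  have hnear1 : ∀ θ : Polynomial Ω, v.Ge c₁ (z - θ.eval y) → ∀ i,
      v.Ge M ((taylor (θ.eval y) A).coeff i - ((taylor (θ - θ₀) A₀).coeff i).eval y) := by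
    intro θ hθ i
    have e1 : taylor (θ.eval y) A = taylor ((θ - θ₀).eval y) A' := by
      rw [hA', taylor_taylor, eval_sub, sub_add_cancel]
    rw [coeff_taylor_eval, e1, ← coeff_sub, ← map_sub]
    have e2 : (θ - θ₀).eval y = (z - θ₀.eval y) - (z - θ.eval y) := by
      rw [eval_sub]
      ring
    refine (taylor_coeff_ge hdd hcz0 ?_ hdc i).mono (by linarith)
    rw [e2]
    exact (hz0.sub hθ).mono hcz
  -- the coefficients of index `> q`
  have hHv : ∀ i : ℕ, v.Ge (Dq + q * s + e₀ / 2 - i * c₁) (((A₀ - cutq q A₀).coeff i).eval y) := by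
    intro m
    rw [coeff_sub, cutq_coeff]
    by_cases hqm : m ≤ q
    · rw [if_pos hqm, sub_self, eval_zero]
      exact RVal.Ge.zero
    rw [if_neg hqm, sub_zero]
    by_cases hmn' : m ≤ n
    · have h9 := Seed.high' hS (hevF _ (hmono hθ₀)) (fun _ => by linarith) (not_le.1 hqm)
      have hmn : (m : ℝ) ≤ n := by exact_mod_cast hmn'
      have hm0 : (0 : ℝ) ≤ m := Nat.cast_nonneg m
      have h10 : m * (s - c₁) ≤ e₀ / 2 := by
        have h11 : (m : ℝ) * (s - c₁) ≤ (n + 1) * (s - c₁) :=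
          mul_le_mul_of_nonneg_right (by linarith) (by linarith)
        have h12 : ((n : ℝ) + 1) * (s - c₁) ≤ (n + 1) * (e₀ / (2 * (n + 1))) :=
          mul_le_mul_of_nonneg_left (by linarith) (by linarith)
        have h13 : ((n : ℝ) + 1) * (e₀ / (2 * (n + 1))) = e₀ / 2 := by
          field_simp
        linarith
      have e1 : (A₀.coeff m).eval y = A'.coeff m - (A'.coeff m - (A₀.coeff m).eval y) := by ring
      rw [e1]
      refine (h9.mono (by nlinarith)).sub ((hnear0 m).mono ?_)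
      have h15 : (q : ℝ) * s ≤ q * |s| :=
        mul_le_mul_of_nonneg_left (le_abs_self s) (by linarith)
      have h16 : -(m * c₁) ≤ (n + 1) * |c₁| := by
        have h12 : -(m * c₁) ≤ m * |c₁| := by
          have := neg_le_abs c₁
          nlinarith
        have h13 : (m : ℝ) * |c₁| ≤ (n + 1) * |c₁| :=
          mul_le_mul_of_nonneg_right (by linarith) (abs_nonneg c₁)
        linarith
      rw [hM]
      linarith
    · rw [hcoef, if_neg hmn', eval_zero]
      exact RVal.Ge.zero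
  have hHC : PII C (A₀ - cutq q A₀) := fun i => by
    rw [coeff_sub]
    exact sub_mem (hA₀C i) (cutq_mem hA₀C i)
  have hHE := evl_GBL hy hHC hHv
  -- the derivative
  have hdE : Evl v C y fun b => GBL v y b c₁ (Dq + (q - 1) * s) (derivative A₀) := by
    have hd : GB v c₁ (Dq + (q - 1) * s) (taylor (θ₀.eval y) (derivative A)) :=
      GB.centre (z := z) (by rw [← neg_sub]; exact hz0.neg) hder
    refine evl_GBL hy (fun i => ?_) fun i => ?_
    · rw [coeff_derivative]
      exact mul_mem (hA₀C _) (add_mem (natCast_mem _ _) (one_mem _))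
    · have h7 := hd i
      rw [← derivative_taylor', ← hA', coeff_derivative] at h7
      rw [coeff_derivative]
      by_cases hi : i + 1 ≤ n
      · have e1 : (A₀.coeff (i + 1) * ((i : Polynomial Ω) + 1)).eval y =
            A'.coeff (i + 1) * ((i : Ω) + 1) -
              (A'.coeff (i + 1) - (A₀.coeff (i + 1)).eval y) * ((i : Ω) + 1) := by
          rw [eval_mul, eval_add, eval_natCast, eval_one]
          ring
        have h8 : v.Ge 0 ((i : Ω) + 1) := by
          have := TWM.ge_natCast v (i + 1)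
          push_cast at this
          exact this
        rw [e1]
        refine h7.sub (((hnear0 (i + 1)).mul h8).mono ?_)
        rw [hM]
        have h9 : ((q : ℝ) - 1) * s ≤ q * |s| := by
          have h10 : ((q : ℝ) - 1) * s ≤ (q - 1) * |s| :=
            mul_le_mul_of_nonneg_left (le_abs_self s) (by linarith)
          nlinarith [abs_nonneg s]
        have h11 : -(i * c₁) ≤ (n + 1) * |c₁| := by
          have h12 : -(i * c₁) ≤ i * |c₁| := by
            have := neg_le_abs c₁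
            nlinarith [(Nat.cast_nonneg i : (0 : ℝ) ≤ i)]
          have h13 : (i : ℝ) * |c₁| ≤ (n + 1) * |c₁| :=
            mul_le_mul_of_nonneg_right (by
              have : (i : ℝ) + 1 ≤ n := by exact_mod_cast hi
              linarith) (abs_nonneg c₁)
          linarith
        linarith
      · rw [hcoef, if_neg hi, zero_mul, eval_zero]
        exact RVal.Ge.zero
  -- the coefficient of index `q`
  have hcq : (cutq q A₀).coeff q = A₀.coeff q := by rw [cutq_coeff, if_pos le_rfl]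
  have hcd : (cutq q A₀).natDegree ≤ q := TWJ2.cutq_natDegree q A₀
  have hhi : ∀ b lam : ℝ, DG p v (clI v C) y b lam (A₀.coeff q) → lam ≤ Dq := by
    intro b lam hDG
    by_contra hlt
    push Not at hlt
    obtain ⟨g, hg, h5⟩ := hDG ((lam - Dq) / 2) (by linarith)
    have h6 := h5 0
    rw [taylor_coeff_zero] at h6
    have he1 := min_le_left ((lam - Dq) / 2) 1
    have he2 := min_le_right ((lam - Dq) / 2) 1
    refine Seed.mid_hi hS (hevF _ (hmono hθ₀)) (fun _ => by linarith)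
      (e := min ((lam - Dq) / 2) 1) (lt_min (by linarith) one_pos) (hevF g hg) ?_
    have e1 : (taylor (θ₀.eval y) A).coeff q - g.eval y ^ p = (A₀.coeff q - g ^ p).eval y +
        (A'.coeff q - (A₀.coeff q).eval y) := by
      rw [eval_sub, eval_pow, hA']
      ring
    rw [e1]
    refine (h6.mono (by push_cast; linarith)).add ((hnear0 q).mono ?_)
    rw [hM]
    linarith
  have hqne : A₀.coeff q ≠ 0 := by
    intro hz
    have := hhi 0 (Dq + 1) (fun ε hε => ⟨0, zero_mem _, by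
      rw [hz, zero_pow hp0.ne', sub_zero, map_zero]
      exact GB.zero⟩)
    linarith
  refine ⟨taylor (-θ₀) (cutq q A₀), taylor_mem_PII (cutq_mem hA₀C) (neg_mem hθ₀), ?_, ?_, ?_⟩
  · rw [natDegree_taylor]
    exact hcd
  · rw [taylor_coeff_top hcd, hcq]
    exact hqne
  intro c hc
  have hcs : max c c₁ < s := max_lt hc h3
  obtain ⟨c', hc'⟩ : ∃ c' : ℝ, c' = (max c c₁ + s) / 2 := ⟨_, rfl⟩
  have hcc : c < c' := by
    have := le_max_left c c₁
    linarith
  have hc1c : c₁ < c' := by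
    have := le_max_right c c₁
    linarith
  have hc's : c' < s := by linarith
  obtain ⟨θ, hθ, hθz⟩ := hlim c' hc's
  refine ⟨θ, hθ, c', hcc, hθz, ?_⟩
  have hcz1 : v.Ge c₁ (z - θ.eval y) := fun _ => by linarith
  have hδC : θ - θ₀ ∈ PI C := sub_mem hθ hθ₀
  have hδy : v.Ge c₁ ((θ - θ₀).eval y) := by
    have e2 : (θ - θ₀).eval y = (z - θ₀.eval y) - (z - θ.eval y) := by
      rw [eval_sub]
      ring
    rw [e2]
    exact hz0.sub hcz1
  have hδE := evl_GB hy hδC hδy
  have hBC : PII C (taylor (θ - θ₀) (cutq q A₀)) := taylor_mem_PII (cutq_mem hA₀C) hδC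
  have hBd : (taylor (θ - θ₀) (cutq q A₀)).natDegree ≤ q := by
    rw [natDegree_taylor]
    exact hcd
  have htt : taylor θ (taylor (-θ₀) (cutq q A₀)) = taylor (θ - θ₀) (cutq q A₀) := by
    rw [taylor_taylor, ← sub_eq_add_neg]
  have hBq : (taylor (θ - θ₀) (cutq q A₀)).coeff q = A₀.coeff q := by
    rw [taylor_coeff_top hcd, hcq]
  -- the coefficients of index `< q`
  have hloE : Evl v C y fun b => ∀ m ∈ Finset.range q, p ∣ m → ∃ g ∈ PI C,
      GB v b (Dq + (q - m) * c') (taylor y ((taylor (θ - θ₀) (cutq q A₀)).coeff m - g ^ p)) := by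
    obtain ⟨g, hg, h7⟩ := Seed.low' hS (hevF _ (hmono hθ)) (c := c') (by linarith)
      (fun _ => hθz)
    refine Evl.finset _ fun m hm => ?_
    by_cases hpm : p ∣ m
    · have h9 := h7 m (Finset.mem_range.1 hm)
      rw [coeff_sub, coeff_pow_dvd, if_pos hpm] at h9
      have hmq : (m : ℝ) ≤ q := by exact_mod_cast (Finset.mem_range.1 hm).le
      have hm0 : (0 : ℝ) ≤ m := Nat.cast_nonneg m
      have hbd : Dq + (q - m) * c' ≤ M := by
        have h11 : ((q : ℝ) - m) * c' ≤ q * |s| := by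
          have h12 : ((q : ℝ) - m) * c' ≤ (q - m) * s :=
            mul_le_mul_of_nonneg_left hc's.le (by linarith)
          have h13 : ((q : ℝ) - m) * s ≤ (q - m) * |s| :=
            mul_le_mul_of_nonneg_left (le_abs_self s) (by linarith)
          have h14 : ((q : ℝ) - m) * |s| ≤ q * |s| :=
            mul_le_mul_of_nonneg_right (by linarith) (abs_nonneg s)
          linarith
        rw [hM]
        linarith
      obtain ⟨g', hg', h10⟩ := hden (g.coeff (m / p)) (le_clI F (hg _)) ((Dq + (q - m) * c') / p)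
      have h11 : v.Ge (Dq + (q - m) * c') (g.coeff (m / p) ^ p - g'.eval y ^ p) := by
        rw [← sub_pow_char]
        refine (TWM.ge_pow h10 p).mono (le_of_eq ?_)
        rw [mul_div_cancel₀]
        exact_mod_cast hp0.ne'
      have h12 := recentre_eval hδy hHv m
      have hval' : v.Ge (Dq + (q - m) * c')
          (((taylor (θ - θ₀) (cutq q A₀)).coeff m - g' ^ p).eval y) := by
        have e1 : ((taylor (θ - θ₀) (cutq q A₀)).coeff m - g' ^ p).eval y =
            ((taylor (θ.eval y) A).coeff m - g.coeff (m / p) ^ p) -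
            ((taylor (θ.eval y) A).coeff m - ((taylor (θ - θ₀) A₀).coeff m).eval y) +
            (g.coeff (m / p) ^ p - g'.eval y ^ p) -
            ((taylor (θ - θ₀) (A₀ - cutq q A₀)).coeff m).eval y := by
          rw [map_sub, coeff_sub, eval_sub, eval_sub, eval_pow]
          ring
        rw [e1]
        refine (((h9.mono (by linarith)).sub ((hnear1 θ hcz1 m).mono hbd)).add h11).sub
          (h12.mono ?_)
        nlinarith [mul_nonneg (by linarith : (0 : ℝ) ≤ q) (by linarith : (0 : ℝ) ≤ s - c'),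
          mul_nonneg hm0 (by linarith : (0 : ℝ) ≤ c' - c₁)]
      exact (evl_GB hy (sub_mem (hBC m) (pow_mem hg' p)) hval').mono
        fun b hb _ => ⟨g', hg', hb⟩
    · exact Evl.of_all fun b h => absurd h hpm
  refine Evl.mono (Evl.up_closed (((hδE.and hHE).and hdE).and hloE)) fun b₀ hb => ?_
  rw [htt]
  obtain ⟨⟨⟨hb1', hb2'⟩, hb3'⟩, hb4'⟩ := hb b₀ le_rfl
  refine ⟨fun i => hmono (hBC i), hBd, fun g hg h5 => ?_, fun g hg => ?_, fun c'' hc'' => ?_, hθz,
    fun b lam hDG => hhi b lam (by rwa [hBq] at hDG), fun m hm hpm => ?_, fun l hl => ?_, ?_⟩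
  · refine (hfar (g + θ) (add_mem hg (hmono hθ))).1 ?_
    rw [eval_add, ← h5, sub_add_cancel]
  · have h6 := (hfar (g + θ) (add_mem hg (hmono hθ))).2
    have e1 : z - θ.eval y - g.eval y = z - (g + θ).eval y := by
      rw [eval_add]
      ring
    rwa [e1]
  · obtain ⟨g, hg, h6⟩ := hlim c'' hc''
    refine ⟨g - θ, sub_mem (hmono hg) (hmono hθ), ?_⟩
    have e1 : z - θ.eval y - (g - θ).eval y = z - g.eval y := by
      rw [eval_sub]
      ring
    rwa [e1]
  · obtain ⟨g, hg, h6⟩ := hb4' m (Finset.mem_range.2 hm) hpm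
    exact fun ε hε => ⟨g, hmono hg, h6.mono (by linarith)⟩
  · have h6 : GBL v y b₀ c₁ (Dq + (q - 1) * s) (derivative (taylor (θ - θ₀) (cutq q A₀))) := by
      rw [derivative_taylor']
      exact (hb3'.cutq_derivative q).recentre hb1'
    refine (h6.coeff_of_derivative hl).mono ?_
    have h7 : (1 : ℝ) ≤ l := by
      have : 1 ≤ l := Nat.one_le_iff_ne_zero.2 fun h0 => hl (h0 ▸ dvd_zero p)
      exact_mod_cast this
    nlinarith [mul_nonneg (sub_nonneg.2 h7) (by linarith : (0 : ℝ) ≤ c' - c₁)]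
  · refine Con.cut hpq (hmono hθ) hBd (η := e₀ / 2) (by linarith)
      (A := taylor (-θ₀) A₀) hN₁ (fun b lam hDG => hhi b lam (by rwa [hBq] at hDG))
      (fun b hbb => ?_) fun g hg => (hfar g hg).2
    obtain ⟨⟨⟨hb1'', hb2''⟩, -⟩, -⟩ := hb b hbb
    have e1 : taylor θ (taylor (-θ₀) A₀) - taylor (θ - θ₀) (cutq q A₀) =
        taylor (θ - θ₀) (A₀ - cutq q A₀) := by
      rw [map_sub, taylor_taylor, ← sub_eq_add_neg]
    rw [e1]
    exact (GBL.recentre hb1'' hb2'').radius_c hc1c.le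

/-- **The data of SOFT J from a seed**; the constraint for all the polynomials near a
representation. -/
theorem exists_softD [IsAlgClosed Ω]
    (hS : Seed p v r D K a q F z s Dq e₀ c₀ A) (hpq : p ∣ q) (hq : 0 < q)
    (hy : Transcendental C y)
    (hden : ∀ w ∈ clI v F, ∀ B : ℝ, ∃ f ∈ PI C, v.Ge B (w - f.eval y))
    (hCF : adj C y ≤ clI v F)
    (hcon : ∀ h ∈ K, h ≠ 0 → ∀ g ∈ K, ∃ N₁ : ℝ, ∀ A₁ : Polynomial (Polynomial Ω),
      PII (clI v C) A₁ → v.Ge N₁ (a * h ^ p - g ^ p - A₁.evalEval y z) → ∀ c' b₀ : ℝ,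
        Con p q v (clI v C) y z c' b₀ A₁) :
    ∃ A₁ : Polynomial (Polynomial Ω), PII C A₁ ∧ A₁.natDegree ≤ q ∧ A₁.coeff q ≠ 0 ∧
      ∀ c < s, ∃ θ ∈ PI C, ∃ c' : ℝ, c < c' ∧ c' < v (z - θ.eval y) ∧
        Evl v C y fun b₀ =>
          SoftD p q v (clI v C) y (z - θ.eval y) s Dq c' b₀ (taylor θ A₁) := by
  classical
  have hCN : C ≤ clI v C := le_clI C
  have hmono : PI C ≤ PI (clI v C) := TWM.PI_mono hCN
  have hCF' : clI v C ≤ clI v F := by
    have h1 := clI_mono (v := v) (((D2P.mem_adj_self C y).2).trans hCF)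
    rwa [clI_clI] at h1
  have hevF : ∀ g ∈ PI (clI v C), g.eval y ∈ clI v F := fun g hg =>
    D2P.adj_le hCF' (hCF (D2P.mem_adj_self C y).1) (TWM.eval_mem_adj hg y)
  obtain ⟨h, hh, hh0, g₀, hg₀, hrep⟩ := hS.rep
  obtain ⟨N₁, hN₁⟩ := hcon h hh hh0 g₀ hg₀
  refine exists_softD' hS hpq hq hy hden hCF fun θ₀ hθ₀ M => ?_
  set n := A.natDegree with hn
  set A' := taylor (θ₀.eval y) A with hA'
  have hn' : A'.natDegree = n := natDegree_taylor A _
  have hA'F : A' ∈ PI (clI v F) :=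
    TWM.taylor_mem_PI (TWM.PI_mono (le_clI F) hS.mem) (hevF _ (hmono hθ₀))
  obtain ⟨cz, hcz0, hcz⟩ : ∃ cz : ℝ, cz ≤ 0 ∧ v.Ge cz (z - θ₀.eval y) :=
    ⟨min 0 (v (z - θ₀.eval y)), min_le_left _ _, (RVal.ge_self _).mono (min_le_right _ _)⟩
  have hfl : ∀ l : ℕ, ∃ f ∈ PI C, v.Ge (max M (N₁ - n * cz)) (A'.coeff l - f.eval y) := fun l =>
    hden _ (hA'F l) _
  choose f hfC hf using hfl
  refine ⟨f, hfC, fun l => (hf l).mono (le_max_left _ _), ?_⟩
  set A₀ : Polynomial (Polynomial Ω) :=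
    ∑ l ∈ Finset.range (n + 1), Polynomial.C (f l) * Polynomial.X ^ l with hA₀
  have hcoef : ∀ i, A₀.coeff i = if i ≤ n then f i else 0 := by
    intro i
    rw [hA₀, finsetSum_coeff]
    simp only [coeff_C_mul, coeff_X_pow, mul_ite, mul_one, mul_zero]
    rw [Finset.sum_ite_eq]
    simp
  have hA₀C : PII C A₀ := fun i => by
    rw [hcoef]
    split_ifs
    exacts [hfC i, zero_mem _]
  have hA₀n : A₀.natDegree ≤ n := by
    rw [natDegree_le_iff_coeff_eq_zero]
    intro i hi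
    rw [hcoef, if_neg (by omega)]
  have hnear : ∀ i, v.Ge (N₁ - n * cz) (A'.coeff i - (A₀.coeff i).eval y) := by
    intro i
    rw [hcoef]
    split_ifs with hi
    · exact (hf i).mono (le_max_right _ _)
    · rw [eval_zero, sub_zero, coeff_eq_zero_of_natDegree_lt (by omega)]
      exact RVal.Ge.zero
  have hdd : (A' - A₀.map (evalRingHom y)).natDegree ≤ n :=
    (natDegree_sub_le _ _).trans (max_le hn'.le ((natDegree_map_le).trans hA₀n))
  have hdc : ∀ i, v.Ge (N₁ - n * cz) ((A' - A₀.map (evalRingHom y)).coeff i) := by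
    intro i
    rw [coeff_sub, coeff_map, coe_evalRingHom]
    exact hnear i
  refine hN₁ _ (taylor_mem_PII (fun i => hmono (hA₀C i)) (neg_mem (hmono hθ₀))) ?_
  have e1 : a * h ^ p - g₀ ^ p - (taylor (-θ₀) A₀).evalEval y z =
      (taylor (z - θ₀.eval y) (A' - A₀.map (evalRingHom y))).coeff 0 := by
    rw [hrep, ← map_evalRingHom_eval, map_taylor_eval, taylor_coeff_zero, eval_sub, hA',
      taylor_eval, taylor_eval, eval_neg, sub_add_cancel, ← sub_eq_add_neg]
  rw [e1]
  refine (taylor_coeff_ge hdd hcz0 hcz hdc 0).mono ?_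
  linarith

/-- **The data of SOFT J from a seed**; the coefficients of the polynomial of the seed are
polynomials in `y`. -/
theorem exists_softD_exact [IsAlgClosed Ω]
    (hS : Seed p v r D K a q F z s Dq e₀ c₀ A) (hpq : p ∣ q) (hq : 0 < q)
    (hy : Transcendental C y)
    (hden : ∀ w ∈ clI v F, ∀ B : ℝ, ∃ f ∈ PI C, v.Ge B (w - f.eval y))
    (hCF : adj C y ≤ clI v F) {A₀ : Polynomial (Polynomial Ω)} (hA₀ : PII C A₀)
    (hmap : A₀.map (evalRingHom y) = A)
    (hcon : ∀ c' b₀ : ℝ, Con p q v (clI v C) y z c' b₀ A₀) :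
    ∃ A₁ : Polynomial (Polynomial Ω), PII C A₁ ∧ A₁.natDegree ≤ q ∧ A₁.coeff q ≠ 0 ∧
      ∀ c < s, ∃ θ ∈ PI C, ∃ c' : ℝ, c < c' ∧ c' < v (z - θ.eval y) ∧
        Evl v C y fun b₀ =>
          SoftD p q v (clI v C) y (z - θ.eval y) s Dq c' b₀ (taylor θ A₁) := by
  classical
  have hdeg : A₀.natDegree ≤ A.natDegree := by
    rw [natDegree_le_iff_coeff_eq_zero]
    intro i hi
    by_contra h0
    refine eval_ne hy (hA₀ i) h0 ?_
    rw [← coe_evalRingHom, ← coeff_map, hmap]
    exact coeff_eq_zero_of_natDegree_lt hi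
  refine exists_softD' hS hpq hq hy hden hCF fun θ₀ hθ₀ M =>
    ⟨fun l => (taylor θ₀ A₀).coeff l, fun l => taylor_mem_PII hA₀ hθ₀ l, fun l => ?_, ?_⟩
  · rw [coeff_taylor_eval, hmap, sub_self]
    exact RVal.Ge.zero
  · have e1 : ∑ l ∈ Finset.range (A.natDegree + 1),
        Polynomial.C ((taylor θ₀ A₀).coeff l) * Polynomial.X ^ l = taylor θ₀ A₀ :=
      ((taylor θ₀ A₀).as_sum_range_C_mul_X_pow' (Nat.lt_succ_of_le (by
        rw [natDegree_taylor]
        exact hdeg))).symm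
    rw [e1, taylor_taylor, neg_add_cancel, taylor_zero]
    exact hcon

end Main

end Pool.Agent.TWJ2.Soft
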