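import Pool.Agent.Lib.TWJ2.Gbl

/-!
# TANK W, ROW J: Gauss bounds at nearby levels
-/

set_option autoImplicit false

open Polynomial

namespace Pool.Agent.TWJ2

open Pool.Agent.H15JM (RVal)
open Pool.Agent.TWM (GB GB_radius)

universe u

variable {Ω : Type u} [Field Ω] {v : RVal Ω} {b b' c c' lam e : ℝ} {y : Ω} {f : Polynomial Ω}

/-- Gauss bounds hold, with a small loss, at all the levels to the left near enough. -/
theorem gb_left (he : 0 < e) (h : GB v b lam f) :
    ∃ d : ℝ, 0 < d ∧ ∀ b' : ℝ, b - d ≤ b' → b' ≤ b → GB v b' (lam - e) f := by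
  have hn : (0 : ℝ) < (f.natDegree : ℝ) + 1 := by positivity
  refine ⟨e / ((f.natDegree : ℝ) + 1), div_pos he hn, fun b' h1 h2 => ?_⟩
  refine GB.mono (GB_radius (D := f.natDegree) le_rfl h2 h) ?_
  have h3 : b - b' ≤ e / ((f.natDegree : ℝ) + 1) := by linarith
  rw [le_div_iff₀ hn] at h3
  nlinarith

/-- The levels with a Gauss bound `> lam` are open to the left. -/
theorem gb_left_open (he : 0 < e) (h : GB v b (lam + e) (taylor y f)) (b₀ : ℝ) (hb : b₀ < b) :
    ∃ b' : ℝ, b₀ < b' ∧ b' < b ∧ GB v b' (lam + e / 2) (taylor y f) := by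
  obtain ⟨d, hd, h1⟩ := gb_left (half_pos he) h
  refine ⟨max (b - d) ((b₀ + b) / 2), ?_, ?_, ?_⟩
  · exact lt_of_lt_of_le (by linarith) (le_max_right _ _)
  · exact max_lt (by linarith) (by linarith)
  · refine (h1 _ (le_max_left _ _) (max_le (by linarith) (by linarith))).mono ?_
    linarith

/-- The same in two variables. -/
theorem gbl_left {P : Polynomial (Polynomial Ω)} (he : 0 < e) (h : GBL v y b c lam P) :
    ∃ d : ℝ, 0 < d ∧ ∀ b' c' : ℝ, b - d ≤ b' → b' ≤ b → c - d ≤ c' → c' ≤ c →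
      GBL v y b' c' (lam - e) P := by
  classical
  have key : ∀ n : ℕ, ∃ d : ℝ, 0 < d ∧ ∀ i < n, ∀ b' c' : ℝ, b - d ≤ b' → b' ≤ b →
      c - d ≤ c' → c' ≤ c → GB v b' (lam - e - i * c') (taylor y (P.coeff i)) := by
    intro n
    induction n with
    | zero => exact ⟨1, one_pos, fun i hi => absurd hi (Nat.not_lt_zero i)⟩
    | succ n ih =>
      obtain ⟨d, hd, h1⟩ := ih
      obtain ⟨d', hd', h2⟩ := gb_left (half_pos he) (h n)
      have hn : (0 : ℝ) < (n : ℝ) + 1 := by positivity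
      have hq : 0 < e / 2 / ((n : ℝ) + 1) := div_pos (half_pos he) hn
      refine ⟨min d (min d' (e / 2 / ((n : ℝ) + 1))), lt_min hd (lt_min hd' hq),
        fun i hi b' c' hb hb' hc hc' => ?_⟩
      have m1 := min_le_left d (min d' (e / 2 / ((n : ℝ) + 1)))
      have m2 := (min_le_right d (min d' (e / 2 / ((n : ℝ) + 1)))).trans (min_le_left _ _)
      have m3 := (min_le_right d (min d' (e / 2 / ((n : ℝ) + 1)))).trans (min_le_right _ _)
      rcases Nat.lt_succ_iff_lt_or_eq.1 hi with h3 | h3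
      · exact h1 i h3 b' c' (by linarith) hb' (by linarith) hc'
      · subst h3
        refine (h2 b' (by linarith) hb').mono ?_
        have h4 : c - c' ≤ e / 2 / ((i : ℝ) + 1) := by linarith
        rw [le_div_iff₀ hn] at h4
        nlinarith
  obtain ⟨d, hd, h1⟩ := key (P.natDegree + 1)
  refine ⟨d, hd, fun b' c' hb hb' hc hc' i => ?_⟩
  by_cases hi : i < P.natDegree + 1
  · exact h1 i hi b' c' hb hb' hc hc'
  · rw [coeff_eq_zero_of_natDegree_lt (by omega), map_zero]
    exact GB.zero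

end Pool.Agent.TWJ2
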