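import Pool.Agent.Lib.TWJ2.Soft3

/-!
# TANK W, ROW J, SOFT J: (G1)

* `drop`: constraint and backward propagation;
* `G1`: the index `q` is responsible up to the distance of `z`, for all centres of degree smaller
  than the key degree.
-/

set_option autoImplicit false

open Polynomial

namespace Pool.Agent.TWJ2.Soft

open Pool.Agent.H15JM (RVal)
open Pool.Agent.TWM (PI PII Gt GB isAlgebraic_root)

universe u

variable {k Ω : Type u} [Field k] [Field Ω] [Algebra k Ω]

section G1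

variable {p q : ℕ} [hp : Fact p.Prime] [CharP Ω p] [IsAlgClosed Ω] {v : RVal Ω}
  {N : IntermediateField k Ω} {y z : Ω} {s Dq c' b₀ b u u' : ℝ} {f g G Q Qu θ δ : Polynomial Ω}
  {A : Polynomial (Polynomial Ω)}

/-- The distance of the leading coefficient. -/
noncomputable def hA (p q : ℕ) (v : RVal Ω) (N : IntermediateField k Ω) (y : Ω)
    (A : Polynomial (Polynomial Ω)) (b : ℝ) : ℝ := hv p v N y b (A.coeff q)

omit [CharP Ω p] in
theorem hA_spec (D : SoftD p q v N y z s Dq c' b₀ A) (b : ℝ) :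
    DG p v N y b (hA p q v N y A b) (A.coeff q) ∧
      ∀ lam, DG p v N y b lam (A.coeff q) → lam ≤ hA p q v N y A b := hv_spec (D.hi b)

omit [CharP Ω p] in
theorem hA_le (D : SoftD p q v N y z s Dq c' b₀ A) (b : ℝ) : hA p q v N y A b ≤ Dq :=
  D.hi b _ (hA_spec D b).1

omit [CharP Ω p] in
theorem hA_mono (D : SoftD p q v N y z s Dq c' b₀ A) {b b' : ℝ} (h : b ≤ b') :
    hA p q v N y A b ≤ hA p q v N y A b' := (hA_spec D b').2 _ ((hA_spec D b).1.up h)

omit hp [CharP Ω p] [IsAlgClosed Ω] in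
theorem c_lt_s (D : SoftD p q v N y z s Dq c' b₀ A) : c' < s := by
  have h1 := D.lt 0 (zero_mem _)
  rw [eval_zero, sub_zero] at h1
  exact D.cen.trans h1

/-- Constraint and backward propagation. -/
theorem drop (hN : Cj v N) (hy : Transcendental N y) (D : SoftD p q v N y z s Dq c' b₀ A)
    (hq : 0 < q) (hpq : p ∣ q) (hQ : Ky v N y b Q) (hb : b₀ ≤ b) (hθ : θ ∈ PI N)
    (hθc : GB v b c' (taylor y θ))
    (hF : ¬ FG p q v N y (hA p q v N y A) A b θ (v (z - θ.eval y))) :
    ∃ (i : ℕ) (c : ℝ), i < q ∧ p ∣ i ∧ c' ≤ c ∧ c < v (z - θ.eval y) ∧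
      ∀ u ≤ b, ∀ lam', DG p v N y u lam' ((taylor θ A).coeff i) →
        lam' ≤ hA p q v N y A b + (q - i) * c - (q - i) * (gval v y b Q - gval v y u Q) := by
  have hcs := c_lt_s D
  have hh := hA_spec D b
  have hhD := hA_le D b
  have h0 : FG p q v N y (hA p q v N y A) A b θ c' := fun i hi hpi =>
    lo_at D hcs.le hq hpq hb hθ hθc hhD hh.1 hpi hi.le
  obtain ⟨i, c, hiq, hpi, hc1, hc2, hFc, hup⟩ := exists_edge hF h0
  refine ⟨i, c, hiq, hpi, hc1, hc2, ?_⟩
  set V := v (z - θ.eval y) with hV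
  have hVs : V < s := D.lt θ hθ
  obtain ⟨η, hη1, hη2⟩ := hQ.root
  obtain ⟨b₁, h1, h2⟩ := exists_nop_eq v y b Q
  set n := nop v y b Q with hn
  have hn0 : (0 : ℝ) < n := by exact_mod_cast hQ.nop_pos
  have hr : 0 < (V - c) / (n + 1) := div_pos (sub_pos.2 hc2) (by linarith)
  obtain ⟨w, hw1, hw2⟩ := exists_between (show b < min (v (y - η))
    (min b₁ (b + (V - c) / (n + 1))) from lt_min hη2 (lt_min h1 (by linarith)))
  have hwη : w < v (y - η) := hw2.trans_le (min_le_left _ _)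
  have hwb : w ≤ b₁ := (hw2.trans_le ((min_le_right _ _).trans (min_le_left _ _))).le
  have hwc : w < b + (V - c) / (n + 1) :=
    hw2.trans_le ((min_le_right _ _).trans (min_le_right _ _))
  have haff := h2 w hw1 hwb
  have hτ := gval_affine hw1.le haff
  set τ := gval v y w Q - gval v y b Q with hτd
  have hτ1 : τ = n * (w - b) := by rw [hτd, hτ]; ring
  have hcτ : c + τ < V := by
    have h3 : w - b < (V - c) / (n + 1) := by linarith
    have h4 : (n : ℝ) * (w - b) ≤ (n + 1) * (w - b) := by nlinarith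
    have h5 : (n + 1 : ℝ) * (w - b) < (n + 1) * ((V - c) / (n + 1)) :=
      mul_lt_mul_of_pos_left h3 (by linarith)
    have h6 : (n + 1 : ℝ) * ((V - c) / (n + 1)) = V - c := by field_simp
    rw [hτ1]
    linarith
  -- the hypothesis of the constraint
  have hcon := D.con b w Q θ c (hA p q v N y A b + q * c) hb hw1 hQ ⟨η, hη1, hwη⟩ hθ hθc hc1
    (by rw [← hτd]; exact hcτ) (fun j => ?_) i
  · have h3 := hcon.1 hpi
    have h4 : hA p q v N y A b + q * c + q * τ - i * (c + τ) =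
        (hA p q v N y A b + (q - i) * c) + (q - i) * τ := by ring
    rw [← hτd, h4] at h3
    obtain ⟨K, hK⟩ := (Nat.dvd_sub hpq hpi : p ∣ q - i)
    have hcast : ((p * K : ℕ) : ℝ) = q - i := by rw [← hK, Nat.cast_sub hiq.le]
    have hK0 : 0 < K := by
      rcases Nat.eq_zero_or_pos K with h5 | h5
      · rw [h5, mul_zero] at hK
        omega
      · exact h5
    intro u hu lam' hlam'
    have h5 := BP (lam := hA p q v N y A b + (q - i) * c) (K := K) hN hy hQ hη1 hwη.le hu hw1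
      haff (tay_mem D.mem hθ i) hK0 hup (by rw [hcast]; exact h3) lam' hlam'
    rwa [hcast] at h5
  · by_cases hjq : q < j
    · have h3 : (taylor θ A).coeff j = 0 :=
        coeff_eq_zero_of_natDegree_lt ((tay_deg D.deg θ).trans_lt hjq)
      rw [h3]
      exact ⟨fun _ => DG.zero, fun _ => by rw [map_zero]; exact TWM.GB.zero⟩
    have hjq' : j ≤ q := not_lt.1 hjq
    refine ⟨fun hpj => ?_, fun hpj => ?_⟩
    · rcases hjq'.eq_or_lt with h3 | h3
      · subst h3
        rw [tay_top D.deg]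
        refine hh.1.mono ?_
        linarith
      · exact (hFc j h3 hpj).mono (by linarith)
    · refine (nd_at D hb hθc hpj).mono ?_
      have h3 : 1 ≤ j := Nat.one_le_iff_ne_zero.2 fun h4 => hpj (h4 ▸ dvd_zero p)
      have h4 : (1 : ℝ) ≤ j := by exact_mod_cast h3
      have h5 : (j : ℝ) ≤ q := by exact_mod_cast hjq'
      have h6 : 0 ≤ ((q : ℝ) - 1) * (s - c) := mul_nonneg (by linarith) (by linarith)
      have h7 : 0 ≤ ((j : ℝ) - 1) * (c - c') := mul_nonneg (by linarith) (by linarith)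
      nlinarith

omit hp [CharP Ω p] in
/-- A common lower bound for the Gauss values of the coefficients. -/
theorem exists_bound (D : SoftD p q v N y z s Dq c' b₀ A) (u : ℝ) :
    ∃ M₁ : ℝ, ∀ l, GB v u M₁ (taylor y (A.coeff l)) := by
  classical
  obtain ⟨M, hM⟩ := ((Finset.range (q + 1)).image
    fun l => gval v y u (A.coeff l)).finite_toSet.bddBelow
  refine ⟨M, fun l => ?_⟩
  by_cases hl : l ≤ q
  · exact GB_gval.mono (hM (Finset.mem_coe.2 (Finset.mem_image_of_mem _
      (Finset.mem_range.2 (Nat.lt_succ_of_le hl)))))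
  · rw [coeff_eq_zero_of_natDegree_lt (D.deg.trans_lt (not_le.1 hl)), map_zero]
    exact TWM.GB.zero

omit [IsAlgClosed Ω] in
/-- The distance of a coefficient at `u`, centre not small. -/
theorem bound_small (D : SoftD p q v N y z s Dq c' b₀ A) {M₁ M : ℝ} (hM : 0 ≤ M)
    (hM₁ : ∀ l, GB v u M₁ (taylor y (A.coeff l))) (hθ : GB v u (-M) (taylor y θ)) (i : ℕ) :
    DG p v N y u (M₁ - q * M) ((taylor θ A).coeff i) := by
  rw [tay_coeff D.deg]
  refine DG.sum _ _ fun l hl => ?_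
  have hlq : l ≤ q := Nat.le_of_lt_succ (Finset.mem_range.1 hl)
  refine DG.natCast_mul _ (DG.of_gb ?_)
  rw [taylor_mul, taylor_pow]
  refine ((hM₁ l).mul (hθ.pow (l - i))).mono ?_
  have h1 : ((l - i : ℕ) : ℝ) ≤ q := by exact_mod_cast (Nat.sub_le l i).trans hlq
  nlinarith

/-- The distance of a coefficient at `u`, big centre. -/
theorem bound_big (D : SoftD p q v N y z s Dq c' b₀ A) (hpq : p ∣ q) {M₁ M W : ℝ} (hM : 0 ≤ M)
    (hM₁ : ∀ l, GB v u M₁ (taylor y (A.coeff l))) (hM' : hA p q v N y A u - M₁ ≤ M)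
    (hW : W < -M) (hθ : θ ∈ PI N) (hθW : GB v u W (taylor y θ)) {i : ℕ} (hi : p ∣ i)
    (hiq : i < q) :
    DG p v N y u (hA p q v N y A u + (q - i) * W) ((taylor θ A).coeff i) := by
  rw [tay_coeff D.deg]
  refine DG.sum _ _ fun l hl => ?_
  have hlq : l ≤ q := Nat.le_of_lt_succ (Finset.mem_range.1 hl)
  by_cases hli : l < i
  · rw [Nat.choose_eq_zero_of_lt hli, Nat.cast_zero, zero_mul]
    exact DG.zero
  have hil : i ≤ l := not_lt.1 hli
  have hcast : ((l - i : ℕ) : ℝ) = l - i := by rw [Nat.cast_sub hil]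
  refine DG.natCast_mul _ ?_
  rcases hlq.eq_or_lt with h1 | h1
  · subst h1
    obtain ⟨e, he⟩ := (Nat.dvd_sub hpq hi : p ∣ l - i)
    have hpow : A.coeff l * θ ^ (l - i) = A.coeff l * (θ ^ e) ^ p := by
      rw [he, ← pow_mul, mul_comm e p]
    rw [hpow]
    have hθe : GB v u (e * W) (taylor y (θ ^ e)) := by
      rw [taylor_pow]
      exact hθW.pow e
    refine ((hA_spec D u).1.mul_pow (pow_mem hθ e) hθe).mono (le_of_eq ?_)
    have h2 : ((p * e : ℕ) : ℝ) = l - i := by rw [← he, hcast]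
    push_cast at h2
    rw [← h2]
    ring
  · refine DG.of_gb ?_
    rw [taylor_mul, taylor_pow]
    refine ((hM₁ l).mul (hθW.pow (l - i))).mono ?_
    rw [hcast]
    have h2 : (1 : ℝ) ≤ (q : ℝ) - l := by
      have h3 : l + 1 ≤ q := h1
      have h4 : ((l + 1 : ℕ) : ℝ) ≤ q := by exact_mod_cast h3
      push_cast at h4
      linarith
    nlinarith

/-- The distance of the leading coefficient: slope and left continuity. -/
theorem hA_slope (hN : Cj v N) (hy : Transcendental N y) (D : SoftD p q v N y z s Dq c' b₀ A)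
    (hQu : Ky v N y u Qu) (hdeg : (A.coeff q).natDegree < Qu.natDegree) {x : ℝ} (hux : u ≤ x)
    (hQ : Ky v N y x Q) : ∃ x₁, x < x₁ ∧ ∀ t, x < t → t ≤ x₁ →
      hA p q v N y A t - hA p q v N y A x ≤ (p - 1) * (nop v y x Q * (t - x)) := by
  obtain ⟨η, h1, h2⟩ := hQ.root
  refine ⟨v (y - η), h2, fun t ht1 ht2 => ?_⟩
  have h3 := D_slope (lam := hA p q v N y A t) hN hy hQ h1 h2 ht2 ht1.le (D.mem q)
    (hdeg.trans_le (hQu.deg_mono hQ hux)) (hA_spec D t).1
  have h4 := (hA_spec D x).2 _ h3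
  linarith

omit [CharP Ω p] in
theorem hA_left (D : SoftD p q v N y z s Dq c' b₀ A) (x : ℝ) {ε : ℝ} (hε : 0 < ε) :
    ∃ x', x' < x ∧ ∀ t, x' ≤ t → t ≤ x → hA p q v N y A x ≤ hA p q v N y A t + ε := by
  obtain ⟨x', h1, h2⟩ := (hA_spec D x).1.left hε
  refine ⟨x', h1, fun t ht1 ht2 => ?_⟩
  have := (hA_spec D t).2 _ (h2 t ht1 ht2)
  linarith

/-- **(G1).** -/
theorem G1 (hN : Cj v N) (hy : Transcendental N y) (hJ : Joo v N y)
    (D : SoftD p q v N y z s Dq c' b₀ A) (hq : 0 < q) (hpq : p ∣ q) {Q₀ : Polynomial Ω}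
    (hQ₀ : Ky v N y b₀ Q₀) (hQu : Ky v N y u Qu) (hdeg : (A.coeff q).natDegree < Qu.natDegree)
    (huu : u < u') {ηu : Ω} (hηu : Qu.eval ηu = 0) (hu' : u' < v (y - ηu))
    (hc : p * (s - c') < u' - u) :
    ∃ (b₁ : ℝ) (Q₁ : Polynomial Ω), Ky v N y b₁ Q₁ ∧ b₀ ≤ b₁ ∧
      ∀ (b : ℝ) (Q θ : Polynomial Ω), b₁ ≤ b → Ky v N y b Q → θ ∈ PI N →
        θ.natDegree < Q.natDegree → v.Ge c' (θ.eval y) →
        FG p q v N y (hA p q v N y A) A b θ (v (z - θ.eval y)) := by
  have hcs := c_lt_s D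
  obtain ⟨M₁, hM₁⟩ := exists_bound D u
  set h := hA p q v N y A with hh
  set M := max 0 (h u - M₁) with hM
  have hM0 : 0 ≤ M := le_max_left _ _
  have hM' : h u - M₁ ≤ M := le_max_right _ _
  set B := Dq + q * |s| - M₁ + q * M with hB
  have huu' : 0 < u' - u := sub_pos.2 huu
  -- a key polynomial at `max b₀ u'`
  have hQu' : Ky v N y u' Qu := hQu.up huu.le ⟨ηu, hηu, hu'⟩
  have hex : ∃ Qm, Ky v N y (max b₀ u') Qm := by
    rcases le_total b₀ u' with h1 | h1
    · exact ⟨Qu, by rwa [max_eq_right h1]⟩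
    · exact ⟨Q₀, by rwa [max_eq_left h1]⟩
  obtain ⟨Qm, hQm⟩ := hex
  obtain ⟨b₁, Q₁, hQ₁, hd₁⟩ := hJ (max Qm.natDegree ⌈Qu.natDegree * |B| / (u' - u)⌉₊)
  have hb₁ : max b₀ u' ≤ b₁ := by
    by_contra h1
    have h2 := hQ₁.deg_mono hQm (not_le.1 h1).le
    have h3 := (le_max_left _ _).trans_lt hd₁
    omega
  have hdB : Qu.natDegree * |B| < Q₁.natDegree * (u' - u) := by
    have h1 : ⌈Qu.natDegree * |B| / (u' - u)⌉₊ < Q₁.natDegree := (le_max_right _ _).trans_lt hd₁
    have h2 := (Nat.le_ceil (Qu.natDegree * |B| / (u' - u))).trans_lt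
      (by exact_mod_cast h1 : ((⌈Qu.natDegree * |B| / (u' - u)⌉₊ : ℕ) : ℝ) < Q₁.natDegree)
    rwa [div_lt_iff₀ huu'] at h2
  refine ⟨b₁, Q₁, hQ₁, (le_max_left _ _).trans hb₁, fun b Q θ hb hQ hθ hd hge => ?_⟩
  by_contra hF
  have hb0 : b₀ ≤ b := ((le_max_left _ _).trans hb₁).trans hb
  have hbu : u' ≤ b := ((le_max_right _ _).trans hb₁).trans hb
  -- the Gauss value of the centre
  have hθb : θ ≠ 0 → θ.eval y ≠ 0 ∧ v (θ.eval y) = gval v y b θ := fun h0 =>
    gval_eq_eval' h0 (hQ.nop_eq hy hθ h0 hd)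
  have hθc : GB v b c' (taylor y θ) := by
    by_cases h0 : θ = 0
    · rw [h0, map_zero]
      exact TWM.GB.zero
    · rw [GB_iff h0, ← (hθb h0).2]
      exact hge (hθb h0).1
  obtain ⟨i, c, hiq, hpi, hc1, hc2, hdrop⟩ := drop hN hy D hq hpq hQ hb0 hθ hθc hF
  have hcs' : c < s := hc2.trans (D.lt θ hθ)
  have hdr := hdrop u (huu.le.trans hbu)
  rw [← hh] at hdr
  obtain ⟨η, hη1, hη2⟩ := hQ.root
  have halg := hQ.alg hη1
  have hQη := hQ.eq_mp hη1 hη2
  have hp2 : (2 : ℝ) ≤ p := by exact_mod_cast hp.out.two_le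
  have hqi : (p : ℝ) ≤ q - i := by
    have h1 : p ≤ q - i := Nat.le_of_dvd (by omega) (Nat.dvd_sub hpq hpi)
    have h2 : ((q - i : ℕ) : ℝ) = q - i := by rw [Nat.cast_sub hiq.le]
    rw [← h2]
    exact_mod_cast h1
  have hhb := hA_le D b
  rw [← hh] at hhb
  have hi0 : (0 : ℝ) ≤ i := Nat.cast_nonneg i
  have hq0 : (0 : ℝ) ≤ q := Nat.cast_nonneg q
  by_cases hsm : GB v u (-M) (taylor y θ)
  · -- bounded centre: the degree of the key polynomial is too big
    have h1 := hdr _ (bound_small D hM0 hM₁ hsm i)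
    have h2 := growth hN halg huu.le (fun _ => hbu.trans hη2.le) hQu.mem hQu.ne
      ((ncl_pos_iff hQu.ne).2 ⟨ηu, hηu, fun _ => hu'.le⟩)
    rw [← hQη] at h2
    have h3 := gval_mono (v := v) (y := y) (f := Q) hbu
    have h4 : (Q₁.natDegree : ℝ) ≤ Q.natDegree := by exact_mod_cast hQ₁.deg_mono hQ hb
    have h5 : 0 ≤ gval v y b Q - gval v y u Q :=
      sub_nonneg.2 (gval_mono (huu.le.trans hbu))
    have h6 : (q - i) * c ≤ q * |s| := by
      have h7 : c ≤ |s| := hcs'.le.trans (le_abs_self s)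
      calc (q - i : ℝ) * c ≤ (q - i) * |s| := mul_le_mul_of_nonneg_left h7 (by linarith)
        _ ≤ q * |s| := mul_le_mul_of_nonneg_right (by linarith) (abs_nonneg s)
    have h7 : (q - i : ℝ) * (gval v y b Q - gval v y u Q) ≤ B := by
      rw [hB]
      linarith
    have h8 : gval v y b Q - gval v y u Q ≤ |B| := by
      refine le_trans ?_ (le_abs_self B)
      nlinarith
    have h9 : (Qu.natDegree : ℝ) * (gval v y u' Q - gval v y u Q) ≤ Qu.natDegree * |B| :=
      mul_le_mul_of_nonneg_left (by linarith) (Nat.cast_nonneg _)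
    have h10 : (Q₁.natDegree : ℝ) * (u' - u) ≤ Q.natDegree * (u' - u) :=
      mul_le_mul_of_nonneg_right h4 huu'.le
    linarith
  · have h0 : θ ≠ 0 := fun h0 => hsm (by rw [h0, map_zero]; exact TWM.GB.zero)
    rw [GB_iff h0] at hsm
    push Not at hsm
    set W := gval v y u θ with hW
    have h1 := hdr _ (bound_big D hpq hM0 hM₁ (by rw [← hh]; exact hM') hsm hθ GB_gval hpi hiq)
    rw [← hh] at h1
    -- comparison of increments
    have hub : u ≤ b := huu.le.trans hbu
    have hCI1 := CI hN hy halg hub hη2.le hθ h0 (by rwa [← hQη]) (g := fun x => x)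
      (fun x Q' hux hxb hQ' => ⟨x + 1, by linarith, fun t ht1 ht2 => by
        have h2 : (1 : ℝ) ≤ nop v y x Q' := by exact_mod_cast hQ'.nop_pos
        have h3 : 0 < t - x := sub_pos.2 ht1
        nlinarith⟩)
      (fun x hux hxb ε hε => ⟨x - ε, by linarith, fun t ht1 ht2 => by linarith⟩)
    have hp1 : (0 : ℝ) < p - 1 := by linarith
    have hCI2 := CI hN hy halg hub hη2.le hθ h0 (by rwa [← hQη]) (g := fun x => h x / (p - 1))
      (fun x Q' hux hxb hQ' => by
        obtain ⟨x₁, h2, h3⟩ := hA_slope hN hy D hQu hdeg hux hQ'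
        refine ⟨x₁, h2, fun t ht1 ht2 => ?_⟩
        rw [← sub_div, div_le_iff₀ hp1, mul_comm]
        exact h3 t ht1 ht2)
      (fun x hux hxb ε hε => by
        obtain ⟨x', h2, h3⟩ := hA_left D x (mul_pos hp1 hε)
        refine ⟨x', h2, fun t ht1 ht2 => ?_⟩
        rw [div_add' _ _ _ hp1.ne']
        refine div_le_div_of_nonneg_right ?_ hp1.le
        have h4 := h3 t ht1 ht2
        rw [← hh] at h4
        linarith)
    rw [← hQη] at hCI1 hCI2
    have hgθ : c' ≤ gval v y b θ := (GB_iff h0).1 hθc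
    set X := (gval v y b Q - gval v y u Q) - (gval v y b θ - W) with hX
    have hX1 : u' - u ≤ X := by rw [hX]; linarith
    have hX2 : h b - h u ≤ (p - 1) * X := by
      have h2 : h b / (p - 1) - h u / (p - 1) ≤ X := by rw [hX]; linarith
      rw [← sub_div, div_le_iff₀ hp1, mul_comm] at h2
      exact h2
    have h2 : (q - i : ℝ) * (X - (s - c')) ≤ h b - h u := by
      have h3 : X - (s - c') ≤ (gval v y b Q - gval v y u Q) + W - c := by rw [hX]; linarith
      have h4 : (q - i : ℝ) * (X - (s - c')) ≤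
          (q - i) * ((gval v y b Q - gval v y u Q) + W - c) :=
        mul_le_mul_of_nonneg_left h3 (by linarith)
      have h5 : (q - i : ℝ) * ((gval v y b Q - gval v y u Q) + W - c) =
          (q - i) * (gval v y b Q - gval v y u Q) + (q - i) * W - (q - i) * c := by ring
      rw [h5] at h4
      linarith
    rcases le_or_gt (s - c') X with h3 | h3
    · have h4 : (p : ℝ) * (X - (s - c')) ≤ (q - i) * (X - (s - c')) :=
        mul_le_mul_of_nonneg_right hqi (by linarith)
      have h5 : (p : ℝ) * (X - (s - c')) = (p - 1) * X + X - p * (s - c') := by ring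
      linarith
    · have h4 : 1 * (s - c') ≤ p * (s - c') :=
        mul_le_mul_of_nonneg_right (by linarith) (by linarith)
      linarith

end G1

end Pool.Agent.TWJ2.Soft
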