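import Pool.Agent.Lib.TWJ2.SoftU
import Pool.Agent.Lib.TWJ2.Soft4
import Pool.Agent.Lib.TWJ2.Cont

/-!
# TANK W, ROW J, SOFT J: the end

`END`: if the flatness (`G1`) holds at the levels `≥ b₁`, then `z` is a limit, up to the radius `s`,
of the values at `y` of polynomials of bounded degree. `soft_star`: the conclusion of SOFT J.
-/

set_option autoImplicit false

open Polynomial

namespace Pool.Agent.TWJ2.Soft

open Pool.Agent.H15JM (RVal)
open Pool.Agent.TWM (PI PII Gt GB ge_natCast)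

universe u

variable {k Ω : Type u} [Field k] [Field Ω] [Algebra k Ω]

/-- The flatness at the levels `≥ b₁`. -/
def Flat (p q : ℕ) (v : RVal Ω) (N : IntermediateField k Ω) (y z : Ω) (c' b₁ : ℝ)
    (A : Polynomial (Polynomial Ω)) : Prop :=
  ∀ (b : ℝ) (Q θ : Polynomial Ω), b₁ ≤ b → Ky v N y b Q → θ ∈ PI N →
    θ.natDegree < Q.natDegree → v.Ge c' (θ.eval y) → ∀ h, DG p v N y b h (A.coeff q) →
    ∀ i < q, p ∣ i → DG p v N y b (h + (q - i) * v (z - θ.eval y)) ((taylor θ A).coeff i)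

section

variable {p q : ℕ} {v : RVal Ω} {N : IntermediateField k Ω} {y z η : Ω}
  {b b₀ b₁ c c' s h Dq lam : ℝ} {G Q Q₁ θ δ : Polynomial Ω} {A : Polynomial (Polynomial Ω)}

/-- The exact distance. -/
theorem exists_sup [hp : Fact p.Prime] [IsAlgClosed Ω]
    (hi : ∀ lam : ℝ, DG p v N y b lam G → lam ≤ Dq) :
    ∃ h : ℝ, DG p v N y b h G ∧ (∀ lam, DG p v N y b lam G → lam ≤ h) ∧ h ≤ Dq := by
  set S : Set ℝ := {lam | DG p v N y b lam G} with hS
  have hne : S.Nonempty := ⟨gval v y b G, DG.of_gb GB_gval⟩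
  have hbd : BddAbove S := ⟨Dq, fun x hx => hi x hx⟩
  refine ⟨sSup S, ?_, fun lam hl => le_csSup hbd hl, csSup_le hne fun x hx => hi x hx⟩
  refine DG.closed fun ε hε => ?_
  obtain ⟨t, ht, h1⟩ := exists_lt_of_lt_csSup hne (show sSup S - ε < sSup S by linarith)
  exact DG.mono ht h1.le

/-- The first level at which the degree of the key polynomials is `> d`. -/
theorem exists_jump (hJ : Joo v N y) (hQ₁ : Ky v N y b₁ Q₁) {d : ℕ} (hd : Q₁.natDegree ≤ d) :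
    ∃ (b₂ : ℝ) (Q₂ : Polynomial Ω), b₁ < b₂ ∧ Ky v N y b₂ Q₂ ∧ d < Q₂.natDegree ∧
      ∀ (b : ℝ) (Q : Polynomial Ω), b < b₂ → Ky v N y b Q → Q.natDegree ≤ d := by
  set S : Set ℝ := {b | ∃ Q, Ky v N y b Q ∧ d < Q.natDegree} with hS
  have hne : S.Nonempty := hJ d
  obtain ⟨η₁, h1, h2⟩ := hQ₁.root
  have hlow : ∀ x ∈ S, v (y - η₁) ≤ x := by
    rintro x ⟨Q, hQ, hdQ⟩
    by_contra hcon
    push Not at hcon
    rcases le_total x b₁ with h3 | h3
    · have := hQ.deg_mono hQ₁ h3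
      omega
    · have := hQ.deg_eq (hQ₁.up h3 ⟨η₁, h1, hcon⟩)
      omega
  have hbd : BddBelow S := ⟨v (y - η₁), fun x hx => hlow x hx⟩
  have hb2 : v (y - η₁) ≤ sInf S := le_csInf hne hlow
  obtain ⟨x, Q, hQ, hdQ⟩ := hne
  obtain ⟨η, h3, h4⟩ := hQ.root
  have h5 : sInf S ≤ x := csInf_le hbd ⟨Q, hQ, hdQ⟩
  obtain ⟨Q₂, hQ₂⟩ := exists_Ky (hQ.alg h3) (h5.trans_lt h4)
  refine ⟨sInf S, Q₂, h2.trans_le hb2, hQ₂, ?_, fun b Q hb hQ' => ?_⟩
  · by_contra hcon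
    push Not at hcon
    obtain ⟨η₂, h6, h7⟩ := hQ₂.root
    obtain ⟨t, ⟨Q', hQ', hdQ'⟩, h8⟩ :=
      exists_lt_of_csInf_lt (show S.Nonempty from ⟨x, Q, hQ, hdQ⟩) h7
    have h9 : sInf S ≤ t := csInf_le hbd ⟨Q', hQ', hdQ'⟩
    have := hQ'.deg_eq (hQ₂.up h9 ⟨η₂, h6, h8⟩)
    omega
  · by_contra hcon
    push Not at hcon
    exact absurd (csInf_le hbd ⟨Q, hQ', hcon⟩) (not_le.2 hb)

/-- Bounds at nearby levels, for finitely many distances. -/
theorem dg_left {e : ℝ} (he : 0 < e) {F : ℕ → Polynomial Ω} {lam : ℕ → ℝ}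
    (n : ℕ) (h : ∀ i < n, p ∣ i → DG p v N y b (lam i) (F i)) :
    ∃ d : ℝ, 0 < d ∧ ∀ b', b - d ≤ b' → b' ≤ b → ∀ i < n, p ∣ i →
      DG p v N y b' (lam i - e) (F i) := by
  induction n with
  | zero => exact ⟨1, one_pos, fun _ _ _ i hi => absurd hi (Nat.not_lt_zero i)⟩
  | succ n ih =>
    obtain ⟨d, hd, h1⟩ := ih fun i hi => h i (Nat.lt_succ_of_lt hi)
    by_cases hpn : p ∣ n
    · obtain ⟨g, hg, h2⟩ := h n (Nat.lt_succ_self n) hpn (e / 2) (half_pos he)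
      obtain ⟨d', hd', h3⟩ := gb_left (half_pos he) h2
      refine ⟨min d d', lt_min hd hd', fun b' hb hb' i hi hpi => ?_⟩
      have m1 := min_le_left d d'
      have m2 := min_le_right d d'
      rcases Nat.lt_succ_iff_lt_or_eq.1 hi with h4 | h4
      · exact h1 b' (by linarith) hb' i h4 hpi
      · subst h4
        exact DG.of_one hg ((h3 b' (by linarith) hb').mono (by linarith))
    · refine ⟨d, hd, fun b' hb hb' i hi hpi => ?_⟩
      rcases Nat.lt_succ_iff_lt_or_eq.1 hi with h4 | h4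
      · exact h1 b' hb hb' i h4 hpi
      · exact absurd (h4 ▸ hpi) hpn

/-- **The end.** -/
theorem END [hp : Fact p.Prime] [CharP Ω p] [IsAlgClosed Ω] (hN : Cj v N)
    (hy : Transcendental N y) (hJ : Joo v N y) (hpq : p ∣ q) (hq : 0 < q)
    (S : SoftD p q v N y z s Dq c' b₀ A) (hb : b₀ ≤ b₁) (hQ₁ : Ky v N y b₁ Q₁)
    (hG1 : Flat p q v N y z c' b₁ A) :
    ∀ c < s, ∃ θ ∈ PI N, θ.natDegree < Q₁.natDegree ∧ c < v (z - θ.eval y) := by
  classical
  by_contra hcon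
  push Not at hcon
  obtain ⟨c, hcs, hlow⟩ := hcon
  have hc's : c' < s := by
    have h1 := S.lt 0 (zero_mem _)
    rw [eval_zero, sub_zero] at h1
    exact S.cen.trans h1
  set r := max c c' with hr
  have hrs : r < s := max_lt hcs hc's
  -- `θ` of minimal degree
  have hex : ∃ d : ℕ, ∃ θ ∈ PI N, θ.natDegree = d ∧ r < v (z - θ.eval y) := by
    obtain ⟨θ, h1, h2⟩ := S.sup r hrs
    exact ⟨_, θ, h1, rfl, h2⟩
  obtain ⟨θ, hθ, hθd, hθr⟩ := Nat.find_spec hex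
  set d := Nat.find hex with hd
  have hmin : ∀ θ' ∈ PI N, θ'.natDegree < d → v (z - θ'.eval y) ≤ r := by
    intro θ' h1 h2
    by_contra h3
    exact Nat.find_min hex h2 ⟨θ', h1, rfl, not_le.1 h3⟩
  have hm1 : Q₁.natDegree ≤ d := by
    by_contra h1
    push Not at h1
    have h2 := hlow θ hθ (by omega)
    exact absurd hθr (not_lt.2 (h2.trans (le_max_left _ _)))
  set V := v (z - θ.eval y) with hV
  have hVs : V < s := S.lt θ hθ
  have hzθ : z - θ.eval y ≠ 0 := sub_ne_zero.2 (S.ne θ hθ)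
  -- the first level of degree `> d`
  obtain ⟨b₂, Q₂, hb12, hQ₂, hdQ₂, hbel⟩ := exists_jump hJ hQ₁ hm1
  obtain ⟨η₂, hη₂, hbη₂⟩ := hQ₂.root
  have halg₂ := hQ₂.alg hη₂
  have hb₂ : b₀ ≤ b₂ := hb.trans hb12.le
  -- the Gauss value of `θ` near `b₂`
  have hc'r : c' ≤ r := le_max_right _ _
  obtain ⟨e₀, he₀, hθb₂⟩ : ∃ e₀ : ℝ, 0 < e₀ ∧ GB v b₂ (c' + e₀) (taylor y θ) := by
    by_cases h0 : θ = 0
    · exact ⟨1, one_pos, by rw [h0, map_zero]; exact TWM.GB.zero⟩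
    · have h1 := hQ₂.nop_eq hy hθ h0 (by omega)
      obtain ⟨h2, h3⟩ := gval_eq_eval' (v := v) h0 h1
      refine ⟨min (v z) V - c', sub_pos.2 (lt_min S.cen (hc'r.trans_lt hθr)), ?_⟩
      rw [GB_iff h0, ← h3]
      have h4 : v.Ge (min (v z) V) (θ.eval y) := by
        have h5 : θ.eval y = z - (z - θ.eval y) := by ring
        rw [h5]
        exact RVal.Ge.sub (fun _ => min_le_left _ _) (fun _ => min_le_right _ _)
      have := h4 h2
      linarith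
  have hge : v.Ge c' (θ.eval y) := by
    have h1 := ge_eval (v := v) (y := y) (b := b₂) (f := θ)
    by_cases h0 : θ = 0
    · rw [h0, eval_zero]
      exact RVal.Ge.zero
    · rw [GB_iff h0] at hθb₂
      exact h1.mono (by linarith)
  -- the distance of `A_q` at `b₂`
  obtain ⟨h₂, hh₂, hsup₂, hDq₂⟩ := exists_sup (fun lam => S.hi b₂ lam)
  have hF := hG1 b₂ Q₂ θ hb12.le hQ₂ hθ (by omega) hge h₂ hh₂
  -- a level to the left
  have he₁ : 0 < (V - r) / 2 := by linarith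
  obtain ⟨d₁, hd₁, hleft₁⟩ := dg_left he₁ q hF
  obtain ⟨d₂, hd₂, hleft₂⟩ := gb_left he₀ hθb₂
  set b := max (max b₁ (b₂ - min d₁ d₂)) ((b₁ + b₂) / 2) with hbdef
  have hbb₁ : b₁ ≤ b := (le_max_left _ _).trans (le_max_left _ _)
  have hbb₂ : b < b₂ := by
    refine max_lt (max_lt hb12 ?_) (by linarith)
    have := lt_min hd₁ hd₂
    linarith
  have hbm : b₂ - min d₁ d₂ ≤ b := (le_max_right _ _).trans (le_max_left _ _)
  have hF' := hleft₁ b (by have := min_le_left d₁ d₂; linarith) hbb₂.le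
  have hθb : GB v b c' (taylor y θ) := by
    have := hleft₂ b (by have := min_le_right d₁ d₂; linarith) hbb₂.le
    rwa [add_sub_cancel_right] at this
  have hbb₀ : b₀ ≤ b := hb.trans hbb₁
  -- the key polynomial at `b`
  obtain ⟨Q, hQ⟩ := exists_Ky halg₂ (hbb₂.trans hbη₂)
  have hQd : Q.natDegree ≤ d := hbel b Q hbb₂ hQ
  obtain ⟨η, hη, hbη⟩ := hQ.root
  have halg := hQ.alg hη
  have hQη := hQ.eq_mp hη hbη
  set θ₀ := θ %ₘ Q with hθ₀
  set δ := Q * (θ /ₘ Q) with hδ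
  have hsum : θ₀ + δ = θ := modByMonic_add_div θ Q
  have hdm := div_mem hQ.mem hQ.mon hθ
  have hδN : δ ∈ PI N := mul_mem hQ.mem hdm.1
  have hθ₀N : θ₀ ∈ PI N := hdm.2
  have hQ1 : Q ≠ 1 := by
    intro h1
    have := hQ.deg_pos
    rw [h1, natDegree_one] at this
    exact absurd this (lt_irrefl 0)
  have hθ₀d : θ₀.natDegree < Q.natDegree := natDegree_modByMonic_lt θ hQ.mon hQ1
  have hV₀ : v (z - θ₀.eval y) ≤ r := hmin θ₀ hθ₀N (by omega)
  set V₀ := v (z - θ₀.eval y) with hV₀d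
  have hzθ₀ : z - θ₀.eval y ≠ 0 := sub_ne_zero.2 (S.ne θ₀ hθ₀N)
  -- the value of `δ(y)`
  have hδy : δ.eval y ≠ 0 ∧ v (δ.eval y) = V₀ := by
    have h1 : δ.eval y = (z - θ₀.eval y) + -(z - θ.eval y) := by
      rw [← hsum, eval_add]
      ring
    rw [h1]
    refine add_gt hzθ₀ rfl ?_
    intro _
    rw [v.map_neg]
    · exact lt_of_le_of_lt hV₀ hθr
    · exact hzθ
  have hδ0 : δ ≠ 0 := fun h0 => hδy.1 (by rw [h0, eval_zero])
  -- the Gauss values at `b`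
  have hδb : GB v b c' (taylor y δ) := by
    have h1 := split hN halg (b := b) (y := y) (fun _ => hbη.le) hθ hθb 1
    rw [pow_one, ← hQη] at h1
    exact h1
  have hθ₀b : GB v b c' (taylor y θ₀) := by
    have h1 : θ₀ = θ - δ := by rw [← hsum]; ring
    rw [h1, map_sub]
    exact hθb.sub hδb
  have hθ₀y : v.Ge c' (θ₀.eval y) := eval_of_GB hθ₀b
  obtain ⟨h₁, hh₁, hsup₁, hDq₁⟩ := exists_sup (fun lam => S.hi b lam)
  have hF₀ := hG1 b Q θ₀ hbb₁ hQ hθ₀N hθ₀d hθ₀y h₁ hh₁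
  have hh12 : h₁ ≤ h₂ := hsup₂ _ (hh₁.up hbb₂.le)
  have hU := uniq hN halg (b := b) (fun _ => hbη.le) S.mem S.deg hpq hq hsup₁ hDq₁
    (fun l hl => (S.nd l hl).radius_le hbb₀) hδN hθ₀b (by rwa [hsum]) (hV₀.trans hrs.le) hF₀
    (fun i hi hpi => by
      rw [hsum]
      refine (hF' i hi hpi).mono ?_
      have h1 : (i : ℝ) + 1 ≤ q := by exact_mod_cast hi
      have h2 : 0 ≤ ((q : ℝ) - i - 1) * (V - V₀) := mul_nonneg (by linarith) (by linarith)
      nlinarith)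
  rw [GB_iff hδ0] at hU
  have hnop : 0 < nop v y b δ := (nop_pos_iff hδ0).2 ⟨η, by rw [hδ, eval_mul, hη, zero_mul],
    fun _ => hbη⟩
  have h1 := gt_eval (v := v) (y := y) (b := b) hδ0 hnop hδy.1
  rw [hδy.2] at h1
  linarith

/-- **The conclusion of SOFT J**: `z` is a limit, up to the radius `s`, of the values at `y` of
polynomials of bounded degree. -/
theorem soft_star [hp : Fact p.Prime] [CharP Ω p] [IsAlgClosed Ω] {u u' : ℝ}
    {Q₀ Qu : Polynomial Ω} (hN : Cj v N) (hy : Transcendental N y) (hJ : Joo v N y)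
    (D : SoftD p q v N y z s Dq c' b₀ A) (hq : 0 < q) (hpq : p ∣ q)
    (hQ₀ : Ky v N y b₀ Q₀) (hQu : Ky v N y u Qu) (hdeg : (A.coeff q).natDegree < Qu.natDegree)
    (huu : u < u') {ηu : Ω} (hηu : Qu.eval ηu = 0) (hu' : u' < v (y - ηu))
    (hc : p * (s - c') < u' - u) :
    ∃ d : ℕ, ∀ c < s, ∃ θ ∈ PI N, θ.natDegree < d ∧ c < v (z - θ.eval y) := by
  obtain ⟨b₁, Q₁, hQ₁, hb, h1⟩ := G1 hN hy hJ D hq hpq hQ₀ hQu hdeg huu hηu hu' hc
  refine ⟨Q₁.natDegree, END hN hy hJ hpq hq D hb hQ₁ fun b Q θ hbb hQ hθ hd hge h hh i hi hpi => ?_⟩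
  exact (h1 b Q θ hbb hQ hθ hd hge i hi hpi).mono (by
    have := (hA_spec D b).2 h hh
    linarith)

end

end Pool.Agent.TWJ2.Soft
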