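import Pool.Agent.Lib.TWJ2.SeedX
import Pool.Agent.Lib.TWJ2.SeedD
import Pool.Agent.Lib.TWJ2.SoftEnd
import Pool.Agent.Lib.TWJ2.Ext4
import Pool.Agent.Lib.TWJ2.Den
import Pool.Agent.Lib.TWJ2.CprimeS
import Pool.Agent.Lib.TWJ2.Cpr
import Pool.Agent.Lib.TWJ2.Flg2
import Pool.Agent.Lib.TWJ2.FJ8b
import Pool.Agent.Lib.TWJ.ALL

/-!
# TANK W, ROW J: assembly

* `SoftOut`: the conclusion of SOFT J (type), change of the centre;
* `soft_of_seed`: SOFT J at the flag of a seed, from the constraint (C');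
* `seed_fj`: the flag of a seed of minimal index has finitely many jumps;
* `rowJ_of`, `rowJ_of_cprime`: row J.
-/

set_option autoImplicit false

open Polynomial

namespace Pool.Agent.TWJ2

open Pool.Agent.H15JM (RVal)
open Pool.Agent.LU1 (adj)
open Pool.Agent.D2 (Ctx0)
open Pool.Agent.D2P (hen clI mem_clI mem_adj_self adj_le)
open Pool.Agent.TW
open Pool.Agent.TWM (CompleteV TL PI PII le_clI clI_hen cadj)
open Pool.Agent.TWJ (MinS Seed)
open Soft (Cj Joo Ky Con SoftD)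

universe u

variable {k Ω : Type u} [Field k] [Field Ω] [Algebra k Ω] {v : RVal Ω} {r D : ℕ}

/-- The conclusion of SOFT J: the approximants of bounded degree are cofinal. -/
def SoftOut (v : RVal Ω) (N : IntermediateField k Ω) (y z : Ω) (s : ℝ) : Prop :=
  ∃ d : ℕ, ∀ c < s, ∃ θ ∈ PI N, θ.natDegree < d ∧ c < v (z - θ.eval y)

theorem SoftOut.unshift {N : IntermediateField k Ω} {y z : Ω} {s : ℝ} {θ₁ : Polynomial Ω}
    (hθ : θ₁ ∈ PI N) (h : SoftOut v N y (z - θ₁.eval y) s) : SoftOut v N y z s := by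
  obtain ⟨d, h1⟩ := h
  refine ⟨max d (θ₁.natDegree + 1), fun c hc => ?_⟩
  obtain ⟨θ, h2, h3, h4⟩ := h1 c hc
  refine ⟨θ + θ₁, add_mem h2 hθ, ?_, ?_⟩
  · exact (natDegree_add_le _ _).trans_lt (max_lt (h3.trans_le (le_max_left _ _))
      ((Nat.lt_succ_self _).trans_le (le_max_right _ _)))
  · have h5 : z - (θ + θ₁).eval y = z - θ₁.eval y - θ.eval y := by rw [eval_add]; ring
    rw [h5]
    exact h4

/-- The polynomial in two variables with given coefficients. -/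
noncomputable def asmF (n : ℕ) (f : ℕ → Polynomial Ω) : Polynomial (Polynomial Ω) :=
  ∑ l ∈ Finset.range (n + 1), Polynomial.C (f l) * Polynomial.X ^ l

theorem asmF_coeff (n : ℕ) (f : ℕ → Polynomial Ω) (i : ℕ) :
    (asmF n f).coeff i = if i ≤ n then f i else 0 := by
  rw [asmF, finsetSum_coeff]
  simp only [coeff_C_mul, coeff_X_pow, mul_ite, mul_one, mul_zero]
  rw [Finset.sum_ite_eq]
  simp

/-- **SOFT J at the flag of a seed.** -/
theorem soft_of_seed [IsAlgClosed Ω] {p : ℕ} [hp : Fact p.Prime] [CharP Ω p] (h : Ctx0 k v)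
    {K C : IntermediateField k Ω} {a : Ω} {q : ℕ} {y z : Ω} {s Dq e₀ c₀ : ℝ} {A : Polynomial Ω}
    (hS : Seed p v r D K a q (adj C y) z s Dq e₀ c₀ A) (hpq : p ∣ q) (hq : 0 < q)
    (hfull : Full v C) (hy : Transcendental C y) (hz : Transcendental (adj C y) z)
    (hnf : ¬ FJ v C y) (hC : Cprime p v K a q C y) : SoftOut v (clI v C) y z s := by
  have hp0 : (0 : ℝ) < p := by exact_mod_cast hp.out.pos
  have hyN : Transcendental (clI v C) y := Soft.ty_clI hy hnf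
  have hN : Cj v (clI v C) := Soft.cj_clI h C
  have hJ : Joo v (clI v C) y := Soft.joo_clI h hfull hy hnf
  -- polynomial coefficients
  obtain ⟨Dq, A, hS, f, hf, hA⟩ := exists_seed_poly hp.out.ne_zero hS
  set A₀ := asmF A.natDegree f with hA₀
  have hA₀C : PII C A₀ := fun i => by
    rw [hA₀, asmF_coeff]
    split_ifs
    exacts [hf i, zero_mem _]
  have hmap : A₀.map (evalRingHom y) = A := by
    ext1 i
    rw [coeff_map, hA₀, asmF_coeff, coe_evalRingHom]
    split_ifs with h1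
    · exact (hA i).symm
    · rw [eval_zero, coeff_eq_zero_of_natDegree_lt (by omega)]
  have hev : A₀.evalEval y z = A.eval z := by
    rw [← hmap]
    exact (map_evalRingHom_eval y z A₀).symm
  obtain ⟨A₁, hA₁, hA₁d, -, h1⟩ := Soft.exists_softD_exact hS hpq hq hy
    (fun w hw B => Soft.dense_PI h hfull hy hw B) (le_clI _) hA₀C hmap
    (fun c' b₀ => CprimeP.con hC hyN hz hS.cl hA₀C (by rw [hev]; exact hS.rep) c' b₀)
  -- the levels
  obtain ⟨u, Qu, hQu, hdeg⟩ := hJ (A₁.coeff q).natDegree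
  obtain ⟨ηu, hηu, huη⟩ := hQu.root
  obtain ⟨u', hu'⟩ : ∃ u' : ℝ, u' = (u + v (y - ηu)) / 2 := ⟨_, rfl⟩
  have huu : u < u' := by linarith
  have hu'η : u' < v (y - ηu) := by linarith
  obtain ⟨θ, hθ, c', hc, hc', h2⟩ := h1 (s - (u' - u) / (2 * p)) (by
    have : 0 < (u' - u) / (2 * p) := div_pos (by linarith) (by positivity)
    linarith)
  have hcc : p * (s - c') < u' - u := by
    have h3 : s - c' < (u' - u) / (2 * p) := by linarith
    have h4 : p * (s - c') < p * ((u' - u) / (2 * p)) := mul_lt_mul_of_pos_left h3 hp0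
    have h5 : (p : ℝ) * ((u' - u) / (2 * p)) = (u' - u) / 2 := by field_simp
    linarith
  obtain ⟨b₀, h3, η, hη, hbη⟩ := Soft.Evl.exists_lt h hfull hy h2
  have hSD := h3 b₀ le_rfl
  have hηN : IsAlgebraic (clI v C) η := D2P.isAlgebraic_mono (le_clI C) hη
  obtain ⟨Q₀, hQ₀⟩ := Soft.exists_ky hηN hbη
  exact SoftOut.unshift (fun i => le_clI C (hθ i)) (Soft.soft_star hN hyN hJ hSD hq hpq hQ₀ hQu
    (by rw [Soft.taylor_coeff_top hA₁d]; exact hdeg) huu hηu hu'η hcc)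

variable [IsAlgClosed k] [IsAlgClosed Ω]

/-- **The flag of a seed of minimal index has finitely many jumps**, from the constraint (C'). -/
theorem seed_fj (p : ℕ) [hp : Fact p.Prime] [CharP k p] [CharP Ω p] (h : Ctx k v r)
    (hcv : CompleteV v)
    (hLU' : ∀ E : IntermediateField k Ω, E.FG → Full v E →
      Algebra.trdeg k E = (r + (D + 1) : ℕ) → BD p v E → LU p v r E)
    (hDn : ∀ E : IntermediateField k Ω, E.FG → Full v E →
      Algebra.trdeg k E = (r + D : ℕ) → BD p v E → Dns v E)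
    {K₀ : IntermediateField k Ω} (hK : K₀.FG)
    (htr : Algebra.trdeg k K₀ = (r + (D + 1) + 1 : ℕ)) (hBD : BD p v K₀)
    {a : Ω} (ha : a ∈ clI v K₀) {μ : ℝ} (hμ : ∀ g ∈ clI v K₀, ¬ v.Ge μ (a - g ^ p)) {q : ℕ}
    (hpq : p ∣ q) (hq : 0 < q) (hmin : MinS p v r (D + 1) (clI v K₀) a q)
    {C : IntermediateField k Ω} {y z : Ω} {s Dq e₀ c₀ : ℝ} {A : Polynomial Ω}
    (hS : Seed p v r (D + 1) (clI v K₀) a q (adj C y) z s Dq e₀ c₀ A)
    (hfl : Flg p v (r + D) (clI v K₀) C y z) (hTL : TL v (clI v (adj C y)) z s)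
    (hC : ¬ FJ v C y → Cprime p v (clI v K₀) a q C y) : FJ v C y := by
  by_contra hnf
  obtain ⟨d, hd⟩ := soft_of_seed h.toCtx0 hS hpq hq hfl.full hfl.ty hfl.tz hnf (hC hnf)
  refine hnf (star_fj p h hcv hLU' hK htr hBD ha hμ (Nat.le_of_dvd hq hpq) hmin hfl.fg hfl.full
    hfl.tr (hDn C hfl.fg hfl.full hfl.tr hfl.bd) hfl.ty hfl.cl hTL (m1 := d) fun ε hε => ?_)
  obtain ⟨θ, h1, h2, h3⟩ := hd (s - ε) (by linarith)
  exact ⟨θ, h1, h2, fun _ => h3.le⟩

/-- **ROW J, every `D`**: `LU` in the dimensions `r + D` and `r + (D + 1)`. -/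
theorem rowJ_all (p : ℕ) [hp : Fact p.Prime] [CharP k p] [CharP Ω p] (h : Ctx k v r)
    (hcv : CompleteV v)
    (hLU : ∀ E : IntermediateField k Ω, E.FG → Full v E →
      Algebra.trdeg k E = (r + D : ℕ) → BD p v E → LU p v r E)
    (hLU' : ∀ E : IntermediateField k Ω, E.FG → Full v E →
      Algebra.trdeg k E = (r + (D + 1) : ℕ) → BD p v E → LU p v r E)
    (hDn : ∀ E : IntermediateField k Ω, E.FG → Full v E →
      Algebra.trdeg k E = (r + D : ℕ) → BD p v E → Dns v E)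
    (hDn' : ∀ E : IntermediateField k Ω, E.FG → Full v E →
      Algebra.trdeg k E = (r + (D + 1) : ℕ) → BD p v E → Dns v E)
    {K₀ : IntermediateField k Ω} (hK : K₀.FG) (hKf : Full v K₀)
    (htr : Algebra.trdeg k K₀ = (r + (D + 1) + 1 : ℕ)) (hBD : BD p v K₀) (hHR : HRone v K₀)
    {al : Ω} (hal : al ^ p ∈ K₀) (hBDal : BD p v (adj K₀ al)) (hno : ¬ HRone v (adj K₀ al)) :
    ∃ (C : IntermediateField k Ω) (y z : Ω) (s : ℝ), Flg p v (r + D) (clI v K₀) C y z ∧
      TL v (clI v (adj C y)) z s ∧ FJ v C y := by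
  obtain ⟨μ, hμ, q, hpq, hq, hmin, R, y, z, s, Dq, e₀, c₀, A, hseed, hfl, hTL⟩ :=
    exists_seed_flag p h hcv hLU' hDn' hK hKf htr hBD hHR hal hBDal hno
  exact ⟨R.K, y, z, s, hfl, hTL, seed_fj p h hcv hLU' hDn hK htr hBD (le_clI _ hal) hμ hpq hq hmin
    hseed hfl hTL fun _ => cprime h hcv hLU hK htr hBD rfl (le_clI _ hal) hμ hmin hpq hfl.fg
      hfl.full hfl.tr hfl.bd (hDn _ hfl.fg hfl.full hfl.tr hfl.bd) hfl.ty⟩

/-- **ROW J.** -/
theorem rowJ (p : ℕ) [hp : Fact p.Prime] [CharP k p] [CharP Ω p] : RowJ p v k r := by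
  intro K₀ al hb
  have h := hb.ctx
  have hr := h.rpos
  refine rowJ_all (D := 1) p h hb.cpl ?_ ?_ ?_ ?_ hb.fg hb.full hb.tr hb.bd hb.hr hb.mem hb.bda
    hb.no
  · intro E hE hEf htr hBD
    exact TWJ.lu_bd_two p h (TWJ.stepAll p k r) (n := r + 1) (by omega) hE hEf htr hBD
  · intro E hE hEf htr hBD
    exact TWJ.lu_bd_two p h (TWJ.stepAll p k r) (n := r + (1 + 1)) (by omega) hE hEf htr hBD
  · intro E hE hEf htr hBD
    exact TW.dns_of_BD p h hE hEf hBD (n := r + 1) htr (by omega)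
  · intro E hE hEf htr hBD
    exact TW.dns_of_BD p h hE hEf hBD (n := r + (1 + 1)) htr (by omega)

/-- **The honest tower**, without hypothesis. -/
theorem tower (p : ℕ) [Fact p.Prime] [CharP k p] [CharP Ω p] {K₀ : IntermediateField k Ω} {al : Ω}
    (hb : Bad p v k r K₀ al) :
    ∃ (R : Fr k v r 1) (X z : Ω) (σ s : ℝ), Flg p v (r + 1) (clI v K₀) R.K X z ∧
      TL v (clI v R.K) X σ ∧ TL v (cadj v (clI v R.K) X) z s ∧
      clI v K₀ = cadj v (cadj v (clI v R.K) X) z :=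
  tower_of_bad (p := p) (j8F_of_lub p hb.ctx fun E hE hEf htr hBD =>
    TWJ.lu_bd_two p hb.ctx (TWJ.stepAll p k r) (n := r + 1) (by omega) hE hEf htr hBD) (rowJ p) hb

end Pool.Agent.TWJ2
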