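import Pool.Agent.Lib.TWJ2.NearG
import Pool.Agent.Lib.TWF.CovDefs
import Pool.Agent.Lib.TWS7.Str

/-!
# TANK W, row J.8 over an infinite `W`, part 3: row H, `Ω` complete

* the transfer of `algIn`, `perfC`, `EX`, `WX`, `OI`, `WInf`, `FInf`, `Flr`, `FJ` along an isometric
  embedding of the complete algebraically closed field `Ω`;
* `Hon.of_map`: an honest floor of the image of `C` comes from `C`;
* **`rowHon`**: `TWF.RowHon p k`.
-/

set_option autoImplicit false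

open Polynomial

namespace Pool.Agent.TWJ2

open Pool.Agent.H15JM (RVal)
open Pool.Agent.LU1 (adj)
open Pool.Agent.D2 (Ctx0)
open Pool.Agent.D2P (hen clI mem_clI mem_adj_self)
open Pool.Agent.TW
open Pool.Agent.TWM
open Pool.Agent.TWM.Dense (apply_mem_map map_pcomb map_mon map_inj adj_map
  isAlgebraic_iff pbasis_iff minpoly_map)
open Pool.Agent.TWS (IsoE SphC VG)
open Pool.Agent.TWC (CP cp_map vg_map)
open Pool.Agent.TWF

universe u

section Map

variable {k Ω H : Type u} [Field k] [Field Ω] [Algebra k Ω] [Field H] [Algebra k H]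
  {v : RVal Ω} {w : RVal H} {ι : Ω →ₐ[k] H} {A C : IntermediateField k Ω}

theorem algIn_map (A C : IntermediateField k Ω) (ι : Ω →ₐ[k] H) :
    algIn (C.map ι) (A.map ι) = (algIn C A).map ι := by
  ext b
  constructor
  · intro hb
    obtain ⟨⟨a, ha, rfl⟩, h2⟩ := mem_algIn.1 hb
    exact ⟨a, mem_algIn.2 ⟨ha, isAlgebraic_iff.1 h2⟩, rfl⟩
  · rintro ⟨a, ha, rfl⟩
    obtain ⟨h1, h2⟩ := mem_algIn.1 ha
    exact mem_algIn.2 ⟨⟨a, h1, rfl⟩, isAlgebraic_iff.2 h2⟩

theorem adj_bot_map (x : Ω) (ι : Ω →ₐ[k] H) :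
    adj (⊥ : IntermediateField k H) (ι x) = (adj (⊥ : IntermediateField k Ω) x).map ι := by
  rw [adj_map, IntermediateField.map_bot]

theorem algIn_map' (C : IntermediateField k Ω) (x : Ω) (ι : Ω →ₐ[k] H) :
    algIn (C.map ι) (adj ⊥ (ι x)) = (algIn C (adj ⊥ x)).map ι := by
  rw [adj_bot_map, algIn_map]

theorem wx_map (h : IsoE v w ι) (hc : CompleteV v) (C : IntermediateField k Ω) (x : Ω) :
    WX w (C.map ι) (ι x) = (WX v C x).map ι := by
  rw [WX, WX, algIn_map', h.clI_map hc]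

theorem perfC_map (p : ℕ) [hp : Fact p.Prime] [CharP Ω p] [CharP H p] [IsAlgClosed Ω]
    (A : IntermediateField k Ω) (ι : Ω →ₐ[k] H) : perfC p (A.map ι) = (perfC p A).map ι := by
  ext b
  constructor
  · intro hb
    obtain ⟨n, a, ha, h1⟩ := (mem_perfC p).1 hb
    obtain ⟨c, hc⟩ := IsAlgClosed.exists_pow_nat_eq a (pow_pos hp.out.pos n)
    refine ⟨c, (mem_perfC p).2 ⟨n, by rw [hc]; exact ha⟩, ?_⟩
    have h2 : (ι c - b) ^ p ^ n = 0 := by
      rw [sub_pow_char_pow, ← map_pow, hc]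
      exact sub_eq_zero.2 h1
    exact sub_eq_zero.1 (pow_eq_zero_iff (pow_ne_zero n hp.out.ne_zero) |>.1 h2)
  · rintro ⟨a, ha, rfl⟩
    obtain ⟨n, hn⟩ := (mem_perfC p).1 ha
    exact (mem_perfC p).2 ⟨n, _, hn, map_pow _ _ _⟩

theorem ex_map (p : ℕ) [hp : Fact p.Prime] [CharP Ω p] [CharP H p] [IsAlgClosed Ω]
    (h : IsoE v w ι) (hc : CompleteV v) (C : IntermediateField k Ω) (x : Ω) :
    EX p w (C.map ι) (ι x) = (EX p v C x).map ι := by
  rw [EX, EX, algIn_map', perfC_map, h.clI_map hc]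

theorem oi_map {p n : ℕ} (h : IsoE v w ι) {t : Fin n → Ω} {c₀ : ℝ} (ho : OI p v C t c₀) :
    OI p w (C.map ι) (fun i => ι (t i)) c₀ := by
  intro c hc b hb α
  choose d hd hdc using hc
  have h2 : (fun α => ι (d α)) = c := funext hdc
  rw [← h2, map_pcomb, h.ge_iff] at hb
  have h1 := ho d hd b hb α
  rw [← h2, map_mon, ← map_pow, ← map_mul, h.ge_iff]
  exact h1

theorem winf_map (h : IsoE v w ι) (hc : CompleteV v) {x : Ω} (hW : WInf v C x) :
    WInf w (C.map ι) (ι x) := by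
  intro z hz hle
  rw [algIn_map'] at hz
  obtain ⟨z₀, hz₀, rfl⟩ := Dense.mem_map.1 hz
  refine hW z₀ hz₀ ?_
  rw [algIn_map', adj_bot_map, ← adj_map, h.clI_map hc, Dense.map_le_map_iff] at hle
  exact hle

theorem ff_map {p : ℕ} (h : IsoE v w ι) (hc : CompleteV v) {x y : Ω} {c₀ : ℝ}
    (hF : FF p v C x y c₀) : FF p w (C.map ι) (ι x) (ι y) c₀ where
  eq := by rw [hF.eq, cp_map h hc]
  x0 := IsoE.ne_zero hF.x0
  vx := by rw [h.val _ hF.x0]; exact hF.vx
  y0 := IsoE.ne_zero hF.y0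
  oi := by
    have h1 := oi_map h hF.oi
    have h2 : (fun i => ι ((![x, y] : Fin 2 → Ω) i)) = ![ι x, ι y] := by
      funext i
      fin_cases i <;> rfl
    rwa [h2] at h1

theorem finf_map {p : ℕ} [hp : Fact p.Prime] [CharP Ω p] [CharP H p] [IsAlgClosed Ω]
    (h : IsoE v w ι) (hc : CompleteV v) {x y : Ω} {s c₀ : ℝ} (hF : FInf p v C x y s c₀) :
    FInf p w (C.map ι) (ι x) (ι y) s c₀ where
  toFF := ff_map h hc hF.toFF
  tl := by
    rw [ex_map p h hc]
    exact h.tl_iff.2 hF.tl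
  inf := winf_map h hc hF.inf
  div := by
    rw [vg_map h]
    exact hF.div

theorem vec_map (ι : Ω →ₐ[k] H) (x : Ω) :
    (![ι x] : Fin 1 → H) = fun i => ι ((![x] : Fin 1 → Ω) i) := by
  funext i
  fin_cases i
  rfl

theorem flr_map {p : ℕ} [IsAlgClosed Ω] (h : IsoE v w ι) (hc : CompleteV v)
    {W : IntermediateField k Ω} {x y : Ω} {s : ℝ} (hF : Flr p v C W x y s) :
    Flr p w (C.map ι) (W.map ι) (ι x) (ι y) s where
  cld := (h.cld_iff hc).2 hF.cld
  mem := ⟨x, hF.mem, rfl⟩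
  x0 := IsoE.ne_zero hF.x0
  vx := by rw [h.val _ hF.x0]; exact hF.vx
  pb := by
    rw [vec_map]
    exact pbasis_iff.2 hF.pb
  eq := by
    rw [h.cadj_map hc, ← hF.eq]
  le := by
    have h1 : IntermediateField.adjoin k {ι x, ι y} =
        (IntermediateField.adjoin k {x, y}).map ι := by
      rw [IntermediateField.adjoin_map, Set.image_pair]
    rw [h1, h.clI_map hc]
    exact Dense.map_le_map_iff.2 hF.le
  far := by
    intro θ hθ
    obtain ⟨θ₀, rfl⟩ := Dense.exists_of_isAlgebraic hθ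
    obtain ⟨h1, h2⟩ := hF.far θ₀ (isAlgebraic_iff.1 hθ)
    refine ⟨fun h3 => h1 (Dense.inj ι h3), ?_⟩
    rw [← map_sub, h.val _ (sub_ne_zero.2 h1)]
    exact h2
  lim := by
    intro ε hε
    obtain ⟨j, a, ha, h1⟩ := hF.lim ε hε
    refine ⟨j, ι a, ⟨a ^ p ^ j, ha, map_pow ι a _⟩, ?_⟩
    rw [← map_sub, h.ge_iff]
    exact h1

theorem fj_map [IsAlgClosed Ω] (h : IsoE v w ι) {y : Ω} (hy : ∀ a, IsAlgebraic A a → y ≠ a)
    (hFJ : FJ v A y) : FJ w (A.map ι) (ι y) := by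
  obtain ⟨d, hd⟩ := hFJ
  refine ⟨d, fun ξ hξ => ?_⟩
  obtain ⟨ξ₀, rfl⟩ := Dense.exists_of_isAlgebraic hξ
  have h1 : IsAlgebraic A ξ₀ := isAlgebraic_iff.1 hξ
  obtain ⟨η, h2, h3, h4⟩ := hd ξ₀ h1
  refine ⟨ι η, isAlgebraic_iff.2 h2, ?_, ?_⟩
  · rw [minpoly_map h2.isIntegral]
    exact natDegree_map_le.trans h3
  · rw [← map_sub, ← map_sub, h.val _ (sub_ne_zero.2 (hy _ h1)), h.val _ (sub_ne_zero.2 (hy _ h2))]
    exact h4

/-- **An honest floor of the image of `C` comes from `C`.** -/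
theorem Hon.of_map {p : ℕ} [IsAlgClosed Ω] (h : IsoE v w ι) (hc : CompleteV v)
    {W' : IntermediateField k H} {t' y' : H} {s : ℝ}
    (hH : TWF.Hon p w (C.map ι) W' t' y' s) :
    ∃ (W : IntermediateField k Ω) (t y : Ω), TWF.Hon p v C W t y s := by
  have hWC : W' ≤ C.map ι := by
    rw [hH.eq]
    exact le_cadj w _ _
  obtain ⟨y, -, rfl⟩ := Dense.mem_map.1 (show y' ∈ C.map ι by
    rw [hH.eq]
    exact self_mem_cadj w _ _)
  obtain ⟨t, -, rfl⟩ := Dense.mem_map.1 (hWC hH.mem)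
  have hW : W' = (W'.comap ι).map ι := by
    refine le_antisymm (fun a ha => ?_) ?_
    · obtain ⟨b, -, rfl⟩ := hWC ha
      exact ⟨b, ha, rfl⟩
    · rintro _ ⟨a, ha, rfl⟩
      exact ha
  rw [hW] at hH
  generalize W'.comap ι = W at hH
  have ht0 : t ≠ 0 := fun h0 => hH.t0 (by rw [h0]; exact map_zero _)
  exact ⟨W, t, y,
    { cld := (h.cld_iff hc).1 hH.cld
      mem := apply_mem_map.1 hH.mem
      t0 := ht0
      vt := by
        have h1 := hH.vt
        rwa [h.val _ ht0] at h1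
      alg := by
        have h1 := hH.alg
        rw [wx_map h hc] at h1
        exact map_inj h1
      pb := by
        have h1 := hH.pb
        rw [vec_map] at h1
        exact pbasis_iff.1 h1
      eq := by
        have h1 := hH.eq
        rw [h.cadj_map hc] at h1
        exact map_inj h1
      tl := h.tl_iff.1 hH.tl }⟩

end Map

/-- **Row H**: finitely many jumps give an honest floor of the same field. -/
theorem rowHon (p : ℕ) [hp : Fact p.Prime] (k : Type u) [Field k] [IsAlgClosed k] [CharP k p] :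
    RowHon p k := by
  intro Ω _ _ _ _ v h0 hc C₁ C x y s c₀ _ hF hFJ
  obtain ⟨φ, hφ⟩ := TWS.exists_emb (k := k) h0.toCtx0
  have hI : IsoE v (TWS.hv k) φ := ⟨hφ⟩
  have : CharP (TWS.HF k) p :=
    charP_of_injective_algebraMap (algebraMap k (TWS.HF k)).injective p
  have h1 := finf_map hI hc hF
  have h2 : FJ (TWS.hv k) (WX (TWS.hv k) (C.map φ) (φ x)) (φ y) := by
    rw [wx_map hI hc]
    exact fj_map hI (fun a ha => (hF.far ha).1) hFJ
  obtain ⟨W, t, y', s', h4⟩ := hon_of_finf p (TWS.ctx0_hv k) (TWS.completeV_hv k)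
    (TWS.sphC_hv k) (TWS.exists_val k) h1 h2
  obtain ⟨W₀, t₀, y₀, h5⟩ := Hon.of_map hI hc h4
  exact ⟨W₀, t₀, y₀, s', h5⟩

end Pool.Agent.TWJ2
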