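import Pool.Agent.Lib.TWJ2.NearI
import Pool.Agent.Lib.TWTR.LemE
import Pool.Agent.Lib.TWM.NNp

/-!
# TANK W, the cover of the infinite first floor: the near copy of `W ^ (1 / p ^ m)` in `C`

`FInf p v C x y s c₀`, `W = WX v C x`, and the precision `E / p ^ m > 0` of `W ^ (1 / p ^ m)` in `C`
(`TWTR.Prec`, helper86).

* `pbasis_root`, `bd_root`: `p`-bases and orthogonality of `E ^ (1 / p ^ m)`;
* **`exists_ncopy`**: the near copy `W' ≤ C` of `W ^ (1 / p ^ m)`, with any gain `γ < E / p ^ m`;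
* `NCp.le_wx`: `W' ≤ WX v C T`, `T` the image of `t`, algebraic over `k(x)`;
* `vg_wx_div`: the values of `WX v C T` are `p`-divisible if those of `W` are;
* **`exists_tgt_copy`**: the image of the root of a letter is tight in `C`, with a margin.
-/

set_option autoImplicit false
set_option linter.unusedSectionVars false

open Polynomial

namespace Pool.Agent.TWJ2

open Pool.Agent.H15JM (RVal)
open Pool.Agent.LU1 (adj)
open Pool.Agent.D2 (Ctx0)
open Pool.Agent.D2P (hen clI mem_clI mem_adj_self rootF mem_rootF)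
open Pool.Agent.TW
open Pool.Agent.TWM
open Pool.Agent.TWM.Dense (apply_mem_map map_inj adj_map isAlgebraic_iff pbasis_iff)
open Pool.Agent.TWS (IsoE SphC VG)
open Pool.Agent.TWC (Dst EW Tgt)
open Pool.Agent.TWCT
open Pool.Agent.TWF
open Pool.Agent.TWTR (Prec)

universe u

variable {k Ω : Type u} [Field k] [Field Ω] [Algebra k Ω] {v : RVal Ω}
  {C E M W W' : IntermediateField k Ω} {p : ℕ} [hp : Fact p.Prime] [CharP Ω p]

/-! ### Roots -/

theorem eq_of_pow {a b : Ω} {m : ℕ} (h : a ^ p ^ m = b ^ p ^ m) : a = b := by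
  have h1 : (a - b) ^ p ^ m = 0 := by rw [sub_pow_char_pow, h, sub_self]
  exact sub_eq_zero.1 (pow_eq_zero_iff (pow_ne_zero m hp.out.ne_zero) |>.1 h1)

omit hp [CharP Ω p] in
theorem mon_pow {n m : ℕ} {t t' : Fin n → Ω} (ht : ∀ i, t' i ^ p ^ m = t i)
    (α : Fin n → Fin p) : mon t' α ^ p ^ m = mon t α := by
  unfold mon
  rw [← Finset.prod_pow]
  refine Finset.prod_congr rfl fun i _ => ?_
  rw [← ht i, ← pow_mul, ← pow_mul, mul_comm]

theorem pcomb_pow {n m : ℕ} {t t' : Fin n → Ω} (ht : ∀ i, t' i ^ p ^ m = t i)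
    (c : (Fin n → Fin p) → Ω) :
    pcomb t' c ^ p ^ m = pcomb t fun α => c α ^ p ^ m := by
  unfold pcomb
  rw [sum_pow_char_pow]
  refine Finset.sum_congr rfl fun α _ => ?_
  rw [mul_pow, mon_pow ht, ← pow_mul, ← pow_mul, mul_comm (p ^ m)]

theorem pbasis_root [IsAlgClosed Ω] {n m : ℕ} {t t' : Fin n → Ω} (ht : ∀ i, t' i ^ p ^ m = t i)
    (h : PBasis p E t) : PBasis p (rootF p m E) t' := by
  have hpm : 0 < p ^ m := pow_pos hp.out.pos m
  refine ⟨fun i => mem_rootF.2 (by rw [ht]; exact h.mem i), fun u hu => ?_, fun c hc h0 α => ?_⟩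
  · obtain ⟨c, hc, h1⟩ := h.span _ (mem_rootF.1 hu)
    choose d hd using fun α => IsAlgClosed.exists_pow_nat_eq (c α) hpm
    refine ⟨d, fun α => mem_rootF.2 (by rw [hd]; exact hc α), ?_⟩
    refine eq_of_pow (p := p) (m := m) ?_
    rw [pcomb_pow ht, h1]
    congr 1
    funext α
    exact (hd α).symm
  · have h1 : pcomb t (fun α => c α ^ p ^ m) = 0 := by
      rw [← pcomb_pow ht, h0, zero_pow hpm.ne']
    have h2 := h.ind _ (fun α => mem_rootF.1 (hc α)) h1 α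
    exact pow_eq_zero_iff hpm.ne' |>.1 h2

theorem orth_root {n m : ℕ} {t t' : Fin n → Ω} (ht : ∀ i, t' i ^ p ^ m = t i) {c₀ : ℝ}
    (h : Orth p v E t c₀) : Orth p v (rootF p m E) t' (c₀ / p ^ m) := by
  have hpm : 0 < p ^ m := pow_pos hp.out.pos m
  have hp0 : ((p : ℝ) ^ m) ≠ 0 := pow_ne_zero m (by exact_mod_cast hp.out.ne_zero)
  intro c hc h0 α
  have h1 : pcomb t (fun α => c α ^ p ^ m) = pcomb t' c ^ p ^ m := (pcomb_pow ht c).symm
  have h2 := h (fun α => c α ^ p ^ m) (fun α => mem_rootF.1 (hc α))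
    (by rw [h1]; exact pow_ne_zero _ h0) α
  refine (TWC.ge_pow_iff (v := v) hpm).1 ?_
  have e1 : (c α ^ p * mon t' α) ^ p ^ m = (c α ^ p ^ m) ^ p * mon t α := by
    rw [mul_pow, mon_pow ht, ← pow_mul, ← pow_mul, mul_comm p]
  rw [e1]
  refine h2.mono (le_of_eq ?_)
  rw [h1, v.map_pow h0]
  push_cast
  field_simp

theorem bd_root [IsAlgClosed Ω] (m : ℕ) (h : BD p v E) : BD p v (rootF p m E) := by
  obtain ⟨n, t, h1, c₀, h2⟩ := h
  choose t' ht using fun i => IsAlgClosed.exists_pow_nat_eq (t i) (pow_pos hp.out.pos m)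
  exact ⟨n, t', pbasis_root ht h1, _, orth_root ht h2⟩

theorem le_root (m : ℕ) (E : IntermediateField k Ω) : E ≤ rootF p m E := fun _ ha =>
  mem_rootF.2 (pow_mem ha _)

theorem alg_rootJ (m : ℕ) {a : Ω} (ha : a ∈ rootF p m E) : IsAlgebraic E a := by
  refine IsAlgebraic.of_pow (pow_pos hp.out.pos m) ?_
  exact isAlgebraic_algebraMap (⟨_, mem_rootF.1 ha⟩ : E)

/-! ### Values -/

omit hp [CharP Ω p] in
/-- The values of algebraic elements. -/
theorem exists_mul_vg {A : IntermediateField k Ω} {a : Ω} (ha : IsAlgebraic A a) (h0 : a ≠ 0) :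
    ∃ n : ℕ, 0 < n ∧ (n : ℝ) * v a ∈ VG v A := by
  obtain ⟨f, hf, hfa⟩ := ha
  obtain ⟨c, hc, hc0, m, hm, -, h1⟩ := TWCT.comm_value_le A h0 hf hfa
  exact ⟨m, hm, by rw [← h1]; exact VG.self hc hc0⟩

omit [CharP Ω p] in
/-- The values of an algebraic extension of a field with `p`-divisible values. -/
theorem vg_div_alg {A B : IntermediateField k Ω} (hAB : A ≤ B)
    (hA : ∀ g ∈ VG v A, g / p ∈ VG v A) (hB : ∀ b ∈ B, IsAlgebraic A b) :
    ∀ g ∈ VG v B, g / p ∈ VG v B := by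
  have hp0 : (p : ℝ) ≠ 0 := by exact_mod_cast hp.out.ne_zero
  rintro _ ⟨b, hb, hb0, rfl⟩
  obtain ⟨n, hn, h1⟩ := exists_mul_vg (v := v) (hB b hb) hb0
  -- the multiple prime to `p`
  have h2 : ∀ e m : ℕ, ((p ^ e * m : ℕ) : ℝ) * v b ∈ VG v A → ((m : ℕ) : ℝ) * v b ∈ VG v A := by
    intro e
    induction e with
    | zero =>
      intro m hm
      rwa [pow_zero, one_mul] at hm
    | succ e ih =>
      intro m hm
      refine ih m ?_
      have h3 := hA _ hm
      have e1 : ((p ^ (e + 1) * m : ℕ) : ℝ) * v b / p = ((p ^ e * m : ℕ) : ℝ) * v b := by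
        push_cast
        rw [pow_succ]
        field_simp
      rwa [e1] at h3
  obtain ⟨e, m, hm, rfl⟩ := Nat.exists_eq_pow_mul_and_not_dvd hn.ne' p hp.out.ne_one
  have h3 := h2 e m h1
  have h4 : ((m : ℕ) : ℝ) * v b / p ∈ VG v B := VG.mono hAB (hA _ h3)
  have hcop : IsCoprime (m : ℤ) (p : ℤ) := by
    rw [Int.isCoprime_iff_gcd_eq_one]
    exact ((Nat.Prime.coprime_iff_not_dvd hp.out).2 hm).symm
  obtain ⟨u, w, huw⟩ := hcop
  have h5 : u • ((m : ℝ) * v b / p) + w • v b ∈ VG v B :=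
    add_mem (zsmul_mem h4 u) (zsmul_mem (VG.self hb hb0) w)
  have e2 : u • ((m : ℝ) * v b / p) + w • v b = v b / p := by
    rw [zsmul_eq_mul, zsmul_eq_mul]
    have h6 : (u : ℝ) * m + w * p = 1 := by exact_mod_cast huw
    field_simp
    linear_combination v b * h6
  rwa [e2] at h5

/-- The values of the field of the roots. -/
theorem vg_div_root [IsAlgClosed Ω] {A : IntermediateField k Ω} (m : ℕ)
    (hA : ∀ g ∈ VG v A, g / p ∈ VG v A) :
    ∀ g ∈ VG v (rootF p m A), g / p ∈ VG v (rootF p m A) :=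
  vg_div_alg (le_root m A) hA fun _ hb => alg_rootJ m hb

omit hp [CharP Ω p] in
theorem NCp.vg {H : Type u} [Field H] [Algebra k H] {w : RVal H} {ι Φ : Ω →ₐ[k] H} {γ : ℝ}
    (h : NCp v w M W γ ι Φ) : VG v W = VG v M := by
  rw [← TWC.vg_map h.ia, ← TWC.vg_map h.ib (A := M), h.map]

/-! ### The near copy -/

section Copy

variable [IsAlgClosed k] [IsAlgClosed Ω] [CharP k p] {x y t T : Ω} {s c₀ γ : ℝ} {m : ℕ}

/-- **The near copy of `W ^ (1 / p ^ m)` in `C`.** -/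
theorem exists_ncopy (hk : Ctx0 k v) (hc : CompleteV v) (h : FInf p v C x y s c₀) {e : ℝ}
    (he : 0 < e) (hP : Prec p v (WX v C x) C m e) (hγ : γ < e / p ^ m) :
    ∃ (W' : IntermediateField k Ω) (ι Φ : Ω →ₐ[k] TWS.HF k), W' ≤ C ∧ Cld v W' ∧
      NCp v (TWS.hv k) (rootF p m (WX v C x)) W' γ ι Φ := by
  have hpm : (0 : ℝ) < (p : ℝ) ^ m := pow_pos (by exact_mod_cast hp.out.pos) m
  have hx : x ∈ C := h.toFF.mem_x
  set F := algIn C (adj (⊥ : IntermediateField k Ω) x) with hF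
  have hpb : PBasis p F ![x] := (pb_W p hk h.oi h.x0 h.vx hx).2
  have hBD : BD p v F := ⟨1, ![x], hpb, c₀, (h.toFF.oi1.mono inf_le_left le_rfl).orth⟩
  obtain ⟨x', hx'⟩ := IsAlgClosed.exists_pow_nat_eq x (pow_pos hp.out.pos m)
  have hpb' : PBasis p (rootF p m F) ![x'] := pbasis_root (t := ![x]) (t' := ![x'])
    (fun i => by
      fin_cases i
      exact hx') hpb
  have hx0' : x' ≠ 0 := fun h0 => h.x0 (by
    rw [← hx', h0, zero_pow (pow_pos hp.out.pos m).ne'])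
  have hLD : LD v (rootF p m F) := (ld_algIn hk h.x0 h.vx hx).alg (le_root m F) fun g hg =>
    alg_rootJ m hg
  have he' : 0 < e / (p : ℝ) ^ m := div_pos he hpm
  obtain ⟨κ, hκ⟩ : ∃ κ, κ = (max γ 0 + e / (p : ℝ) ^ m) / 2 := ⟨_, rfl⟩
  have hm1 : max γ 0 < e / (p : ℝ) ^ m := max_lt hγ he'
  have hm2 : γ ≤ max γ 0 := le_max_left _ _
  have hm3 : 0 ≤ max γ 0 := le_max_right _ _
  obtain ⟨W', ι, Φ, h1, h2, h3⟩ := exists_near_copy (γ := γ) (κ := κ) p hk hc hLD hpb'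
    (bd_root m hBD) hx0' h.toFF.cld (by rw [hκ]; linarith) (fun a ha => by
      have haW : a ∈ rootF p m (WX v C x) := mem_rootF.2 (algIn_le_WX (mem_rootF.1 ha))
      obtain ⟨c, hcC, h4⟩ := hP a haW _ (RVal.ge_self a) (e / (p : ℝ) ^ m - κ)
        (by rw [hκ]; linarith)
      refine ⟨c, hcC, ?_⟩
      rw [← neg_sub]
      exact (h4.mono (by linarith)).neg) (by rw [hκ]; linarith)
  refine ⟨W', ι, Φ, h1, h2, ?_⟩
  have e1 : rootF p m (WX v C x) = clI v (rootF p m F) := (clI_rootF F).symm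
  rw [e1]
  exact h3

variable {H : Type u} [Field H] [Algebra k H] {w : RVal H} {ι Φ : Ω →ₐ[k] H}

/-- **The near copy is algebraic over the image of `t`.** -/
theorem NCp.le_wx (hk : Ctx0 k v) (h : NCp v w (rootF p m (WX v C x)) W' γ ι Φ) (hW' : W' ≤ C)
    (ht : t ∈ rootF p m (algIn C (adj (⊥ : IntermediateField k Ω) x))) (ht0 : t ≠ 0)
    (htv : v t ≠ 0) (hT : ι T = Φ t) : W' ≤ WX v C T := by
  set F := algIn C (adj (⊥ : IntermediateField k Ω) x) with hF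
  have hFalg : F ≤ TWM.algc (adj ⊥ x) := fun a ha => mem_algc.2 (mem_algIn.1 ha).2
  have hRalg : rootF p m F ≤ TWM.algc (adj ⊥ x) := fun a ha =>
    mem_algc.2 (TWM.isAlgebraic_of_algc (D2P.isAlgebraic_mono hFalg (alg_rootJ m ha)))
  have htx : IsAlgebraic (adj (⊥ : IntermediateField k Ω) x) t := mem_algc.1 (hRalg ht)
  have hxt : IsAlgebraic (adj (⊥ : IntermediateField k Ω) t) x :=
    D2P.alg_exchange (TWC.transcendental_of_val hk ht0 htv) htx
  have h4 : adj (⊥ : IntermediateField k Ω) x ≤ TWM.algc (adj ⊥ t) :=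
    D2P.adj_le bot_le (mem_algc.2 hxt)
  have hRt : ∀ a ∈ rootF p m F, IsAlgebraic (adj (⊥ : IntermediateField k Ω) t) a := fun a ha =>
    TWM.isAlgebraic_of_algc (D2P.isAlgebraic_mono h4 (mem_algc.1 (hRalg ha)))
  have hcl : rootF p m (WX v C x) = D2P.clI v (rootF p m F) := (clI_rootF F).symm
  have hadj : (adj (⊥ : IntermediateField k Ω) T).map ι =
      (adj (⊥ : IntermediateField k Ω) t).map Φ := by
    rw [adj_map, adj_map, IntermediateField.map_bot, IntermediateField.map_bot, hT]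
  intro b hb
  obtain ⟨a, ha, hba⟩ := h.exists_src hb
  rw [WX, mem_clI]
  intro c
  rw [hcl] at ha
  obtain ⟨a₀, ha₀, h1⟩ := mem_clI.1 ha c
  obtain ⟨b₀, hb₀, h2⟩ := h.exists_img (a := a₀) (by
    rw [hcl]
    exact TWM.le_clI _ ha₀)
  refine ⟨b₀, mem_algIn.2 ⟨hW' hb₀, ?_⟩, ?_⟩
  · have h5 := (isAlgebraic_iff (ι := Φ)).2 (hRt a₀ ha₀)
    rw [← hadj, ← h2] at h5
    exact isAlgebraic_iff.1 h5
  · have h6 : v.Ge c (a - a₀) := h1
    rw [← h.ib.ge_iff, map_sub, ← hba, ← h2, ← map_sub, h.ia.ge_iff] at h6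
    exact h6

/-- **The values of `WX v C T`.** -/
theorem NCp.wx_div (hk : Ctx0 k v) (h : NCp v w (rootF p m (WX v C x)) W' γ ι Φ) (hW' : W' ≤ C)
    (ht : t ∈ rootF p m (algIn C (adj (⊥ : IntermediateField k Ω) x))) (ht0 : t ≠ 0)
    (htv : v t ≠ 0) (hT : ι T = Φ t)
    (hV : ∀ g ∈ VG v (WX v C x), g / p ∈ VG v (WX v C x)) :
    ∀ g ∈ VG v (WX v C T), g / p ∈ VG v (WX v C T) := by
  have hle := h.le_wx hk hW' ht ht0 htv hT
  have htM : t ∈ rootF p m (WX v C x) := mem_rootF.2 (algIn_le_WX (mem_rootF.1 ht))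
  have hTW : T ∈ W' := h.mem htM hT
  have hV' : ∀ g ∈ VG v W', g / p ∈ VG v W' := by
    rw [h.vg]
    exact vg_div_root m hV
  intro g hg
  rw [WX, TWS.VG.clI] at hg ⊢
  obtain ⟨b, hb, hb0, rfl⟩ := hg
  have hbW : IsAlgebraic W' b :=
    D2P.isAlgebraic_mono (D2P.adj_le bot_le hTW) (mem_algIn.1 hb).2
  have h1 := vg_div_alg (v := v) (p := p) (A := W') (B := adj W' b) (mem_adj_self W' b).2 hV'
    (fun c hc => by
      have h2 : adj W' b ≤ TWM.algc W' := D2P.adj_le (TWM.le_algc W') (mem_algc.2 hbW)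
      exact mem_algc.1 (h2 hc)) (v b) (VG.self (mem_adj_self W' b).1 hb0)
  have h2 : adj W' b ≤ WX v C T := D2P.adj_le hle (algIn_le_WX hb)
  have h3 := VG.mono h2 h1
  rwa [WX, TWS.VG.clI] at h3

/-- **The image of the root of a letter is tight.** -/
theorem NCp.tgt [CharP H p] (h0 : Cld v C) (h : NCp v w (rootF p m W) W' γ ι Φ) (hW' : W' ≤ C)
    {X : ℕ → Ω} {ν e μ : ℝ} (hX : TWTR.Lt p v W X ν) (hμ : 0 < μ) (hγ : (ν + e + μ) / p ^ m ≤ γ)
    (hd : ∀ n, m ≤ n → Dst v C (X (n + 1)) ((v (X 0) + ν + e) / p ^ (n + 1))) :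
    ∃ T : ℕ → Ω, (∀ n, ι (T n) = Φ (X (m + n))) ∧ T 0 ∈ W' ∧
      Tgt p v C T ((v (X 0) + ν + e) / p ^ m) ∧
      (∀ n, v.Ge ((v (X 0) + ν + e + μ) / p ^ (m + n)) (X (m + n) - T n)) ∧
      Dst v W' (T 1) ((v (X 0) + ν) / p ^ (m + 1)) ∧
      ∀ a ∈ W', ∃ Q ∈ PI W', (Q.eval (T 1)) ^ p = a := by
  have hp1 : (0 : ℝ) < p := by exact_mod_cast hp.out.pos
  have hXm : X m ∈ rootF p m W := by
    rw [mem_rootF]
    have := TWC.root_pow_add hX.root 0 m
    rw [zero_add] at this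
    rw [this]
    exact hX.mem
  obtain ⟨T, hT, hT0, hTr, hTn⟩ := h.rts (p := p) (t := fun n => X (m + n))
    (fun n => hX.root (m + n)) hXm
  have hnear : ∀ n, v.Ge ((v (X 0) + ν + e + μ) / p ^ (m + n)) (X (m + n) - T n) := by
    intro n
    have h1 := (hTn n).neg
    rw [neg_sub] at h1
    refine h1.mono ?_
    have hpn : (0 : ℝ) < (p : ℝ) ^ n := pow_pos hp1 n
    have e1 : (v (X 0) + ν + e + μ) / (p : ℝ) ^ (m + n) =
        (v (X 0) / p ^ m + (ν + e + μ) / p ^ m) / p ^ n := by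
      rw [pow_add]
      field_simp
      ring
    rw [e1, Nat.add_zero, hX.val m]
    exact div_le_div_of_nonneg_right (by linarith) hpn.le
  obtain ⟨g, hg0, hg, -⟩ := TWTR.exists_tgt_at (m := m) (g₀ := T 0) h0 hX.root hd (hW' hT0) hμ
    (by
      have := hnear 0
      rwa [Nat.add_zero] at this)
  have hgT : g = T := by
    funext n
    induction n with
    | zero => exact hg0
    | succ n ih =>
      refine eq_of_pow (p := p) (m := 1) ?_
      rw [pow_one, hg.root n, hTr n, ih]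
  rw [hgT] at hg
  refine ⟨T, hT, hT0, hg, hnear, (h.dst (hT 1)).2 (hX.dst_n m), ?_⟩
  refine h.root (hT 1) fun c hc => ?_
  obtain ⟨c', hc'⟩ := IsAlgClosed.exists_pow_nat_eq c hp.out.pos
  obtain ⟨Q, hQ, h1⟩ := hX.rts (n := m + 1) (a := c') (by
    rw [pow_succ', pow_mul, hc']
    exact mem_rootF.1 hc)
  exact ⟨Q, PI_mono (le_root m W) hQ, by rw [h1, hc']⟩

end Copy

end Pool.Agent.TWJ2
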