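import Pool.Agent.Lib.TWJ2.NearW
import Pool.Agent.Lib.TWF.InfDefs
import Pool.Agent.Lib.TWCT.Base

/-!
# TANK W, row J.8 over an infinite `W`

`C` the closure of `k(x, y)` with an infinite first floor (`FInf`), `y` with finitely many jumps over
`W(x)`: there are `x'`, `X` in `C`, `C` the closure of `W(x')(X)`, `X` of transcendental type over
`W(x')`.
-/

set_option autoImplicit false

open Polynomial

namespace Pool.Agent.TWJ2

open Pool.Agent.H15JM (RVal)
open Pool.Agent.LU1 (adj)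
open Pool.Agent.D2 (Ctx0)
open Pool.Agent.D2P (hen clI mem_clI mem_adj_self)
open Pool.Agent.TW
open Pool.Agent.TWJ (IsMin)
open Pool.Agent.TWM
open Pool.Agent.TWS (IsoE SphC VG)
open Pool.Agent.TWCT (StrM LD)
open Pool.Agent.TWF

universe u

variable {k Ω : Type u} [Field k] [Field Ω] [Algebra k Ω] {v : RVal Ω}
  {C F : IntermediateField k Ω} {x y : Ω} {s c₀ : ℝ}

/-! ### The field `W(x)` before the closure -/

theorem adj_le_algIn (hx : x ∈ C) : adj (⊥ : IntermediateField k Ω) x ≤ algIn C (adj ⊥ x) :=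
  fun a ha => mem_algIn.2 ⟨D2P.adj_le bot_le hx ha, isAlgebraic_algebraMap (⟨a, ha⟩ : adj ⊥ x)⟩

theorem hen_algIn (hC : Cld v C) : hen v (algIn C (adj (⊥ : IntermediateField k Ω) x)) =
    algIn C (adj ⊥ x) := by
  refine le_antisymm (fun a ha => ?_) (D2P.le_hen _)
  obtain ⟨h1, h2⟩ := D2P.mem_hen.1 ha
  have h3 : a ∈ clI v (algIn C (adj (⊥ : IntermediateField k Ω) x)) := mem_clI.2 h1
  have h4 : algIn C (adj (⊥ : IntermediateField k Ω) x) ≤ TWM.algc (adj ⊥ x) := inf_le_right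
  exact mem_algIn.2 ⟨WX_le hC h3, TWM.isAlgebraic_of_algc
    (D2P.isAlgebraic_mono h4 h2.isIntegral.isAlgebraic)⟩

/-- `k(x)` is locally discrete. -/
theorem ld_adj (hk : Ctx0 k v) (hx0 : x ≠ 0) (hxv : v x ≠ 0) :
    LD v (adj (⊥ : IntermediateField k Ω) x) := by
  intro S hS
  have hxm := (mem_adj_self (⊥ : IntermediateField k Ω) x).1
  have hval : ∀ g ∈ adj (⊥ : IntermediateField k Ω) x, g ≠ 0 → ∃ m : ℤ, v g = m * v x :=
    fun g hg hg0 => TWCT.val_cadj_bot hk hx0 hxv (TWM.le_clI _ hg) hg0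
  refine ⟨_, le_rfl, hS, ?_⟩
  rcases lt_or_gt_of_ne hxv with hlt | hgt
  · refine ⟨x⁻¹, inv_mem hxm, inv_ne_zero hx0, by rw [v.map_inv hx0]; linarith, ?_⟩
    intro g hg hg0
    obtain ⟨m, hm⟩ := hval g hg hg0
    refine ⟨-m, ?_⟩
    rw [v.map_inv hx0, hm]
    push_cast
    ring
  · exact ⟨x, hxm, hx0, hgt, hval⟩

theorem ld_algIn (hk : Ctx0 k v) (hx0 : x ≠ 0) (hxv : v x ≠ 0) (hx : x ∈ C) :
    LD v (algIn C (adj (⊥ : IntermediateField k Ω) x)) :=
  (ld_adj hk hx0 hxv).alg (adj_le_algIn hx) fun _ ha => (mem_algIn.1 ha).2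

/-- An infinite first floor has dense values. -/
theorem dns_of_inf (hk : Ctx0 k v) (hx0 : x ≠ 0) (hxv : v x ≠ 0) (hx : x ∈ C)
    (hinf : WInf v C x) : Dns v (algIn C (adj (⊥ : IntermediateField k Ω) x)) := by
  set F := algIn C (adj (⊥ : IntermediateField k Ω) x) with hF
  have hxF : x ∈ F := adj_le_algIn hx (mem_adj_self _ x).1
  rcases AddSubgroup.dense_or_cyclic (VG v F) with h1 | ⟨a, h1⟩
  · intro b c hbc
    obtain ⟨z, hz, h2⟩ := h1.exists_between hbc
    obtain ⟨g, hg, hg0, rfl⟩ := hz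
    exact ⟨g, hg, hg0, h2.1, h2.2⟩
  · exfalso
    have ha : a ∈ VG v F := by
      rw [h1]
      exact AddSubgroup.subset_closure rfl
    obtain ⟨π, hπ, hπ0, hπa⟩ := ha
    have hval : ∀ g ∈ F, g ≠ 0 → ∃ m : ℤ, v g = m * a := by
      intro g hg hg0
      have h2 : v g ∈ VG v F := VG.self hg hg0
      rw [h1, AddSubgroup.mem_closure_singleton] at h2
      obtain ⟨m, hm⟩ := h2
      exact ⟨m, by rw [← hm, zsmul_eq_mul]⟩
    have ha0 : a ≠ 0 := by
      rintro rfl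
      obtain ⟨m, hm⟩ := hval x hxF hx0
      rw [mul_zero] at hm
      exact hxv hm
    obtain ⟨π', hπ', hπ'0, hπ'v, hval'⟩ : ∃ π' ∈ F, π' ≠ 0 ∧ 0 < v π' ∧
        ∀ g ∈ F, g ≠ 0 → ∃ m : ℤ, v g = m * v π' := by
      rcases lt_or_gt_of_ne ha0 with hlt | hgt
      · refine ⟨π⁻¹, inv_mem hπ, inv_ne_zero hπ0, by rw [v.map_inv hπ0, hπa]; linarith, ?_⟩
        intro g hg hg0
        obtain ⟨m, hm⟩ := hval g hg hg0
        refine ⟨-m, ?_⟩
        rw [v.map_inv hπ0, hπa, hm]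
        push_cast
        ring
      · exact ⟨π, hπ, hπ0, by rw [hπa]; exact hgt, by rw [hπa]; exact hval⟩
    refine hinf π' hπ' ((le_cadj_of_unif hk hπ' hπ'0 hπ'v hval').trans ?_)
    exact clI_mono (D2P.adj_le bot_le (mem_adj_self _ π').1)

/-! ### Finitely many jumps, the closure -/

/-- A monic polynomial over `F` near to a polynomial over the closure. -/
theorem exists_near_poly_cl (g : (clI v F)[X]) (hg : g.Monic) (η : Ω) (B : ℝ) :
    ∃ g' : F[X], g'.Monic ∧ g'.natDegree = g.natDegree ∧ v.Ge B (aeval η g' - aeval η g) := by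
  classical
  set m := g.natDegree with hm
  set c : ℝ := B + m * |v η| with hc
  have h1 : ∀ i : ℕ, ∃ b : F, v.Ge c ((g.coeff i : Ω) - b) := by
    intro i
    obtain ⟨b, hb, h2⟩ := (mem_clI.1 (g.coeff i).2) c
    exact ⟨⟨b, hb⟩, h2⟩
  choose b hb using h1
  set r : F[X] := ∑ i ∈ Finset.range m, Polynomial.C (b i) * X ^ i with hr
  have hrd : r.degree < m := by
    refine (degree_sum_le _ _).trans_lt ?_
    rw [Finset.sup_lt_iff (by exact_mod_cast WithBot.bot_lt_coe m)]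
    intro i hi
    refine (degree_C_mul_X_pow_le i (b i)).trans_lt ?_
    exact_mod_cast Finset.mem_range.1 hi
  refine ⟨X ^ m + r, monic_X_pow_add hrd, ?_, ?_⟩
  · rw [natDegree_add_eq_left_of_degree_lt, natDegree_X_pow]
    rwa [degree_X_pow]
  · have h2 : aeval η g = η ^ m + ∑ i ∈ Finset.range m, (g.coeff i : Ω) * η ^ i := by
      rw [aeval_eq_sum_range, Finset.sum_range_succ, add_comm]
      congr 1
      have h3 : g.coeff g.natDegree = 1 := hg
      rw [← hm] at h3 ⊢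
      rw [h3, one_smul]
    have h3 : aeval η (X ^ m + r) = η ^ m + ∑ i ∈ Finset.range m, (b i : Ω) * η ^ i := by
      rw [_root_.map_add, _root_.map_pow, aeval_X, hr, map_sum]
      congr 1
      refine Finset.sum_congr rfl fun i _ => ?_
      rw [_root_.map_mul, aeval_C, _root_.map_pow, aeval_X]
      rfl
    rw [h2, h3, add_sub_add_left_eq_sub, ← Finset.sum_sub_distrib]
    refine RVal.Ge.sum _ _ fun i hi => ?_
    have h4 : (b i : Ω) * η ^ i - (g.coeff i : Ω) * η ^ i =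
        -(((g.coeff i : Ω) - b i) * η ^ i) := by ring
    rw [h4]
    have h5 : v.Ge (i * v η) (η ^ i) := by
      by_cases h0 : η = 0
      · rcases Nat.eq_zero_or_pos i with rfl | hi0
        · rw [pow_zero, Nat.cast_zero, zero_mul]
          exact RVal.Ge.of_le (by rw [v.map_one])
        · rw [h0, zero_pow hi0.ne']
          exact RVal.Ge.zero
      · exact RVal.Ge.of_le (by rw [v.map_pow h0])
    refine ((hb i).mul h5).neg.mono ?_
    have h6 : (i : ℝ) ≤ m := by exact_mod_cast (Finset.mem_range.1 hi).le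
    have h7 : -|v η| ≤ v η := neg_abs_le _
    have h8 : (i : ℝ) * |v η| ≤ m * |v η| := mul_le_mul_of_nonneg_right h6 (abs_nonneg _)
    have h9 : -((i : ℝ) * |v η|) ≤ i * v η := by
      have := mul_le_mul_of_nonneg_left h7 (Nat.cast_nonneg (α := ℝ) i)
      linarith
    linarith

/-- Finitely many jumps over the closure. -/
theorem FJ.of_clI [IsAlgClosed Ω] (hne : ∀ ξ : Ω, IsAlgebraic (clI v F) ξ → y ≠ ξ)
    (h : FJ v (clI v F) y) : FJ v F y := by
  obtain ⟨d, hd⟩ := h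
  refine ⟨d, fun ξ hξ => ?_⟩
  obtain ⟨η, hη, hηd, h1⟩ := hd ξ (D2P.isAlgebraic_mono (TWM.le_clI F) hξ)
  have hint := hη.isIntegral
  obtain ⟨g', hg1, hg2, hg3⟩ := exists_near_poly_cl (minpoly (clI v F) η) (minpoly.monic hint) η
    ((minpoly (clI v F) η).natDegree * v (y - η) + 1)
  rw [minpoly.aeval, sub_zero] at hg3
  by_cases h0 : aeval η g' = 0
  · refine ⟨η, ⟨g', hg1.ne_zero, h0⟩, ?_, h1⟩
    exact ((natDegree_le_of_dvd (minpoly.dvd F η h0) hg1.ne_zero).trans hg2.le).trans hηd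
  · obtain ⟨β, hβ1, hβ2, hβ3⟩ := TW.exists_near_root (v := v) hg1 h0 (ρ := v (y - η)) (by
      rw [hg2]
      have := hg3 h0
      linarith)
    refine ⟨β, ⟨g', hg1.ne_zero, hβ1⟩, ?_, ?_⟩
    · exact ((natDegree_le_of_dvd (minpoly.dvd F β hβ1) hg1.ne_zero).trans hg2.le).trans hηd
    · have h2 := v.add_of_lt (sub_ne_zero.2 (hne η hη)) hβ2 hβ3
      rw [sub_add_sub_cancel] at h2
      rw [h2.2]
      exact h1

/-! ### The honest first floor -/

/-- `C` is the closure of `W(x)(y)`, `W(x)` the closed algebraic closure of `k(x)` in `C`, infinite,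
and `y` of transcendental type over `W(x)`. -/
structure HonC (p : ℕ) (v : RVal Ω) (C : IntermediateField k Ω) (x y : Ω) (s c₀ : ℝ) : Prop where
  x0 : x ≠ 0
  vx : v x ≠ 0
  mx : x ∈ C
  eq : C = cadj v (WX v C x) y
  tl : TL v (WX v C x) y s
  oi : OI p v C ![x, y] c₀
  inf : WInf v C x

variable [IsAlgClosed k] [IsAlgClosed Ω]

theorem hon_of_fj (p : ℕ) [hp : Fact p.Prime] [CharP k p] [CharP Ω p] (hk : Ctx0 k v)
    (hc : CompleteV v) (hw : SphC v) (hval : ∀ r : ℝ, ∃ x : Ω, x ≠ 0 ∧ v x = r)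
    (h : FInf p v C x y s c₀) (hFJ : FJ v (WX v C x) y) :
    ∃ (Φ : Ω →ₐ[k] Ω) (η y' : Ω) (s' c' : ℝ), IsoE v v Φ ∧ HonC p v C (Φ x) y' s' c' ∧
      IsSeparable (algIn C (adj (⊥ : IntermediateField k Ω) x)) η ∧
      WX v C (Φ x) = (clI v (adj (algIn C (adj (⊥ : IntermediateField k Ω) x)) η)).map Φ := by
  have hC : Cld v C := h.toFF.cld
  have hx : x ∈ C := h.toFF.mem_x
  set F := algIn C (adj (⊥ : IntermediateField k Ω) x) with hFdef
  have hFW : WX v C x = clI v F := rfl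
  have hxF : x ∈ F := adj_le_algIn hx (mem_adj_self _ x).1
  have hFh : hen v F = F := hen_algIn hC
  have hLD : LD v F := ld_algIn hk h.x0 h.vx hx
  have hpb : PBasis p F ![x] := (pb_W p hk h.oi h.x0 h.vx hx).2
  have hBD : BD p v F := ⟨1, ![x], hpb, c₀, (h.toFF.oi1.mono inf_le_left le_rfl).orth⟩
  have hDns : Dns v F := dns_of_inf hk h.x0 h.vx hx h.inf
  have hfar : ∀ ξ : Ω, IsAlgebraic F ξ → y ≠ ξ ∧ v (y - ξ) < s := fun ξ hξ =>
    h.far (D2P.isAlgebraic_mono algIn_le_WX hξ)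
  have hy : Transcendental F y := fun h1 => (hfar y h1).1 rfl
  have hCF : cadj v F y = C := by
    refine le_antisymm (TWM.cadj_le hC inf_le_left h.toFF.mem_y) ?_
    rw [h.toFF.eq]
    refine TWM.cadj_le (cld_cadj v _ _) ?_ (self_mem_cadj v _ _)
    exact TWM.cadj_le (cld_cadj v _ _) bot_le (le_cadj v _ _ hxF)
  have hFJ' : FJ v F y := FJ.of_clI (fun ξ hξ => (h.far hξ).1) hFJ
  have hcl : ∀ ξ : Ω, IsAlgebraic F ξ → ∃ ξ' : Ω, IsAlgebraic F ξ' ∧ v (y - ξ) < v (y - ξ') := by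
    intro ξ hξ
    have hlt := (hfar ξ hξ).2
    obtain ⟨e, he, h1⟩ := h.tl.lim ((s - v (y - ξ)) / 2) (by linarith)
    obtain ⟨a, ha, h2⟩ := mem_clI.1 he (s - (s - v (y - ξ)) / 2)
    obtain ⟨j, hj⟩ := (mem_perfC p).1 ha
    have haF : IsAlgebraic F a := by
      refine IsAlgebraic.of_pow (pow_pos hp.out.pos j) ?_
      exact isAlgebraic_algebraMap (⟨a ^ p ^ j, hj⟩ : F)
    refine ⟨a, haF, ?_⟩
    have h3 : v.Ge (s - (s - v (y - ξ)) / 2) (y - a) := by
      have e1 : y - a = (y - e) + (e - a) := by ring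
      rw [e1]
      exact h1.add h2
    have h4 := h3 (sub_ne_zero.2 (hfar a haF).1)
    linarith
  obtain ⟨ρ, s₁, W, S⟩ := exists_sel hk hcl hDns hy (fun ξ hξ => (hfar ξ hξ).2.le) hFJ'
  obtain ⟨η, Φ, g, hη, hΦ, hg, hΦs, hEC, hTL, hgen⟩ :=
    j8_base p hk hw hval hFh hLD hpb hBD h.x0 hy S
  rw [hCF] at hEC hgen
  set M := adj F η with hM
  have hFM : F ≤ M := (mem_adj_self F η).2
  set E := M.map Φ with hE
  have hx0 : Φ x ≠ 0 := IsoE.ne_zero h.x0
  have hxv : v (Φ x) = v x := hΦ.val x h.x0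
  have hxE : Φ x ∈ E := ⟨x, hFM hxF, rfl⟩
  have hle : adj (⊥ : IntermediateField k Ω) (Φ x) ≤ E := D2P.adj_le bot_le hxE
  -- `E` is in the algebraic closure of `k(x')`
  have hMalg : M ≤ TWM.algc (adj ⊥ x) := by
    refine D2P.adj_le inf_le_right (mem_algc.2 ?_)
    exact TWM.isAlgebraic_of_algc
      (D2P.isAlgebraic_mono (inf_le_right : F ≤ _) hη.sep.isIntegral.isAlgebraic)
  have hEalg : E ≤ algIn C (adj ⊥ (Φ x)) := by
    rintro _ ⟨b, hb, rfl⟩
    refine mem_algIn.2 ⟨hEC ⟨b, hb, rfl⟩, ?_⟩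
    have h1 : (adj (⊥ : IntermediateField k Ω) x).map Φ = adj ⊥ (Φ x) := by
      rw [TWM.Dense.adj_map, IntermediateField.map_bot]
    have h2 := (TWM.Dense.isAlgebraic_iff (ι := Φ)).2 (mem_algc.1 (hMalg hb))
    rwa [h1] at h2
  -- the closures
  have hTL' : TL v (clI v E) (aeval y (minpoly F η)) W :=
    TWC.TL.base hTL (TWM.le_clI _) (clI_mono (le_algc _))
  have hgen' : cadj v (clI v E) (aeval y (minpoly F η)) = C := by
    rw [clI_adj_clI]
    exact hgen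
  have hWX : WX v C (Φ x) = clI v E := by
    refine le_antisymm (TWC.clI_le' (fun a ha => ?_) (cld_clI v _)) (clI_mono hEalg)
    obtain ⟨h1, h2⟩ := mem_algIn.1 ha
    rw [← hgen'] at h1
    exact hTL'.alg_mem p (cld_clI v _) h1
      (D2P.isAlgebraic_mono (hle.trans (TWM.le_clI _)) h2)
  -- the `p`-basis
  have hpbM : PBasis p M ![x] := hpb.of_sep p hFM (sep_adj hη.sep)
  obtain ⟨c₁, hoM⟩ := (bd_adj_hen p hk hFh hBD hη.sep).orth hpbM
  have hvec : (fun i => Φ ((![x] : Fin 1 → Ω) i)) = ![Φ x] := by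
    funext i
    fin_cases i
    rfl
  have hpbE : PBasis p E ![Φ x] := by
    have h1 := (TWM.Dense.pbasis_iff (ι := Φ)).2 hpbM
    rwa [hvec] at h1
  have hoE : OI p v E ![Φ x] c₁ := by
    have h1 := hΦ.orth_iff.2 hoM
    rw [hvec] at h1
    exact OI.of_orth h1 hpbE
  have hoC : OI p v C ![Φ x, aeval y (minpoly F η)]
      (c₁ + (p - 1 : ℕ) * (W - v (aeval y (minpoly F η)))) := by
    have h1 := OI.step hTL' hoE.cl (fun i => by
      fin_cases i
      exact TWM.le_clI _ hxE) (fun i => by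
      fin_cases i
      exact hx0)
    rw [hgen'] at h1
    have h2 : (Fin.snoc ![Φ x] (aeval y (minpoly F η)) : Fin (1 + 1) → Ω) =
        ![Φ x, aeval y (minpoly F η)] := by
      funext i
      fin_cases i
      · rfl
      · rfl
    rwa [h2] at h1
  -- infinite
  have hinf : WInf v C (Φ x) := by
    intro w hw hle'
    obtain ⟨π, -, hπ0, hπv, hmin, -⟩ := disc_cl' hk hx0 (by rw [hxv]; exact h.vx)
      (mem_algIn.1 hw).2
    obtain ⟨f, hf, hf0, hf1, hf2⟩ := hDns 0 (v π) hπv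
    have h1 : Φ f ∈ clI v (adj (adj ⊥ (Φ x)) w) := hle' (hEalg ⟨f, hFM hf, rfl⟩)
    obtain ⟨b, hb, h2⟩ := (mem_clI.1 h1) (v π)
    have h2' : v.Ge (v π) (Φ f - b) := h2
    have hΦf : Φ f ≠ 0 := IsoE.ne_zero hf0
    have h3 : b ≠ 0 ∧ v b = v f := by
      have h4 := Gt.val_eq (v := v) (x := Φ f) (y := b) hΦf (fun h5 => by
        have h6 := h2' h5
        rw [hΦ.val f hf0]
        linarith)
      rw [hΦ.val f hf0] at h4
      exact h4
    have h4 := hmin b hb h3.1 (by rw [h3.2]; exact hf1)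
    rw [h3.2] at h4
    linarith
  refine ⟨Φ, η, aeval y (minpoly F η), W, _, hΦ, ⟨hx0, by rw [hxv]; exact h.vx, hEC hxE, ?_, ?_,
    hoC, hinf⟩, hη.sep, ?_⟩
  · rw [hWX, hgen']
  · rw [hWX]
    exact hTL'
  · rw [hWX, hE, hΦ.clI_map hc]

end Pool.Agent.TWJ2
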