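import Pool.Agent.Lib.TWJ2.Defs
import Pool.Agent.Lib.TWM.A2
import Pool.Agent.Lib.TWM.D1
import Pool.Agent.Lib.TWM.Ent1
import Pool.Agent.Lib.TW.A2

/-!
# TANK W, ROW J: the algebraic part of a flag with finitely many jumps

* `J8`: the statement of J.8: if `y` has finitely many jumps over `C`, it is of transcendental type
  over the closure of one finite extension of `C`;
* `alg_bound`: if `y` has finitely many jumps over `C` and `z` is of transcendental type over the
  closure of `C(y)`, the elements of the closure of `C(y, z)` which are algebraic over `C` are in the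
  closure of one finite extension of `C`;
* `alg_swap`: fields of the same finite transcendence degree;
* `not_FJ_of_inf`: if `K` contains elements, algebraic over `C₀`, which are not in the closure of a
  finitely generated algebraic extension of `C₀`, the flags over `C₀` have infinitely many jumps.
-/

set_option autoImplicit false

open Polynomial Algebra

namespace Pool.Agent.TWJ2

open Pool.Agent.H15JM (RVal)
open Pool.Agent.LU1 (adj)
open Pool.Agent.D2P (clI isAlgebraic_mono mem_adj_self adj_le)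
open Pool.Agent.TW (Full BD trdeg_eq_of_alg)
open Pool.Agent.TWM (TL Cld cadj algc mem_algc clI_adj_clI cadj_mono cld_clI clI_mono le_clI)

universe u

variable {k Ω : Type u} [Field k] [Field Ω] [Algebra k Ω]

/-- **J.8, statement** (type). -/
def J8 (p : ℕ) (v : RVal Ω) (k : Type u) [Field k] [Algebra k Ω] : Prop :=
  ∀ (C : IntermediateField k Ω) (y : Ω), C.FG → Full v C → BD p v C → Transcendental C y →
    BD p v (adj C y) → FJ v C y → ∃ C₁ : IntermediateField k Ω, C ≤ C₁ ∧ C₁.FG ∧
      (∀ x ∈ C₁, IsAlgebraic C x) ∧ Full v C₁ ∧ BD p v C₁ ∧ ∃ s : ℝ, TL v (clI v C₁) y s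

variable {p : ℕ} {v : RVal Ω}

/-- The algebraic elements of the closure of `C(y, z)`, for a honest tower. -/
theorem mem_of_alg [IsAlgClosed Ω] [Fact p.Prime] [CharP Ω p] {C C₁ : IntermediateField k Ω}
    {y z : Ω} {s s₁ : ℝ} (hCC : C ≤ C₁) (hy : TL v (clI v C₁) y s₁)
    (hz : TL v (clI v (adj C y)) z s) {w : Ω} (hw : w ∈ clI v (adj (adj C y) z))
    (ha : IsAlgebraic C w) : w ∈ clI v C₁ := by
  have h1 : w ∈ clI v (adj C y) := by
    refine hz.alg_mem p (cld_clI v _) ?_ ?_
    · rw [clI_adj_clI]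
      exact hw
    · exact isAlgebraic_mono (fun a ha => le_clI _ ((mem_adj_self C y).2 ha)) ha
  refine hy.alg_mem p (cld_clI v _) ?_ (isAlgebraic_mono (hCC.trans (le_clI _)) ha)
  rw [clI_adj_clI]
  refine clI_mono (adj_le ?_ ?_) h1
  · exact fun a ha => (mem_adj_self C₁ y).2 (hCC ha)
  · exact (mem_adj_self C₁ y).1

/-- With finitely many jumps the algebraic part of a flag is in the closure of a finite extension of
the base. -/
theorem alg_bound [IsAlgClosed Ω] [Fact p.Prime] [CharP Ω p] (hJ8 : J8 p v k) {d : ℕ}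
    {K C : IntermediateField k Ω} {y z : Ω} {s : ℝ} (hfl : Flg p v d K C y z)
    (hz : TL v (clI v (adj C y)) z s) (hFJ : FJ v C y) : ∃ C₁ : IntermediateField k Ω,
      C ≤ C₁ ∧ C₁.FG ∧ (∀ x ∈ C₁, IsAlgebraic C x) ∧ Full v C₁ ∧ BD p v C₁ ∧
        (∃ s₁ : ℝ, TL v (clI v C₁) y s₁) ∧ ∀ w ∈ K, IsAlgebraic C w → w ∈ clI v C₁ := by
  obtain ⟨C₁, h1, h2, h3, h4, h5, s₁, h6⟩ := hJ8 C y hfl.fg hfl.full hfl.bd hfl.ty hfl.bdy hFJ
  refine ⟨C₁, h1, h2, h3, h4, h5, ⟨s₁, h6⟩, fun w hw ha => ?_⟩
  rw [hfl.cl] at hw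
  exact mem_of_alg (p := p) h1 h6 hz hw ha

/-- Two fields of the same finite transcendence degree: algebraic in one direction, algebraic in
the other one. -/
theorem alg_swap {C C₀ : IntermediateField k Ω} {n : ℕ} (h : ∀ x ∈ C, IsAlgebraic C₀ x)
    (hC : Algebra.trdeg k C = n) (hC₀ : Algebra.trdeg k C₀ = n) :
    ∀ x : Ω, IsAlgebraic C₀ x → IsAlgebraic C x := by
  set B : IntermediateField k Ω := algc C₀ with hB
  have hle : C₀ ≤ B := fun a ha =>
    mem_algc.2 (isAlgebraic_algebraMap (R := C₀) (A := Ω) (⟨a, ha⟩ : C₀))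
  have hCB : C ≤ B := fun a ha => mem_algc.2 (h a ha)
  have hBn : Algebra.trdeg k B = n := by
    rw [trdeg_eq_of_alg hle fun a ha => mem_algc.1 ha, hC₀]
  let _ : Algebra C B := (IntermediateField.inclusion hCB).toRingHom.toAlgebra
  have _ : IsScalarTower k C B := IsScalarTower.of_algebraMap_eq fun _ => rfl
  have _ : IsScalarTower C B Ω := IsScalarTower.of_algebraMap_eq fun _ => rfl
  have _ : FaithfulSMul C B :=
    (faithfulSMul_iff_algebraMap_injective C B).2 (algebraMap C B).injective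
  have h1 := trdeg_add_eq k C (A := B)
  rw [hC, hBn] at h1
  have h2 : Algebra.trdeg C B = 0 :=
    Cardinal.eq_of_add_eq_add_left (h1.trans (add_zero _).symm) Cardinal.natCast_lt_aleph0
  intro x hx
  have h3 := (trdeg_eq_zero_iff.1 h2).isAlgebraic (⟨x, mem_algc.2 hx⟩ : B)
  exact (isAlgebraic_algebraMap_iff (R := C) (A := Ω) (algebraMap B Ω).injective).2 h3

/-- **The base change.** If `K` contains a set `W` of elements, algebraic over `C₀`, which is not in
the closure of an algebraic finitely generated extension of `C₀`, then `y` has infinitely many jumps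
over `C`, for every flag `(C, y, z)` of `K` over `C₀` with `z` of transcendental type. -/
theorem not_FJ_of_inf [IsAlgClosed Ω] [Fact p.Prime] [CharP Ω p] (hJ8 : J8 p v k) {d : ℕ}
    {K C₀ : IntermediateField k Ω} (hd : Algebra.trdeg k C₀ = d) {W : Set Ω} (hWK : W ⊆ K)
    (hWa : ∀ w ∈ W, IsAlgebraic C₀ w)
    (hinf : ∀ C₁ : IntermediateField k Ω, C₁.FG → (∀ x ∈ C₁, IsAlgebraic C₀ x) →
      ¬ W ⊆ clI v C₁) {C : IntermediateField k Ω} (hC : ∀ x ∈ C, IsAlgebraic C₀ x) {y z : Ω}
    {s : ℝ} (hfl : Flg p v d K C y z) (hz : TL v (clI v (adj C y)) z s) : ¬ FJ v C y := by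
  intro hFJ
  obtain ⟨C₁, h1, h2, h3, -, -, -, h4⟩ := alg_bound hJ8 hfl hz hFJ
  have h5 : C ≤ algc C₀ := fun a ha => mem_algc.2 (hC a ha)
  refine hinf C₁ h2 (fun x hx => ?_) fun w hw =>
    h4 w (hWK hw) (alg_swap hC hfl.tr hd w (hWa w hw))
  have h6 : IsAlgebraic (algc C₀) x := isAlgebraic_mono h5 (h3 x hx)
  exact TWM.isAlgebraic_of_algc h6

end Pool.Agent.TWJ2
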