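import Pool.Agent.Lib.TWJ2.Hens

/-!
# TANK W, ROW J, SOFT J, cell (A): distance to the `p`-th powers on a disc

`DLe p v M y b κ G`, `DGe p v M y b κ G`: the supremum `D` of the Gauss values of `G - g ^ p`,
`g` over `M`, on the disc of radius `b` around `y` is `≤ κ`, resp. `≥ κ`.
* `exists_unit_disc`: a polynomial over `M` without roots in the disc has approximate inverses;
* `DGe.of_mul_pow`, `DLe.mul_pow` (MU): `D (G * ρ ^ p) = D G + p * w(ρ)`;
* `DT.bp` (BP): if `D` grows by `p k (β_w - β_b)` from the radius `b` to the radius `w`, then it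
  grows by at least `p k` times the growth of the key polynomial from every `u < b` to `b`.
-/

set_option autoImplicit false

open Polynomial IntermediateField

namespace Pool.Agent.TWJ2

open Pool.Agent.H15JM (RVal)
open Pool.Agent.D2 (Ctx0)
open Pool.Agent.D2P (hen clI)
open Pool.Agent.TWM (Gt GB PI C_mem_PI X_mem_PI isAlgebraic_root)

universe u

section Dist

variable {k Ω : Type u} [Field k] [Field Ω] [Algebra k Ω] {p : ℕ} {v : RVal Ω}
  {M : IntermediateField k Ω} {y : Ω} {b b' κ κ' lam : ℝ} {G H ρ : Polynomial Ω}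

/-- The distance of `G` to the `p`-th powers at the radius `b` is `≤ κ`. -/
def DLe (p : ℕ) (v : RVal Ω) (M : IntermediateField k Ω) (y : Ω) (b κ : ℝ)
    (G : Polynomial Ω) : Prop :=
  ∀ e : ℝ, 0 < e → ∀ g ∈ PI M, ¬ GB v b (κ + e) (taylor y (G - g ^ p))

/-- The distance of `G` to the `p`-th powers at the radius `b` is `≥ κ`. -/
def DGe (p : ℕ) (v : RVal Ω) (M : IntermediateField k Ω) (y : Ω) (b κ : ℝ)
    (G : Polynomial Ω) : Prop :=
  ∀ ε : ℝ, 0 < ε → ∃ g ∈ PI M, GB v b (κ - ε) (taylor y (G - g ^ p))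

theorem DGe.mono (h : DGe p v M y b κ G) (hk : κ' ≤ κ) : DGe p v M y b κ' G := fun ε hε => by
  obtain ⟨g, h1, h2⟩ := h ε hε
  exact ⟨g, h1, h2.mono (by linarith)⟩

theorem DLe.mono (h : DLe p v M y b κ G) (hk : κ ≤ κ') : DLe p v M y b κ' G :=
  fun e he g hg h2 => h e he g hg (h2.mono (by linarith))

theorem DGe.of_gt (h : ∀ ε : ℝ, 0 < ε → DGe p v M y b (κ - ε) G) : DGe p v M y b κ G :=
  fun ε hε => by
  obtain ⟨g, h1, h2⟩ := h (ε / 2) (by linarith) (ε / 2) (by linarith)
  exact ⟨g, h1, h2.mono (by linarith)⟩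

theorem DLe.of_lt (h : ∀ ε : ℝ, 0 < ε → DLe p v M y b (κ + ε) G) : DLe p v M y b κ G :=
  fun e he g hg h2 => h (e / 2) (by linarith) (e / 2) (by linarith) g hg (h2.mono (by linarith))

theorem DGe.radius (h : DGe p v M y b κ G) (hb : b ≤ b') : DGe p v M y b' κ G := fun ε hε => by
  obtain ⟨g, h1, h2⟩ := h ε hε
  exact ⟨g, h1, h2.radius_le hb⟩

theorem DLe.radius (h : DLe p v M y b' κ G) (hb : b ≤ b') : DLe p v M y b κ G :=
  fun e he g hg h2 => h e he g hg (h2.radius_le hb)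

theorem DGe.le (h : DGe p v M y b κ G) (h' : DLe p v M y b κ' G) : κ ≤ κ' := by
  by_contra hlt
  push Not at hlt
  obtain ⟨g, h1, h2⟩ := h ((κ - κ') / 2) (by linarith)
  exact h' ((κ - κ') / 2) (by linarith) g h1 (h2.mono (by linarith))

/-- Trichotomy. -/
theorem DGe_of_not_DLe (h : ¬ DLe p v M y b κ G) : ∃ e : ℝ, 0 < e ∧ DGe p v M y b (κ + e) G := by
  unfold DLe at h
  push Not at h
  obtain ⟨e, he, g, hg, h1⟩ := h
  exact ⟨e, he, fun ε hε => ⟨g, hg, h1.mono (by linarith)⟩⟩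

theorem DLe_of_not_DGe (h : ¬ DGe p v M y b κ G) : ∃ e : ℝ, 0 < e ∧ DLe p v M y b (κ - e) G := by
  unfold DGe at h
  push Not at h
  obtain ⟨ε, hε, h1⟩ := h
  exact ⟨ε, hε, fun e he g hg h2 => h1 g hg (h2.mono (by linarith))⟩

theorem DLe_or_DGe (p : ℕ) (v : RVal Ω) (M : IntermediateField k Ω) (y : Ω) (b κ : ℝ)
    (G : Polynomial Ω) : DLe p v M y b κ G ∨ DGe p v M y b κ G := by
  by_cases h : DLe p v M y b κ G
  · exact Or.inl h
  · obtain ⟨e, he, h1⟩ := DGe_of_not_DLe h
    exact Or.inr (h1.mono (by linarith))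

theorem DGe.of_gb (hp : 0 < p) (h : GB v b κ (taylor y G)) : DGe p v M y b κ G := fun ε hε =>
  ⟨0, zero_mem _, by rw [zero_pow hp.ne', sub_zero]; exact h.mono (by linarith)⟩

theorem DGe.zero (hp : 0 < p) : DGe p v M y b κ 0 :=
  DGe.of_gb hp (by rw [map_zero]; exact GB.zero)

section Char

variable [hp : Fact p.Prime] [CharP Ω p]

theorem DGe.add (h : DGe p v M y b κ G) (h' : DGe p v M y b κ H) :
    DGe p v M y b κ (G + H) := fun ε hε => by
  obtain ⟨g, h1, h2⟩ := h ε hε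
  obtain ⟨g', h1', h2'⟩ := h' ε hε
  refine ⟨g + g', add_mem h1 h1', ?_⟩
  have h3 : G + H - (g + g') ^ p = (G - g ^ p) + (H - g' ^ p) := by
    rw [add_pow_char]
    ring
  rw [h3, map_add]
  exact h2.add h2'

theorem DGe.neg (h : DGe p v M y b κ G) : DGe p v M y b κ (-G) := fun ε hε => by
  obtain ⟨g, h1, h2⟩ := h ε hε
  refine ⟨-g, neg_mem h1, ?_⟩
  have h3 : -G - (-g) ^ p = -(G - g ^ p) := by
    have h4 : (-g) ^ p = -(g ^ p) := by
      have h5 : (0 - g) ^ p = 0 ^ p - g ^ p := sub_pow_char _ _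
      rw [zero_pow hp.out.ne_zero, zero_sub, zero_sub] at h5
      exact h5
    rw [h4]
    ring
  rw [h3, map_neg]
  exact h2.neg

theorem DGe.sub (h : DGe p v M y b κ G) (h' : DGe p v M y b κ H) :
    DGe p v M y b κ (G - H) := by
  rw [sub_eq_add_neg]
  exact h.add h'.neg

theorem DGe.sum {ι : Type*} (S : Finset ι) (F : ι → Polynomial Ω)
    (hF : ∀ i ∈ S, DGe p v M y b κ (F i)) : DGe p v M y b κ (∑ i ∈ S, F i) := by
  classical
  induction S using Finset.induction_on with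
  | empty =>
    rw [Finset.sum_empty]
    exact DGe.zero hp.out.pos
  | insert a S ha ih =>
    rw [Finset.sum_insert ha]
    exact (hF a (Finset.mem_insert_self _ _)).add
      (ih fun i hi => hF i (Finset.mem_insert_of_mem hi))

/-- The sum of a term of distance `≤ κ` and a term of distance `> κ`. -/
theorem DLe.add {e : ℝ} (he : 0 < e) (h : DLe p v M y b κ G) (h' : DGe p v M y b (κ + e) H) :
    DLe p v M y b κ (G + H) := by
  by_contra hno
  obtain ⟨e', he', h1⟩ := DGe_of_not_DLe hno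
  have h2 : DGe p v M y b (κ + min e e') (G + H - H) :=
    (h1.mono (by linarith [min_le_right e e'])).sub (h'.mono (by linarith [min_le_left e e']))
  rw [add_sub_cancel_right] at h2
  have := h2.le h
  have := lt_min he he'
  linarith

end Char

/-- Multiplication by a `p`-th power, the trivial inequality. -/
theorem DGe.mul_pow (h : DGe p v M y b κ G) (hρ : ρ ∈ PI M) (h1 : GB v b lam (taylor y ρ)) :
    DGe p v M y b (κ + p * lam) (G * ρ ^ p) := fun ε hε => by
  obtain ⟨g, h2, h3⟩ := h ε hε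
  refine ⟨g * ρ, mul_mem h2 hρ, ?_⟩
  have h4 : G * ρ ^ p - (g * ρ) ^ p = (G - g ^ p) * ρ ^ p := by ring
  rw [h4, taylor_mul, taylor_pow]
  exact (h3.mul (h1.pow p)).mono (by linarith)

end Dist

/-! ### Units on a disc -/

section Unit

variable {Ω : Type u} [Field Ω] {v : RVal Ω} {b lam mu : ℝ} {n m : ℕ} {f g : Polynomial Ω}

theorem GZ.unique (hf : GZ v b lam n f) (hg : GZ v b mu m f) : lam = mu ∧ n = m := by
  have h1 : lam = mu := le_antisymm (hg.le hf.gb) (hf.le hg.gb)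
  subst h1
  refine ⟨rfl, ?_⟩
  rcases lt_trichotomy n m with h2 | h2 | h2
  · exact absurd (hf.lt m h2 hg.ne) (by rw [hg.eq]; exact lt_irrefl _)
  · exact h2
  · exact absurd (hg.lt n h2 hf.ne) (by rw [hf.eq]; exact lt_irrefl _)

/-- A smaller term with a bigger last index dominates. -/
theorem GZ.add_left (hf : GZ v b lam n f) (hg : GZ v b mu m g) (hnm : n < m) (h : mu ≤ lam) :
    GZ v b mu m (f + g) := by
  have h1 : Gt v (mu - m * b) (f.coeff m) := (hf.lt m hnm).mono (by linarith)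
  have h2 := add_gt hg.ne hg.eq h1
  refine ⟨(hf.gb.mono h).add hg.gb, ?_, ?_, fun j hj => ?_⟩
  · rw [coeff_add, add_comm]
    exact h2.1
  · rw [coeff_add, add_comm]
    exact h2.2
  · rw [coeff_add]
    exact ((hf.lt j (by omega)).mono (by linarith)).add (hg.lt j hj)

end Unit

section UnitM

variable {k Ω : Type u} [Field k] [Field Ω] [Algebra k Ω] {p : ℕ} {v : RVal Ω}
  {M : IntermediateField k Ω} {y c : Ω} {b κ lam : ℝ} {P Q G H ρ : Polynomial Ω}

/-- **A polynomial without roots in the disc has an approximate inverse.** -/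
theorem exists_unit_disc [IsAlgClosed Ω] (hC : Cnt v M y b)
    (hc : IsAlgebraic M c) (hyc : v.Ge b (y - c)) (hP : P ∈ PI M) (hP0 : P ≠ 0)
    (hn : ncl v y b P = 0) : ∃ U ∈ PI M, ∃ δ : ℝ, 0 < δ ∧ GB v b δ (taylor y (P * U - 1)) := by
  obtain ⟨P', rfl⟩ := exists_lift hP
  set Q' := minpoly M c with hQ'
  have hirr : Irreducible Q' := minpoly.irreducible hc.isIntegral
  have hmon : Q'.Monic := minpoly.monic hc.isIntegral
  have hnd : ¬ Q' ∣ P' := by
    rintro ⟨R, hR⟩
    have h1 : (P'.map (algebraMap M Ω)).eval c = 0 := by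
      rw [eval_map_algebraMap, hR, map_mul, hQ', minpoly.aeval, zero_mul]
    have h2 : 0 < ncl v y b (P'.map (algebraMap M Ω)) := (ncl_pos_iff hP0).2 ⟨c, h1, hyc⟩
    omega
  obtain ⟨A, B, hAB⟩ := (hirr.coprime_iff_not_dvd).2 hnd
  -- `V` is the remainder of `B`
  have hV : P' * (B %ₘ Q') = 1 + Q' * (-(A + P' * (B /ₘ Q'))) := by
    have h1 := modByMonic_add_div B Q'
    linear_combination hAB + P' * h1
  set V' := B %ₘ Q' with hV'
  set H' := -(A + P' * (B /ₘ Q')) with hH'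
  have hVd : V'.degree < Q'.degree := degree_modByMonic_lt B hmon
  have hinj := (algebraMap M Ω).injective
  have hmap := congrArg (Polynomial.map (algebraMap M Ω)) hV
  rw [Polynomial.map_mul, Polynomial.map_add, Polynomial.map_one, Polynomial.map_mul] at hmap
  refine ⟨V'.map (algebraMap M Ω), map_mem_PI V', ?_⟩
  by_cases hH0 : H' = 0
  · refine ⟨1, one_pos, ?_⟩
    rw [hmap, hH0, Polynomial.map_zero, mul_zero, add_zero, sub_self, map_zero]
    exact GB.zero
  have hH0' : H'.map (algebraMap M Ω) ≠ 0 := (Polynomial.map_ne_zero_iff hinj).2 hH0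
  have hQ0' : Q'.map (algebraMap M Ω) ≠ 0 := (Polynomial.map_ne_zero_iff hinj).2 hmon.ne_zero
  have hV0 : V' ≠ 0 := by
    intro h0
    rw [h0, mul_zero] at hV
    exact hirr.not_isUnit (IsUnit.of_mul_eq_one (-H') (by linear_combination hV))
  have hV0' : V'.map (algebraMap M Ω) ≠ 0 := (Polynomial.map_ne_zero_iff hinj).2 hV0
  refine ⟨gval v y b (Q'.map (algebraMap M Ω) * H'.map (algebraMap M Ω)), ?_, ?_⟩
  · by_contra hle
    push Not at hle
    have h1 : GZ v b 0 0 (taylor y (1 : Polynomial Ω)) := by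
      have := GZ.C (v := v) (b := b) (one_ne_zero (α := Ω))
      rwa [v.map_one, ← taylor_one (r := y)] at this
    have h2 := GZ_gval (v := v) (y := y) (b := b) (mul_ne_zero hQ0' hH0')
    have h3 : 0 < ncl v y b (Q'.map (algebraMap M Ω)) := ncl_pos_of_root rfl hc hyc
    have h4 : 0 < ncl v y b (Q'.map (algebraMap M Ω) * H'.map (algebraMap M Ω)) := by
      rw [ncl_mul hQ0' hH0']
      omega
    have h5 := h1.add_left h2 h4 hle
    rw [← map_add, ← hmap] at h5
    have h6 := h5.unique (GZ_gval (v := v) (y := y) (b := b) (mul_ne_zero hP0 hV0'))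
    have h7 : ncl v y b (V'.map (algebraMap M Ω)) <
        1 * ncl v y b (Q'.map (algebraMap M Ω)) := by
      refine hC.ncl_lt_mul hc rfl hyc (map_mem_PI V') ?_
      rw [one_mul, natDegree_map, natDegree_map]
      exact (natDegree_lt_natDegree_iff hV0).2 hVd
    have h8 := h6.2
    rw [ncl_mul hQ0' hH0', ncl_mul hP0 hV0', hn] at h8
    omega
  · rw [hmap, add_sub_cancel_left]
    exact GB_gval

/-- Inverses up to any precision. -/
theorem exists_unit_big [IsAlgClosed Ω] (hC : Cnt v M y b)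
    (hc : IsAlgebraic M c) (hyc : v.Ge b (y - c)) (hP : P ∈ PI M) (hP0 : P ≠ 0)
    (hn : ncl v y b P = 0) (N : ℝ) : ∃ U ∈ PI M, GB v b N (taylor y (P * U - 1)) ∧
      GB v b (-gval v y b P) (taylor y U) := by
  obtain ⟨U, hU, δ, hδ, h1⟩ := exists_unit_disc hC hc hyc hP hP0 hn
  obtain ⟨n, hn⟩ := exists_nat_gt (max N 0 / δ)
  have hnδ : max N 0 ≤ n * δ := by
    rw [div_lt_iff₀ hδ] at hn
    exact hn.le
  set E : Polynomial Ω := 1 - P * U with hE
  have hEm : E ∈ PI M := sub_mem (one_mem _) (mul_mem hP hU)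
  have h2 : P * (U * ∑ j ∈ Finset.range n, E ^ j) - 1 = -(E ^ n) := by
    have h3 := mul_neg_geom_sum E n
    have h4 : 1 - E = P * U := by rw [hE]; ring
    rw [h4] at h3
    linear_combination h3
  have h3 : GB v b (max N 0) (taylor y (P * (U * ∑ j ∈ Finset.range n, E ^ j) - 1)) := by
    rw [h2, map_neg, taylor_pow]
    refine GB.neg (GB.mono (GB.pow ?_ n) hnδ)
    rw [hE, ← neg_sub, map_neg]
    exact h1.neg
  have hUm : U * ∑ j ∈ Finset.range n, E ^ j ∈ PI M :=
    mul_mem hU (sum_mem fun j _ => pow_mem hEm j)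
  refine ⟨_, hUm, h3.mono (le_max_left _ _), ?_⟩
  set W := U * ∑ j ∈ Finset.range n, E ^ j with hW
  by_cases hW0 : W = 0
  · rw [hW0, map_zero]
    exact GB.zero
  rw [GB_iff hW0]
  have h4 : GB v b 0 (taylor y (P * W)) := by
    have h5 : P * W = (P * W - 1) + 1 := by ring
    rw [h5, map_add, taylor_one]
    exact (h3.mono (le_max_right _ _)).add GB.one
  rw [GB_iff (mul_ne_zero hP0 hW0), gval_mul hP0 hW0] at h4
  linarith

end UnitM

/-! ### Multiplication by `p`-th powers -/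

section MU

variable {k Ω : Type u} [Field k] [Field Ω] [Algebra k Ω] {p : ℕ} [hp : Fact p.Prime]
  [CharP Ω p] {v : RVal Ω}
  {M : IntermediateField k Ω} {y a c : Ω} {b κ lam : ℝ} {P Q G H ρ σ : Polynomial Ω}

/-- The property to be shown. -/
def MUp (p : ℕ) (v : RVal Ω) (M : IntermediateField k Ω) (y : Ω) (b : ℝ)
    (ρ : Polynomial Ω) : Prop :=
  ∀ G ∈ PI M, ∀ κ : ℝ, DGe p v M y b κ (G * ρ ^ p) → DGe p v M y b (κ - p * gval v y b ρ) G

omit hp [CharP Ω p] in
theorem MUp.mul (hρ0 : ρ ≠ 0) (hσ0 : σ ≠ 0) (hρm : ρ ∈ PI M) (hρ : MUp p v M y b ρ)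
    (hσ : MUp p v M y b σ) : MUp p v M y b (ρ * σ) := by
  intro G hG κ h
  have h1 : G * (ρ * σ) ^ p = (G * ρ ^ p) * σ ^ p := by rw [mul_pow]; ring
  rw [h1] at h
  refine (hρ G hG _ (hσ _ (mul_mem hG (pow_mem hρm p)) κ h)).mono ?_
  rw [gval_mul hρ0 hσ0]
  linarith

/-- Polynomials without roots in the disc. -/
theorem MUp.of_ncl [IsAlgClosed Ω] (hC : Cnt v M y b)
    (hc : IsAlgebraic M c) (hyc : v.Ge b (y - c)) (hP : P ∈ PI M) (hP0 : P ≠ 0)
    (hn : ncl v y b P = 0) : MUp p v M y b P := by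
  intro G hG κ h ε hε
  obtain ⟨g, hg, h1⟩ := h ε hε
  have hp0 : (0 : ℝ) < p := by exact_mod_cast hp.out.pos
  obtain ⟨U, hU, h2, h3⟩ := exists_unit_big hC hc hyc hP hP0 hn
    ((κ - p * gval v y b P - gval v y b G) / p)
  refine ⟨g * U, mul_mem hg hU, ?_⟩
  have h4 : G - (g * U) ^ p = (G * P ^ p - g ^ p) * U ^ p - G * (P * U - 1) ^ p := by
    rw [sub_pow_char, one_pow, mul_pow, mul_pow]
    ring
  rw [h4, map_sub, taylor_mul, taylor_mul, taylor_pow, taylor_pow]
  refine ((h1.mul (h3.pow p)).mono (by linarith)).sub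
    (((GB_gval (f := G)).mul (h2.pow p)).mono ?_)
  rw [mul_div_cancel₀ _ hp0.ne']
  linarith

/-- Minimal polynomials with a root in the disc. -/
theorem MUp.of_root [IsAlgClosed Ω] (hC : Cnt v M y b)
    (ha : IsAlgebraic M a) (hP : (minpoly M a).map (algebraMap M Ω) = P)
    (hya : v.Ge b (y - a)) : MUp p v M y b P := by
  intro G hG κ h ε hε
  obtain ⟨g, hg, h1⟩ := h ε hε
  have hm := monic_minpoly hP ha
  have hPm := mem_minpoly hP
  obtain ⟨hd, hr⟩ := Dg.PI_div hPm hm hg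
  refine ⟨g /ₘ P, hd, ?_⟩
  have h2 : G * P ^ p - g ^ p = -((g %ₘ P) ^ p) + P ^ p * (G - (g /ₘ P) ^ p) := by
    have h3 : g = g %ₘ P + P * (g /ₘ P) := (modByMonic_add_div g P).symm
    conv_lhs => rw [h3, add_pow_char, mul_pow]
    ring
  have h3 : (-((g %ₘ P) ^ p)).degree < (P ^ p).degree := by
    rw [degree_neg]
    by_cases h0 : g %ₘ P = 0
    · rw [h0, zero_pow hp.out.ne_zero, degree_zero, degree_eq_natDegree (hm.pow p).ne_zero]
      exact WithBot.bot_lt_coe _
    · have h4 : (g %ₘ P).natDegree < P.natDegree :=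
        (natDegree_lt_natDegree_iff h0).2 (degree_modByMonic_lt g hm)
      rw [degree_eq_natDegree (pow_ne_zero p h0), degree_eq_natDegree (hm.pow p).ne_zero,
        natDegree_pow, natDegree_pow]
      exact_mod_cast Nat.mul_lt_mul_of_pos_left h4 hp.out.pos
  rw [h2, hC.gb_key_iff ha hP hya (neg_mem (pow_mem hr p)) h3] at h1
  have h4 := h1.2
  by_cases h0 : G - (g /ₘ P) ^ p = 0
  · rw [h0, map_zero]
    exact GB.zero
  rw [GB_iff (mul_ne_zero (hm.pow p).ne_zero h0), gval_mul (hm.pow p).ne_zero h0,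
    gval_pow hm.ne_zero] at h4
  rw [GB_iff h0]
  linarith

/-- Minimal polynomials. -/
theorem MUp.of_minpoly [IsAlgClosed Ω] (hC : Cnt v M y b)
    (hc : IsAlgebraic M c) (hyc : v.Ge b (y - c)) (ha : IsAlgebraic M a)
    (hP : (minpoly M a).map (algebraMap M Ω) = P) : MUp p v M y b P := by
  have hm := monic_minpoly hP ha
  rcases Nat.eq_zero_or_pos (ncl v y b P) with h | h
  · exact MUp.of_ncl hC hc hyc (mem_minpoly hP) hm.ne_zero h
  · obtain ⟨a', h1, h2⟩ := (ncl_pos_iff hm.ne_zero).1 h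
    have h3 : aeval a' (minpoly M a) = 0 := (mem_roots_minpoly hP ha).1
      ((mem_roots hm.ne_zero).2 h1)
    have ha' : IsAlgebraic M a' := ⟨minpoly M a, minpoly.ne_zero ha.isIntegral, h3⟩
    have h4 : minpoly M a = minpoly M a' :=
      minpoly.eq_of_irreducible_of_monic (minpoly.irreducible ha.isIntegral) h3
        (minpoly.monic ha.isIntegral)
    exact MUp.of_root hC ha' (by rw [← h4]; exact hP) h2

/-- **(MU)** Multiplication by a `p`-th power, at every radius for which the closed disc has an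
algebraic point. -/
theorem MUp.all [IsAlgClosed Ω] (hC : Cnt v M y b)
    (hc : IsAlgebraic M c) (hyc : v.Ge b (y - c)) (hρ : ρ ∈ PI M) (hρ0 : ρ ≠ 0) :
    MUp p v M y b ρ := by
  obtain ⟨ρ', rfl⟩ := exists_lift hρ
  have hinj := (algebraMap M Ω).injective
  have hconst : ∀ d : M, d ≠ 0 → MUp p v M y b ((Polynomial.C d).map (algebraMap M Ω)) := by
    intro d hd
    rw [map_C]
    have hd' : algebraMap M Ω d ≠ 0 := (map_ne_zero_iff _ hinj).2 hd
    exact MUp.of_ncl hC hc hyc (C_mem_PI d.2) (C_ne_zero.2 hd') (ncl_C _)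
  have key : ∀ ρ' : Polynomial M, ρ' ≠ 0 → MUp p v M y b (ρ'.map (algebraMap M Ω)) := by
    intro ρ'
    induction ρ' using WfDvdMonoid.induction_on_irreducible with
    | zero => exact fun h => absurd rfl h
    | unit u hu =>
      intro hu0
      obtain ⟨d, hd, rfl⟩ := Polynomial.isUnit_iff.1 hu
      exact hconst d hd.ne_zero
    | mul s i hs hi ih =>
      intro _
      rw [Polynomial.map_mul]
      have hi0 : i.map (algebraMap M Ω) ≠ 0 := (Polynomial.map_ne_zero_iff hinj).2 hi.ne_zero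
      have hs0 : s.map (algebraMap M Ω) ≠ 0 := (Polynomial.map_ne_zero_iff hinj).2 hs
      refine MUp.mul hi0 hs0 (map_mem_PI i) ?_ (ih hs)
      have hdeg : 0 < (i.map (algebraMap M Ω)).natDegree := by
        rw [natDegree_map]
        exact hi.natDegree_pos
      obtain ⟨a, ha⟩ := IsAlgClosed.exists_root (i.map (algebraMap M Ω))
        (by rw [degree_eq_natDegree hi0]; exact_mod_cast hdeg.ne')
      have ha0 : aeval a i = 0 := by
        rw [← eval_map_algebraMap]
        exact ha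
      have haa : IsAlgebraic M a := ⟨i, hi.ne_zero, ha0⟩
      have h1 := minpoly.eq_of_irreducible hi ha0
      have hlc : i.leadingCoeff ≠ 0 := leadingCoeff_ne_zero.2 hi.ne_zero
      have h2 : i = Polynomial.C i.leadingCoeff * minpoly M a := by
        rw [← h1, mul_comm i, ← mul_assoc, ← C_mul, mul_inv_cancel₀ hlc, C_1, one_mul]
      rw [h2, Polynomial.map_mul]
      exact MUp.mul ((Polynomial.map_ne_zero_iff hinj).2 (C_ne_zero.2 hlc))
        (monic_minpoly rfl haa).ne_zero (map_mem_PI _) (hconst _ hlc)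
        (MUp.of_minpoly hC hc hyc haa rfl)
  exact key ρ' fun h => hρ0 (by rw [h, Polynomial.map_zero])

/-- **(MU)**, lower bounds. -/
theorem DGe.mul_pow_iff [IsAlgClosed Ω] (hC : Cnt v M y b)
    (hc : IsAlgebraic M c) (hyc : v.Ge b (y - c)) (hG : G ∈ PI M) (hρ : ρ ∈ PI M)
    (hρ0 : ρ ≠ 0) : DGe p v M y b (κ + p * gval v y b ρ) (G * ρ ^ p) ↔ DGe p v M y b κ G :=
  ⟨fun h => (MUp.all hC hc hyc hρ hρ0 G hG _ h).mono (by linarith),
    fun h => h.mul_pow hρ GB_gval⟩

/-- **(MU)**, upper bounds. -/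
theorem DLe.mul_pow_iff [IsAlgClosed Ω] (hC : Cnt v M y b)
    (hc : IsAlgebraic M c) (hyc : v.Ge b (y - c)) (hG : G ∈ PI M) (hρ : ρ ∈ PI M)
    (hρ0 : ρ ≠ 0) : DLe p v M y b (κ + p * gval v y b ρ) (G * ρ ^ p) ↔ DLe p v M y b κ G := by
  constructor
  · intro h
    by_contra hno
    obtain ⟨e, he, h1⟩ := DGe_of_not_DLe hno
    have h2 := ((DGe.mul_pow_iff hC hc hyc hG hρ hρ0).2 h1).le h
    linarith
  · intro h
    by_contra hno
    obtain ⟨e, he, h1⟩ := DGe_of_not_DLe hno
    have h2 : DGe p v M y b (κ + e + p * gval v y b ρ) (G * ρ ^ p) := h1.mono (by linarith)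
    have h3 := ((DGe.mul_pow_iff hC hc hyc hG hρ hρ0).1 h2).le h
    linarith

end MU

/-! ### The growth of the distance -/

section BP

variable {k Ω : Type u} [Field k] [Field Ω] [Algebra k Ω] {p : ℕ} [hp : Fact p.Prime]
  [CharP Ω p] {v : RVal Ω}
  {M : IntermediateField k Ω} {y : Ω} {u b w βb βw κ κ' m : ℝ} {Q G : Polynomial Ω}

/-- **(BP)** From `b` to `w` the distance grows by `p n (β_w - β_b)`; then it grows at least by
`p n` times the growth of `Q` from `u` to `b`. -/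
theorem DT.bp (hb : DT v M y b Q βb) (hw : DT v M y w Q βw) (hβ : βb < βw)
    (hl : LCd v M y u b Q m) (hG : G ∈ PI M) (n : ℕ) (h1 : DLe p v M y b κ G)
    (h2 : DGe p v M y w κ' G) (h3 : κ + (p * n : ℕ) * (βw - βb) ≤ κ') :
    DLe p v M y u (κ - (p * n : ℕ) * m * (b - u)) G := by
  intro e he gu hgu h4
  obtain ⟨gw, hgw, h5⟩ := h2 ((βw - βb) / 2) (by linarith)
  have hS : splice Q n gw gu ∈ PI M := splice_mem hb.mem hb.mon n hgw hgu
  refine h1 (min e ((βw - βb) / 2)) (lt_min he (by linarith)) _ hS ?_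
  rw [hb.iff _ (sub_mem hG (pow_mem hS p))]
  intro l
  rw [dig_splice_sub_pow hb.mon hb.pos]
  split_ifs with h6
  · have h7 := (hw.iff _ (sub_mem hG (pow_mem hgw p)) _).1 h5 l
    refine h7.mono ?_
    have h8 : (l : ℝ) + 1 ≤ (p * n : ℕ) := by exact_mod_cast h6
    have h9 : ((l : ℝ) + 1) * (βw - βb) ≤ (p * n : ℕ) * (βw - βb) :=
      mul_le_mul_of_nonneg_right h8 (by linarith)
    have h10 := min_le_right e ((βw - βb) / 2)
    nlinarith
  · have h7 := hl.high hb (sub_mem hG (pow_mem hgu p)) h4 (p * n) l (not_lt.1 h6)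
    refine h7.mono ?_
    have h10 := min_le_left e ((βw - βb) / 2)
    linarith

end BP

end Pool.Agent.TWJ2
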