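import Pool.Agent.Lib.TWJ2.Tr
import Pool.Agent.Lib.TWJ2.Lev

/-!
# TANK W, ROW J: the transport in two variables between a level and the flag of its centre

* `gn_iff`: the Gauss value at a centre and at `y`;
* `back`: the transport of a bound from the flag `(E, X)` back to the level, one variable;
* `forth2`, `back2`: polynomials in a second variable.
-/

set_option autoImplicit false

open Polynomial

namespace Pool.Agent.TWJ2

open Pool.Agent.H15JM (RVal)
open Pool.Agent.LU1 (adj)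
open Pool.Agent.D2 (Ctx0)
open Pool.Agent.D2P (hen)
open Pool.Agent.TW
open Pool.Agent.TWM (PI PII GB Gt)

universe u

variable {k Ω : Type u} [Field k] [Field Ω] [Algebra k Ω] {v : RVal Ω}
  {F : IntermediateField k Ω} {z η : Ω} {ρ b₁ b : ℝ}

/-- The Gauss value at the centre `η` and at `z`. -/
theorem gn_iff {lam : ℝ} (hb : v.Ge b (z - η)) {f : F[X]} :
    GN v F η b lam f ↔ GB v b lam (taylor z (f.map (algebraMap F Ω))) := by
  constructor
  · intro h
    exact TWJ.GN.centre hb h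
  · intro h
    have h1 : GN v F z b lam f := fun j => h j
    refine TWJ.GN.centre ?_ h1
    have h2 := hb.neg
    rwa [neg_sub] at h2

section

variable {p : ℕ} {r D : ℕ} {ε : ℝ} [Fact p.Prime] [CharP k p] [CharP Ω p] [IsAlgClosed Ω]
  [IsAlgClosed k]

/-- Polynomials in `X` over `E` are regular functions. -/
theorem reg_PI (h : Ctx k v r) (d : SD p k v r D F z η ρ b₁ b ε) {b' : ℝ} (hbb : b ≤ b') {γ : ℝ}
    (hQ' : GN v F η b' γ (minpoly F η)) {P : Polynomial Ω} (hP : P ∈ PI d.S'.K) :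
    ∃ c : ℝ, Reg v F z η b₁ b' c (P.eval d.X) := by
  have hb : b₁ < b' := lt_of_lt_of_le d.lt₂ hbb
  have hXr := TWJ.reg_X h d hbb hQ'
  obtain ⟨c, hc⟩ : ∃ c : ℝ, ∀ i ∈ Finset.range (P.natDegree + 1),
      Reg v F z η b₁ b' c (P.coeff i * d.X ^ i) := by
    have h1 : ∀ i : ℕ, ∃ c : ℝ, Reg v F z η b₁ b' c (P.coeff i * d.X ^ i) := by
      intro i
      by_cases hi : P.coeff i = 0
      · rw [hi, zero_mul]
        exact ⟨0, TWJ.Reg.zero'⟩
      · exact ⟨_, (TWJ.reg_mem' h d hbb (hP i) hi).mul (TWJ.Reg.pow' hXr i)⟩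
    choose c hc using h1
    have hne : (Finset.range (P.natDegree + 1)).Nonempty := ⟨0, by simp⟩
    refine ⟨(Finset.range (P.natDegree + 1)).inf' hne c, fun i hi => Reg.mono ?_ (hc i)⟩
    exact Finset.inf'_le _ hi
  refine ⟨c, ?_⟩
  rw [eval_eq_sum_range]
  exact TWJ.Reg.sum' hb.le _ _ hc

/-- A polynomial over `F` near to a polynomial in `X` over `E`. -/
theorem exists_back (h : Ctx k v r) (d : SD p k v r D F z η ρ b₁ b ε) {b' : ℝ} (hbb : b ≤ b')
    {γ : ℝ} (hQ' : GN v F η b' γ (minpoly F η)) {P : Polynomial Ω} (hP : P ∈ PI d.S'.K) (N : ℝ) :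
    ∃ P₁ : F[X], Reg v F z η b₁ b' N (P.eval d.X - aeval z P₁) := by
  have hb : b₁ < b' := lt_of_lt_of_le d.lt₂ hbb
  have hρ : ρ ≤ b₁ := by
    have h1 := d.lt₁
    have h2 : (0 : ℝ) ≤ p * ε := mul_nonneg (Nat.cast_nonneg p) d.ε_nonneg
    linarith
  obtain ⟨cg, hcg⟩ := reg_PI h d hbb hQ' hP
  obtain ⟨P₁, -, hP₁⟩ := TWJ.exists_poly d.cen.sep.isIntegral d.cen.tb hρ hb hcg N
  exact ⟨P₁, hP₁⟩

/-- The transport back, one variable. -/
theorem back (h : Ctx k v r) (d : SD p k v r D F z η ρ b₁ b ε) {b' : ℝ}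
    (hbb : b ≤ b') {γ : ℝ} (hQ' : GN v F η b' γ (minpoly F η)) {A P₁ : F[X]}
    {A' g' : Polynomial Ω} (hA' : A' ∈ PI d.S'.K) (hg' : g' ∈ PI d.S'.K) {L : ℝ}
    (hrep : Reg v F z η b₁ b' L (aeval z A - A'.eval d.X))
    (hP₁ : Reg v F z η b₁ b' (L / p) (g'.eval d.X - aeval z P₁)) {n : ℕ}
    (hcoef : ∀ i < n, v.Ge (L - i * (γ - v d.q)) ((A' - g' ^ p).coeff i)) :
    ∃ G H : F[X], A - P₁ ^ p = G + minpoly F η ^ n * H ∧ GN v F η b' L G := by
  classical
  have hb : b₁ < b' := lt_of_lt_of_le d.lt₂ hbb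
  have hz := d.cen.tr
  have hint : IsIntegral F η := d.cen.sep.isIntegral
  have hp0 : 0 < p := (Fact.out : p.Prime).pos
  have hpR : (0 : ℝ) < p := by exact_mod_cast hp0
  have hXr := TWJ.reg_X h d hbb hQ'
  set R := A' - g' ^ p with hR
  have hRm : R ∈ PI d.S'.K := sub_mem hA' (pow_mem hg' p)
  set Rh : Polynomial Ω := ∑ i ∈ Finset.range (R.natDegree + 1),
    monomial i (R.coeff (i + n)) with hRh
  have hRhm : Rh ∈ PI d.S'.K := by
    refine sum_mem fun i _ m => ?_
    rw [coeff_monomial]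
    split_ifs
    exacts [hRm _, zero_mem _]
  have hRhc : ∀ i, Rh.coeff i = R.coeff (i + n) := by
    intro i
    rw [hRh, finsetSum_coeff]
    simp only [coeff_monomial]
    rw [Finset.sum_ite_eq']
    split_ifs with h1
    · rfl
    · rw [Finset.mem_range, not_lt] at h1
      rw [coeff_eq_zero_of_natDegree_lt (by omega)]
  have hRe : R = ∑ i ∈ Finset.range n, monomial i (R.coeff i) + X ^ n * Rh := by
    ext m
    rw [coeff_add, finsetSum_coeff, coeff_X_pow_mul', hRhc]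
    simp only [coeff_monomial]
    rw [Finset.sum_ite_eq']
    by_cases hm : m < n
    · rw [if_pos (Finset.mem_range.2 hm), if_neg (by omega), add_zero]
    · rw [if_neg (by simpa using hm), if_pos (by omega), zero_add]
      congr 1
      omega
  have hq1 := TWJ.reg_mem' h d hbb (inv_mem (pow_mem d.q_mem n))
    (inv_ne_zero (pow_ne_zero n d.q_ne))
  obtain ⟨cr, hcr⟩ := reg_PI h d hbb hQ' hRhm
  have hρ : ρ ≤ b₁ := by
    have h1 := d.lt₁
    have h2 : (0 : ℝ) ≤ p * ε := mul_nonneg (Nat.cast_nonneg p) d.ε_nonneg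
    linarith
  obtain ⟨H₁, -, hH₁⟩ := TWJ.exists_poly hint d.cen.tb hρ hb (hq1.mul hcr) (L - n * γ)
  set G := A - P₁ ^ p - minpoly F η ^ n * H₁ with hG
  refine ⟨G, H₁, by rw [hG]; ring, TWJ.GN.of_Reg hz hb.le ?_⟩
  have e1 : aeval z G = (aeval z A - A'.eval d.X) +
      ((g'.eval d.X - aeval z P₁) ^ p + (∑ i ∈ Finset.range n, R.coeff i * d.X ^ i +
        aeval z (minpoly F η) ^ n *
          (((d.q ^ n)⁻¹ * Rh.eval d.X) - aeval z H₁))) := by
    have h1 : A'.eval d.X = g'.eval d.X ^ p + R.eval d.X := by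
      rw [hR, eval_sub, eval_pow]
      ring
    have h2 : R.eval d.X = ∑ i ∈ Finset.range n, R.coeff i * d.X ^ i +
        d.X ^ n * Rh.eval d.X := by
      conv_lhs => rw [hRe]
      rw [eval_add, eval_finsetSum, eval_mul, eval_pow, eval_X]
      simp only [eval_monomial]
    have h3 : d.X ^ n * Rh.eval d.X =
        aeval z (minpoly F η) ^ n * ((d.q ^ n)⁻¹ * Rh.eval d.X) := by
      rw [SD.X, div_pow]
      field_simp
    rw [h1, h2, h3, hG, sub_pow_char]
    simp only [_root_.map_sub, _root_.map_mul, _root_.map_pow]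
    ring
  rw [e1]
  refine hrep.add (Reg.add ?_ (Reg.add ?_ ?_ hb.le) hb.le) hb.le
  · refine Reg.mono (le_of_eq ?_) (TWJ.Reg.pow' hP₁ p)
    field_simp
  · refine TWJ.Reg.sum' hb.le _ _ fun i hi => ?_
    have hi' : i < n := Finset.mem_range.1 hi
    refine Reg.mono (le_of_eq ?_) ((TWJ.reg_ge h d hbb (hRm i) (hcoef i hi')).mul
      (TWJ.Reg.pow' hXr i))
    ring
  · have h1 : Reg v F z η b₁ b' ((n : ℕ) * γ) (aeval z (minpoly F η) ^ n) :=
      TWJ.Reg.pow' (Reg.of_GN hQ') n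
    refine Reg.mono (le_of_eq ?_) (h1.mul hH₁)
    ring

omit [IsAlgClosed Ω] [IsAlgClosed k] in
/-- The coefficients of a `p`-th power in the second variable. -/
theorem coeff_pow_ite' (G : Polynomial (Polynomial Ω)) (n : ℕ) :
    (G ^ p).coeff n = if p ∣ n then G.coeff (n / p) ^ p else 0 := by
  have hp0 : 0 < p := (Fact.out : p.Prime).pos
  rw [← map_frobenius_expand (p := p), coeff_map, coeff_expand hp0]
  split_ifs
  · rfl
  · exact _root_.map_zero _

/-- The transport of a polynomial in a second variable to the flag of the centre. -/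
theorem forth2 (h : Ctx k v r) (hd : Dns v F) (d : SD p k v r D F z η ρ b₁ b ε)
    {B : Polynomial (Polynomial Ω)} (hB : PII F B) {lam lam' c : ℝ} (hlam : lam' < lam)
    (hGB : ∀ i : ℕ, GB v b (lam - i * c) (taylor z (B.coeff i))) (N : ℕ → ℝ) :
    ∃ P : Polynomial (Polynomial Ω), PII d.S'.K P ∧ P.natDegree ≤ B.natDegree ∧
      (∀ i l : ℕ, v.Ge (lam' - i * c) ((P.coeff i).coeff l)) ∧
      ∀ i : ℕ, ∃ a : F[X], a.map (algebraMap F Ω) = B.coeff i ∧
        Reg v F z η b₁ b (N i) (aeval z a - (P.coeff i).eval d.X) := by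
  classical
  have hbη : v.Ge b (z - η) := RVal.Ge.of_le d.cen.lt'.le
  have hex : ∀ i : ℕ, ∃ (f' : Polynomial Ω) (a : F[X]), f' ∈ PI d.S'.K ∧
      (B.coeff i = 0 → f' = 0) ∧ (∀ l, v.Ge (lam' - i * c) (f'.coeff l)) ∧
      a.map (algebraMap F Ω) = B.coeff i ∧
      Reg v F z η b₁ b (N i) (aeval z a - f'.eval d.X) := by
    intro i
    by_cases hi : B.coeff i = 0
    · refine ⟨0, 0, zero_mem _, fun _ => rfl, fun l => ?_, ?_, ?_⟩
      · rw [coeff_zero]
        exact RVal.Ge.zero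
      · rw [hi, Polynomial.map_zero]
      · rw [_root_.map_zero, eval_zero, sub_zero]
        exact TWJ.Reg.zero'
    · obtain ⟨a, ha⟩ := TWJ.exists_lift (hB i)
      have h1 : GN v F η b (lam - i * c) a := by
        rw [gn_iff hbη, ha]
        exact hGB i
      obtain ⟨f', hf', h2, h3⟩ := rep_of_GN h hd d h1 (lam' := lam' - i * c) (by linarith) (N i)
      exact ⟨f', a, hf', fun h0 => absurd h0 hi, h2, ha, h3⟩
  choose f' a hf' h0 h1 ha h2 using hex
  set P : Polynomial (Polynomial Ω) := ∑ i ∈ Finset.range (B.natDegree + 1),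
    monomial i (f' i) with hP
  have hPc : ∀ i, P.coeff i = f' i := by
    intro i
    rw [hP, finsetSum_coeff]
    simp only [coeff_monomial]
    rw [Finset.sum_ite_eq']
    split_ifs with h3
    · rfl
    · rw [Finset.mem_range, not_lt] at h3
      exact (h0 i (coeff_eq_zero_of_natDegree_lt (by omega))).symm
  refine ⟨P, fun i => by rw [hPc]; exact hf' i, ?_, fun i l => by rw [hPc]; exact h1 i l,
    fun i => ⟨a i, ha i, by rw [hPc]; exact h2 i⟩⟩
  refine natDegree_le_iff_coeff_eq_zero.2 fun i hi => ?_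
  rw [hPc]
  exact h0 i (coeff_eq_zero_of_natDegree_lt hi)

/-- The transport back, two variables. -/
theorem back2 (h : Ctx k v r) (d : SD p k v r D F z η ρ b₁ b ε) {b' : ℝ}
    (hbb : b ≤ b') (hb'η : b' ≤ v (z - η)) {γ : ℝ} (hQ' : GN v F η b' γ (minpoly F η))
    {B P g' : Polynomial (Polynomial Ω)} (hP : PII d.S'.K P) (hg' : PII d.S'.K g') {L c : ℝ}
    (hrep : ∀ i : ℕ, ∃ a : F[X], a.map (algebraMap F Ω) = B.coeff i ∧
      Reg v F z η b₁ b' (L - i * c) (aeval z a - (P.coeff i).eval d.X)) (n : ℕ → ℕ)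
    (hcoef : ∀ i : ℕ, ∀ l < n i,
      v.Ge (L - i * c - l * (γ - v d.q)) (((P - g' ^ p).coeff i).coeff l)) :
    ∃ G : Polynomial (Polynomial Ω), PII F G ∧ (g' = 0 → G = 0) ∧ ∀ i : ℕ, ∃ Gi H : F[X],
      (B - G ^ p).coeff i = (Gi + minpoly F η ^ n i * H).map (algebraMap F Ω) ∧
        GB v b' (L - i * c) (taylor z (Gi.map (algebraMap F Ω))) := by
  classical
  have hbη : v.Ge b' (z - η) := RVal.Ge.of_le hb'η
  have hp0 : 0 < p := (Fact.out : p.Prime).pos
  have hpR : (0 : ℝ) < p := by exact_mod_cast hp0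
  -- the approximations of the coefficients of `g'`
  have hex : ∀ j : ℕ, ∃ P₁ : F[X], (g'.coeff j = 0 → P₁ = 0) ∧
      Reg v F z η b₁ b' ((L - (p * j : ℕ) * c) / p) ((g'.coeff j).eval d.X - aeval z P₁) := by
    intro j
    by_cases hj : g'.coeff j = 0
    · refine ⟨0, fun _ => rfl, ?_⟩
      rw [hj, eval_zero, _root_.map_zero, sub_zero]
      exact TWJ.Reg.zero'
    · obtain ⟨P₁, hP₁⟩ := exists_back h d hbb hQ' (hg' j) ((L - (p * j : ℕ) * c) / p)
      exact ⟨P₁, fun h0 => absurd h0 hj, hP₁⟩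
  choose P₁ h0 hP₁ using hex
  set G : Polynomial (Polynomial Ω) := ∑ j ∈ Finset.range (g'.natDegree + 1),
    monomial j ((P₁ j).map (algebraMap F Ω)) with hG
  have hGc : ∀ j, G.coeff j = (P₁ j).map (algebraMap F Ω) := by
    intro j
    rw [hG, finsetSum_coeff]
    simp only [coeff_monomial]
    rw [Finset.sum_ite_eq']
    split_ifs with h3
    · rfl
    · rw [Finset.mem_range, not_lt] at h3
      rw [h0 j (coeff_eq_zero_of_natDegree_lt (by omega)), Polynomial.map_zero]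
  refine ⟨G, fun j => by rw [hGc]; exact TWJ.map_mem_PI _, fun hg0 => ?_, fun i => ?_⟩
  · ext1 j
    rw [hGc, h0 j (by rw [hg0, coeff_zero]), Polynomial.map_zero, coeff_zero]
  obtain ⟨a, ha, hrepi⟩ := hrep i
  by_cases hpi : p ∣ i
  · obtain ⟨j, rfl⟩ := hpi
    have hcf : ∀ Q : Polynomial (Polynomial Ω), (Q ^ p).coeff (p * j) = Q.coeff j ^ p := by
      intro Q
      rw [coeff_pow_ite', if_pos (dvd_mul_right p j), Nat.mul_div_cancel_left j hp0]
    obtain ⟨Gi, H, h1, h2⟩ := back h d hbb hQ' (A := a) (P₁ := P₁ j) (hP (p * j)) (hg' j) hrepi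
      (hP₁ j) (n := n (p * j)) fun l hl => by
        have h3 := hcoef (p * j) l hl
        rwa [coeff_sub, hcf] at h3
    refine ⟨Gi, H, ?_, (gn_iff hbη).1 h2⟩
    rw [← h1, coeff_sub, hcf, hGc, ← ha, Polynomial.map_sub, Polynomial.map_pow]
  · have hcf : ∀ Q : Polynomial (Polynomial Ω), (Q ^ p).coeff i = 0 := by
      intro Q
      rw [coeff_pow_ite', if_neg hpi]
    obtain ⟨Gi, H, h1, h2⟩ := back h d hbb hQ' (A := a) (P₁ := 0) (hP i) (zero_mem _) hrepi
      (by rw [eval_zero, _root_.map_zero, sub_zero]; exact TWJ.Reg.zero') (n := n i)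
      fun l hl => by
        have h3 := hcoef i l hl
        rw [coeff_sub, hcf, sub_zero] at h3
        rwa [zero_pow hp0.ne', sub_zero]
    refine ⟨Gi, H, ?_, (gn_iff hbη).1 h2⟩
    rw [← h1, coeff_sub, hcf, sub_zero, ← ha, zero_pow hp0.ne', sub_zero]

end

end Pool.Agent.TWJ2
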