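import Pool.Agent.Lib.TWJ2.Defs
import Pool.Agent.Lib.TW.E1
import Pool.Agent.Lib.TWM.A1
import Pool.Agent.Lib.TWM.S3a

/-!
# TANK W, ROW J, J.1: Gauss values on discs, their slopes, the levels

`Ω` is algebraically closed (from `gval` on), `v` a real valuation.
* `GA v b lam n g`, `GZ v b lam n g`: `lam` is the Gauss value of `g` at the radius `b`, and `n` is the
  first (the last) index which attains it; both are multiplicative;
* `cut v b x = min (v x) b` (and `b` for `x = 0`); `gval v y b f`: the Gauss value of `f` on the disc of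
  radius `b` around `y`; `nop`, `ncl`: the numbers of roots in the open and in the closed disc;
* `GA_gval`, `GZ_gval`, `GB_iff`: `gval` is the Gauss value, `nop` and `ncl` are the indices;
* `gval_mul`, `gval_pow`, `gval_C`, ...; `gval_eq_eval`: no root in the closed disc;
* `gval_mono`, `gval_up`, `gval_lo`: slopes;
* `Lev.beta`, `Lev.gt`, `Lev.up`, `Lev.deg_mono`, `Lev.of_min`, `exists_Lev`: the levels.
-/

set_option autoImplicit false

open Polynomial

namespace Pool.Agent.TWJ2

open Pool.Agent.H15JM (RVal)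
open Pool.Agent.D2 (Ctx0)
open Pool.Agent.TW (Full exists_closer)
open Pool.Agent.TWM (Gt GB PI C_mem_PI X_mem_PI isAlgebraic_root)

universe u

section Gauss

variable {Ω : Type u} [Field Ω] {v : RVal Ω} {b lam lam' : ℝ} {n n' : ℕ} {f g : Polynomial Ω}

/-- `lam` is the Gauss value of `g` at the radius `b`, `n` is the first index which attains it. -/
structure GA (v : RVal Ω) (b lam : ℝ) (n : ℕ) (g : Polynomial Ω) : Prop where
  gb : GB v b lam g
  ne : g.coeff n ≠ 0
  eq : v (g.coeff n) = lam - n * b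
  lt : ∀ m < n, Gt v (lam - m * b) (g.coeff m)

/-- `lam` is the Gauss value of `g` at the radius `b`, `n` is the last index which attains it. -/
structure GZ (v : RVal Ω) (b lam : ℝ) (n : ℕ) (g : Polynomial Ω) : Prop where
  gb : GB v b lam g
  ne : g.coeff n ≠ 0
  eq : v (g.coeff n) = lam - n * b
  lt : ∀ m, n < m → Gt v (lam - m * b) (g.coeff m)

/-- An element of bigger value does not change the value. -/
theorem add_gt {x y : Ω} {c : ℝ} (hx : x ≠ 0) (hc : v x = c) (hy : Gt v c y) :
    x + y ≠ 0 ∧ v (x + y) = c := by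
  by_cases h0 : y = 0
  · subst h0
    rw [add_zero]
    exact ⟨hx, hc⟩
  · have h1 := v.add_of_lt hx h0 (by rw [hc]; exact hy h0)
    exact ⟨h1.1, h1.2.trans hc⟩

theorem gt_term_left {i j : ℕ} {x y : Ω} (hx : Gt v (lam - i * b) x) (hy : v.Ge (lam' - j * b) y) :
    Gt v (lam + lam' - (i + j : ℕ) * b) (x * y) :=
  (hx.mul_ge hy).mono (by push_cast; linarith)

theorem gt_term_right {i j : ℕ} {x y : Ω} (hx : v.Ge (lam - i * b) x) (hy : Gt v (lam' - j * b) y) :
    Gt v (lam + lam' - (i + j : ℕ) * b) (x * y) := by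
  have h1 : Gt v (lam' - j * b + (lam - i * b)) (x * y) := by
    rw [mul_comm x y]
    exact hy.mul_ge hx
  exact h1.mono (by push_cast; linarith)

/-- The coefficient of a product: one term dominates. -/
theorem coeff_mul_dom (hfe : f.coeff n ≠ 0) (hf : v (f.coeff n) = lam - n * b)
    (hge : g.coeff n' ≠ 0) (hg : v (g.coeff n') = lam' - n' * b)
    (h : ∀ i j : ℕ, i + j = n + n' → ¬ (i = n ∧ j = n') →
      Gt v (lam + lam' - (i + j : ℕ) * b) (f.coeff i * g.coeff j)) :
    (f * g).coeff (n + n') ≠ 0 ∧ v ((f * g).coeff (n + n')) = lam + lam' - (n + n' : ℕ) * b := by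
  classical
  have hmem : (n, n') ∈ Finset.HasAntidiagonal.antidiagonal (n + n') := by simp
  rw [coeff_mul, ← Finset.add_sum_erase _ _ hmem]
  refine add_gt (mul_ne_zero hfe hge) ?_ (Gt.sum _ _ fun x hx => ?_)
  · rw [v.map_mul hfe hge, hf, hg]
    push_cast
    ring
  · rw [Finset.mem_erase, Finset.HasAntidiagonal.mem_antidiagonal] at hx
    have h1 := h x.1 x.2 hx.2 fun hc => hx.1 (Prod.ext hc.1 hc.2)
    rwa [hx.2] at h1

/-- The first indices of a product. -/
theorem GA.mul (hf : GA v b lam n f) (hg : GA v b lam' n' g) :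
    GA v b (lam + lam') (n + n') (f * g) := by
  have key : ∀ i j : ℕ, i < n ∨ j < n' →
      Gt v (lam + lam' - (i + j : ℕ) * b) (f.coeff i * g.coeff j) := by
    rintro i j (h | h)
    · exact gt_term_left (hf.lt i h) (hg.gb j)
    · exact gt_term_right (hf.gb i) (hg.lt j h)
  have h1 := coeff_mul_dom hf.ne hf.eq hg.ne hg.eq fun i j hij hne => key i j (by
    by_contra hcon
    push Not at hcon
    exact hne ⟨by omega, by omega⟩)
  refine ⟨hf.gb.mul hg.gb, h1.1, h1.2, fun m hm => ?_⟩
  rw [coeff_mul]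
  refine Gt.sum _ _ fun x hx => ?_
  rw [Finset.HasAntidiagonal.mem_antidiagonal] at hx
  have h2 := key x.1 x.2 (by omega)
  rwa [hx] at h2

/-- The last indices of a product. -/
theorem GZ.mul (hf : GZ v b lam n f) (hg : GZ v b lam' n' g) :
    GZ v b (lam + lam') (n + n') (f * g) := by
  have key : ∀ i j : ℕ, n < i ∨ n' < j →
      Gt v (lam + lam' - (i + j : ℕ) * b) (f.coeff i * g.coeff j) := by
    rintro i j (h | h)
    · exact gt_term_left (hf.lt i h) (hg.gb j)
    · exact gt_term_right (hf.gb i) (hg.lt j h)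
  have h1 := coeff_mul_dom hf.ne hf.eq hg.ne hg.eq fun i j hij hne => key i j (by
    by_contra hcon
    push Not at hcon
    exact hne ⟨by omega, by omega⟩)
  refine ⟨hf.gb.mul hg.gb, h1.1, h1.2, fun m hm => ?_⟩
  rw [coeff_mul]
  refine Gt.sum _ _ fun x hx => ?_
  rw [Finset.HasAntidiagonal.mem_antidiagonal] at hx
  have h2 := key x.1 x.2 (by omega)
  rwa [hx] at h2

/-- The Gauss value is the biggest bound. -/
theorem GA.le (hf : GA v b lam n f) (h : GB v b lam' f) : lam' ≤ lam := by
  have h1 := h n hf.ne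
  rw [hf.eq] at h1
  linarith

theorem GZ.le (hf : GZ v b lam n f) (h : GB v b lam' f) : lam' ≤ lam := by
  have h1 := h n hf.ne
  rw [hf.eq] at h1
  linarith

theorem GA.C {c : Ω} (hc : c ≠ 0) : GA v b (v c) 0 (C c) :=
  ⟨GB.C (RVal.ge_self c), by rwa [coeff_C_zero], by rw [coeff_C_zero]; simp,
    fun m hm => absurd hm (Nat.not_lt_zero m)⟩

theorem GZ.C {c : Ω} (hc : c ≠ 0) : GZ v b (v c) 0 (C c) :=
  ⟨GB.C (RVal.ge_self c), by rwa [coeff_C_zero], by rw [coeff_C_zero]; simp,
    fun m hm => by rw [coeff_C_of_ne_zero (by omega)]; exact Gt.zero⟩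

open Classical in
/-- The value, cut at `b`. -/
noncomputable def cut (v : RVal Ω) (b : ℝ) (x : Ω) : ℝ := if x = 0 then b else min (v x) b

theorem cut_of_ge {x : Ω} (h : v.Ge b x) : cut v b x = b := by
  unfold cut
  split_ifs with h0
  · rfl
  · exact min_eq_right (h h0)

theorem cut_of_not_ge {x : Ω} (h : ¬ v.Ge b x) : x ≠ 0 ∧ v x < b ∧ cut v b x = v x := by
  have h0 : x ≠ 0 := fun h0 => h (by rw [h0]; exact RVal.Ge.zero)
  have h1 : v x < b := by
    by_contra h1
    exact h fun _ => not_lt.1 h1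
  refine ⟨h0, h1, ?_⟩
  unfold cut
  rw [if_neg h0, min_eq_left h1.le]

theorem cut_le (x : Ω) : cut v b x ≤ b := by
  unfold cut
  split_ifs
  exacts [le_rfl, min_le_right _ _]

theorem ge_cut (x : Ω) : v.Ge (cut v b x) x := by
  intro h0
  unfold cut
  rw [if_neg h0]
  exact min_le_left _ _

theorem coeff_lin (w : Ω) (m : ℕ) : (X + C w : Polynomial Ω).coeff m =
    if m = 0 then w else if m = 1 then 1 else 0 := by
  rw [coeff_add, coeff_X, coeff_C]
  rcases m with _ | _ | m
  · simp
  · simp
  · simp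

theorem GB_lin (w : Ω) : GB v b (cut v b w) (X + C w) := by
  intro m
  rw [coeff_lin]
  split_ifs with h0 h1
  · subst h0
    exact (ge_cut (b := b) w).mono (by simp)
  · subst h1
    intro _
    rw [v.map_one]
    have := cut_le (v := v) (b := b) w
    push_cast
    linarith
  · exact RVal.Ge.zero

open Classical in
/-- A linear factor, the first index. -/
theorem GA_lin (w : Ω) : GA v b (cut v b w) (if Gt v b w then 1 else 0) (X + C w) := by
  split_ifs with h
  · have h1 : cut v b w = b := cut_of_ge h.ge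
    refine ⟨GB_lin w, ?_, ?_, fun m hm => ?_⟩
    · rw [coeff_lin]; simp
    · rw [coeff_lin, h1]; simp [v.map_one]
    · obtain rfl : m = 0 := by omega
      rw [coeff_lin, if_pos rfl, h1]
      exact h.mono (by simp)
  · have h0 : w ≠ 0 := fun h0 => h (by rw [h0]; exact Gt.zero)
    have h1 : v w ≤ b := by
      by_contra h1
      exact h fun _ => not_le.1 h1
    have h2 : cut v b w = v w := by
      unfold cut
      rw [if_neg h0, min_eq_left h1]
    refine ⟨GB_lin w, ?_, ?_, fun m hm => absurd hm (Nat.not_lt_zero m)⟩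
    · rw [coeff_lin, if_pos rfl]; exact h0
    · rw [coeff_lin, if_pos rfl, h2]; simp

open Classical in
/-- A linear factor, the last index. -/
theorem GZ_lin (w : Ω) : GZ v b (cut v b w) (if v.Ge b w then 1 else 0) (X + C w) := by
  split_ifs with h
  · have h1 : cut v b w = b := cut_of_ge h
    refine ⟨GB_lin w, ?_, ?_, fun m hm => ?_⟩
    · rw [coeff_lin]; simp
    · rw [coeff_lin, h1]; simp [v.map_one]
    · rw [coeff_lin, if_neg (by omega), if_neg (by omega)]
      exact Gt.zero
  · obtain ⟨h0, h1, h2⟩ := cut_of_not_ge h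
    refine ⟨GB_lin w, ?_, ?_, fun m hm => ?_⟩
    · rw [coeff_lin, if_pos rfl]; exact h0
    · rw [coeff_lin, if_pos rfl, h2]; simp
    · rw [coeff_lin, if_neg (by omega)]
      split_ifs with h3
      · subst h3
        intro _
        rw [v.map_one, h2]
        push_cast
        linarith
      · exact Gt.zero

open Classical in
/-- A product of linear factors, the first index. -/
theorem GA_prod (s : Multiset Ω) : GA v b (s.map (cut v b)).sum (s.countP (Gt v b))
    (s.map fun w => X + C w).prod := by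
  induction s using Multiset.induction_on with
  | empty =>
    have h1 := GA.C (v := v) (b := b) (one_ne_zero (α := Ω))
    rw [v.map_one, C_1] at h1
    simpa using h1
  | cons a s ih =>
    rw [Multiset.map_cons, Multiset.map_cons, Multiset.sum_cons, Multiset.prod_cons,
      Multiset.countP_cons, Nat.add_comm]
    exact (GA_lin a).mul ih

open Classical in
/-- A product of linear factors, the last index. -/
theorem GZ_prod (s : Multiset Ω) : GZ v b (s.map (cut v b)).sum (s.countP (v.Ge b))
    (s.map fun w => X + C w).prod := by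
  induction s using Multiset.induction_on with
  | empty =>
    have h1 := GZ.C (v := v) (b := b) (one_ne_zero (α := Ω))
    rw [v.map_one, C_1] at h1
    simpa using h1
  | cons a s ih =>
    rw [Multiset.map_cons, Multiset.map_cons, Multiset.sum_cons, Multiset.prod_cons,
      Multiset.countP_cons, Nat.add_comm]
    exact (GZ_lin a).mul ih

end Gauss

/-! ### The Gauss value of a polynomial on a disc -/

section GVal

variable {Ω : Type u} [Field Ω]

/-- The Gauss value of `f` on the disc of radius `b` around `y`. -/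
noncomputable def gval (v : RVal Ω) (y : Ω) (b : ℝ) (f : Polynomial Ω) : ℝ :=
  v f.leadingCoeff + (f.roots.map fun η => cut v b (y - η)).sum

open Classical in
/-- The number of roots in the open disc. -/
noncomputable def nop (v : RVal Ω) (y : Ω) (b : ℝ) (f : Polynomial Ω) : ℕ :=
  f.roots.countP fun η => Gt v b (y - η)

open Classical in
/-- The number of roots in the closed disc. -/
noncomputable def ncl (v : RVal Ω) (y : Ω) (b : ℝ) (f : Polynomial Ω) : ℕ :=
  f.roots.countP fun η => v.Ge b (y - η)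

variable {v : RVal Ω} {y : Ω} {b b' lam : ℝ} {f g : Polynomial Ω}

theorem gval_mul (hf : f ≠ 0) (hg : g ≠ 0) : gval v y b (f * g) = gval v y b f + gval v y b g := by
  unfold gval
  rw [leadingCoeff_mul, v.map_mul (leadingCoeff_ne_zero.2 hf) (leadingCoeff_ne_zero.2 hg),
    roots_mul (mul_ne_zero hf hg), Multiset.map_add, Multiset.sum_add]
  ring

theorem nop_mul (hf : f ≠ 0) (hg : g ≠ 0) : nop v y b (f * g) = nop v y b f + nop v y b g := by
  unfold nop
  rw [roots_mul (mul_ne_zero hf hg), Multiset.countP_add]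

theorem ncl_mul (hf : f ≠ 0) (hg : g ≠ 0) : ncl v y b (f * g) = ncl v y b f + ncl v y b g := by
  unfold ncl
  rw [roots_mul (mul_ne_zero hf hg), Multiset.countP_add]

theorem gval_C (c : Ω) : gval v y b (C c) = v c := by
  unfold gval
  rw [leadingCoeff_C, roots_C, Multiset.map_zero, Multiset.sum_zero, add_zero]

theorem gval_one : gval v y b (1 : Polynomial Ω) = 0 := by
  rw [← C_1, gval_C, v.map_one]

theorem nop_C (c : Ω) : nop v y b (C c) = 0 := by
  unfold nop
  rw [roots_C, Multiset.countP_zero]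

theorem ncl_C (c : Ω) : ncl v y b (C c) = 0 := by
  unfold ncl
  rw [roots_C, Multiset.countP_zero]

theorem gval_pow (hf : f ≠ 0) (n : ℕ) : gval v y b (f ^ n) = n * gval v y b f := by
  induction n with
  | zero => rw [pow_zero, gval_one, Nat.cast_zero, zero_mul]
  | succ n ih =>
    rw [pow_succ, gval_mul (pow_ne_zero n hf) hf, ih]
    push_cast
    ring

theorem nop_pow (n : ℕ) : nop v y b (f ^ n) = n * nop v y b f := by
  unfold nop
  rw [roots_pow, Multiset.countP_nsmul]

theorem ncl_pow (n : ℕ) : ncl v y b (f ^ n) = n * ncl v y b f := by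
  unfold ncl
  rw [roots_pow, Multiset.countP_nsmul]

theorem gval_C_mul {c : Ω} (hc : c ≠ 0) (hf : f ≠ 0) :
    gval v y b (C c * f) = v c + gval v y b f := by
  rw [gval_mul (C_ne_zero.2 hc) hf, gval_C]

theorem gval_X_sub_C (η : Ω) : gval v y b (X - C η) = cut v b (y - η) := by
  unfold gval
  rw [leadingCoeff_X_sub_C, v.map_one, roots_X_sub_C, Multiset.map_singleton,
    Multiset.sum_singleton, zero_add]

theorem nop_le_ncl : nop v y b f ≤ ncl v y b f := by
  classical
  unfold nop ncl
  simp only [Multiset.countP_eq_card_filter]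
  exact Multiset.card_le_card (Multiset.monotone_filter_right _ fun η h => Gt.ge h)

theorem ncl_le_natDegree : ncl v y b f ≤ f.natDegree := by
  classical
  unfold ncl
  exact (Multiset.countP_le_card _ _).trans (card_roots' f)

theorem nop_pos_iff (hf : f ≠ 0) : 0 < nop v y b f ↔ ∃ η, f.eval η = 0 ∧ Gt v b (y - η) := by
  classical
  unfold nop
  rw [Multiset.countP_pos]
  simp only [mem_roots hf, IsRoot.def]

theorem ncl_pos_iff (hf : f ≠ 0) : 0 < ncl v y b f ↔ ∃ η, f.eval η = 0 ∧ v.Ge b (y - η) := by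
  classical
  unfold ncl
  rw [Multiset.countP_pos]
  simp only [mem_roots hf, IsRoot.def]

/-- The factorisation of `taylor y f`. -/
theorem taylor_prod [IsAlgClosed Ω] (f : Polynomial Ω) : taylor y f =
    C f.leadingCoeff * ((f.roots.map fun η => y - η).map fun w => X + C w).prod := by
  conv_lhs => rw [(IsAlgClosed.splits f).eq_prod_roots]
  rw [taylor_mul, taylor_C, Multiset.map_map]
  congr 1
  induction f.roots using Multiset.induction_on with
  | empty => simp
  | cons a s ih =>
    rw [Multiset.map_cons, Multiset.map_cons, Multiset.prod_cons, Multiset.prod_cons, taylor_mul,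
      ih]
    congr 1
    rw [map_sub, taylor_X, taylor_C, Function.comp_apply, C_sub]
    ring

/-- `gval` is the Gauss value, `nop` is the first index which attains it. -/
theorem GA_gval [IsAlgClosed Ω] (hf : f ≠ 0) :
    GA v b (gval v y b f) (nop v y b f) (taylor y f) := by
  classical
  have h1 := (GA.C (v := v) (b := b) (leadingCoeff_ne_zero.2 hf)).mul
    (GA_prod (v := v) (b := b) (f.roots.map fun η => y - η))
  rw [← taylor_prod, Multiset.map_map, Multiset.countP_map, zero_add] at h1
  unfold gval nop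
  rw [Multiset.countP_eq_card_filter]
  exact h1

/-- `gval` is the Gauss value, `ncl` is the last index which attains it. -/
theorem GZ_gval [IsAlgClosed Ω] (hf : f ≠ 0) :
    GZ v b (gval v y b f) (ncl v y b f) (taylor y f) := by
  classical
  have h1 := (GZ.C (v := v) (b := b) (leadingCoeff_ne_zero.2 hf)).mul
    (GZ_prod (v := v) (b := b) (f.roots.map fun η => y - η))
  rw [← taylor_prod, Multiset.map_map, Multiset.countP_map, zero_add] at h1
  unfold gval ncl
  rw [Multiset.countP_eq_card_filter]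
  exact h1

/-- `gval` is the Gauss value. -/
theorem GB_gval [IsAlgClosed Ω] : GB v b (gval v y b f) (taylor y f) := by
  by_cases hf : f = 0
  · subst hf
    rw [map_zero]
    exact GB.zero
  · exact (GA_gval hf).gb

/-- `gval` is the Gauss value. -/
theorem GB_iff [IsAlgClosed Ω] (hf : f ≠ 0) : GB v b lam (taylor y f) ↔ lam ≤ gval v y b f :=
  ⟨fun h => (GA_gval hf).le h, fun h => GB_gval.mono h⟩

/-- The value at `y`. -/
theorem val_eval [IsAlgClosed Ω] (hy : f.eval y ≠ 0) :
    v (f.eval y) = v f.leadingCoeff + (f.roots.map fun η => v (y - η)).sum := by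
  have hf : f ≠ 0 := fun h => hy (by rw [h, eval_zero])
  have hs : ∀ s : Multiset Ω, (s.map fun η => y - η).prod ≠ 0 →
      v (s.map fun η => y - η).prod = (s.map fun η => v (y - η)).sum := by
    intro s
    induction s using Multiset.induction_on with
    | empty => intro _; simp [v.map_one]
    | cons a s ih =>
      intro h0
      rw [Multiset.map_cons, Multiset.prod_cons] at h0
      rw [Multiset.map_cons, Multiset.map_cons, Multiset.prod_cons, Multiset.sum_cons,
        v.map_mul (left_ne_zero_of_mul h0) (right_ne_zero_of_mul h0),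
        ih (right_ne_zero_of_mul h0)]
  rw [(IsAlgClosed.splits f).eval_eq_prod_roots] at hy ⊢
  rw [v.map_mul (left_ne_zero_of_mul hy) (right_ne_zero_of_mul hy), hs _ (right_ne_zero_of_mul hy)]

theorem ge_eval [IsAlgClosed Ω] : v.Ge (gval v y b f) (f.eval y) := by
  have h1 := GB_gval (v := v) (y := y) (b := b) (f := f) 0
  rw [taylor_coeff_zero] at h1
  exact h1.mono (by simp)

/-- No root in the closed disc. -/
theorem gval_eq_eval [IsAlgClosed Ω] (hf : f ≠ 0) (h : ncl v y b f = 0) :
    f.eval y ≠ 0 ∧ v (f.eval y) = gval v y b f := by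
  have h1 := GZ_gval (v := v) (y := y) (b := b) hf
  rw [h] at h1
  have h2 := h1.ne
  have h3 := h1.eq
  rw [taylor_coeff_zero] at h2 h3
  exact ⟨h2, by rw [h3]; simp⟩

/-- No root in the open disc. -/
theorem gval_eq_eval' [IsAlgClosed Ω] (hf : f ≠ 0) (h : nop v y b f = 0) :
    f.eval y ≠ 0 ∧ v (f.eval y) = gval v y b f := by
  have h1 := GA_gval (v := v) (y := y) (b := b) hf
  rw [h] at h1
  have h2 := h1.ne
  have h3 := h1.eq
  rw [taylor_coeff_zero] at h2 h3
  exact ⟨h2, by rw [h3]; simp⟩

/-- A root in the open disc. -/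
theorem gt_eval [IsAlgClosed Ω] (hf : f ≠ 0) (h : 0 < nop v y b f) :
    Gt v (gval v y b f) (f.eval y) := by
  have h1 := (GA_gval (v := v) (y := y) (b := b) hf).lt 0 h
  rw [taylor_coeff_zero] at h1
  exact h1.mono (by simp)

/-- No root in the closed disc: the constant term dominates strictly. -/
theorem gt_coeff [IsAlgClosed Ω] (hf : f ≠ 0) (h : ncl v y b f = 0) {m : ℕ} (hm : 0 < m) :
    Gt v (v (f.eval y) - m * b) ((taylor y f).coeff m) := by
  rw [(gval_eq_eval hf h).2]
  exact (GZ_gval hf).lt m (by rw [h]; exact hm)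

/-! ### Slopes -/

theorem cut_mono (h : b ≤ b') (x : Ω) : cut v b x ≤ cut v b' x := by
  unfold cut
  split_ifs
  exacts [h, min_le_min le_rfl h]

theorem cut_up {x : Ω} (hx : ¬ Gt v b x) : cut v b' x ≤ cut v b x := by
  have h0 : x ≠ 0 := fun h0 => hx (by rw [h0]; exact Gt.zero)
  have h1 : v x ≤ b := by
    by_contra h1
    exact hx fun _ => not_le.1 h1
  unfold cut
  rw [if_neg h0, if_neg h0, min_eq_left h1]
  exact min_le_left _ _

theorem cut_sub_le (h : b ≤ b') (x : Ω) : cut v b' x ≤ cut v b x + (b' - b) := by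
  unfold cut
  split_ifs
  · linarith
  · rw [← min_add_add_right]
    exact le_min ((min_le_left _ _).trans (by linarith)) ((min_le_right _ _).trans (by linarith))

theorem cut_lo (h : b ≤ b') {x : Ω} (hx : v.Ge b' x) : cut v b' x = cut v b x + (b' - b) := by
  rw [cut_of_ge hx, cut_of_ge (hx.mono h)]
  ring

/-- The Gauss value increases with the radius. -/
theorem gval_mono (h : b ≤ b') : gval v y b f ≤ gval v y b' f := by
  unfold gval
  have h1 : (f.roots.map fun η => cut v b (y - η)).sum ≤
      (f.roots.map fun η => cut v b' (y - η)).sum :=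
    Multiset.sum_map_le_sum_map _ _ fun η _ => cut_mono h _
  linarith

/-- The slope is at most the number of roots in the open disc of radius `b`. -/
theorem gval_up (h : b ≤ b') : gval v y b' f ≤ gval v y b f + nop v y b f * (b' - b) := by
  classical
  unfold gval nop
  have h1 : ∀ s : Multiset Ω, (s.map fun η => cut v b' (y - η)).sum ≤
      (s.map fun η => cut v b (y - η)).sum +
        (s.countP fun η => Gt v b (y - η) : ℕ) * (b' - b) := by
    intro s
    induction s using Multiset.induction_on with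
    | empty => simp
    | cons a s ih =>
      rw [Multiset.map_cons, Multiset.map_cons, Multiset.sum_cons, Multiset.sum_cons,
        Multiset.countP_cons]
      split_ifs with ha
      · have h2 := cut_sub_le (v := v) h (y - a)
        push_cast
        linarith
      · have h2 := cut_up (v := v) (b' := b') ha
        push_cast
        linarith
  have h2 := h1 f.roots
  linarith

/-- The slope is at least the number of roots in the closed disc of radius `b'`. -/
theorem gval_lo (h : b ≤ b') : gval v y b f + ncl v y b' f * (b' - b) ≤ gval v y b' f := by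
  classical
  unfold gval ncl
  have h1 : ∀ s : Multiset Ω, (s.map fun η => cut v b (y - η)).sum +
      (s.countP fun η => v.Ge b' (y - η) : ℕ) * (b' - b) ≤
        (s.map fun η => cut v b' (y - η)).sum := by
    intro s
    induction s using Multiset.induction_on with
    | empty => simp
    | cons a s ih =>
      rw [Multiset.map_cons, Multiset.map_cons, Multiset.sum_cons, Multiset.sum_cons,
        Multiset.countP_cons]
      split_ifs with ha
      · have h2 := cut_lo (v := v) h ha
        push_cast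
        linarith
      · have h2 := cut_mono (v := v) h (y - a)
        push_cast
        linarith
  have h2 := h1 f.roots
  linarith

/-- The degree bounds the slope. -/
theorem gval_up_deg (h : b ≤ b') : gval v y b' f ≤ gval v y b f + f.natDegree * (b' - b) := by
  refine (gval_up h).trans ?_
  have h1 : (nop v y b f : ℝ) ≤ f.natDegree := by
    exact_mod_cast nop_le_ncl.trans ncl_le_natDegree
  nlinarith

/-- The number of roots in the closed disc decreases. -/
theorem ncl_anti (h : b ≤ b') : ncl v y b' f ≤ ncl v y b f := by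
  classical
  unfold ncl
  simp only [Multiset.countP_eq_card_filter]
  exact Multiset.card_le_card (Multiset.monotone_filter_right _ fun η hη => hη.mono h)

/-- The number of roots in the open disc decreases. -/
theorem nop_anti (h : b ≤ b') : nop v y b' f ≤ nop v y b f := by
  classical
  unfold nop
  simp only [Multiset.countP_eq_card_filter]
  exact Multiset.card_le_card (Multiset.monotone_filter_right _ fun η hη => Gt.mono hη h)

/-- A smaller closed disc is contained in the open disc. -/
theorem ncl_le_nop (h : b < b') : ncl v y b' f ≤ nop v y b f := by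
  classical
  unfold ncl nop
  simp only [Multiset.countP_eq_card_filter]
  exact Multiset.card_le_card (Multiset.monotone_filter_right _ fun η hη => Gt.of_ge hη h)

/-- No root between the radii: the Gauss value is affine. -/
theorem gval_affine (h : b ≤ b') (he : ncl v y b' f = nop v y b f) :
    gval v y b' f = gval v y b f + nop v y b f * (b' - b) := by
  refine le_antisymm (gval_up h) ?_
  rw [← he]
  exact gval_lo h

/-- No root in the open disc: the Gauss value is constant. -/
theorem gval_const (h : b ≤ b') (he : nop v y b f = 0) : gval v y b' f = gval v y b f := by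
  refine le_antisymm ?_ (gval_mono h)
  have h1 := gval_up (v := v) (y := y) (f := f) h
  rw [he, Nat.cast_zero, zero_mul, add_zero] at h1
  exact h1

/-- There is a bigger radius without roots in between. -/
theorem exists_nop_eq (v : RVal Ω) (y : Ω) (b : ℝ) (f : Polynomial Ω) :
    ∃ b₁ : ℝ, b < b₁ ∧ ∀ b', b < b' → b' ≤ b₁ → ncl v y b' f = nop v y b f := by
  classical
  have h1 : ∀ s : Multiset Ω, ∃ b₁ : ℝ, b < b₁ ∧ ∀ η ∈ s, Gt v b (y - η) → v.Ge b₁ (y - η) := by
    intro s
    induction s using Multiset.induction_on with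
    | empty => exact ⟨b + 1, by linarith, fun η hη => absurd hη (Multiset.notMem_zero η)⟩
    | cons a s ih =>
      obtain ⟨b₁, h1, h2⟩ := ih
      by_cases ha : Gt v b (y - a)
      · by_cases h0 : y - a = 0
        · refine ⟨b₁, h1, fun η hη hg => ?_⟩
          rcases Multiset.mem_cons.1 hη with rfl | hη
          · rw [h0]
            exact RVal.Ge.zero
          · exact h2 η hη hg
        · refine ⟨min b₁ (v (y - a)), lt_min h1 (ha h0), fun η hη hg => ?_⟩
          rcases Multiset.mem_cons.1 hη with rfl | hη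
          · exact fun _ => min_le_right _ _
          · exact (h2 η hη hg).mono (min_le_left _ _)
      · refine ⟨b₁, h1, fun η hη hg => ?_⟩
        rcases Multiset.mem_cons.1 hη with rfl | hη
        · exact absurd hg ha
        · exact h2 η hη hg
  obtain ⟨b₁, h2, h3⟩ := h1 f.roots
  refine ⟨b₁, h2, fun b' h4 h5 => le_antisymm (ncl_le_nop h4) ?_⟩
  unfold ncl nop
  simp only [Multiset.countP_eq_card_filter]
  refine Multiset.card_le_card ?_
  refine Multiset.le_filter.2 ⟨Multiset.filter_le _ _, fun η hη => ?_⟩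
  rw [Multiset.mem_filter] at hη
  exact (h3 η hη.1 hη.2).mono h5

end GVal

/-! ### Levels -/

section Levels

variable {k Ω : Type u} [Field k] [Field Ω] [Algebra k Ω] {v : RVal Ω}
  {C : IntermediateField k Ω} {y : Ω} {b b' β β' lam : ℝ} {φ φ' f g : Polynomial Ω}

theorem eval_ne (hy : Transcendental C y) (hg : g ∈ PI C) (h0 : g ≠ 0) : g.eval y ≠ 0 := fun h =>
  hy (isAlgebraic_root hg h0 h)

theorem root_ne (hy : Transcendental C y) (hg : g ∈ PI C) (h0 : g ≠ 0) {η : Ω}
    (hη : g.eval η = 0) : y - η ≠ 0 := by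
  intro h
  rw [sub_eq_zero] at h
  exact eval_ne hy hg h0 (h ▸ hη)

theorem Lev.ne_zero (h : Lev v C y b φ β) : φ ≠ 0 := h.mon.ne_zero

/-- The value of a level. -/
theorem Lev.beta [IsAlgClosed Ω] (h : Lev v C y b φ β) : β = gval v y b φ :=
  le_antisymm ((GB_iff h.ne_zero).1 h.ge) (h.le _ GB_gval)

/-- `φ` has a root in the open disc. -/
theorem Lev.nop_pos (h : Lev v C y b φ β) : 0 < nop v y b φ := by
  obtain ⟨η, h1, h2⟩ := h.root
  exact (nop_pos_iff h.ne_zero).2 ⟨η, h1, fun _ => h2⟩

theorem Lev.ncl_pos (h : Lev v C y b φ β) : 0 < ncl v y b φ := h.nop_pos.trans_le nop_le_ncl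

/-- The degree of the polynomials with a root in the closed disc. -/
theorem Lev.deg_le_of_ncl (h : Lev v C y b φ β) (hg : g ∈ PI C) (h0 : g ≠ 0)
    (hn : 0 < ncl v y b g) : φ.natDegree ≤ g.natDegree :=
  h.min g hg h0 ((ncl_pos_iff h0).1 hn)

theorem Lev.deg_pos (h : Lev v C y b φ β) : 0 < φ.natDegree :=
  h.ncl_pos.trans_le ncl_le_natDegree

/-- `φ(y)` has a bigger value than `β`. -/
theorem Lev.gt [IsAlgClosed Ω] (h : Lev v C y b φ β) : Gt v β (φ.eval y) := by
  rw [h.beta]
  exact gt_eval h.ne_zero h.nop_pos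

/-- The polynomials of smaller degree have no roots in the closed disc. -/
theorem Lev.ncl_eq (h : Lev v C y b φ β) (hg : g ∈ PI C) (h0 : g ≠ 0)
    (hd : g.natDegree < φ.natDegree) (hb : b ≤ b') : ncl v y b' g = 0 := by
  by_contra hn
  have h1 : 0 < ncl v y b g := (Nat.pos_of_ne_zero hn).trans_le (ncl_anti hb)
  exact absurd (h.deg_le_of_ncl hg h0 h1) (not_le.2 hd)

/-- The polynomials of smaller degree are constant in absolute value. -/
theorem Lev.gval_eq [IsAlgClosed Ω] (h : Lev v C y b φ β) (hg : g ∈ PI C) (h0 : g ≠ 0)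
    (hd : g.natDegree < φ.natDegree) (hb : b ≤ b') :
    g.eval y ≠ 0 ∧ v (g.eval y) = gval v y b' g := gval_eq_eval h0 (h.ncl_eq hg h0 hd hb)

/-- The polynomials of smaller degree: the higher coefficients are strictly smaller. -/
theorem Lev.gt_coeff [IsAlgClosed Ω] (h : Lev v C y b φ β) (hg : g ∈ PI C) (h0 : g ≠ 0)
    (hd : g.natDegree < φ.natDegree) (hb : b ≤ b') {m : ℕ} (hm : 0 < m) :
    Gt v (v (g.eval y) - m * b') ((taylor y g).coeff m) :=
  TWJ2.gt_coeff h0 (h.ncl_eq hg h0 hd hb) hm

/-- The polynomials of smaller degree: Gauss bounds on the smaller discs. -/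
theorem Lev.low [IsAlgClosed Ω] (h : Lev v C y b φ β) (hg : g ∈ PI C)
    (hd : g.natDegree < φ.natDegree) (hb : b ≤ b') :
    GB v b' lam (taylor y g) ↔ v.Ge lam (g.eval y) := by
  by_cases h0 : g = 0
  · subst h0
    rw [map_zero, eval_zero]
    exact ⟨fun _ => RVal.Ge.zero, fun _ => GB.zero⟩
  · obtain ⟨h1, h2⟩ := h.gval_eq hg h0 hd hb
    rw [GB_iff h0, ← h2]
    exact ⟨fun h3 _ => h3, fun h3 => h3 h1⟩

/-- A monic polynomial of minimal degree defines a level. -/
theorem Lev.of_min [IsAlgClosed Ω] (hφ : φ ∈ PI C) (hm : φ.Monic)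
    (hr : ∃ η : Ω, φ.eval η = 0 ∧ b < v (y - η))
    (hmin : ∀ g ∈ PI C, g ≠ 0 → (∃ η : Ω, g.eval η = 0 ∧ v.Ge b (y - η)) →
      φ.natDegree ≤ g.natDegree) : Lev v C y b φ (gval v y b φ) :=
  ⟨hφ, hm, hr, hmin, GB_gval, fun _ h => (GB_iff hm.ne_zero).1 h⟩

/-- `φ` stays the key polynomial as long as it has a root in the open disc. -/
theorem Lev.up [IsAlgClosed Ω] (h : Lev v C y b φ β) (hb : b ≤ b')
    (hr : ∃ η : Ω, φ.eval η = 0 ∧ b' < v (y - η)) : Lev v C y b' φ (gval v y b' φ) :=
  Lev.of_min h.mem h.mon hr fun g hg h0 ⟨η, h1, h2⟩ => h.min g hg h0 ⟨η, h1, h2.mono hb⟩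

/-- The same as `Lev.up`, up to the value `b₁` of a root. -/
theorem Lev.exists_up [IsAlgClosed Ω] (h : Lev v C y b φ β) :
    ∃ b₁ : ℝ, b < b₁ ∧ ∀ b', b ≤ b' → b' < b₁ → Lev v C y b' φ (gval v y b' φ) := by
  obtain ⟨η, h1, h2⟩ := h.root
  exact ⟨v (y - η), h2, fun b' h3 h4 => h.up h3 ⟨η, h1, h4⟩⟩

/-- The degree of the key polynomials is monotone. -/
theorem Lev.deg_mono (h : Lev v C y b φ β) (h' : Lev v C y b' φ' β') (hb : b ≤ b') :
    φ.natDegree ≤ φ'.natDegree :=
  h.deg_le_of_ncl h'.mem h'.ne_zero (h'.ncl_pos.trans_le (ncl_anti hb))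

/-- The degree of the key polynomial depends only on the level. -/
theorem Lev.deg_eq (h : Lev v C y b φ β) (h' : Lev v C y b φ' β') :
    φ.natDegree = φ'.natDegree := le_antisymm (h.deg_mono h' le_rfl) (h'.deg_mono h le_rfl)

/-- The values of the key polynomials increase. -/
theorem Lev.beta_mono [IsAlgClosed Ω] (h : Lev v C y b φ β) (h' : Lev v C y b' φ β')
    (hb : b ≤ b') : β ≤ β' := by
  rw [h.beta, h'.beta]
  exact gval_mono hb

theorem Lev.beta_lt [IsAlgClosed Ω] (h : Lev v C y b φ β) (h' : Lev v C y b' φ β')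
    (hb : b < b') : β < β' := by
  have h1 := gval_lo (v := v) (y := y) (f := φ) hb.le
  rw [← h.beta, ← h'.beta] at h1
  have h2 : (1 : ℝ) ≤ ncl v y b' φ := by exact_mod_cast h'.ncl_pos
  nlinarith

/-- The value of the level does not depend on the key polynomial: one inequality. -/
theorem Lev.beta_le [IsAlgClosed Ω] (h : Lev v C y b φ β)
    (h' : Lev v C y b φ' β') : β' ≤ β := by
  by_contra hlt
  push Not at hlt
  have hd := h.deg_eq h'
  have hg : φ - φ' ∈ PI C := sub_mem h.mem h'.mem
  have hdeg : (φ - φ').natDegree < φ.natDegree := by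
    by_cases h0 : φ - φ' = 0
    · rw [h0, natDegree_zero]
      exact h.deg_pos
    · refine natDegree_lt_natDegree h0 (degree_sub_lt_left ?_ h.ne_zero ?_)
      · rw [degree_eq_natDegree h.ne_zero, degree_eq_natDegree h'.ne_zero, hd]
      · rw [h.mon.leadingCoeff, h'.mon.leadingCoeff]
  have h1 : Gt v β ((φ - φ').eval y) := by
    rw [eval_sub]
    exact h.gt.sub (h'.gt.mono hlt.le)
  by_cases h0 : φ - φ' = 0
  · rw [sub_eq_zero] at h0
    subst h0
    exact absurd (h.le _ h'.ge) (not_le.2 hlt)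
  · obtain ⟨h2, h3⟩ := h.gval_eq hg h0 hdeg le_rfl
    have h4 : β < v ((φ - φ').eval y) := h1 h2
    have h5 : GB v b (Min.min β' (v ((φ - φ').eval y))) (taylor y φ) := by
      have h6 : GB v b (Min.min β' (v ((φ - φ').eval y))) (taylor y (φ - φ') + taylor y φ') := by
        refine GB.add ?_ (h'.ge.mono (min_le_left _ _))
        rw [GB_iff h0, ← h3]
        exact min_le_right _ _
      rwa [← map_add, sub_add_cancel] at h6
    exact absurd (h.le _ h5) (not_le.2 (lt_min hlt h4))

/-- The value of the level does not depend on the key polynomial. -/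
theorem Lev.beta_eq [IsAlgClosed Ω] (h : Lev v C y b φ β)
    (h' : Lev v C y b φ' β') : β = β' :=
  le_antisymm (h'.beta_le h) (h.beta_le h')

/-- Existence of levels between two radii. -/
theorem exists_Lev [IsAlgClosed Ω] (hy : Transcendental C y) {b₀ b₁ : ℝ} (h01 : b₀ < b₁)
    (hg : g ∈ PI C) (h0 : g ≠ 0) (hr : ∃ η : Ω, g.eval η = 0 ∧ v.Ge b₁ (y - η)) :
    ∃ (b : ℝ) (φ : Polynomial Ω) (β : ℝ), b₀ < b ∧ b < b₁ ∧ φ.natDegree ≤ g.natDegree ∧
      Lev v C y b φ β := by
  classical
  set Q : ℝ → ℕ → Prop := fun b d => ∃ f ∈ PI C, f ≠ 0 ∧ f.natDegree = d ∧ 0 < ncl v y b f with hQ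
  have hg1 : ∀ b, b ≤ b₁ → Q b g.natDegree := fun b hb =>
    ⟨g, hg, h0, rfl, ((ncl_pos_iff h0).2 hr).trans_le (ncl_anti hb)⟩
  have hex : ∀ b, b ≤ b₁ → ∃ d, Q b d := fun b hb => ⟨_, hg1 b hb⟩
  -- the minimal degree, and its maximum on the interval
  set D : Set ℕ := {d | ∃ b, b₀ < b ∧ b < b₁ ∧ Q b d ∧ ∀ d' < d, ¬ Q b d'} with hD
  have hmin : ∀ b, b ≤ b₁ → ∃ d, Q b d ∧ (∀ d' < d, ¬ Q b d') ∧ d ≤ g.natDegree := by
    intro b hb
    refine ⟨Nat.find (hex b hb), Nat.find_spec (hex b hb), fun d' hd' => Nat.find_min _ hd',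
      Nat.find_min' _ (hg1 b hb)⟩
  have hDne : D.Nonempty := by
    obtain ⟨d, h1, h2, -⟩ := hmin ((b₀ + b₁) / 2) (by linarith)
    exact ⟨d, (b₀ + b₁) / 2, by linarith, by linarith, h1, h2⟩
  have hDbd : ∀ d ∈ D, d ≤ g.natDegree := by
    rintro d ⟨b, -, hb, h1, h2⟩
    by_contra hlt
    push Not at hlt
    exact h2 _ hlt (hg1 b hb.le)
  obtain ⟨d, hdD, hdmax⟩ : ∃ d ∈ D, ∀ d' ∈ D, d' ≤ d := by
    have hfin : D.Finite := (Set.finite_Iic g.natDegree).subset hDbd
    obtain ⟨d, h1, h2⟩ := hfin.exists_maximal hDne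
    exact ⟨d, h1, fun d' hd' => by
      by_contra hlt
      push Not at hlt
      exact absurd (h2 hd' hlt.le) (not_le.2 hlt)⟩
  obtain ⟨b, hb0, hb1, -, hbmin⟩ := hdD
  obtain ⟨d', hd'1, hd'2, -⟩ := hmin ((b + b₁) / 2) (by linarith)
  have hd' : d' ≤ d := hdmax d' ⟨_, by linarith, by linarith, hd'1, hd'2⟩
  obtain ⟨f, hf, hf0, hfd, hfn⟩ := hd'1
  have hlc : f.leadingCoeff ∈ C := hf _
  have hlc0 : f.leadingCoeff ≠ 0 := leadingCoeff_ne_zero.2 hf0
  set φ : Polynomial Ω := Polynomial.C f.leadingCoeff⁻¹ * f with hφ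
  have hφm : φ.Monic := by
    rw [Monic, hφ, leadingCoeff_mul, leadingCoeff_C, inv_mul_cancel₀ hlc0]
  have hφd : φ.natDegree = f.natDegree := natDegree_C_mul (inv_ne_zero hlc0)
  obtain ⟨η, hη1, hη2⟩ := (ncl_pos_iff hf0).1 hfn
  refine ⟨b, φ, _, hb0, hb1, ?_, Lev.of_min (mul_mem (C_mem_PI (inv_mem hlc)) hf) hφm
    ⟨η, ?_, ?_⟩ fun g' hg' h0' hr' => ?_⟩
  · rw [hφd, hfd]
    exact hd'.trans (hDbd d ⟨b, hb0, hb1, by
      by_contra hno
      obtain ⟨e, he1, he2, he3⟩ := hmin b hb1.le
      have h5 : e ≤ d := hdmax e ⟨b, hb0, hb1, he1, he2⟩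
      rcases h5.lt_or_eq with h6 | h6
      · exact hbmin e h6 he1
      · exact hno (h6 ▸ he1), hbmin⟩)
  · rw [hφ, eval_mul, hη1, mul_zero]
  · have h1 := hη2 (root_ne hy hf hf0 hη1)
    linarith
  · rw [hφd, hfd]
    by_contra hlt
    push Not at hlt
    exact hbmin g'.natDegree (hlt.trans_le hd') ⟨g', hg', h0', rfl, (ncl_pos_iff h0').2 hr'⟩

/-- Two levels of the same degree: the second key polynomial is good for both. -/
theorem Lev.down [IsAlgClosed Ω] (h : Lev v C y b φ β) (h' : Lev v C y b' φ' β') (hb : b ≤ b')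
    (hd : φ'.natDegree ≤ φ.natDegree) : Lev v C y b φ' β := by
  obtain ⟨η, h1, h2⟩ := h'.root
  have h3 : Lev v C y b φ' (gval v y b φ') :=
    Lev.of_min h'.mem h'.mon ⟨η, h1, hb.trans_lt h2⟩ fun g hg h0 hr => hd.trans (h.min g hg h0 hr)
  rwa [← h.beta_eq h3] at h3

/-- Two levels of the same degree: the second key polynomial is good for all the levels in
between. -/
theorem Lev.between [IsAlgClosed Ω] (h : Lev v C y b φ β) (h' : Lev v C y b' φ' β')
    (hd : φ'.natDegree ≤ φ.natDegree) {c : ℝ} (h1 : b ≤ c) (h2 : c ≤ b') :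
    Lev v C y c φ' (gval v y c φ') := by
  obtain ⟨η, h3, h4⟩ := h'.root
  exact (h.down h' (h1.trans h2) hd).up h1 ⟨η, h3, h2.trans_lt h4⟩

theorem minpoly_mem_PI (ξ : Ω) : (minpoly C ξ).map (algebraMap C Ω) ∈ PI C := fun i => by
  rw [coeff_map]
  exact ((minpoly C ξ).coeff i).2

/-- The key polynomials are minimal polynomials. -/
theorem Lev.minpoly (h : Lev v C y b φ β) : ∃ η : Ω, IsAlgebraic C η ∧ b < v (y - η) ∧
    φ.eval η = 0 ∧ (_root_.minpoly C η).map (algebraMap C Ω) = φ := by
  obtain ⟨η, h1, h2⟩ := h.root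
  have halg : IsAlgebraic C η := isAlgebraic_root h.mem h.ne_zero h1
  refine ⟨η, halg, h2, h1, ?_⟩
  have hmon : ((_root_.minpoly C η).map (algebraMap C Ω)).Monic :=
    (minpoly.monic halg.isIntegral).map _
  have hroot : ((_root_.minpoly C η).map (algebraMap C Ω)).eval η = 0 := by
    rw [eval_map_algebraMap, minpoly.aeval]
  have h3 := h.min _ (minpoly_mem_PI η) hmon.ne_zero ⟨η, hroot, fun _ => h2.le⟩
  have hl : φ ∈ Polynomial.lifts (algebraMap C Ω) := by
    rw [Polynomial.lifts_iff_coeff_lifts]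
    exact fun i => ⟨⟨φ.coeff i, h.mem i⟩, rfl⟩
  obtain ⟨g, hg⟩ := hl
  have hg' : g.map (algebraMap C Ω) = φ := hg
  have h4 : _root_.minpoly C η ∣ g := by
    refine minpoly.dvd _ _ ?_
    rw [← eval_map_algebraMap, hg', h1]
  have h5 : (_root_.minpoly C η).map (algebraMap C Ω) ∣ φ := by
    rw [← hg']
    exact Polynomial.map_dvd _ h4
  exact (eq_of_monic_of_dvd_of_natDegree_le hmon h.mon h5 h3).symm

/-- With infinitely many jumps there are levels of big degree, arbitrarily near to `y`. -/
theorem exists_Lev_of_not_FJ [IsAlgClosed Ω] (h0 : Ctx0 k v) (hfull : Full v C)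
    (hy : Transcendental C y) (hFJ : ¬ FJ v C y) (d : ℕ) {ξ : Ω} (hξ : IsAlgebraic C ξ) :
    ∃ (b : ℝ) (φ : Polynomial Ω) (β : ℝ), v (y - ξ) < b ∧ d < φ.natDegree ∧
      Lev v C y b φ β := by
  have h1 : ∃ ξd : Ω, IsAlgebraic C ξd ∧ ∀ η : Ω, IsAlgebraic C η →
      (_root_.minpoly C η).natDegree ≤ d → v (y - η) ≤ v (y - ξd) := by
    by_contra hno
    push Not at hno
    refine hFJ ⟨d, fun ξ hξ => ?_⟩
    obtain ⟨η, h1, h2, h3⟩ := hno ξ hξ
    exact ⟨η, h1, h2, h3⟩
  obtain ⟨ξd, hd1, hd2⟩ := h1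
  have h2 : ∃ θ : Ω, IsAlgebraic C θ ∧ v (y - ξ) < v (y - θ) ∧ v (y - ξd) < v (y - θ) := by
    rcases le_total (v (y - ξ)) (v (y - ξd)) with h | h
    · obtain ⟨θ, h2, h3⟩ := exists_closer h0 hfull hy hd1
      exact ⟨θ, h2, h.trans_lt h3, h3⟩
    · obtain ⟨θ, h2, h3⟩ := exists_closer h0 hfull hy hξ
      exact ⟨θ, h2, h3, h.trans_lt h3⟩
  obtain ⟨θ, hθ, h3, h4⟩ := h2
  have hmon : ((_root_.minpoly C θ).map (algebraMap C Ω)).Monic :=
    (minpoly.monic hθ.isIntegral).map _
  obtain ⟨b, φ, β, h5, -, -, h6⟩ := exists_Lev (b₀ := max (v (y - ξ)) (v (y - ξd)))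
    (b₁ := v (y - θ)) hy (max_lt h3 h4) (minpoly_mem_PI θ) hmon.ne_zero
    ⟨θ, by rw [eval_map_algebraMap, minpoly.aeval], fun _ => le_rfl⟩
  refine ⟨b, φ, β, (le_max_left _ _).trans_lt h5, ?_, h6⟩
  by_contra hlt
  push Not at hlt
  obtain ⟨η, h7, h8, -, h9⟩ := h6.minpoly
  have h10 : (_root_.minpoly C η).natDegree ≤ d := by
    rw [← h9, natDegree_map] at hlt
    exact hlt
  exact absurd (hd2 η h7 h10) (not_le.2 (((le_max_right _ _).trans_lt h5).trans h8))

end Levels

end Pool.Agent.TWJ2
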