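import Pool.Agent.Lib.TWJ2.Lev
import Pool.Agent.Lib.TWJ2.Gauss
import Pool.Agent.Lib.TWJ2.Dig
import Mathlib.Topology.Order.IntermediateValue

/-!
# TANK W, ROW J, SOFT J: comparison of increments (CI)

* `OM v C y x φ`: `φ` is a monic polynomial over `C` of minimal degree with a root in the open disc of
  radius `x` around `y`; `exists_OM`, `OM.lev`;
* `OM.gval_le`: the increment of the Gauss value of `f` is at most `deg f / deg φ` times the one
  of `φ`;
* `ci`: comparison of the increments of `Q`, of `θ` with `deg θ < deg Q`, and of the distance of `A`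
  to the `p`-th powers, over any number of jumps.
-/

set_option autoImplicit false

open Polynomial

namespace Pool.Agent.TWJ2

open Pool.Agent.H15JM (RVal)
open Pool.Agent.TWM (Gt GB PI)

universe u

variable {k Ω : Type u} [Field k] [Field Ω] [Algebra k Ω] {v : RVal Ω}
  {C : IntermediateField k Ω} {y : Ω}

/-- `φ` has minimal degree among the polynomials over `C` with a root in the open disc. -/
structure OM (v : RVal Ω) (C : IntermediateField k Ω) (y : Ω) (x : ℝ) (φ : Polynomial Ω) :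
    Prop where
  mem : φ ∈ PI C
  mon : φ.Monic
  root : ∃ η : Ω, φ.eval η = 0 ∧ x < v (y - η)
  mn : ∀ g ∈ PI C, g ≠ 0 → (∃ η : Ω, g.eval η = 0 ∧ x < v (y - η)) → φ.natDegree ≤ g.natDegree

theorem C_mul_mem_PI {c : Ω} (hc : c ∈ C) {g : Polynomial Ω} (hg : g ∈ PI C) :
    Polynomial.C c * g ∈ PI C := fun i => by
  rw [coeff_C_mul]
  exact mul_mem hc (hg i)

theorem exists_OM {x : ℝ} {g : Polynomial Ω} (hg : g ∈ PI C) (h0 : g ≠ 0)
    (hr : ∃ η : Ω, g.eval η = 0 ∧ x < v (y - η)) : ∃ φ, OM v C y x φ := by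
  classical
  have hex : ∃ n : ℕ, ∃ f ∈ PI C, f ≠ 0 ∧ f.natDegree = n ∧ ∃ η : Ω, f.eval η = 0 ∧
      x < v (y - η) := ⟨_, g, hg, h0, rfl, hr⟩
  obtain ⟨f, hf, hf0, hfn, η, h1, h2⟩ := Nat.find_spec hex
  have hl : f.leadingCoeff ≠ 0 := leadingCoeff_ne_zero.2 hf0
  refine ⟨Polynomial.C f.leadingCoeff⁻¹ * f, C_mul_mem_PI (inv_mem (hf _)) hf, ?_,
    ⟨η, by rw [eval_mul, h1, mul_zero], h2⟩, fun g' hg' hg0' hr' => ?_⟩
  · rw [Monic, leadingCoeff_mul, leadingCoeff_C, inv_mul_cancel₀ hl]
  · rw [natDegree_C_mul (inv_ne_zero hl), hfn]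
    exact Nat.find_min' hex ⟨g', hg', hg0', rfl, hr'⟩

variable [IsAlgClosed Ω] {x x' b : ℝ} {φ f : Polynomial Ω}

/-- The levels just above `x`. -/
theorem OM.lev (h : OM v C y x φ) (hy : Transcendental C y) (hx : x < x')
    (hr : ∃ η : Ω, φ.eval η = 0 ∧ x' < v (y - η)) : Lev v C y x' φ (gval v y x' φ) :=
  Lev.of_min h.mem h.mon hr fun g hg h0 ⟨η, h1, h2⟩ => h.mn g hg h0
    ⟨η, h1, hx.trans_le (h2 (root_ne hy hg h0 h1))⟩

/-- The increment of a Gauss value. -/
theorem OM.gval_le (h : OM v C y x φ) (hy : Transcendental C y) (hx : x < x')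
    (hr : ∃ η : Ω, φ.eval η = 0 ∧ x' < v (y - η)) (hf : f ∈ PI C) (hf0 : f ≠ 0) :
    gval v y x' f - gval v y x f ≤
      (f.natDegree / φ.natDegree : ℕ) * (gval v y x' φ - gval v y x φ) := by
  have hL' := h.lev hy hx hr
  set M := f.natDegree / φ.natDegree with hM
  -- the levels in between
  have key : ∀ t : ℝ, x < t → t ≤ x' →
      gval v y x' f - gval v y t f ≤ M * (gval v y x' φ - gval v y t φ) := by
    intro t ht ht'
    have hL := h.lev hy ht (by
      obtain ⟨η, h1, h2⟩ := hr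
      exact ⟨η, h1, ht'.trans_lt h2⟩)
    obtain ⟨n, hn, hφ⟩ := hL.exists_dom
    obtain ⟨L, hL0, hdom, -⟩ := hL.dom_dig hn hφ hf hf0
    have h1 : v ((dig φ f L).eval y) + L * gval v y t φ ≤ gval v y t f := (GB_iff hf0).1 hdom.gb
    have h2 : v.Ge (gval v y x' f - L * gval v y x' φ) ((dig φ f L).eval y) :=
      (hL'.digit hf).1 GB_gval L
    have h3 := h2 (eval_ne hy (hL.dig_small hf L).1 hL0)
    have h4 : (L : ℝ) ≤ M := by
      have h5 : L * φ.natDegree ≤ f.natDegree := by
        by_contra hlt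
        push Not at hlt
        apply hL0
        rw [dig, (divByMonic_eq_zero_iff (hL.mon.pow L)).2, zero_modByMonic]
        refine degree_lt_degree ?_
        rw [hL.mon.natDegree_pow]
        exact hlt
      exact_mod_cast (Nat.le_div_iff_mul_le hL.deg_pos).2 h5
    have h5 : 0 ≤ gval v y x' φ - gval v y t φ := sub_nonneg.2 (gval_mono ht')
    have h6 := mul_le_mul_of_nonneg_right h4 h5
    nlinarith
  -- the limit
  refine le_of_forall_pos_le_add fun e he => ?_
  set B : ℝ := (f.natDegree : ℝ) + 1 with hB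
  have hB0 : 0 < B := by positivity
  set t := min x' (x + e / B) with ht
  have hdiv := div_pos he hB0
  have ht1 : x < t := lt_min hx (by linarith)
  have ht2 : t ≤ x' := min_le_left _ _
  have ht3 : t - x ≤ e / B := by have := min_le_right x' (x + e / B); linarith
  have h1 := key t ht1 ht2
  have h2 := gval_up_deg (v := v) (y := y) (f := f) ht1.le
  have h4 : (t - x) * B ≤ e := by rwa [le_div_iff₀ hB0] at ht3
  have h5 : 0 ≤ t - x := by linarith
  have h7 : gval v y x φ ≤ gval v y t φ := gval_mono ht1.le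
  have h8 : (M : ℝ) * gval v y x φ ≤ M * gval v y t φ :=
    mul_le_mul_of_nonneg_left h7 (Nat.cast_nonneg _)
  rw [hB] at h4
  nlinarith

/-- The increment of the distance to the `p`-th powers of a polynomial of small degree. -/
theorem OM.dist_le {p : ℕ} [hp : Fact p.Prime] [CharP Ω p] (h : OM v C y x φ)
    (hy : Transcendental C y) (hx : x < x') (hr : ∃ η : Ω, φ.eval η = 0 ∧ x' < v (y - η))
    {A g : Polynomial Ω} (hA : A ∈ PI C) (hAd : A.natDegree < φ.natDegree) (hg : g ∈ PI C)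
    {lam : ℝ} (hgb : GB v x' lam (taylor y (A - g ^ p))) :
    ∃ g' ∈ PI C, GB v x (lam - (p - 1) * (gval v y x' φ - gval v y x φ))
      (taylor y (A - g' ^ p)) := by
  have hp0 := hp.out.pos
  have hL' := h.lev hy hx hr
  have hφ1 : φ ≠ 1 := hL'.ne_one
  have hg' : g %ₘ φ ∈ PI C := (divMod_mem_PI hg h.mem h.mon).2
  refine ⟨g %ₘ φ, hg', ?_⟩
  set f := A - (g %ₘ φ) ^ p with hf
  have hfm : f ∈ PI C := sub_mem hA (pow_mem hg' p)
  by_cases hf0 : f = 0
  · rw [hf0, map_zero]
    exact TWM.GB.zero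
  -- the degree
  have hdg : (g %ₘ φ).natDegree < φ.natDegree := natDegree_modByMonic_lt _ h.mon hφ1
  have hfd : f.natDegree < p * φ.natDegree := by
    refine (natDegree_sub_le _ _).trans_lt (max_lt ?_ ?_)
    · exact hAd.trans_le (Nat.le_mul_of_pos_left _ hp0)
    · rw [natDegree_pow]
      exact Nat.mul_lt_mul_of_pos_left hdg hp0
  have hM : f.natDegree / φ.natDegree ≤ p - 1 :=
    Nat.le_sub_one_of_lt ((Nat.div_lt_iff_lt_mul hL'.deg_pos).2 hfd)
  -- the bound at `x'`
  have h1 : lam ≤ gval v y x' f := by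
    refine (GB_iff hf0).1 ((hL'.digit hfm).2 fun l => ?_)
    by_cases hl : l < p
    · have h2 : A - g ^ p = f - φ ^ p * (g /ₘ φ) ^ p := by
        have h3 : g = g %ₘ φ + φ * (g /ₘ φ) := (modByMonic_add_div g φ).symm
        conv_lhs => rw [h3]
        rw [add_pow_char, mul_pow, hf]
        ring
      have h4 : dig φ (A - g ^ p) l = dig φ f l := by
        rw [h2, Dg.dig_sub h.mon, Dg.dig_of_dvd h.mon (Dvd.intro _ rfl) hl, sub_zero]
      rw [← h4]
      exact (hL'.digit (sub_mem hA (pow_mem hg p))).1 hgb l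
    · rw [Dg.dig_of_lt h.mon, eval_zero]
      · exact RVal.Ge.zero
      · refine degree_lt_degree ?_
        rw [h.mon.natDegree_pow]
        exact hfd.trans_le (Nat.mul_le_mul_right _ (not_lt.1 hl))
  refine (GB_iff hf0).2 ?_
  have h2 := h.gval_le hy hx hr hfm hf0
  have h3 : 0 ≤ gval v y x' φ - gval v y x φ := sub_nonneg.2 (gval_mono hx.le)
  have h4 : ((f.natDegree / φ.natDegree : ℕ) : ℝ) ≤ p - 1 := by
    have h5 : ((f.natDegree / φ.natDegree : ℕ) : ℝ) ≤ ((p - 1 : ℕ) : ℝ) := by exact_mod_cast hM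
    rwa [Nat.cast_sub hp0, Nat.cast_one] at h5
  have h5 := mul_le_mul_of_nonneg_right h4 h3
  linarith

omit [IsAlgClosed Ω] in
/-- Induction along an interval. -/
theorem real_ind {u b : ℝ} (hub : u ≤ b) {P : ℝ → Prop} (h0 : P u)
    (hl : ∀ x, u < x → x ≤ b → (∀ t, t < x → ∃ t', t < t' ∧ t' ≤ x ∧ u ≤ t' ∧ P t') → P x)
    (hs : ∀ x, u ≤ x → x < b → P x → ∃ x', x < x' ∧ x' ≤ b ∧ P x') : P b := by
  set S : Set ℝ := {x | u ≤ x ∧ x ≤ b ∧ P x} with hS
  have hne : S.Nonempty := ⟨u, le_rfl, hub, h0⟩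
  have hbd : BddAbove S := ⟨b, fun x hx => hx.2.1⟩
  set s := sSup S with hs'
  have hus : u ≤ s := le_csSup hbd ⟨le_rfl, hub, h0⟩
  have hsb : s ≤ b := csSup_le hne fun x hx => hx.2.1
  have hPs : P s := by
    rcases hus.eq_or_lt with h1 | h1
    · rwa [← h1]
    · refine hl s h1 hsb fun t ht => ?_
      obtain ⟨t', ht', h2⟩ := exists_lt_of_lt_csSup hne ht
      exact ⟨t', h2, le_csSup hbd ht', ht'.1, ht'.2.2⟩
  rcases hsb.eq_or_lt with h1 | h1
  · rwa [← h1]
  · obtain ⟨x', h2, h3, h4⟩ := hs s hus h1 hPs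
    exact absurd (le_csSup hbd ⟨hus.trans h2.le, h3, h4⟩) (not_le.2 h2)

omit [IsAlgClosed Ω] in
/-- The level right of `x`. -/
theorem exists_right (hy : Transcendental C y) {Q : Polynomial Ω} (hQ : Q ∈ PI C) (hQ0 : Q ≠ 0)
    (hQr : ∃ η : Ω, Q.eval η = 0 ∧ v.Ge b (y - η)) (hxb : x < b) :
    ∃ (φ : Polynomial Ω) (x' : ℝ), OM v C y x φ ∧ x < x' ∧ x' ≤ b ∧
      ∃ η : Ω, φ.eval η = 0 ∧ x' < v (y - η) := by
  obtain ⟨η, h1, h2⟩ := hQr
  obtain ⟨φ, hφ⟩ := exists_OM hQ hQ0 ⟨η, h1, hxb.trans_le (h2 (root_ne hy hQ hQ0 h1))⟩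
  obtain ⟨ξ, h3, h4⟩ := hφ.root
  refine ⟨φ, min b ((x + v (y - ξ)) / 2), hφ, lt_min hxb (by linarith), min_le_left _ _, ξ, h3, ?_⟩
  exact (min_le_right _ _).trans_lt (by linarith)

/-- **Comparison of increments.** -/
theorem ci {p : ℕ} [hp : Fact p.Prime] [CharP Ω p] (hy : Transcendental C y) {u : ℝ} (hub : u ≤ b)
    {Q θ A : Polynomial Ω} (hQ : Q ∈ PI C) (hQ0 : Q ≠ 0)
    (hQr : ∃ η : Ω, Q.eval η = 0 ∧ v.Ge b (y - η)) (hθ : θ ∈ PI C) (hθ0 : θ ≠ 0)
    (hdeg : θ.natDegree < Q.natDegree)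
    (hRC : ∀ (x' : ℝ) (φ : Polynomial Ω) (β : ℝ), x' ≤ b → Lev v C y x' φ β → ∀ x ≤ x',
      gval v y x φ * Q.natDegree = gval v y x Q * φ.natDegree)
    (hA : A ∈ PI C) (hAd : ∀ g ∈ PI C, g ≠ 0 → (∃ η : Ω, g.eval η = 0 ∧ u < v (y - η)) →
      A.natDegree < g.natDegree) {h : ℝ → ℝ}
    (hlo : ∀ x, u ≤ x → x ≤ b → ∀ ε : ℝ, 0 < ε → ∃ g ∈ PI C,
      GB v x (h x - ε) (taylor y (A - g ^ p)))
    (hhi : ∀ x, u ≤ x → x ≤ b → ∀ e : ℝ, 0 < e → ∀ g ∈ PI C,
      ¬ GB v x (h x + e) (taylor y (A - g ^ p))) :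
    gval v y b Q - gval v y u Q ≤
        Q.natDegree * (gval v y b Q - gval v y u Q - (gval v y b θ - gval v y u θ)) ∧
      h b - h u ≤ (p - 1) * (gval v y b Q - gval v y u Q - (gval v y b θ - gval v y u θ)) := by
  have hp0 := hp.out.pos
  have hp1 : (0 : ℝ) ≤ p - 1 := by
    have : (1 : ℝ) ≤ p := by exact_mod_cast hp0
    linarith
  have hQd : 0 < Q.natDegree := by omega
  set E : ℝ := (Q.natDegree : ℝ) with hE
  have hE0 : 0 < E := by rw [hE]; exact_mod_cast hQd
  set T : ℝ := (θ.natDegree : ℝ) with hT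
  have hT0 : 0 ≤ T := Nat.cast_nonneg _
  refine real_ind (P := fun x => gval v y x Q - gval v y u Q ≤
      E * (gval v y x Q - gval v y u Q - (gval v y x θ - gval v y u θ)) ∧
      h x - h u ≤ (p - 1) * (gval v y x Q - gval v y u Q - (gval v y x θ - gval v y u θ)))
    hub ⟨by simp, by simp⟩ ?_ ?_
  · -- the limit from the left
    intro x hux hxb hl
    have hcont : ∀ e : ℝ, 0 < e → ∀ t : ℝ, x - e / (E + T + 1) < t → t ≤ x →
        (gval v y x Q - e ≤ gval v y t Q ∧ gval v y t Q ≤ gval v y x Q) ∧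
        (gval v y x θ - e ≤ gval v y t θ ∧ gval v y t θ ≤ gval v y x θ) := by
      intro e he t ht htx
      have hs : 0 < E + T + 1 := by linarith
      have h1 : (x - t) * (E + T + 1) ≤ e := by
        rw [← le_div_iff₀ hs]
        linarith
      have h2 : 0 ≤ x - t := by linarith
      have h3 := gval_up_deg (v := v) (y := y) (f := Q) htx
      have h4 := gval_up_deg (v := v) (y := y) (f := θ) htx
      refine ⟨⟨?_, gval_mono htx⟩, ?_, gval_mono htx⟩
      · nlinarith
      · nlinarith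
    constructor
    · refine le_of_forall_pos_le_add fun e he => ?_
      obtain ⟨t, h1, h2, h3, h4, -⟩ := hl (x - (e / (2 * E + 2)) / (E + T + 1)) (by
        have : 0 < (e / (2 * E + 2)) / (E + T + 1) := by positivity
        linarith)
      obtain ⟨⟨h5, h6⟩, h7, h8⟩ := hcont (e / (2 * E + 2)) (by positivity) t h1 h2
      have h9 : (e / (2 * E + 2)) * (2 * E + 2) = e := by field_simp
      set e' := e / (2 * E + 2) with he'
      have he0 : 0 < e' := by positivity
      nlinarith
    · refine le_of_forall_pos_le_add fun e he => ?_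
      obtain ⟨g, hg, hgb⟩ := hlo x hux.le hxb (e / 3) (by positivity)
      obtain ⟨d, hd, hleft⟩ : ∃ d : ℝ, 0 < d ∧ ∀ t : ℝ, x - d ≤ t → t ≤ x →
          GB v t (h x - e / 3 - e / 3) (taylor y (A - g ^ p)) := by
        set B : ℝ := ((A - g ^ p).natDegree : ℝ) + 1 with hB
        have hB0 : 0 < B := by positivity
        refine ⟨(e / 3) / B, by positivity, fun t h1 h2 => ?_⟩
        by_cases h0 : A - g ^ p = 0
        · rw [h0, map_zero]
          exact TWM.GB.zero
        rw [GB_iff h0] at hgb ⊢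
        have h3 := gval_up_deg (v := v) (y := y) (f := A - g ^ p) h2
        have h4 : (x - t) * B ≤ e / 3 := by
          rw [← le_div_iff₀ hB0]
          linarith
        have h5 : 0 ≤ x - t := by linarith
        nlinarith
      set e' := e / (3 * (p + 1)) with he'
      have he0 : 0 < e' := by positivity
      have h9 : e' * (p + 1) = e / 3 := by
        rw [he']
        field_simp
      obtain ⟨t, h1, h2, h3, -, h4⟩ := hl (x - min d (e' / (E + T + 1))) (by
        have : 0 < min d (e' / (E + T + 1)) := lt_min hd (by positivity)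
        linarith)
      obtain ⟨⟨h5, h6⟩, h7, h8⟩ := hcont e' he0 t (by
        have := min_le_right d (e' / (E + T + 1))
        linarith) h2
      have h10 : h x - e / 3 - e / 3 ≤ h t := by
        by_contra hlt
        push Not at hlt
        refine hhi t h3 (h2.trans hxb) (h x - e / 3 - e / 3 - h t) (by linarith) g hg ?_
        rw [add_sub_cancel]
        exact hleft t (by
          have := min_le_left d (e' / (E + T + 1))
          linarith) h2
      have h11 : ((p : ℝ) - 1) * (gval v y t Q - gval v y u Q - (gval v y t θ - gval v y u θ)) ≤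
          (p - 1) * (gval v y x Q - gval v y u Q - (gval v y x θ - gval v y u θ) + e') :=
        mul_le_mul_of_nonneg_left (by linarith) hp1
      nlinarith
  · -- the step to the right
    intro x hux hxb hPx
    obtain ⟨φ, x', hφ, hx1, hx2, hr⟩ := exists_right hy hQ hQ0 hQr hxb
    refine ⟨x', hx1, hx2, ?_⟩
    have hL' := hφ.lev hy hx1 hr
    have hd0 : 0 < φ.natDegree := hL'.deg_pos
    set W := gval v y x' φ - gval v y x φ with hW
    have hW0 : 0 < W := by
      have h1 := gval_lo (v := v) (y := y) (f := φ) hx1.le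
      have h2 : (1 : ℝ) ≤ ncl v y x' φ := by exact_mod_cast hL'.ncl_pos
      nlinarith
    have hrc1 := hRC x' φ _ hx2 hL' x' le_rfl
    have hrc0 := hRC x' φ _ hx2 hL' x hx1.le
    have hdR : (0 : ℝ) < φ.natDegree := by exact_mod_cast hd0
    -- the increment of `Q`
    have hQW : (gval v y x' Q - gval v y x Q) * φ.natDegree = E * W := by
      rw [hW]
      linarith
    have hQle := hφ.gval_le hy hx1 hr hQ hQ0
    have hfl : (Q.natDegree / φ.natDegree) * φ.natDegree ≤ Q.natDegree := Nat.div_mul_le_self _ _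
    have hEq : (Q.natDegree / φ.natDegree) * φ.natDegree = Q.natDegree := by
      refine le_antisymm hfl ?_
      have h1 : E * W ≤ ((Q.natDegree / φ.natDegree : ℕ) : ℝ) * W * φ.natDegree := by
        rw [← hQW]
        exact mul_le_mul_of_nonneg_right hQle hdR.le
      have h2 : E ≤ ((Q.natDegree / φ.natDegree : ℕ) : ℝ) * φ.natDegree := by
        by_contra hlt
        push Not at hlt
        nlinarith
      rw [hE] at h2
      exact_mod_cast h2
    set q := Q.natDegree / φ.natDegree with hq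
    have hQinc : gval v y x' Q - gval v y x Q = q * W := by
      have h1 : E = q * φ.natDegree := by
        rw [hE]
        exact_mod_cast hEq.symm
      rw [h1] at hQW
      have h2 : (gval v y x' Q - gval v y x Q) * φ.natDegree = (q * W) * φ.natDegree := by
        rw [hQW]
        ring
      exact mul_right_cancel₀ hdR.ne' h2
    -- the increment of `θ`
    have hθle := hφ.gval_le hy hx1 hr hθ hθ0
    have hθq : θ.natDegree / φ.natDegree + 1 ≤ q := by
      have h1 : θ.natDegree < q * φ.natDegree := by rw [hEq]; exact hdeg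
      exact (Nat.div_lt_iff_lt_mul hd0).2 h1
    have hθq' : ((θ.natDegree / φ.natDegree : ℕ) : ℝ) + 1 ≤ q := by exact_mod_cast hθq
    have hX : W ≤ gval v y x' Q - gval v y x Q - (gval v y x' θ - gval v y x θ) := by
      rw [hQinc]
      nlinarith
    have hqE : (q : ℝ) ≤ E := by
      rw [hE]
      exact_mod_cast Nat.div_le_self _ _
    constructor
    · have h1 := hPx.1
      have h2 : gval v y x' Q - gval v y x Q ≤ E * W := by
        rw [hQinc]
        exact mul_le_mul_of_nonneg_right hqE hW0.le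
      have h3 := mul_le_mul_of_nonneg_left hX hE0.le
      nlinarith
    · have h1 := hPx.2
      have hAφ : A.natDegree < φ.natDegree := hAd φ hφ.mem hφ.mon.ne_zero (by
        obtain ⟨η, h2, h3⟩ := hφ.root
        exact ⟨η, h2, hux.trans_lt h3⟩)
      have h2 : h x' - h x ≤ (p - 1) * W := by
        refine le_of_forall_pos_le_add fun e he => ?_
        obtain ⟨g, hg, hgb⟩ := hlo x' (hux.trans hx1.le) hx2 (e / 2) (half_pos he)
        obtain ⟨g', hg', hgb'⟩ := hφ.dist_le hy hx1 hr hA hAφ hg hgb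
        by_contra hlt
        push Not at hlt
        refine hhi x hux hxb.le (e / 2) (half_pos he) g' hg' (TWM.GB.mono hgb' ?_)
        rw [← hW]
        linarith
      have h3 := mul_le_mul_of_nonneg_left hX hp1
      nlinarith

end Pool.Agent.TWJ2
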