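import Pool.Agent.Lib.TWJ2.LevDT

/-!
# TANK W, ROW J: change of the key polynomial of a level
-/

set_option autoImplicit false

open Polynomial

namespace Pool.Agent.TWJ2

open Pool.Agent.H15JM (RVal)
open Pool.Agent.TWM (PI PII Gt GB)
open Pool.Agent.TWJ2.Dg

universe u

variable {k Ω : Type u} [Field k] [Field Ω] [Algebra k Ω]
  {C : IntermediateField k Ω} {v : RVal Ω} {y : Ω} {b c β lam : ℝ} {φ φ' : Polynomial Ω}
  {p S : ℕ}

/-- The difference of two key polynomials of the same level is small. -/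
theorem DT.key_sub (h : DT v C y b φ β) (h' : DT v C y b φ' β)
    (hd : φ'.natDegree = φ.natDegree) :
    ∃ δ : ℝ, 0 < δ ∧ GB v b (β + δ) (taylor y (φ' - φ)) := by
  have hr : φ' - φ ∈ PI C := sub_mem h'.mem h.mem
  have hdeg : (φ' - φ).degree < φ.degree := by
    have h1 : φ'.degree = φ.degree := by
      rw [degree_eq_natDegree h'.mon.ne_zero, degree_eq_natDegree h.mon.ne_zero, hd]
    have h2 : (φ' - φ).degree < φ'.degree :=
      degree_sub_lt_left h1 h'.mon.ne_zero (by rw [h'.mon.leadingCoeff, h.mon.leadingCoeff])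
    rwa [h1] at h2
  by_cases h0 : (φ' - φ).eval y = 0
  · refine ⟨1, one_pos, h.gb_small hr hdeg ?_⟩
    rw [h0]
    exact RVal.Ge.zero
  · have h1 : Gt v β ((φ' - φ).eval y) := by
      rw [eval_sub]
      intro h2
      have h3 : φ'.eval y ≠ 0 := h'.nz _ h'.mem h'.mon.ne_zero
      have h4 : φ.eval y ≠ 0 := h.nz _ h.mem h.mon.ne_zero
      have h5 : φ'.eval y - φ.eval y = φ'.eval y + -(φ.eval y) := by ring
      rw [h5] at h2 ⊢
      refine lt_of_lt_of_le (lt_min (h'.gty h3) ?_) (v.map_add h3 (neg_ne_zero.2 h4) h2)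
      rw [v.map_neg _ h4]
      exact h.gty h4
    refine ⟨v ((φ' - φ).eval y) - β, sub_pos.2 (h1 h0), h.gb_small hr hdeg fun _ => ?_⟩
    linarith

theorem DT.gb_key (h : DT v C y b φ β) : GB v b β (taylor y φ) := by
  refine (h.iff φ h.mem β).2 fun l => ?_
  have h1 : dig φ φ l = dig φ (φ ^ 1 * 1) l := by rw [pow_one, mul_one]
  have h2 : dig φ φ l = if l = 1 then 1 else 0 := by
    rw [h1]
    rcases Nat.lt_or_ge l 1 with h3 | h3
    · rw [if_neg (by omega)]
      exact dig_shift_lt h.mon _ h3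
    · obtain ⟨m, rfl⟩ := Nat.exists_eq_add_of_le h3
      rw [dig_shift h.mon]
      have h5 : (1 : Polynomial Ω).degree < φ.degree := by
        rw [degree_one, degree_eq_natDegree h.mon.ne_zero]
        exact_mod_cast h.pos
      rcases Nat.eq_zero_or_pos m with rfl | hm
      · rw [dig_small_zero h.mon h5, if_pos rfl]
      · rw [dig_small_pos h.mon h5 hm, if_neg (by omega)]
  rw [h2]
  split_ifs with h3
  · subst h3
    rw [eval_one]
    intro _
    rw [v.map_one]
    push_cast
    linarith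
  · rw [eval_zero]
    exact RVal.Ge.zero

/-- Powers of two key polynomials. -/
theorem gb_pow_sub {δ : ℝ} (hδ : 0 ≤ δ) (h1 : GB v b β (taylor y φ))
    (h2 : GB v b (β + δ) (taylor y (φ' - φ))) (l : ℕ) :
    GB v b (l * β + δ) (taylor y (φ' ^ l - φ ^ l)) := by
  have h3 : GB v b β (taylor y φ') := by
    have h4 : φ' = φ + (φ' - φ) := by ring
    rw [h4, map_add]
    exact h1.add (h2.mono (by linarith))
  induction l with
  | zero =>
    rw [pow_zero, pow_zero, sub_self, map_zero]
    exact GB.zero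
  | succ l ih =>
    have h4 : φ' ^ (l + 1) - φ ^ (l + 1) = φ' * (φ' ^ l - φ ^ l) + (φ' - φ) * φ ^ l := by ring
    rw [h4, map_add, taylor_mul, taylor_mul, taylor_pow]
    refine ((h3.mul ih).mono ?_).add ((h2.mul (h1.pow l)).mono ?_)
    · push_cast
      linarith
    · push_cast
      linarith

/-- **Change of the key polynomial.** -/
theorem SLv.change_key [hp : Fact p.Prime] [CharP Ω p] (h : DT v C y b φ β)
    (h' : DT v C y b φ' β) (hd : φ'.natDegree = φ.natDegree) {κ : ℝ}
    {A : Polynomial (Polynomial Ω)} (hs : SLv p v C y b c φ β κ S A) :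
    SLv p v C y b c φ' β κ S A := by
  classical
  obtain ⟨δ, hδ, hr⟩ := h.key_sub h' hd
  refine SLv.of_good h' hs.mem hs.lo fun e he => ⟨δ / 2, half_pos hδ, fun G hG h1 h2 => ?_⟩
  have hHC : PII C (A - G ^ p) := pii_sub hs.mem (pii_pow hG p)
  set H := A - G ^ p with hH
  obtain ⟨N, M, hNM⟩ := exists_Big h'.mon h'.pos H
  have h3 := part_add_part (s := fun l i => ord2 p l i ≤ S) h'.mon h'.pos (hNM N M le_rfl le_rfl)
  set H₁ := part φ' (fun l i => ord2 p l i ≤ S) N M H with hH₁
  set H₂ := part φ' (fun l i => ¬ ord2 p l i ≤ S) N M H with hH₂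
  have hH₁C : PII C H₁ := part_mem h'.mem h'.mon hHC
  have h4 : GBL v y b c (κ + e) H₁ := h'.gbl_part hHC fun i l hli => h2 l i hli
  -- the same digits, with the other key polynomial
  set P : Polynomial (Polynomial Ω) := ∑ i ∈ Finset.range M, Polynomial.C
    (∑ l ∈ Finset.range N, (if ¬ ord2 p l i ≤ S then dig φ' (H.coeff i) l else 0) * φ ^ l) *
      Polynomial.X ^ i with hP
  have hPJ : P ∈ Jid p φ S := by
    rw [hP]
    refine sum_mem fun i _ => ?_
    rw [map_sum, Finset.sum_mul]
    refine sum_mem fun l _ => ?_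
    split_ifs with h5
    · rw [zero_mul, map_zero, zero_mul]
      exact zero_mem _
    · have h6 := mono_mem (φ := φ) (not_le.1 h5) (Polynomial.C (dig φ' (H.coeff i) l))
      have h7 : Polynomial.C (dig φ' (H.coeff i) l * φ ^ l) *
          (Polynomial.X : Polynomial (Polynomial Ω)) ^ i =
          Polynomial.C (dig φ' (H.coeff i) l) * (Polynomial.C φ ^ l * Polynomial.X ^ i) := by
        rw [Polynomial.C_mul, Polynomial.C_pow, mul_assoc]
      rw [h7]
      exact h6
  have hPC : PII C P := by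
    rw [hP]
    refine pii_sum _ _ fun i _ => pii_mul (pii_C (sum_mem fun l _ => mul_mem ?_
      (pow_mem h.mem l))) (pii_pow pii_X i)
    split_ifs
    · exact zero_mem _
    · exact dig_mem h'.mem h'.mon (hHC i) l
  have hdiff : GBL v y b c (κ - δ / 2 + δ) (H₂ - P) := by
    have h5 : H₂ - P = ∑ i ∈ Finset.range M, Polynomial.C
        (∑ l ∈ Finset.range N, (if ¬ ord2 p l i ≤ S then dig φ' (H.coeff i) l else 0) *
          (φ' ^ l - φ ^ l)) * Polynomial.X ^ i := by
      rw [hH₂, hP, part, ← Finset.sum_sub_distrib]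
      refine Finset.sum_congr rfl fun i _ => ?_
      rw [← sub_mul, ← map_sub, ← Finset.sum_sub_distrib]
      congr 2
      refine Finset.sum_congr rfl fun l _ => ?_
      split_ifs <;> ring
    rw [h5]
    refine GBL.sum _ _ fun i _ => ?_
    have h6 : GBL v y b c (κ - δ / 2 + δ - i * c) (Polynomial.C
        (∑ l ∈ Finset.range N, (if ¬ ord2 p l i ≤ S then dig φ' (H.coeff i) l else 0) *
          (φ' ^ l - φ ^ l))) := by
      refine GBL.C ?_
      rw [map_sum]
      refine GB.sum _ _ fun l _ => ?_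
      rw [taylor_mul]
      have h7 : GB v b (κ - δ / 2 - l * β - i * c)
          (taylor y (if ¬ ord2 p l i ≤ S then dig φ' (H.coeff i) l else 0)) := by
        split_ifs
        · rw [map_zero]
          exact GB.zero
        · exact h'.gb_small (dig_mem h'.mem h'.mon (hHC i) l) (degree_dig h'.mon _ _)
            ((h'.gbl_iff hHC).1 h1 i l)
      refine (h7.mul (gb_pow_sub hδ.le h.gb_key hr l)).mono ?_
      linarith
    exact (h6.mul (GBL.X.pow i)).mono (by linarith)
  have h8 : H - P = H₁ + (H₂ - P) := by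
    rw [← h3]
    ring
  refine hs.hi' (lt_min he (half_pos hδ)) hG ?_
  rw [← hH]
  refine (h.lo_iff hHC).2 ⟨P, hPJ, hPC, ?_⟩
  rw [h8]
  refine (h4.mono ?_).add (hdiff.mono ?_)
  · have := min_le_left e (δ / 2)
    linarith
  · have := min_le_right e (δ / 2)
    linarith

end Pool.Agent.TWJ2
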