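import Pool.Agent.Lib.TWJ2.SwapSt

/-!
# TANK W, row J, the constraint (A): one leading monomial

`P1`: on the polydisc of radii `r₀`, `c` around the origin the monomial `X ^ l T ^ i` of the
polynomial `A` (inner variable `X`, outer variable `T`) over `R.K` is the leading one.
If `p` does not divide both `l` and `i`, the substitution `X = X' + χ T + χ' T ^ 2` gives a state
over `R.K(X')` of index `l + i`, or `l + i + 1` if `p ∣ l + i` (`con_one`). So the indices `q` with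
`MinS`, `p ∣ q`, are `≤ l + i` (`P1.le`).
-/

set_option autoImplicit false
set_option linter.unusedSectionVars false

open Polynomial

namespace Pool.Agent.TWJ2

open Pool.Agent.H15JM (RVal)
open Pool.Agent.LU1 (adj)
open Pool.Agent.D2P (clI mem_adj_self adj_le)
open Pool.Agent.TW (Full BD Fr Ctx Dns HRone LU)
open Pool.Agent.TWM
open Pool.Agent.TWJ (Stt MinS)

universe u

namespace Con

section Poly

variable {Ω : Type u} [Field Ω] {v : RVal Ω}

/-- The substitution of `G(T)` for the inner variable. -/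
noncomputable def sub (A : Polynomial (Polynomial Ω)) (G : Polynomial Ω) : Polynomial Ω :=
  ∑ i ∈ Finset.range (A.natDegree + 1), (A.coeff i).comp G * X ^ i

theorem sub_eval (A : Polynomial (Polynomial Ω)) (G : Polynomial Ω) (T : Ω) :
    (sub A G).eval T = A.evalEval (G.eval T) T := by
  rw [sub, eval_finsetSum, evalEval, eval_eq_sum_range (p := A), eval_finsetSum]
  refine Finset.sum_congr rfl fun i _ => ?_
  rw [eval_mul, eval_comp, eval_pow, eval_X, eval_mul, eval_pow, eval_C]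

/-- The substitution as a double sum. -/
theorem sub_eq (A : Polynomial (Polynomial Ω)) (G : Polynomial Ω) {N : ℕ}
    (hN : ∀ i, (A.coeff i).natDegree < N) : sub A G =
      ∑ i ∈ Finset.range (A.natDegree + 1), ∑ j ∈ Finset.range N,
        C ((A.coeff i).coeff j) * (G ^ j * X ^ i) := by
  rw [sub]
  refine Finset.sum_congr rfl fun i _ => ?_
  rw [comp, eval₂_eq_sum_range' C (hN i) G, Finset.sum_mul]
  refine Finset.sum_congr rfl fun j _ => ?_
  ring

/-- `p`-th powers have no coefficients of index prime to `p`. -/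
theorem coeff_pow_nd {p : ℕ} [hp : Fact p.Prime] [CharP Ω p] (Q : Polynomial Ω) {j : ℕ}
    (hj : ¬ p ∣ j) : (Q ^ p).coeff j = 0 := by
  rw [← map_frobenius_expand, coeff_map, coeff_expand hp.out.pos, if_neg hj, map_zero]

variable {c r₀ κ μ : ℝ} {A : Polynomial (Polynomial Ω)} {X₁ χ χ' : Ω}

/-- The new inner variable. -/
noncomputable def G1 (χ χ' : Ω) : Polynomial Ω := C χ * X + C χ' * X ^ 2

theorem G1_eval (χ χ' T : Ω) : (G1 χ χ').eval T = χ * T + χ' * T ^ 2 := by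
  rw [G1, eval_add, eval_mul, eval_mul, eval_C, eval_C, eval_pow, eval_X]

theorem G1_gb (h1 : v.Ge (r₀ - c) χ) (h2 : v.Ge (r₀ - 2 * c) χ') : GB v c r₀ (G1 χ χ') := by
  refine GB.add ?_ ?_
  · exact ((GB.C h1).mul GB.X).mono (by linarith)
  · exact ((GB.C h2).mul (GB.X.pow 2)).mono (by push_cast; linarith)

/-- The lowest coefficients of the powers of `G1`. -/
theorem G1_coeff (χ χ' : Ω) (l : ℕ) : ((G1 χ χ') ^ l).coeff l = χ ^ l ∧
    ((G1 χ χ') ^ l).coeff (l + 1) = l * χ ^ (l - 1) * χ' := by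
  have h1 : (G1 χ χ') ^ l = X ^ l * (C χ + C χ' * X) ^ l := by
    rw [← mul_pow, G1]
    congr 1
    ring
  have h2 : ∀ e : ℕ, ((G1 χ χ') ^ l).coeff (l + e) = ((C χ + C χ' * X) ^ l).coeff e := by
    intro e
    rw [h1, add_comm l e, coeff_X_pow_mul]
  refine ⟨?_, ?_⟩
  · have h3 := h2 0
    rw [add_zero] at h3
    rw [h3, coeff_zero_eq_eval_zero]
    simp
  · rw [h2 1]
    clear h1 h2
    induction l with
    | zero => simp [coeff_one]
    | succ l ih =>
      have h4 : ((C χ + C χ' * X : Polynomial Ω) ^ l).coeff 0 = χ ^ l := by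
        rw [coeff_zero_eq_eval_zero]
        simp
      have h5 : ((C χ + C χ' * X : Polynomial Ω) ^ (l + 1)).coeff 1 =
          ((C χ + C χ' * X : Polynomial Ω) ^ l).coeff 1 * χ +
            ((C χ + C χ' * X : Polynomial Ω) ^ l).coeff 0 * χ' := by
        rw [pow_succ, mul_add, coeff_add, coeff_mul_C, ← mul_assoc, coeff_mul_X, coeff_mul_C]
      rw [h5, h4, ih]
      rcases l with _ | l
      · simp
      · rw [Nat.add_sub_cancel, Nat.add_sub_cancel]
        push_cast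
        ring

/-- A monomial in two variables. -/
theorem term_gb {a : Ω} {lam : ℝ} {G : Polynomial Ω} (ha : v.Ge lam a) (hG : GB v c r₀ G)
    (j i : ℕ) : GB v c (lam + j * r₀ + i * c) (C a * (G ^ j * X ^ i)) :=
  ((GB.C ha).mul ((hG.pow j).mul (GB.X.pow i))).mono (by linarith)

/-- All the terms but one. -/
theorem sub_oth {l i : ℕ} {G : Polynomial Ω} (hG : GB v c r₀ G)
    (h : ∀ l' i' : ℕ, (l' ≠ l ∨ i' ≠ i) → v.Ge (κ - l' * r₀ - i' * c) ((A.coeff i').coeff l')) :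
    GB v c κ (sub A G - C ((A.coeff i).coeff l) * (G ^ l * X ^ i)) := by
  classical
  set N := (A.support.sup fun j => (A.coeff j).natDegree) + l + 1 with hN
  have hN1 : ∀ j, (A.coeff j).natDegree < N := by
    intro j
    by_cases hj : A.coeff j = 0
    · rw [hj, natDegree_zero]
      omega
    · have h1 : (A.coeff j).natDegree ≤ A.support.sup fun j => (A.coeff j).natDegree :=
        Finset.le_sup (f := fun j => (A.coeff j).natDegree) (mem_support_iff.2 hj)
      omega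
  set M := A.natDegree + 1 + i with hM
  have h2 : sub A G = ∑ x ∈ Finset.range M ×ˢ Finset.range N,
      C ((A.coeff x.1).coeff x.2) * (G ^ x.2 * X ^ x.1) := by
    rw [Finset.sum_product, sub_eq A G hN1]
    refine Finset.sum_subset (fun j hj => ?_) fun j _ hj => ?_
    · rw [Finset.mem_range] at hj ⊢
      omega
    · have h3 : A.coeff j = 0 := by
        refine coeff_eq_zero_of_natDegree_lt ?_
        rw [Finset.mem_range] at hj
        omega
      refine Finset.sum_eq_zero fun x _ => ?_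
      rw [h3, coeff_zero, C_0, zero_mul]
  have h4 : ((i, l) : ℕ × ℕ) ∈ Finset.range M ×ˢ Finset.range N := by
    rw [Finset.mem_product, Finset.mem_range, Finset.mem_range]
    constructor <;> dsimp only <;> omega
  rw [h2, ← Finset.add_sum_erase _ _ h4, add_sub_cancel_left]
  refine GB.sum _ _ fun x hx => ?_
  have h5 : x.2 ≠ l ∨ x.1 ≠ i := by
    by_contra hcon
    push Not at hcon
    exact (Finset.mem_erase.1 hx).1 (Prod.ext hcon.2 hcon.1)
  exact (term_gb (h _ _ h5) hG x.2 x.1).mono (by linarith)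

/-- The main term. -/
theorem main_gb {a : Ω} {lam δ : ℝ} {G G' : Polynomial Ω} (ha : v.Ge lam a) (hG : GB v c r₀ G)
    (hG' : GB v c r₀ G') (h : GB v c (r₀ + δ) (G - G')) (l i : ℕ) :
    GB v c (lam + l * r₀ + i * c + δ) (C a * (G ^ l * X ^ i) - C a * (G' ^ l * X ^ i)) := by
  have h1 : C a * (G ^ l * X ^ i) - C a * (G' ^ l * X ^ i) =
      C a * ((∑ j ∈ Finset.range l, G ^ j * G' ^ (l - 1 - j)) * (G - G') * X ^ i) := by
    rw [(Commute.all G G').geom_sum₂_mul]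
    ring
  rw [h1]
  rcases Nat.eq_zero_or_pos l with h0 | h0
  · subst h0
    rw [Finset.range_zero, Finset.sum_empty, zero_mul, zero_mul, mul_zero]
    exact GB.zero
  have h2 : GB v c ((l - 1) * r₀) (∑ j ∈ Finset.range l, G ^ j * G' ^ (l - 1 - j)) := by
    refine GB.sum _ _ fun j hj => ?_
    rw [Finset.mem_range] at hj
    refine ((hG.pow j).mul (hG'.pow (l - 1 - j))).mono (le_of_eq ?_)
    have h3 : ((l - 1 - j : ℕ) : ℝ) = l - 1 - j := by
      rw [Nat.cast_sub (by omega), Nat.cast_sub (by omega), Nat.cast_one]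
    rw [h3]
    ring
  exact ((GB.C ha).mul ((h2.mul h).mul (GB.X.pow i))).mono (by linarith)

/-- The coefficient of the new polynomial. -/
theorem sub_coeff {l i : ℕ} (hX₁ : v.Ge (r₀ + μ) X₁) (hμ : 0 ≤ μ)
    (h1 : v.Ge (r₀ - c) χ) (h2 : v.Ge (r₀ - 2 * c) χ')
    (ha : v.Ge (κ - l * r₀ - i * c) ((A.coeff i).coeff l))
    (h : ∀ l' i' : ℕ, (l' ≠ l ∨ i' ≠ i) →
      v.Ge (κ + μ - l' * r₀ - i' * c) ((A.coeff i').coeff l')) (e : ℕ) :
    v.Ge (κ + μ - (l + i + e : ℕ) * c) ((sub A (C X₁ + G1 χ χ')).coeff (l + i + e) -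
      (A.coeff i).coeff l * ((G1 χ χ') ^ l).coeff (l + e)) := by
  have hG1 := G1_gb (c := c) h1 h2
  have hG : GB v c r₀ (C X₁ + G1 χ χ') := (GB.C (hX₁.mono (by linarith))).add hG1
  have h3 := sub_oth hG h
  have h4 : GB v c (κ + μ) (C ((A.coeff i).coeff l) * ((C X₁ + G1 χ χ') ^ l * X ^ i) -
      C ((A.coeff i).coeff l) * ((G1 χ χ') ^ l * X ^ i)) := by
    refine (main_gb (δ := μ) ha hG hG1 ?_ l i).mono (le_of_eq (by ring))
    rw [add_sub_cancel_right]
    exact GB.C hX₁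
  have h5 := (h3.add h4) (l + i + e)
  rw [sub_add_sub_cancel, coeff_sub, coeff_C_mul] at h5
  have h6 : ((G1 χ χ') ^ l * X ^ i).coeff (l + i + e) = ((G1 χ χ') ^ l).coeff (l + e) := by
    rw [show l + i + e = l + e + i by ring, coeff_mul_X_pow]
  rwa [h6] at h5

/-- The Gauss bound of the new polynomial. -/
theorem sub_gb {l i : ℕ} (hX₁ : v.Ge r₀ X₁) (hμ : 0 ≤ μ)
    (h1 : v.Ge (r₀ - c) χ) (h2 : v.Ge (r₀ - 2 * c) χ')
    (ha : v.Ge (κ - l * r₀ - i * c) ((A.coeff i).coeff l))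
    (h : ∀ l' i' : ℕ, (l' ≠ l ∨ i' ≠ i) →
      v.Ge (κ + μ - l' * r₀ - i' * c) ((A.coeff i').coeff l')) :
    GB v c κ (sub A (C X₁ + G1 χ χ')) := by
  have hG : GB v c r₀ (C X₁ + G1 χ χ') := (GB.C hX₁).add (G1_gb h1 h2)
  have h3 := (sub_oth hG h).mono (show κ ≤ κ + μ by linarith)
  have h4 := (term_gb ha hG l i).mono (le_of_eq (by ring) : κ ≤ _)
  have h5 := h3.add h4
  rwa [sub_add_cancel] at h5

end Poly

section St

variable {k Ω : Type u} [Field k] [Field Ω] [Algebra k Ω] {v : RVal Ω} {r D : ℕ}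

/-- On the polydisc of radii `r₀`, `c` the monomial `X ^ l T ^ i` is the leading one, with the
margin `μ`. -/
structure P1 (v : RVal Ω) (E : IntermediateField k Ω) (X T : Ω) (r₀ c κ μ : ℝ) (l i : ℕ)
    (A : Polynomial (Polynomial Ω)) : Prop where
  mem : PII E A
  ltx : r₀ < v X
  ltt : c < v T
  pos : 0 < μ
  ne : (A.coeff i).coeff l ≠ 0
  val : v ((A.coeff i).coeff l) + l * r₀ + i * c = κ
  oth : ∀ l' i' : ℕ, (l' ≠ l ∨ i' ≠ i) →
    v.Ge (κ + μ - l' * r₀ - i' * c) ((A.coeff i').coeff l')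

variable {E : IntermediateField k Ω} {X T : Ω} {r₀ c κ μ : ℝ} {l i : ℕ}
  {A : Polynomial (Polynomial Ω)}

/-- Bigger radii. -/
theorem P1.radii (h : P1 v E X T r₀ c κ μ l i A) {r₁ c₁ : ℝ} (hr : r₀ ≤ r₁) (hc : c ≤ c₁)
    (hr1 : r₁ < v X) (hc1 : c₁ < v T) (hm : l * (r₁ - r₀) + i * (c₁ - c) < μ) :
    P1 v E X T r₁ c₁ (κ + (l * (r₁ - r₀) + i * (c₁ - c))) (μ - (l * (r₁ - r₀) + i * (c₁ - c)))
      l i A := by
  refine ⟨h.mem, hr1, hc1, by linarith, h.ne, by rw [← h.val]; ring, fun l' i' hne => ?_⟩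
  refine (h.oth l' i' hne).mono ?_
  have h1 : (l' : ℝ) * r₀ ≤ l' * r₁ := mul_le_mul_of_nonneg_left hr (Nat.cast_nonneg _)
  have h2 : (i' : ℝ) * c ≤ i' * c₁ := mul_le_mul_of_nonneg_left hc (Nat.cast_nonneg _)
  linarith

variable [IsAlgClosed k] [IsAlgClosed Ω]

/-- **Change of the inner variable of a flag**: `X₁ = X - f`, `f ∈ E(T)`. -/
theorem stt_shift (p : ℕ) [Fact p.Prime] [CharP k p] [CharP Ω p] (h : Ctx k v r)
    {K : IntermediateField k Ω} {R : Fr k v r D} {f : Ω} (hf : f ∈ adj R.K T)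
    (htx : Transcendental R.K X) (htt : Transcendental (adj R.K X) T)
    (hbd : BD p v (adj (adj R.K X) T)) (hcl : K = clI v (adj (adj R.K X) T)) :
    ∃ R' : Fr k v r (D + 1), R'.K = adj R.K (X - f) ∧ R'.K.FG ∧ Full v R'.K ∧
      Algebra.trdeg k R'.K = (r + (D + 1) : ℕ) ∧ BD p v R'.K ∧ Transcendental R'.K T ∧
      K = clI v (adj R'.K T) := by
  have hx1 : Transcendental (adj R.K T) X := tr_swap htx htt
  have hT : Transcendental R.K T := fun h1 =>
    htt (D2P.isAlgebraic_mono (fun a ha => (mem_adj_self R.K X).2 ha) h1)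
  have hx2 : Transcendental (adj R.K T) (X - f) := by
    intro h1
    refine hx1 ?_
    have h2 := h1.add (isAlgebraic_algebraMap (R := adj R.K T) (⟨f, hf⟩ : adj R.K T))
    have h3 : X - f + algebraMap (adj R.K T) Ω ⟨f, hf⟩ = X := sub_add_cancel X f
    rwa [h3] at h2
  have hx3 : Transcendental R.K (X - f) := fun h1 =>
    hx2 (D2P.isAlgebraic_mono (fun a ha => (mem_adj_self R.K T).2 ha) h1)
  have hx0 : X - f ≠ 0 := fun h1 => hx3 (by rw [h1]; exact isAlgebraic_zero)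
  have hT1 : Transcendental (adj R.K (X - f)) T := tr_swap hT hx2
  have heq : adj (adj R.K (X - f)) T = adj (adj R.K X) T := by
    rw [adj_adj_swap hf, ← adj_adj_swap (E := R.K) (y := T) (z := X) (f := 0) (zero_mem _),
      sub_zero]
  obtain ⟨m, hm, hm0, hmv⟩ := TW.E10.exists_big h R (1 - v (X - f))
  have hmx0 : m * (X - f) ≠ 0 := mul_ne_zero hm0 hx0
  have hmxv : 0 < v (m * (X - f)) := by
    rw [v.map_mul hm0 hx0]
    linarith
  have hadj : adj R.K (m * (X - f)) = adj R.K (X - f) := adj_mul hm hm0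
  have htx' : Transcendental R.K (m * (X - f)) := by
    intro h1
    refine hx3 ?_
    have h3 : X - f = m⁻¹ * (m * (X - f)) := by field_simp
    rw [h3]
    exact (isAlgebraic_algebraMap (R := R.K) (⟨_, inv_mem hm⟩ : R.K)).mul h1
  set R' := TW.E10.snocFr R hmx0 hmxv htx' with hR'
  have hK' : R'.K = adj R.K (X - f) := by rw [hR', snoc_K, hadj]
  refine ⟨R', hK', TW.Est.fg_K R', TW.Est.full_K h R', TW.Est.trdeg_K R', ?_, ?_, ?_⟩
  · refine BD.of_adj p (TW.Est.fg_K R') (z := T) ?_ ?_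
    · rw [hK']
      exact hT1
    · rw [hK', heq]
      exact hbd
  · rw [hK']
    exact hT1
  · rw [hK', heq, hcl]

/-- **(A), one leading monomial**, not a `p`-th power for trivial reasons. -/
theorem con_one (p : ℕ) [Fact p.Prime] [CharP k p] [CharP Ω p] (h : Ctx k v r)
    {K : IntermediateField k Ω} {R : Fr k v r D} (htx : Transcendental R.K X)
    (htt : Transcendental (adj R.K X) T) (hbd : BD p v (adj (adj R.K X) T))
    (hcl : K = clI v (adj (adj R.K X) T)) {a : Ω}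
    (hrep : ∃ h ∈ K, h ≠ 0 ∧ ∃ g ∈ K, a * h ^ p - g ^ p = A.evalEval X T) (hd : Dns v R.K)
    (hP : P1 v R.K X T r₀ c κ μ l i A) (hpl : ¬ (p ∣ l ∧ p ∣ i)) :
    ∃ (F : IntermediateField k Ω) (c' κ' : ℝ) (L : ℕ) (A' : Polynomial Ω), Dns v F ∧
      ¬ p ∣ L ∧ (L = l + i ∨ (L = l + i + 1 ∧ p ∣ l + i)) ∧
      Stt p v r (D + 1) K a F T c' κ' L A' := by
  have hX0 : X ≠ 0 := fun h1 => htx (by rw [h1]; exact isAlgebraic_zero)
  have hT0 : T ≠ 0 := fun h1 => htt (by rw [h1]; exact isAlgebraic_zero)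
  -- radii in the value group
  set t := μ / (2 * (l + i + 1)) with ht
  have hli : (0 : ℝ) < 2 * (l + i + 1) := by positivity
  have ht0 : 0 < t := div_pos hP.pos hli
  obtain ⟨ρ, hρ, hρ0, hρ1, hρ2⟩ := hd r₀ (min (r₀ + t) (v X))
    (lt_min (by linarith) hP.ltx)
  obtain ⟨ζ, hζ, hζ0, hζ1, hζ2⟩ := hd c (min (c + t) (v T)) (lt_min (by linarith) hP.ltt)
  have hρ3 := hρ2.trans_le (min_le_left _ _)
  have hρ4 := hρ2.trans_le (min_le_right _ _)
  have hζ3 := hζ2.trans_le (min_le_left _ _)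
  have hζ4 := hζ2.trans_le (min_le_right _ _)
  have hsum : l * (v ρ - r₀) + i * (v ζ - c) < μ := by
    have h1 : (l : ℝ) * (v ρ - r₀) ≤ l * t :=
      mul_le_mul_of_nonneg_left (by linarith) (Nat.cast_nonneg _)
    have h2 : (i : ℝ) * (v ζ - c) ≤ i * t :=
      mul_le_mul_of_nonneg_left (by linarith) (Nat.cast_nonneg _)
    have h3 : (2 * (l + i + 1)) * t = μ := by
      rw [ht]
      field_simp
    have h4 : (0 : ℝ) ≤ l * t := by positivity
    have h5 : (0 : ℝ) ≤ i * t := by positivity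
    nlinarith
  have hQ := hP.radii hρ1.le hζ1.le hρ4 hζ4 hsum
  set r₁ := v ρ with hr₁
  set c₁ := v ζ with hc₁
  set κ₁ := κ + (l * (r₁ - r₀) + i * (c₁ - c)) with hκ₁
  set μ₁ := μ - (l * (r₁ - r₀) + i * (c₁ - c)) with hμ₁
  set χ := ρ / ζ with hχ
  set χ' := ρ / ζ ^ 2 with hχ'
  have hχ0 : χ ≠ 0 := div_ne_zero hρ0 hζ0
  have hχ0' : χ' ≠ 0 := div_ne_zero hρ0 (pow_ne_zero 2 hζ0)
  have hχv : v χ = r₁ - c₁ := by rw [hχ, v.map_div hρ0 hζ0]
  have hχv' : v χ' = r₁ - 2 * c₁ := by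
    rw [hχ', v.map_div hρ0 (pow_ne_zero 2 hζ0), v.map_pow hζ0]
    push_cast
    ring
  have hχm : χ ∈ R.K := div_mem hρ hζ
  have hχm' : χ' ∈ R.K := div_mem hρ (pow_mem hζ 2)
  -- the new variable
  set f := (G1 χ χ').eval T with hf
  have hfe : f = χ * T + χ' * T ^ 2 := by rw [hf, G1_eval]
  have hfm : f ∈ adj R.K T := by
    rw [hfe]
    exact add_mem (mul_mem ((mem_adj_self R.K T).2 hχm) (mem_adj_self R.K T).1)
      (mul_mem ((mem_adj_self R.K T).2 hχm') (pow_mem (mem_adj_self R.K T).1 2))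
  obtain ⟨R', hRK, hfg, hfull, htr, hbd', htT, hcl'⟩ := stt_shift p h hfm htx htt hbd hcl
  have hle : R.K ≤ R'.K := by
    rw [hRK]
    exact (mem_adj_self R.K _).2
  have hX1m : X - f ∈ R'.K := by
    rw [hRK]
    exact (mem_adj_self R.K _).1
  -- the value of the new variable
  obtain ⟨μ₂, hμ20, hμ21, hμ22⟩ : ∃ μ₂ : ℝ, 0 < μ₂ ∧ μ₂ ≤ μ₁ ∧ v.Ge (r₁ + μ₂) (X - f) := by
    refine ⟨min μ₁ (min (v X - r₁) (v T - c₁)), ?_, min_le_left _ _, ?_⟩
    · exact lt_min hQ.pos (lt_min (by linarith [hQ.ltx]) (by linarith [hQ.ltt]))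
    · set m := min μ₁ (min (v X - r₁) (v T - c₁)) with hm
      have hm1 : m ≤ v X - r₁ := (min_le_right _ _).trans (min_le_left _ _)
      have hm2 : m ≤ v T - c₁ := (min_le_right _ _).trans (min_le_right _ _)
      have hm0 : 0 < m := lt_min hQ.pos (lt_min (by linarith [hQ.ltx]) (by linarith [hQ.ltt]))
      refine RVal.Ge.sub (RVal.Ge.of_le (by linarith)) ?_
      rw [hfe]
      refine RVal.Ge.add (RVal.Ge.of_le ?_) (RVal.Ge.of_le ?_)
      · rw [v.map_mul hχ0 hT0, hχv]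
        linarith
      · rw [v.map_mul hχ0' (pow_ne_zero 2 hT0), v.map_pow hT0, hχv']
        push_cast
        linarith
  have ha : v.Ge (κ₁ - l * r₁ - i * c₁) ((A.coeff i).coeff l) :=
    RVal.Ge.of_le (by rw [← hQ.val]; linarith)
  have hoth : ∀ l' i' : ℕ, (l' ≠ l ∨ i' ≠ i) →
      v.Ge (κ₁ + μ₂ - l' * r₁ - i' * c₁) ((A.coeff i').coeff l') := fun l' i' hne =>
    (hQ.oth l' i' hne).mono (by linarith)
  have hχG : v.Ge (r₁ - c₁) χ := RVal.Ge.of_le hχv.ge
  have hχG' : v.Ge (r₁ - 2 * c₁) χ' := RVal.Ge.of_le hχv'.ge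
  set B := sub A (C (X - f) + G1 χ χ') with hB
  have hBgb : GB v c₁ κ₁ B := sub_gb (hμ22.mono (by linarith)) hμ20.le hχG hχG' ha hoth
  have hBmem : B ∈ PI R'.K := by
    have h1 : C (X - f) + G1 χ χ' ∈ PI R'.K := by
      rw [G1]
      exact add_mem (C_mem_PI hX1m) (add_mem (mul_mem (C_mem_PI (hle hχm)) X_mem_PI)
        (mul_mem (C_mem_PI (hle hχm')) (pow_mem X_mem_PI 2)))
    rw [hB, sub]
    refine sum_mem fun j _ => mul_mem ?_ (pow_mem X_mem_PI j)
    rw [comp, eval₂_eq_sum_range]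
    exact sum_mem fun n _ => mul_mem (C_mem_PI (hle (hP.mem j n))) (pow_mem h1 n)
  have hBev : B.eval T = A.evalEval X T := by
    rw [hB, sub_eval]
    congr 1
    rw [eval_add, eval_C, ← hf]
    ring
  have hBc := fun e : ℕ => sub_coeff (X₁ := X - f) hμ22 hμ20.le hχG hχG' ha hoth e
  -- the index
  have hα0 := hQ.ne
  have key : ∀ e : ℕ, ¬ p ∣ l + i + e →
      (((G1 χ χ') ^ l).coeff (l + e) ≠ 0 ∧
        v (((G1 χ χ') ^ l).coeff (l + e)) = l * r₁ - (l + e) * c₁) →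
      Stt p v r (D + 1) K a R'.K T c₁ κ₁ (l + i + e) B := by
    rintro e hpe ⟨he0, hev⟩
    refine ⟨⟨R', rfl⟩, hfg, hfull, htr, hbd', htT, hcl', ?_, ⟨hBmem, fun _ => hζ4, ?_, ?_⟩⟩
    · obtain ⟨h₁, hh, hh0, g, hg, h2⟩ := hrep
      exact ⟨h₁, hh, hh0, g, hg, by rw [h2, hBev]⟩
    · intro ε hε
      refine ⟨0, zero_mem _, ?_⟩
      rw [zero_pow (Fact.out : p.Prime).ne_zero, sub_zero]
      exact hBgb.mono (by linarith)
    · intro e' he' g _
      refine ⟨l + i + e, le_refl _, ?_⟩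
      rw [coeff_sub, coeff_pow_nd g hpe, sub_zero]
      intro h1
      set w := (A.coeff i).coeff l * ((G1 χ χ') ^ l).coeff (l + e) with hw
      have hw0 : w ≠ 0 := mul_ne_zero hα0 he0
      have hwv : v w = κ₁ - (l + i + e : ℕ) * c₁ := by
        rw [hw, v.map_mul hα0 he0, hev, ← hQ.val]
        push_cast
        ring
      have h2 := hBc e
      rw [← hB] at h2
      have h3 : v.Ge (v w + min e' μ₂) w := by
        have h4 : w = B.coeff (l + i + e) - (B.coeff (l + i + e) - w) := by ring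
        have h5 : v.Ge (v w + min e' μ₂) (B.coeff (l + i + e)) :=
          h1.mono (by rw [hwv]; linarith [min_le_left e' μ₂])
        have h6 : v.Ge (v w + min e' μ₂) (B.coeff (l + i + e) - w) :=
          h2.mono (by rw [hwv]; linarith [min_le_right e' μ₂])
        have h7 := h5.sub h6
        rwa [← h4] at h7
      have h8 := h3 hw0
      have h9 : 0 < min e' μ₂ := lt_min he' hμ20
      linarith
  have hdns : Dns v R'.K := fun x y hxy => by
    obtain ⟨e, he, h1⟩ := hd x y hxy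
    exact ⟨e, hle he, h1⟩
  have hpr := (Fact.out : p.Prime)
  by_cases hpli : p ∣ l + i
  · -- the second coefficient
    have hl : ¬ p ∣ l := fun h1 => hpl ⟨h1, (Nat.dvd_add_right h1).1 hpli⟩
    have hp1 : ¬ p ∣ l + i + 1 := fun h1 => by
      have := (Nat.dvd_add_right hpli).1 h1
      exact hpr.one_lt.ne' (Nat.dvd_one.1 this)
    refine ⟨R'.K, c₁, κ₁, l + i + 1, B, hdns, hp1, Or.inr ⟨rfl, hpli⟩, key 1 hp1 ?_⟩
    have hlk : ((l : ℕ) : k) ≠ 0 := fun h1 => hl ((CharP.cast_eq_zero_iff k p l).1 h1)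
    have hlv : ((l : ℕ) : Ω) = algebraMap k Ω ((l : ℕ) : k) := (map_natCast _ _).symm
    have hl0 : ((l : ℕ) : Ω) ≠ 0 := by
      rw [hlv]
      exact fun h1 => hlk ((map_eq_zero _).1 h1)
    have hlv0 : v ((l : ℕ) : Ω) = 0 := by
      rw [hlv]
      exact h.toCtx0.triv _ hlk
    have hlpos : 1 ≤ l := Nat.one_le_iff_ne_zero.2 fun h1 => hl (by rw [h1]; exact dvd_zero p)
    rw [(G1_coeff χ χ' l).2]
    refine ⟨mul_ne_zero (mul_ne_zero hl0 (pow_ne_zero _ hχ0)) hχ0', ?_⟩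
    rw [v.map_mul (mul_ne_zero hl0 (pow_ne_zero _ hχ0)) hχ0', v.map_mul hl0 (pow_ne_zero _ hχ0),
      hlv0, v.map_pow hχ0, hχv, hχv', Nat.cast_sub hlpos]
    push_cast
    ring
  · refine ⟨R'.K, c₁, κ₁, l + i, B, hdns, hpli, Or.inl rfl, key 0 hpli ?_⟩
    rw [add_zero, (G1_coeff χ χ' l).1]
    refine ⟨pow_ne_zero _ hχ0, ?_⟩
    rw [v.map_pow hχ0, hχv]
    push_cast
    ring

/-- **THE CONSTRAINT (A).** -/
theorem P1.le (p : ℕ) [Fact p.Prime] [CharP k p] [CharP Ω p] (h : Ctx k v r)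
    {K : IntermediateField k Ω} {R : Fr k v r D} (htx : Transcendental R.K X)
    (htt : Transcendental (adj R.K X) T) (hbd : BD p v (adj (adj R.K X) T))
    (hcl : K = clI v (adj (adj R.K X) T)) {a : Ω}
    (hrep : ∃ h ∈ K, h ≠ 0 ∧ ∃ g ∈ K, a * h ^ p - g ^ p = A.evalEval X T) (hd : Dns v R.K)
    (hP : P1 v R.K X T r₀ c κ μ l i A) (hpl : ¬ (p ∣ l ∧ p ∣ i)) {q : ℕ}
    (hq : MinS p v r (D + 1) K a q) (hpq : p ∣ q) : q ≤ l + i := by
  obtain ⟨F, c', κ', L, A', -, hpL, hL, hs⟩ := con_one p h htx htt hbd hcl hrep hd hP hpl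
  have h1 := hq _ _ _ _ _ _ hs
  rcases hL with hL | ⟨hL, -⟩
  · omega
  · rcases Nat.lt_or_ge q L with h2 | h2
    · omega
    · exact absurd (le_antisymm h1 h2 ▸ hpq) hpL

end St

end Con

end Pool.Agent.TWJ2
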