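import Pool.Agent.Lib.TWJ2.SwapSt

/-!
# TANK W, row J: the constraint, singling out of one monomial

`(E, X, T)` is a flag of level `0`, `A` a polynomial in two variables over `E` (inner variable `X`,
outer variable `T`). Modulo `p`-th powers of such polynomials everything is monomialwise.

* `asm`: a polynomial `G` with prescribed coefficients of `A - G ^ p`;
* `sing`: a small change of the radii singles out one visible monomial of least total degree.
-/

set_option autoImplicit false
set_option linter.unusedSectionVars false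

open Polynomial

namespace Pool.Agent.TWJ2

open Pool.Agent.H15JM (RVal)
open Pool.Agent.LU1 (adj)
open Pool.Agent.D2P (clI mem_adj_self adj_le)
open Pool.Agent.TW (Full BD Fr HRone LU Dns Ctx kr)
open Pool.Agent.TWM
open Pool.Agent.TWJ (Stt)

universe u

section Asm

variable {k Ω : Type u} [Field k] [Field Ω] [Algebra k Ω] {v : RVal Ω} {p : ℕ} [hp : Fact p.Prime]
  [CharP Ω p] {E : IntermediateField k Ω}

/-- The coefficient of `X ^ l T ^ i` of a `p`-th power. -/
theorem cc_pow (G : Polynomial (Polynomial Ω)) (l i : ℕ) :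
    ((G ^ p).coeff i).coeff l =
      if p ∣ l ∧ p ∣ i then ((G.coeff (i / p)).coeff (l / p)) ^ p else 0 := by
  rw [coeff_pow_ite2]
  by_cases hi : p ∣ i
  · rw [if_pos hi, ← map_frobenius_expand, coeff_map, coeff_expand hp.out.pos]
    by_cases hl : p ∣ l
    · rw [if_pos hl, if_pos ⟨hl, hi⟩]
      rfl
    · rw [if_neg hl, if_neg (fun h => hl h.1), map_zero]
  · rw [if_neg hi, coeff_zero, if_neg (fun h => hi h.2)]

/-- A polynomial `G` such that `A - G ^ p` has prescribed coefficients (up to zero). -/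
theorem asm (A : Polynomial (Polynomial Ω)) (γ : ℕ → ℕ → Ω) (hγ : ∀ l i, γ l i ∈ E)
    (h0 : ∀ l i, ¬ (p ∣ l ∧ p ∣ i) → γ l i = 0) :
    ∃ G, PII E G ∧ ∀ l i, ((A - G ^ p).coeff i).coeff l = (A.coeff i).coeff l - γ l i ^ p ∨
      (((A - G ^ p).coeff i).coeff l = 0 ∧ (A.coeff i).coeff l = 0) := by
  classical
  have hpp := hp.out.pos
  set n := A.natDegree + 1 with hn
  set m := (Finset.range n).sup (fun i => (A.coeff i).natDegree) + 1 with hm
  refine ⟨∑ i ∈ Finset.range n, monomial i (∑ l ∈ Finset.range m, monomial l (γ (p * l) (p * i))),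
    fun j => ?_, fun l i => ?_⟩
  · rw [finsetSum_coeff]
    refine sum_mem fun i _ => ?_
    rw [coeff_monomial]
    split_ifs
    · refine sum_mem fun l _ => fun j => ?_
      rw [coeff_monomial]
      split_ifs
      exacts [hγ _ _, zero_mem _]
    · exact zero_mem _
  · have h1 : ∀ l' i' : ℕ, ((∑ i ∈ Finset.range n,
        monomial i (∑ l ∈ Finset.range m, monomial l (γ (p * l) (p * i)))).coeff i').coeff l' =
        if i' < n ∧ l' < m then γ (p * l') (p * i') else 0 := by
      intro l' i'
      rw [finsetSum_coeff]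
      simp only [coeff_monomial]
      rw [Finset.sum_ite_eq']
      by_cases hi : i' < n
      · rw [if_pos (Finset.mem_range.2 hi), finsetSum_coeff]
        simp only [coeff_monomial]
        rw [Finset.sum_ite_eq']
        by_cases hl : l' < m
        · rw [if_pos (Finset.mem_range.2 hl), if_pos ⟨hi, hl⟩]
        · rw [if_neg (fun h => hl (Finset.mem_range.1 h)), if_neg (fun h => hl h.2)]
      · rw [if_neg (fun h => hi (Finset.mem_range.1 h)), if_neg (fun h => hi h.1), coeff_zero]
    rw [coeff_sub, coeff_sub, cc_pow]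
    by_cases hd : p ∣ l ∧ p ∣ i
    · rw [if_pos hd, h1]
      by_cases hr : i / p < n ∧ l / p < m
      · left
        rw [if_pos hr, Nat.mul_div_cancel' hd.1, Nat.mul_div_cancel' hd.2]
      · right
        have hA : (A.coeff i).coeff l = 0 := by
          by_contra hne
          have h2 : A.coeff i ≠ 0 := fun h => hne (by rw [h, coeff_zero])
          have h3 : i ≤ A.natDegree := le_natDegree_of_ne_zero h2
          have h4 : l ≤ (A.coeff i).natDegree := le_natDegree_of_ne_zero hne
          have h5 : (A.coeff i).natDegree ≤ (Finset.range n).sup (fun i => (A.coeff i).natDegree) :=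
            Finset.le_sup (f := fun i => (A.coeff i).natDegree) (Finset.mem_range.2 (by omega))
          refine hr ⟨?_, ?_⟩
          · exact (Nat.div_le_self i p).trans_lt (by omega)
          · exact (Nat.div_le_self l p).trans_lt (by omega)
        rw [hA, if_neg hr, zero_pow hp.out.ne_zero, sub_zero]
        exact ⟨rfl, rfl⟩
    · left
      rw [if_neg hd, h0 l i hd, zero_pow hp.out.ne_zero]

/-- The coefficients vanish outside a finite set. -/
theorem exists_supp (A : Polynomial (Polynomial Ω)) :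
    ∃ F : Finset (ℕ × ℕ), ∀ l i, (l, i) ∉ F → (A.coeff i).coeff l = 0 := by
  classical
  refine ⟨(Finset.range ((Finset.range (A.natDegree + 1)).sup
    (fun i => (A.coeff i).natDegree) + 1)) ×ˢ (Finset.range (A.natDegree + 1)), fun l i h => ?_⟩
  by_contra hne
  have h2 : A.coeff i ≠ 0 := fun h => hne (by rw [h, coeff_zero])
  have h3 : i ≤ A.natDegree := le_natDegree_of_ne_zero h2
  have h4 : l ≤ (A.coeff i).natDegree := le_natDegree_of_ne_zero hne
  have h5 : (A.coeff i).natDegree ≤
      (Finset.range (A.natDegree + 1)).sup (fun i => (A.coeff i).natDegree) :=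
    Finset.le_sup (f := fun i => (A.coeff i).natDegree) (Finset.mem_range.2 (by omega))
  exact h (Finset.mem_product.2 ⟨Finset.mem_range.2 (by omega), Finset.mem_range.2 (by omega)⟩)

/-- Finitely many positive numbers have a positive lower bound. -/
theorem exists_pos_le {ι : Type*} (s : Finset ι) (f : ι → ℝ) (hf : ∀ x ∈ s, 0 < f x) :
    ∃ e : ℝ, 0 < e ∧ ∀ x ∈ s, e ≤ f x := by
  classical
  induction s using Finset.induction_on with
  | empty => exact ⟨1, one_pos, fun x hx => absurd hx (Finset.notMem_empty x)⟩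
  | insert a s ha ih =>
    obtain ⟨e, he, h1⟩ := ih fun x hx => hf x (Finset.mem_insert_of_mem hx)
    refine ⟨min e (f a), lt_min he (hf a (Finset.mem_insert_self a s)), fun x hx => ?_⟩
    rcases Finset.mem_insert.1 hx with rfl | hx
    · exact min_le_right _ _
    · exact (min_le_left _ _).trans (h1 x hx)

/-- The monomial `X ^ l T ^ i` is visible. -/
def Vis (p : ℕ) (v : RVal Ω) (E : IntermediateField k Ω) (r c κ : ℝ)
    (A : Polynomial (Polynomial Ω)) (l i : ℕ) : Prop :=
  ∀ e : ℝ, 0 < e → ∀ g ∈ E, (¬ (p ∣ l ∧ p ∣ i) → g = 0) →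
    ¬ v.Ge (κ + e - l * r - i * c) ((A.coeff i).coeff l - g ^ p)

/-- **Singling out.** -/
theorem sing {A : Polynomial (Polynomial Ω)} {X T : Ω} {r c κ : ℝ} {D₀ : ℕ} (hX : r < v X)
    (hT : c < v T) (hd : Dns v E)
    (lo : ∀ ε : ℝ, 0 < ε → ∃ G, PII E G ∧
      ∀ l i : ℕ, v.Ge (κ - ε - l * r - i * c) (((A - G ^ p).coeff i).coeff l))
    (hi : ∀ e : ℝ, 0 < e → ∀ G, PII E G → ∃ l i : ℕ, l + i ≤ D₀ ∧
      ¬ v.Ge (κ + e - l * r - i * c) (((A - G ^ p).coeff i).coeff l)) :
    ∃ (r₁ c₁ κ₁ μ : ℝ) (l i : ℕ) (χ : Ω), 0 < μ ∧ r < r₁ ∧ r₁ < v X ∧ c < c₁ ∧ c₁ < v T ∧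
      l + i ≤ D₀ ∧ χ ∈ E ∧ χ ≠ 0 ∧ v χ = r₁ - c₁ ∧ Vis p v E r₁ c₁ κ₁ A l i ∧
      ∀ ε : ℝ, 0 < ε → ∃ G, PII E G ∧
        v.Ge (κ₁ - ε - l * r₁ - i * c₁) (((A - G ^ p).coeff i).coeff l) ∧
        ∀ l' i' : ℕ, (l', i') ≠ (l, i) →
          v.Ge (κ₁ + μ - l' * r₁ - i' * c₁) (((A - G ^ p).coeff i').coeff l') := by
  classical
  have hp0 : p ≠ 0 := hp.out.ne_zero
  -- lower bounds, monomialwise
  have lo' : ∀ l i : ℕ, ∀ ε : ℝ, 0 < ε → ∃ g ∈ E, (¬ (p ∣ l ∧ p ∣ i) → g = 0) ∧
      v.Ge (κ - ε - l * r - i * c) ((A.coeff i).coeff l - g ^ p) := by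
    intro l i ε hε
    obtain ⟨G, hG, h1⟩ := lo ε hε
    have h2 := h1 l i
    rw [coeff_sub, coeff_sub, cc_pow] at h2
    by_cases hd : p ∣ l ∧ p ∣ i
    · rw [if_pos hd] at h2
      exact ⟨_, hG (i / p) (l / p), fun h => absurd hd h, h2⟩
    · rw [if_neg hd] at h2
      refine ⟨0, zero_mem _, fun _ => rfl, ?_⟩
      rwa [zero_pow hp0]
  -- invisible monomials
  have inv : ∀ l i : ℕ, ¬ Vis p v E r c κ A l i → ∃ (e : ℝ) (g : Ω), 0 < e ∧ g ∈ E ∧
      (¬ (p ∣ l ∧ p ∣ i) → g = 0) ∧
      v.Ge (κ + e - l * r - i * c) ((A.coeff i).coeff l - g ^ p) := by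
    intro l i h
    by_contra hno
    exact h fun e he g hg h1 h2 => hno ⟨e, g, he, hg, h1, h2⟩
  choose! e₁ γ₁ he₁ hγ₁ hz₁ hb₁ using inv
  -- there is a visible monomial
  have hex : ∃ n, ∃ l i : ℕ, l + i = n ∧ Vis p v E r c κ A l i := by
    by_contra hno
    push Not at hno
    have hnv : ∀ l i, ¬ Vis p v E r c κ A l i := fun l i => hno (l + i) l i rfl
    obtain ⟨e, he, h1⟩ := exists_pos_le
      ((Finset.range (D₀ + 1)) ×ˢ (Finset.range (D₀ + 1))) (fun x => e₁ x.1 x.2)
      (fun x _ => he₁ x.1 x.2 (hnv _ _))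
    obtain ⟨G, hG, h2⟩ := asm (p := p) (E := E) A γ₁ (fun l i => hγ₁ l i (hnv l i))
      (fun l i => hz₁ l i (hnv l i))
    obtain ⟨l, i, hli, h3⟩ := hi e he G hG
    refine h3 ?_
    rcases h2 l i with h4 | ⟨h4, _⟩
    · rw [h4]
      refine (hb₁ l i (hnv l i)).mono ?_
      have := h1 (l, i) (Finset.mem_product.2
        ⟨Finset.mem_range.2 (by simp only; omega), Finset.mem_range.2 (by simp only; omega)⟩)
      simp only at this
      linarith
    · rw [h4]
      exact RVal.Ge.zero
  -- one of them has total degree `≤ D₀`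
  have hex' : ∃ l i : ℕ, l + i ≤ D₀ ∧ Vis p v E r c κ A l i := by
    by_contra hno
    push Not at hno
    have hnv : ∀ l i, l + i ≤ D₀ → ¬ Vis p v E r c κ A l i := hno
    obtain ⟨e, he, h1⟩ := exists_pos_le
      (((Finset.range (D₀ + 1)) ×ˢ (Finset.range (D₀ + 1))).filter fun x => x.1 + x.2 ≤ D₀)
      (fun x => e₁ x.1 x.2)
      (fun x hx => he₁ x.1 x.2 (hnv _ _ (Finset.mem_filter.1 hx).2))
    obtain ⟨G, hG, h2⟩ := asm (p := p) (E := E) A
      (fun l i => if l + i ≤ D₀ then γ₁ l i else 0)
      (fun l i => by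
        by_cases h : l + i ≤ D₀
        · simp only [if_pos h]
          exact hγ₁ l i (hnv l i h)
        · simp only [if_neg h]
          exact zero_mem _)
      (fun l i hq => by
        by_cases h : l + i ≤ D₀
        · simp only [if_pos h]
          exact hz₁ l i (hnv l i h) hq
        · simp only [if_neg h])
    obtain ⟨l, i, hli, h3⟩ := hi e he G hG
    refine h3 ?_
    rcases h2 l i with h4 | ⟨h4, _⟩
    · rw [h4, if_pos hli]
      refine (hb₁ l i (hnv l i hli)).mono ?_
      have := h1 (l, i) (Finset.mem_filter.2 ⟨Finset.mem_product.2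
        ⟨Finset.mem_range.2 (by simp only; omega), Finset.mem_range.2 (by simp only; omega)⟩,
        hli⟩)
      simp only at this
      linarith
    · rw [h4]
      exact RVal.Ge.zero
  -- the least total degree
  set D := Nat.find hex with hD
  obtain ⟨l₀, i₀, hli₀, hv₀⟩ := Nat.find_spec hex
  have hmin : ∀ l i, Vis p v E r c κ A l i → D ≤ l + i := fun l i h =>
    Nat.find_min' hex ⟨l, i, rfl, h⟩
  have hDD : D ≤ D₀ := by
    obtain ⟨l, i, h1, h2⟩ := hex'
    exact (hmin l i h2).trans h1
  obtain ⟨i, hiI, hmax⟩ := Finset.exists_max_image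
    ((Finset.range (D + 1)).filter fun i => Vis p v E r c κ A (D - i) i) id
    ⟨i₀, Finset.mem_filter.2 ⟨Finset.mem_range.2 (by omega), by
      have : D - i₀ = l₀ := by omega
      rw [this]
      exact hv₀⟩⟩
  have hiD : i ≤ D := by
    have := Finset.mem_range.1 (Finset.mem_filter.1 hiI).1
    omega
  set l := D - i with hl
  have hli : l + i = D := by omega
  have hvis : Vis p v E r c κ A l i := (Finset.mem_filter.1 hiI).2
  -- the gap of the invisible monomials
  obtain ⟨F, hF⟩ := exists_supp A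
  obtain ⟨e, he, hgap⟩ := exists_pos_le (F.filter fun x => ¬ Vis p v E r c κ A x.1 x.2)
    (fun x => e₁ x.1 x.2) (fun x hx => he₁ x.1 x.2 (Finset.mem_filter.1 hx).2)
  -- the radii
  have hDp : (0 : ℝ) < (D : ℝ) + 2 := by positivity
  obtain ⟨t', ht', ht1, ht2, ht3⟩ : ∃ t' : ℝ, 0 < t' ∧ 4 * t' ≤ v X - r ∧ 2 * t' ≤ v T - c ∧
      4 * ((D : ℝ) + 1) * t' ≤ e := by
    have hD1 : (0 : ℝ) < 4 * ((D : ℝ) + 1) := by positivity
    refine ⟨min ((v X - r) / 4) (min ((v T - c) / 2) (e / (4 * ((D : ℝ) + 1)))), ?_, ?_, ?_, ?_⟩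
    · refine lt_min (by linarith) (lt_min (by linarith) (div_pos he hD1))
    · have := min_le_left ((v X - r) / 4) (min ((v T - c) / 2) (e / (4 * ((D : ℝ) + 1))))
      linarith
    · have := (min_le_right ((v X - r) / 4) (min ((v T - c) / 2) (e / (4 * ((D : ℝ) + 1))))).trans
        (min_le_left _ _)
      linarith
    · have := (min_le_right ((v X - r) / 4) (min ((v T - c) / 2) (e / (4 * ((D : ℝ) + 1))))).trans
        (min_le_right _ _)
      calc _ ≤ 4 * ((D : ℝ) + 1) * (e / (4 * ((D : ℝ) + 1))) :=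
            mul_le_mul_of_nonneg_left this hD1.le
        _ = e := by field_simp
  have hδ : 0 < t' / ((D : ℝ) + 2) := div_pos ht' hDp
  obtain ⟨χ, hχ, hχ0, hχ1, hχ2⟩ := hd (r - c) (r - c + t' / ((D : ℝ) + 2)) (by linarith)
  set t := t' + (v χ - (r - c)) with ht
  have htt : t' < t := by linarith
  have htt2 : t - t' < t' / ((D : ℝ) + 2) := by linarith
  have hq1 : t' / ((D : ℝ) + 2) ≤ t' := by
    rw [div_le_iff₀ hDp]
    have h0 : (0 : ℝ) ≤ D := Nat.cast_nonneg D
    nlinarith
  have hq2 : (D : ℝ) * (t' / ((D : ℝ) + 2)) = t' - 2 * (t' / ((D : ℝ) + 2)) := by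
    field_simp
    ring
  set μ₁ := min (t - t') (min (t' / ((D : ℝ) + 2)) (e / 2)) with hμ₁
  have hμp : 0 < μ₁ := lt_min (by linarith) (lt_min hδ (by linarith))
  have hμa : μ₁ ≤ t - t' := min_le_left _ _
  have hμb : μ₁ ≤ t' / ((D : ℝ) + 2) := (min_le_right _ _).trans (min_le_left _ _)
  have hμc : μ₁ ≤ e / 2 := (min_le_right _ _).trans (min_le_right _ _)
  have hD0 : (0 : ℝ) ≤ D := Nat.cast_nonneg D
  have hcast : (l : ℝ) + i = D := by exact_mod_cast hli
  have hl0 : (0 : ℝ) ≤ l := Nat.cast_nonneg l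
  have hi0 : (0 : ℝ) ≤ i := Nat.cast_nonneg i
  -- the weight of the monomial
  have hw : (l : ℝ) * t + i * t' = D * t - i * (t - t') := by
    rw [← hcast]
    ring
  have hw2 : (l : ℝ) * t + i * t' ≤ D * t' + (t' - 2 * (t' / ((D : ℝ) + 2))) := by
    have h1 : (D : ℝ) * (t - t') ≤ D * (t' / ((D : ℝ) + 2)) :=
      mul_le_mul_of_nonneg_left htt2.le hD0
    have h2 : 0 ≤ (i : ℝ) * (t - t') := mul_nonneg hi0 (by linarith)
    rw [hw]
    linarith
  refine ⟨r + t, c + t', κ + l * t + i * t', μ₁ / 2, l, i, χ, by linarith, by linarith, ?_,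
    by linarith, by linarith, by omega, hχ, hχ0, by rw [ht]; ring, ?_, ?_⟩
  · linarith
  · intro e' he' g hg hg0 h1
    refine hvis e' he' g hg hg0 (h1.mono ?_)
    nlinarith
  · intro ε hε
    have hε' : 0 < min ε (μ₁ / 2) := lt_min hε (by linarith)
    have hlo := fun l i => lo' l i (min ε (μ₁ / 2)) hε'
    choose γ₂ hγ₂ hz₂ hb₂ using hlo
    obtain ⟨G, hG, h2⟩ := asm (p := p) (E := E) A
      (fun l i => if Vis p v E r c κ A l i then γ₂ l i else
        if (A.coeff i).coeff l = 0 then 0 else γ₁ l i)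
      (fun l i => by
        by_cases h : Vis p v E r c κ A l i
        · simp only [if_pos h]
          exact hγ₂ l i
        · simp only [if_neg h]
          split_ifs
          · exact zero_mem _
          · exact hγ₁ l i h)
      (fun l i hq => by
        by_cases h : Vis p v E r c κ A l i
        · simp only [if_pos h]
          exact hz₂ l i hq
        · simp only [if_neg h]
          split_ifs
          · rfl
          · exact hz₁ l i h hq)
    refine ⟨G, hG, ?_, fun l' i' hne => ?_⟩
    · rcases h2 l i with h4 | ⟨h4, _⟩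
      · rw [h4, if_pos hvis]
        refine (hb₂ l i).mono ?_
        have := min_le_left ε (μ₁ / 2)
        nlinarith
      · rw [h4]
        exact RVal.Ge.zero
    · rcases h2 l' i' with h4 | ⟨h4, _⟩
      swap
      · rw [h4]
        exact RVal.Ge.zero
      rw [h4]
      by_cases hv : Vis p v E r c κ A l' i'
      · rw [if_pos hv]
        refine (hb₂ l' i').mono ?_
        have hm := min_le_right ε (μ₁ / 2)
        -- the difference of the weights
        have hkey : l * t + i * t' + μ₁ ≤ (l' : ℝ) * t + i' * t' := by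
          have hDl := hmin l' i' hv
          have hl'0 : (0 : ℝ) ≤ l' := Nat.cast_nonneg l'
          have hi'0 : (0 : ℝ) ≤ i' := Nat.cast_nonneg i'
          rcases Nat.lt_or_ge D (l' + i') with h5 | h5
          · have h6 : (D : ℝ) + 1 ≤ l' + i' := by exact_mod_cast h5
            have h7 : ((l' : ℝ) + i') * t' ≤ (l' : ℝ) * t + i' * t' := by nlinarith
            have h8 : ((D : ℝ) + 1) * t' ≤ ((l' : ℝ) + i') * t' :=
              mul_le_mul_of_nonneg_right h6 ht'.le
            linarith
          · have h6 : l' + i' = D := le_antisymm h5 hDl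
            have h7 : i' ∈ (Finset.range (D + 1)).filter fun i => Vis p v E r c κ A (D - i) i := by
              refine Finset.mem_filter.2 ⟨Finset.mem_range.2 (by omega), ?_⟩
              have : D - i' = l' := by omega
              rw [this]
              exact hv
            have h8 : i' ≤ i := hmax i' h7
            have h9 : i' ≠ i := fun h => hne (by
              have : l' = l := by omega
              rw [this, h])
            have h10 : (i' : ℝ) + 1 ≤ i := by exact_mod_cast lt_of_le_of_ne h8 h9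
            have h11 : (l' : ℝ) + i' = D := by exact_mod_cast h6
            have h12 : (l' : ℝ) * t + i' * t' = D * t - i' * (t - t') := by
              rw [← h11]
              ring
            have h13 : (0 : ℝ) < t - t' := by linarith
            rw [hw, h12]
            nlinarith
        push_cast
        nlinarith
      · rw [if_neg hv]
        by_cases hz : (A.coeff i').coeff l' = 0
        · rw [if_pos hz, hz, zero_pow hp0, sub_zero]
          exact RVal.Ge.zero
        · rw [if_neg hz]
          refine (hb₁ l' i' hv).mono ?_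
          have h5 : (l', i') ∈ F.filter fun x => ¬ Vis p v E r c κ A x.1 x.2 := by
            refine Finset.mem_filter.2 ⟨?_, hv⟩
            by_contra h6
            exact hz (hF l' i' h6)
          have h6 := hgap (l', i') h5
          simp only at h6
          have hl'0 : (0 : ℝ) ≤ l' := Nat.cast_nonneg l'
          have hi'0 : (0 : ℝ) ≤ i' := Nat.cast_nonneg i'
          have h7 : 0 ≤ (l' : ℝ) * t := mul_nonneg hl'0 (by linarith)
          have h8 : 0 ≤ (i' : ℝ) * t' := mul_nonneg hi'0 ht'.le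
          have h9 : l * t + i * t' + μ₁ / 2 ≤ e := by
            have h10 : 0 ≤ (D : ℝ) * t' := mul_nonneg hD0 ht'.le
            nlinarith
          nlinarith

end Asm

end Pool.Agent.TWJ2
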