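import Pool.Agent.Lib.TWJ2.Con1
import Pool.Agent.Lib.TWJ2.Con2

/-!
# TANK W, row J: the constraint, monomials with exponents divisible by `p`

* `P2`: the coefficient of `T ^ D` is responsible, its constant coefficient is far from `p`-th powers;
* `P2.state`: the state, if this remains true at `X`;
* `con_two`: from a monomial `X ^ l T ^ i`, `p` divides `l` and `i`, to `P2`;
* `con0`: a visible monomial of total degree `≤ D₀` gives `q ≤ D₀`.
-/

set_option autoImplicit false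
set_option linter.unusedSectionVars false

open Polynomial

namespace Pool.Agent.TWJ2

open Pool.Agent.H15JM (RVal)
open Pool.Agent.LU1 (adj)
open Pool.Agent.D2P (clI mem_adj_self adj_le)
open Pool.Agent.TW (Full BD Fr HRone LU Dns Ctx kr)
open Pool.Agent.TWM
open Pool.Agent.TWJ (Stt MinS)

universe u

/-! ### The substitution `X = X' + χ T` -/

section Twist

variable {k Ω : Type u} [Field k] [Field Ω] [Algebra k Ω] {v : RVal Ω} {r₀ c lam : ℝ}
  {f g A : Polynomial (Polynomial Ω)} {E : IntermediateField k Ω}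

/-- The substitution as a double sum. -/
theorem sub2_eq (f g A : Polynomial (Polynomial Ω)) : sub2 f g A =
    ∑ i ∈ Finset.range (A.natDegree + 1),
      (∑ j ∈ Finset.range ((A.coeff i).natDegree + 1), C (C ((A.coeff i).coeff j)) * f ^ j) *
        g ^ i := by
  conv_lhs => rw [A.as_sum_range_C_mul_X_pow]
  rw [map_sum]
  refine Finset.sum_congr rfl fun i _ => ?_
  rw [map_mul, map_pow, sub2_X, sub2_C, eval₂_eq_sum_range]
  simp only [RingHom.comp_apply]

/-- The substitution preserves Gauss bounds. -/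
theorem GBt_sub2 (hA : ∀ S, GBt v r₀ c S lam A) (hf : ∀ S, GBt v r₀ c S r₀ f)
    (hg : ∀ S, GBt v r₀ c S c g) (S : ℕ) : GBt v r₀ c S lam (sub2 f g A) := by
  rw [sub2_eq]
  refine GBt.sum _ _ fun i _ => ?_
  have h1 : GBt v r₀ c S (lam - i * c)
      (∑ j ∈ Finset.range ((A.coeff i).natDegree + 1), C (C ((A.coeff i).coeff j)) * f ^ j) := by
    refine GBt.sum _ _ fun j _ => ?_
    have h2 : GBt v r₀ c S (lam - i * c - j * r₀)
        (C (C ((A.coeff i).coeff j)) : Polynomial (Polynomial Ω)) := by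
      refine GBt.C fun n _ => ?_
      rw [coeff_C]
      split_ifs with hn
      · subst hn
        refine (hA j j i le_rfl).mono ?_
        simp only [Nat.cast_zero, zero_mul]
        linarith
      · exact RVal.Ge.zero
    exact (h2.mul ((hf S).pow j)).mono (by linarith)
  exact (h1.mul ((hg S).pow i)).mono (by linarith)

theorem PII_mul {H H' : Polynomial (Polynomial Ω)} (h : PII E H) (h' : PII E H') :
    PII E (H * H') := fun j => by
  rw [coeff_mul]
  exact sum_mem fun x _ => mul_mem (h _) (h' _)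

theorem PII_pow {H : Polynomial (Polynomial Ω)} (h : PII E H) (n : ℕ) : PII E (H ^ n) := by
  induction n with
  | zero =>
    rw [pow_zero]
    intro j
    rw [coeff_one]
    split_ifs
    exacts [one_mem _, zero_mem _]
  | succ n ih =>
    rw [pow_succ]
    exact PII_mul ih h

theorem PII_add {H H' : Polynomial (Polynomial Ω)} (h : PII E H) (h' : PII E H') :
    PII E (H + H') := fun j => by
  rw [coeff_add]
  exact add_mem (h j) (h' j)

theorem PII_sub {H H' : Polynomial (Polynomial Ω)} (h : PII E H) (h' : PII E H') :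
    PII E (H - H') := fun j => by
  rw [coeff_sub]
  exact sub_mem (h j) (h' j)

theorem PII_sum {ι : Type*} (s : Finset ι) (F : ι → Polynomial (Polynomial Ω))
    (h : ∀ i ∈ s, PII E (F i)) : PII E (∑ i ∈ s, F i) := fun j => by
  rw [finsetSum_coeff]
  exact sum_mem fun i hi => h i hi j

theorem PII_C {ψ : Polynomial Ω} (h : ψ ∈ PI E) : PII E (C ψ) := fun j => by
  rw [coeff_C]
  split_ifs
  exacts [h, zero_mem _]

theorem PII_X : PII E (X : Polynomial (Polynomial Ω)) := fun j => by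
  rw [coeff_X]
  split_ifs
  exacts [one_mem _, zero_mem _]

theorem PII_sub2 (hA : PII E A) (hf : PII E f) (hg : PII E g) : PII E (sub2 f g A) := by
  rw [sub2_eq]
  refine PII_sum _ _ fun i _ => PII_mul (PII_sum _ _ fun j _ => PII_mul (PII_C ?_) (PII_pow hf j))
    (PII_pow hg i)
  exact C_mem_PI (hA i j)

/-- The substitution. -/
noncomputable def fT (χ : Ω) : Polynomial (Polynomial Ω) := C X + C (C χ) * X

theorem fT_evalEval (χ x t : Ω) : (fT χ).evalEval x t = x + χ * t := by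
  rw [fT, evalEval_add, evalEval_mul, evalEval_C, evalEval_C, evalEval_X, eval_X, eval_C]

theorem fT_mem {χ : Ω} (hχ : χ ∈ E) : PII E (fT χ) :=
  PII_add (PII_C X_mem_PI) (PII_mul (PII_C (C_mem_PI hχ)) PII_X)

theorem fT_gb {χ : Ω} (hχ : v.Ge (r₀ - c) χ) (S : ℕ) : GBt v r₀ c S r₀ (fT χ) := by
  refine GBt.add (GBt.C fun n _ => ?_) ?_
  · rw [coeff_X]
    split_ifs with hn
    · subst hn
      intro _
      rw [v.map_one]
      simp
    · exact RVal.Ge.zero
  · have h1 : GBt v r₀ c S (r₀ - c) (C (C χ) : Polynomial (Polynomial Ω)) := by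
      refine GBt.C fun n _ => ?_
      rw [coeff_C]
      split_ifs with hn
      · subst hn
        exact hχ.mono (by simp)
      · exact RVal.Ge.zero
    exact (h1.mul GBt.X).mono (by linarith)

/-- Homogeneous of degree `n`. -/
def Hm (n : ℕ) (H : Polynomial (Polynomial Ω)) : Prop :=
  ∀ m j : ℕ, m + j ≠ n → (H.coeff j).coeff m = 0

theorem Hm.mul {n n' : ℕ} {H H' : Polynomial (Polynomial Ω)} (h : Hm n H) (h' : Hm n' H') :
    Hm (n + n') (H * H') := by
  intro m j hne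
  rw [coeff_mul, finsetSum_coeff]
  refine Finset.sum_eq_zero fun x hx => ?_
  rw [coeff_mul]
  refine Finset.sum_eq_zero fun y hy => ?_
  have h1 : x.1 + x.2 = j := by simpa using hx
  have h2 : y.1 + y.2 = m := by simpa using hy
  by_cases h3 : y.1 + x.1 = n
  · rw [h' y.2 x.2 (by omega), mul_zero]
  · rw [h y.1 x.1 h3, zero_mul]

theorem Hm.pow {n : ℕ} {H : Polynomial (Polynomial Ω)} (h : Hm n H) (a : ℕ) :
    Hm (a * n) (H ^ a) := by
  induction a with
  | zero =>
    rw [pow_zero, Nat.zero_mul]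
    intro m j hne
    rw [coeff_one]
    split_ifs with hj
    · rw [coeff_one, if_neg (by omega)]
    · rw [coeff_zero]
  | succ a ih =>
    rw [pow_succ, Nat.succ_mul]
    exact ih.mul h

theorem Hm_CC (α : Ω) : Hm 0 (C (C α) : Polynomial (Polynomial Ω)) := by
  intro m j hne
  rw [coeff_C]
  split_ifs with hj
  · rw [coeff_C, if_neg (by omega)]
  · rw [coeff_zero]

theorem Hm_X : Hm 1 (X : Polynomial (Polynomial Ω)) := by
  intro m j hne
  rw [coeff_X]
  split_ifs with hj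
  · rw [coeff_one, if_neg (by omega)]
  · rw [coeff_zero]

theorem Hm_fT (χ : Ω) : Hm 1 (fT χ) := by
  intro m j hne
  have h1 := (Hm_CC χ).mul Hm_X m j (by omega)
  rw [fT, coeff_add, coeff_add, h1, add_zero, coeff_C]
  split_ifs with hj
  · rw [coeff_X, if_neg (by omega)]
  · rw [coeff_zero]

/-- The monomial after the substitution. -/
theorem cc0_main (α χ : Ω) (l i : ℕ) :
    ((C (C α) * fT χ ^ l * X ^ i).coeff (l + i)).coeff 0 = α * χ ^ l := by
  have h1 : ∀ (H : Polynomial (Polynomial Ω)) (j : ℕ),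
      (H.coeff j).coeff 0 = (H.map constantCoeff).coeff j := fun H j => by
    rw [coeff_map, constantCoeff_apply]
  have h2 : (fT χ).map (constantCoeff (R := Ω)) = C χ * X := by
    rw [fT, Polynomial.map_add, Polynomial.map_mul, Polynomial.map_C, Polynomial.map_C,
      Polynomial.map_X, constantCoeff_apply, constantCoeff_apply, coeff_X_zero, coeff_C_zero,
      C_0, zero_add]
  rw [h1, Polynomial.map_mul, Polynomial.map_mul, Polynomial.map_pow, Polynomial.map_pow, h2,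
    Polynomial.map_C, Polynomial.map_X, constantCoeff_apply, coeff_C_zero, mul_pow, ← C_pow]
  have h3 : C α * (C (χ ^ l) * X ^ l) * X ^ i = C (α * χ ^ l) * X ^ (l + i) := by
    rw [C_mul, pow_add]
    ring
  rw [h3, coeff_C_mul, coeff_X_pow, if_pos rfl, mul_one]

end Twist

/-! ### The structure `P2` -/

section P2

variable {k Ω : Type u} [Field k] [Field Ω] [Algebra k Ω] {v : RVal Ω}

/-- The coefficient of `T ^ D` is responsible, by its constant coefficient, which is far from the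
`p`-th powers; all other monomials are bigger with the margin `μ`. -/
structure P2 (p : ℕ) (v : RVal Ω) (E : IntermediateField k Ω) (X T : Ω) (r₀ c κ μ : ℝ) (D : ℕ)
    (A : Polynomial (Polynomial Ω)) : Prop where
  mem : PII E A
  ltx : r₀ < v X
  ltt : c < v T
  pos : 0 < μ
  lo : ∀ ε : ℝ, 0 < ε → ∃ g ∈ E, v.Ge (κ - ε - D * c) ((A.coeff D).coeff 0 - g ^ p)
  hi : ∀ e : ℝ, 0 < e → ∀ g ∈ E, ¬ v.Ge (κ + e - D * c) ((A.coeff D).coeff 0 - g ^ p)
  oth : ∀ l i : ℕ, (l ≠ 0 ∨ i ≠ D) → v.Ge (κ + μ - l * r₀ - i * c) ((A.coeff i).coeff l)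

variable {p : ℕ} [hp : Fact p.Prime] [CharP Ω p] {E : IntermediateField k Ω} {X T : Ω}
  {r₀ c κ μ : ℝ} {D : ℕ} {A : Polynomial (Polynomial Ω)}

/-- The values of the coefficients at `X`. -/
theorem P2.row (h : P2 p v E X T r₀ c κ μ D A) {i : ℕ} (hi : i ≠ D) :
    v.Ge (κ + μ - i * c) ((A.coeff i).eval X) := by
  have h1 : GB v r₀ (κ + μ - i * c) (A.coeff i) := fun l =>
    (h.oth l i (Or.inr hi)).mono (by linarith)
  exact h1.eval (RVal.Ge.of_le h.ltx.le)

theorem P2.rowD (h : P2 p v E X T r₀ c κ μ D A) :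
    v.Ge (κ + μ - D * c) ((A.coeff D).eval X - (A.coeff D).coeff 0) := by
  have h1 : GB v r₀ (κ + μ - D * c) (A.coeff D - C ((A.coeff D).coeff 0)) := by
    intro l
    rw [coeff_sub, coeff_C]
    split_ifs with hl
    · subst hl
      rw [sub_self]
      exact RVal.Ge.zero
    · rw [sub_zero]
      exact (h.oth l D (Or.inl hl)).mono (by linarith)
  have h2 := h1.eval (RVal.Ge.of_le h.ltx.le)
  rwa [eval_sub, eval_C] at h2

theorem coeff_pow_ite1 (g : Polynomial Ω) (n : ℕ) :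
    (g ^ p).coeff n = if p ∣ n then g.coeff (n / p) ^ p else 0 := by
  rw [← map_frobenius_expand, coeff_map, coeff_expand hp.out.pos]
  split_ifs
  · rfl
  · rw [map_zero]

/-- The slope at `X`. -/
theorem P2.sl (h : P2 p v E X T r₀ c κ μ D A) (hpD : p ∣ D)
    (hfar : ∀ e : ℝ, 0 < e → ∀ g ∈ adj E X,
      ¬ v.Ge (κ + e - D * c) ((A.coeff D).eval X - g ^ p)) :
    SL p v (adj E X) T c κ D (A.map (evalRingHom X)) where
  mem := fun i => by
    rw [coeff_map]
    exact eval_mem_adj (h.mem i) X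
  gt := fun _ => h.ltt
  lo := fun ε hε => by
    obtain ⟨g, hg, h1⟩ := h.lo ε hε
    refine ⟨monomial (D / p) g, fun j => ?_, fun j => ?_⟩
    · rw [coeff_monomial]
      split_ifs
      exacts [(mem_adj_self E X).2 hg, zero_mem _]
    · rw [monomial_pow, Nat.div_mul_cancel hpD, coeff_sub, coeff_map, coe_evalRingHom,
        coeff_monomial]
      split_ifs with hj
      · subst hj
        have h2 : (A.coeff D).eval X - g ^ p =
            ((A.coeff D).coeff 0 - g ^ p) + ((A.coeff D).eval X - (A.coeff D).coeff 0) := by ring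
        rw [h2]
        exact h1.add (h.rowD.mono (by linarith [h.pos]))
      · rw [sub_zero]
        exact (h.row (Ne.symm hj)).mono (by linarith [h.pos])
  hi := fun e he g hg => by
    refine ⟨D, le_rfl, ?_⟩
    rw [coeff_sub, coeff_map, coe_evalRingHom, coeff_pow_ite1, if_pos hpD]
    exact hfar e he _ (hg _)

variable {r n : ℕ} [IsAlgClosed k] [IsAlgClosed Ω] [CharP k p]

/-- **The state**, if the coefficient of `T ^ D` remains far from the `p`-th powers. -/
theorem P2.state (h : Ctx k v r) {K : IntermediateField k Ω} {R : Fr k v r n}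
    (htx : Transcendental R.K X) (htt : Transcendental (adj R.K X) T)
    (hbd : BD p v (adj (adj R.K X) T)) (hcl : K = clI v (adj (adj R.K X) T)) {a : Ω}
    (hrep : ∃ h ∈ K, h ≠ 0 ∧ ∃ g ∈ K, a * h ^ p - g ^ p = A.evalEval X T) (hd : Dns v R.K)
    (hP : P2 p v R.K X T r₀ c κ μ D A) (hpD : p ∣ D)
    (hfar : ∀ e : ℝ, 0 < e → ∀ g ∈ adj R.K X,
      ¬ v.Ge (κ + e - D * c) ((A.coeff D).eval X - g ^ p)) :
    ∃ (F : IntermediateField k Ω) (A' : Polynomial Ω), Dns v F ∧
      Stt p v r (n + 1) K a F T c κ D A' := by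
  obtain ⟨R', hRK, hfg, hfull, htr, hbd', htT, hcl'⟩ :=
    Con.stt_shift p h (f := 0) (zero_mem _) htx htt hbd hcl
  rw [sub_zero] at hRK
  refine ⟨R'.K, A.map (evalRingHom X), fun x y hxy => ?_, ⟨R', rfl⟩, hfg, hfull, htr, hbd', htT,
    hcl', ?_, ?_⟩
  · obtain ⟨e, he, h1⟩ := hd x y hxy
    refine ⟨e, ?_, h1⟩
    rw [hRK]
    exact (mem_adj_self R.K X).2 he
  · obtain ⟨h₁, hh, hh0, g, hg, h2⟩ := hrep
    exact ⟨h₁, hh, hh0, g, hg, by rw [h2, map_evalRingHom_eval]⟩
  · rw [hRK]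
    exact hP.sl hpD hfar

end P2

/-! ### From a monomial with both exponents divisible by `p` to `P2` -/

section Two

variable {k Ω : Type u} [Field k] [Field Ω] [Algebra k Ω] {v : RVal Ω} {p : ℕ} [hp : Fact p.Prime]
  [CharP Ω p] {E : IntermediateField k Ω}

theorem con_two {A : Polynomial (Polynomial Ω)} {x T χ : Ω} {r₁ c₁ κ₁ μ : ℝ} {l i : ℕ}
    (hA : PII E A) (hpl : p ∣ l) (hpi : p ∣ i) (hX : r₁ < v x) (hT : c₁ < v T) (hμ : 0 < μ)
    (hχ : χ ∈ E) (hχ0 : χ ≠ 0) (hχv : v χ = r₁ - c₁) (hvis : Vis p v E r₁ c₁ κ₁ A l i)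
    (hG : ∀ ε : ℝ, 0 < ε → ∃ G, PII E G ∧
        v.Ge (κ₁ - ε - l * r₁ - i * c₁) (((A - G ^ p).coeff i).coeff l) ∧
        ∀ l' i' : ℕ, (l', i') ≠ (l, i) →
          v.Ge (κ₁ + μ - l' * r₁ - i' * c₁) (((A - G ^ p).coeff i').coeff l'))
    (hX0 : x ≠ 0) (hT0 : T ≠ 0) (hX' : x - χ * T ≠ 0) :
    ∃ (A₂ G : Polynomial (Polynomial Ω)) (r₂ c₂ κ₂ μ₂ : ℝ), PII E G ∧
      P2 p v E (x - χ * T) T r₂ c₂ κ₂ μ₂ (l + i) A₂ ∧
      A₂.evalEval (x - χ * T) T = (A - G ^ p).evalEval x T := by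
  have hp0 : p ≠ 0 := hp.out.ne_zero
  -- the small number
  obtain ⟨τ, hτ, hτ1, hτ2, hτ3⟩ : ∃ τ : ℝ, 0 < τ ∧ 4 * τ ≤ v x - r₁ ∧ 4 * τ ≤ v T - c₁ ∧
      (((l + i : ℕ) : ℝ) + 1) * τ ≤ μ := by
    have hD1 : (0 : ℝ) < (((l + i : ℕ) : ℝ) + 1) := by positivity
    refine ⟨min ((v x - r₁) / 4) (min ((v T - c₁) / 4) (μ / (((l + i : ℕ) : ℝ) + 1))),
      ?_, ?_, ?_, ?_⟩
    · exact lt_min (by linarith) (lt_min (by linarith) (div_pos hμ hD1))
    · have := min_le_left ((v x - r₁) / 4)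
        (min ((v T - c₁) / 4) (μ / (((l + i : ℕ) : ℝ) + 1)))
      linarith
    · have := (min_le_right ((v x - r₁) / 4)
        (min ((v T - c₁) / 4) (μ / (((l + i : ℕ) : ℝ) + 1)))).trans (min_le_left _ _)
      linarith
    · have := (min_le_right ((v x - r₁) / 4)
        (min ((v T - c₁) / 4) (μ / (((l + i : ℕ) : ℝ) + 1)))).trans (min_le_right _ _)
      calc _ ≤ (((l + i : ℕ) : ℝ) + 1) * (μ / (((l + i : ℕ) : ℝ) + 1)) :=
            mul_le_mul_of_nonneg_left this hD1.le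
        _ = μ := by field_simp
  obtain ⟨G, hGm, hGα, hGo⟩ := hG (τ / 2) (by linarith)
  set D := l + i with hD
  set B₀ := A - G ^ p with hB₀
  have hB₀m : PII E B₀ := PII_sub hA (PII_pow hGm p)
  set α := (B₀.coeff i).coeff l with hα
  set γ := (G.coeff (i / p)).coeff (l / p) with hγ
  have hγm : γ ∈ E := hGm _ _
  have hαγ : α = (A.coeff i).coeff l - γ ^ p := by
    rw [hα, hB₀, coeff_sub, coeff_sub, cc_pow, if_pos ⟨hpl, hpi⟩]
  -- the decomposition
  set Mn : Polynomial (Polynomial Ω) := C (C α * X ^ l) * X ^ i with hMn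
  set B := B₀ - Mn with hB
  have hMc : ∀ l' i' : ℕ, (Mn.coeff i').coeff l' = if (l', i') = (l, i) then α else 0 := by
    intro l' i'
    rw [hMn, coeff_C_mul, coeff_X_pow]
    by_cases hi : i' = i
    · rw [if_pos hi, mul_one, coeff_C_mul, coeff_X_pow]
      by_cases hl : l' = l
      · rw [if_pos hl, mul_one, if_pos (by rw [hl, hi])]
      · rw [if_neg hl, mul_zero, if_neg (fun h => hl (Prod.mk.inj h).1)]
    · rw [if_neg hi, mul_zero, coeff_zero, if_neg (fun h => hi (Prod.mk.inj h).2)]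
  have hBgb : ∀ S, GBt v r₁ c₁ S (κ₁ + μ) B := by
    intro S l' i' _
    rw [hB, coeff_sub, coeff_sub, hMc]
    by_cases hne : (l', i') = (l, i)
    · rw [if_pos hne]
      obtain ⟨h1, h2⟩ := Prod.mk.inj hne
      rw [h1, h2, ← hα, sub_self]
      exact RVal.Ge.zero
    · rw [if_neg hne, sub_zero]
      exact hGo l' i' hne
  have hχG : v.Ge (r₁ - c₁) χ := RVal.Ge.of_le hχv.ge
  -- the new polynomial
  set A₂ := sub2 (fT χ) X B₀ with hA₂
  have hdec : A₂ = C (C α) * fT χ ^ l * X ^ i + sub2 (fT χ) X B := by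
    have h1 : sub2 (fT χ) X Mn = C (C α) * fT χ ^ l * X ^ i := by
      rw [hMn, map_mul, map_pow, sub2_X, sub2_C, eval₂_mul, eval₂_C, eval₂_pow, eval₂_X]
      simp only [RingHom.comp_apply]
    have h4 : Mn + B = B₀ := by
      rw [hB]
      ring
    rw [← h1, ← map_add, h4]
  have hB2 : ∀ S, GBt v r₁ c₁ S (κ₁ + μ) (sub2 (fT χ) X B) := fun S =>
    GBt_sub2 hBgb (fT_gb hχG) (fun S => GBt.X) S
  have hM2 : ∀ S, GBt v r₁ c₁ S (κ₁ - τ / 2) (C (C α) * fT χ ^ l * X ^ i) := by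
    intro S
    have h1 : GBt v r₁ c₁ S (κ₁ - τ / 2 - l * r₁ - i * c₁)
        (C (C α) : Polynomial (Polynomial Ω)) := by
      refine GBt.C fun m _ => ?_
      rw [coeff_C]
      split_ifs with hm
      · subst hm
        exact hGα.mono (by simp)
      · exact RVal.Ge.zero
    exact ((h1.mul ((fT_gb hχG S).pow l)).mul (GBt.X.pow i)).mono (by linarith)
  have hMh : Hm D (C (C α) * fT χ ^ l * X ^ i : Polynomial (Polynomial Ω)) := by
    have h1 := ((Hm_CC α).mul ((Hm_fT χ).pow l)).mul ((Hm_X (Ω := Ω)).pow i)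
    have h2 : 0 + l * 1 + i * 1 = D := by omega
    rwa [h2] at h1
  set b₀ := ((sub2 (fT χ) X B).coeff D).coeff 0 with hb₀
  have hb₀v : v.Ge (κ₁ + μ - D * c₁) b₀ := by
    refine (hB2 0 0 D le_rfl).mono ?_
    simp
  have hf₀ : (A₂.coeff D).coeff 0 = α * χ ^ l + b₀ := by
    rw [hdec, coeff_add, coeff_add, hD, cc0_main]
  -- powers of `χ`
  have hχl : (χ ^ (l / p)) ^ p = χ ^ l := by
    rw [← pow_mul, Nat.div_mul_cancel hpl]
  have hχlv : v (χ ^ l) = l * (r₁ - c₁) := by rw [v.map_pow hχ0, hχv]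
  have hχl0 : χ ^ l ≠ 0 := pow_ne_zero l hχ0
  have hcast : (D : ℝ) = l + i := by rw [hD]; push_cast; ring
  refine ⟨A₂, G, r₁ + 2 * τ, c₁ + τ, κ₁ + D * τ, τ / 2, hGm,
    ⟨PII_sub2 hB₀m (fT_mem hχ) PII_X, ?_, by linarith, by linarith, ?_, ?_, ?_⟩, ?_⟩
  · -- the value of the new variable
    have h1 : v.Ge (r₁ + 4 * τ) (x - χ * T) := by
      refine RVal.Ge.sub (RVal.Ge.of_le (by linarith)) (RVal.Ge.of_le ?_)
      rw [v.map_mul hχ0 hT0, hχv]
      linarith
    have h2 := h1 hX'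
    linarith
  · intro ε hε
    obtain ⟨G₁, hG₁m, hG₁α, _⟩ := hG ε hε
    rw [coeff_sub, coeff_sub, cc_pow, if_pos ⟨hpl, hpi⟩] at hG₁α
    set g₁ := (G₁.coeff (i / p)).coeff (l / p) with hg₁
    refine ⟨(g₁ - γ) * χ ^ (l / p), mul_mem (sub_mem (hG₁m _ _) hγm) (pow_mem hχ _), ?_⟩
    have h1 : (A₂.coeff D).coeff 0 - ((g₁ - γ) * χ ^ (l / p)) ^ p =
        ((A.coeff i).coeff l - g₁ ^ p) * χ ^ l + b₀ := by
      rw [hf₀, hαγ, mul_pow, hχl, sub_pow_char]
      ring
    rw [h1]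
    refine RVal.Ge.add ?_ (hb₀v.mono ?_)
    · refine (hG₁α.mul (RVal.Ge.of_le hχlv.ge)).mono ?_
      rw [hcast]
      nlinarith
    · nlinarith
  · intro e he g hg h1
    have hmin : 0 < min e μ := lt_min he hμ
    refine hvis (min e μ) hmin (γ + g / χ ^ (l / p))
      (add_mem hγm (div_mem hg (pow_mem hχ _))) (fun h => absurd ⟨hpl, hpi⟩ h) ?_
    have h2 : (A.coeff i).coeff l - (γ + g / χ ^ (l / p)) ^ p =
        ((A₂.coeff D).coeff 0 - g ^ p - b₀) * (χ ^ l)⁻¹ := by
      rw [hf₀, hαγ, add_pow_char, div_pow, hχl]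
      field_simp
      ring
    rw [h2]
    have h3 : v.Ge (κ₁ + min e μ - D * c₁) ((A₂.coeff D).coeff 0 - g ^ p - b₀) := by
      refine RVal.Ge.sub (h1.mono ?_) (hb₀v.mono ?_)
      · have := min_le_left e μ
        nlinarith
      · have := min_le_right e μ
        linarith
    refine (h3.mul (RVal.Ge.of_le (v.map_inv hχl0).ge)).mono ?_
    rw [hχlv, hcast]
    nlinarith
  · intro m j hne
    have h1 := hM2 m m j le_rfl
    have h2 := hB2 m m j le_rfl
    rw [hdec, coeff_add, coeff_add]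
    have hm0 : (0 : ℝ) ≤ m := Nat.cast_nonneg m
    have hj0 : (0 : ℝ) ≤ j := Nat.cast_nonneg j
    have hmτ : 0 ≤ (m : ℝ) * τ := mul_nonneg hm0 hτ.le
    have hjτ : 0 ≤ (j : ℝ) * τ := mul_nonneg hj0 hτ.le
    refine RVal.Ge.add ?_ (h2.mono ?_)
    · by_cases hmj : m + j = D
      · have hm1 : 1 ≤ m := by
          rcases hne with h3 | h3
          · omega
          · omega
        refine h1.mono ?_
        have h3 : (1 : ℝ) ≤ m := by exact_mod_cast hm1
        have h4 : (m : ℝ) + j = D := by exact_mod_cast hmj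
        have h5 : τ ≤ m * τ := by nlinarith
        rw [← h4]
        nlinarith
      · rw [hMh m j hmj]
        exact RVal.Ge.zero
    · have h5 : ((D : ℝ) + 1) * τ = D * τ + τ := by ring
      nlinarith
  · rw [hA₂, sub2_evalEval, fT_evalEval, evalEval_X, sub_add_cancel]

end Two

/-! ### The constraint -/

section Main

variable {k Ω : Type u} [Field k] [Field Ω] [Algebra k Ω] {v : RVal Ω} {r n : ℕ}
  [IsAlgClosed k] [IsAlgClosed Ω]

/-- The values of polynomials in two variables. -/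
theorem evalEval_mem_adj {E : IntermediateField k Ω} {G : Polynomial (Polynomial Ω)} (hG : PII E G)
    (x T : Ω) : G.evalEval x T ∈ adj (adj E x) T := by
  rw [← map_evalRingHom_eval]
  exact eval_mem_adj (fun j => by
    rw [coeff_map]
    exact eval_mem_adj (hG j) x) T

/-- Subtraction of a `p`-th power. -/
theorem rep_sub_ex {p : ℕ} [Fact p.Prime] [CharP Ω p] {K E : IntermediateField k Ω} {x T a : Ω}
    {A G : Polynomial (Polynomial Ω)} (hcl : K = clI v (adj (adj E x) T)) (hG : PII E G)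
    (hrep : ∃ h ∈ K, h ≠ 0 ∧ ∃ g ∈ K, a * h ^ p - g ^ p = A.evalEval x T) :
    ∃ h ∈ K, h ≠ 0 ∧ ∃ g ∈ K, a * h ^ p - g ^ p = (A - G ^ p).evalEval x T := by
  obtain ⟨h₁, hh, hh0, g, hg, h2⟩ := hrep
  refine ⟨h₁, hh, hh0, g + G.evalEval x T, add_mem hg ?_, ?_⟩
  · rw [hcl]
    exact le_clI _ (evalEval_mem_adj hG x T)
  · rw [evalEval_sub, evalEval_pow, ← h2, add_pow_char]
    ring

/-- **THE CONSTRAINT at level `0`**, with the case of a later distance drop as hypothesis: a visible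
monomial of total degree `≤ D₀` gives `q ≤ D₀`. -/
theorem con0_of (p : ℕ) [Fact p.Prime] [CharP k p] [CharP Ω p] (h : Ctx k v r)
    {K : IntermediateField k Ω} {R : Fr k v r n} {X T : Ω} (htx : Transcendental R.K X)
    (htt : Transcendental (adj R.K X) T) (hbd : BD p v (adj (adj R.K X) T))
    (hcl : K = clI v (adj (adj R.K X) T)) {a : Ω} {A : Polynomial (Polynomial Ω)}
    (hA : PII R.K A)
    (hrep : ∃ h ∈ K, h ≠ 0 ∧ ∃ g ∈ K, a * h ^ p - g ^ p = A.evalEval X T) (hd : Dns v R.K)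
    {r₀ c κ : ℝ} {D₀ q : ℕ} (hX : r₀ < v X) (hT : c < v T)
    (lo : ∀ ε : ℝ, 0 < ε → ∃ G, PII R.K G ∧
      ∀ l i : ℕ, v.Ge (κ - ε - l * r₀ - i * c) (((A - G ^ p).coeff i).coeff l))
    (hi : ∀ e : ℝ, 0 < e → ∀ G, PII R.K G → ∃ l i : ℕ, l + i ≤ D₀ ∧
      ¬ v.Ge (κ + e - l * r₀ - i * c) (((A - G ^ p).coeff i).coeff l))
    (hmin : MinS p v r (n + 1) K a q) (hpq : p ∣ q)
    (hc2 : ∀ (X' : Ω) (A' : Polynomial (Polynomial Ω)) (r' c' κ' μ' : ℝ) (D : ℕ),
      Transcendental R.K X' → Transcendental (adj R.K X') T → BD p v (adj (adj R.K X') T) →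
      K = clI v (adj (adj R.K X') T) →
      (∃ h ∈ K, h ≠ 0 ∧ ∃ g ∈ K, a * h ^ p - g ^ p = A'.evalEval X' T) →
      P2 p v R.K X' T r' c' κ' μ' D A' → p ∣ D →
      (∃ e : ℝ, 0 < e ∧ ∃ g ∈ adj R.K X', v.Ge (κ' + e - D * c') ((A'.coeff D).eval X' - g ^ p)) →
      q ≤ D) : q ≤ D₀ := by
  have hp0 : p ≠ 0 := (Fact.out : p.Prime).ne_zero
  obtain ⟨r₁, c₁, κ₁, μ, l, i, χ, hμ, hr₁, hr₂, hc₁, hc₂, hli, hχ, hχ0, hχv, hvis, hG⟩ :=
    sing hX hT hd lo hi
  refine le_trans ?_ hli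
  by_cases hpp : p ∣ l ∧ p ∣ i
  · have hX0 : X ≠ 0 := fun h1 => htx (by rw [h1]; exact isAlgebraic_zero)
    have hT0 : T ≠ 0 := fun h1 => htt (by rw [h1]; exact isAlgebraic_zero)
    have hf : χ * T ∈ adj R.K T := mul_mem ((mem_adj_self R.K T).2 hχ) (mem_adj_self R.K T).1
    -- the new flag
    have hx1 : Transcendental (adj R.K T) X := tr_swap htx htt
    have hTt : Transcendental R.K T := fun h1 =>
      htt (D2P.isAlgebraic_mono (fun a ha => (mem_adj_self R.K X).2 ha) h1)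
    have hx2 : Transcendental (adj R.K T) (X - χ * T) := by
      intro h1
      refine hx1 ?_
      have h2 := h1.add (isAlgebraic_algebraMap (R := adj R.K T) (⟨χ * T, hf⟩ : adj R.K T))
      have h3 : X - χ * T + algebraMap (adj R.K T) Ω ⟨χ * T, hf⟩ = X := sub_add_cancel X _
      rwa [h3] at h2
    have hx3 : Transcendental R.K (X - χ * T) := fun h1 =>
      hx2 (D2P.isAlgebraic_mono (fun a ha => (mem_adj_self R.K T).2 ha) h1)
    have hx0 : X - χ * T ≠ 0 := fun h1 => hx3 (by rw [h1]; exact isAlgebraic_zero)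
    have hT1 : Transcendental (adj R.K (X - χ * T)) T := tr_swap hTt hx2
    have heq : adj (adj R.K (X - χ * T)) T = adj (adj R.K X) T := by
      rw [adj_adj_swap hf, ← adj_adj_swap (E := R.K) (y := T) (z := X) (f := 0) (zero_mem _),
        sub_zero]
    obtain ⟨A₂, G, r₂, c₂, κ₂, μ₂, hGm, hP, hev⟩ := con_two hA hpp.1 hpp.2 hr₂ hc₂ hμ hχ hχ0 hχv
      hvis hG hX0 hT0 hx0
    have hrep₂ : ∃ h ∈ K, h ≠ 0 ∧ ∃ g ∈ K,
        a * h ^ p - g ^ p = A₂.evalEval (X - χ * T) T := by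
      rw [hev]
      exact rep_sub_ex hcl hGm hrep
    have hbd₂ : BD p v (adj (adj R.K (X - χ * T)) T) := by rwa [heq]
    have hcl₂ : K = clI v (adj (adj R.K (X - χ * T)) T) := by rwa [heq]
    have hpD : p ∣ l + i := dvd_add hpp.1 hpp.2
    by_cases hfar : ∀ e : ℝ, 0 < e → ∀ g ∈ adj R.K (X - χ * T),
        ¬ v.Ge (κ₂ + e - (l + i : ℕ) * c₂) ((A₂.coeff (l + i)).eval (X - χ * T) - g ^ p)
    · obtain ⟨F, A', -, hs⟩ := hP.state h hx3 hT1 hbd₂ hcl₂ hrep₂ hd hpD hfar
      exact hmin _ _ _ _ _ _ hs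
    · refine hc2 _ _ _ _ _ _ _ hx3 hT1 hbd₂ hcl₂ hrep₂ hP hpD ?_
      by_contra hno
      exact hfar fun e he g hg h1 => hno ⟨e, he, g, hg, h1⟩
  · obtain ⟨G, hGm, -, hGo⟩ := hG 1 one_pos
    have hcc : ∀ G' : Polynomial (Polynomial Ω),
        ((A - G' ^ p).coeff i).coeff l = (A.coeff i).coeff l := fun G' => by
      rw [coeff_sub, coeff_sub, cc_pow, if_neg hpp, sub_zero]
    have hge : ∀ ε : ℝ, 0 < ε → v.Ge (κ₁ - ε - l * r₁ - i * c₁) ((A.coeff i).coeff l) := by
      intro ε hε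
      obtain ⟨G', -, h1, -⟩ := hG ε hε
      rwa [hcc] at h1
    have hng : ∀ e : ℝ, 0 < e → ¬ v.Ge (κ₁ + e - l * r₁ - i * c₁) ((A.coeff i).coeff l) := by
      intro e he h1
      refine hvis e he 0 (zero_mem _) (fun _ => rfl) ?_
      rwa [zero_pow hp0, sub_zero]
    have hne : (A.coeff i).coeff l ≠ 0 := fun h1 => hng 1 one_pos (by
      rw [h1]
      exact RVal.Ge.zero)
    have hval : v ((A.coeff i).coeff l) + l * r₁ + i * c₁ = κ₁ := by
      refine le_antisymm (le_of_forall_pos_le_add fun e he => ?_)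
        (le_of_forall_pos_le_add fun e he => ?_)
      · by_contra h1
        push Not at h1
        exact hng e he (RVal.Ge.of_le (by linarith))
      · have := hge e he hne
        linarith
    have hP : Con.P1 v R.K X T r₁ c₁ κ₁ μ l i (A - G ^ p) := by
      refine ⟨PII_sub hA (PII_pow hGm p), hr₂, hc₂, hμ, ?_, ?_, fun l' i' hne' => ?_⟩
      · rwa [hcc]
      · rwa [hcc]
      · refine hGo l' i' fun h1 => ?_
        obtain ⟨h2, h3⟩ := Prod.mk.inj h1
        rcases hne' with h4 | h4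
        exacts [h4 h2, h4 h3]
    exact hP.le p h htx htt hbd hcl (rep_sub_ex hcl hGm hrep) hd hpp hmin hpq

end Main

end Pool.Agent.TWJ2
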