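import Pool.Agent.Lib.TWJ2.Defs
import Pool.Agent.Lib.TWM.S3a

/-!
# TANK W, ROW J, J.1c: calculus of Gauss bounds at a level
-/

set_option autoImplicit false

open Polynomial

namespace Pool.Agent.TWJ2

open Pool.Agent.H15JM (RVal)
open Pool.Agent.LU1 (adj)
open Pool.Agent.D2P (clI)
open Pool.Agent.TW (Full BD Fr HRone LU valG Dns Ctx)
open Pool.Agent.TWM (SL MS PI PII TL Gt GB CompleteV)

universe u

/-! ### Calculus of Gauss bounds at a level -/

section Cal

variable {Ω : Type u} [Field Ω] {v : RVal Ω} {y : Ω} {b c lam lam' : ℝ}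
  {P Q : Polynomial (Polynomial Ω)}

theorem GBL.zero : GBL v y b c lam 0 := fun i => by
  rw [coeff_zero, map_zero]
  exact GB.zero

theorem GBL.add (hP : GBL v y b c lam P) (hQ : GBL v y b c lam Q) : GBL v y b c lam (P + Q) :=
  fun i => by
  rw [coeff_add, map_add]
  exact (hP i).add (hQ i)

theorem GBL.neg (hP : GBL v y b c lam P) : GBL v y b c lam (-P) := fun i => by
  rw [coeff_neg, map_neg]
  exact (hP i).neg

theorem GBL.sub (hP : GBL v y b c lam P) (hQ : GBL v y b c lam Q) : GBL v y b c lam (P - Q) :=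
  fun i => by
  rw [coeff_sub, map_sub]
  exact (hP i).sub (hQ i)

theorem GBL.mono (hP : GBL v y b c lam P) (h : lam' ≤ lam) : GBL v y b c lam' P := fun i =>
  (hP i).mono (by linarith)

theorem GBL.mul (hP : GBL v y b c lam P) (hQ : GBL v y b c lam' Q) :
    GBL v y b c (lam + lam') (P * Q) := by
  intro i
  rw [coeff_mul, map_sum]
  refine GB.sum _ _ fun x hx => ?_
  have hx' : x.1 + x.2 = i := by simpa using hx
  rw [taylor_mul]
  refine (GB.mul (hP x.1) (hQ x.2)).mono ?_
  rw [← hx']
  push_cast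
  linarith

theorem GBL.C {f : Polynomial Ω} (hf : GB v b lam (taylor y f)) :
    GBL v y b c lam (Polynomial.C f) := by
  intro i
  rw [coeff_C]
  split_ifs with h
  · subst h
    refine hf.mono ?_
    simp
  · rw [map_zero]
    exact GB.zero

theorem GBL.X : GBL v y b c c (Polynomial.X : Polynomial (Polynomial Ω)) := by
  intro i
  rw [coeff_X]
  split_ifs with h
  · subst h
    rw [taylor_one]
    refine GB.one.mono ?_
    simp
  · rw [map_zero]
    exact GB.zero

theorem GBL.one : GBL v y b c 0 (1 : Polynomial (Polynomial Ω)) := by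
  rw [← C_1]
  refine GBL.C ?_
  rw [taylor_one]
  exact GB.one

theorem GBL.pow (hP : GBL v y b c lam P) (n : ℕ) : GBL v y b c (n * lam) (P ^ n) := by
  induction n with
  | zero =>
    rw [pow_zero, Nat.cast_zero, zero_mul]
    exact GBL.one
  | succ n ih =>
    rw [pow_succ]
    exact (ih.mul hP).mono (by push_cast; linarith)

theorem GBL.sum {ι : Type*} (S : Finset ι) (F : ι → Polynomial (Polynomial Ω))
    (hF : ∀ i ∈ S, GBL v y b c lam (F i)) : GBL v y b c lam (∑ i ∈ S, F i) := fun m => by
  rw [finsetSum_coeff, map_sum]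
  exact GB.sum _ _ fun i hi => hF i hi m

theorem GBL.of_eps (h : ∀ ε : ℝ, 0 < ε → GBL v y b c (lam - ε) P) : GBL v y b c lam P := fun m =>
  GB.of_eps fun ε hε => (h ε hε m).mono (by linarith)

/-- A polynomial from its coefficients. -/
theorem eq_sum_C_mul (P : Polynomial (Polynomial Ω)) :
    P = ∑ i ∈ Finset.range (P.natDegree + 1), Polynomial.C (P.coeff i) * Polynomial.X ^ i := by
  conv_lhs => rw [P.as_sum_range_C_mul_X_pow]

theorem taylor_eq_sum_C_mul (θ : Polynomial Ω) (P : Polynomial (Polynomial Ω)) :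
    taylor θ P = ∑ i ∈ Finset.range (P.natDegree + 1),
      Polynomial.C (P.coeff i) * (Polynomial.X + Polynomial.C θ) ^ i := by
  rw [taylor_apply, comp, eval₂_eq_sum_range]

/-- Change of the centre of the outer variable. -/
theorem GBL.recentre {θ : Polynomial Ω} (hθ : GB v b c (taylor y θ)) (hP : GBL v y b c lam P) :
    GBL v y b c lam (taylor θ P) := by
  rw [taylor_eq_sum_C_mul]
  refine GBL.sum _ _ fun i _ => ?_
  have h1 : GBL v y b c c (Polynomial.X + Polynomial.C θ) := GBL.X.add (GBL.C hθ)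
  exact ((GBL.C (hP i)).mul (h1.pow i)).mono (by linarith)

theorem GBL.pow_sub {θ : Polynomial Ω} {δ : ℝ} (hδ : 0 ≤ δ)
    (hθ : GB v b (c + δ) (taylor y θ)) (i : ℕ) :
    GBL v y b c (i * c + δ)
      ((Polynomial.X + Polynomial.C θ) ^ i - (Polynomial.X : Polynomial (Polynomial Ω)) ^ i) := by
  have h1 : GBL v y b c c (Polynomial.X + Polynomial.C θ) :=
    GBL.X.add (GBL.C (hθ.mono (by linarith)))
  induction i with
  | zero =>
    rw [pow_zero, pow_zero, sub_self]
    exact GBL.zero
  | succ i ih =>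
    have h2 : (Polynomial.X + Polynomial.C θ) ^ (i + 1) -
        (Polynomial.X : Polynomial (Polynomial Ω)) ^ (i + 1) =
        (Polynomial.X + Polynomial.C θ) * ((Polynomial.X + Polynomial.C θ) ^ i -
          Polynomial.X ^ i) + Polynomial.C θ * Polynomial.X ^ i := by ring
    rw [h2]
    refine ((h1.mul ih).mono ?_).add (((GBL.C hθ).mul (GBL.X.pow i)).mono ?_)
    · push_cast
      linarith
    · push_cast
      linarith

/-- The difference after a change of centre by a smaller polynomial. -/
theorem GBL.recentre_sub {θ : Polynomial Ω} {δ : ℝ} (hδ : 0 ≤ δ)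
    (hθ : GB v b (c + δ) (taylor y θ)) (hP : GBL v y b c lam P) :
    GBL v y b c (lam + δ) (taylor θ P - P) := by
  have h1 : taylor θ P - P = ∑ i ∈ Finset.range (P.natDegree + 1),
      Polynomial.C (P.coeff i) * ((Polynomial.X + Polynomial.C θ) ^ i - Polynomial.X ^ i) := by
    have h2 : taylor θ P - P = taylor θ P - ∑ i ∈ Finset.range (P.natDegree + 1),
        Polynomial.C (P.coeff i) * Polynomial.X ^ i := by rw [← eq_sum_C_mul P]
    rw [h2, taylor_eq_sum_C_mul, ← Finset.sum_sub_distrib]
    exact Finset.sum_congr rfl fun i _ => (mul_sub _ _ _).symm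
  rw [h1]
  refine GBL.sum _ _ fun i _ => ?_
  exact ((GBL.C (hP i)).mul (GBL.pow_sub hδ hθ i)).mono (by linarith)

end Cal

end Pool.Agent.TWJ2
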