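import Pool.Agent.Lib.TWJ2.Soft1
import Pool.Agent.Lib.TWJ2.Gbl

/-!
# TANK W, ROW J, SOFT J: the constraint in coefficients

* `gbl_of_DI`, `DI_of_gbl`: the Gauss value modulo `p`-th powers of a polynomial in a second
  variable, coefficient by coefficient;
* `CN`: the constraint in the form with levels and two variables; `con_of_CN`.
-/

set_option autoImplicit false

open Polynomial

namespace Pool.Agent.TWJ2.Soft

open Pool.Agent.H15JM (RVal)
open Pool.Agent.TWM (PI PII Gt GB)

universe u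

variable {k Ω : Type u} [Field k] [Field Ω] [Algebra k Ω]
  {p q : ℕ} {v : RVal Ω} {N : IntermediateField k Ω} {y z : Ω} {b c κ : ℝ}
  {B G A : Polynomial (Polynomial Ω)}

theorem coeff_pow_p [hp : Fact p.Prime] [CharP Ω p] (G : Polynomial (Polynomial Ω)) (n : ℕ) :
    (G ^ p).coeff n = if p ∣ n then G.coeff (n / p) ^ p else 0 := by
  have hp0 : 0 < p := hp.out.pos
  rw [← map_frobenius_expand (p := p), coeff_map, coeff_expand hp0]
  split_ifs
  · rfl
  · exact _root_.map_zero _

/-- From two variables to the coefficients. -/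
theorem DI_of_gbl [hp : Fact p.Prime] [CharP Ω p]
    (h : ∀ ε : ℝ, 0 < ε → ∃ G, PII N G ∧ GBL v y b c (κ - ε) (B - G ^ p)) (i : ℕ) :
    DI p v N y i b (κ - i * c) (B.coeff i) := by
  constructor
  · rintro hi ε hε
    obtain ⟨G, hG, h1⟩ := h ε hε
    refine ⟨G.coeff (i / p), hG _, ?_⟩
    have h2 := h1 i
    rw [coeff_sub, coeff_pow_p, if_pos hi] at h2
    exact TWM.GB.mono h2 (by linarith)
  · intro hi m h0
    refine le_of_forall_pos_le_add fun ε hε => ?_
    obtain ⟨G, hG, h1⟩ := h ε hε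
    have h2 := h1 i
    rw [coeff_sub, coeff_pow_p, if_neg hi, sub_zero] at h2
    have h3 := h2 m h0
    linarith

/-- From the coefficients to two variables. -/
theorem gbl_of_DI [hp : Fact p.Prime] [CharP Ω p]
    (h : ∀ i : ℕ, DI p v N y i b (κ - i * c) (B.coeff i)) (ε : ℝ) (hε : 0 < ε) :
    ∃ G, PII N G ∧ GBL v y b c (κ - ε) (B - G ^ p) := by
  classical
  have hp0 : 0 < p := hp.out.pos
  have h1 : ∀ j : ℕ, ∃ g ∈ PI N, GB v b (κ - (p * j : ℕ) * c - ε)
      (taylor y (B.coeff (p * j) - g ^ p)) := fun j => (h (p * j)).1 (Dvd.intro _ rfl) ε hε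
  choose g hg hgb using h1
  set M := B.natDegree with hM
  refine ⟨∑ j ∈ Finset.range (M + 1), monomial j (g j), fun i => ?_, fun i => ?_⟩
  · rw [finsetSum_coeff]
    refine sum_mem fun j _ => ?_
    rw [coeff_monomial]
    split_ifs
    exacts [hg j, zero_mem _]
  · have hco : ∀ n : ℕ, (∑ j ∈ Finset.range (M + 1), monomial j (g j)).coeff n =
        if n < M + 1 then g n else 0 := by
      intro n
      rw [finsetSum_coeff]
      simp only [coeff_monomial]
      rw [Finset.sum_ite_eq' (Finset.range (M + 1)) n g]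
      simp only [Finset.mem_range]
    rw [coeff_sub, coeff_pow_p]
    by_cases hi : p ∣ i
    · obtain ⟨j, rfl⟩ := hi
      rw [if_pos (Dvd.intro _ rfl), Nat.mul_div_cancel_left _ hp0, hco]
      split_ifs with hj
      · exact TWM.GB.mono (hgb j) (by linarith)
      · rw [coeff_eq_zero_of_natDegree_lt, zero_pow hp.out.ne_zero, sub_zero, map_zero]
        · exact TWM.GB.zero
        · have h2 : j ≤ p * j := Nat.le_mul_of_pos_left _ hp0
          omega
    · rw [if_neg hi, sub_zero]
      exact TWM.GB.mono ((h i).2 hi) (by linarith)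

/-- The constraint, in the form with levels and two variables. -/
def CN (p q : ℕ) (v : RVal Ω) (N : IntermediateField k Ω) (y z : Ω)
    (A : Polynomial (Polynomial Ω)) : Prop :=
  ∀ (b w c κ : ℝ) (φ θ : Polynomial Ω), b < w → φ ∈ PI N → θ ∈ PI N →
    (∀ x : ℝ, b < x → x ≤ w → Lev v N y x φ (gval v y x φ)) →
    Gt v (c + (gval v y w φ - gval v y b φ)) (z - θ.eval y) →
    (∀ ε : ℝ, 0 < ε → ∃ G, PII N G ∧ GBL v y b c (κ - ε) (taylor θ A - G ^ p)) →
    ∀ ε : ℝ, 0 < ε → ∃ G, PII N G ∧ GBL v y w (c + (gval v y w φ - gval v y b φ))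
      (κ + q * (gval v y w φ - gval v y b φ) - ε) (taylor θ A - G ^ p)

/-- **The constraint in coefficients.** -/
theorem con_of_CN [IsAlgClosed Ω] [hp : Fact p.Prime] [CharP Ω p] (hy : Transcendental N y)
    (h : CN p q v N y z A) (c' b₀ : ℝ) : Con p q v N y z c' b₀ A := by
  intro b w Q θ c κ _ hbw hQ hr hθ _ _ hlt hDI i
  obtain ⟨η, h1, h2⟩ := hr
  exact DI_of_gbl (h b w c κ Q θ hbw hQ.mem hθ
    (fun x hx hxw => hQ.lev hy h1 hx (hxw.trans_lt h2)) (fun _ => hlt)
    fun ε hε => gbl_of_DI hDI ε hε) i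

end Pool.Agent.TWJ2.Soft
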