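import Pool.Agent.Lib.TWJ2.Jid

/-!
# TANK W, ROW J, J.1c: the API of `SLv`

* `hi_iff`: bounds for the monomials of relative order `≤ S` and the ideal `Jid p φ S`;
* `root_bound`: bounds for `D ^ p` and for `D`;
* `SLv.of_good`: it is enough to look at good `G`;
* `SLv.ex`: the order of a position is bounded;
* `SLv.add_pow`, `SLv.mono`, `SLv.kap`, `SLv.recentre`.
-/

set_option autoImplicit false

open Polynomial

namespace Pool.Agent.TWJ2

open Pool.Agent.H15JM (RVal)
open Pool.Agent.LU1 (adj)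
open Pool.Agent.D2P (clI)
open Pool.Agent.TWM (SL MS PI PII TL Gt GB CompleteV)
open Pool.Agent.TWJ2.Dg

universe u

variable {k Ω : Type u} [Field k] [Field Ω] [Algebra k Ω]

/-! ### `PII` -/

section PII

variable {C : IntermediateField k Ω} {P Q : Polynomial (Polynomial Ω)}

theorem pii_add (hP : PII C P) (hQ : PII C Q) : PII C (P + Q) := fun j => by
  rw [coeff_add]
  exact add_mem (hP j) (hQ j)

theorem pii_neg (hP : PII C P) : PII C (-P) := fun j => by
  rw [coeff_neg]
  exact neg_mem (hP j)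

theorem pii_sub (hP : PII C P) (hQ : PII C Q) : PII C (P - Q) := fun j => by
  rw [coeff_sub]
  exact sub_mem (hP j) (hQ j)

theorem pii_mul (hP : PII C P) (hQ : PII C Q) : PII C (P * Q) := fun j => by
  rw [coeff_mul]
  exact sum_mem fun x _ => mul_mem (hP _) (hQ _)

theorem pii_zero : PII C (0 : Polynomial (Polynomial Ω)) := fun j => by
  rw [coeff_zero]
  exact zero_mem _

theorem pii_one : PII C (1 : Polynomial (Polynomial Ω)) := fun j => by
  rw [coeff_one]
  split_ifs
  · exact one_mem _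
  · exact zero_mem _

theorem pii_pow (hP : PII C P) (n : ℕ) : PII C (P ^ n) := by
  induction n with
  | zero =>
    rw [pow_zero]
    exact pii_one
  | succ n ih =>
    rw [pow_succ]
    exact pii_mul ih hP

theorem pii_C {f : Polynomial Ω} (hf : f ∈ PI C) : PII C (Polynomial.C f) := fun j => by
  rw [coeff_C]
  split_ifs
  · exact hf
  · exact zero_mem _

theorem pii_X : PII C (Polynomial.X : Polynomial (Polynomial Ω)) := fun j => by
  rw [coeff_X]
  split_ifs
  · exact one_mem _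
  · exact zero_mem _

theorem pii_sum {ι : Type*} (S : Finset ι) (F : ι → Polynomial (Polynomial Ω))
    (hF : ∀ i ∈ S, PII C (F i)) : PII C (∑ i ∈ S, F i) := fun j => by
  rw [finsetSum_coeff]
  exact sum_mem fun i hi => hF i hi j

theorem pii_taylor {θ : Polynomial Ω} (hθ : θ ∈ PI C) (hP : PII C P) : PII C (taylor θ P) := by
  rw [taylor_eq_sum_C_mul]
  exact pii_sum _ _ fun i _ => pii_mul (pii_C (hP i)) (pii_pow (pii_add pii_X (pii_C hθ)) i)

end PII

variable {C : IntermediateField k Ω} {v : RVal Ω} {y : Ω} {b c β lam mu : ℝ} {φ : Polynomial Ω}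
  {p : ℕ} {S : ℕ}

/-! ### Bounds for the digits of relative order `≤ S` -/

/-- The monomials of relative order `≤ S` of `H` have value `≥ lam`. -/
def Lo (p : ℕ) (v : RVal Ω) (y : Ω) (c : ℝ) (φ : Polynomial Ω) (β lam : ℝ) (S : ℕ)
    (H : Polynomial (Polynomial Ω)) : Prop :=
  ∀ l i : ℕ, ord2 p l i ≤ S → v.Ge (lam - l * β - i * c) ((dig φ (H.coeff i) l).eval y)

theorem Lo.add (hφ : φ.Monic) {H H' : Polynomial (Polynomial Ω)} (h : Lo p v y c φ β lam S H)
    (h' : Lo p v y c φ β lam S H') : Lo p v y c φ β lam S (H + H') := fun l i hli => by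
  rw [coeff_add, dig_add hφ, eval_add]
  exact (h l i hli).add (h' l i hli)

theorem Lo.neg (hφ : φ.Monic) {H : Polynomial (Polynomial Ω)} (h : Lo p v y c φ β lam S H) :
    Lo p v y c φ β lam S (-H) := fun l i hli => by
  rw [coeff_neg, dig_neg hφ, eval_neg]
  exact (h l i hli).neg

theorem Lo.sub (hφ : φ.Monic) {H H' : Polynomial (Polynomial Ω)} (h : Lo p v y c φ β lam S H)
    (h' : Lo p v y c φ β lam S H') : Lo p v y c φ β lam S (H - H') := by
  rw [sub_eq_add_neg]
  exact h.add hφ (h'.neg hφ)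

theorem Lo.mono {H : Polynomial (Polynomial Ω)} (h : Lo p v y c φ β lam S H) {lam' : ℝ} {S' : ℕ}
    (hl : lam' ≤ lam) (hS : S' ≤ S) : Lo p v y c φ β lam' S' H := fun l i hli =>
  (h l i (hli.trans hS)).mono (by linarith)

theorem Lo.of_Jid (hφ : φ.Monic) {P : Polynomial (Polynomial Ω)} (hP : P ∈ Jid p φ S) :
    Lo p v y c φ β lam S P := fun l i hli => by
  rw [Jid_dig hφ hP hli, eval_zero]
  exact RVal.Ge.zero

theorem DT.lo_of_gbl (h : DT v C y b φ β) {H : Polynomial (Polynomial Ω)} (hH : PII C H)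
    (h1 : GBL v y b c lam H) (S : ℕ) : Lo p v y c φ β lam S H := fun l i _ =>
  (h.gbl_iff hH).1 h1 i l

/-- Bounds for the monomials of relative order `≤ S` and the ideal. -/
theorem DT.lo_iff (h : DT v C y b φ β) {H : Polynomial (Polynomial Ω)} (hH : PII C H) :
    Lo p v y c φ β lam S H ↔ ∃ P ∈ Jid p φ S, PII C P ∧ GBL v y b c lam (H - P) := by
  constructor
  · intro h1
    obtain ⟨N, M, hNM⟩ := exists_Big h.mon h.pos H
    have h2 := hNM N M le_rfl le_rfl
    have h3 := part_add_part (s := fun l i => ord2 p l i ≤ S) h.mon h.pos h2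
    refine ⟨part φ (fun l i => ¬ ord2 p l i ≤ S) N M H, part_mem_Jid (fun l i hli => ?_) H,
      part_mem h.mem h.mon hH, ?_⟩
    · exact not_le.1 hli
    · have h4 : H - part φ (fun l i => ¬ ord2 p l i ≤ S) N M H =
          part φ (fun l i => ord2 p l i ≤ S) N M H := by
        linear_combination -h3
      rw [h4]
      exact h.gbl_part hH fun i l hli => h1 l i hli
  · rintro ⟨P, hP, hPC, h1⟩
    have h2 : H = (H - P) + P := by ring
    rw [h2]
    exact (h.lo_of_gbl (pii_sub hH hPC) h1 S).add h.mon (Lo.of_Jid h.mon hP)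

/-! ### Powers -/

/-- The value at `y` of a polynomial with Gauss bound. -/
theorem eval_of_GB {f : Polynomial Ω} (h : GB v b lam (taylor y f)) : v.Ge lam (f.eval y) := by
  have h1 := h 0
  rw [taylor_coeff_zero] at h1
  refine h1.mono ?_
  simp

theorem DT.gb_small (h : DT v C y b φ β) {d : Polynomial Ω} (hd : d ∈ PI C)
    (hdeg : d.degree < φ.degree) (h1 : v.Ge lam (d.eval y)) : GB v b lam (taylor y d) := by
  refine (h.iff d hd lam).2 fun l => ?_
  rcases Nat.eq_zero_or_pos l with rfl | hl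
  · rw [dig_small_zero h.mon hdeg]
    refine h1.mono ?_
    simp
  · rw [dig_small_pos h.mon hdeg hl, eval_zero]
    exact RVal.Ge.zero

/-- The value of the digit `0` of a product of small polynomials, through a general lemma: if
`f` has Gauss bound `mu`, then `f(y)` and the digit `0` differ by something of value `> mu`. -/
theorem DT.dig_zero_sub (h : DT v C y b φ β) {f : Polynomial Ω} (hf : f ∈ PI C)
    (h1 : GB v b mu (taylor y f)) : Gt v mu (f.eval y - (dig φ f 0).eval y) := by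
  have h2 : f = dig φ f 0 + φ * (f /ₘ φ ^ 1) := by
    have := div_succ h.mon f 0
    rwa [pow_zero, divByMonic_one] at this
  have hq : f /ₘ φ ^ 1 ∈ PI C := (PI_div (pow_mem h.mem 1) (h.mon.pow 1) hf).1
  have h3 : GB v b (mu - β) (taylor y (f /ₘ φ ^ 1)) := by
    refine (h.iff _ hq _).2 fun l => ?_
    have h4 : dig φ (f /ₘ φ ^ 1) l = dig φ f (1 + l) := by
      rw [dig, dig, pow_add, div_div f (h.mon.pow 1) (h.mon.pow l)]
    rw [h4]
    refine ((h.iff f hf mu).1 h1 (1 + l)).mono ?_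
    push_cast
    linarith
  have h5 : f.eval y - (dig φ f 0).eval y = φ.eval y * (f /ₘ φ ^ 1).eval y := by
    have := congrArg (Polynomial.eval y) h2
    rw [eval_add, eval_mul] at this
    rw [this]
    ring
  rw [h5]
  intro h6
  have h7 : φ.eval y ≠ 0 := left_ne_zero_of_mul h6
  have h8 : (f /ₘ φ ^ 1).eval y ≠ 0 := right_ne_zero_of_mul h6
  rw [v.map_mul h7 h8]
  have h9 := h.gty h7
  have h10 := eval_of_GB h3 h8
  linarith

/-- Bounds for `f ^ p` and for `f`, one variable. -/
theorem DT.root_one [hp : Fact p.Prime] [CharP Ω p] (h : DT v C y b φ β) {f : Polynomial Ω}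
    (hf : f ∈ PI C) (L : ℕ)
    (h1 : ∀ l : ℕ, l < L → v.Ge (lam - (p * l : ℕ) * β) ((dig φ (f ^ p) (p * l)).eval y)) :
    ∀ l : ℕ, l < L → v.Ge (lam / p - l * β) ((dig φ f l).eval y) := by
  have hp0 : (0 : ℝ) < p := by exact_mod_cast hp.out.pos
  intro l
  induction l using Nat.strong_induction_on with
  | _ l ih =>
    intro hl
    have hfl : (∑ j ∈ Finset.range l, dig φ f j * φ ^ j) ∈ PI C :=
      sum_mem fun j _ => mul_mem (dig_mem h.mem h.mon hf j) (pow_mem h.mem j)
    set fl : Polynomial Ω := ∑ j ∈ Finset.range l, dig φ f j * φ ^ j with hfldef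
    set d : Polynomial Ω := dig φ f l with hd
    have hdC : d ∈ PI C := dig_mem h.mem h.mon hf l
    have hddeg : d.degree < φ.degree := degree_dig h.mon f l
    have h2 : f = fl + φ ^ l * d + φ ^ (l + 1) * (f /ₘ φ ^ (l + 1)) := by
      have := expand h.mon f (l + 1)
      rw [Finset.sum_range_succ] at this
      rw [hfldef, hd]
      linear_combination this
    have h3 : f ^ p = fl ^ p + φ ^ (p * l) * d ^ p + φ ^ (p * l + p) * (f /ₘ φ ^ (l + 1)) ^ p := by
      conv_lhs => rw [h2]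
      rw [add_pow_char, add_pow_char, mul_pow, mul_pow, ← pow_mul, ← pow_mul]
      ring
    have h4 : dig φ (f ^ p) (p * l) = dig φ (fl ^ p) (p * l) + dig φ (d ^ p) 0 := by
      rw [h3, dig_add h.mon, dig_add h.mon, dig_shift_lt h.mon _ (show p * l < p * l + p by
        have := hp.out.pos
        omega), add_zero]
      have h5 := dig_shift h.mon (d ^ p) (p * l) 0
      rw [add_zero] at h5
      rw [h5]
    have h5 : GB v b (lam / p) (taylor y fl) := by
      refine (h.iff fl hfl _).2 fun j => ?_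
      rw [hfldef, dig_sum_pow h.mon l _ (fun j => degree_dig h.mon f j)]
      split_ifs with hj
      · exact ih j hj (hj.trans hl)
      · rw [eval_zero]
        exact RVal.Ge.zero
    have h6 : GB v b lam (taylor y (fl ^ p)) := by
      rw [taylor_pow]
      refine (GB.pow h5 p).mono ?_
      rw [mul_div_cancel₀ _ hp0.ne']
    have h7 : v.Ge (lam - (p * l : ℕ) * β) ((dig φ (d ^ p) 0).eval y) := by
      have h8 := (h1 l hl).sub ((h.iff _ (pow_mem hfl p) lam).1 h6 (p * l))
      rw [h4, eval_add, add_sub_cancel_left] at h8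
      exact h8
    intro h0
    have h9 : GB v b (v (d.eval y)) (taylor y d) := h.gb_small hdC hddeg fun _ => le_rfl
    have h10 : GB v b (p * v (d.eval y)) (taylor y (d ^ p)) := by
      rw [taylor_pow]
      exact GB.pow h9 p
    have h11 := h.dig_zero_sub (pow_mem hdC p) h10
    rw [eval_pow] at h11
    have h12 : v ((d.eval y) ^ p) = p * v (d.eval y) := v.map_pow h0 p
    by_contra h13
    have h14 : (p : ℝ) * v (d.eval y) < lam - (p * l : ℕ) * β := by
      have h15 : v (d.eval y) < lam / p - l * β := not_le.1 h13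
      have h16 : (p : ℝ) * v (d.eval y) < p * (lam / p - l * β) :=
        mul_lt_mul_of_pos_left h15 hp0
      have h17 : (p : ℝ) * (lam / p - l * β) = lam - (p * l : ℕ) * β := by
        push_cast
        field_simp
      linarith
    have h19 : Gt v (p * v (d.eval y)) ((d.eval y) ^ p) := by
      have h20 : (d.eval y) ^ p = ((d.eval y) ^ p - (dig φ (d ^ p) 0).eval y) +
          (dig φ (d ^ p) 0).eval y := by ring
      intro hne
      by_cases ha : (d.eval y) ^ p - (dig φ (d ^ p) 0).eval y = 0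
      · have hb : (d.eval y) ^ p = (dig φ (d ^ p) 0).eval y := by linear_combination ha
        rw [hb]
        refine lt_of_lt_of_le h14 (h7 ?_)
        rw [← hb]
        exact hne
      · by_cases hb : (dig φ (d ^ p) 0).eval y = 0
        · rw [hb, sub_zero] at h11
          exact h11 hne
        · rw [h20]
          refine lt_of_lt_of_le (lt_min (h11 ha) (lt_of_lt_of_le h14 (h7 hb))) (v.map_add ha hb ?_)
          rw [← h20]
          exact hne
    have h21 := h19 (pow_ne_zero p h0)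
    rw [h12] at h21
    exact lt_irrefl _ h21

theorem coeff_pow_char [hp : Fact p.Prime] [CharP Ω p] (D : Polynomial (Polynomial Ω)) (i : ℕ) :
    (D ^ p).coeff i = if p ∣ i then (D.coeff (i / p)) ^ p else 0 := by
  rw [← map_frobenius_expand (p := p), coeff_map, coeff_expand hp.out.pos]
  split_ifs
  · rfl
  · rw [map_zero]

/-- Bounds for `D ^ p` and for `D`. -/
theorem DT.root_bound [hp : Fact p.Prime] [CharP Ω p] (h : DT v C y b φ β)
    {D : Polynomial (Polynomial Ω)} (hD : PII C D) (h1 : Lo p v y c φ β lam S (D ^ p)) :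
    ∀ l i : ℕ, p * (l + i) ≤ S → v.Ge (lam / p - l * β - i * c) ((dig φ (D.coeff i) l).eval y) := by
  have hp0 : (0 : ℝ) < p := by exact_mod_cast hp.out.pos
  intro l i hli
  have h2 : ∀ l' : ℕ, l' < l + 1 → v.Ge ((lam - (p * i : ℕ) * c) - (p * l' : ℕ) * β)
      ((dig φ ((D.coeff i) ^ p) (p * l')).eval y) := by
    intro l' hl'
    have h3 : ord2 p (p * l') (p * i) ≤ S := by
      unfold ord2
      rw [if_pos ⟨dvd_mul_right _ _, dvd_mul_right _ _⟩]
      have : p * l' ≤ p * l := Nat.mul_le_mul_left _ (by omega)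
      rw [mul_add] at hli
      omega
    have h4 := h1 (p * l') (p * i) h3
    rw [coeff_pow_char, if_pos (dvd_mul_right _ _), Nat.mul_div_cancel_left _ hp.out.pos] at h4
    exact h4.mono (by linarith)
  refine (h.root_one (hD i) (l + 1) h2 l (Nat.lt_succ_self l)).mono ?_
  have h5 : (lam - (p * i : ℕ) * c) / p = lam / p - i * c := by
    push_cast
    field_simp
  rw [h5]
  linarith

/-- The `p`-th power of a part with `p (l + i) > S`. -/
theorem part_pow_mem [hp : Fact p.Prime] [CharP Ω p] (φ : Polynomial Ω) (S N M : ℕ)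
    (D : Polynomial (Polynomial Ω)) :
    (part φ (fun l i => ¬ p * (l + i) ≤ S) N M D) ^ p ∈ Jid p φ S := by
  classical
  unfold part
  rw [sum_pow_char]
  refine sum_mem fun i _ => ?_
  rw [mul_pow, ← Polynomial.C_pow, sum_pow_char, map_sum, Finset.sum_mul]
  refine sum_mem fun l _ => ?_
  split_ifs with h
  · have h0 : S < ord2 p (p * l) (p * i) := by
      unfold ord2
      rw [if_pos ⟨dvd_mul_right _ _, dvd_mul_right _ _⟩, ← mul_add]
      exact not_le.1 h
    have h1 := mono_mem (φ := φ) h0 (Polynomial.C (dig φ (D.coeff i) l ^ p))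
    have h2 : Polynomial.C ((dig φ (D.coeff i) l * φ ^ l) ^ p) *
        ((Polynomial.X : Polynomial (Polynomial Ω)) ^ i) ^ p =
        Polynomial.C (dig φ (D.coeff i) l ^ p) *
          (Polynomial.C φ ^ (p * l) * Polynomial.X ^ (p * i)) := by
      rw [mul_pow, Polynomial.C_mul, ← pow_mul, ← pow_mul, mul_comm l p, mul_comm i p, ← Polynomial.C_pow,
        mul_assoc]
    rw [h2]
    exact h1
  · rw [zero_mul, zero_pow hp.out.ne_zero, map_zero, zero_mul]
    exact zero_mem _

/-- It is enough to look at good `G`. -/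
theorem DT.good [hp : Fact p.Prime] [CharP Ω p] (h : DT v C y b φ β)
    {A G G₀ : Polynomial (Polynomial Ω)} (hA : PII C A) (hG : PII C G) (hG₀ : PII C G₀)
    (hlm : mu ≤ lam) (h0 : GBL v y b c mu (A - G₀ ^ p)) (h1 : Lo p v y c φ β lam S (A - G ^ p)) :
    ∃ G₁, PII C G₁ ∧ GBL v y b c mu (A - G₁ ^ p) ∧ Lo p v y c φ β lam S (A - G₁ ^ p) := by
  set D := G - G₀ with hD
  have hDC : PII C D := pii_sub hG hG₀
  have h2 : D ^ p = (A - G₀ ^ p) - (A - G ^ p) := by
    rw [hD, sub_pow_char]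
    ring
  have h3 : Lo p v y c φ β mu S (D ^ p) := by
    rw [h2]
    exact (h.lo_of_gbl (pii_sub hA (pii_pow hG₀ p)) h0 S).sub h.mon (h1.mono hlm le_rfl)
  have h4 := h.root_bound hDC h3
  obtain ⟨N, M, hNM⟩ := exists_Big h.mon h.pos D
  have h5 := part_add_part (s := fun l i => p * (l + i) ≤ S) h.mon h.pos (hNM N M le_rfl le_rfl)
  set D₁ := part φ (fun l i => p * (l + i) ≤ S) N M D with hD₁
  set D₂ := part φ (fun l i => ¬ p * (l + i) ≤ S) N M D with hD₂
  have hD₁C : PII C D₁ := part_mem h.mem h.mon hDC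
  have hp0 : (0 : ℝ) < p := by exact_mod_cast hp.out.pos
  have h6 : GBL v y b c (mu / p) D₁ := h.gbl_part hDC fun i l hli => h4 l i hli
  have h7 : GBL v y b c mu (D₁ ^ p) := by
    refine (GBL.pow h6 p).mono ?_
    rw [mul_div_cancel₀ _ hp0.ne']
  refine ⟨G₀ + D₁, pii_add hG₀ hD₁C, ?_, ?_⟩
  · have h8 : A - (G₀ + D₁) ^ p = (A - G₀ ^ p) - D₁ ^ p := by
      rw [add_pow_char]
      ring
    rw [h8]
    exact h0.sub h7
  · have h8 : A - (G₀ + D₁) ^ p = (A - G ^ p) + D₂ ^ p := by
      have h9 : G = G₀ + D₁ + D₂ := by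
        rw [hD] at h5
        linear_combination -h5
      rw [h9, add_pow_char (G₀ + D₁) D₂]
      ring
    rw [h8]
    exact h1.add h.mon (Lo.of_Jid h.mon (part_pow_mem φ S N M D))

/-! ### `SLv` -/

theorem SLv.hi' {κ : ℝ} {A : Polynomial (Polynomial Ω)} (hs : SLv p v C y b c φ β κ S A) {e : ℝ}
    (he : 0 < e) {G : Polynomial (Polynomial Ω)} (hG : PII C G) :
    ¬ Lo p v y c φ β (κ + e) S (A - G ^ p) := by
  intro h
  obtain ⟨l, i, h1, h2⟩ := hs.hi e he G hG
  exact h2 (h l i h1)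

theorem SLv.mk' {κ : ℝ} {A : Polynomial (Polynomial Ω)} (hA : PII C A)
    (hlo : ∀ ε : ℝ, 0 < ε → ∃ G, PII C G ∧ GBL v y b c (κ - ε) (A - G ^ p))
    (hhi : ∀ e : ℝ, 0 < e → ∀ G, PII C G → ¬ Lo p v y c φ β (κ + e) S (A - G ^ p)) :
    SLv p v C y b c φ β κ S A := by
  refine ⟨hA, hlo, fun e he G hG => ?_⟩
  by_contra h
  push Not at h
  exact hhi e he G hG fun l i hli => by
    by_contra h1
    exact h1 (h l i hli)

/-- It is enough to look at good `G`. -/
theorem SLv.of_good [hp : Fact p.Prime] [CharP Ω p] (h : DT v C y b φ β) {κ : ℝ}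
    {A : Polynomial (Polynomial Ω)} (hA : PII C A)
    (hlo : ∀ ε : ℝ, 0 < ε → ∃ G, PII C G ∧ GBL v y b c (κ - ε) (A - G ^ p))
    (hhi : ∀ e : ℝ, 0 < e → ∃ ε : ℝ, 0 < ε ∧ ∀ G, PII C G → GBL v y b c (κ - ε) (A - G ^ p) →
      ¬ Lo p v y c φ β (κ + e) S (A - G ^ p)) :
    SLv p v C y b c φ β κ S A := by
  refine SLv.mk' hA hlo fun e he G hG h1 => ?_
  obtain ⟨ε, hε, h2⟩ := hhi e he
  obtain ⟨G₀, hG₀, h3⟩ := hlo ε hε
  obtain ⟨G₁, hG₁, h4, h5⟩ := h.good hA hG hG₀ (by linarith) h3 h1
  exact h2 G₁ hG₁ h4 h5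

/-- Bigger `S`. -/
theorem SLv.mono {κ : ℝ} {A : Polynomial (Polynomial Ω)} (hs : SLv p v C y b c φ β κ S A) {S' : ℕ}
    (h : S ≤ S') : SLv p v C y b c φ β κ S' A :=
  SLv.mk' hs.mem hs.lo fun _ he _ hG h1 => hs.hi' he hG (h1.mono le_rfl h)

/-- No `G` is better than `κ`. -/
theorem SLv.not_gbl (h : DT v C y b φ β) {κ : ℝ} {A : Polynomial (Polynomial Ω)}
    (hs : SLv p v C y b c φ β κ S A) {e : ℝ} (he : 0 < e) {G : Polynomial (Polynomial Ω)}
    (hG : PII C G) : ¬ GBL v y b c (κ + e) (A - G ^ p) := fun h1 =>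
  hs.hi' he hG (h.lo_of_gbl (pii_sub hs.mem (pii_pow hG p)) h1 S)

/-- `κ` is unique. -/
theorem SLv.kap (h : DT v C y b φ β) {κ κ' : ℝ} {S' : ℕ} {A : Polynomial (Polynomial Ω)}
    (hs : SLv p v C y b c φ β κ S A) (hs' : SLv p v C y b c φ β κ' S' A) : κ = κ' := by
  have key : ∀ {κ κ' : ℝ} {S S' : ℕ}, SLv p v C y b c φ β κ S A →
      SLv p v C y b c φ β κ' S' A → κ ≤ κ' := by
    intro κ κ' S S' hs hs'
    refine le_of_forall_pos_sub_le fun ε hε => ?_
    by_contra h1
    obtain ⟨G, hG, h2⟩ := hs.lo ε hε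
    have h3 : (0 : ℝ) < κ - ε - κ' := by linarith
    refine hs'.not_gbl h h3 hG (h2.mono ?_)
    linarith
  exact le_antisymm (key hs hs') (key hs' hs)

/-- Adding a `p`-th power. -/
theorem SLv.add_pow [hp : Fact p.Prime] [CharP Ω p] {κ : ℝ} {A G₀ : Polynomial (Polynomial Ω)}
    (hs : SLv p v C y b c φ β κ S A) (hG₀ : PII C G₀) :
    SLv p v C y b c φ β κ S (A + G₀ ^ p) := by
  refine SLv.mk' (pii_add hs.mem (pii_pow hG₀ p)) (fun ε hε => ?_) fun e he G hG h1 => ?_
  · obtain ⟨G, hG, h1⟩ := hs.lo ε hε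
    refine ⟨G + G₀, pii_add hG hG₀, ?_⟩
    have h2 : A + G₀ ^ p - (G + G₀) ^ p = A - G ^ p := by
      rw [add_pow_char]
      ring
    rw [h2]
    exact h1
  · refine hs.hi' he (pii_sub hG hG₀) ?_
    have h2 : A - (G - G₀) ^ p = A + G₀ ^ p - G ^ p := by
      rw [sub_pow_char]
      ring
    rw [h2]
    exact h1

theorem degree_lt_of_dig (hφ : φ.Monic) (h0 : 0 < φ.natDegree) {f : Polynomial Ω} {N : ℕ}
    (h : ∀ l, N ≤ l → dig φ f l = 0) : f.degree < (φ ^ N).degree := by
  rw [← divByMonic_eq_zero_iff (hφ.pow N)]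
  refine ext_dig hφ h0 fun l => ?_
  have h1 : dig φ (f /ₘ φ ^ N) l = dig φ f (N + l) := by
    rw [dig, dig, pow_add, div_div f (hφ.pow N) (hφ.pow l)]
  rw [h1, h _ (Nat.le_add_right _ _), dig_zero]

theorem degree_pow_lt (hφ : φ.Monic) {n : ℕ} (hn : 0 < n) {f : Polynomial Ω} {N : ℕ}
    (h : f.degree < (φ ^ N).degree) : (f ^ n).degree < (φ ^ (n * N)).degree := by
  rcases eq_or_ne f 0 with rfl | hf
  · rw [zero_pow hn.ne', degree_zero, degree_eq_natDegree (hφ.pow _).ne_zero]
    exact WithBot.bot_lt_coe _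
  · rw [degree_eq_natDegree (pow_ne_zero _ hf), degree_eq_natDegree (hφ.pow _).ne_zero,
      natDegree_pow, hφ.natDegree_pow]
    rw [degree_eq_natDegree hf, degree_eq_natDegree (hφ.pow _).ne_zero, hφ.natDegree_pow] at h
    have h1 : f.natDegree < N * φ.natDegree := by exact_mod_cast h
    have h2 : n * f.natDegree < n * N * φ.natDegree := by
      rw [mul_assoc]
      exact Nat.mul_lt_mul_of_pos_left h1 hn
    exact_mod_cast h2

/-- Existence: the order stays bounded. -/
theorem SLv.ex [hp : Fact p.Prime] [CharP Ω p] (h : DT v C y b φ β) {κ : ℝ}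
    {A : Polynomial (Polynomial Ω)} (hA : PII C A)
    (hlo : ∀ ε : ℝ, 0 < ε → ∃ G, PII C G ∧ GBL v y b c (κ - ε) (A - G ^ p))
    (hhi : ∀ e : ℝ, 0 < e → ∀ G, PII C G → ¬ GBL v y b c (κ + e) (A - G ^ p)) :
    ∃ S, SLv p v C y b c φ β κ S A := by
  classical
  obtain ⟨N, M, hNM⟩ := exists_Big h.mon h.pos A
  have hp1 := hp.out.pos
  have hbig : Big φ (p * N) (p * M) A := hNM (p * N) (p * M)
    (Nat.le_mul_of_pos_left N hp1) (Nat.le_mul_of_pos_left M hp1)
  refine ⟨p * N + p * M, SLv.mk' hA hlo fun e he G hG h1 => ?_⟩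
  -- `G` truncated
  obtain ⟨N', M', hNM'⟩ := exists_Big h.mon h.pos G
  set N₁ := max N N' with hN₁
  set M₁ := max M M' with hM₁
  have h2 := part_add_part (s := fun l i => l < N ∧ i < M) h.mon h.pos
    (hNM' N₁ M₁ (le_max_right _ _) (le_max_right _ _))
  set G₁ := part φ (fun l i => l < N ∧ i < M) N₁ M₁ G with hG₁
  set G₂ := part φ (fun l i => ¬ (l < N ∧ i < M)) N₁ M₁ G with hG₂
  have hG₁C : PII C G₁ := part_mem h.mem h.mon hG
  refine hhi e he G₁ hG₁C ?_
  rw [h.gbl_iff (pii_sub hA (pii_pow hG₁C p))]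
  intro i l
  have h3 : A - G₁ ^ p = (A - G ^ p) + G₂ ^ p := by
    rw [← h2, add_pow_char]
    ring
  by_cases hli : l < p * N ∧ i < p * M
  · rw [h3, coeff_add, dig_add h.mon, eval_add]
    have h4 : dig φ ((G₂ ^ p).coeff i) l = 0 := by
      rw [coeff_pow_char]
      split_ifs with h5
      · obtain ⟨j, rfl⟩ := h5
        rw [Nat.mul_div_cancel_left _ hp1]
        have h6 : j < M := by
          have := hli.2
          exact lt_of_mul_lt_mul_left this (Nat.zero_le p)
        have h7 : φ ^ N ∣ G₂.coeff j := by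
          rw [hG₂, part_coeff]
          split_ifs
          · refine Finset.dvd_sum fun m _ => ?_
            by_cases h8 : m < N
            · rw [if_neg (fun h9 => h9 ⟨h8, h6⟩), zero_mul]
              exact dvd_zero _
            · exact dvd_mul_of_dvd_right (pow_dvd_pow _ (not_lt.1 h8)) _
          · exact dvd_zero _
        have h8 : φ ^ (p * N) ∣ (G₂.coeff j) ^ p := by
          rw [mul_comm, pow_mul]
          exact pow_dvd_pow_of_dvd h7 p
        exact dig_of_dvd h.mon h8 hli.1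
      · exact dig_zero φ l
    rw [h4, eval_zero, add_zero]
    refine h1 l i ?_
    unfold ord2
    split_ifs <;> omega
  · have h4 : dig φ (A.coeff i) l = 0 := hbig.dig_eq h.mon fun h5 => hli ⟨h5.2, h5.1⟩
    have h5 : dig φ ((G₁ ^ p).coeff i) l = 0 := by
      rw [coeff_pow_char]
      split_ifs with h6
      · obtain ⟨j, rfl⟩ := h6
        rw [Nat.mul_div_cancel_left _ hp1]
        by_cases hj : j < M
        · have hl : p * N ≤ l := by
            by_contra hl
            exact hli ⟨by omega, Nat.mul_lt_mul_of_pos_left hj hp1⟩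
          have h7 : (G₁.coeff j).degree < (φ ^ N).degree := by
            refine degree_lt_of_dig h.mon h.pos fun m hm => ?_
            rw [hG₁, dig_part h.mon, if_neg (fun h9 => absurd h9.2.2.1 (not_lt.2 hm))]
          exact dig_of_lt h.mon (lt_of_lt_of_le (degree_pow_lt h.mon hp1 h7)
            (degree_pow_mono h.mon hl))
        · have h7 : G₁.coeff j = 0 := by
            refine ext_dig h.mon h.pos fun m => ?_
            rw [hG₁, dig_part h.mon, if_neg (fun h8 => hj h8.2.2.2), dig_zero]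
          rw [h7, zero_pow hp.out.ne_zero, dig_zero]
      · exact dig_zero φ l
    rw [coeff_sub, dig_sub h.mon, h4, h5, sub_zero, eval_zero]
    exact RVal.Ge.zero

theorem taylor_neg_taylor (θ : Polynomial Ω) (P : Polynomial (Polynomial Ω)) :
    taylor (-θ) (taylor θ P) = P := by
  rw [taylor_taylor, neg_add_cancel, taylor_zero]

/-- A polynomial of value `> c` at `y`, and Gauss bound `c`: a small constant digit plus a multiple
of the key polynomial. -/
theorem DT.split (h : DT v C y b φ β) {θ : Polynomial Ω} (hθC : θ ∈ PI C)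
    (hθ : GB v b c (taylor y θ)) (hθy : Gt v c (θ.eval y)) :
    ∃ t ∈ PI C, ∃ ψ ∈ PI C, θ = t + φ * ψ ∧ (∃ δ : ℝ, 0 < δ ∧ GB v b (c + δ) (taylor y t)) ∧
      GB v b c (taylor y (φ * ψ)) := by
  have h2 : θ = dig φ θ 0 + φ * (θ /ₘ φ ^ 1) := by
    have := div_succ h.mon θ 0
    rwa [pow_zero, divByMonic_one] at this
  have htC : dig φ θ 0 ∈ PI C := dig_mem h.mem h.mon hθC 0
  have hq : θ /ₘ φ ^ 1 ∈ PI C := (PI_div (pow_mem h.mem 1) (h.mon.pow 1) hθC).1
  have h3 := h.dig_zero_sub hθC hθ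
  have h4 : Gt v c ((dig φ θ 0).eval y) := by
    intro h5
    by_cases h6 : θ.eval y - (dig φ θ 0).eval y = 0
    · have h7 : θ.eval y = (dig φ θ 0).eval y := by linear_combination h6
      rw [← h7] at h5 ⊢
      exact hθy h5
    · by_cases h7 : θ.eval y = 0
      · rw [h7, zero_sub] at h3
        have h8 := h3 (neg_ne_zero.2 h5)
        rwa [v.map_neg _ h5] at h8
      · have h8 : (dig φ θ 0).eval y = θ.eval y + -(θ.eval y - (dig φ θ 0).eval y) := by ring
        rw [h8]
        refine lt_of_lt_of_le (lt_min (hθy h7) ?_)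
          (v.map_add h7 (neg_ne_zero.2 h6) (by rw [← h8]; exact h5))
        rw [v.map_neg _ h6]
        exact h3 h6
  have h5 : ∃ δ : ℝ, 0 < δ ∧ GB v b (c + δ) (taylor y (dig φ θ 0)) := by
    by_cases h6 : (dig φ θ 0).eval y = 0
    · refine ⟨1, one_pos, h.gb_small htC (degree_dig h.mon θ 0) ?_⟩
      rw [h6]
      exact RVal.Ge.zero
    · refine ⟨v ((dig φ θ 0).eval y) - c, sub_pos.2 (h4 h6),
        h.gb_small htC (degree_dig h.mon θ 0) fun _ => ?_⟩
      linarith
  refine ⟨dig φ θ 0, htC, θ /ₘ φ ^ 1, hq, h2, h5, ?_⟩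
  obtain ⟨δ, hδ, h6⟩ := h5
  have h7 : φ * (θ /ₘ φ ^ 1) = θ - dig φ θ 0 := by linear_combination -h2
  rw [h7, map_sub]
  exact hθ.sub (h6.mono (by linarith))

/-- Change of the centre of the outer variable: same value, same order. -/
theorem SLv.recentre [hp : Fact p.Prime] [CharP Ω p] (h : DT v C y b φ β) {κ : ℝ}
    {A : Polynomial (Polynomial Ω)} {θ : Polynomial Ω} (hθC : θ ∈ PI C)
    (hθ : GB v b c (taylor y θ)) (hθy : Gt v c (θ.eval y)) (hs : SLv p v C y b c φ β κ S A) :
    SLv p v C y b c φ β κ S (taylor θ A) := by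
  obtain ⟨t, htC, ψ, hψC, hsplit, ⟨δ, hδ, ht⟩, hψ⟩ := h.split hθC hθ hθy
  have hnθ : GB v b c (taylor y (-θ)) := by
    rw [map_neg]
    exact hθ.neg
  refine SLv.of_good h (pii_taylor hθC hs.mem) (fun ε hε => ?_) fun e he => ?_
  · obtain ⟨G, hG, h1⟩ := hs.lo ε hε
    refine ⟨taylor θ G, pii_taylor hθC hG, ?_⟩
    rw [← taylor_pow, ← map_sub]
    exact h1.recentre hθ
  · refine ⟨δ / 2, half_pos hδ, fun G hG h1 h2 => ?_⟩
    have hH'C : PII C (taylor θ A - G ^ p) := pii_sub (pii_taylor hθC hs.mem) (pii_pow hG p)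
    obtain ⟨P, hP, hPC, h3⟩ := (h.lo_iff hH'C).1 h2
    have hnC : -θ ∈ PI C := neg_mem hθC
    have h4 : A - (taylor (-θ) G) ^ p = taylor (-θ) (taylor θ A - G ^ p) := by
      rw [map_sub, taylor_neg_taylor, taylor_pow]
    have h5 : GBL v y b c (κ - δ / 2) P := by
      have h6 : P = (taylor θ A - G ^ p) - (taylor θ A - G ^ p - P) := by ring
      rw [h6]
      exact h1.sub (h3.mono (by linarith))
    have hnψ : GB v b c (taylor y (-(φ * ψ))) := by
      rw [map_neg]
      exact hψ.neg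
    have hnt : GB v b (c + δ) (taylor y (-t)) := by
      rw [map_neg]
      exact ht.neg
    set P₁ := taylor (-(φ * ψ)) P with hP₁
    have hP₁J : P₁ ∈ Jid p φ S := Jid_taylor ((dvd_neg).2 (dvd_mul_right φ ψ)) hP
    have hφψC : φ * ψ ∈ PI C := mul_mem h.mem hψC
    have hP₁C : PII C P₁ := pii_taylor (neg_mem hφψC) hPC
    have h6 : GBL v y b c (κ - δ / 2) P₁ := h5.recentre hnψ
    have h7 : GBL v y b c (κ - δ / 2 + δ) (taylor (-t) P₁ - P₁) := h6.recentre_sub hδ.le hnt
    have h8 : taylor (-θ) P = taylor (-t) P₁ := by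
      rw [hP₁, taylor_taylor]
      congr 1
      rw [hsplit]
      ring_nf
    have h9 : A - (taylor (-θ) G) ^ p = taylor (-θ) (taylor θ A - G ^ p - P) +
        (taylor (-t) P₁ - P₁) + P₁ := by
      rw [h4, map_sub (taylor (-θ)) _ P, h8]
      ring
    refine hs.hi' (lt_min he (half_pos hδ)) (pii_taylor hnC hG) ?_
    rw [h9]
    refine (Lo.add h.mon ?_ ?_).add h.mon (Lo.of_Jid h.mon hP₁J)
    · refine (h.lo_of_gbl (pii_taylor hnC (pii_sub hH'C hPC)) (h3.recentre hnθ) S).mono ?_ le_rfl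
      have := min_le_left e (δ / 2)
      linarith
    · refine (h.lo_of_gbl (pii_sub (pii_taylor (neg_mem htC) hP₁C) hP₁C) h7 S).mono ?_ le_rfl
      have := min_le_right e (δ / 2)
      linarith

end Pool.Agent.TWJ2
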