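import Pool.Agent.Lib.TWJ2.Gauss
import Pool.Agent.Lib.TWJ2.Gbl
import Pool.Agent.Lib.TWJ2.SLv
import Pool.Agent.Lib.TWJ.ST

/-!
# TANK W, ROW J, cell (B): the constraint (C') over the closed base

* `Cprime`: the constraint (C') over a finitely generated base (helper34's statement);
* `near_PI`, `near_PII`: density of the polynomials over `C` in those over the closure of `C`;
* `GA.unique`, `GA.add_gb`, `gval_near`, `nop_near`: nearby polynomials;
* `Lev.near`: nearby key polynomials;
* `Cprime.closed`: the constraint over the closure of `C`, for the centres over the closure of `C`.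
-/

set_option autoImplicit false

open Polynomial

namespace Pool.Agent.TWJ2

open Pool.Agent.H15JM (RVal)
open Pool.Agent.LU1 (adj)
open Pool.Agent.D2P (clI mem_clI)
open Pool.Agent.TWM (PI PII Gt GB C_mem_PI X_mem_PI)

universe u

section Near

variable {Ω : Type u} [Field Ω] {v : RVal Ω} {y : Ω} {b c lam lam' : ℝ} {n n' : ℕ}
  {f g : Polynomial Ω}

theorem GA.unique (h : GA v b lam n f) (h' : GA v b lam' n' f) : lam = lam' ∧ n = n' := by
  have h1 : lam = lam' := le_antisymm (h'.le h.gb) (h.le h'.gb)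
  subst h1
  refine ⟨rfl, ?_⟩
  rcases lt_trichotomy n n' with h2 | h2 | h2
  · exact absurd (h'.lt n h2 h.ne) (by rw [h.eq]; exact lt_irrefl _)
  · exact h2
  · exact absurd (h.lt n' h2 h'.ne) (by rw [h'.eq]; exact lt_irrefl _)

/-- A polynomial of bigger Gauss value does not change the Gauss value and the first index. -/
theorem GA.add_gb (h : GA v b lam n f) (hg : GB v b lam' g) (hlt : lam < lam') :
    GA v b lam n (f + g) := by
  have hgt : ∀ m : ℕ, Gt v (lam - m * b) (g.coeff m) := fun m h0 => by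
    have h1 := hg m h0
    linarith
  obtain ⟨h1, h2⟩ := add_gt h.ne h.eq (hgt n)
  refine ⟨h.gb.add (hg.mono hlt.le), by rwa [coeff_add], by rwa [coeff_add], fun m hm => ?_⟩
  rw [coeff_add]
  exact (h.lt m hm).add (hgt m)

theorem taylor_ne {f : Polynomial Ω} (hf : f ≠ 0) : taylor y f ≠ 0 := fun h =>
  hf (taylor_injective y (by rw [h, map_zero]))

/-- Nearby polynomials have the same Gauss value and the same number of roots in the open disc. -/
theorem gval_near [IsAlgClosed Ω] (hf : f ≠ 0) (hlt : gval v y b f < lam)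
    (h : GB v b lam (taylor y (g - f))) :
    g ≠ 0 ∧ gval v y b g = gval v y b f ∧ nop v y b g = nop v y b f := by
  have h1 := (GA_gval (v := v) (y := y) (b := b) hf).add_gb h hlt
  rw [← map_add, add_sub_cancel] at h1
  have hg : g ≠ 0 := by
    rintro rfl
    rw [map_zero] at h1
    exact h1.ne (coeff_zero _)
  obtain ⟨h2, h3⟩ := (GA_gval (v := v) (y := y) (b := b) hg).unique h1
  exact ⟨hg, h2, h3⟩

/-- Gauss bounds at a smaller disc. -/
theorem gb_smaller {b' : ℝ} (hb : b ≤ b') (h : GB v b lam f) : GB v b' lam f := fun m =>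
  (h m).mono (by
    have : (m : ℝ) * b ≤ m * b' := mul_le_mul_of_nonneg_left hb (Nat.cast_nonneg m)
    linarith)

/-- Gauss bound of `taylor y f` from the coefficients of `f`. -/
theorem gb_taylor_of_coeff {f : Polynomial Ω} {M : ℝ} (n : ℕ) (hn : f.natDegree ≤ n)
    (h : ∀ i, v.Ge M (f.coeff i)) : GB v b (M - n * |cut v b y|) (taylor y f) := by
  have h1 : taylor y f = ∑ i ∈ Finset.range (f.natDegree + 1),
      Polynomial.C (f.coeff i) * (X + Polynomial.C y) ^ i := by
    rw [taylor_apply, comp, eval₂_eq_sum_range]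
  rw [h1]
  refine GB.sum _ _ fun i hi => ?_
  have hi' : i ≤ n := by
    have := Finset.mem_range.1 hi
    omega
  refine ((GB.C (h i)).mul ((GB_lin (v := v) (b := b) y).pow i)).mono ?_
  have h2 : (i : ℝ) ≤ n := by exact_mod_cast hi'
  have h3 : -|cut v b y| ≤ cut v b y := neg_abs_le _
  have h4 : 0 ≤ |cut v b y| := abs_nonneg _
  have h5 : (i : ℝ) * -|cut v b y| ≤ i * cut v b y :=
    mul_le_mul_of_nonneg_left h3 (Nat.cast_nonneg i)
  nlinarith

end Near

section Dense

variable {k Ω : Type u} [Field k] [Field Ω] [Algebra k Ω] {v : RVal Ω}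
  {C : IntermediateField k Ω} {y : Ω} {b c : ℝ}


/-- Density of `C` in its closure; the elements of `C` are not changed. -/
theorem near_elt {x : Ω} (hx : x ∈ clI v C) (M : ℝ) :
    ∃ x' ∈ C, v.Ge M (x - x') ∧ (x ∈ C → x' = x) := by
  by_cases h : x ∈ C
  · exact ⟨x, h, by rw [sub_self]; exact RVal.Ge.zero, fun _ => rfl⟩
  · obtain ⟨x', h1, h2⟩ := (mem_clI.1 hx) M
    exact ⟨x', h1, h2, fun h3 => absurd h3 h⟩

/-- Density of the polynomials over `C`. -/
theorem near_PI {f : Polynomial Ω} (hf : f ∈ PI (clI v C)) (y : Ω) (b M : ℝ) :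
    ∃ f' ∈ PI C, GB v b M (taylor y (f - f')) ∧ f'.natDegree ≤ f.natDegree ∧
      (f.Monic → f'.Monic ∧ f'.natDegree = f.natDegree) ∧ (f ∈ PI C → f' = f) := by
  set n := f.natDegree with hn
  choose x hxC hx hxe using fun i => near_elt (hf i) (M + n * |cut v b y|)
  set f' : Polynomial Ω := ∑ i ∈ Finset.range (n + 1), Polynomial.C (x i) * X ^ i with hf'
  have hco : ∀ i, f'.coeff i = x i := by
    intro i
    rw [hf', finsetSum_coeff]
    simp only [coeff_C_mul_X_pow]
    rw [Finset.sum_ite_eq (Finset.range (n + 1)) i fun j => x j]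
    split_ifs with h1
    · rfl
    · have h2 : f.coeff i = 0 := coeff_eq_zero_of_natDegree_lt (by
        rw [Finset.mem_range] at h1
        omega)
      rw [hxe i (by rw [h2]; exact zero_mem _), h2]
  have hdeg : f'.natDegree ≤ n := by
    rw [natDegree_le_iff_coeff_eq_zero]
    intro i hi
    have h2 : f.coeff i = 0 := coeff_eq_zero_of_natDegree_lt hi
    rw [hco, hxe i (by rw [h2]; exact zero_mem _), h2]
  refine ⟨f', fun i => by rw [hco]; exact hxC i, ?_, hdeg, fun hm => ?_, fun h => ?_⟩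
  · have h1 := gb_taylor_of_coeff (v := v) (b := b) (y := y) (f := f - f')
      (M := M + n * |cut v b y|) n ((natDegree_sub_le _ _).trans (max_le le_rfl hdeg))
      (fun i => by rw [coeff_sub, hco]; exact hx i)
    exact h1.mono (by linarith)
  · have h2 : f'.coeff n = 1 := by
      have h3 : f.coeff n = 1 := hm
      rw [hco, hxe n (by rw [h3]; exact one_mem _), h3]
    have h3 : f'.natDegree = n := le_antisymm hdeg (le_natDegree_of_ne_zero (by
      rw [h2]; exact one_ne_zero))
    exact ⟨by rw [Monic, leadingCoeff, h3, h2], h3⟩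
  · ext i
    rw [hco, hxe i (h i)]

/-- Density of the polynomials in two variables over `C`. -/
theorem near_PII {G : Polynomial (Polynomial Ω)} (hG : PII (clI v C) G) (y : Ω) (b c M : ℝ) :
    ∃ G', PII C G' ∧ GBL v y b c M (G - G') := by
  choose x hxC hx hxd hxm hxe using fun i => near_PI (hG i) y b (M - i * c)
  set n := G.natDegree with hn
  set G' : Polynomial (Polynomial Ω) := ∑ i ∈ Finset.range (n + 1), Polynomial.C (x i) * X ^ i
    with hG'
  have hco : ∀ i, G'.coeff i = x i := by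
    intro i
    rw [hG', finsetSum_coeff]
    simp only [coeff_C_mul_X_pow]
    rw [Finset.sum_ite_eq (Finset.range (n + 1)) i fun j => x j]
    split_ifs with h1
    · rfl
    · have h2 : G.coeff i = 0 := coeff_eq_zero_of_natDegree_lt (by
        rw [Finset.mem_range] at h1
        omega)
      rw [hxe i (by rw [h2]; exact zero_mem _), h2]
  exact ⟨G', fun i => by rw [hco]; exact hxC i, fun i => by rw [coeff_sub, hco]; exact hx i⟩

/-- Nearby key polynomials. -/
theorem Lev.near [IsAlgClosed Ω] (hy : Transcendental C y) {N : IntermediateField k Ω} (hCN : C ≤ N)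
    {φ φ' : Polynomial Ω} {β : ℝ} (h : Lev v N y b φ β) (hφ' : φ' ∈ PI C) (hm : φ'.Monic)
    (hd : φ'.natDegree = φ.natDegree) {M : ℝ} (hM : gval v y b φ < M)
    (hn : GB v b M (taylor y (φ' - φ))) :
    Lev v C y b φ' (gval v y b φ') := by
  obtain ⟨-, -, h1⟩ := gval_near h.ne_zero hM hn
  have h2 : 0 < nop v y b φ' := by rw [h1]; exact h.nop_pos
  have hmem : ∀ g ∈ PI C, g ∈ PI N := fun g hg i => hCN (hg i)
  obtain ⟨η, h3, h4⟩ := (nop_pos_iff hm.ne_zero).1 h2
  exact ⟨hφ', hm, ⟨η, h3, h4 (root_ne hy hφ' hm.ne_zero h3)⟩,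
    fun g hg h0 hr => hd ▸ h.min g (hmem g hg) h0 hr, GB_gval, fun _ h => (GB_iff hm.ne_zero).1 h⟩

/-- Every polynomial has a Gauss bound. -/
theorem exists_gbl [IsAlgClosed Ω] (v : RVal Ω) (y : Ω) (b c : ℝ) (P : Polynomial (Polynomial Ω)) :
    ∃ lam : ℝ, GBL v y b c lam P := by
  classical
  obtain ⟨M, hM⟩ := (Finset.image (fun i : ℕ => -(gval v y b (P.coeff i) + i * c))
    (Finset.range (P.natDegree + 1))).exists_le
  refine ⟨-M, fun i => ?_⟩
  by_cases hi : i < P.natDegree + 1
  · refine GB_gval.mono ?_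
    have := hM _ (Finset.mem_image_of_mem _ (Finset.mem_range.2 hi))
    linarith
  · rw [coeff_eq_zero_of_natDegree_lt (by omega), map_zero]
    exact GB.zero

theorem evalEval_taylor (θ : Polynomial Ω) (P : Polynomial (Polynomial Ω)) (y z : Ω) :
    (taylor θ P).evalEval y (z - θ.eval y) = P.evalEval y z := by
  have h1 : P.eval (Polynomial.C z) = (taylor θ P).eval (Polynomial.C z - θ) := by
    rw [taylor_eval, sub_add_cancel]
  have h2 : ∀ (Q : Polynomial (Polynomial Ω)) (r : Polynomial Ω),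
      (Q.eval r).eval y = Q.evalEval y (r.eval y) := by
    intro Q r
    rw [← eval₂_evalRingHom]
    exact (eval₂_at_apply (evalRingHom y) r).symm
  have h3 := h2 (taylor θ P) (Polynomial.C z - θ)
  rw [eval_sub, eval_C] at h3
  rw [← h3, ← h1]

/-- The value of a polynomial in two variables. -/
theorem GBL.ge_evalEval {P : Polynomial (Polynomial Ω)} {lam : ℝ} {z : Ω}
    (h : GBL v y b c lam P) (hz : v.Ge c z) : v.Ge lam (P.evalEval y z) := by
  have h1 : P.evalEval y z = ∑ i ∈ Finset.range (P.natDegree + 1), (P.coeff i).eval y * z ^ i := by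
    rw [← eval₂_evalRingHom, eval₂_eq_sum_range]
    rfl
  rw [h1]
  refine RVal.Ge.sum _ _ fun i _ => ?_
  have h2 := h i 0
  rw [taylor_coeff_zero, Nat.cast_zero, zero_mul, sub_zero] at h2
  exact (h2.mul (TWM.ge_pow hz i)).mono (by linarith)

/-- A smaller radius of the second variable, seen from a bigger one. -/
theorem GBL.radius {P : Polynomial (Polynomial Ω)} {lam c' : ℝ} (h : GBL v y b c lam P)
    (hc : c ≤ c') : GBL v y b c' lam P := fun i =>
  (h i).mono (by
    have : (i : ℝ) * c ≤ i * c' := mul_le_mul_of_nonneg_left hc (Nat.cast_nonneg i)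
    linarith)

theorem GBL.level {P : Polynomial (Polynomial Ω)} {lam b' : ℝ} (h : GBL v y b c lam P)
    (hb : b ≤ b') : GBL v y b' c lam P := fun i => gb_smaller hb (h i)

end Dense

section Main

variable {k Ω : Type u} [Field k] [Field Ω] [Algebra k Ω]

/-- The constraint (C') over the base `C`, for the polynomials whose value satisfies `R`: from the
level `b` to the level `w`, with the same key polynomial `φ`, the Gauss value modulo `p`-th powers
gains `q` times the gain of `φ`. -/
def CprimeP (R : Ω → Prop) (p : ℕ) (v : RVal Ω) (K : IntermediateField k Ω) (q : ℕ)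
    (C : IntermediateField k Ω) (y : Ω) : Prop :=
  ∀ (T : Ω) (A : Polynomial (Polynomial Ω)) (φ : Polynomial Ω) (b w c κ : ℝ),
    Transcendental (adj C y) T → K = clI v (adj (adj C y) T) → PII C A →
    R (A.evalEval y T) → b < w →
    (∀ x : ℝ, b < x → x ≤ w → Lev v C y x φ (gval v y x φ)) →
    Gt v (c + (gval v y w φ - gval v y b φ)) T →
    (∀ ε : ℝ, 0 < ε → ∃ G, PII C G ∧ GBL v y b c (κ - ε) (A - G ^ p)) →
    ∀ ε : ℝ, 0 < ε → ∃ G, PII C G ∧ GBL v y w (c + (gval v y w φ - gval v y b φ))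
      (κ + q * (gval v y w φ - gval v y b φ) - ε) (A - G ^ p)

/-- The constraint (C') over the base `C`, for the exact representations of `a`. -/
def Cprime (p : ℕ) (v : RVal Ω) (K : IntermediateField k Ω) (a : Ω) (q : ℕ)
    (C : IntermediateField k Ω) (y : Ω) : Prop :=
  CprimeP (fun x => ∃ h ∈ K, h ≠ 0 ∧ ∃ g ∈ K, a * h ^ p - g ^ p = x) p v K q C y

/-- The constraint (C') over the base `C`, for the representations of `a` with an error of value
`≥ N₁`. -/
def CprimeE (p : ℕ) (v : RVal Ω) (K : IntermediateField k Ω) (a : Ω) (q : ℕ) (h g : Ω) (N₁ : ℝ)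
    (C : IntermediateField k Ω) (y : Ω) : Prop :=
  CprimeP (fun x => v.Ge N₁ (a * h ^ p - g ^ p - x)) p v K q C y

variable {v : RVal Ω} {C K : IntermediateField k Ω} {y a : Ω} {p q : ℕ} {R : Ω → Prop}

/-- **The constraint over the closure of `C`**, for the centres over the closure of `C`. -/
theorem CprimeP.closed [IsAlgClosed Ω] [Fact p.Prime] [CharP Ω p] (hC : CprimeP R p v K q C y)
    (hy : Transcendental C y) {z : Ω} (hz : Transcendental (adj C y) z)
    (hK : K = clI v (adj (adj C y) z)) {A : Polynomial (Polynomial Ω)} (hA : PII C A)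
    (hrep : R (A.evalEval y z))
    {θ φ : Polynomial Ω} (hθ : θ ∈ PI (clI v C)) {b w c κ : ℝ} (hbw : b < w)
    (hφ : ∀ x : ℝ, b < x → x ≤ w → Lev v (clI v C) y x φ (gval v y x φ))
    (hT : Gt v (c + (gval v y w φ - gval v y b φ)) (z - θ.eval y))
    (hlo : ∀ ε : ℝ, 0 < ε → ∃ G, PII (clI v C) G ∧ GBL v y b c (κ - ε) (taylor θ A - G ^ p)) :
    ∀ ε : ℝ, 0 < ε → ∃ G, PII (clI v C) G ∧ GBL v y w (c + (gval v y w φ - gval v y b φ))
      (κ + q * (gval v y w φ - gval v y b φ) - ε) (taylor θ A - G ^ p) := by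
  have hp0 : 0 < (p : ℝ) := by exact_mod_cast (Fact.out : p.Prime).pos
  set t : ℝ := gval v y w φ - gval v y b φ with ht
  have hCN : C ≤ clI v C := TWM.le_clI C
  have hw := hφ w hbw le_rfl
  -- the key polynomial over `C`
  obtain ⟨φ', hφ'C, hφn, -, hφm, -⟩ := near_PI hw.mem y b (gval v y w φ + 1)
  obtain ⟨hφ'm, hφ'd⟩ := hφm hw.mon
  have hφn' : GB v b (gval v y w φ + 1) (taylor y (φ' - φ)) := by
    rw [← neg_sub, map_neg]
    exact hφn.neg
  have hgv : ∀ x : ℝ, b ≤ x → x ≤ w → gval v y x φ' = gval v y x φ := fun x h1 h2 =>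
    (gval_near (v := v) (y := y) (b := x) hw.ne_zero
      (by linarith [gval_mono (v := v) (y := y) (f := φ) h2]) (gb_smaller h1 hφn')).2.1
  have hlev : ∀ x : ℝ, b < x → x ≤ w → Lev v C y x φ' (gval v y x φ') := fun x h1 h2 =>
    (hφ x h1 h2).near hy hCN hφ'C hφ'm hφ'd (M := gval v y w φ + 1)
      (by linarith [gval_mono (v := v) (y := y) (f := φ) h2]) (gb_smaller h1.le hφn')
  have ht' : gval v y w φ' - gval v y b φ' = t := by
    rw [hgv w hbw.le le_rfl, hgv b le_rfl hbw.le]
  -- the centre over `C`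
  obtain ⟨lb, hlb⟩ := exists_gbl v y b c (taylor θ A)
  obtain ⟨lw, hlw⟩ := exists_gbl v y w (c + t) (taylor θ A)
  set δb : ℝ := max 0 (κ - lb) with hδb
  set δw : ℝ := max 0 (κ + q * t - lw) with hδw
  have hδb0 : 0 ≤ δb := le_max_left _ _
  have hδw0 : 0 ≤ δw := le_max_left _ _
  have hδb1 : κ - lb ≤ δb := le_max_right _ _
  have hδw1 : κ + q * t - lw ≤ δw := le_max_right _ _
  set M : ℝ := max (c + δb) (max (c + t + δw) (c + t + 1)) with hM
  have hM1 : c + δb ≤ M := le_max_left _ _
  have hM2 : c + t + δw ≤ M := (le_max_left _ _).trans (le_max_right _ _)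
  have hM3 : c + t + 1 ≤ M := (le_max_right _ _).trans (le_max_right _ _)
  obtain ⟨θ', hθ'C, hθn, -, -, -⟩ := near_PI hθ y b M
  have hθn' : GB v b M (taylor y (θ' - θ)) := by
    rw [← neg_sub, map_neg]
    exact hθn.neg
  have hdb : GBL v y b c κ (taylor θ' A - taylor θ A) := by
    have h1 := GBL.recentre_sub hδb0 (hθn'.mono hM1) hlb
    rw [taylor_taylor, sub_add_cancel] at h1
    exact h1.mono (by linarith)
  have hdw : GBL v y w (c + t) (κ + q * t) (taylor θ' A - taylor θ A) := by
    have h1 := GBL.recentre_sub hδw0 ((gb_smaller hbw.le hθn').mono hM2) hlw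
    rw [taylor_taylor, sub_add_cancel] at h1
    exact h1.mono (by linarith)
  -- the data over `C`
  have hθy : θ'.eval y ∈ adj C y := TWM.eval_mem_adj hθ'C y
  have hev : v.Ge M ((θ - θ').eval y) := by
    have h1 := hθn 0
    rwa [taylor_coeff_zero, Nat.cast_zero, zero_mul, sub_zero] at h1
  have hT' : Gt v (c + t) (z - θ'.eval y) := by
    have h1 : z - θ'.eval y = (z - θ.eval y) + (θ - θ').eval y := by
      rw [eval_sub]; ring
    rw [h1]
    exact hT.add fun h0 => by
      have := hev h0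
      linarith
  have hres := hC (z - θ'.eval y) (taylor θ' A) φ' b w c κ (TWJ.transc_sub hz hθy)
    (by rw [TWJ.adj_sub hθy]; exact hK) (pii_taylor hθ'C hA)
    (by rw [evalEval_taylor]; exact hrep)
    hbw hlev (by rw [ht']; exact hT') (by
      intro ε hε
      obtain ⟨G, hG, hGl⟩ := hlo ε hε
      obtain ⟨G', hG', hGn⟩ := near_PII hG y b c (κ / p)
      refine ⟨G', hG', ?_⟩
      have h1 : taylor θ' A - G' ^ p = (taylor θ' A - taylor θ A) + (taylor θ A - G ^ p) +
          (G - G') ^ p := by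
        rw [sub_pow_char]; ring
      have h2 : GBL v y b c κ ((G - G') ^ p) :=
        (hGn.pow p).mono (by rw [mul_div_cancel₀ _ hp0.ne'])
      rw [h1]
      exact ((hdb.mono (by linarith)).add hGl).add (h2.mono (by linarith)))
  rw [ht'] at hres
  intro ε hε
  obtain ⟨G, hG, hGl⟩ := hres ε hε
  refine ⟨G, fun i l => hCN (hG i l), ?_⟩
  have h1 : taylor θ A - G ^ p = (taylor θ' A - G ^ p) - (taylor θ' A - taylor θ A) := by ring
  rw [h1]
  exact hGl.sub (hdw.mono (by linarith))

/-- The same for the polynomials over the closure of `C`. -/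
theorem CprimeP.closed_near [IsAlgClosed Ω] [Fact p.Prime] [CharP Ω p]
    (hC : CprimeP R p v K q C y) {M₀ : ℝ} (hR : ∀ x x' : Ω, v.Ge M₀ (x - x') → R x → R x')
    (hy : Transcendental C y) {z : Ω} (hz : Transcendental (adj C y) z)
    (hK : K = clI v (adj (adj C y) z)) {A : Polynomial (Polynomial Ω)} (hA : PII (clI v C) A)
    (hrep : R (A.evalEval y z))
    {θ φ : Polynomial Ω} (hθ : θ ∈ PI (clI v C)) {b w c κ : ℝ} (hbw : b < w)
    (hφ : ∀ x : ℝ, b < x → x ≤ w → Lev v (clI v C) y x φ (gval v y x φ))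
    (hT : Gt v (c + (gval v y w φ - gval v y b φ)) (z - θ.eval y))
    (hlo : ∀ ε : ℝ, 0 < ε → ∃ G, PII (clI v C) G ∧ GBL v y b c (κ - ε) (taylor θ A - G ^ p)) :
    ∀ ε : ℝ, 0 < ε → ∃ G, PII (clI v C) G ∧ GBL v y w (c + (gval v y w φ - gval v y b φ))
      (κ + q * (gval v y w φ - gval v y b φ) - ε) (taylor θ A - G ^ p) := by
  set t : ℝ := gval v y w φ - gval v y b φ with ht
  have ht0 : 0 ≤ t := by
    have := gval_mono (v := v) (y := y) (f := φ) hbw.le
    linarith
  set c₀ : ℝ := min c (min (gval v y b θ) (v z)) with hc₀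
  have hc1 : c₀ ≤ c := min_le_left _ _
  have hc2 : c₀ ≤ gval v y b θ := (min_le_right _ _).trans (min_le_left _ _)
  have hc3 : c₀ ≤ v z := (min_le_right _ _).trans (min_le_right _ _)
  obtain ⟨A', hA', hAn⟩ := near_PII hA y b c₀ (max M₀ (κ + q * t))
  have hev : v.Ge M₀ (A.evalEval y z - A'.evalEval y z) := by
    rw [← evalEval_sub]
    exact (hAn.ge_evalEval ((v.ge_self z).mono hc3)).mono (le_max_left _ _)
  have hqt : 0 ≤ (q : ℝ) * t := mul_nonneg (Nat.cast_nonneg q) ht0
  have hdb : GBL v y b c (κ + q * t) (taylor θ A - taylor θ A') := by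
    rw [← map_sub]
    exact ((GBL.recentre (GB_gval.mono hc2) hAn).radius hc1).mono (le_max_right _ _)
  have hdw : GBL v y w (c + t) (κ + q * t) (taylor θ A - taylor θ A') :=
    (hdb.level hbw.le).radius (by linarith)
  have hres := hC.closed hy hz hK hA' (hR _ _ hev hrep) hθ hbw hφ hT (κ := κ) (by
    intro ε hε
    obtain ⟨G, hG, hGl⟩ := hlo ε hε
    refine ⟨G, hG, ?_⟩
    have h1 : taylor θ A' - G ^ p = (taylor θ A - G ^ p) - (taylor θ A - taylor θ A') := by ring
    rw [h1]
    exact hGl.sub (hdb.mono (by linarith)))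
  intro ε hε
  obtain ⟨G, hG, hGl⟩ := hres ε hε
  refine ⟨G, hG, ?_⟩
  have h1 : taylor θ A - G ^ p = (taylor θ A' - G ^ p) + (taylor θ A - taylor θ A') := by ring
  rw [h1]
  exact hGl.add (hdw.mono (by linarith))

end Main

end Pool.Agent.TWJ2
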