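import Pool.Agent.Lib.TWJ2.SLv

/-!
# TANK W, ROW J: the distance to the `p`-th powers at two levels of one key interval

* `blk`: the blocks of `p` digits; `gb_pow_iff`: the distance to the `p`-th powers is decided
  block by block;
* `two_levels`: on a key interval one `g` is good at both ends;
* `GB.interp`: interpolation of Gauss bounds (concavity).
-/

set_option autoImplicit false

open Polynomial

namespace Pool.Agent.TWJ2

open Pool.Agent.H15JM (RVal)
open Pool.Agent.TWM (PI PII Gt GB)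
open Pool.Agent.TWJ2.Dg

universe u

variable {k Ω : Type u} [Field k] [Field Ω] [Algebra k Ω]

/-- Interpolation of Gauss bounds. -/
theorem GB.interp {v : RVal Ω} {b b' lam lam' s : ℝ} {f : Polynomial Ω} (hs : 0 ≤ s) (hs' : s ≤ 1)
    (h : GB v b lam f) (h' : GB v b' lam' f) :
    GB v ((1 - s) * b + s * b') ((1 - s) * lam + s * lam') f := by
  intro m h0
  have h1 := h m h0
  have h2 := h' m h0
  have h3 : (1 - s) * (lam - m * b) ≤ (1 - s) * v (f.coeff m) :=
    mul_le_mul_of_nonneg_left h1 (by linarith)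
  have h4 : s * (lam' - m * b') ≤ s * v (f.coeff m) := mul_le_mul_of_nonneg_left h2 hs
  nlinarith

/-- The block of index `m` of `p` digits. -/
noncomputable def blk (p : ℕ) (φ f : Polynomial Ω) (m : ℕ) : Polynomial Ω :=
  ∑ j ∈ Finset.range p, dig φ f (p * m + j) * φ ^ j

variable {C : IntermediateField k Ω} {v : RVal Ω} {y : Ω} {b β lam : ℝ} {φ : Polynomial Ω}
  {p : ℕ} {f g G : Polynomial Ω}

theorem dig_blk (hφ : φ.Monic) (f : Polynomial Ω) (m j : ℕ) :
    dig φ (blk p φ f m) j = if j < p then dig φ f (p * m + j) else 0 := by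
  rw [blk, dig_sum_pow hφ p _ (fun j => degree_dig hφ f _) j]

theorem blk_mem (hφC : φ ∈ PI C) (hφ : φ.Monic) (hf : f ∈ PI C) (m : ℕ) : blk p φ f m ∈ PI C :=
  sum_mem fun _ _ => mul_mem (dig_mem hφC hφ hf _) (pow_mem hφC _)

/-- The digits of a `p`-th power. -/
theorem dig_pow_block [hp : Fact p.Prime] [CharP Ω p] (hφ : φ.Monic) (h0 : 0 < φ.natDegree)
    (g : Polynomial Ω) (m j : ℕ) (hj : j < p) :
    dig φ (g ^ p) (p * m + j) = dig φ ((dig φ g m) ^ p) j := by
  have hpp := hp.out.pos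
  obtain ⟨N, hN⟩ := exists_bound hφ h0 g
  have hN' : g.degree < (φ ^ (N + m + 1)).degree :=
    lt_of_lt_of_le hN (degree_pow_mono hφ (by omega))
  have h1 : g ^ p = ∑ l ∈ Finset.range (N + m + 1), φ ^ (p * l) * (dig φ g l) ^ p := by
    conv_lhs => rw [expand_of_lt hφ hN']
    rw [sum_pow_char]
    refine Finset.sum_congr rfl fun l _ => ?_
    rw [mul_pow, ← pow_mul, mul_comm, mul_comm l p]
  rw [h1, dig_sum hφ, Finset.sum_eq_single m]
  · exact dig_shift hφ _ _ _
  · intro l _ hlm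
    rcases lt_or_gt_of_ne hlm with h2 | h2
    · have h3 : p * m + j = p * l + (p * (m - l) + j) := by
        have : p * m = p * l + p * (m - l) := by
          rw [← mul_add, Nat.add_sub_cancel' h2.le]
        omega
      rw [h3, dig_shift hφ]
      refine dig_of_lt hφ (lt_of_lt_of_le (degree_pow_lt (N := 1) hφ hpp ?_)
        (degree_pow_mono hφ ?_))
      · rw [pow_one]
        exact degree_dig hφ g l
      · have h4 : p * 1 ≤ p * (m - l) := Nat.mul_le_mul_left p (by omega)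
        omega
    · refine dig_shift_lt hφ _ ?_
      have h4 : p * (m + 1) ≤ p * l := Nat.mul_le_mul_left p h2
      rw [mul_add, mul_one] at h4
      omega
  · intro h2
    exact absurd (Finset.mem_range.2 (by omega)) h2

/-- The distance to the `p`-th powers is decided block by block. -/
theorem DT.gb_pow_iff [hp : Fact p.Prime] [CharP Ω p] (h : DT v C y b φ β) (hG : G ∈ PI C)
    (hg : g ∈ PI C) : GB v b lam (taylor y (G - g ^ p)) ↔
    ∀ m : ℕ, GB v b (lam - (p * m : ℕ) * β) (taylor y (blk p φ G m - (dig φ g m) ^ p)) := by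
  have hpp := hp.out.pos
  rw [h.iff _ (sub_mem hG (pow_mem hg p))]
  constructor
  · intro h1 m
    rw [h.iff _ (sub_mem (blk_mem h.mem h.mon hG m) (pow_mem (dig_mem h.mem h.mon hg m) p))]
    intro j
    by_cases hj : j < p
    · have h2 := h1 (p * m + j)
      rw [dig_sub h.mon, dig_pow_block h.mon h.pos g m j hj] at h2
      rw [dig_sub h.mon, dig_blk h.mon, if_pos hj]
      refine h2.mono ?_
      push_cast
      linarith
    · have h3 : dig φ ((dig φ g m) ^ p) j = 0 := by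
        refine dig_of_lt h.mon (lt_of_lt_of_le (degree_pow_lt (N := 1) h.mon hpp ?_)
          (degree_pow_mono h.mon ?_))
        · rw [pow_one]
          exact degree_dig h.mon g m
        · omega
      rw [dig_sub h.mon, dig_blk h.mon, if_neg hj, h3, sub_zero, eval_zero]
      exact RVal.Ge.zero
  · intro h1 l
    have h2 : p * (l / p) + l % p = l := Nat.div_add_mod l p
    have h3 : l % p < p := Nat.mod_lt l hpp
    have h4 := (h.iff _ (sub_mem (blk_mem h.mem h.mon hG (l / p))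
      (pow_mem (dig_mem h.mem h.mon hg (l / p)) p)) _).1 (h1 (l / p)) (l % p)
    rw [dig_sub h.mon, dig_blk h.mon, if_pos h3, ← dig_pow_block h.mon h.pos g (l / p) (l % p) h3,
      h2, ← dig_sub h.mon] at h4
    refine h4.mono ?_
    have h5 : (l : ℝ) = ((p * (l / p) : ℕ) : ℝ) + ((l % p : ℕ) : ℝ) := by
      conv_lhs => rw [← h2]
      push_cast
      ring
    rw [h5]
    linarith

/-- One block, two levels. -/
theorem one_block [hp : Fact p.Prime] [CharP Ω p] {u w βu lam₁ lam₂ : ℝ}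
    (hu : DT v C y u φ βu) (huw : u ≤ w) {B d₁ d₂ : Polynomial Ω}
    (h₁ : d₁ ∈ PI C) (h₂ : d₂ ∈ PI C) (e₁ : d₁.degree < φ.degree) (e₂ : d₂.degree < φ.degree)
    (H₁ : GB v u lam₁ (taylor y (B - d₁ ^ p))) (H₂ : GB v w lam₂ (taylor y (B - d₂ ^ p))) :
    (GB v w lam₂ (taylor y (B - d₁ ^ p))) ∨ (GB v u lam₁ (taylor y (B - d₂ ^ p))) := by
  by_contra hcon
  push Not at hcon
  obtain ⟨n₁, n₂⟩ := hcon
  have a₁ : GB v w lam₁ (taylor y (B - d₁ ^ p)) := H₁.radius_le huw
  have h12 : lam₁ < lam₂ := by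
    by_contra h
    exact n₁ (a₁.mono (not_lt.1 h))
  have h3 : (d₁ - d₂) ^ p = (B - d₂ ^ p) - (B - d₁ ^ p) := by
    rw [sub_pow_char]
    ring
  have h4 : GB v w lam₁ (taylor y ((d₁ - d₂) ^ p)) := by
    rw [h3, map_sub]
    exact (H₂.mono h12.le).sub a₁
  have h5 : v.Ge lam₁ (((d₁ - d₂).eval y) ^ p) := by
    have := eval_of_GB h4
    rwa [eval_pow] at this
  have hd : (d₁ - d₂) ∈ PI C := sub_mem h₁ h₂
  have he : (d₁ - d₂).degree < φ.degree :=
    lt_of_le_of_lt (degree_sub_le _ _) (max_lt e₁ e₂)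
  have h6 : GB v u lam₁ (taylor y ((d₁ - d₂) ^ p)) := by
    by_cases h0 : (d₁ - d₂).eval y = 0
    · have h7 : d₁ - d₂ = 0 := by
        by_contra h8
        exact hu.nz _ hd h8 h0
      rw [h7, zero_pow hp.out.ne_zero, map_zero]
      exact GB.zero
    · have h7 : GB v u (v ((d₁ - d₂).eval y)) (taylor y (d₁ - d₂)) :=
        hu.gb_small hd he fun _ => le_rfl
      rw [taylor_pow]
      refine (GB.pow h7 p).mono ?_
      have h8 := h5 (pow_ne_zero p h0)
      rwa [v.map_pow h0] at h8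
  refine n₂ ?_
  have h7 : B - d₂ ^ p = (B - d₁ ^ p) + (d₁ - d₂) ^ p := by
    rw [h3]
    ring
  rw [h7, map_add]
  exact H₁.add h6

/-- **On a key interval one `g` is good at both ends.** -/
theorem two_levels [hp : Fact p.Prime] [CharP Ω p] {u w βu βw lam₁ lam₂ : ℝ}
    (hu : DT v C y u φ βu) (hw : DT v C y w φ βw) (huw : u ≤ w) {G g₁ g₂ : Polynomial Ω}
    (hG : G ∈ PI C) (h₁ : g₁ ∈ PI C) (h₂ : g₂ ∈ PI C)
    (H₁ : GB v u lam₁ (taylor y (G - g₁ ^ p))) (H₂ : GB v w lam₂ (taylor y (G - g₂ ^ p))) :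
    ∃ g ∈ PI C, (∀ m, dig φ g m = dig φ g₁ m ∨ dig φ g m = dig φ g₂ m) ∧
      GB v u lam₁ (taylor y (G - g ^ p)) ∧ GB v w lam₂ (taylor y (G - g ^ p)) := by
  have H₁' := (hu.gb_pow_iff hG h₁).1 H₁
  have H₂' := (hw.gb_pow_iff hG h₂).1 H₂
  have key : ∀ m : ℕ, ∃ d, (d = dig φ g₁ m ∨ d = dig φ g₂ m) ∧
      GB v u (lam₁ - (p * m : ℕ) * βu) (taylor y (blk p φ G m - d ^ p)) ∧
      GB v w (lam₂ - (p * m : ℕ) * βw) (taylor y (blk p φ G m - d ^ p)) := by
    intro m
    rcases one_block hu huw (dig_mem hu.mem hu.mon h₁ m) (dig_mem hu.mem hu.mon h₂ m)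
      (degree_dig hu.mon g₁ m) (degree_dig hu.mon g₂ m) (H₁' m) (H₂' m) with h | h
    · exact ⟨_, Or.inl rfl, H₁' m, h⟩
    · exact ⟨_, Or.inr rfl, h, H₂' m⟩
  choose d hd hd₁ hd₂ using key
  obtain ⟨N₁, hN₁⟩ := exists_bound hu.mon hu.pos g₁
  obtain ⟨N₂, hN₂⟩ := exists_bound hu.mon hu.pos g₂
  set N := max N₁ N₂ with hN
  have hdz : ∀ m, N ≤ m → d m = 0 := by
    intro m hm
    have z₁ : dig φ g₁ m = 0 := dig_of_lt hu.mon
      (lt_of_lt_of_le hN₁ (degree_pow_mono hu.mon ((le_max_left _ _).trans hm)))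
    have z₂ : dig φ g₂ m = 0 := dig_of_lt hu.mon
      (lt_of_lt_of_le hN₂ (degree_pow_mono hu.mon ((le_max_right _ _).trans hm)))
    rcases hd m with h | h
    · rw [h, z₁]
    · rw [h, z₂]
  have hdeg : ∀ m, (d m).degree < φ.degree := by
    intro m
    rcases hd m with h | h
    · rw [h]
      exact degree_dig hu.mon _ _
    · rw [h]
      exact degree_dig hu.mon _ _
  have hdC : ∀ m, d m ∈ PI C := by
    intro m
    rcases hd m with h | h
    · rw [h]
      exact dig_mem hu.mem hu.mon h₁ m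
    · rw [h]
      exact dig_mem hu.mem hu.mon h₂ m
  set g : Polynomial Ω := ∑ m ∈ Finset.range N, d m * φ ^ m with hg
  have hgC : g ∈ PI C := sum_mem fun m _ => mul_mem (hdC m) (pow_mem hu.mem m)
  have hdg : ∀ m, dig φ g m = d m := by
    intro m
    rw [hg, dig_sum_pow hu.mon N d hdeg]
    split_ifs with h
    · rfl
    · exact (hdz m (not_lt.1 h)).symm
  refine ⟨g, hgC, fun m => ?_, ?_, ?_⟩
  · rw [hdg]
    exact hd m
  · rw [hu.gb_pow_iff hG hgC]
    intro m
    rw [hdg]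
    exact hd₁ m
  · rw [hw.gb_pow_iff hG hgC]
    intro m
    rw [hdg]
    exact hd₂ m

end Pool.Agent.TWJ2
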