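import Pool.Agent.Lib.TWJ2.Lev
import Pool.Agent.Lib.TWJ2.Gauss
import Pool.Agent.Lib.TWJ2.Db

/-!
# TANK W, ROW J: the digit theorem at a level, as structure `DT`
-/

set_option autoImplicit false

open Polynomial

namespace Pool.Agent.TWJ2

open Pool.Agent.H15JM (RVal)
open Pool.Agent.TWM (PI PII Gt GB)

universe u

variable {k Ω : Type u} [Field k] [Field Ω] [Algebra k Ω] [IsAlgClosed Ω]
  {C : IntermediateField k Ω} {v : RVal Ω} {y : Ω} {b b' β β' lam lam' : ℝ} {φ : Polynomial Ω}
  {p : ℕ}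

/-- The digit theorem. -/
theorem Lev.dt (h : Lev v C y b φ β) (hy : Transcendental C y) : DT v C y b φ β where
  mem := h.mem
  mon := h.mon
  pos := h.natDegree_pos
  nz := fun _ hf h0 => Pool.Agent.TWJ2.eval_ne hy hf h0
  gty := h.eval_gt
  iff := fun _ hf _ => h.digit hf

/-- Two levels with the same key polynomial. -/
theorem Lev.dt_between {φ' : Polynomial Ω} (h : Lev v C y b φ β) (h' : Lev v C y b' φ' β')
    (hy : Transcendental C y) (hd : φ'.natDegree ≤ φ.natDegree) {t : ℝ}
    (ht : b ≤ t) (ht' : t ≤ b') : DT v C y t φ' (gval v y t φ') :=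
  (Lev.between h h' hd ht ht').dt hy

end Pool.Agent.TWJ2
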