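import Pool.Agent.Lib.TWJ2.Db

/-!
# TANK W, ROW J: splicing of digits, and the block rule at a jump

* `splice φ K f g`: the digits `l < K` of `f` and the digits `l ≥ K` of `g`;
* `dig_splice_pow`: the same for the `p`-th powers (digits `< p K` and `≥ p K`);
* `LCd`: left compatibility of the new key polynomial at a level `b < b₁`;
* `block_rule`: if the distance of `P` to the `p`-th powers loses less than `L (b₁ - b)` at a level
  `b < b₁`, `L < p K m`, then at the level `b₁` a digit `l < p K` is responsible for it.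
-/

set_option autoImplicit false

open Polynomial

namespace Pool.Agent.TWJ2

open Pool.Agent.H15JM (RVal)
open Pool.Agent.TWM (PI PII Gt GB)
open Pool.Agent.TWJ2.Dg

universe u

variable {k Ω : Type u} [Field k] [Field Ω] [Algebra k Ω]

/-- The digits `l < K` of `f` and the digits `l ≥ K` of `g`. -/
noncomputable def splice (φ : Polynomial Ω) (K : ℕ) (f g : Polynomial Ω) : Polynomial Ω :=
  f %ₘ φ ^ K + φ ^ K * (g /ₘ φ ^ K)

section

variable {C : IntermediateField k Ω} {v : RVal Ω} {y : Ω} {b b₁ β lam : ℝ} {φ : Polynomial Ω}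
  {p K : ℕ} {f g P H H₁ H₂ : Polynomial Ω}

theorem dig_div (hφ : φ.Monic) (f : Polynomial Ω) (K l : ℕ) :
    dig φ (f /ₘ φ ^ K) l = dig φ f (K + l) := by
  rw [dig, dig, pow_add, div_div f (hφ.pow K) (hφ.pow l)]

theorem dig_high (hφ : φ.Monic) (f : Polynomial Ω) (K l : ℕ) :
    dig φ (φ ^ K * (f /ₘ φ ^ K)) l = if l < K then 0 else dig φ f l := by
  split_ifs with h
  · exact dig_shift_lt hφ _ h
  · obtain ⟨m, rfl⟩ := Nat.exists_eq_add_of_le (not_lt.1 h)
    rw [dig_shift hφ, dig_div hφ]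

theorem dig_low (hφ : φ.Monic) (f : Polynomial Ω) (K l : ℕ) :
    dig φ (f %ₘ φ ^ K) l = if l < K then dig φ f l else 0 := by
  have h1 : f %ₘ φ ^ K = f - φ ^ K * (f /ₘ φ ^ K) := by
    have h2 := modByMonic_add_div f (φ ^ K)
    linear_combination h2
  rw [h1, dig_sub hφ, dig_high hφ]
  split_ifs <;> ring

theorem dig_splice (hφ : φ.Monic) (K : ℕ) (f g : Polynomial Ω) (l : ℕ) :
    dig φ (splice φ K f g) l = if l < K then dig φ f l else dig φ g l := by
  rw [splice, dig_add hφ, dig_high hφ, dig_low hφ]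
  split_ifs <;> ring

theorem splice_mem (hφC : φ ∈ PI C) (hφ : φ.Monic) (K : ℕ) (hf : f ∈ PI C) (hg : g ∈ PI C) :
    splice φ K f g ∈ PI C :=
  add_mem (PI_div (pow_mem hφC K) (hφ.pow K) hf).2
    (mul_mem (pow_mem hφC K) (PI_div (pow_mem hφC K) (hφ.pow K) hg).1)

/-- The splice in terms of the difference. -/
theorem splice_eq_add (φ : Polynomial Ω) (K : ℕ) (f g : Polynomial Ω) :
    splice φ K f g = g + (f - g) %ₘ φ ^ K := by
  have h1 := modByMonic_add_div g (φ ^ K)
  rw [splice, sub_modByMonic]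
  linear_combination h1

theorem splice_eq_sub (hφ : φ.Monic) (K : ℕ) (f g : Polynomial Ω) :
    splice φ K f g = f - φ ^ K * ((f - g) /ₘ φ ^ K) := by
  have h1 := modByMonic_add_div f (φ ^ K)
  rw [splice, sub_div f g (hφ.pow K)]
  linear_combination h1

/-- The digits of the `p`-th powers of a splice. -/
theorem dig_splice_pow [hp : Fact p.Prime] [CharP Ω p] (hφ : φ.Monic) (h0 : 0 < φ.natDegree)
    (K : ℕ) (f g : Polynomial Ω) (l : ℕ) : dig φ ((splice φ K f g) ^ p) l =
      if l < p * K then dig φ (f ^ p) l else dig φ (g ^ p) l := by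
  have hpp := hp.out.pos
  have h2 : p * (l / p) + l % p = l := Nat.div_add_mod l p
  have h3 : l % p < p := Nat.mod_lt l hpp
  have key : ∀ h : Polynomial Ω, dig φ (h ^ p) l = dig φ ((dig φ h (l / p)) ^ p) (l % p) := by
    intro h
    have := dig_pow_block hφ h0 h (l / p) (l % p) h3
    rwa [h2] at this
  have h4 : l / p < K ↔ l < p * K := by
    rw [Nat.div_lt_iff_lt_mul hpp, mul_comm]
  rw [key, key f, key g, dig_splice hφ]
  by_cases h5 : l / p < K
  · rw [if_pos h5, if_pos (h4.1 h5)]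
  · rw [if_neg h5, if_neg (fun h => h5 (h4.2 h))]

/-- The splice of two approximations by `p`-th powers. -/
theorem dig_splice_sub_pow [hp : Fact p.Prime] [CharP Ω p] (hφ : φ.Monic) (h0 : 0 < φ.natDegree)
    (K : ℕ) (P f g : Polynomial Ω) (l : ℕ) : dig φ (P - (splice φ K f g) ^ p) l =
      if l < p * K then dig φ (P - f ^ p) l else dig φ (P - g ^ p) l := by
  rw [dig_sub hφ, dig_splice_pow hφ h0]
  split_ifs
  · rw [dig_sub hφ]
  · rw [dig_sub hφ]

/-- Left compatibility of the key polynomial `φ` of the level `b₁` at the level `b < b₁`; `m` is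
the left slope of the Gauss value of `φ`. -/
structure LCd (v : RVal Ω) (C : IntermediateField k Ω) (y : Ω) (b b₁ : ℝ) (φ : Polynomial Ω)
    (m : ℝ) : Prop where
  lt : b < b₁
  pos : 0 < m
  split : ∀ f ∈ PI C, ∀ (lam : ℝ) (L : ℕ), GB v b lam (taylor y f) →
    GB v b lam (taylor y (φ ^ L * (f /ₘ φ ^ L)))
  gain : ∀ h ∈ PI C, ∀ (lam : ℝ) (L : ℕ), GB v b lam (taylor y (φ ^ L * h)) →
    GB v b₁ (lam + L * m * (b₁ - b)) (taylor y (φ ^ L * h))

/-- The digits `≥ L` gain. -/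
theorem LCd.high {m : ℝ} (hl : LCd v C y b b₁ φ m) (h : DT v C y b₁ φ β) {f : Polynomial Ω}
    (hf : f ∈ PI C) (h1 : GB v b lam (taylor y f)) (L : ℕ) :
    ∀ l : ℕ, L ≤ l → v.Ge (lam + L * m * (b₁ - b) - l * β) ((dig φ f l).eval y) := by
  intro l hLl
  have hq : f /ₘ φ ^ L ∈ PI C := (PI_div (pow_mem h.mem L) (h.mon.pow L) hf).1
  have h2 := hl.gain _ hq lam L (hl.split f hf lam L h1)
  have h3 := (h.iff _ (mul_mem (pow_mem h.mem L) hq) _).1 h2 l
  rwa [dig_high h.mon, if_neg (not_lt.2 hLl)] at h3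

/-- **The block rule.** -/
theorem block_rule [hp : Fact p.Prime] [CharP Ω p] {m κ₁ L : ℝ} (hl : LCd v C y b b₁ φ m)
    (h : DT v C y b₁ φ β) (hP : P ∈ PI C)
    (hκ : ∀ e : ℝ, 0 < e → ∀ G ∈ PI C, ¬ GB v b₁ (κ₁ + e) (taylor y (P - G ^ p)))
    (hg : g ∈ PI C) (h1 : GB v b (κ₁ - L * (b₁ - b)) (taylor y (P - g ^ p)))
    (hL : L < (p * K : ℕ) * m) :
    ∃ e₀ : ℝ, 0 < e₀ ∧ ∀ G ∈ PI C,
      ¬ ∀ l : ℕ, l < p * K → v.Ge (κ₁ + e₀ - l * β) ((dig φ (P - G ^ p) l).eval y) := by
  have hb : 0 < b₁ - b := sub_pos.2 hl.lt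
  have he : 0 < ((p * K : ℕ) * m - L) * (b₁ - b) := mul_pos (sub_pos.2 hL) hb
  refine ⟨((p * K : ℕ) * m - L) * (b₁ - b), he, fun G hG h2 => ?_⟩
  have hS : splice φ K G g ∈ PI C := splice_mem h.mem h.mon K hG hg
  refine hκ _ he _ hS ((h.iff _ (sub_mem hP (pow_mem hS p)) _).2 fun l => ?_)
  rw [dig_splice_sub_pow h.mon h.pos]
  split_ifs with h3
  · exact h2 l h3
  · have h4 := hl.high h (sub_mem hP (pow_mem hg p)) h1 (p * K) l (not_lt.1 h3)
    refine h4.mono (le_of_eq ?_)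
    ring

/-- The block rule in two variables, coefficient by coefficient: a bound for the digits `< p K`
at the level `b₁` and a bound for the whole at the level `b` give a bound for the whole at the
level `b₁`, for a spliced `G`. -/
theorem splice_bound [hp : Fact p.Prime] [CharP Ω p] {m lam₀ : ℝ} (hl : LCd v C y b b₁ φ m)
    (h : DT v C y b₁ φ β) (hP : P ∈ PI C) (hf : f ∈ PI C) (hg : g ∈ PI C)
    (h1 : GB v b lam₀ (taylor y (P - g ^ p)))
    (h2 : ∀ l : ℕ, l < p * K → v.Ge (lam - l * β) ((dig φ (P - f ^ p) l).eval y))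
    (h3 : lam ≤ lam₀ + (p * K : ℕ) * m * (b₁ - b)) :
    GB v b₁ lam (taylor y (P - (splice φ K f g) ^ p)) := by
  have hS : splice φ K f g ∈ PI C := splice_mem h.mem h.mon K hf hg
  refine (h.iff _ (sub_mem hP (pow_mem hS p)) _).2 fun l => ?_
  rw [dig_splice_sub_pow h.mon h.pos]
  split_ifs with h4
  · exact h2 l h4
  · exact (hl.high h (sub_mem hP (pow_mem hg p)) h1 (p * K) l (not_lt.1 h4)).mono (by linarith)

end

end Pool.Agent.TWJ2
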