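import Pool.Agent.Lib.TWJ2.Back
import Pool.Agent.Lib.TWJ2.Splice
import Pool.Agent.Lib.TWJ2.LevDT

/-!
# TANK W, ROW J: the distance drop

`α ∈ C` is nearer to the `p`-th powers of `C(y)` than to the ones of `C`. Then there are levels
`(b, φ)` and `h₀` over `C` of degree smaller than the key degree such that exactly one digit
`l' ∈ [1, p)` of `α - h₀ ^ p` is responsible for its Gauss value, with a margin, and this Gauss value
is as near as one wants to the distance of `α` to the `p`-th powers of `C`.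

* `exists_beyond`: nearer to `y` than finitely many algebraic elements;
* `exists_gb_of_rat`: a rational function near `α` gives a polynomial near `α` at a level;
* `drop`: the statement.
-/

set_option autoImplicit false

open Polynomial

namespace Pool.Agent.TWJ2

open Pool.Agent.H15JM (RVal)
open Pool.Agent.LU1 (adj)
open Pool.Agent.D2 (Ctx0)
open Pool.Agent.TW
open Pool.Agent.TWM (PI PII GB Gt C_mem_PI)
open Pool.Agent.TWJ (IsMin)
open Pool.Agent.TWJ2.Dg

universe u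

variable {k Ω : Type u} [Field k] [Field Ω] [Algebra k Ω] {v : RVal Ω}
  {C : IntermediateField k Ω} {y : Ω} {p : ℕ}

/-- Nearer to `y` than finitely many algebraic elements. -/
theorem exists_beyond [IsAlgClosed Ω] (h0 : Ctx0 k v) (hfull : Full v C)
    (hy : Transcendental C y) (S : Finset Ω) (hS : ∀ ζ ∈ S, IsAlgebraic C ζ) :
    ∃ θ : Ω, IsAlgebraic C θ ∧ ∀ ζ ∈ S, v (y - ζ) < v (y - θ) := by
  classical
  induction S using Finset.induction_on with
  | empty => exact ⟨0, isAlgebraic_zero, fun ζ hζ => absurd hζ (Finset.notMem_empty ζ)⟩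
  | insert a S ha ih =>
    obtain ⟨θ, hθ, h1⟩ := ih fun ζ hζ => hS ζ (Finset.mem_insert_of_mem hζ)
    obtain ⟨θ₂, h4, h5⟩ := exists_closer h0 hfull hy (hS a (Finset.mem_insert_self a S))
    rcases le_total (v (y - θ)) (v (y - θ₂)) with h | h
    · refine ⟨θ₂, h4, fun ζ hζ => ?_⟩
      rcases Finset.mem_insert.1 hζ with rfl | h6
      · exact h5
      · exact (h1 ζ h6).trans_le h
    · refine ⟨θ, hθ, fun ζ hζ => ?_⟩
      rcases Finset.mem_insert.1 hζ with rfl | h6
      · exact h5.trans_le h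
      · exact h1 ζ h6

theorem rb_of_far [IsAlgClosed Ω] {η : Ω} {ρ : ℝ} (hy : Transcendental C y)
    (hη : IsMin v C y η ρ) {B : C[X]} (hB : B ≠ 0)
    (hr : ∀ ζ : Ω, aeval ζ B = 0 → v (y - ζ) ≤ ρ) : RB v C η ρ B := by
  refine RB.of_roots hB fun ζ hζ => ?_
  have halg : IsAlgebraic C ζ := ⟨B, hB, hζ⟩
  have hyζ : y - ζ ≠ 0 := by
    intro h1
    rw [sub_eq_zero] at h1
    exact hy (by rw [h1]; exact halg)
  have hyη : y - η ≠ 0 := by
    intro h1
    rw [sub_eq_zero] at h1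
    exact hy (by rw [h1]; exact hη.sep.isIntegral.isAlgebraic)
  have h2 : v (y - ζ) < v (y - η) := (hr ζ hζ).trans_lt hη.lt
  have hne : ζ ≠ η := by
    rintro rfl
    exact lt_irrefl _ h2
  refine ⟨hne, ?_⟩
  have h3 := v.add_of_lt hyζ (neg_ne_zero.2 hyη) (by rw [v.map_neg _ hyη]; exact h2)
  have h4 : y - ζ + -(y - η) = η - ζ := by ring
  rw [h4] at h3
  rw [h3.2]
  exact hr ζ hζ

/-- A rational function near `α` gives a polynomial near `α` at a level. -/
theorem exists_gb_of_rat [IsAlgClosed Ω] [hp : Fact p.Prime] [CharP Ω p] (h0 : Ctx0 k v)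
    (hfull : Full v C) (hd : Dns v C) (hy : Transcendental C y) {α g : Ω} (hα : α ∈ C)
    (hg : g ∈ adj C y) {lam : ℝ} (hge : v.Ge lam (α - g ^ p)) :
    ∃ g' ∈ PI C, ∃ (θ : Ω) (b : ℝ), IsAlgebraic C θ ∧ b ≤ v (y - θ) ∧
      GB v b lam (taylor y (Polynomial.C α - g' ^ p)) := by
  classical
  have hp0 : 0 < p := hp.out.pos
  have hpR : (0 : ℝ) < p := by exact_mod_cast hp0
  obtain ⟨A, B, hBy, hgAB⟩ : ∃ A B : C[X], aeval y B ≠ 0 ∧ g = aeval y A / aeval y B := by
    rw [TW.adj_eq, IntermediateField.mem_restrictScalars,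
      IntermediateField.mem_adjoin_simple_iff] at hg
    obtain ⟨A, B, h1⟩ := hg
    by_cases hB : aeval y B = 0
    · exact ⟨0, 1, by simp, by rw [h1, hB, div_zero, _root_.map_zero, zero_div]⟩
    · exact ⟨A, B, hB, h1⟩
  set α₀ : C := ⟨α, hα⟩ with hα₀
  set G : C[X] := Polynomial.C α₀ * B ^ p - A ^ p with hG
  have hGy : aeval y G = α * aeval y B ^ p - aeval y A ^ p := by
    rw [hG, _root_.map_sub, _root_.map_mul, _root_.map_pow, _root_.map_pow, aeval_C]
    rfl
  have hB0 : B ≠ 0 := by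
    rintro rfl
    exact hBy (_root_.map_zero _)
  set M : C[X] := B * (if G = 0 then 1 else G) with hM
  have hM0 : M ≠ 0 := by
    refine mul_ne_zero hB0 ?_
    split_ifs with h1
    · exact one_ne_zero
    · exact h1
  obtain ⟨θ₁, hθ₁, hθ₁'⟩ := exists_beyond h0 hfull hy (M.rootSet Ω).toFinset fun ζ hζ => by
    rw [Set.mem_toFinset, mem_rootSet] at hζ
    exact ⟨M, hM0, hζ.2⟩
  obtain ⟨θ₂, hθ₂, hθ₂'⟩ := exists_closer h0 hfull hy hθ₁
  set ρ := v (y - θ₁) with hρ
  have hfar : ∀ ζ : Ω, aeval ζ M = 0 → v (y - ζ) ≤ ρ := fun ζ hζ =>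
    (hθ₁' ζ (by rw [Set.mem_toFinset, mem_rootSet]; exact ⟨hM0, hζ⟩)).le
  obtain ⟨η, hη⟩ := TWJ.exists_min hd hy hθ₂ hθ₂'
  obtain ⟨π, hπ, hπ0, hπ1, hπ2⟩ := hd ρ (v (y - η)) hη.lt
  have hcen := TWJ.cen_of_min hy hη hπ hπ0 hπ1 hπ2
  set b := v π with hb
  have hint : IsIntegral C η := hη.sep.isIntegral
  have hyη : y ≠ η := by
    rintro rfl
    exact hy hint.isAlgebraic
  have hBRB : RB v C η ρ B := rb_of_far hy hη hB0 fun ζ hζ => hfar ζ (by
    rw [hM, _root_.map_mul, hζ, zero_mul])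
  have hinv : Reg v C y η ρ b (-v (aeval η B)) (aeval y B)⁻¹ :=
    Reg.inv_RB hη.lt hyη hBRB
  obtain ⟨cA, hcA⟩ := TWJ.GN.exists (v := v) (η := η) (b := b) A
  have hgReg : Reg v C y η ρ b (cA + -v (aeval η B)) g := by
    rw [hgAB, div_eq_mul_inv]
    exact (Reg.of_GN hcA).mul hinv
  obtain ⟨P, -, hP⟩ := TWJ.exists_poly hint hcen.tb le_rfl hπ1 hgReg (lam / p)
  have h1 : Reg v C y η ρ b lam ((g - aeval y P) ^ p) := by
    refine Reg.mono (le_of_eq ?_) (TWJ.Reg.pow' hP p)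
    field_simp
  have h2 : Reg v C y η ρ b lam (α - g ^ p) := by
    have e1 : α - g ^ p = aeval y G * (aeval y B)⁻¹ ^ p := by
      have h3 : (aeval y B : Ω) ^ p * (aeval y B)⁻¹ ^ p = 1 := by
        rw [← mul_pow, mul_inv_cancel₀ hBy, one_pow]
      rw [hGy, hgAB, div_eq_mul_inv, mul_pow]
      linear_combination (-α) * h3
    by_cases hG0 : G = 0
    · rw [e1, hG0, _root_.map_zero, zero_mul]
      exact TWJ.Reg.zero'
    · have hGRB : RB v C η ρ G := rb_of_far hy hη hG0 fun ζ hζ => hfar ζ (by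
        rw [hM, if_neg hG0, _root_.map_mul, hζ, mul_zero])
      have hGy0 := (hGRB.near (x := y) fun _ => hη.lt)
      have hBy0 := (hBRB.near (x := y) fun _ => hη.lt)
      have h3 : Reg v C y η ρ b (v (aeval η G) + p * -v (aeval η B)) (α - g ^ p) := by
        rw [e1]
        exact (Reg.of_RB hπ1.le hGRB).mul (TWJ.Reg.pow' hinv p)
      refine Reg.mono ?_ h3
      have hne : α - g ^ p ≠ 0 := by
        rw [e1]
        exact mul_ne_zero hGy0.1 (pow_ne_zero p (inv_ne_zero hBy))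
      have h4 := hge hne
      rw [e1, v.map_mul hGy0.1 (pow_ne_zero p (inv_ne_zero hBy)), inv_pow,
        v.map_inv (pow_ne_zero p hBy), v.map_pow hBy, hGy0.2.1, hBy0.2.1] at h4
      linarith
  have h3 : Reg v C y η ρ b lam (aeval y (Polynomial.C α₀ - P ^ p)) := by
    have e1 : aeval y (Polynomial.C α₀ - P ^ p) = (α - g ^ p) + (g - aeval y P) ^ p := by
      rw [_root_.map_sub, _root_.map_pow, aeval_C, sub_pow_char]
      change α - _ = _
      ring
    rw [e1]
    exact h2.add h1 hπ1.le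
  have h4 := TWJ.GN.of_Reg hy hπ1.le h3
  refine ⟨P.map (algebraMap C Ω), map_mem_PI P, η, b, hint.isAlgebraic, hπ2.le, ?_⟩
  have h5 := (gn_iff (RVal.Ge.of_le hπ2.le)).1 h4
  rw [Polynomial.map_sub, Polynomial.map_pow, map_C] at h5
  exact h5

/-- The margin of a unique minimum. -/
theorem exists_margin {ι : Type*} (S : Finset ι) (V : ι → ℝ) {κ : ℝ} (h : ∀ i ∈ S, κ < V i) :
    ∃ μ : ℝ, 0 < μ ∧ ∀ i ∈ S, κ + μ ≤ V i := by
  classical
  induction S using Finset.induction_on with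
  | empty => exact ⟨1, one_pos, fun i hi => absurd hi (Finset.notMem_empty i)⟩
  | insert a S ha ih =>
    obtain ⟨μ, hμ, h1⟩ := ih fun i hi => h i (Finset.mem_insert_of_mem hi)
    have h2 := h a (Finset.mem_insert_self a S)
    refine ⟨min μ (V a - κ), lt_min hμ (sub_pos.2 h2), fun i hi => ?_⟩
    rcases Finset.mem_insert.1 hi with rfl | h3
    · have := min_le_right μ (V i - κ)
      linarith
    · have := min_le_left μ (V a - κ)
      linarith [h1 i h3]

/-- **The distance drop.** -/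
theorem drop [IsAlgClosed Ω] [hp : Fact p.Prime] [CharP Ω p] (h0 : Ctx0 k v)
    (hfull : Full v C) (hd : Dns v C) (hy : Transcendental C y) {α g : Ω} (hα : α ∈ C) {ν e₀ : ℝ}
    (hno : ∀ e : ℝ, 0 < e → ∀ g ∈ C, ¬ v.Ge (ν + e) (α - g ^ p))
    (hg : g ∈ adj C y) (he₀ : 0 < e₀) (hge : v.Ge (ν + e₀) (α - g ^ p)) {δ : ℝ} (hδ : 0 < δ) :
    ∃ (η : Ω) (b β κ μ : ℝ) (f₀ : Polynomial Ω) (l' : ℕ), IsMin v C y η b ∧
      Lev v C y b ((minpoly C η).map (algebraMap C Ω)) β ∧ f₀ ∈ PI C ∧ v y ≤ b ∧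
      1 ≤ l' ∧ l' < p ∧ 0 < μ ∧ κ < ν + δ ∧
      (dig ((minpoly C η).map (algebraMap C Ω)) (Polynomial.C α - f₀ ^ p) l').eval y ≠ 0 ∧
      v ((dig ((minpoly C η).map (algebraMap C Ω)) (Polynomial.C α - f₀ ^ p) l').eval y) =
        κ - l' * β ∧
      ∀ l, l ≠ l' → v.Ge (κ + μ - l * β)
        ((dig ((minpoly C η).map (algebraMap C Ω)) (Polynomial.C α - f₀ ^ p) l).eval y) := by
  classical
  have hp0 : 0 < p := hp.out.pos
  have hp1 : 1 < p := hp.out.one_lt
  have hpR : (0 : ℝ) < p := by exact_mod_cast hp0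
  have hCα : (Polynomial.C α : Polynomial Ω) ∈ PI C := C_mem_PI hα
  -- the set of the good radii
  set S : Set ℝ := {b | ∃ e : ℝ, 0 < e ∧ ∃ g ∈ PI C,
    GB v b (ν + e) (taylor y (Polynomial.C α - g ^ p))} with hS
  obtain ⟨g₁, hg₁, θ, b₀, hθ, hb₀θ, hg₁b⟩ := exists_gb_of_rat h0 hfull hd hy hα hg hge
  have hb₀S : b₀ ∈ S := ⟨e₀, he₀, g₁, hg₁, hg₁b⟩
  have hf0 : ∀ g ∈ PI C, Polynomial.C α - g ^ p ≠ 0 := by
    intro g hg h1
    refine hno 1 one_pos (g.coeff 0) (hg 0) ?_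
    have h2 := congrArg (fun f : Polynomial Ω => f.eval 0) h1
    simp only [eval_sub, eval_C, eval_pow, eval_zero] at h2
    rw [coeff_zero_eq_eval_zero, h2]
    exact RVal.Ge.zero
  have hlow : ∀ b ∈ S, v y < b := by
    rintro b ⟨e, he, g, hg, hgb⟩
    by_contra hcon
    push Not at hcon
    have h1 : GB v b (ν + e) (Polynomial.C α - g ^ p) :=
      TWM.GB.of_taylor (RVal.Ge.of_le hcon) hgb
    refine hno e he (g.coeff 0) (hg 0) ?_
    have h2 := h1 0
    rw [Nat.cast_zero, zero_mul, sub_zero, coeff_zero_eq_eval_zero, eval_sub, eval_C, eval_pow,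
      ← coeff_zero_eq_eval_zero] at h2
    exact h2
  have hup : ∀ b ∈ S, ∀ b', b ≤ b' → b' ∈ S := by
    rintro b ⟨e, he, g, hg, hgb⟩ b' hbb
    exact ⟨e, he, g, hg, fun i => (hgb i).mono (by
      have : (i : ℝ) * b ≤ i * b' := mul_le_mul_of_nonneg_left hbb (Nat.cast_nonneg i)
      linarith)⟩
  set b'' := sInf S with hb''
  have hbdd : BddBelow S := ⟨v y, fun b hb => (hlow b hb).le⟩
  have hyb : v y ≤ b'' := le_csInf ⟨b₀, hb₀S⟩ fun b hb => (hlow b hb).le
  have hmem : ∀ b, b'' < b → b ∈ S := by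
    intro b hb
    obtain ⟨b₁, h1, h2⟩ := exists_lt_of_csInf_lt ⟨b₀, hb₀S⟩ hb
    exact hup b₁ h1 b h2.le
  have hnot : b'' ∉ S := by
    rintro ⟨e, he, g, hg, hgb⟩
    have hf := hf0 g hg
    have h1 := (GB_iff hf).1 hgb
    set n : ℝ := ((Polynomial.C α - g ^ p).natDegree : ℝ) with hn
    have hn0 : 0 ≤ n := Nat.cast_nonneg _
    set t := e / (2 * (n + 1)) with ht
    have ht0 : 0 < t := by positivity
    have h2 := gval_up_deg (v := v) (y := y) (f := Polynomial.C α - g ^ p) (b := b'' - t)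
      (b' := b'') (by linarith)
    rw [← hn] at h2
    have h3 : n * (b'' - (b'' - t)) ≤ e / 2 := by
      have h4 : n * t ≤ e / 2 := by
        rw [ht, mul_div_assoc', div_le_div_iff₀ (by positivity) (by norm_num)]
        nlinarith
      linarith
    have h5 : b'' - t ∈ S := ⟨e / 2, half_pos he, g, hg, (GB_iff hf).2 (by linarith)⟩
    have h6 := csInf_le hbdd h5
    rw [← hb''] at h6
    linarith
  have hb₀ : b'' < b₀ := by
    refine lt_of_le_of_ne (csInf_le hbdd hb₀S) fun h1 => hnot ?_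
    rw [h1]
    exact hb₀S
  -- a level of minimal degree
  have hex : ∃ n : ℕ, ∃ (b : ℝ) (φ : Polynomial Ω) (β : ℝ), b'' < b ∧ b < b₀ ∧
      φ.natDegree = n ∧ Lev v C y b φ β := by
    obtain ⟨b, φ, β, h1, h2, -, h3⟩ := exists_Lev hy hb₀ (minpoly_mem_PI θ)
      (((minpoly.monic hθ.isIntegral).map (algebraMap C Ω)).ne_zero)
      ⟨θ, by rw [eval_map_algebraMap, minpoly.aeval], fun _ => hb₀θ⟩
    exact ⟨_, b, φ, β, h1, h2, rfl, h3⟩
  obtain ⟨b₃, φ₃, β₃, hb₃, hb₃', hφd, hL₃⟩ := Nat.find_spec hex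
  have hmin : ∀ (b : ℝ) (φ : Polynomial Ω) (β : ℝ), b'' < b → b < b₀ → Lev v C y b φ β →
      φ₃.natDegree ≤ φ.natDegree := by
    intro b φ β h1 h2 h3
    rw [hφd]
    exact Nat.find_min' hex ⟨b, φ, β, h1, h2, rfl, h3⟩
  obtain ⟨ζ, hζ, hζb, -, hζm⟩ := hL₃.minpoly
  obtain ⟨η, hη⟩ := TWJ.exists_min hd hy (ρ := b₃) (θ := ζ) hζ hζb
  set Q : Polynomial Ω := (minpoly C η).map (algebraMap C Ω) with hQ
  have hint : IsIntegral C η := hη.sep.isIntegral
  have hQm : Q.Monic := (minpoly.monic hint).map _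
  have hQd : Q.natDegree ≤ φ₃.natDegree := by
    rw [hQ, ← hζm, natDegree_map, natDegree_map]
    exact hη.min ζ hζ hζb
  have hQη : Q.eval η = 0 := by rw [hQ, eval_map_algebraMap, minpoly.aeval]
  have hLev : ∀ t, b'' < t → t ≤ b₃ → Lev v C y t Q (gval v y t Q) := by
    intro t ht ht'
    refine Lev.of_min (minpoly_mem_PI η) hQm ⟨η, hQη, ht'.trans_lt hη.lt⟩ fun g hg hg0 hr => ?_
    obtain ⟨b, φ, β, h1, h2, h3, h4⟩ := exists_Lev hy ht hg hg0 hr
    exact (hQd.trans (hmin b φ β h1 ((h2.trans_le ht').trans hb₃') h4)).trans h3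
  have hIs : ∀ t, b'' < t → t ≤ b₃ → IsMin v C y η t := by
    intro t ht ht'
    refine ⟨hη.sep, ht'.trans_lt hη.lt, fun γ hγ hγt => ?_⟩
    have h1 := (hLev t ht ht').min _ (minpoly_mem_PI γ)
      (((minpoly.monic hγ.isIntegral).map (algebraMap C Ω)).ne_zero)
      ⟨γ, by rw [eval_map_algebraMap, minpoly.aeval], fun _ => hγt.le⟩
    rwa [hQ, natDegree_map, natDegree_map] at h1
  -- the approximation
  obtain ⟨e₁, he₁, g₃, hg₃, hg₃b⟩ := hmem b₃ hb₃
  have hL3 := hLev b₃ hb₃ le_rfl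
  set f₀ := splice Q 1 g₃ 0 with hf₀
  have hf₀m : f₀ ∈ PI C := splice_mem hL3.mem hQm 1 hg₃ (zero_mem _)
  set F : Polynomial Ω := Polynomial.C α - f₀ ^ p with hF
  have hFm : F ∈ PI C := sub_mem hCα (pow_mem hf₀m p)
  have hF0 : F ≠ 0 := hf0 f₀ hf₀m
  have hdig : ∀ l, dig Q F l = if l < p then dig Q (Polynomial.C α - g₃ ^ p) l else 0 := by
    intro l
    rw [hF, hf₀, dig_splice_sub_pow hQm hL3.natDegree_pos, mul_one]
    split_ifs with h1
    · rfl
    · rw [zero_pow hp0.ne', sub_zero]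
      refine dig_small_pos hQm ?_ (by omega)
      refine (degree_C_le).trans_lt ?_
      rw [degree_eq_natDegree hQm.ne_zero]
      exact_mod_cast hL3.natDegree_pos
  set x : ℕ → Ω := fun l => (dig Q F l).eval y with hx
  have hx1 : ∀ l : ℕ, v.Ge (ν + e₁ - l * gval v y b₃ Q) (x l) := by
    intro l
    simp only [hx]
    rw [hdig]
    split_ifs
    · exact (hL3.digit (sub_mem hCα (pow_mem hg₃ p))).1 hg₃b l
    · rw [eval_zero]
      exact RVal.Ge.zero
  have hx2 : ∀ l, p ≤ l → x l = 0 := by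
    intro l hl
    simp only [hx]
    rw [hdig, if_neg (not_lt.2 hl), eval_zero]
  -- the Gauss value near `b''`
  have hν : gval v y b'' F ≤ ν := by
    refine le_of_forall_pos_lt_add fun e he => ?_
    by_contra hcon
    push Not at hcon
    exact hnot ⟨e, he, f₀, hf₀m, (GB_iff hF0).2 hcon⟩
  set n : ℝ := (F.natDegree : ℝ) with hn
  have hn0 : 0 ≤ n := Nat.cast_nonneg _
  set δ' := min e₁ δ with hδ'
  have hδ'0 : 0 < δ' := lt_min he₁ hδ
  set hi := min b₃ (b'' + δ' / (n + 1)) with hhi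
  have hhi0 : b'' < hi := lt_min hb₃ (by
    have : 0 < δ' / (n + 1) := by positivity
    linarith)
  have hsmall : ∀ b, b'' < b → b < hi → gval v y b F < ν + δ' := by
    intro b h1 h2
    have h3 := gval_up_deg (v := v) (y := y) (f := F) h1.le
    rw [← hn] at h3
    have h4 : b - b'' < δ' / (n + 1) := by
      have := h2.trans_le (min_le_right _ _)
      linarith
    have h5 : n * (b - b'') < δ' := by
      rw [lt_div_iff₀ (by positivity)] at h4
      nlinarith
    linarith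
  -- the bad radii
  set L : Finset ℕ := (Finset.range p).filter fun l => x l ≠ 0 with hL
  have hbad : (⋃ q ∈ (L ×ˢ L).filter fun q => q.1 ≠ q.2,
      {b : ℝ | b'' < b ∧ b < hi ∧ v (x q.1) + q.1 * gval v y b Q =
        v (x q.2) + q.2 * gval v y b Q}).Finite := by
    refine Set.Finite.biUnion (Finset.finite_toSet _) fun q hq => ?_
    refine Set.Subsingleton.finite ?_
    have hq' : q.1 ≠ q.2 := (Finset.mem_filter.1 hq).2
    have hqR : (q.1 : ℝ) - q.2 ≠ 0 := sub_ne_zero.2 (by exact_mod_cast hq')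
    rintro b ⟨h1, h2, h3⟩ b' ⟨h1', h2', h3'⟩
    have h4 : ((q.1 : ℝ) - q.2) * (gval v y b Q - gval v y b' Q) = 0 := by
      linear_combination h3 - h3'
    have h5 : gval v y b Q = gval v y b' Q := by
      rcases mul_eq_zero.1 h4 with h | h
      · exact absurd h hqR
      · linarith
    have hb3 := min_le_left b₃ (b'' + δ' / (n + 1))
    rcases lt_trichotomy b b' with h | h | h
    · have := (hLev b h1 (h2.le.trans hb3)).beta_lt (hLev b' h1' (h2'.le.trans hb3)) h
      linarith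
    · exact h
    · have := (hLev b' h1' (h2'.le.trans hb3)).beta_lt (hLev b h1 (h2.le.trans hb3)) h
      linarith
  obtain ⟨b, ⟨hb1, hb2⟩, hbg⟩ := ((Set.Ioo_infinite hhi0).sdiff hbad).nonempty
  have hb3 : b ≤ b₃ := hb2.le.trans (min_le_left _ _)
  have hLb := hLev b hb1 hb3
  set β := gval v y b Q with hβ
  have hgF := hsmall b hb1 hb2
  have hgood : ∀ l ∈ L, ∀ l' ∈ L, l ≠ l' → v (x l) + l * β ≠ v (x l') + l' * β := by
    intro l hl l' hl' hne h1
    refine hbg (Set.mem_biUnion (x := (l, l')) ?_ ⟨hb1, hb2, h1⟩)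
    exact Finset.mem_coe.2 (Finset.mem_filter.2 ⟨Finset.mem_product.2 ⟨hl, hl'⟩, hne⟩)
  have hlow' : ∀ lam : ℝ, (∀ l ∈ L, lam ≤ v (x l) + l * β) → lam ≤ gval v y b F := by
    intro lam h1
    refine (GB_iff hF0).1 ((hLb.digit hFm).2 fun l => ?_)
    intro hne
    have hlp : l < p := by
      by_contra hcon
      exact hne (hx2 l (not_lt.1 hcon))
    have := h1 l (Finset.mem_filter.2 ⟨Finset.mem_range.2 hlp, hne⟩)
    change lam - l * β ≤ v (x l)
    linarith
  have hLne : L.Nonempty := by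
    by_contra hcon
    rw [Finset.not_nonempty_iff_eq_empty] at hcon
    have := hlow' (ν + δ') fun l hl => by
      rw [hcon] at hl
      exact absurd hl (Finset.notMem_empty l)
    linarith
  obtain ⟨l', hl', hl'min⟩ := L.exists_min_image (fun l => v (x l) + l * β) hLne
  have hl'x : x l' ≠ 0 := (Finset.mem_filter.1 hl').2
  set κ := v (x l') + l' * β with hκ
  have hκ1 : κ < ν + δ' := (hlow' κ hl'min).trans_lt hgF
  have hl'0 : 1 ≤ l' := by
    by_contra hcon
    have h1 : l' = 0 := by omega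
    have h2 := hx1 l' hl'x
    rw [h1, Nat.cast_zero, zero_mul, sub_zero] at h2
    rw [hκ, h1, Nat.cast_zero, zero_mul, add_zero] at hκ1
    have := min_le_left e₁ δ
    linarith
  obtain ⟨μ, hμ, hμ1⟩ := exists_margin (L.erase l') (fun l => v (x l) + l * β) (κ := κ)
    fun l hl => by
      obtain ⟨h1, h2⟩ := Finset.mem_erase.1 hl
      exact lt_of_le_of_ne (hl'min l h2) (hgood l' hl' l h2 (Ne.symm h1))
  refine ⟨η, b, β, κ, μ, f₀, l', hIs b hb1 hb3, hLb, hf₀m, hyb.trans hb1.le, hl'0,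
    Finset.mem_range.1 (Finset.mem_filter.1 hl').1, hμ, ?_, hl'x, ?_, fun l hl => ?_⟩
  · have := min_le_right e₁ δ
    linarith
  · rw [hκ]
    ring
  · intro hne
    have hlp : l < p := by
      by_contra hcon
      exact hne (hx2 l (not_lt.1 hcon))
    have h1 : l ∈ L := Finset.mem_filter.2 ⟨Finset.mem_range.2 hlp, hne⟩
    have h2 := hμ1 l (Finset.mem_erase.2 ⟨hl, h1⟩)
    change κ + μ - l * β ≤ v (x l)
    linarith

end Pool.Agent.TWJ2
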