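import Pool.Agent.Lib.TWJ2.Tpt
import Pool.Agent.Lib.TWJ2.CprimeN

/-!
# TANK W, ROW J, the constraint (c2): the distance drop

`drop_le`: the monomial `T ^ D₀`, `p ∣ D₀`, is responsible for the distance of `A(X, T)` to the
`p`-th powers at the radii `r₀`, `c`, but its coefficient is nearer to the `p`-th powers of `E(X)`
than to the ones of `E`. Then `q ≤ D₀`.
-/

set_option autoImplicit false
set_option linter.unusedSectionVars false

open Polynomial

namespace Pool.Agent.TWJ2

open Pool.Agent.H15JM (RVal)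
open Pool.Agent.LU1 (adj)
open Pool.Agent.D2 (Ctx0)
open Pool.Agent.D2P (hen clI mem_clI mem_adj_self adj_le)
open Pool.Agent.TW
open Pool.Agent.TWM (CompleteV le_clI clI_mono clI_clI clI_hen PI PII GB Gt C_mem_PI X_mem_PI)
open Pool.Agent.TWJ (IsMin MinS)
open Pool.Agent.TWJ2.Dg
open Pool.Agent.TWJ2.Con (P1)

universe u

variable {k Ω : Type u} [Field k] [Field Ω] [Algebra k Ω] {v : RVal Ω}
  {p : ℕ} {r D : ℕ} [hp : Fact p.Prime] [CharP k p] [CharP Ω p] [IsAlgClosed Ω] [IsAlgClosed k]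

omit [IsAlgClosed Ω] in
/-- The data of a flag over a frame. -/
theorem flg_of_frame (h : Ctx k v r) {K : IntermediateField k Ω} {R : Fr k v r D} {X T : Ω}
    (htx : Transcendental R.K X) (htt : Transcendental (adj R.K X) T)
    (hbd : BD p v (adj (adj R.K X) T)) (hcl : K = clI v (adj (adj R.K X) T)) :
    Flg p v (r + D) K R.K X T := by
  have hfg := TW.Est.fg_K R
  have hfgX : (adj R.K X).FG := IntermediateField.fg_sup hfg ⟨{X}, by rw [Finset.coe_singleton]⟩
  have hbdX : BD p v (adj R.K X) := BD.of_adj p hfgX (z := T) htt hbd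
  exact ⟨hfg, TW.Est.full_K h R, TW.Est.trdeg_K R, BD.of_adj p hfg (z := X) htx hbdX, htx, hbdX,
    htt, hcl⟩

/-- Coefficient bounds at a radius and Gauss bounds at a bigger level. -/
theorem gb_of_coeff {f : Polynomial Ω} {X : Ω} {r₀ b lam : ℝ} (hX : v.Ge r₀ X) (hb : r₀ ≤ b)
    (hf : GB v r₀ lam f) : GB v b lam (taylor X f) := by
  have h1 : GB v r₀ lam (taylor X f) := by
    refine TWM.GB.centre (z := 0) (by rwa [sub_zero]) ?_
    rwa [taylor_zero]
  exact gb_smaller hb h1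

/-- Replacing the representation by another one modulo `p`-th powers. -/
theorem rep_sub0 {a X T : Ω} {A G : Polynomial (Polynomial Ω)}
    {h₁ g₁ : Ω} (hrep : a * h₁ ^ p - g₁ ^ p = A.evalEval X T) :
    a * h₁ ^ p - (g₁ + G.evalEval X T) ^ p = (A - G ^ p).evalEval X T := by
  have h1 : (A - G ^ p).evalEval X T = A.evalEval X T - G.evalEval X T ^ p := by
    rw [← coe_evalEvalRingHom, map_sub, map_pow]
  rw [h1, ← hrep, add_pow_char]
  ring

/-- The value of a polynomial in the second variable. -/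
theorem evalEval_mem0 {E : IntermediateField k Ω} {G : Polynomial (Polynomial Ω)} (hG : PII E G)
    (X T : Ω) : G.evalEval X T ∈ adj (adj E X) T := by
  have hE : E ≤ adj (adj E X) T := fun x hx =>
    (mem_adj_self _ _).2 ((mem_adj_self _ _).2 hx)
  have hX : X ∈ adj (adj E X) T :=
    (mem_adj_self _ _).2 (le_sup_right (a := E) (IntermediateField.mem_adjoin_simple_self k X))
  have hT : T ∈ adj (adj E X) T :=
    le_sup_right (a := adj E X) (IntermediateField.mem_adjoin_simple_self k T)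
  rw [evalEval_range (M := G.natDegree + 1) fun i hi => coeff_eq_zero_of_natDegree_lt (by omega)]
  refine sum_mem fun i _ => mul_mem ?_ (pow_mem hT i)
  rw [eval_eq_sum_range]
  exact sum_mem fun j _ => mul_mem (hE (hG i j)) (pow_mem hX j)

/-- **(c2)**: the distance drop. -/
theorem drop_le (h : Ctx k v r) (hcv : CompleteV v)
    (hLU : ∀ E : IntermediateField k Ω, E.FG → Full v E →
      Algebra.trdeg k E = (r + D : ℕ) → BD p v E → LU p v r E)
    {K : IntermediateField k Ω} {R : Fr k v r D} {X T : Ω} (hd : Dns v R.K)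
    (htx : Transcendental R.K X) (htt : Transcendental (adj R.K X) T)
    (hbd : BD p v (adj (adj R.K X) T)) (hcl : K = clI v (adj (adj R.K X) T)) {a : Ω}
    (ha : a ∈ K) {μ₁ : ℝ} (hμ₁ : ∀ g ∈ K, ¬ v.Ge μ₁ (a - g ^ p))
    {A : Polynomial (Polynomial Ω)}
    (hrep : ∃ h ∈ K, h ≠ 0 ∧ ∃ g ∈ K, a * h ^ p - g ^ p = A.evalEval X T)
    {r₀ c κ μ : ℝ} {D₀ : ℕ} (hA : PII R.K A) (hr : r₀ < v X) (hc : c < v T) (hμ : 0 < μ)
    (hi : ∀ e : ℝ, 0 < e → ∀ g ∈ R.K, ¬ v.Ge (κ + e - D₀ * c) ((A.coeff D₀).coeff 0 - g ^ p))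
    (hoth : ∀ l i : ℕ, (l, i) ≠ (0, D₀) → v.Ge (κ + μ - l * r₀ - i * c) ((A.coeff i).coeff l))
    {q : ℕ} (hq : MinS p v r (D + 1) K a q) (hpq : p ∣ q) (hpD : p ∣ D₀)
    (hdr : ∃ e : ℝ, 0 < e ∧ ∃ g ∈ adj R.K X,
      v.Ge (κ + e - D₀ * c) ((A.coeff D₀).eval X - g ^ p)) : q ≤ D₀ := by
  classical
  have hpp := hp.out.pos
  obtain ⟨e, he, g, hg, hge⟩ := hdr
  obtain ⟨m, hm⟩ := hpD
  have F := flg_of_frame h htx htt hbd hcl
  set α := (A.coeff D₀).coeff 0 with hα
  -- the rest of the coefficient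
  have hgbD : GB v r₀ (κ + μ - D₀ * c) (A.coeff D₀ - C α) := by
    intro j
    rcases Nat.eq_zero_or_pos j with rfl | hj
    · rw [coeff_sub, coeff_C_zero, hα, sub_self]
      exact RVal.Ge.zero
    · rw [coeff_sub, coeff_C_of_ne_zero hj.ne', sub_zero]
      refine (hoth j D₀ fun h1 => ?_).mono (by linarith)
      exact hj.ne' (Prod.ext_iff.1 h1).1
  have hrest : v.Ge (κ + μ - D₀ * c) ((A.coeff D₀).eval X - α) := by
    have h1 := gb_of_coeff (X := X) (b := v X) (RVal.Ge.of_le hr.le) hr.le hgbD 0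
    rwa [taylor_coeff_zero, eval_sub, eval_C, Nat.cast_zero, zero_mul, sub_zero] at h1
  have hge' : v.Ge (κ - D₀ * c + min e μ) (α - g ^ p) := by
    have h1 : α - g ^ p = ((A.coeff D₀).eval X - g ^ p) - ((A.coeff D₀).eval X - α) := by ring
    rw [h1]
    refine RVal.Ge.sub (hge.mono ?_) (hrest.mono ?_)
    · have := min_le_left e μ
      linarith
    · have := min_le_right e μ
      linarith
  obtain ⟨η, b, β, κ₁, μ₂, f₀, l', hη, hL, hf₀, hXb, hl1, hlp, hμ₂, hκ₁, hne, hval, hoth'⟩ :=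
    drop h.toCtx0 F.full hd htx (hA D₀ 0) (ν := κ - D₀ * c)
      (fun e he g hg h1 => hi e he g hg (h1.mono (by linarith))) hg (lt_min he hμ) hge'
      (half_pos hμ)
  set Q := (minpoly R.K η).map (algebraMap R.K Ω) with hQ
  have hQm : Q.Monic := hL.mon
  have hrb : r₀ ≤ b := hr.le.trans hXb
  set G : Polynomial (Polynomial Ω) := C f₀ * Polynomial.X ^ m with hG
  have hGm : PII R.K G := by
    intro i
    rw [hG, coeff_C_mul, coeff_X_pow]
    split_ifs
    · rw [mul_one]
      exact hf₀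
    · rw [mul_zero]
      exact zero_mem _
  have hGp : ∀ i, (G ^ p).coeff i = if i = D₀ then f₀ ^ p else 0 := by
    intro i
    rw [hG, mul_pow, ← C_pow, ← pow_mul, coeff_C_mul, coeff_X_pow, mul_comm m p, ← hm]
    split_ifs
    · rw [mul_one]
    · rw [mul_zero]
  obtain ⟨h₁, hh, hh0, g₁, hg₁, hrep⟩ := hrep
  set B := A - G ^ p with hB
  have hBm : PII R.K B := by
    intro i
    rw [hB, coeff_sub, hGp]
    refine sub_mem (hA i) ?_
    split_ifs
    · exact pow_mem hf₀ p
    · exact zero_mem _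
  have hrepB : a * h₁ ^ p - (g₁ + G.evalEval X T) ^ p = B.evalEval X T := rep_sub0 hrep
  have hgB : g₁ + G.evalEval X T ∈ K := by
    refine add_mem hg₁ ?_
    rw [hcl]
    exact le_clI _ (evalEval_mem0 hGm X T)
  have hBD : B.coeff D₀ = (C α - f₀ ^ p) + (A.coeff D₀ - C α) := by
    rw [hB, coeff_sub, hGp, if_pos rfl]
    ring
  have hw : ∀ l : ℕ, v.Ge (κ + μ - D₀ * c - l * β) ((dig Q (A.coeff D₀ - C α) l).eval X) :=
    (hL.digit (sub_mem (hA D₀) (C_mem_PI (hA D₀ 0)))).1
      (gb_of_coeff (RVal.Ge.of_le hr.le) hrb hgbD)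
  have hdD : ∀ l, (dig Q (B.coeff D₀) l).eval X =
      (dig Q (C α - f₀ ^ p) l).eval X + (dig Q (A.coeff D₀ - C α) l).eval X := by
    intro l
    rw [hBD, dig_add hQm, eval_add]
  have hlead := add_gt_dom hne (v := v) (y := (dig Q (A.coeff D₀ - C α) l').eval X) (by
    rw [hval]
    exact Gt.of_ge (hw l') (by linarith))
  rw [← hdD, hval] at hlead
  obtain ⟨R', X', T', r₁, κ', μ', A', hd', htx', htt', hbd', hcl', hrep', hP⟩ :=
    trans_P1 h hcv hd hLU F hbd ha hμ₁ hh hh0 hgB hBm hrepB (b₀ := b) (β := β)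
      (κ := κ₁ + D₀ * c) (μ := min μ₂ (μ / 2)) (c := c) (l₀ := l') (i₀ := D₀) hη hL hc
      (lt_min hμ₂ (half_pos hμ)) hlead.1 (by rw [hlead.2]; ring) (by
        intro l i hli
        have h1 := min_le_left μ₂ (μ / 2)
        have h2 := min_le_right μ₂ (μ / 2)
        by_cases hiD : i = D₀
        · subst hiD
          have hl : l ≠ l' := by
            rcases hli with h3 | h3
            · exact h3
            · exact absurd rfl h3
          rw [hdD]
          exact ((hoth' l hl).mono (by linarith)).add ((hw l).mono (by linarith))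
        · have h3 : B.coeff i = A.coeff i := by
            rw [hB, coeff_sub, hGp, if_neg hiD, sub_zero]
          have h4 : GB v r₀ (κ + μ - i * c) (A.coeff i) := fun j =>
            (hoth j i fun h5 => hiD (Prod.ext_iff.1 h5).2).mono (by linarith)
          rw [h3]
          exact ((hL.digit (hA i)).1 (gb_of_coeff (RVal.Ge.of_le hr.le) hrb h4) l).mono
            (by linarith))
  have hql := Con.P1.le p h htx' htt' hbd' hcl' hrep' hd' hP
    (fun h1 => absurd (Nat.le_of_dvd hl1 h1.1) (not_le.2 hlp)) hq hpq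
  obtain ⟨q', rfl⟩ := hpq
  rw [hm] at hql ⊢
  have h1 : p * q' < p * (m + 1) := by
    rw [mul_add, mul_one]
    omega
  exact Nat.mul_le_mul_left p (Nat.lt_succ_iff.1 (Nat.lt_of_mul_lt_mul_left h1))

end Pool.Agent.TWJ2
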