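import Pool.Agent.Lib.TWJ2.Swap
import Pool.Agent.Lib.TWJ2.Defs
import Pool.Agent.Lib.TWJ.SEC
import Pool.Agent.Lib.TW.E10a
import Pool.Agent.Lib.TWM.D0
import Pool.Agent.Lib.TW.Estar
import Pool.Agent.Lib.TWJ.NoHit0

/-!
# TANK W, row J.7: the swap, the state

* `tr_swap`: exchange of transcendental elements;
* `swap_state`: under the hypothesis `Cen` (see `Swap`), `(K, a)` has a state of index `≤ S`;
* `swap_exit`: if `S < p`, the purely inseparable extension is henselian rational.
-/

set_option autoImplicit false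
set_option linter.unusedSectionVars false

open Polynomial

namespace Pool.Agent.TWJ2

open Pool.Agent.H15JM (RVal)
open Pool.Agent.LU1 (adj)
open Pool.Agent.D2P (clI mem_adj_self adj_le)
open Pool.Agent.TW (Full BD Fr HRone LU Dns Ctx kr)
open Pool.Agent.TWM
open Pool.Agent.TWJ (Stt)

universe u

variable {k Ω : Type u} [Field k] [Field Ω] [Algebra k Ω] {v : RVal Ω}

/-- Transcendental over the field is transcendental over the algebra. -/
theorem transc_adj_iff {E : IntermediateField k Ω} {x z : Ω} :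
    Transcendental (adj E x) z ↔ Transcendental (Algebra.adjoin E {x}) z := by
  rw [← IntermediateField.transcendental_adjoin_iff, adj_eq_restrict]
  rfl

/-- Exchange. -/
theorem tr_swap {E : IntermediateField k Ω} {x y : Ω} (hy : Transcendental E y)
    (hx : Transcendental (adj E y) x) : Transcendental (adj E x) y := by
  have hxE : Transcendental E x := fun h1 =>
    hx (D2P.isAlgebraic_mono (fun a ha => (mem_adj_self E y).2 ha) h1)
  have h1 : AlgebraicIndependent E (fun _ : Unit => y) :=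
    algebraicIndependent_unique_type_iff.2 hy
  have h2 : AlgebraicIndependent E (fun o : Option Unit => o.elim x fun _ => y) :=
    (h1.option_iff_transcendental x).2 (by
      rw [Set.range_const]
      exact transc_adj_iff.1 hx)
  have h3 : AlgebraicIndependent E (fun _ : Unit => x) :=
    algebraicIndependent_unique_type_iff.2 hxE
  have h4 : AlgebraicIndependent E (fun o : Option Unit => o.elim y fun _ => x) := by
    have h5 := h2.comp (fun o : Option Unit => o.elim (some ()) fun _ => none) (by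
      rintro (_ | _) (_ | _) h
      · rfl
      · simp at h
      · simp at h
      · rfl)
    convert h5 using 1
    funext o
    rcases o with _ | _
    · rfl
    · rfl
  have h5 := (h3.option_iff_transcendental y).1 h4
  rw [Set.range_const] at h5
  exact transc_adj_iff.2 h5

/-- Multiplication by an element of the field and translation. -/
theorem adj_mul {E : IntermediateField k Ω} {m x : Ω} (hm : m ∈ E) (hm0 : m ≠ 0) :
    adj E (m * x) = adj E x := by
  refine le_antisymm (adj_le (fun a ha => (mem_adj_self E x).2 ha)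
    (mul_mem ((mem_adj_self E x).2 hm) (mem_adj_self E x).1))
    (adj_le (fun a ha => (mem_adj_self E _).2 ha) ?_)
  have h1 : m⁻¹ * (m * x) ∈ adj E (m * x) :=
    mul_mem ((mem_adj_self E _).2 (inv_mem hm)) (mem_adj_self E _).1
  rwa [inv_mul_cancel_left₀ hm0] at h1

variable {r D : ℕ}

/-- The field of a frame with one more parameter. -/
theorem snoc_K (R : Fr k v r D) {X : Ω} (hX0 : X ≠ 0) (hX : 0 < v X)
    (htr : Transcendental R.K X) : (TW.E10.snocFr R hX0 hX htr).K = adj R.K X := by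
  have h1 : R.K ≤ adj R.K X := fun a ha => (mem_adj_self R.K X).2 ha
  have hR : R.K = IntermediateField.adjoin k (Set.range R.x ∪ Set.range R.y) := rfl
  have hle : Set.range R.x ∪ Set.range R.y ⊆
      Set.range (TW.E10.snocFr R hX0 hX htr).x ∪ Set.range (TW.E10.snocFr R hX0 hX htr).y := by
    rintro _ (⟨i, rfl⟩ | ⟨j, rfl⟩)
    · exact Or.inl ⟨i, rfl⟩
    · refine Or.inr ⟨j.castSucc, ?_⟩
      show (Fin.snoc R.y X : Fin (D + 1) → Ω) j.castSucc = R.y j
      rw [Fin.snoc_castSucc]
  refine le_antisymm ?_ (adj_le ?_ ?_)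
  · refine IntermediateField.adjoin_le_iff.2 ?_
    rintro _ (⟨i, rfl⟩ | ⟨j, rfl⟩)
    · exact h1 (IntermediateField.subset_adjoin k _ (Or.inl ⟨i, rfl⟩))
    · show (Fin.snoc R.y X : Fin (D + 1) → Ω) j ∈ adj R.K X
      refine Fin.lastCases ?_ (fun i => ?_) j
      · rw [Fin.snoc_last]
        exact (mem_adj_self R.K X).1
      · rw [Fin.snoc_castSucc]
        exact h1 (IntermediateField.subset_adjoin k _ (Or.inr ⟨i, rfl⟩))
  · rw [hR]
    exact IntermediateField.adjoin.mono k _ _ hle
  · refine IntermediateField.subset_adjoin k _ (Or.inr ⟨Fin.last D, ?_⟩)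
    show (Fin.snoc R.y X : Fin (D + 1) → Ω) (Fin.last D) = X
    rw [Fin.snoc_last]

/-- The same field, two orders of the generators. -/
theorem adj_adj_swap {E : IntermediateField k Ω} {y z f : Ω} (hf : f ∈ adj E y) :
    adj (adj E (z - f)) y = adj (adj E y) z := by
  have h1 : E ≤ adj E y := fun a ha => (mem_adj_self E y).2 ha
  have h2 : adj E y ≤ adj (adj E y) z := fun a ha => (mem_adj_self _ z).2 ha
  have h3 : E ≤ adj E (z - f) := fun a ha => (mem_adj_self E _).2 ha
  have h4 : adj E (z - f) ≤ adj (adj E (z - f)) y := fun a ha => (mem_adj_self _ y).2 ha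
  have h5 : adj E y ≤ adj (adj E (z - f)) y := adj_le (h3.trans h4) (mem_adj_self _ y).1
  refine le_antisymm (adj_le (adj_le (h1.trans h2) (sub_mem (mem_adj_self _ z).1 (h2 hf)))
    (h2 (mem_adj_self E y).1)) (adj_le h5 ?_)
  have h6 := add_mem (h4 (mem_adj_self E (z - f)).1) (h5 hf)
  rwa [sub_add_cancel] at h6

variable [IsAlgClosed k] [IsAlgClosed Ω]

/-- **The state after the swap.** -/
theorem swap_state (p : ℕ) [Fact p.Prime] [CharP k p] [CharP Ω p] (h : Ctx k v r)
    {K : IntermediateField k Ω} {R : Fr k v r D} {y z : Ω} {b s t₀ κ₀ : ℝ} {q S : ℕ}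
    {A : Polynomial (Polynomial Ω)} {Θ : ℝ → Polynomial Ω}
    (hty : Transcendental R.K y) (htz : Transcendental (adj R.K y) z)
    (hbd : BD p v (adj (adj R.K y) z)) (hcl : K = clI v (adj (adj R.K y) z)) {a : Ω}
    (hrep : ∃ h ∈ K, h ≠ 0 ∧ ∃ g ∈ K, a * h ^ p - g ^ p = A.evalEval y z)
    (hcen : Cen p v R.K y z b s t₀ κ₀ q S A Θ) (hy : Gt v b y)
    (hz : ∀ θ : Ω, IsAlgebraic (adj R.K y) θ → z ≠ θ ∧ v (z - θ) < s) (hA : PII R.K A)
    (hq : p ∣ q) :
    ∃ (F : IntermediateField k Ω) (A' : Polynomial Ω), Dns v F ∧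
      Stt p v r (D + 1) K a F y b (κ₀ + q * s) S A' := by
  set x := zs y z t₀ Θ with hx
  have hT : TL v R.K x s := hcen.tl hy.ge hz
  have hf : (Θ t₀).eval y ∈ adj R.K y := eval_mem_adj (hcen.mem t₀ le_rfl hcen.lt) y
  have hx0 : x ≠ 0 := (hT.far 0 isAlgebraic_zero).1
  -- a coordinate of positive value
  obtain ⟨m, hm, hm0, hmv⟩ := TW.E10.exists_big h R (1 - v x)
  have hmx0 : m * x ≠ 0 := mul_ne_zero hm0 hx0
  have hmxv : 0 < v (m * x) := by
    rw [v.map_mul hm0 hx0]
    linarith
  have hadj : adj R.K (m * x) = adj R.K x := adj_mul hm hm0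
  -- transcendence
  have htx : Transcendental (adj R.K y) x := by
    intro h1
    refine htz ?_
    have h2 : z = x + (Θ t₀).eval y := by rw [hx, zs]; ring
    rw [h2]
    exact h1.add (isAlgebraic_algebraMap (R := adj R.K y) (⟨_, hf⟩ : adj R.K y))
  have hty' : Transcendental (adj R.K x) y := tr_swap hty htx
  have htx' : Transcendental R.K (m * x) := by
    intro h1
    have h2 : IsAlgebraic R.K x := by
      have h3 : x = m⁻¹ * (m * x) := by field_simp
      rw [h3]
      exact (isAlgebraic_algebraMap (R := R.K) (⟨_, inv_mem hm⟩ : R.K)).mul h1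
    exact htx (D2P.isAlgebraic_mono (fun a ha => (mem_adj_self R.K y).2 ha) h2)
  set R' := TW.E10.snocFr R hmx0 hmxv htx' with hR'
  have hK' : R'.K = adj R.K x := by rw [hR', snoc_K, hadj]
  have hM : adj R'.K y = adj (adj R.K y) z := by rw [hK', hx, zs, adj_adj_swap hf]
  refine ⟨R'.K, A.eval (C x + Θ t₀), ?_, ⟨R', rfl⟩, TW.Est.fg_K R', TW.Est.full_K h R',
    TW.Est.trdeg_K R', ?_, ?_, ?_, ?_, ?_⟩
  · intro c d hcd
    obtain ⟨e, he, h1⟩ := (TWJ.TL.dns hT) c d hcd
    refine ⟨e, ?_, h1⟩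
    rw [hK']
    exact (mem_adj_self R.K x).2 he
  · refine BD.of_adj p (TW.Est.fg_K R') (z := y) ?_ ?_
    · rw [hK']
      exact hty'
    · rw [hM]
      exact hbd
  · rw [hK']
    exact hty'
  · rw [hM, hcl]
  · obtain ⟨h₁, hh, hh0, g, hg, h2⟩ := hrep
    refine ⟨h₁, hh, hh0, g, hg, ?_⟩
    have h3 : (A.eval (C x + Θ t₀)).eval y = A.evalEval y z := by
      have h4 : (C x + Θ t₀).eval y = z := by
        rw [eval_add, eval_C, hx, zs]
        ring
      rw [evalEval, eval_eq_sum_range (p := A), eval_eq_sum_range (p := A), eval_finsetSum,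
        eval_finsetSum]
      refine Finset.sum_congr rfl fun i _ => ?_
      rw [eval_mul, eval_mul, eval_pow, eval_pow, h4, eval_C]
    rw [h2, h3]
  · rw [hK']
    exact swap_SL hcen hy hz hA hq

/-- **The exit after the swap.** -/
theorem swap_exit (p : ℕ) [Fact p.Prime] [CharP k p] [CharP Ω p] (h : Ctx k v r)
    (hcv : CompleteV v)
    (hLU : ∀ E : IntermediateField k Ω, E.FG → Full v E →
      Algebra.trdeg k E = (r + (D + 1) : ℕ) → BD p v E → LU p v r E)
    (hX0 : TWJ.ExitZero p v k r (D + 1)) (hX1 : TWJ.ExitTame p v k r (D + 1))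
    {K₀ : IntermediateField k Ω} (hK : K₀.FG) (hKf : Full v K₀)
    (htr : Algebra.trdeg k K₀ = (r + (D + 1) + 1 : ℕ)) {al : Ω} (hal : al ^ p ∈ K₀)
    (hBD : BD p v (adj K₀ al)) {R : Fr k v r D} {y z : Ω} {b s t₀ κ₀ : ℝ} {q S : ℕ}
    {A : Polynomial (Polynomial Ω)} {Θ : ℝ → Polynomial Ω}
    (hty : Transcendental R.K y) (htz : Transcendental (adj R.K y) z)
    (hbd : BD p v (adj (adj R.K y) z)) (hcl : clI v K₀ = clI v (adj (adj R.K y) z))
    (hrep : ∃ h ∈ clI v K₀, h ≠ 0 ∧ ∃ g ∈ clI v K₀, al ^ p * h ^ p - g ^ p = A.evalEval y z)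
    (hcen : Cen p v R.K y z b s t₀ κ₀ q S A Θ) (hy : Gt v b y)
    (hz : ∀ θ : Ω, IsAlgebraic (adj R.K y) θ → z ≠ θ ∧ v (z - θ) < s) (hA : PII R.K A)
    (hq : p ∣ q) (hS : S < p) : HRone v (adj K₀ al) := by
  obtain ⟨F, A', hd, hs⟩ := swap_state p h hty htz hbd hcl hrep hcen hy hz hA hq
  exact TWJ.exit_small p h hcv hLU hX0 hX1 hK hKf htr hal hBD hs hd hS

end Pool.Agent.TWJ2
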