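import Pool.Agent.Lib.TWJ.X0h

/-!
# TANK W, ROW J, exit of order zero

`exit_zero_gen`: `γ ^ p = ∑ A_j m_j`, `A_j ∈ F`, `m_j ∈ W`, `m_0 = 1`, `A_0` at the distance `κ₀` of
the `p`-th powers of `F`, the other terms `A_j m_j` bigger than `κ₀`: the closure of `(F W)(γ)` is
the closure of `F₂ W`, `F₂` of the same kind as `F`.
-/

set_option autoImplicit false

open Polynomial

namespace Pool.Agent.TWJ2

open Pool.Agent.H15JM (RVal)
open Pool.Agent.LU1 (adj)
open Pool.Agent.D2 (Ctx0)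
open Pool.Agent.D2P (hen clI mem_clI mem_adj_self adj_le)
open Pool.Agent.LUC (Cl)
open Pool.Agent.TW
open Pool.Agent.TWM (PI Gt clI_mono le_clI cld_clI clI_hen)
open Pool.Agent.TWJ Pool.Agent.TWJ.X0h

universe u

variable {k Ω : Type u} [Field k] [Field Ω] [Algebra k Ω] {v : RVal Ω}

/-- The contraction. -/
theorem mem_of_contr_gen {E W : IntermediateField k Ω} {X : Ω} {n : ℕ} (c m : ℕ → Ω)
    (wt : ℕ → ℝ) {g : ℝ} (hg : 0 < g) (hm : ∀ j < n, v.Ge (wt j) (m j)) (hmW : ∀ j < n, m j ∈ W)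
    (hX : v.Ge 0 X) (hsum : X = ∑ j ∈ Finset.range n, c j * m j)
    (hrep : ∀ j < n, ∀ N : ℝ, ∃ B ∈ PI E, (∀ i, v.Ge (g - wt j) (B.coeff i)) ∧
      v.Ge N (c j - B.eval X)) : X ∈ clI v (E ⊔ W) := by
  classical
  have hE : E ≤ E ⊔ W := le_sup_left
  have hW : W ≤ E ⊔ W := le_sup_right
  have key : ∀ t : ℕ, ∃ y ∈ E ⊔ W, v.Ge (t * g) (X - y) ∧ v.Ge 0 y := by
    intro t
    induction t with
    | zero =>
      refine ⟨0, zero_mem _, ?_, RVal.Ge.zero⟩
      rw [sub_zero, Nat.cast_zero, zero_mul]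
      exact hX
    | succ t ih =>
      obtain ⟨y, hy, h1, h2⟩ := ih
      have h3 : ∀ j : ℕ, ∃ B : Polynomial Ω, j < n → (B ∈ PI E ∧
          (∀ i, v.Ge (g - wt j) (B.coeff i)) ∧
          v.Ge ((t + 1 : ℕ) * g - wt j) (c j - B.eval X)) := by
        intro j
        by_cases hj : j < n
        · obtain ⟨B, hB, h4, h5⟩ := hrep j hj ((t + 1 : ℕ) * g - wt j)
          exact ⟨B, fun _ => ⟨hB, h4, h5⟩⟩
        · exact ⟨0, fun h => absurd h hj⟩
      choose B hB using h3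
      have hge : v.Ge ((t + 1 : ℕ) * g) (X - ∑ j ∈ Finset.range n, (B j).eval y * m j) := by
        have e1 : X - ∑ j ∈ Finset.range n, (B j).eval y * m j =
            ∑ j ∈ Finset.range n, ((c j - (B j).eval X) * m j +
              ((B j).eval X - (B j).eval y) * m j) := by
          have e2 : X - ∑ j ∈ Finset.range n, (B j).eval y * m j =
              (∑ j ∈ Finset.range n, c j * m j) -
                ∑ j ∈ Finset.range n, (B j).eval y * m j := by rw [← hsum]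
          rw [e2, ← Finset.sum_sub_distrib]
          refine Finset.sum_congr rfl fun j _ => ?_
          ring
        rw [e1]
        refine RVal.Ge.sum _ _ fun j hj => RVal.Ge.add ?_ ?_
        · obtain ⟨-, -, h5⟩ := hB j (Finset.mem_range.1 hj)
          refine (h5.mul (hm j (Finset.mem_range.1 hj))).mono (le_of_eq ?_)
          ring
        · obtain ⟨-, h4, -⟩ := hB j (Finset.mem_range.1 hj)
          refine ((ge_eval_sub h4 hX h2 h1).mul (hm j (Finset.mem_range.1 hj))).mono (le_of_eq ?_)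
          push_cast
          ring
      refine ⟨_, sum_mem fun j hj => mul_mem ?_ (hW (hmW j (Finset.mem_range.1 hj))), hge, ?_⟩
      · rw [eval_eq_sum_range]
        exact sum_mem fun i _ => mul_mem (hE ((hB j (Finset.mem_range.1 hj)).1 i))
          (pow_mem hy i)
      · have h6 := hX.sub (hge.mono (by positivity : (0 : ℝ) ≤ (t + 1 : ℕ) * g))
        rwa [sub_sub_cancel] at h6
  refine mem_clI.2 fun N => ?_
  obtain ⟨t, ht⟩ := exists_nat_gt (N / g)
  obtain ⟨y, hy, h1, -⟩ := key t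
  refine ⟨y, hy, h1.mono ?_⟩
  rw [div_lt_iff₀ hg] at ht
  exact ht.le

/-- The exit of order zero, general monomials. -/
theorem exit_zero_gen [IsAlgClosed k] [IsAlgClosed Ω] (p : ℕ) [hp : Fact p.Prime] [CharP k p]
    [CharP Ω p] {r D : ℕ} (h : Ctx k v r) {F W : IntermediateField k Ω} (hF : F.FG)
    (hfull : Full v F) (hBD : BD p v F) (htr : Algebra.trdeg k F = (r + D : ℕ))
    (hLU : ∀ E : IntermediateField k Ω, E.FG → Full v E →
      Algebra.trdeg k E = (r + D : ℕ) → BD p v E → LU p v r E)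
    (hdn : Dns v F) {κ₀ δ : ℝ} {n : ℕ} (a m : ℕ → Ω) (wt : ℕ → ℝ) (ha : ∀ j, a j ∈ F)
    (hm0 : m 0 = 1) (hm : ∀ j, v.Ge (wt j) (m j)) (hwt : wt 0 = 0) (hmW : ∀ j, m j ∈ W)
    (hdst : Dst p v F κ₀ (a 0)) (hδ : 0 < δ)
    (hE : ∀ j : ℕ, j ≠ 0 → v.Ge (κ₀ + δ - wt j) (a j)) {γ : Ω} (hγtr : Transcendental F γ)
    (hγ : γ ^ p = ∑ j ∈ Finset.range (n + 1), a j * m j) :
    ∃ F₂ : IntermediateField k Ω, F₂.FG ∧ Full v F₂ ∧ BD p v F₂ ∧
      Algebra.trdeg k F₂ = (r + D : ℕ) ∧ clI v (F₂ ⊔ W) = clI v (adj (F ⊔ W) γ) := by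
  classical
  have hp0 := hp.out.pos
  have hpR : (0 : ℝ) < p := by exact_mod_cast hp0
  have hp2 : (2 : ℝ) ≤ p := by exact_mod_cast hp.out.two_le
  set f₀ := a 0 with hf₀
  have hf₀F : f₀ ∈ F := ha 0
  obtain ⟨γ₀, hγ₀⟩ := IsAlgClosed.exists_pow_nat_eq f₀ hp0
  -- the distance of `γ₀`
  have hs : ∀ θ ∈ F, γ₀ - θ ≠ 0 ∧ v (γ₀ - θ) ≤ κ₀ / p := by
    intro θ hθ
    have e1 : (γ₀ - θ) ^ p = f₀ - θ ^ p := by rw [sub_pow_char, hγ₀]
    have hne : γ₀ - θ ≠ 0 := by
      intro h0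
      refine hdst.hi 1 one_pos θ hθ ?_
      rw [← e1, h0, zero_pow hp.out.ne_zero]
      exact RVal.Ge.zero
    refine ⟨hne, ?_⟩
    by_contra hcon
    push Not at hcon
    have h1 : κ₀ < p * v (γ₀ - θ) := by
      rw [div_lt_iff₀ hpR] at hcon
      linarith
    refine hdst.hi (p * v (γ₀ - θ) - κ₀) (by linarith) θ hθ ?_
    rw [← e1]
    refine RVal.Ge.of_le ?_
    rw [v.map_pow hne]
    linarith
  have hγ₀0 : γ₀ ≠ 0 := by
    have := (hs 0 F.zero_mem).1
    rwa [sub_zero] at this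
  have hγ₀a : IsAlgebraic F γ₀ := by
    refine ⟨X ^ p - C (⟨f₀, hf₀F⟩ : F), X_pow_sub_C_ne_zero hp0 _, ?_⟩
    rw [_root_.map_sub, _root_.map_pow, aeval_X, aeval_C, hγ₀]
    exact sub_self _
  have he0 : γ - γ₀ ≠ 0 := by
    intro h1
    exact hγtr (by rw [sub_eq_zero.1 h1]; exact hγ₀a)
  have hγ' : γ ^ p = f₀ + ∑ j ∈ Finset.range n, a (j + 1) * m (j + 1) := by
    rw [hγ, Finset.sum_range_succ', hm0, mul_one, add_comm]
  -- the value of `e = γ - γ₀`
  have hev : (κ₀ + δ) / p ≤ v (γ - γ₀) := by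
    have e1 : (γ - γ₀) ^ p = ∑ j ∈ Finset.range n, a (j + 1) * m (j + 1) := by
      rw [sub_pow_char, hγ', hγ₀]
      exact add_sub_cancel_left _ _
    have h1 : v.Ge (κ₀ + δ) ((γ - γ₀) ^ p) := by
      rw [e1]
      refine RVal.Ge.sum _ _ fun i _ => ?_
      refine ((hE (i + 1) (Nat.succ_ne_zero i)).mul (hm (i + 1))).mono (le_of_eq ?_)
      ring
    have h2 := h1 (pow_ne_zero p he0)
    rw [v.map_pow he0] at h2
    rw [div_le_iff₀ hpR]
    linarith
  have hse : κ₀ / p < v (γ - γ₀) := lt_of_lt_of_le (by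
    rw [div_lt_div_iff_of_pos_right hpR]
    linarith) hev
  -- the radius `b`
  obtain ⟨π, hπ, hπ0, hb1, hb2⟩ := hdn (κ₀ / p) (min (κ₀ / p + δ / (2 * p)) (v (γ - γ₀)))
    (lt_min (by have : 0 < δ / (2 * p) := by positivity
                linarith) hse)
  have hb3 := lt_of_lt_of_le hb2 (min_le_left _ _)
  have hb4 := lt_of_lt_of_le hb2 (min_le_right _ _)
  set b := v π with hb
  have hpb : p * b < κ₀ + δ / 2 := by
    have h1 : p * b < p * (κ₀ / p + δ / (2 * p)) := mul_lt_mul_of_pos_left hb3 hpR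
    have h2 : (p : ℝ) * (κ₀ / p + δ / (2 * p)) = κ₀ + δ / 2 := by field_simp
    linarith
  -- the small constant
  set Bd : ℝ := max (max ((p - 1) * v γ₀) (p * v (γ - γ₀) - v γ₀))
    (p * b - min (v γ₀) b + δ) with hBd
  obtain ⟨ε, hεF, hε0, hε1, -⟩ := hdn Bd (Bd + 1) (by linarith)
  have hεa : (p - 1) * v γ₀ < v ε := ((le_max_left _ _).trans (le_max_left _ _)).trans_lt hε1
  have hεb : p * v (γ - γ₀) - v γ₀ < v ε :=
    ((le_max_right _ _).trans (le_max_left _ _)).trans_lt hε1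
  have hεc : p * b - min (v γ₀) b + δ < v ε := (le_max_right _ _).trans_lt hε1
  -- the centre
  set Q : F[X] := X ^ p + (C (⟨ε, hεF⟩ : F) * X - C (⟨f₀, hf₀F⟩ : F)) with hQ
  have hlow : (C (⟨ε, hεF⟩ : F) * X - C (⟨f₀, hf₀F⟩ : F)).degree < (p : WithBot ℕ) := by
    have h1 : C (⟨ε, hεF⟩ : F) * X - C (⟨f₀, hf₀F⟩ : F) =
        C (⟨ε, hεF⟩ : F) * X + C (-(⟨f₀, hf₀F⟩ : F)) := by rw [C_neg, sub_eq_add_neg]
    rw [h1]
    exact degree_linear_le.trans_lt (by exact_mod_cast hp.out.one_lt)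
  have hQm : Q.Monic := monic_X_pow_add hlow
  have hQd : Q.natDegree = p := by
    rw [hQ, natDegree_add_eq_left_of_degree_lt, natDegree_X_pow]
    rwa [degree_X_pow]
  obtain ⟨η, hη⟩ := IsAlgClosed.exists_aeval_eq_zero Ω Q (by
    rw [degree_eq_natDegree hQm.ne_zero, hQd]
    exact_mod_cast hp.out.ne_zero)
  have hηe : η ^ p - f₀ = -(ε * η) := by
    rw [hQ, _root_.map_add, _root_.map_sub, _root_.map_mul, _root_.map_pow, aeval_X, aeval_C,
      aeval_C] at hη
    change η ^ p + (ε * η - f₀) = 0 at hη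
    linear_combination hη
  have hη0 : η ≠ 0 := by
    rintro rfl
    rw [zero_pow hp.out.ne_zero, mul_zero, neg_zero, zero_sub, neg_eq_zero] at hηe
    exact hγ₀0 (pow_eq_zero_iff hp.out.ne_zero |>.1 (hγ₀.trans hηe))
  have hηp : (η - γ₀) ^ p = -(ε * η) := by rw [sub_pow_char, hγ₀, hηe]
  have hεη : ε * η ≠ 0 := mul_ne_zero hε0 hη0
  have hηγ0 : η - γ₀ ≠ 0 := by
    intro h1
    rw [h1, zero_pow hp.out.ne_zero] at hηp
    exact hεη (neg_eq_zero.1 hηp.symm)
  have hηv : p * v (η - γ₀) = v ε + v η := by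
    rw [← v.map_pow hηγ0, hηp, v.map_neg _ hεη, v.map_mul hε0 hη0]
  have hηγ : v γ₀ ≤ v η := by
    by_contra hcon
    push Not at hcon
    have h1 := v.add_of_lt hη0 (neg_ne_zero.2 hγ₀0) (by rwa [v.map_neg _ hγ₀0])
    rw [← sub_eq_add_neg] at h1
    rw [h1.2] at hηv
    have h2 : ((p : ℝ) - 1) * v η < (p - 1) * v γ₀ :=
      mul_lt_mul_of_pos_left hcon (by linarith)
    nlinarith
  have hηfar : v (γ - γ₀) < v (η - γ₀) := by
    have h1 : p * v (γ - γ₀) < p * v (η - γ₀) := by rw [hηv]; linarith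
    exact lt_of_mul_lt_mul_left h1 hpR.le
  have hγη : γ - η ≠ 0 ∧ v (γ - η) = v (γ - γ₀) := by
    have h1 := v.add_of_lt he0 (neg_ne_zero.2 hηγ0) (by rwa [v.map_neg _ hηγ0])
    rwa [show γ - γ₀ + -(η - γ₀) = γ - η by ring] at h1
  have hηa : IsAlgebraic F η := ⟨Q, hQm.ne_zero, hη⟩
  have hdeg : ∀ α : Ω, IsAlgebraic F α → κ₀ / p < v (γ - α) → p ≤ (minpoly F α).natDegree :=
    fun α hα hαv => deg_ge p h.toCtx0 hdn hγtr hf₀F hγ₀ hs he0 hse hα hαv
  have hmp : minpoly F η = Q := by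
    refine (eq_of_monic_of_dvd_of_natDegree_le (minpoly.monic hηa.isIntegral) hQm
      (minpoly.dvd F η hη) ?_).symm
    rw [hQd]
    exact hdeg η hηa (by rw [hγη.2]; exact hse)
  have hmin : IsMin v F γ η (κ₀ / p) := by
    refine ⟨?_, by rw [hγη.2]; exact hse, fun α hα hαv => ?_⟩
    · refine (separable_iff_derivative_ne_zero (minpoly.irreducible hηa.isIntegral)).mpr ?_
      rw [hmp, hQ, derivative_add, derivative_sub, derivative_C_mul_X, derivative_C, sub_zero,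
        derivative_X_pow, (CharP.cast_eq_zero_iff F p p).2 dvd_rfl, C_0, zero_mul, zero_add]
      exact C_ne_zero.mpr fun h1 => hε0 (congrArg Subtype.val h1)
    · rw [hmp, hQd]
      exact hdeg α hα hαv
  obtain ⟨b₁, ε', ⟨d⟩⟩ := exists_SD p h hF hfull hBD htr hLU hdn
    (cen_of_min hγtr hmin hπ hπ0 hb1 (by rw [hγη.2]; exact hb4))
  have hγne : γ ≠ η := sub_ne_zero.1 hγη.1
  have hbγ : b < v (γ - η) := by rw [hγη.2]; exact hb4
  -- the value of `q`
  have hq : v d.q ≤ p * b := by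
    have hdeg' : (taylor η ((minpoly F η).map (algebraMap F Ω))).natDegree = p := by
      rw [natDegree_taylor, hmp, hQm.natDegree_map, hQd]
    have htop : tc F η (minpoly F η) p = 1 := by
      rw [tc, ← hdeg', natDegree_taylor, coeff_taylor_natDegree, hmp]
      exact hQm.map _
    have h1 := d.q_val.1 p
    rw [htop] at h1
    have h2 := h1 one_ne_zero
    rw [v.map_one] at h2
    linarith
  -- the coefficients
  set c : ℕ → Ω := fun j => (if j = 0 then ε * γ else a j) * d.q⁻¹ with hc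
  have hXsum : d.X = ∑ j ∈ Finset.range (n + 1), c j * m j := by
    have h1 : ∑ j ∈ Finset.range (n + 1), c j * m j = (γ ^ p - f₀ + ε * γ) * d.q⁻¹ := by
      rw [Finset.sum_range_succ', hm0, mul_one, hγ', add_sub_cancel_left, add_mul,
        Finset.sum_mul]
      congr 1
      refine Finset.sum_congr rfl fun j _ => ?_
      simp only [hc, if_neg (Nat.succ_ne_zero j)]
      ring
    rw [h1, SD.X, hmp, hQ, _root_.map_add, _root_.map_sub, _root_.map_mul, _root_.map_pow,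
      aeval_X, aeval_C, aeval_C, div_eq_mul_inv]
    change (γ ^ p + (ε * γ - f₀)) * d.q⁻¹ = _
    ring
  have hqinv : Reg v F γ η b₁ b (-v d.q) d.q⁻¹ := by
    have h1 := reg_mem' h d le_rfl (inv_mem d.q_mem) (inv_ne_zero d.q_ne)
    rwa [v.map_inv d.q_ne] at h1
  have hcreg : ∀ j : ℕ, Reg v F γ η b₁ b (δ / 2 - wt j) (c j) := by
    intro j
    by_cases hj : j = 0
    · subst hj
      simp only [hc]
      have h1 : Reg v F γ η b₁ b (v ε) ε := by
        have h2 := Reg.of_GN (z := γ) (b₁ := b₁) (GN_C (v := v) (η := η) (b := b)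
          (a := (⟨ε, hεF⟩ : F)) (c := v ε) (fun _ => le_rfl))
        rwa [aeval_C] at h2
      have h2 : Reg v F γ η b₁ b (min (v η) b) γ := by
        have h3 := Reg.of_GN (z := γ) (b₁ := b₁) (GN_X (v := v) (F := F) (η := η) (b := b))
        rwa [aeval_X] at h3
      refine Reg.mono ?_ ((h1.mul h2).mul hqinv)
      have h3 : min (v γ₀) b ≤ min (v η) b := min_le_min_right b hηγ
      rw [hwt]
      linarith
    · simp only [hc, if_neg hj]
      have h1 : Reg v F γ η b₁ b (κ₀ + δ - wt j) (a j) := by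
        have h2 := Reg.of_GN (z := γ) (b₁ := b₁) (GN_C (v := v) (η := η) (b := b)
          (a := (⟨a j, ha j⟩ : F)) (hE j hj))
        rwa [aeval_C] at h2
      refine Reg.mono ?_ (h1.mul hqinv)
      linarith
  have hXp := d.X_pos h
  have hXmem : d.X ∈ clI v (d.S'.K ⊔ W) := by
    refine mem_of_contr_gen (n := n + 1) c m wt (show 0 < δ / 4 by positivity)
      (fun j _ => hm j) (fun j _ => hmW j) (RVal.Ge.of_le hXp.2.le) hXsum fun j _ N => ?_
    obtain ⟨w, hw, hw0, hw1, hw2⟩ := dns_K h hdn d (δ / 4 - wt j) (δ / 2 - wt j)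
      (by linarith)
    obtain ⟨B, hB, h1, h2⟩ := exists_rep h d hw hw0 (Reg.mono hw2.le (hcreg j)) N
    exact ⟨B, hB, fun i => (h1 i).mono hw1.le, Reg.ge hγne hbγ d.lt₂ h2⟩
  -- the closures
  have hWγ : W ≤ adj (F ⊔ W) γ := le_sup_right.trans (mem_adj_self _ _).2
  have hFγ : F ≤ adj (F ⊔ W) γ := le_sup_left.trans (mem_adj_self _ _).2
  refine ⟨d.S'.K, Est.fg_K _, Est.full_K h _, ⟨_, _, d.pb', _, d.orth'⟩, Est.trdeg_K _,
    le_antisymm ?_ ?_⟩
  · refine clI_mono (sup_le ?_ hWγ)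
    exact (E10.K_le_adj d).trans (adj_le hFγ (mem_adj_self _ _).1)
  · have h1 : clI v (adj d.S'.K d.X) = clI v (adj F γ) := by
      rw [← clI_hen, hen_eq h d hXp.2 (d.frac h), clI_hen]
    have h2 : adj F γ ≤ clI v (d.S'.K ⊔ W) := by
      refine (le_clI (v := v) _).trans ?_
      rw [← h1]
      refine TWM.clI_le (cld_clI v _) (adj_le ?_ hXmem)
      exact fun a ha => le_clI _ ((le_sup_left : d.S'.K ≤ d.S'.K ⊔ W) ha)
    refine TWM.clI_le (cld_clI v _) (adj_le (sup_le ?_ ?_) ?_)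
    · exact fun a ha => h2 ((mem_adj_self _ _).2 ha)
    · exact fun a ha => le_clI _ ((le_sup_right : W ≤ d.S'.K ⊔ W) ha)
    · exact h2 (mem_adj_self _ _).1

end Pool.Agent.TWJ2
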