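import Pool.Agent.Lib.TWJ.TR
import Pool.Agent.Lib.TWJ2.X9
import Pool.Agent.Lib.TWJ2.SwapSt
import Pool.Agent.Lib.TWM.G3

/-!
# TANK W, ROW J: the three exits at level zero

`a h₁ ^ p - g₁ ^ p = P(X, T)` exactly, `P` over the rational field `R.K`.
* `hrone_Z`: the constant coefficient is responsible;
* `hrone_T`: the monomial `T` is responsible;
* `hrone_X`: the monomial `X` is responsible.
-/

set_option autoImplicit false

open Polynomial

namespace Pool.Agent.TWJ2

open Pool.Agent.H15JM (RVal)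
open Pool.Agent.LU1 (adj)
open Pool.Agent.D2 (Ctx0)
open Pool.Agent.D2P (clI mem_clI adj_le mem_adj_self)
open Pool.Agent.TW (Ctx Full BD Fr LU HRone Dns PBasis)
open Pool.Agent.TWM (PI PII Gt CompleteV le_clI clI_clI clI_adj_clI OI pbasis_clI)
open Pool.Agent.TWJ (Dst exitg' BD_dense trdeg_adj_alg)

universe u

variable {k Ω : Type u} [Field k] [Field Ω] [Algebra k Ω] {v : RVal Ω} {r D : ℕ}

/-- A dense subfield of the closure of a field with bounded distortion has a transcendence degree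
which is not smaller. -/
theorem trdeg_ge_of_clI [IsAlgClosed k] {p : ℕ} [Fact p.Prime] [CharP k p] [CharP Ω p]
    (hcv : CompleteV v) {E M : IntermediateField k Ω} (hE : E.FG) {n : ℕ}
    (htr : Algebra.trdeg k E = n) (hBD : BD p v E) (hM : M.FG) (hcl : clI v M = clI v E) :
    (n : Cardinal.{u}) ≤ Algebra.trdeg k M := by
  obtain ⟨m, s, hs, C, hC⟩ := id hBD
  have hm : m = n := by
    have h4 := (hs.trdeg p hE).1
    rw [htr] at h4
    exact_mod_cast h4.symm
  subst hm
  have hos : OI p v (clI v E) s C := (OI.of_orth_pb hC hs).cl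
  have hpb : PBasis p (clI v E) s := pbasis_clI hcv hs hos
  have hBD' : BD p v (clI v E) := ⟨_, s, hpb, C, hos.orth⟩
  exact (BD_dense hBD' hpb hM hcl).1

/-- Multiplication of the value bounds of a power. -/
theorem ge_pow_of_lt {x : Ω} {ρ : ℝ} (hx0 : x ≠ 0) (hρ : ρ ≤ v x) (l : ℕ) :
    v.Ge (l * ρ) (x ^ l) := fun _ => by
  rw [v.map_pow hx0]
  exact mul_le_mul_of_nonneg_left hρ (Nat.cast_nonneg l)

theorem sum_range_mul_aux {M : Type*} [AddCommMonoid M] (f : ℕ → ℕ → M) (m n : ℕ) :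
    ∑ j ∈ Finset.range (m * n), f (j / n) (j % n) =
      ∑ i ∈ Finset.range m, ∑ l ∈ Finset.range n, f i l := by
  rcases Nat.eq_zero_or_pos n with hn | hn
  · subst hn
    simp
  induction m with
  | zero => simp
  | succ m ih =>
    rw [Nat.succ_mul, Finset.sum_range_add, ih, Finset.sum_range_succ]
    congr 1
    refine Finset.sum_congr rfl fun l hl => ?_
    have hl' := Finset.mem_range.1 hl
    have h1 : (m * n + l) / n = m := by
      rw [mul_comm, Nat.mul_add_div hn, Nat.div_eq_of_lt hl', add_zero]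
    have h2 : (m * n + l) % n = l := by
      rw [mul_comm, Nat.mul_add_mod, Nat.mod_eq_of_lt hl']
    rw [h1, h2]

/-- The value of a polynomial in two variables. -/
theorem evalEval_eq_sum (P : Polynomial (Polynomial Ω)) (x y : Ω) {M : ℕ}
    (hM : ∀ i, M ≤ i → P.coeff i = 0) (hM' : ∀ i l, M ≤ l → (P.coeff i).coeff l = 0) :
    P.evalEval x y = ∑ j ∈ Finset.range (M * M),
      (P.coeff (j / M)).coeff (j % M) * (x ^ (j % M) * y ^ (j / M)) := by
  have h1 : P.evalEval x y = ∑ i ∈ Finset.range M, ∑ l ∈ Finset.range M,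
      (P.coeff i).coeff l * (x ^ l * y ^ i) := by
    rw [← map_evalRingHom_eval, eval_eq_sum_range' (n := M + 1)]
    · rw [Finset.sum_range_succ, coeff_map, hM M le_rfl, map_zero, zero_mul, add_zero]
      refine Finset.sum_congr rfl fun i _ => ?_
      rw [coeff_map, coe_evalRingHom, eval_eq_sum_range' (n := M + 1)]
      · rw [Finset.sum_range_succ, hM' i M le_rfl, zero_mul, add_zero, Finset.sum_mul]
        exact Finset.sum_congr rfl fun l _ => mul_assoc _ _ _
      · refine Nat.lt_succ_of_le (natDegree_le_iff_coeff_eq_zero.2 fun l hl => ?_)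
        exact hM' i l hl.le
    · refine Nat.lt_succ_of_le (natDegree_map_le.trans
        (natDegree_le_iff_coeff_eq_zero.2 fun l hl => ?_))
      exact hM l hl.le
  rw [h1, ← sum_range_mul_aux (fun i l => (P.coeff i).coeff l * (x ^ l * y ^ i)) M M]

/-- A bound for the degrees. -/
theorem exists_bound (P : Polynomial (Polynomial Ω)) :
    ∃ M : ℕ, (∀ i, M ≤ i → P.coeff i = 0) ∧ ∀ i l, M ≤ l → (P.coeff i).coeff l = 0 := by
  refine ⟨(P.natDegree + 1) + (Finset.range (P.natDegree + 1)).sup fun i =>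
    (P.coeff i).natDegree + 1, fun i hi => coeff_eq_zero_of_natDegree_lt (by omega),
    fun i l hl => ?_⟩
  by_cases hi : P.natDegree < i
  · rw [coeff_eq_zero_of_natDegree_lt hi, coeff_zero]
  · have h0 : i ∈ Finset.range (P.natDegree + 1) :=
      Finset.mem_range.2 (Nat.lt_succ_of_le (not_lt.1 hi))
    have h1 := Finset.le_sup (f := fun i => (P.coeff i).natDegree + 1) h0
    exact coeff_eq_zero_of_natDegree_lt (by omega)

/-- `K(al) = K(al h - g)`. -/
theorem adj_root {K : IntermediateField k Ω} {al h₁ g₁ : Ω} (hh : h₁ ∈ K) (hh0 : h₁ ≠ 0)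
    (hg : g₁ ∈ K) : adj K (al * h₁ - g₁) = adj K al := by
  apply le_antisymm
  · exact adj_le (fun a ha => (mem_adj_self _ _).2 ha)
      (sub_mem (mul_mem (mem_adj_self _ _).1 ((mem_adj_self _ _).2 hh))
        ((mem_adj_self _ _).2 hg))
  · refine adj_le (fun a ha => (mem_adj_self _ _).2 ha) ?_
    have h4 : (al * h₁ - g₁ + g₁) / h₁ = al := by
      rw [sub_add_cancel, mul_div_cancel_right₀ _ hh0]
    have h5 := div_mem (add_mem (mem_adj_self K (al * h₁ - g₁)).1
      ((mem_adj_self _ (al * h₁ - g₁)).2 hg)) ((mem_adj_self _ (al * h₁ - g₁)).2 hh)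
    rwa [h4] at h5

section Main

variable [IsAlgClosed k] [IsAlgClosed Ω] (p : ℕ) [hp : Fact p.Prime] [CharP k p] [CharP Ω p]

/-- **The exit `Z`.** -/
theorem hrone_Z (h : Ctx k v r) (hcv : CompleteV v)
    (hLU1 : ∀ E : IntermediateField k Ω, E.FG → Full v E →
      Algebra.trdeg k E = (r + D : ℕ) → BD p v E → LU p v r E)
    (hLU2 : ∀ E : IntermediateField k Ω, E.FG → Full v E →
      Algebra.trdeg k E = (r + (D + 1) : ℕ) → BD p v E → LU p v r E)
    {K₀ : IntermediateField k Ω} (hK : K₀.FG) (hKf : Full v K₀)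
    (htr : Algebra.trdeg k K₀ = (r + D + 1 + 1 : ℕ)) {al : Ω} (hal : al ^ p ∈ K₀)
    (hBD : BD p v (adj K₀ al)) {R : Fr k v r D} {X T : Ω} (hdn : Dns v R.K)
    (hbd : BD p v (adj (adj R.K X) T)) (hX : Transcendental R.K X)
    (hT : Transcendental (adj R.K X) T) (hX0 : X ≠ 0) (hT0 : T ≠ 0)
    (hcl : clI v (adj (adj R.K X) T) = clI v K₀) {h₁ g₁ : Ω} (hh : h₁ ∈ clI v K₀)
    (hg : g₁ ∈ clI v K₀) (hh0 : h₁ ≠ 0) {P : Polynomial (Polynomial Ω)} (hP : PII R.K P)
    (hrep : al ^ p * h₁ ^ p - g₁ ^ p = P.evalEval X T) {ρ c : ℝ} (hρ : ρ < v X) (hc : c < v T)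
    {κ₀ δ : ℝ} (hdst : Dst p v R.K κ₀ ((P.coeff 0).coeff 0)) (hδ : 0 < δ)
    (hE : ∀ l i : ℕ, l ≠ 0 ∨ i ≠ 0 → v.Ge (κ₀ + δ - l * ρ - i * c) ((P.coeff i).coeff l)) :
    HRone v (adj K₀ al) := by
  classical
  have hp0 := hp.out.pos
  have hpne := hp.out.ne_zero
  have hpR : (0 : ℝ) < p := by exact_mod_cast hp0
  have hXcl : X ∈ clI v K₀ := by
    rw [← hcl]
    exact le_clI _ ((mem_adj_self _ T).2 (mem_adj_self _ X).1)
  have hRcl : R.K ≤ clI v K₀ := by
    rw [← hcl]
    exact fun a ha => le_clI _ ((mem_adj_self _ T).2 ((mem_adj_self _ X).2 ha))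
  have hFG := TW.Est.fg_K R
  have hFf : Full v R.K := TW.Est.full_K h R
  have hbdX : BD p v (adj R.K X) := TW.BD.of_adj p (D2P.fg_adj hFG X) hT hbd
  have hbdR : BD p v R.K := TW.BD.of_adj p hFG hX hbdX
  -- the root is transcendental
  obtain ⟨P', g', hP', hg', hrep', hdst', hE', hγtr⟩ : ∃ (P' : Polynomial (Polynomial Ω))
      (g' : Ω), PII R.K P' ∧ g' ∈ clI v K₀ ∧ al ^ p * h₁ ^ p - g' ^ p = P'.evalEval X T ∧
      Dst p v R.K κ₀ ((P'.coeff 0).coeff 0) ∧
      (∀ l i : ℕ, l ≠ 0 ∨ i ≠ 0 → v.Ge (κ₀ + δ - l * ρ - i * c) ((P'.coeff i).coeff l)) ∧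
      Transcendental R.K (al * h₁ - g') := by
    by_cases htrγ : Transcendental R.K (al * h₁ - g₁)
    · exact ⟨P, g₁, hP, hg, hrep, hdst, hE, htrγ⟩
    · obtain ⟨e, he, he0, hev⟩ := TW.E10.exists_big h R ((κ₀ + δ - p * ρ) / p)
      have heR : IsAlgebraic R.K e := isAlgebraic_algebraMap (⟨e, he⟩ : R.K)
      have hcoef : ∀ i l, ((P + C (monomial p (e ^ p))).coeff i).coeff l =
          (P.coeff i).coeff l + (if i = 0 ∧ l = p then e ^ p else 0) := by
        intro i l
        rw [coeff_add, coeff_add, coeff_C]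
        congr 1
        by_cases hi : i = 0
        · rw [if_pos hi, coeff_monomial]
          by_cases hl : p = l
          · rw [if_pos hl, if_pos ⟨hi, hl.symm⟩]
          · rw [if_neg hl, if_neg fun h1 => hl h1.2.symm]
        · rw [if_neg hi, if_neg fun h1 => hi h1.1, coeff_zero]
      refine ⟨P + C (monomial p (e ^ p)), g₁ - e * X, fun i l => ?_,
        sub_mem hg (mul_mem (hRcl he) hXcl), ?_, ?_, fun l i hli => ?_, ?_⟩
      · rw [hcoef]
        refine add_mem (hP i l) ?_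
        split_ifs
        exacts [pow_mem he p, zero_mem _]
      · rw [sub_pow_char, mul_pow, evalEval_add, evalEval_C, eval_monomial, ← hrep]
        ring
      · rw [hcoef, if_neg (fun h1 => hpne h1.2.symm), add_zero]
        exact hdst
      · rw [hcoef]
        refine (hE l i hli).add ?_
        split_ifs with h1
        · obtain ⟨rfl, rfl⟩ := h1
          intro _
          rw [v.map_pow he0]
          have h2 := mul_le_mul_of_nonneg_left hev hpR.le
          rw [mul_div_cancel₀ _ hpR.ne'] at h2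
          push_cast
          linarith
        · exact RVal.Ge.zero
      · intro halg
        have h1 : IsAlgebraic R.K (al * h₁ - g₁) := by
          by_contra h2
          exact htrγ h2
        have h2 : IsAlgebraic R.K (e * X) := by
          have h3 := halg.sub h1
          rwa [show al * h₁ - (g₁ - e * X) - (al * h₁ - g₁) = e * X by ring] at h3
        have h3 : IsAlgebraic R.K (e⁻¹ * (e * X)) := heR.inv.mul h2
        rw [inv_mul_cancel_left₀ he0] at h3
        exact hX h3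
  obtain ⟨M, hM, hM'⟩ := exists_bound P'
  set W : IntermediateField k Ω := IntermediateField.adjoin k {X} ⊔ IntermediateField.adjoin k {T}
    with hW
  have hXW : X ∈ W := (le_sup_left : IntermediateField.adjoin k {X} ≤ W)
    (IntermediateField.mem_adjoin_simple_self k X)
  have hTW : T ∈ W := (le_sup_right : IntermediateField.adjoin k {T} ≤ W)
    (IntermediateField.mem_adjoin_simple_self k T)
  have hsup : ∀ F : IntermediateField k Ω, F ⊔ W = adj (adj F X) T := fun F =>
    (sup_assoc F _ _).symm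
  have hsum : (al * h₁ - g') ^ p = ∑ j ∈ Finset.range (M * M + 1),
      (P'.coeff (j / M)).coeff (j % M) * (X ^ (j % M) * T ^ (j / M)) := by
    rw [Finset.sum_range_succ, ← evalEval_eq_sum P' X T hM hM', ← hrep', sub_pow_char, mul_pow]
    have h1 : (P'.coeff (M * M / M)).coeff (M * M % M) = 0 := by
      rcases Nat.eq_zero_or_pos M with h0 | h0
      · rw [hM (M * M / M) (by rw [h0]), coeff_zero]
      · rw [Nat.mul_div_cancel _ h0, hM M le_rfl, coeff_zero]
    rw [h1, zero_mul, add_zero]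
  have hMpos : 0 < M := by
    by_contra hM0
    have h1 : (P'.coeff 0).coeff 0 = 0 := by rw [hM 0 (by omega), coeff_zero]
    refine hdst'.hi 1 one_pos 0 (zero_mem _) ?_
    rw [h1, zero_pow hpne, sub_zero]
    exact RVal.Ge.zero
  obtain ⟨F₂, hF1, hF2, hF3, hF4, hF5⟩ := exit_zero_gen p h hFG hFf hbdR (TW.Est.trdeg_K R)
    hLU1 hdn (κ₀ := κ₀) (δ := δ) (n := M * M) (W := W)
    (fun j => (P'.coeff (j / M)).coeff (j % M)) (fun j => X ^ (j % M) * T ^ (j / M))
    (fun j => (j % M : ℕ) * ρ + (j / M : ℕ) * c) (fun j => hP' _ _)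
    (by simp) (fun j => (ge_pow_of_lt hX0 hρ.le _).mul (ge_pow_of_lt hT0 hc.le _))
    (by simp) (fun j => mul_mem (pow_mem hXW _) (pow_mem hTW _))
    (by simpa using hdst') hδ (fun j hj => by
      refine (hE' (j % M) (j / M) ?_).mono (le_of_eq (by ring))
      by_contra hcon
      push Not at hcon
      have h1 := Nat.div_add_mod j M
      rw [hcon.1, hcon.2] at h1
      omega) hγtr hsum
  have hclK : clI v (adj (adj F₂ X) T) = clI v (adj (clI v K₀) (al * h₁ - g')) := by
    rw [← hsup F₂, hF5, hsup, ← hcl]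
    exact clI_adj_clI.symm
  have hF2X : Transcendental F₂ X := by
    intro halg
    have halgal : IsAlgebraic K₀ al := by
      refine ⟨Polynomial.X ^ p - C (⟨al ^ p, hal⟩ : K₀), X_pow_sub_C_ne_zero hp0 _, ?_⟩
      rw [map_sub, map_pow, aeval_X, aeval_C]
      exact sub_self _
    have hcl2 : clI v (adj (adj F₂ X) T) = clI v (adj K₀ al) := by
      rw [hclK, adj_root hh hh0 hg']
      exact clI_adj_clI
    have h1 := trdeg_ge_of_clI hcv (D2P.fg_adj hK al) (n := r + D + 1 + 1) (by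
      rw [trdeg_adj_alg halgal, htr]) hBD (D2P.fg_adj (D2P.fg_adj hF1 X) T) hcl2
    have h2 : Algebra.trdeg k (adj (adj F₂ X) T) ≤ (r + D + 1 : ℕ) := by
      have h3 : Algebra.trdeg k (adj F₂ X) = (r + D : ℕ) := by rw [trdeg_adj_alg halg, hF4]
      by_cases h4 : IsAlgebraic (adj F₂ X) T
      · rw [trdeg_adj_alg h4, h3]
        exact_mod_cast Nat.le_succ _
      · rw [TW.HRLU.trdeg_adj h4, h3]
        push_cast
        exact le_rfl
    have h3 := h1.trans h2
    rw [Nat.cast_le] at h3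
    omega
  refine exitg' (D := D + 1) p h hcv hLU2 hK hKf (by rw [htr]; rfl) hal hBD
    (D2P.fg_adj hF1 X) (hF2.mono fun a ha => (mem_adj_self _ X).2 ha) ?_ (X₂ := T) hh hg' hh0
    hclK.symm
  rw [TW.HRLU.trdeg_adj hF2X, hF4]
  push_cast
  ring

/-- **The exit `T`.** -/
theorem hrone_T (h : Ctx k v r) (hcv : CompleteV v)
    (hLU2 : ∀ E : IntermediateField k Ω, E.FG → Full v E →
      Algebra.trdeg k E = (r + (D + 1) : ℕ) → BD p v E → LU p v r E)
    {K₀ : IntermediateField k Ω} (hK : K₀.FG) (hKf : Full v K₀)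
    (htr : Algebra.trdeg k K₀ = (r + D + 1 + 1 : ℕ)) {al : Ω} (hal : al ^ p ∈ K₀)
    (hBD : BD p v (adj K₀ al)) {R : Fr k v r D} {X T : Ω} (hdn : Dns v R.K)
    (hbd : BD p v (adj (adj R.K X) T)) (hX : Transcendental R.K X)
    (hT : Transcendental (adj R.K X) T) (hX0 : X ≠ 0)
    (hcl : clI v (adj (adj R.K X) T) = clI v K₀) {h₁ g₁ : Ω} (hh : h₁ ∈ clI v K₀)
    (hg : g₁ ∈ clI v K₀) (hh0 : h₁ ≠ 0) {P : Polynomial (Polynomial Ω)} (hP : PII R.K P)
    (hrep : al ^ p * h₁ ^ p - g₁ ^ p = P.evalEval X T) {ρ c : ℝ} (hρ : ρ < v X) (hc : c < v T)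
    (hne : (P.coeff 1).coeff 0 ≠ 0)
    (hE : ∀ l i : ℕ, l ≠ 0 ∨ i ≠ 1 → Gt v (v ((P.coeff 1).coeff 0) + c - l * ρ - i * c)
      ((P.coeff i).coeff l)) :
    HRone v (adj K₀ al) := by
  classical
  have hFG := TW.Est.fg_K R
  have hFf : Full v R.K := TW.Est.full_K h R
  have hbdX : BD p v (adj R.K X) := TW.BD.of_adj p (D2P.fg_adj hFG X) hT hbd
  have hFX : Full v (adj R.K X) := hFf.mono fun a ha => (mem_adj_self _ X).2 ha
  have htrX : Algebra.trdeg k (adj R.K X) = (r + (D + 1) : ℕ) := by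
    rw [TW.HRLU.trdeg_adj hX, TW.Est.trdeg_K R]
    push_cast
    ring
  have hdX : Dns v (adj R.K X) := fun a b hab => by
    obtain ⟨e, he, h1⟩ := hdn a b hab
    exact ⟨e, (mem_adj_self _ X).2 he, h1⟩
  set β := (P.coeff 1).coeff 0 with hβ
  -- the coefficients
  have hA : ∀ i : ℕ, i ≠ 1 → Gt v (v β + c - i * c) ((P.coeff i).eval X) := by
    intro i hi
    rw [eval_eq_sum_range]
    refine TWM.Gt.sum _ _ fun l _ => ?_
    refine (((hE l i (Or.inr hi)).mul_ge (ge_pow_of_lt hX0 hρ.le l))).mono (le_of_eq ?_)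
    ring
  have hA1 : Gt v (v β) ((P.coeff 1).eval X - β) := by
    rw [eval_eq_sum_range, Finset.sum_range_succ', pow_zero, mul_one, add_sub_cancel_right]
    refine TWM.Gt.sum _ _ fun l _ => ?_
    refine (((hE (l + 1) 1 (Or.inl (Nat.succ_ne_zero l))).mul_ge
      (ge_pow_of_lt hX0 hρ.le (l + 1)))).mono (le_of_eq ?_)
    push_cast
    ring
  have hA1' : (P.coeff 1).eval X ≠ 0 ∧ v ((P.coeff 1).eval X) = v β := by
    have h1 := hA1.neg
    rw [neg_sub] at h1
    exact TWM.Gt.val_eq hne h1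
  have hγ : (al * h₁ - g₁) ^ p = (P.map (evalRingHom X)).eval T := by
    rw [map_evalRingHom_eval, ← hrep, sub_pow_char, mul_pow]
  obtain ⟨F₂, X₂, h1, h2, h3, h4⟩ := TWJ.exitTame p h hLU2 (D2P.fg_adj hFG X) hFX hbdX htrX hdX
    hT hc (A := P.map (evalRingHom X)) (fun i => by
      rw [coeff_map]
      exact TWJ.eval_mem_adj (hP i)) le_rfl hp.out.one_lt (by
      rw [coeff_map]
      exact hA1'.1) (fun i _ hi => by
      rw [coeff_map, coeff_map]
      simp only [coe_evalRingHom]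
      rw [hA1'.2]
      refine (hA i hi).mono (le_of_eq ?_)
      push_cast
      ring) hγ
  refine exitg' (D := D + 1) p h hcv hLU2 hK hKf (by rw [htr]; rfl) hal hBD h1 h2 h3 hh hg hh0
    (X₂ := X₂) ?_
  rw [h4, ← hcl]
  exact clI_adj_clI

/-- **The exit `X`.** -/
theorem hrone_X (h : Ctx k v r) (hcv : CompleteV v)
    (hLU2 : ∀ E : IntermediateField k Ω, E.FG → Full v E →
      Algebra.trdeg k E = (r + (D + 1) : ℕ) → BD p v E → LU p v r E)
    {K₀ : IntermediateField k Ω} (hK : K₀.FG) (hKf : Full v K₀)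
    (htr : Algebra.trdeg k K₀ = (r + D + 1 + 1 : ℕ)) {al : Ω} (hal : al ^ p ∈ K₀)
    (hBD : BD p v (adj K₀ al)) {R : Fr k v r D} {X T : Ω} (hdn : Dns v R.K)
    (hbd : BD p v (adj (adj R.K X) T)) (hT : Transcendental (adj R.K X) T)
    (hX : Transcendental (adj R.K T) X) (hT0 : T ≠ 0)
    (hcl : clI v (adj (adj R.K X) T) = clI v K₀) {h₁ g₁ : Ω} (hh : h₁ ∈ clI v K₀)
    (hg : g₁ ∈ clI v K₀) (hh0 : h₁ ≠ 0) {P : Polynomial (Polynomial Ω)} (hP : PII R.K P)
    (hrep : al ^ p * h₁ ^ p - g₁ ^ p = P.evalEval X T) {ρ c : ℝ} (hρ : ρ < v X) (hc : c < v T)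
    (hne : (P.coeff 0).coeff 1 ≠ 0)
    (hE : ∀ l i : ℕ, l ≠ 1 ∨ i ≠ 0 → Gt v (v ((P.coeff 0).coeff 1) + ρ - l * ρ - i * c)
      ((P.coeff i).coeff l)) :
    HRone v (adj K₀ al) := by
  have hcomm : adj (adj R.K X) T = adj (adj R.K T) X := by
    have key : ∀ a b : Ω, adj (adj R.K a) b ≤ adj (adj R.K b) a := fun a b =>
      adj_le (adj_le (fun c hc => (mem_adj_self _ a).2 ((mem_adj_self R.K b).2 hc))
        (mem_adj_self _ a).1) ((mem_adj_self _ a).2 (mem_adj_self R.K b).1)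
    exact le_antisymm (key X T) (key T X)
  have hTR : Transcendental R.K T := fun h1 =>
    hT (D2P.isAlgebraic_mono (fun a ha => (mem_adj_self R.K X).2 ha) h1)
  refine hrone_T p h hcv hLU2 hK hKf htr hal hBD hdn (R := R) (X := T) (T := X)
    (by rw [← hcomm]; exact hbd) hTR hX hT0 (by rw [← hcomm]; exact hcl) hh hg hh0
    (P := Bivariate.swap P) hP.swap (by rw [TWM.evalEval_swap]; exact hrep) hc hρ
    (by rw [TWM.coeff_swap]; exact hne) fun l i hli => ?_
  rw [TWM.coeff_swap, TWM.coeff_swap]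
  refine (hE i l hli.symm).mono (le_of_eq ?_)
  ring

end Main

end Pool.Agent.TWJ2
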