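import Pool.Agent.Lib.TWJ2.Tr
import Pool.Agent.Lib.TWJ.J
import Pool.Agent.Lib.TWNS.NS3

/-!
# TANK W, ROW J, exit: polynomials of degree smaller than the degree of the centre

* `exists_low`: the expansion of a polynomial in powers of a monic polynomial;
* `low_key`: a polynomial of degree `< n m` and of Gauss value `≥ c` at the radius `b'`: its digits;
* `deep_level`: if `A₀` has degree `< deg (minpoly F η)`, `η` a minimal centre of `z`, and `A₀(z)` is
  not a limit of `p`-th powers, then over the star data of `η` the index of `A₀` modulo `p`-th powers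
  is `≤ p - 1`.
-/

set_option autoImplicit false

open Polynomial

namespace Pool.Agent.TWJ2

open Pool.Agent.H15JM (RVal)
open Pool.Agent.LU1 (adj)
open Pool.Agent.D2 (Ctx0)
open Pool.Agent.D2P (hen clI mem_clI mem_adj_self)
open Pool.Agent.TW
open Pool.Agent.TWM (PI SL GB Gt Lim clI_hen le_clI)
open Pool.Agent.TWJ

universe u

section Dig

variable {F : Type u} [Field F]

/-- The expansion in powers of `Q`. -/
theorem exists_low {Q : F[X]} (hQ : Q.Monic) (hm : 0 < Q.natDegree) (n : ℕ) :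
    ∀ G : F[X], G.natDegree < (n + 1) * Q.natDegree → ∃ a : ℕ → F[X],
      (∀ i, (a i).natDegree < Q.natDegree) ∧ G = ∑ i ∈ Finset.range (n + 1), a i * Q ^ i := by
  induction n with
  | zero =>
    intro G hG
    refine ⟨fun _ => G, fun _ => by simpa using hG, ?_⟩
    simp
  | succ n ih =>
    intro G hG
    have h1 : (G /ₘ Q).natDegree < (n + 1) * Q.natDegree := by
      rw [natDegree_divByMonic G hQ]
      have h2 : (n + 1 + 1) * Q.natDegree = (n + 1) * Q.natDegree + Q.natDegree := by ring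
      have h3 : 0 < (n + 1) * Q.natDegree := Nat.mul_pos (Nat.succ_pos n) hm
      omega
    obtain ⟨a, ha, h2⟩ := ih _ h1
    refine ⟨fun i => if i = 0 then G %ₘ Q else a (i - 1), fun i => ?_, ?_⟩
    · simp only
      split_ifs with hi
      · exact natDegree_modByMonic_lt G hQ (fun h => by rw [h, natDegree_one] at hm; omega)
      · exact ha _
    · rw [Finset.sum_range_succ']
      simp only [Nat.add_sub_cancel, Nat.succ_ne_zero, if_false, if_true, pow_zero, mul_one]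
      conv_lhs => rw [← modByMonic_add_div G Q]
      rw [add_comm]
      congr 1
      conv_lhs => rw [h2]
      rw [Finset.mul_sum]
      exact Finset.sum_congr rfl fun i _ => by ring

/-- A multiple of `Q ^ n` of degree `< n m` is `0`. -/
theorem eq_zero_of_dvd {Q G : F[X]} (hQ : Q.Monic) {n : ℕ} (h : Q ^ n ∣ G)
    (hG : G.natDegree < n * Q.natDegree) : G = 0 := by
  by_contra h0
  have h1 := natDegree_le_of_dvd h h0
  rw [hQ.natDegree_pow] at h1
  omega

end Dig

section Gauss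

variable {k Ω : Type u} [Field k] [Field Ω] [Algebra k Ω] {v : RVal Ω}
  {F : IntermediateField k Ω} {z η : Ω} {ρ b₁ b : ℝ}

/-- The digits of a polynomial and its Gauss value. -/
theorem low_sum {b' γ : ℝ} {Q : F[X]} (hQ : GN v F η b' γ Q) (hρb : ρ ≤ b') {c : ℝ} {n : ℕ}
    (a : ℕ → F[X]) (ha : ∀ i < n, a i ≠ 0 → RB v F η ρ (a i) ∧ c ≤ v (aeval η (a i)) + i * γ) :
    GN v F η b' c (∑ i ∈ Finset.range n, a i * Q ^ i) := by
  refine GN.sum _ _ fun i hi => ?_
  by_cases h0 : a i = 0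
  · rw [h0, zero_mul]
    exact GN.zero
  obtain ⟨h1, h2⟩ := ha i (Finset.mem_range.1 hi) h0
  exact ((RB.gn hρb h1).mul (TWJ.GN.pow hQ i)).mono h2

end Gauss

/-- **The deep level.** -/
theorem deep_level {k Ω : Type u} [Field k] [Field Ω] [Algebra k Ω] {v : RVal Ω}
    [IsAlgClosed Ω] [IsAlgClosed k] (p : ℕ) [hp : Fact p.Prime] [CharP k p] [CharP Ω p]
    {r D : ℕ} {F : IntermediateField k Ω} {z η : Ω} {ρ : ℝ} (h : Ctx k v r) (hF : F.FG)
    (hfull : Full v F) (hBD : BD p v F) (htr : Algebra.trdeg k F = (r + D : ℕ))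
    (hLU : ∀ E : IntermediateField k Ω, E.FG → Full v E →
      Algebra.trdeg k E = (r + D : ℕ) → BD p v E → LU p v r E)
    (hd : Dns v F) (hz : Transcendental F z) (hη : IsMin v F z η ρ) {A₀ : F[X]}
    (hdeg : A₀.natDegree < (minpoly F η).natDegree) {μ : ℝ}
    (hμ : ∀ g ∈ clI v (adj F z), ¬ v.Ge μ (aeval z A₀ - g ^ p)) :
    ∃ (R : Fr k v r D) (X' : Ω), (∀ i, R.s i ∈ adj F z) ∧
      X' ∈ adj F z ∧ X' ≠ 0 ∧ 0 < v X' ∧ BD p v R.K ∧ Dns v R.K ∧ Transcendental R.K X' ∧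
      hen v (adj R.K X') = hen v (adj F z) ∧
      ∀ N : ℝ, ∃ A' ∈ PI R.K, ∃ r' κ' : ℝ, v.Ge N (aeval z A₀ - A'.eval X') ∧
        SL p v R.K X' r' κ' (p - 1) A' := by
  classical
  have hp0 : 0 < p := hp.out.pos
  have hpR : (0 : ℝ) < p := by exact_mod_cast hp0
  have hneal : ∀ α : Ω, IsAlgebraic F α → z - α ≠ 0 := by
    intro α hα h0
    exact hz (by rw [sub_eq_zero.mp h0]; exact hα)
  have hint : IsIntegral F η := hη.sep.isIntegral
  have hzη : z - η ≠ 0 := hneal η hint.isAlgebraic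
  have hQm := minpoly.monic hint
  set Q := minpoly F η with hQdef
  set m := Q.natDegree with hm
  have hm0 : 0 < m := minpoly.natDegree_pos hint
  -- the radii
  obtain ⟨π', hπ'F, hπ'0, hb'1, hb'2⟩ := hd ρ (v (z - η)) hη.lt
  obtain ⟨π, hπF, hπ0, hb1, hbb'⟩ := hd ρ (v π') hb'1
  set b' := v π' with hb'
  obtain ⟨b₁, ε, ⟨d⟩⟩ := exists_SD p h hF hfull hBD htr hLU hd
    (cen_of_min hz hη hπF hπ0 hb1 (hbb'.trans hb'2))
  obtain ⟨cγ, -, -, hγ⟩ := E4.exists_isGV hη.sep ((mem_adj_self F η).2 hπ'F) hπ'0 hb'.symm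
  set γ := v cγ with hγdef
  have hγ2 : v d.q + (b' - v π) ≤ γ := radius_pos d hbb' hγ
  set t := γ - v d.q with ht
  have ht0 : 0 < t := by linarith
  have hρb' : ρ ≤ b' := hb'1.le
  have hρπ : ρ ≤ v π := hb1.le
  -- the Gauss values with `g` of degree `< m`
  set 𝒟 : Set ℝ := {c | ∃ g : F[X], g.natDegree < m ∧ GN v F η b' c (A₀ - g ^ p)} with h𝒟
  have hne : 𝒟.Nonempty := by
    obtain ⟨c, hc⟩ := GN.exists (v := v) (η := η) (b := b') (A₀ - 0 ^ p)
    exact ⟨c, 0, by rwa [natDegree_zero], hc⟩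
  have hbdd : ∀ c ∈ 𝒟, c ≤ μ := by
    rintro c ⟨g, -, hg⟩
    by_contra hlt
    push Not at hlt
    have h1 : Reg v F z η ρ b' c (aeval z (A₀ - g ^ p)) := Reg.of_GN hg
    have h2 := Reg.ge (sub_ne_zero.1 hzη) hb'2 hb'1 h1
    refine hμ (aeval z g) (le_clI _ (E10.aeval_mem_adj _)) ?_
    rw [_root_.map_sub, _root_.map_pow] at h2
    exact h2.mono hlt.le
  set Dd := sSup 𝒟 with hDd
  have hle : ∀ c ∈ 𝒟, c ≤ Dd := fun c hc => le_csSup ⟨μ, hbdd⟩ hc
  obtain ⟨c₁, ⟨g₀, hg₀, hg₀G⟩, hc₁⟩ := exists_lt_of_lt_csSup hne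
    (show Dd - t / 4 < sSup 𝒟 by linarith)
  set L := Dd + t / 4 with hL
  have hdegp : ∀ g : F[X], g.natDegree < m → (A₀ - g ^ p).natDegree < (p - 1 + 1) * m := by
    intro g hg
    have h1 : (g ^ p).natDegree < p * m := by
      refine (natDegree_pow_le).trans_lt ?_
      exact (Nat.mul_lt_mul_left hp0).2 hg
    have h2 : A₀.natDegree < p * m := hdeg.trans_le (Nat.le_mul_of_pos_left m hp0)
    rw [Nat.sub_add_cancel hp0]
    exact (natDegree_sub_le _ _).trans_lt (max_lt h2 h1)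
  -- the value at the radius `b`
  have hGNb : GN v F η (v π) (Dd - t / 4 - (p - 1) * t) (A₀ - g₀ ^ p) := by
    obtain ⟨a, ha, hG⟩ := exists_low hQm hm0 (p - 1) (A₀ - g₀ ^ p) (hdegp g₀ hg₀)
    have h1 : GN v F η b' (Dd - t / 4) (∑ i ∈ Finset.range (p - 1 + 1), a i * Q ^ i) := by
      rw [← hG]
      exact hg₀G.mono hc₁.le
    have hRB : ∀ i < p - 1 + 1, a i ≠ 0 → RB v F η ρ (a i) := fun i _ hi => d.cen.tb _ hi (ha i)
    rw [hG]
    refine low_sum d.q_val.1 hρπ a fun i hi hi0 => ⟨hRB i hi hi0, ?_⟩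
    have h2 := key_poly_RB hb'1 hγ a hRB h1 i hi hi0
    have h3 : (i : ℝ) ≤ p - 1 := by
      have h4 : i + 1 ≤ p := by omega
      have h5 : ((i + 1 : ℕ) : ℝ) ≤ p := by exact_mod_cast h4
      push_cast at h5
      linarith
    have h6 : (i : ℝ) * t ≤ (p - 1) * t := mul_le_mul_of_nonneg_right h3 ht0.le
    have h7 : (i : ℝ) * γ = i * t + i * v d.q := by rw [ht]; ring
    linarith
  -- the bound
  have bound : ∀ g G H : F[X], A₀ - g ^ p = G + Q ^ (p - 1 + 1) * H →
      ¬ GN v F η b' L G := by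
    intro g G H heq hGN
    rw [Nat.sub_add_cancel hp0] at heq
    have hg1 : g = g %ₘ Q + Q * (g /ₘ Q) := (modByMonic_add_div g Q).symm
    have hg2 : g ^ p = (g %ₘ Q) ^ p + Q ^ p * (g /ₘ Q) ^ p := by
      conv_lhs => rw [hg1]
      rw [add_pow_char, mul_pow]
    have hgm : (g %ₘ Q).natDegree < m :=
      natDegree_modByMonic_lt g hQm (minpoly.ne_one F η)
    -- the expansion of `G`
    obtain ⟨a, ha, hG⟩ := exists_low hQm hm0 (G.natDegree + p) G (by
      calc G.natDegree < (G.natDegree + p + 1) * 1 := by omega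
        _ ≤ (G.natDegree + p + 1) * Q.natDegree := Nat.mul_le_mul_left _ hm0)
    have hRB : ∀ i < G.natDegree + p + 1, a i ≠ 0 → RB v F η ρ (a i) :=
      fun i _ hi => d.cen.tb _ hi (ha i)
    have h1 : GN v F η b' L (∑ i ∈ Finset.range (G.natDegree + p + 1), a i * Q ^ i) := by
      rw [← hG]
      exact hGN
    have h2 := key_poly_RB hb'1 hγ a hRB h1
    set G₁ := ∑ i ∈ Finset.range p, a i * Q ^ i with hG₁
    have h3 : GN v F η b' L G₁ := low_sum hγ.1 hρb' a fun i hi hi0 =>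
      ⟨hRB i (by omega) hi0, h2 i (by omega) hi0⟩
    have h4 : A₀ - (g %ₘ Q) ^ p = G₁ := by
      have h5 : Q ^ p ∣ G - G₁ := by
        have h6 : G - G₁ = ∑ i ∈ Finset.Ico p (G.natDegree + p + 1), a i * Q ^ i := by
          rw [Finset.sum_Ico_eq_sub _ (by omega : p ≤ G.natDegree + p + 1), ← hG]
        rw [h6]
        exact Finset.dvd_sum fun i hi =>
          Dvd.dvd.mul_left (pow_dvd_pow Q (Finset.mem_Ico.1 hi).1) _
      have h7 : Q ^ p ∣ A₀ - (g %ₘ Q) ^ p - G₁ := by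
        have h8 : A₀ - (g %ₘ Q) ^ p - G₁ = (G - G₁) + Q ^ p * (H + (g /ₘ Q) ^ p) := by
          have h9 : A₀ = G + Q ^ p * H + g ^ p := by
            rw [← heq]
            ring
          rw [h9, hg2]
          ring
        rw [h8]
        exact dvd_add h5 (dvd_mul_right _ _)
      have h8 : (A₀ - (g %ₘ Q) ^ p - G₁).natDegree < p * m := by
        refine (natDegree_sub_le _ _).trans_lt (max_lt ?_ ?_)
        · have h9 := hdegp _ hgm
          rwa [Nat.sub_add_cancel hp0] at h9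
        · have h9 : ∀ i ∈ Finset.range p, (a i * Q ^ i).natDegree ≤ p * m - 1 := by
            intro i hi
            have h10 := Finset.mem_range.1 hi
            have h11 := natDegree_mul_le (p := a i) (q := Q ^ i)
            rw [hQm.natDegree_pow] at h11
            have h12 := ha i
            have h13 : (i + 1) * Q.natDegree ≤ p * Q.natDegree :=
              Nat.mul_le_mul_right _ (by omega)
            have h14 : (i + 1) * Q.natDegree = i * Q.natDegree + Q.natDegree := by ring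
            have h15 : p * m = p * Q.natDegree := rfl
            omega
          have h10 : G₁.natDegree ≤ p * m - 1 := natDegree_sum_le_of_forall_le _ _ h9
          have h11 : 0 < p * m := Nat.mul_pos hp0 hm0
          omega
      exact sub_eq_zero.1 (eq_zero_of_dvd hQm h7 h8)
    have h5 := hle L ⟨g %ₘ Q, hgm, by rw [h4]; exact h3⟩
    linarith
  -- the polynomials over `E`
  obtain ⟨w, hw, hw0, hw1, hw2⟩ := dns_K h hd d (Dd - 2 * (t / 4) - (p - 1) * t)
    (Dd - t / 4 - (p - 1) * t) (by linarith)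
  have hreg : Reg v F z η b₁ (v π) (v w) (aeval z (A₀ - g₀ ^ p)) :=
    Reg.mono hw2.le (Reg.of_GN hGNb)
  have hGtX : Gt v t d.X := gt_X d hb'2 hγ
  obtain ⟨e1, e2, e3, e4, e5, e6, e7, e8⟩ := level0_facts h hd d
  refine ⟨d.S', d.X, e1, e2, e3, e4, e5, e6, e7, e8, fun N => ?_⟩
  -- `g₀`
  obtain ⟨g₁, hg₁, hg₁N⟩ : ∃ g₁ ∈ PI d.S'.K, v.Ge (N / p) (aeval z g₀ - g₁.eval d.X) := by
    obtain ⟨cG, hcG⟩ := GN.exists (v := v) (η := η) (b := v π) g₀
    obtain ⟨w', hw', hw'0, -, hw'2⟩ := dns_K h hd d (cG - 1) cG (by linarith)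
    obtain ⟨g₁, hg₁, -, h1⟩ := exists_rep h d hw' hw'0
      (Reg.mono hw'2.le (Reg.of_GN (z := z) hcG)) (N / p)
    exact ⟨g₁, hg₁, Reg.ge (sub_ne_zero.1 hzη) (hbb'.trans hb'2) d.lt₂ h1⟩
  obtain ⟨A', hA', hA'w, hrep⟩ := exists_rep h d hw hw0 hreg (max L N)
  have hrep' := Reg.radius hbb'.le hrep
  have htrans := transfer h d hbb'.le hγ.1 hA' (Reg.mono (le_max_left L N) hrep') bound
  obtain ⟨r', κ', -, -, -, hSL'⟩ := exists_SL (S₁ := p - 1) (i₀ := 1) hA'
    (by omega) (r₀ := 0) (r₁ := t) (K₀ := v w)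
    (L₁ := L) ht0 ⟨0, zero_mem _, fun i => by
      rw [zero_pow hp.out.ne_zero, sub_zero, mul_zero, sub_zero]
      exact hA'w i⟩ (by
      have h6 : ((p - 1 : ℕ) : ℝ) + 1 = p := by
        rw [Nat.cast_sub hp0]
        push_cast
        ring
      rw [h6]
      linarith) htrans hGtX
  refine ⟨A' + g₁ ^ p, add_mem hA' (pow_mem hg₁ p), r', κ', ?_, SL_add_pow hSL' hg₁⟩
  have h1 := Reg.ge (sub_ne_zero.1 hzη) (hbb'.trans hb'2) d.lt₂ (Reg.mono (le_max_right L N) hrep)
  rw [_root_.map_sub, _root_.map_pow] at h1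
  have e1 : aeval z A₀ - (A' + g₁ ^ p).eval d.X =
      (aeval z A₀ - aeval z g₀ ^ p - A'.eval d.X) + (aeval z g₀ - g₁.eval d.X) ^ p := by
    rw [eval_add, eval_pow, sub_pow_char]
    ring
  rw [e1]
  refine h1.add ?_
  intro hne
  have h13 : aeval z g₀ - g₁.eval d.X ≠ 0 := fun h => hne (by rw [h, zero_pow hp.out.ne_zero])
  rw [v.map_pow h13]
  have h14 := hg₁N h13
  rw [div_le_iff₀ hpR] at h14
  linarith

end Pool.Agent.TWJ2
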