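import Pool.Agent.Lib.TWJ2.Ext1
import Pool.Agent.Lib.TWJ2.Aut

/-!
# TANK W, ROW J, exit: infinitely many jumps and states of small index

* `exists_deg`: if `x` has infinitely many jumps over `F`, there are minimal centres of degree `> n`;
* `dense_poly`: then the polynomials in `x` over `F` are dense in the closure of `F(x)`;
* `exists_stt_small`: then `(K, a)`, `K` the closure of `F(x)`, has a state of index `≤ p - 1`.
-/

set_option autoImplicit false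

open Polynomial

namespace Pool.Agent.TWJ2

open Pool.Agent.H15JM (RVal)
open Pool.Agent.LU1 (adj)
open Pool.Agent.D2 (Ctx0)
open Pool.Agent.D2P (hen clI mem_clI mem_adj_self)
open Pool.Agent.TW
open Pool.Agent.TWM (PI SL GB Gt Lim CompleteV clI_hen clI_clI le_clI adj_range)
open Pool.Agent.TWJ

universe u

variable {k Ω : Type u} [Field k] [Field Ω] [Algebra k Ω] {v : RVal Ω}

/-- Minimal centres of big degree. -/
theorem exists_deg [IsAlgClosed Ω] (h : Ctx0 k v) {F : IntermediateField k Ω}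
    (hfull : Full v F) (hd : Dns v F) {x : Ω} (hx : Transcendental F x) (hnf : ¬ FJ v F x)
    (n : ℕ) : ∃ (η : Ω) (ρ : ℝ), IsMin v F x η ρ ∧ n < (minpoly F η).natDegree := by
  rw [FJ] at hnf
  push Not at hnf
  obtain ⟨ξ, hξ, h1⟩ := hnf n
  obtain ⟨ξ', hξ', h2⟩ := exists_closer h hfull hx hξ
  obtain ⟨η, hη⟩ := exists_min hd hx hξ' h2
  refine ⟨η, _, hη, ?_⟩
  by_contra hcon
  push Not at hcon
  exact absurd hη.lt (not_lt.2 (h1 η hη.sep.isIntegral.isAlgebraic hcon))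

/-- **Density of the polynomials.** -/
theorem dense_poly [IsAlgClosed Ω] (h : Ctx0 k v) {F : IntermediateField k Ω}
    (hfull : Full v F) (hd : Dns v F) {x : Ω} (hx : Transcendental F x) (hnf : ¬ FJ v F x)
    {f : Ω} (hf : f ∈ clI v (adj F x)) (N : ℝ) : ∃ A : F[X], v.Ge N (f - aeval x A) := by
  obtain ⟨g, hg, h1⟩ := mem_clI.1 hf N
  by_cases hg0 : g = 0
  · refine ⟨0, ?_⟩
    rw [_root_.map_zero]
    rwa [hg0] at h1
  obtain ⟨A, B, hA, hB, -, -, rfl⟩ := Est.exists_frac hg hg0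
  obtain ⟨η, ρ, hη, hdeg⟩ := exists_deg h hfull hd hx hnf (max A.natDegree B.natDegree)
  have hint : IsIntegral F η := hη.sep.isIntegral
  have hxη : x ≠ η := by
    intro h0
    refine hx ?_
    rw [h0]
    exact hint.isAlgebraic
  obtain ⟨π, hπF, hπ0, hb1, hb2⟩ := hd ρ (v (x - η)) hη.lt
  have hcen := cen_of_min hx hη hπF hπ0 hb1 hb2
  obtain ⟨π₁, -, -, hb₁1, hb₁2⟩ := hd ρ (v π) hb1
  have hreg := Pool.Agent.TWNS.reg_of_lt hcen hb₁1.le hb₁2.le (hb₁2.trans hb2) hA hB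
    ((le_max_left _ _).trans_lt hdeg) ((le_max_right _ _).trans_lt hdeg)
  obtain ⟨P, -, hP⟩ := exists_poly hint hcen.tb hb₁1.le hb₁2 hreg N
  refine ⟨P, ?_⟩
  have h2 := h1.add (Reg.ge hxη hb2 hb₁2 hP)
  rwa [sub_add_sub_cancel] at h2

/-- **States of index `≤ p - 1`.** -/
theorem exists_stt_small [IsAlgClosed Ω] [IsAlgClosed k] (p : ℕ) [hp : Fact p.Prime] [CharP k p]
    [CharP Ω p] {r D : ℕ} (h : Ctx k v r) (hcv : CompleteV v)
    (hLU : ∀ E : IntermediateField k Ω, E.FG → Full v E →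
      Algebra.trdeg k E = (r + D : ℕ) → BD p v E → LU p v r E)
    {K₀ : IntermediateField k Ω} (hK₀ : K₀.FG)
    (htr₀ : Algebra.trdeg k K₀ = (r + D + 1 : ℕ)) (hBD₀ : BD p v K₀) {a : Ω} (ha : a ∈ clI v K₀)
    {μ : ℝ} (hμ : ∀ g ∈ clI v K₀, ¬ v.Ge μ (a - g ^ p))
    {F : IntermediateField k Ω} (hF : F.FG) (hfull : Full v F) (hBD : BD p v F)
    (htr : Algebra.trdeg k F = (r + D : ℕ)) (hd : Dns v F) {x : Ω} (hx : Transcendental F x)
    (hcl : clI v K₀ = clI v (adj F x)) (hnf : ¬ FJ v F x) :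
    ∃ (F' : IntermediateField k Ω) (z : Ω) (ρ κ : ℝ) (A : Polynomial Ω),
      Stt p v r D (clI v K₀) a F' z ρ κ (p - 1) A := by
  classical
  -- coordinates of `K`
  obtain ⟨η₀, ρ₀, hη₀, -⟩ := exists_deg h.toCtx0 hfull hd hx hnf 0
  obtain ⟨b₀, b₁, ε, -, -, ⟨d₀⟩⟩ := exists_level0 p h hF hfull hBD htr hLU hd hx hη₀ hη₀.lt le_rfl
  obtain ⟨-, -, -, -, -, -, -, hh₀⟩ := level0_facts h hd d₀
  have hcl₀ : clI v (adj d₀.S'.K d₀.X) = clI v K₀ := by
    rw [← clI_hen, hh₀, clI_hen, hcl]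
  have ht₀ : clI v (kr k (Fin.snoc d₀.S'.s d₀.X : Fin (r + D + 1) → Ω)) = clI v K₀ := by
    rw [← hcl₀, P1.K_eq d₀.S', adj_range]
  obtain ⟨N₁, hN₁⟩ := stt_of_near p h hcv hK₀ htr₀ hBD₀ rfl ht₀ ha hμ (h₁ := 1) (g₁ := 0)
    (one_mem _) one_ne_zero (zero_mem _)
  -- the polynomial `A₀`
  have ha' : a ∈ clI v (adj F x) := by rwa [← hcl]
  obtain ⟨A₀, hA₀⟩ := dense_poly h.toCtx0 hfull hd hx hnf ha' (max μ N₁)
  have hμ' : ∀ g ∈ clI v (adj F x), ¬ v.Ge μ (aeval x A₀ - g ^ p) := by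
    intro g hg h1
    refine hμ g (by rwa [hcl]) ?_
    have h2 := (hA₀.mono (le_max_left μ N₁)).add h1
    rwa [sub_add_sub_cancel] at h2
  obtain ⟨η, ρ, hη, hdeg⟩ := exists_deg h.toCtx0 hfull hd hx hnf A₀.natDegree
  obtain ⟨R, X', -, -, -, -, -, -, -, hhen, hA⟩ :=
    deep_level p h hF hfull hBD htr hLU hd hx hη hdeg hμ'
  obtain ⟨A', -, r', κ', hge, hSL⟩ := hA N₁
  have hcl' : clI v (adj R.K X') = clI v K₀ := by
    rw [← clI_hen, hhen, clI_hen, hcl]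
  obtain ⟨R', X'', A'', hst, -⟩ := hN₁ R X' hcl' (p - 1) r' κ' A' hSL (by
    rw [one_pow, mul_one, zero_pow hp.out.ne_zero, sub_zero]
    have h2 := (hA₀.mono (le_max_right μ N₁)).add hge
    rwa [sub_add_sub_cancel] at h2)
  exact ⟨R'.K, X'', r', κ', A'', hst⟩

end Pool.Agent.TWJ2
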