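import Pool.Agent.Lib.TWJ2.Ext2
import Pool.Agent.Lib.TWJ2.LemR
import Pool.Agent.Lib.TWJ2.SwapSt

/-!
# TANK W, ROW J, exit: centres of bounded degree

* `exists_flag_star`: if `z` is a limit, up to its radius `s`, of polynomials of bounded degree in `y`
  over `C`, and `y` has infinitely many jumps over `C`, then there is a flag `(E, X, z')` of the same
  field with `z'` of transcendental type over `E` itself;
* `not_fj_swap`: then infinitely many jumps of `X` over `E` give infinitely many jumps over `E(z')`;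
* `star_false`: so the index `q` cannot be minimal for `p ≤ q`.
-/

set_option autoImplicit false

open Polynomial

namespace Pool.Agent.TWJ2

open Pool.Agent.H15JM (RVal)
open Pool.Agent.LU1 (adj)
open Pool.Agent.D2 (Ctx0)
open Pool.Agent.D2P (hen clI mem_clI mem_adj_self adj_le)
open Pool.Agent.TW
open Pool.Agent.TWM (PI SL GB Gt Lim TL CompleteV OI pbasis_clI clI_hen clI_clI le_clI clI_mono adj_range cadj
  clI_adj_clI)
open Pool.Agent.TWJ

universe u

variable {k Ω : Type u} [Field k] [Field Ω] [Algebra k Ω] {v : RVal Ω}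

theorem tl_tr {E : IntermediateField k Ω} {z : Ω} {s : ℝ} (h : TL v E z s) :
    Transcendental E z := fun h1 => (h.far z h1).1 rfl

/-- An element of transcendental type has no jumps. -/
theorem fj_of_tl {E : IntermediateField k Ω} {z : Ω} {s : ℝ} (h : TL v E z s) : FJ v E z := by
  refine ⟨1, fun ξ hξ => ?_⟩
  obtain ⟨-, h1⟩ := h.far ξ hξ
  obtain ⟨e, he, h2⟩ := h.lim ((s - v (z - ξ)) / 2) (by linarith)
  have he' : IsAlgebraic E e := isAlgebraic_algebraMap (⟨e, he⟩ : E)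
  have h3 : z - e ≠ 0 := sub_ne_zero.2 (h.far e he').1
  have h4 := h2 h3
  refine ⟨e, he', ?_, by linarith⟩
  have h5 : minpoly E e = X - C (⟨e, he⟩ : E) :=
    minpoly.eq_X_sub_C Ω (⟨e, he⟩ : E)
  rw [h5, natDegree_X_sub_C]

/-- The value of the nonconstant part. -/
theorem ge_eval_sub {X : Ω} (hX : 0 < v X) {f : Polynomial Ω}
    {c : ℝ} (hf : ∀ i, v.Ge c (f.coeff i)) : v.Ge (c + v X) (f.eval X - f.coeff 0) := by
  have h1 : f.eval X - f.coeff 0 = (divX f).eval X * X := by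
    conv_lhs => rw [← divX_mul_X_add f]
    simp
  rw [h1]
  refine RVal.Ge.mul ?_ (v.ge_self X)
  rw [eval_eq_sum_range]
  refine RVal.Ge.sum _ _ fun i _ => ?_
  have h2 : v.Ge 0 (X ^ i) := by
    intro h0
    by_cases hX0 : X = 0
    · rcases Nat.eq_zero_or_pos i with rfl | hi
      · rw [pow_zero, v.map_one]
      · rw [hX0, zero_pow hi.ne'] at h0
        exact absurd rfl h0
    · rw [v.map_pow hX0]
      positivity
  have h3 := RVal.Ge.mul (hf (i + 1)) h2
  rw [add_zero] at h3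
  rwa [coeff_divX]

/-- A finitely generated field with the same closure and transcendence degree. -/
theorem bd_of_cl [IsAlgClosed k] (p : ℕ) [Fact p.Prime] [CharP k p] [CharP Ω p]
    (hcv : CompleteV v) {K₀ M : IntermediateField k Ω} (hK₀ : K₀.FG) {n : ℕ}
    (htr : Algebra.trdeg k K₀ = (n : ℕ)) (hBD : BD p v K₀) (hM : M.FG)
    (hcl : clI v M = clI v K₀) (htrM : Algebra.trdeg k M = (n : ℕ)) : BD p v M := by
  obtain ⟨m, s, hsb, C, hC⟩ := id hBD
  have hm : m = n := by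
    have h4 := (hsb.trdeg p hK₀).1
    rw [htr] at h4
    exact_mod_cast h4.symm
  subst hm
  have hos : OI p v (clI v K₀) s C := (OI.of_orth_pb hC hsb).cl
  have hpb : PBasis p (clI v K₀) s := pbasis_clI hcv hsb hos
  have hBDK : BD p v (clI v K₀) := ⟨_, s, hpb, C, hos.orth⟩
  exact (BD_dense hBDK hpb hM hcl).2 htrM

/-- **The flag of a deep level.** -/
theorem exists_flag_star [IsAlgClosed Ω] [IsAlgClosed k] (p : ℕ) [hp : Fact p.Prime] [CharP k p]
    [CharP Ω p] {r D : ℕ} (h : Ctx k v r)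
    (hLU : ∀ E : IntermediateField k Ω, E.FG → Full v E →
      Algebra.trdeg k E = (r + D : ℕ) → BD p v E → LU p v r E)
    {K C : IntermediateField k Ω} {y z : Ω} {s : ℝ} (hfl : Flg p v (r + D) K C y z)
    (hTL : TL v (clI v (adj C y)) z s) (hd : Dns v C) (hnf : ¬ FJ v C y) {m1 : ℕ}
    (hstar : ∀ ε : ℝ, 0 < ε → ∃ θ ∈ PI C, θ.natDegree < m1 ∧ v.Ge (s - ε) (z - θ.eval y)) :
    ∃ (E : IntermediateField k Ω) (X z' : Ω), Flg p v (r + D) K E X z' ∧ TL v E z' s ∧
      TL v (clI v (adj E X)) z' s := by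
  obtain ⟨η, ρ, hη, hdeg⟩ := exists_deg h.toCtx0 hfl.full hd hfl.ty hnf m1
  obtain ⟨b, b₁, ε', hb1, hb2, ⟨d⟩⟩ := exists_level0 p h hfl.fg hfl.full hfl.bd hfl.tr hLU hd
    hfl.ty hη hη.lt le_rfl
  obtain ⟨e1, e2, e3, e4, e5, e6, e7, e8⟩ := level0_facts h hd d
  have hKle : d.S'.K ≤ adj C y := E10.K_le_adj d
  have hle : adj d.S'.K d.X ≤ adj C y := adj_le hKle e2
  have hcl : clI v (adj d.S'.K d.X) = clI v (adj C y) := by rw [← clI_hen, e8, clI_hen]
  have hyη : y ≠ η := by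
    intro h0
    refine hfl.ty ?_
    rw [h0]
    exact hη.sep.isIntegral.isAlgebraic
  set t := v d.X with ht
  obtain ⟨θ₀, hθ₀, hθ₀d, hθ₀v⟩ := hstar (t / 4) (by linarith)
  have hf0 : θ₀.eval y ∈ adj C y := TWJ.eval_mem_adj hθ₀
  have hT : TL v (clI v (adj C y)) (z - θ₀.eval y) s := hTL.sub_mem (le_clI _ hf0)
  have hlim : Lim v d.S'.K s (z - θ₀.eval y) := by
    intro ε hε
    obtain ⟨θ, hθ, hθd, hθv⟩ := hstar (min ε (t / 4)) (lt_min hε (by linarith))
    obtain ⟨δ, hδ⟩ := exists_lift (sub_mem hθ hθ₀)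
    have hδd : δ.natDegree < m1 := by
      have h1 : (δ.map (algebraMap C Ω)).natDegree = δ.natDegree := natDegree_map _
      rw [← h1, hδ]
      exact (natDegree_sub_le _ _).trans_lt (max_lt hθd hθ₀d)
    have hδy : aeval y δ = θ.eval y - θ₀.eval y := by
      rw [← eval_map_algebraMap, hδ, eval_sub]
    have hz' : z - θ₀.eval y = (z - θ.eval y) + aeval y δ := by
      rw [hδy]
      ring
    by_cases hδ0 : δ = 0
    · refine ⟨0, zero_mem _, ?_⟩
      rw [hz', hδ0, _root_.map_zero, add_zero, sub_zero]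
      exact hθv.mono (by linarith [min_le_left ε (t / 4)])
    have hRB : RB v C η ρ δ := d.cen.tb _ hδ0 (hδd.trans hdeg)
    have h1 := hRB.near (x := y) fun _ => hη.lt
    have h2 : v.Ge (s - t / 4) (aeval y δ) := by
      have h3 : aeval y δ = (z - θ₀.eval y) - (z - θ.eval y) := by rw [hz']; ring
      rw [h3]
      exact hθ₀v.sub (hθv.mono (by linarith [min_le_right ε (t / 4)]))
    have h3 : s - t / 4 ≤ v (aeval η δ) := by
      rw [← h1.2.1]
      exact h2 h1.1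
    have h4 : GN v C η b (s - t / 4) δ := (RB.gn hb1.le hRB).mono h3
    obtain ⟨f', hf', hf'v, hrep⟩ := rep_of_GN h hd d h4 (lam' := s - t / 2) (by linarith) s
    refine ⟨f'.coeff 0, hf' 0, ?_⟩
    have h5 := Reg.ge hyη hb2 d.lt₂ hrep
    have h6 := ge_eval_sub e4 hf'v
    have h7 : z - θ₀.eval y - f'.coeff 0 =
        (z - θ.eval y) + ((aeval y δ - f'.eval d.X) + (f'.eval d.X - f'.coeff 0)) := by
      rw [hz']
      ring
    rw [h7]
    refine (hθv.mono (by linarith [min_le_left ε (t / 4)])).add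
      ((h5.mono (by linarith)).add (h6.mono ?_))
    linarith
  have hTX : TL v (clI v (adj d.S'.K d.X)) (z - θ₀.eval y) s := by rw [hcl]; exact hT
  have hTE : TL v d.S'.K (z - θ₀.eval y) s :=
    ⟨hlim, fun θ hθ => hT.far θ (D2P.isAlgebraic_mono (hKle.trans (le_clI _)) hθ)⟩
  refine ⟨d.S'.K, d.X, z - θ₀.eval y, ⟨Est.fg_K d.S', Est.full_K h d.S', Est.trdeg_K d.S', e5, e7,
    ?_, ?_, ?_⟩, hTE, hTX⟩
  · exact BD.congr p hfl.bdy (D2P.fg_adj (Est.fg_K d.S') d.X) e8.symm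
  · intro h1
    exact tl_tr hTX (D2P.isAlgebraic_mono (le_clI _) h1)
  · have h1 : adj (adj C y) z = adj (adj C y) (z - θ₀.eval y) := by
      have h2 : ∀ x f : Ω, f ∈ adj C y → adj (adj C y) (x - f) ≤ adj (adj C y) x := fun x f hf =>
        adj_le (fun a ha => (mem_adj_self _ x).2 ha)
          (sub_mem (mem_adj_self _ x).1 ((mem_adj_self _ x).2 hf))
      refine le_antisymm ?_ (h2 z _ hf0)
      have h3 := h2 (z - θ₀.eval y) (-(θ₀.eval y)) (neg_mem hf0)
      rwa [sub_neg_eq_add, sub_add_cancel] at h3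
    rw [hfl.cl, h1, ← clI_adj_clI, ← hcl, clI_adj_clI]

/-- Infinitely many jumps over the bigger field. -/
theorem not_fj_swap [IsAlgClosed Ω] (h0 : Ctx0 k v) {E : IntermediateField k Ω}
    (hfull : Full v E) {X z : Ω} {s : ℝ} (hT : TL v E z s) (hX : Transcendental E X)
    (hz : Transcendental (adj E X) z) (hnf : ¬ FJ v E X) : ¬ FJ v (adj E z) X := fun hfj =>
  hnf (lemR h0 hfull (tl_tr hT) (fj_of_tl hT) (tr_swap hX hz) hfj
    (le_clI _ (mem_adj_self _ X).1) hX)

/-- **The exit of row J.** -/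
theorem star_false [IsAlgClosed Ω] [IsAlgClosed k] (p : ℕ) [hp : Fact p.Prime] [CharP k p]
    [CharP Ω p] {r D : ℕ} (h : Ctx k v r) (hcv : CompleteV v)
    (hLU : ∀ E : IntermediateField k Ω, E.FG → Full v E →
      Algebra.trdeg k E = (r + D : ℕ) → BD p v E → LU p v r E)
    (hLU' : ∀ E : IntermediateField k Ω, E.FG → Full v E →
      Algebra.trdeg k E = (r + (D + 1) : ℕ) → BD p v E → LU p v r E)
    (hDn : ∀ E : IntermediateField k Ω, E.FG → Full v E →
      Algebra.trdeg k E = (r + D : ℕ) → BD p v E → Dns v E)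
    {K₀ : IntermediateField k Ω} (hK₀ : K₀.FG)
    (htr₀ : Algebra.trdeg k K₀ = (r + (D + 1) + 1 : ℕ)) (hBD₀ : BD p v K₀) {a : Ω}
    (ha : a ∈ clI v K₀) {μ : ℝ} (hμ : ∀ g ∈ clI v K₀, ¬ v.Ge μ (a - g ^ p)) {q : ℕ} (hq : p ≤ q)
    (hmin : MinS p v r (D + 1) (clI v K₀) a q)
    (hoo : ∀ (C : IntermediateField k Ω) (y z : Ω) (s : ℝ), Flg p v (r + D) (clI v K₀) C y z →
      TL v (clI v (adj C y)) z s → ¬ FJ v C y)
    {C : IntermediateField k Ω} {y z : Ω} {s : ℝ} (hfl : Flg p v (r + D) (clI v K₀) C y z)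
    (hTL : TL v (clI v (adj C y)) z s) {m1 : ℕ}
    (hstar : ∀ ε : ℝ, 0 < ε → ∃ θ ∈ PI C, θ.natDegree < m1 ∧ v.Ge (s - ε) (z - θ.eval y)) :
    False := by
  obtain ⟨E, X, z', hfl', hTE, hTX⟩ := exists_flag_star p h hLU hfl hTL
    (hDn C hfl.fg hfl.full hfl.tr hfl.bd) (hoo C y z s hfl hTL) hstar
  have hnf := hoo E X z' s hfl' hTX
  have hnf' := not_fj_swap h.toCtx0 hfl'.full hTE hfl'.ty hfl'.tz hnf
  have hzE : Transcendental E z' := tl_tr hTE
  have hXz : Transcendental (adj E z') X := tr_swap hfl'.ty hfl'.tz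
  have hswap : adj (adj E z') X = adj (adj E X) z' := by
    have h1 := adj_adj_swap (E := E) (y := X) (z := z') (f := 0) (zero_mem _)
    rwa [sub_zero] at h1
  have hcl : clI v K₀ = clI v (adj (adj E z') X) := by rw [hswap]; exact hfl'.cl
  have hEle : E ≤ adj E z' := fun a ha => (mem_adj_self E z').2 ha
  have hdE : Dns v E := hDn E hfl'.fg hfl'.full hfl'.tr hfl'.bd
  have hd : Dns v (adj E z') := by
    intro a b hab
    obtain ⟨c, hc, hc'⟩ := hdE a b hab
    exact ⟨c, hEle hc, hc'⟩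
  have htr : Algebra.trdeg k (adj E z') = (r + (D + 1) : ℕ) := by
    rw [HRLU.trdeg_adj hzE, hfl'.tr]
    push_cast
    ring
  have htr2 : Algebra.trdeg k (adj (adj E z') X) = (r + (D + 1) + 1 : ℕ) := by
    rw [HRLU.trdeg_adj hXz, htr]
    push_cast
    ring
  have hfg : (adj E z').FG := D2P.fg_adj hfl'.fg z'
  have hfg2 : (adj (adj E z') X).FG := D2P.fg_adj hfg X
  have hbd2 : BD p v (adj (adj E z') X) := bd_of_cl p hcv hK₀ htr₀ hBD₀ hfg2 hcl.symm htr2
  have hbd : BD p v (adj E z') := BD.of_adj p hfg hXz hbd2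
  obtain ⟨F', z₂, ρ, κ, A, hst⟩ := exists_stt_small p h hcv hLU' hK₀ htr₀ hBD₀ ha hμ hfg
    (hfl'.full.mono hEle) hbd htr hd hXz hcl hnf'
  have h1 := hmin F' z₂ ρ κ (p - 1) A hst
  have h2 := hp.out.pos
  omega

/-- The polynomials over a field are dense in the polynomials over its closure. -/
theorem exists_PI_near {C : IntermediateField k Ω} {θ : Polynomial Ω} (hθ : θ ∈ PI (clI v C))
    (y : Ω) (N : ℝ) : ∃ θ' ∈ PI C, θ'.natDegree ≤ θ.natDegree ∧
      v.Ge N (θ.eval y - θ'.eval y) := by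
  classical
  have h1 : ∀ i : ℕ, ∃ c ∈ C, v.Ge (N - i * v y) (θ.coeff i - c) := fun i =>
    mem_clI.1 (hθ i) (N - i * v y)
  choose c hc hcv using h1
  refine ⟨∑ i ∈ Finset.range (θ.natDegree + 1), monomial i (c i), ?_, ?_, ?_⟩
  · refine sum_mem fun i _ n => ?_
    rw [coeff_monomial]
    split_ifs
    exacts [hc i, zero_mem _]
  · refine natDegree_sum_le_of_forall_le _ _ fun i hi => ?_
    have h2 := Finset.mem_range.1 hi
    exact (natDegree_monomial_le _).trans (by omega)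
  · rw [eval_eq_sum_range, eval_finsetSum, ← Finset.sum_sub_distrib]
    refine RVal.Ge.sum _ _ fun i _ => ?_
    rw [eval_monomial, ← sub_mul]
    have h2 : v.Ge (i * v y) (y ^ i) := by
      intro h0
      by_cases hy : y = 0
      · rcases Nat.eq_zero_or_pos i with rfl | hi
        · rw [pow_zero, v.map_one, Nat.cast_zero, zero_mul]
        · rw [hy, zero_pow hi.ne'] at h0
          exact absurd rfl h0
      · rw [v.map_pow hy]
    have h3 := RVal.Ge.mul (hcv i) h2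
    rwa [sub_add_cancel] at h3

/-- **The exit of row J**, with centres over the closure of `C`. -/
theorem star_false' [IsAlgClosed Ω] [IsAlgClosed k] (p : ℕ) [hp : Fact p.Prime] [CharP k p]
    [CharP Ω p] {r D : ℕ} (h : Ctx k v r) (hcv : CompleteV v)
    (hLU : ∀ E : IntermediateField k Ω, E.FG → Full v E →
      Algebra.trdeg k E = (r + D : ℕ) → BD p v E → LU p v r E)
    (hLU' : ∀ E : IntermediateField k Ω, E.FG → Full v E →
      Algebra.trdeg k E = (r + (D + 1) : ℕ) → BD p v E → LU p v r E)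
    (hDn : ∀ E : IntermediateField k Ω, E.FG → Full v E →
      Algebra.trdeg k E = (r + D : ℕ) → BD p v E → Dns v E)
    {K₀ : IntermediateField k Ω} (hK₀ : K₀.FG)
    (htr₀ : Algebra.trdeg k K₀ = (r + (D + 1) + 1 : ℕ)) (hBD₀ : BD p v K₀) {a : Ω}
    (ha : a ∈ clI v K₀) {μ : ℝ} (hμ : ∀ g ∈ clI v K₀, ¬ v.Ge μ (a - g ^ p)) {q : ℕ} (hq : p ≤ q)
    (hmin : MinS p v r (D + 1) (clI v K₀) a q)
    (hoo : ∀ (C : IntermediateField k Ω) (y z : Ω) (s : ℝ), Flg p v (r + D) (clI v K₀) C y z →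
      TL v (clI v (adj C y)) z s → ¬ FJ v C y)
    {C : IntermediateField k Ω} {y z : Ω} {s : ℝ} (hfl : Flg p v (r + D) (clI v K₀) C y z)
    (hTL : TL v (clI v (adj C y)) z s) {m1 : ℕ}
    (hstar : ∀ ε : ℝ, 0 < ε → ∃ θ ∈ PI (clI v C), θ.natDegree < m1 ∧
      v.Ge (s - ε) (z - θ.eval y)) : False := by
  refine star_false p h hcv hLU hLU' hDn hK₀ htr₀ hBD₀ ha hμ hq hmin hoo hfl hTL (m1 := m1)
    fun ε hε => ?_
  obtain ⟨θ, hθ, hd, h1⟩ := hstar ε hε
  obtain ⟨θ', hθ', hd', h2⟩ := exists_PI_near hθ y (s - ε)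
  refine ⟨θ', hθ', hd'.trans_lt hd, ?_⟩
  have h3 := h1.add h2
  rwa [sub_add_sub_cancel] at h3

end Pool.Agent.TWJ2
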