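import Pool.Agent.Lib.TWJ2.Ext4
import Pool.Agent.Lib.TWJ.SEC2

/-!
# TANK W: infinitely many jumps give henselian rationality

`K₀` finitely generated, `al ^ p ∈ K₀`. If the closure of `K₀` is the closure of `F(x)`, `F` finitely
generated of transcendence degree one less, and `x` has infinitely many jumps over `F`, then `K₀(al)`
is henselian rational. So if `K₀(al)` is not henselian rational, then in every presentation `(F, x)` of
the closure of `K₀` the element `x` has finitely many jumps over `F`.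
-/

set_option autoImplicit false

open Polynomial

namespace Pool.Agent.TWJ2

open Pool.Agent.H15JM (RVal)
open Pool.Agent.LU1 (adj)
open Pool.Agent.D2 (Ctx0)
open Pool.Agent.D2P (hen clI mem_clI mem_adj_self adj_le)
open Pool.Agent.TW
open Pool.Agent.TWM (PI SL CompleteV le_clI cld_clI)
open Pool.Agent.TWJ

universe u

variable {k Ω : Type u} [Field k] [Field Ω] [Algebra k Ω] {v : RVal Ω}

/-- **Infinitely many jumps give henselian rationality.** -/
theorem hrone_of_not_fj [IsAlgClosed Ω] [IsAlgClosed k] (p : ℕ) [hp : Fact p.Prime] [CharP k p]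
    [CharP Ω p] {r D : ℕ} (h : Ctx k v r) (hcv : CompleteV v)
    (hLU : ∀ E : IntermediateField k Ω, E.FG → Full v E →
      Algebra.trdeg k E = (r + D : ℕ) → BD p v E → LU p v r E)
    {K₀ : IntermediateField k Ω} (hK : K₀.FG) (hKf : Full v K₀)
    (htr : Algebra.trdeg k K₀ = (r + D + 1 : ℕ)) (hBD₀ : BD p v K₀) {al : Ω} (hal : al ^ p ∈ K₀)
    (hBD : BD p v (adj K₀ al)) {F : IntermediateField k Ω} (hF : F.FG) (hfull : Full v F)
    (htrF : Algebra.trdeg k F = (r + D : ℕ)) (hd : Dns v F)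
    (hDn : ∀ E : IntermediateField k Ω, E.FG → Full v E → Algebra.trdeg k E = (r + D : ℕ) →
      BD p v E → Dns v E)
    {x : Ω} (hx : Transcendental F x)
    (hcl : clI v K₀ = clI v (adj F x)) (hnf : ¬ FJ v F x) : HRone v (adj K₀ al) := by
  by_cases hmem : al ∈ clI v K₀
  · exact hrone_of_mem p h hcv hLU hK hKf htr hal hBD hmem hF hfull htrF hcl
  obtain ⟨μ, hμ⟩ := exists_far (cld_clI v K₀) hmem
  have htr2 : Algebra.trdeg k (adj F x) = (r + D + 1 : ℕ) := by
    rw [HRLU.trdeg_adj hx, htrF]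
    push_cast
    ring
  have hbd : BD p v F := BD.of_adj p hF hx
    (bd_of_cl p hcv hK htr hBD₀ (D2P.fg_adj hF x) hcl.symm htr2)
  obtain ⟨F', z, ρ, κ, A, hst⟩ := exists_stt_small p h hcv hLU hK htr hBD₀ (le_clI K₀ hal) hμ hF
    hfull hbd htrF hd hx hcl hnf
  have hp0 := hp.out.pos
  exact exit_small p h hcv hLU (exitZero_h p h hLU) (exitTame p h hLU) hK hKf htr hal hBD hst
    (hDn F' hst.fg hst.full hst.tr hst.bd) (by omega)

/-- **All presentations have finitely many jumps.** -/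
theorem fj_of_not_hrone [IsAlgClosed Ω] [IsAlgClosed k] (p : ℕ) [hp : Fact p.Prime] [CharP k p]
    [CharP Ω p] {r D : ℕ} (h : Ctx k v r) (hcv : CompleteV v)
    (hLU : ∀ E : IntermediateField k Ω, E.FG → Full v E →
      Algebra.trdeg k E = (r + D : ℕ) → BD p v E → LU p v r E)
    (hDn : ∀ E : IntermediateField k Ω, E.FG → Full v E → Algebra.trdeg k E = (r + D : ℕ) →
      BD p v E → Dns v E)
    {K₀ : IntermediateField k Ω} (hK : K₀.FG) (hKf : Full v K₀)
    (htr : Algebra.trdeg k K₀ = (r + D + 1 : ℕ)) (hBD₀ : BD p v K₀) {al : Ω} (hal : al ^ p ∈ K₀)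
    (hBD : BD p v (adj K₀ al)) (hno : ¬ HRone v (adj K₀ al)) {F : IntermediateField k Ω}
    (hF : F.FG) (hfull : Full v F) (htrF : Algebra.trdeg k F = (r + D : ℕ)) {x : Ω}
    (hx : Transcendental F x) (hcl : clI v K₀ = clI v (adj F x)) : FJ v F x := by
  by_contra hnf
  have htr2 : Algebra.trdeg k (adj F x) = (r + D + 1 : ℕ) := by
    rw [HRLU.trdeg_adj hx, htrF]
    push_cast
    ring
  have hbd : BD p v F := BD.of_adj p hF hx
    (bd_of_cl p hcv hK htr hBD₀ (D2P.fg_adj hF x) hcl.symm htr2)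
  exact hno (hrone_of_not_fj p h hcv hLU hK hKf htr hBD₀ hal hBD hF hfull htrF
    (hDn F hF hfull htrF hbd) hDn hx hcl hnf)

end Pool.Agent.TWJ2
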