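import Pool.Agent.Lib.TWJ2.FJ8a
import Pool.Agent.Lib.TWC.BaseCh

/-!
# TANK W, ROW J, finitely many jumps: the last floor is honest over another base

`F` f.g., full, with bounded distortion, `y` transcendental over `F`, `s` the distance of `y` to the
algebraic elements (finite), `FJ v F y`: approximants of bounded degree are cofinal. Then there are
`E` (a near copy of `F(η)`, `η` a centre of minimal degree nearer to `y` than all the jumps) and `X`
with `hen E(X) = hen F(y)`, and `X` is of transcendental type over `E`.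

* `lim_r`, `far_r`: `Q(y)` is of transcendental type over `E`, `Q` the minimal polynomial of `η`;
* `exists_centres`: the centres;
* `fj_honest`: the theorem.
-/

set_option autoImplicit false

open Polynomial

namespace Pool.Agent.TWJ2

open Pool.Agent.H15JM (RVal)
open Pool.Agent.LU1 (adj)
open Pool.Agent.D2 (Ctx0)
open Pool.Agent.D2P (hen clI mem_clI)
open Pool.Agent.TW
open Pool.Agent.TWJ (IsMin exists_min cen_of_min val_roots GN_of_roots dns_K hen_eq)
open Pool.Agent.TWM (ge_of_eps TL Lim)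

universe u

variable {k Ω : Type u} [Field k] [Field Ω] [Algebra k Ω] {v : RVal Ω}
  {F : IntermediateField k Ω} {y η : Ω} {ρ b₁ b ε : ℝ} {p : ℕ} {r D : ℕ}

/-- Differences of powers. -/
theorem ge_pow_sub_pow {x x' : Ω} {w δ : ℝ} (hx : v.Ge w x) (hx' : v.Ge w x')
    (h : v.Ge (w + δ) (x - x')) (j : ℕ) : v.Ge (j * w + δ) (x ^ j - x' ^ j) := by
  induction j with
  | zero =>
    rw [pow_zero, pow_zero, sub_self]
    exact RVal.Ge.zero
  | succ j ih =>
    have h1 : v.Ge (j * w) (x' ^ j) := by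
      clear ih
      induction j with
      | zero =>
        rw [pow_zero]
        exact RVal.Ge.of_le (by rw [v.map_one]; simp)
      | succ j ih =>
        rw [pow_succ]
        refine (ih.mul hx').mono (le_of_eq ?_)
        push_cast
        ring
    have e : x ^ (j + 1) - x' ^ (j + 1) = x * (x ^ j - x' ^ j) + (x - x') * x' ^ j := by ring
    rw [e]
    refine RVal.Ge.add ((hx.mul ih).mono (le_of_eq ?_)) ((h.mul h1).mono (le_of_eq ?_))
    · push_cast
      ring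
    · push_cast
      ring

theorem ge_pow' {x : Ω} {w : ℝ} (hx : v.Ge w x) (j : ℕ) : v.Ge (j * w) (x ^ j) := by
  induction j with
  | zero =>
    rw [pow_zero]
    exact RVal.Ge.of_le (by rw [v.map_one]; simp)
  | succ j ih =>
    rw [pow_succ]
    refine (ih.mul hx).mono (le_of_eq ?_)
    push_cast
    ring

/-- A bound for the roots. -/
theorem exists_root_bound {s : ℝ} (hs : ∀ ξ : Ω, IsAlgebraic F ξ → v (y - ξ) < s) {B : F[X]}
    (hB : B ≠ 0) : ∃ x < s, ∀ α : Ω, aeval α B = 0 → v (y - α) ≤ x := by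
  classical
  have h0 : (B.map (algebraMap F Ω)) ≠ 0 :=
    (Polynomial.map_ne_zero_iff (algebraMap F Ω).injective).mpr hB
  set R := (B.map (algebraMap F Ω)).roots.toFinset with hR
  have hmem : ∀ α : Ω, aeval α B = 0 → α ∈ R := by
    intro α hα
    rw [hR, Multiset.mem_toFinset, mem_roots h0, IsRoot.def, eval_map_algebraMap]
    exact hα
  by_cases hne : R.Nonempty
  · obtain ⟨α₀, hα₀, hmax⟩ := R.exists_max_image (fun α => v (y - α)) hne
    refine ⟨v (y - α₀), hs α₀ ?_, fun α hα => hmax α (hmem α hα)⟩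
    rw [hR, Multiset.mem_toFinset, mem_roots h0, IsRoot.def, eval_map_algebraMap] at hα₀
    exact ⟨B, hB, hα₀⟩
  · refine ⟨s - 1, by linarith, fun α hα => ?_⟩
    exact absurd ⟨α, hmem α hα⟩ hne

/-- The new polynomial is monic. -/
theorem monic_aux {Q A : F[X]} (hQ : Q.Monic) (hA : A.natDegree < Q.natDegree) {m : ℕ}
    (P : ℕ → F[X]) (hP : ∀ j, (P j).natDegree < Q.natDegree) :
    ((Q - A) ^ m + ∑ j ∈ Finset.range m, P j * (Q - A) ^ j).Monic ∧
      ((Q - A) ^ m + ∑ j ∈ Finset.range m, P j * (Q - A) ^ j).natDegree = m * Q.natDegree := by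
  have hn : 0 < Q.natDegree := by omega
  have hdeg : A.degree < Q.degree := by
    rw [degree_eq_natDegree hQ.ne_zero]
    exact (degree_le_natDegree).trans_lt (by exact_mod_cast hA)
  have h1 : (Q - A).Monic := hQ.sub_of_left hdeg
  have h2 : (Q - A).natDegree = Q.natDegree := natDegree_sub_eq_left_of_natDegree_lt hA
  have h3 : ((Q - A) ^ m).Monic := h1.pow m
  have h4 : ((Q - A) ^ m).natDegree = m * Q.natDegree := by
    rw [h1.natDegree_pow, h2]
  have h5 : (∑ j ∈ Finset.range m, P j * (Q - A) ^ j).degree < ((Q - A) ^ m).degree := by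
    rw [degree_eq_natDegree h3.ne_zero, h4]
    refine (degree_sum_le _ _).trans_lt ?_
    rw [Finset.sup_lt_iff (by exact_mod_cast WithBot.bot_lt_coe _)]
    intro j hj
    have hj' := Finset.mem_range.1 hj
    refine degree_le_natDegree.trans_lt ?_
    have h6 : (P j * (Q - A) ^ j).natDegree ≤ (P j).natDegree + j * Q.natDegree := by
      refine natDegree_mul_le.trans ?_
      rw [h1.natDegree_pow, h2]
    have h7 := hP j
    have h8 : (j + 1) * Q.natDegree ≤ m * Q.natDegree := Nat.mul_le_mul_right _ hj'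
    have h9 : (j + 1) * Q.natDegree = j * Q.natDegree + Q.natDegree := by ring
    exact_mod_cast (by omega : (P j * (Q - A) ^ j).natDegree < m * Q.natDegree)
  refine ⟨h3.add_of_left h5, ?_⟩
  rw [natDegree_add_eq_left_of_degree_lt h5, h4]

section

variable [Fact p.Prime] [CharP k p] [CharP Ω p] [IsAlgClosed Ω] [IsAlgClosed k]

/-- `Q(y)` is a limit of `E`. -/
theorem lim_r (h : Ctx k v r) (d : SD p k v r D F y η ρ b₁ b ε) (hmin : IsMin v F y η ρ) {W : ℝ}
    (hW2 : ∀ ε' : ℝ, 0 < ε' → ∃ b' c', GVal v F y ρ b' c' ∧ W - ε' < c')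
    (hκ : W ≤ v (aeval y (minpoly F η)) + (v (y - η) - b₁)) {ε' : ℝ} (hε' : 0 < ε') :
    ∃ a ∈ d.S'.K, v.Ge (W - ε') (aeval y (minpoly F η) - a) := by
  have hlt₁ := d.lt₁
  have hlt₂ := d.lt₂
  have hlt' := d.cen.lt'
  have hpε : (0 : ℝ) ≤ p * ε := mul_nonneg (Nat.cast_nonneg _) d.ε_nonneg
  have hκ0 : 0 < v (y - η) - b₁ := by linarith
  obtain ⟨b', c', hg, hc'⟩ := hW2 ε' hε'
  obtain ⟨η', h1, h2⟩ := hg.ex
  have hgv := hg.all η' h1 h2
  have hyη' : y ≠ η' := fun h3 => d.cen.tr (h3 ▸ h1.sep.isIntegral.isAlgebraic)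
  have h3 : v.Ge c' (aeval y (minpoly F η')) :=
    (TWJ.IsGV.lt hgv (minpoly.aeval F η') hyη' h2).mono (by linarith)
  have hn := min_deg_eq hmin h1
  have hint := hmin.sep.isIntegral
  have hint' := h1.sep.isIntegral
  have hpos : 0 < (minpoly F η).natDegree := minpoly.natDegree_pos hint
  have hψd : (minpoly F η - minpoly F η').natDegree < (minpoly F η).natDegree := by
    by_cases he : minpoly F η - minpoly F η' = 0
    · rw [he, natDegree_zero]
      exact hpos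
    · refine natDegree_lt_natDegree he (degree_sub_lt_left ?_ (minpoly.ne_zero hint) ?_)
      · rw [degree_eq_natDegree (minpoly.ne_zero hint'),
          degree_eq_natDegree (minpoly.ne_zero hint), hn]
      · rw [(minpoly.monic hint').leadingCoeff, (minpoly.monic hint).leadingCoeff]
  obtain ⟨a, ha, h4⟩ := to_K h d hψd
  refine ⟨a, ha, ?_⟩
  have h5 : v.Ge (min (v (aeval y (minpoly F η))) c')
      (aeval y (minpoly F η - minpoly F η')) := by
    rw [_root_.map_sub]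
    exact ((v.ge_self _).mono (min_le_left _ _)).sub (h3.mono (min_le_right _ _))
  have h6 := h4 _ h5
  have e : aeval y (minpoly F η) - a = aeval y (minpoly F η') +
      (aeval y (minpoly F η - minpoly F η') - a) := by
    rw [_root_.map_sub]
    ring
  rw [e]
  refine (h3.mono hc'.le).add (h6.mono ?_)
  rw [← min_add_add_right]
  refine le_min (by linarith) (by linarith)

/-- No algebraic element over `E` is nearer to `Q(y)`. -/
theorem far_r (h : Ctx k v r) (d : SD p k v r D F y η ρ b₁ b ε) (hmin : IsMin v F y η ρ)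
    (hd : Dns v F) {s W δ : ℝ} (hs : ∀ ξ : Ω, IsAlgebraic F ξ → v (y - ξ) < s)
    (hex : ∀ x < s, ∃ b' c', x < b' ∧ GVal v F y ρ b' c')
    (hW1 : ∀ b' c', GVal v F y ρ b' c' → c' < W)
    (hW2 : ∀ ε' : ℝ, 0 < ε' → ∃ b' c', GVal v F y ρ b' c' ∧ W - ε' < c') (hδ : 0 < δ)
    (hκ : W + δ ≤ v (aeval y (minpoly F η)) + (v (y - η) - b₁)) {θ : Ω}
    (hθ : IsAlgebraic d.S'.K θ) : v (aeval y (minpoly F η) - θ) < W := by
  classical
  by_contra hcon
  push Not at hcon
  have hlt₁ := d.lt₁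
  have hlt₂ := d.lt₂
  have hlt' := d.cen.lt'
  have hpε : (0 : ℝ) ≤ p * ε := mul_nonneg (Nat.cast_nonneg _) d.ε_nonneg
  set κ := v (y - η) - b₁ with hκdef
  have hκ0 : 0 < κ := by rw [hκdef]; linarith
  have hy := d.cen.tr
  have hint := hmin.sep.isIntegral
  have hQm := minpoly.monic hint
  set Q := minpoly F η with hQ
  have hQ0 : aeval y Q ≠ 0 := fun h1 => hy ⟨Q, hQm.ne_zero, h1⟩
  -- the value of `Q(y)` is `< W`
  have hrW : v (aeval y Q) < W := by
    obtain ⟨x, hx, hxr⟩ := exists_root_bound (v := v) hs hQm.ne_zero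
    obtain ⟨b', c', hb', hg⟩ := hex x hx
    have h1 := hg.le_of_monic h.toCtx0 hy hmin hQm (m := 1) (by rw [one_mul])
      fun α hα => (hxr α hα).trans_lt hb'
    have h2 := hW1 b' c' hg
    push_cast at h1
    linarith
  -- `Q(y)` is transcendental over `E`
  have hXtr := d.e8_X_tr h
  have hrtr : Transcendental d.S'.K (aeval y Q) := by
    intro h1
    refine hXtr ?_
    have h2 : IsAlgebraic d.S'.K (d.q)⁻¹ :=
      isAlgebraic_algebraMap (⟨(d.q)⁻¹, inv_mem d.q_mem⟩ : d.S'.K)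
    have h3 := h1.mul h2
    rwa [← div_eq_mul_inv] at h3
  have hfullE : Full v d.S'.K := Est.full_K h d.S'
  have hdE : Dns v d.S'.K := dns_K h hd d
  obtain ⟨θ', hθ', hθ'v⟩ := exists_closer h.toCtx0 hfullE hrtr hθ
  obtain ⟨η₁, hη₁⟩ := exists_min hdE hrtr hθ' (ρ := W) (hcon.trans_lt hθ'v)
  have hint₁ := hη₁.sep.isIntegral
  have hBm := minpoly.monic hint₁
  set B := minpoly d.S'.K η₁ with hB
  set m := B.natDegree with hm
  have hm0 : 0 < m := minpoly.natDegree_pos hint₁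
  have hmR : (1 : ℝ) ≤ m := by exact_mod_cast hm0
  have hm0' : (0 : ℝ) < m := by linarith
  -- the precision
  set ε₀ := min (W - v (aeval y Q)) (min (δ / m) (κ / m)) with hε₀
  have hε₀0 : 0 < ε₀ := lt_min (by linarith) (lt_min (by positivity) (by positivity))
  have hε₀1 : ε₀ ≤ W - v (aeval y Q) := min_le_left _ _
  have hε₀2 : m * ε₀ ≤ δ := by
    have h1 : ε₀ ≤ δ / m := (min_le_right _ _).trans (min_le_left _ _)
    rw [le_div_iff₀ hm0'] at h1
    linarith
  have hε₀3 : m * ε₀ ≤ κ := by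
    have h1 : ε₀ ≤ κ / m := (min_le_right _ _).trans (min_le_right _ _)
    rw [le_div_iff₀ hm0'] at h1
    linarith
  obtain ⟨a, ha, har⟩ := lim_r h d hmin hW2 (by linarith) hε₀0
  rw [← hQ] at har
  -- the roots of `B`
  have hη₁r : v.Ge W (aeval y Q - η₁) := RVal.Ge.of_le hη₁.lt.le
  have hroot : ∀ (β : Ω), aeval β B = 0 → ∀ (ε' : ℝ) (a' : Ω), a' ∈ d.S'.K → 0 < ε' →
      v.Ge (W - ε') (aeval y Q - a') → v.Ge (W - ε') (β - a') := by
    intro β hβ ε' a' ha' hε' har'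
    have h1 : v.Ge (W - ε') (η₁ - a') := by
      have h2 := har'.sub (hη₁r.mono (by linarith : W - ε' ≤ W))
      rwa [show aeval y Q - a' - (aeval y Q - η₁) = η₁ - a' by ring] at h2
    by_cases h2 : η₁ - a' = 0
    · have h3 : η₁ = a' := sub_eq_zero.1 h2
      have h4 : aeval β B = β - a' := by
        rw [hB, h3]
        have h5 : a' = algebraMap d.S'.K Ω ⟨a', ha'⟩ := rfl
        conv_lhs => rw [h5, minpoly.eq_X_sub_C]
        rw [_root_.map_sub, aeval_X, aeval_C]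
        rfl
      rw [hβ] at h4
      rw [← h4]
      exact RVal.Ge.zero
    · intro _
      rw [val_roots h.toCtx0 hrtr hη₁ hβ ha']
      exact h1 h2
  have hBr : v.Ge (m * W) (aeval (aeval y Q) B) := by
    have h1 := GN_of_roots (v := v) hBm (θ := aeval y Q) (c := W) (by
      intro β hβ
      refine ge_of_eps fun ε' hε' => ?_
      obtain ⟨a', ha', har'⟩ := lim_r h d hmin hW2 (by linarith) hε'
      have h2 := (hroot β hβ ε' a' ha' hε' har').sub har'
      rwa [sub_sub_sub_cancel_right] at h2) 0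
    rw [TW.tc_zero, Nat.cast_zero, zero_mul, sub_zero] at h1
    exact h1
  have hBa := GN_of_roots (v := v) hBm (θ := a) (c := W - ε₀) (fun β hβ =>
    hroot β hβ ε₀ a ha hε₀0 har)
  -- the coefficients at `a`
  have hadj : adj d.S'.K a ≤ d.S'.K := D2P.adj_le le_rfl ha
  have hcoe : ∀ j, tc d.S'.K a B j ∈ d.S'.K := fun j => hadj (E4.tc_mem B j)
  choose P hPd hP using fun j => of_K h d (hcoe j)
  obtain ⟨A, hAd, hA⟩ := of_K h d ha
  rw [← hQ] at hAd
  have htop : tc d.S'.K a B m = 1 := by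
    have hdeg : (taylor a (B.map (algebraMap d.S'.K Ω))).natDegree = m := by
      rw [natDegree_taylor, hBm.natDegree_map]
    rw [tc, ← hdeg, natDegree_taylor, coeff_taylor_natDegree]
    exact hBm.map _
  -- the values
  set x := aeval y Q - aeval y A with hx
  set x' := aeval y Q - a with hx'
  set w := W - ε₀ with hw
  have hav : v.Ge (v (aeval y Q)) a := by
    have h1 := (v.ge_self (aeval y Q)).sub (har.mono (by linarith : v (aeval y Q) ≤ W - ε₀))
    rwa [sub_sub_cancel] at h1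
  have hxx : v.Ge (w + (ε₀ + δ)) (x - x') := by
    have h1 := (hA _ hav).mono (by linarith : w + (ε₀ + δ) ≤ v (aeval y Q) + κ)
    rwa [show x - x' = a - aeval y A by rw [hx, hx']; ring]
  have hx'w : v.Ge w x' := har
  have hxw : v.Ge w x := by
    have h1 := (hxx.mono (by linarith : w ≤ w + (ε₀ + δ))).add hx'w
    rwa [sub_add_cancel] at h1
  obtain ⟨hmon, hdeg⟩ := monic_aux hQm hAd (m := m) P (fun j => hPd j)
  set Bt := (Q - A) ^ m + ∑ j ∈ Finset.range m, P j * (Q - A) ^ j with hBt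
  have hval : v.Ge (m * W) (aeval y Bt) := by
    have e1 : aeval y Bt = x ^ m + ∑ j ∈ Finset.range m, aeval y (P j) * x ^ j := by
      rw [hBt, _root_.map_add, map_sum, _root_.map_pow, _root_.map_sub]
      congr 1
      refine Finset.sum_congr rfl fun j _ => ?_
      rw [_root_.map_mul, _root_.map_pow, _root_.map_sub]
    have e2 : aeval (aeval y Q) B = x' ^ m + ∑ j ∈ Finset.range m, tc d.S'.K a B j * x' ^ j := by
      rw [TW.aeval_eq_tc (η := a) B (aeval y Q), Finset.sum_range_succ, ← hm, htop, one_mul,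
        add_comm]
    have e3 : aeval y Bt = aeval (aeval y Q) B + ((x ^ m - x' ^ m) +
        ∑ j ∈ Finset.range m, (tc d.S'.K a B j * (x ^ j - x' ^ j) -
          (tc d.S'.K a B j - aeval y (P j)) * x ^ j)) := by
      rw [e1, e2, Finset.sum_sub_distrib]
      simp only [mul_sub, sub_mul, Finset.sum_sub_distrib]
      ring
    rw [e3]
    have hmw : (m : ℝ) * w = m * W - m * ε₀ := by rw [hw]; ring
    refine hBr.add (RVal.Ge.add ?_ (RVal.Ge.sum _ _ fun j hj => RVal.Ge.sub ?_ ?_))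
    · exact (ge_pow_sub_pow hxw hx'w hxx m).mono (by linarith)
    · refine ((hBa j).mul (ge_pow_sub_pow hxw hx'w hxx j)).mono ?_
      linarith
    · refine ((hP j _ (hBa j)).mul (ge_pow' hxw j)).mono ?_
      linarith
  -- the contradiction
  obtain ⟨x₀, hx₀, hx₀r⟩ := exists_root_bound (v := v) hs hmon.ne_zero
  obtain ⟨b', c', hb', hg⟩ := hex x₀ hx₀
  have h1 := hg.le_of_monic h.toCtx0 hy hmin hmon (m := m) hdeg
    fun α hα => (hx₀r α hα).trans_lt hb'
  have h2 := hW1 b' c' hg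
  have h3 := hval fun h4 => hy ⟨Bt, hmon.ne_zero, h4⟩
  have h4 : (m : ℝ) * c' < m * W := mul_lt_mul_of_pos_left h2 hm0'
  linarith

end

/-! ### The centres -/

theorem exists_centres [IsAlgClosed Ω] (hd : Dns v F) (hy : Transcendental F y) {s : ℝ}
    (hs' : ∀ x < s, ∃ ξ : Ω, IsAlgebraic F ξ ∧ x < v (y - ξ)) {d₀ : ℕ}
    (hFJ : ∀ ξ : Ω, IsAlgebraic F ξ → ∃ η : Ω, IsAlgebraic F η ∧
      (minpoly F η).natDegree ≤ d₀ ∧ v (y - ξ) < v (y - η)) :
    ∃ ρ < s, ∀ x < s, ∃ η : Ω, IsMin v F y η ρ ∧ x < v (y - η) := by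
  classical
  have key : ∀ x < s, ∃ η : Ω, IsMin v F y η x ∧ (minpoly F η).natDegree ≤ d₀ := by
    intro x hx
    obtain ⟨ξ, hξ, h1⟩ := hs' x hx
    obtain ⟨η, hη⟩ := exists_min hd hy hξ h1
    obtain ⟨η₀, h2, h3, h4⟩ := hFJ ξ hξ
    exact ⟨η, hη, (hη.min η₀ h2 (h1.trans h4)).trans h3⟩
  have hne : ∃ i : ℕ, ∃ x < s, ∃ η : Ω, IsMin v F y η x ∧ (minpoly F η).natDegree ≤ d₀ ∧
      d₀ - (minpoly F η).natDegree = i := by
    obtain ⟨η, h1, h2⟩ := key (s - 1) (by linarith)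
    exact ⟨_, s - 1, by linarith, η, h1, h2, rfl⟩
  obtain ⟨ρ, hρ, η₀, h1, h2, h3⟩ := Nat.find_spec hne
  refine ⟨ρ, hρ, fun x hx => ?_⟩
  obtain ⟨η, h4, h5⟩ := key (max x ρ) (max_lt hx hρ)
  have h6 := Nat.find_min' hne ⟨max x ρ, max_lt hx hρ, η, h4, h5, rfl⟩
  have h7 : (minpoly F η).natDegree ≤ (minpoly F η₀).natDegree := by omega
  have h8 := h4.lt
  exact ⟨η, ⟨h4.sep, (le_max_right x ρ).trans_lt h8, fun α hα hαv =>
    h7.trans (h1.min α hα hαv)⟩, (le_max_left x ρ).trans_lt h8⟩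

/-- **Finitely many jumps: the floor is honest over another base.** -/
theorem fj_honest [IsAlgClosed k] [IsAlgClosed Ω] (p : ℕ) [Fact p.Prime] [CharP k p] [CharP Ω p]
    {r D : ℕ} (h : Ctx k v r) (hF : F.FG) (hfull : Full v F) (hBD : BD p v F)
    (htr : Algebra.trdeg k F = (r + D : ℕ))
    (hLU : ∀ E : IntermediateField k Ω, E.FG → Full v E →
      Algebra.trdeg k E = (r + D : ℕ) → BD p v E → LU p v r E)
    (hd : Dns v F) (hy : Transcendental F y) {M : ℝ}
    (hM : ∀ ξ : Ω, IsAlgebraic F ξ → v (y - ξ) ≤ M) (hFJ : FJ v F y) :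
    ∃ (R : Fr k v r D) (X : Ω) (σ : ℝ), BD p v R.K ∧ Dns v R.K ∧ Transcendental R.K X ∧
      hen v (adj R.K X) = hen v (adj F y) ∧ TL v R.K X σ := by
  classical
  obtain ⟨d₀, hFJ⟩ := hFJ
  -- the distance
  have hne : {x : ℝ | ∃ ξ : Ω, IsAlgebraic F ξ ∧ x = v (y - ξ)}.Nonempty :=
    ⟨_, 0, isAlgebraic_zero, rfl⟩
  have hbd : BddAbove {x : ℝ | ∃ ξ : Ω, IsAlgebraic F ξ ∧ x = v (y - ξ)} := by
    refine ⟨M, ?_⟩
    rintro _ ⟨ξ, hξ, rfl⟩
    exact hM ξ hξ
  set s := sSup {x : ℝ | ∃ ξ : Ω, IsAlgebraic F ξ ∧ x = v (y - ξ)} with hsdef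
  have hs : ∀ ξ : Ω, IsAlgebraic F ξ → v (y - ξ) < s := by
    intro ξ hξ
    obtain ⟨ξ', hξ', h1⟩ := exists_closer h.toCtx0 hfull hy hξ
    exact h1.trans_le (le_csSup hbd ⟨ξ', hξ', rfl⟩)
  have hs' : ∀ x < s, ∃ ξ : Ω, IsAlgebraic F ξ ∧ x < v (y - ξ) := by
    intro x hx
    obtain ⟨_, ⟨ξ, hξ, rfl⟩, h1⟩ := exists_lt_of_lt_csSup hne hx
    exact ⟨ξ, hξ, h1⟩
  obtain ⟨ρ, hρ, hcen⟩ := exists_centres hd hy hs' hFJ
  set g := s - ρ with hg
  have hg0 : 0 < g := sub_pos.2 hρ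
  have hex : ∀ x < s, ∃ b' c', x < b' ∧ GVal v F y ρ b' c' := by
    intro x hx
    obtain ⟨π, hπ, hπ0, h1, h2⟩ := hd (max x ρ) s (max_lt hx hρ)
    obtain ⟨η, h3, h4⟩ := hcen (v π) h2
    obtain ⟨c, hc⟩ := exists_gval h.toCtx0 hy h3 hπ hπ0 ((le_max_right _ _).trans_lt h1) h4
    exact ⟨v π, c, (le_max_left _ _).trans_lt h1, hc⟩
  obtain ⟨η₀, hη₀, -⟩ := hcen ρ hρ
  set n := (minpoly F η₀).natDegree with hn
  have hn1 : (1 : ℝ) ≤ n := by
    exact_mod_cast (minpoly.natDegree_pos hη₀.sep.isIntegral : 0 < (minpoly F η₀).natDegree)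
  have hn0 : (0 : ℝ) < n := by linarith
  have hlts : ∀ b' c', GVal v F y ρ b' c' → b' < s := by
    intro b' c' hgv
    obtain ⟨η, h1, h2⟩ := hgv.ex
    exact h2.trans (hs η h1.sep.isIntegral.isAlgebraic)
  -- all the Gauss values are bounded in terms of one of them
  have hbound : ∀ b' c', GVal v F y ρ b' c' → ∀ b'' c'', GVal v F y ρ b'' c'' →
      c'' ≤ c' + n * (s - b') := by
    intro b' c' hg' b'' c'' hg''
    have h0 := hlts _ _ hg'
    have h0' := hlts _ _ hg''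
    rcases le_total b' b'' with h1 | h1
    · have h2 := (hg'.slope hg'' h1 hη₀).2
      have h3 : (n : ℝ) * (b'' - b') ≤ n * (s - b') :=
        mul_le_mul_of_nonneg_left (by linarith) hn0.le
      linarith
    · have h2 := (hg''.slope hg' h1 hη₀).1
      have h3 : (0 : ℝ) ≤ n * (s - b') := mul_nonneg hn0.le (by linarith)
      linarith
  obtain ⟨b₀, c₀, hb₀, hgv₀⟩ := hex ρ hρ
  have hWne : {c : ℝ | ∃ b', GVal v F y ρ b' c}.Nonempty := ⟨c₀, b₀, hgv₀⟩
  have hWbd : BddAbove {c : ℝ | ∃ b', GVal v F y ρ b' c} := by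
    refine ⟨c₀ + n * (s - b₀), ?_⟩
    rintro c ⟨b', hb'⟩
    exact hbound _ _ hgv₀ _ _ hb'
  set W := sSup {c : ℝ | ∃ b', GVal v F y ρ b' c} with hW
  have hW1 : ∀ b' c', GVal v F y ρ b' c' → c' < W := by
    intro b' c' hg'
    obtain ⟨b'', c'', h1, h2⟩ := hex b' (hlts _ _ hg')
    have h3 := (hg'.slope h2 h1.le hη₀).1
    have h4 : c'' ≤ W := le_csSup hWbd ⟨b'', h2⟩
    linarith
  have hW2 : ∀ ε' : ℝ, 0 < ε' → ∃ b' c', GVal v F y ρ b' c' ∧ W - ε' < c' := by
    intro ε' hε'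
    obtain ⟨c, ⟨b', hb'⟩, h1⟩ := exists_lt_of_lt_csSup hWne (by linarith : W - ε' < W)
    exact ⟨b', c, hb', h1⟩
  have hW3 : ∀ b' c', GVal v F y ρ b' c' → W ≤ c' + n * (s - b') := by
    intro b' c' hg'
    refine csSup_le hWne ?_
    rintro c ⟨b'', hb''⟩
    exact hbound _ _ hg' _ _ hb''
  -- the centre
  obtain ⟨π, hπ, hπ0, hπ1, hπ2⟩ := hd ρ (ρ + g / 4) (by linarith)
  have hx₀ : max (ρ + 3 * g / 4) (s - g / (8 * n)) < s := by
    refine max_lt (by rw [hg]; linarith) ?_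
    have : 0 < g / (8 * n) := by positivity
    linarith
  obtain ⟨η, hmin, hη⟩ := hcen _ hx₀
  have hη1 : ρ + 3 * g / 4 < v (y - η) := (le_max_left _ _).trans_lt hη
  obtain ⟨b₁, ε, ⟨d⟩⟩ := exists_SD p h hF hfull hBD htr hLU hd
    (cen_of_min hy hmin hπ hπ0 hπ1 (by linarith))
  have hlt₂ := d.lt₂
  have hκ1 : g / 2 < v (y - η) - b₁ := by linarith
  -- the value of `Q(y)`
  obtain ⟨π₂, hπ₂, hπ₂0, h1, h2⟩ := hd _ _ hη
  obtain ⟨c₂, hc₂⟩ := exists_gval h.toCtx0 hy hmin hπ₂ hπ₂0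
    (lt_of_lt_of_le (by linarith) ((le_max_left _ _).trans h1.le)) h2
  have hyη : y ≠ η := fun h3 => hy (h3 ▸ hmin.sep.isIntegral.isAlgebraic)
  have hQ0 : aeval y (minpoly F η) ≠ 0 := fun h3 =>
    hy ⟨_, minpoly.ne_zero hmin.sep.isIntegral, h3⟩
  have hQc : c₂ ≤ v (aeval y (minpoly F η)) := by
    have h3 := TWJ.IsGV.lt (hc₂.all η hmin h2) (minpoly.aeval F η) hyη h2 hQ0
    linarith
  have hWc := hW3 _ _ hc₂
  have hns : (n : ℝ) * (s - v π₂) ≤ g / 8 := by
    have h3 : s - v π₂ ≤ g / (8 * n) := by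
      have := (le_max_right (ρ + 3 * g / 4) (s - g / (8 * n))).trans h1.le
      linarith
    calc (n : ℝ) * (s - v π₂) ≤ n * (g / (8 * n)) := mul_le_mul_of_nonneg_left h3 hn0.le
      _ = g / 8 := by field_simp
  have hκ : W + g / 4 ≤ v (aeval y (minpoly F η)) + (v (y - η) - b₁) := by linarith
  have hXp := d.X_pos h
  have hXtr := d.e8_X_tr h
  refine ⟨d.S', d.X, W - v d.q, ⟨_, _, d.pb', _, d.orth'⟩, dns_K h hd d, hXtr,
    hen_eq h d hXp.2 (d.frac h), fun ε' hε' => ?_, fun θ hθ => ?_⟩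
  · obtain ⟨a, ha, h3⟩ := lim_r h d hmin hW2 (by linarith) hε'
    refine ⟨a / d.q, div_mem ha d.q_mem, ?_⟩
    have h4 : v.Ge (-v d.q) (d.q)⁻¹ := RVal.Ge.of_le (by rw [v.map_inv d.q_ne])
    have h5 := h3.mul h4
    have e : d.X - a / d.q = (aeval y (minpoly F η) - a) * (d.q)⁻¹ := by
      rw [SD.X, ← sub_div, div_eq_mul_inv]
    rw [e]
    exact h5.mono (by linarith)
  · have hne : d.X ≠ θ := fun h3 => hXtr (h3 ▸ hθ)
    refine ⟨hne, ?_⟩
    have h3 : IsAlgebraic d.S'.K (d.q * θ) :=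
      (isAlgebraic_algebraMap (⟨d.q, d.q_mem⟩ : d.S'.K)).mul hθ
    have h4 := far_r h d hmin hd hs hex hW1 hW2 (by linarith : (0 : ℝ) < g / 4) hκ h3
    have e : aeval y (minpoly F η) - d.q * θ = d.q * (d.X - θ) := by
      rw [SD.X, mul_sub, mul_div_cancel₀ _ d.q_ne]
    rw [e, v.map_mul d.q_ne (sub_ne_zero.2 hne)] at h4
    linarith

end Pool.Agent.TWJ2
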