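import Pool.Agent.Lib.TW_NFG.J6b
import Pool.Agent.Lib.TWJ2.Defs

/-!
# TANK W, ROW J, finitely many jumps: Gauss values of the key polynomials

`y` transcendental over `F`, `IsMin v F y η ρ`: `η` is a centre of minimal degree `n` (the degree is
the same at all the radii `> ρ` considered).

* `GVal v F y ρ b c`: `c` is the Gauss value, at the radius `b`, of the minimal polynomials of the
  centres nearer than `b`;
* `GVal.slope`: `c` increases with slope between `1` and `n`;
* `GVal.le_of_monic`: the value at `y` of a monic polynomial of degree `m n` is `≤ m c`;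
* `to_K`, `of_K`: the near copy of `F(η)`.
-/

set_option autoImplicit false

open Polynomial

namespace Pool.Agent.TWJ2

open Pool.Agent.H15JM (RVal)
open Pool.Agent.LU1 (adj)
open Pool.Agent.D2 (Ctx0)
open Pool.Agent.D2P (hen clI)
open Pool.Agent.LUC (Cl)
open Pool.Agent.TW
open Pool.Agent.TWJ (IsMin exists_min cen_of_min)

universe u

variable {k Ω : Type u} [Field k] [Field Ω] [Algebra k Ω] {v : RVal Ω}
  {F : IntermediateField k Ω} {y η η' : Ω} {ρ : ℝ}

/-- The minimal degree. -/
theorem min_deg_eq (h : IsMin v F y η ρ) (h' : IsMin v F y η' ρ) :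
    (minpoly F η).natDegree = (minpoly F η').natDegree :=
  le_antisymm (h.min η' h'.sep.isIntegral.isAlgebraic h'.lt)
    (h'.min η h.sep.isIntegral.isAlgebraic h.lt)

/-- The Gauss value does not depend on the centre. -/
theorem gv_le [IsAlgClosed Ω] (h0 : Ctx0 k v) (hy : Transcendental F y) (h : IsMin v F y η ρ)
    (h' : IsMin v F y η' ρ) {π : Ω} (hπ : π ∈ F) (hπ0 : π ≠ 0) (h1 : ρ < v π)
    (hb : v π < v (y - η)) (hb' : v π < v (y - η')) {c c' : ℝ}
    (hg : IsGV v F η (v π) c (minpoly F η)) (hg' : IsGV v F η' (v π) c' (minpoly F η')) :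
    c' ≤ c := by
  have hint := h.sep.isIntegral
  have hint' := h'.sep.isIntegral
  have hd := min_deg_eq h h'
  have hpos : 0 < (minpoly F η).natDegree := minpoly.natDegree_pos hint
  have hcen := cen_of_min hy h hπ hπ0 h1 hb
  have hGN : GN v F η (v π) c' (minpoly F η') := by
    refine TWJ.GN.centre ?_ hg'.1
    have h2 : v.Ge (v π) (y - η') := RVal.Ge.of_le hb'.le
    have h3 : v.Ge (v π) (y - η) := RVal.Ge.of_le hb.le
    have h4 := h2.sub h3
    rwa [show y - η' - (y - η) = η - η' by ring] at h4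
  have h5 := key_poly h0 hcen hg (m := 2) ![minpoly F η' - minpoly F η, 1] (by
    intro i
    fin_cases i
    · change (minpoly F η' - minpoly F η).natDegree < _
      by_cases he : minpoly F η' - minpoly F η = 0
      · rw [he, natDegree_zero]
        exact hpos
      · have h6 : (minpoly F η' - minpoly F η).degree < (minpoly F η').degree := by
          refine degree_sub_lt_left ?_ (minpoly.ne_zero hint') ?_
          · rw [degree_eq_natDegree (minpoly.ne_zero hint'),
              degree_eq_natDegree (minpoly.ne_zero hint), hd]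
          · rw [(minpoly.monic hint').leadingCoeff, (minpoly.monic hint).leadingCoeff]
        rw [hd]
        exact natDegree_lt_natDegree he h6
    · change (1 : F[X]).natDegree < _
      rw [natDegree_one]
      exact hpos) (c := c') (by
    rw [Fin.sum_univ_two]
    simpa using hGN) 1 (by
    change (1 : F[X]) ≠ 0
    exact one_ne_zero)
  simpa [v.map_one] using h5

/-- `c` is the Gauss value of the key polynomials at the radius `b`, a value of `F`. -/
structure GVal (v : RVal Ω) (F : IntermediateField k Ω) (y : Ω) (ρ b c : ℝ) : Prop where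
  lt : ρ < b
  val : ∃ π ∈ F, π ≠ 0 ∧ v π = b
  ex : ∃ η : Ω, IsMin v F y η ρ ∧ b < v (y - η)
  all : ∀ η : Ω, IsMin v F y η ρ → b < v (y - η) → IsGV v F η b c (minpoly F η)

theorem exists_gval [IsAlgClosed Ω] (h0 : Ctx0 k v) (hy : Transcendental F y)
    (h : IsMin v F y η ρ) {π : Ω} (hπ : π ∈ F) (hπ0 : π ≠ 0) (h1 : ρ < v π)
    (hb : v π < v (y - η)) : ∃ c, GVal v F y ρ (v π) c := by
  obtain ⟨c₀, -, -, hc⟩ := E4.exists_isGV h.sep ((D2P.mem_adj_self F η).2 hπ) hπ0 rfl
  refine ⟨v c₀, h1, ⟨π, hπ, hπ0, rfl⟩, ⟨η, h, hb⟩, fun η' h' hb' => ?_⟩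
  obtain ⟨c₁, -, -, hc'⟩ := E4.exists_isGV h'.sep ((D2P.mem_adj_self F η').2 hπ) hπ0 rfl
  have e : v c₁ = v c₀ := le_antisymm (gv_le h0 hy h h' hπ hπ0 h1 hb hb' hc hc')
    (gv_le h0 hy h' h hπ hπ0 h1 hb' hb hc' hc)
  rwa [← e]

/-- The slopes of the Gauss value. -/
theorem GVal.slope {b b' c c' : ℝ} (h : GVal v F y ρ b c) (h' : GVal v F y ρ b' c')
    (hb : b ≤ b') (hη : IsMin v F y η ρ) :
    c + (b' - b) ≤ c' ∧ c' ≤ c + (minpoly F η).natDegree * (b' - b) := by
  obtain ⟨η₁, h1, h2⟩ := h'.ex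
  have hg' := h'.all η₁ h1 h2
  have hg := h.all η₁ h1 (hb.trans_lt h2)
  rw [min_deg_eq hη h1]
  constructor
  · obtain ⟨j, hj, hj0, hjv⟩ := hg'.2
    have h3 := hg.1 j hj0
    have h4 : (1 : ℝ) * (b' - b) ≤ j * (b' - b) :=
      mul_le_mul_of_nonneg_right (by exact_mod_cast hj) (by linarith)
    have h5 : (j : ℝ) * (b' - b) = j * b' - j * b := by ring
    linarith
  · obtain ⟨j, hj, hj0, hjv⟩ := hg.2
    have h3 := hg'.1 j hj0
    have hjn : j ≤ (minpoly F η₁).natDegree := by
      by_contra hcon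
      exact hj0 (TW.tc_eq_zero (by omega))
    have h4 : (j : ℝ) * (b' - b) ≤ (minpoly F η₁).natDegree * (b' - b) :=
      mul_le_mul_of_nonneg_right (by exact_mod_cast hjn) (by linarith)
    have h5 : (j : ℝ) * (b' - b) = j * b' - j * b := by ring
    linarith

/-- The expansion of a monic polynomial. -/
theorem exists_expansion_monic {Q : F[X]} (hQ : Q.Monic) (hd : 0 < Q.natDegree) (m : ℕ) :
    ∀ B : F[X], B.Monic → B.natDegree = m * Q.natDegree → ∃ a : Fin (m + 1) → F[X],
      (∀ i, (a i).natDegree < Q.natDegree) ∧ a (Fin.last m) = 1 ∧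
        B = ∑ i, a i * Q ^ (i : ℕ) := by
  induction m with
  | zero =>
    intro B hB hn
    rw [zero_mul] at hn
    have h1 : B = 1 := eq_one_of_monic_natDegree_zero hB hn
    refine ⟨fun _ => 1, fun _ => by rw [natDegree_one]; exact hd, rfl, ?_⟩
    rw [h1]
    simp
  | succ m ih =>
    intro B hB hn
    have hle : Q.natDegree ≤ B.natDegree := by
      rw [hn]
      nlinarith
    have hdeg : Q.degree ≤ B.degree := by
      rw [degree_eq_natDegree hQ.ne_zero, degree_eq_natDegree hB.ne_zero]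
      exact_mod_cast hle
    have h1 : (B /ₘ Q).Monic := by
      rw [Monic, leadingCoeff_divByMonic_of_monic hQ hdeg]
      exact hB
    have h2 : (B /ₘ Q).natDegree = m * Q.natDegree := by
      rw [natDegree_divByMonic B hQ, hn, Nat.succ_mul, Nat.add_sub_cancel]
    obtain ⟨a, ha, hal, hB'⟩ := ih _ h1 h2
    refine ⟨Fin.cons (B %ₘ Q) a, ?_, ?_, ?_⟩
    · intro i
      refine Fin.cases ?_ (fun i => ?_) i
      · rw [Fin.cons_zero]
        exact natDegree_modByMonic_lt B hQ (fun h => by rw [h] at hd; simp at hd)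
      · rw [Fin.cons_succ]
        exact ha i
    · rw [← Fin.succ_last, Fin.cons_succ]
      exact hal
    · rw [Fin.sum_univ_succ, Fin.cons_zero]
      simp only [Fin.cons_succ, Fin.val_zero, Fin.val_succ, pow_zero, mul_one]
      conv_lhs => rw [← modByMonic_add_div B Q, hB', Finset.mul_sum]
      congr 1
      refine Finset.sum_congr rfl fun i _ => ?_
      rw [pow_succ]
      ring

/-- The value at `y` of a monic polynomial. -/
theorem GVal.le_of_monic [IsAlgClosed Ω] (h0 : Ctx0 k v) (hy : Transcendental F y) {b c : ℝ}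
    (h : GVal v F y ρ b c) (hη : IsMin v F y η ρ) {B : F[X]} (hB : B.Monic) {m : ℕ}
    (hm : B.natDegree = m * (minpoly F η).natDegree)
    (hr : ∀ α : Ω, aeval α B = 0 → v (y - α) < b) : v (aeval y B) ≤ m * c := by
  have hneal : ∀ α : Ω, IsAlgebraic F α → y - α ≠ 0 := by
    intro α hα h0
    exact hy (by rw [sub_eq_zero.mp h0]; exact hα)
  obtain ⟨π, hπ, hπ0, hπb⟩ := h.val
  obtain ⟨η₁, h1, h2⟩ := h.ex
  have hg := h.all η₁ h1 h2
  have hlt := h.lt
  rw [min_deg_eq hη h1] at hm
  subst hπb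
  have hint := h1.sep.isIntegral
  have hcen := cen_of_min hy h1 hπ hπ0 hlt h2
  have hRB : RB v F η₁ (v π) B := by
    refine RB.of_roots hB.ne_zero fun α hα => ?_
    have hαa : IsAlgebraic F α := ⟨B, hB.ne_zero, hα⟩
    have h3 := hr α hα
    have h4 := v.add_of_lt (hneal α hαa) (neg_ne_zero.mpr (hneal η₁ hint.isAlgebraic)) (by
      rw [v.map_neg _ (hneal η₁ hint.isAlgebraic)]
      linarith)
    rw [show y - α + -(y - η₁) = η₁ - α by ring] at h4
    refine ⟨fun h5 => h4.1 (by rw [h5, sub_self]), ?_⟩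
    rw [h4.2]
    exact h3.le
  have h3 := (hRB.near (x := y) fun _ => h2).2.1
  have h4 := hRB.gn le_rfl
  rw [← h3] at h4
  obtain ⟨a, ha, hal, hBa⟩ := exists_expansion_monic (minpoly.monic hint)
    (minpoly.natDegree_pos hint) m B hB hm
  rw [hBa] at h4
  have h5 := key_poly h0 hcen hg a ha h4 (Fin.last m) (by rw [hal]; exact one_ne_zero)
  rw [hal, _root_.map_one, v.map_one, zero_add, Fin.val_last, ← hBa] at h5
  exact h5

/-! ### The near copy of `F(η)` -/

/-- Quotients. -/
theorem near_frac {n : ℕ} {s s' : Fin n → Ω} {κ : ℝ} (hN : Near k v s s' κ)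
    {U T : MvPolynomial (Fin n) k} (hU : MvPolynomial.aeval s U ≠ 0)
    (hT : MvPolynomial.aeval s T ≠ 0) :
    v.Ge (v (MvPolynomial.aeval s U / MvPolynomial.aeval s T) + κ)
      (MvPolynomial.aeval s' U / MvPolynomial.aeval s' T -
        MvPolynomial.aeval s U / MvPolynomial.aeval s T) := by
  obtain ⟨h1, h2⟩ := E4.near_val hN hU
  obtain ⟨h3, h4⟩ := E4.near_val hN hT
  have e : MvPolynomial.aeval s' U / MvPolynomial.aeval s' T -
      MvPolynomial.aeval s U / MvPolynomial.aeval s T =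
      ((MvPolynomial.aeval s' U - MvPolynomial.aeval s U) * MvPolynomial.aeval s T -
        MvPolynomial.aeval s U * (MvPolynomial.aeval s' T - MvPolynomial.aeval s T)) *
          (MvPolynomial.aeval s' T * MvPolynomial.aeval s T)⁻¹ := by
    field_simp
    ring
  have h5 : v.Ge (v (MvPolynomial.aeval s U) + v (MvPolynomial.aeval s T) + κ)
      ((MvPolynomial.aeval s' U - MvPolynomial.aeval s U) * MvPolynomial.aeval s T -
        MvPolynomial.aeval s U * (MvPolynomial.aeval s' T - MvPolynomial.aeval s T)) := by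
    refine RVal.Ge.sub ?_ ?_
    · exact ((hN.near U hU).mul (v.ge_self _)).mono (by linarith)
    · exact ((v.ge_self _).mul (hN.near T hT)).mono (by linarith)
  have h6 : v.Ge (-(v (MvPolynomial.aeval s' T) + v (MvPolynomial.aeval s T)))
      (MvPolynomial.aeval s' T * MvPolynomial.aeval s T)⁻¹ := RVal.Ge.of_le (by
    rw [v.map_inv (mul_ne_zero h3 hT), v.map_mul h3 hT])
  rw [e, v.map_div hU hT]
  refine (h5.mul h6).mono ?_
  rw [h4]
  linarith

variable {p : ℕ} {r D : ℕ} {z : Ω} {b₁ b ε : ℝ}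

/-- The values of polynomials of degree `< n` are near to elements of `k(S')`. -/
theorem to_K (h : Ctx k v r) (d : SD p k v r D F z η ρ b₁ b ε) [Fact p.Prime] [CharP k p]
    [CharP Ω p] [IsAlgClosed Ω] [IsAlgClosed k] {P : F[X]}
    (hP : P.natDegree < (minpoly F η).natDegree) :
    ∃ m ∈ d.S'.K, ∀ c : ℝ, v.Ge c (aeval z P) →
      v.Ge (c + (v (z - η) - b₁)) (aeval z P - m) := by
  by_cases hP0 : P = 0
  · refine ⟨0, zero_mem _, fun c _ => ?_⟩
    rw [hP0, _root_.map_zero, sub_zero]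
    exact RVal.Ge.zero
  have hzη : z ≠ η := fun h1 => d.cen.tr (h1 ▸ d.cen.sep.isIntegral.isAlgebraic)
  have hb1 := d.lt₁
  have hb2 := d.lt₂
  have hb3 := d.cen.lt'
  have hpε : (0 : ℝ) ≤ p * ε := mul_nonneg (Nat.cast_nonneg _) d.ε_nonneg
  have hRB := d.cen.tb P hP0 hP
  obtain ⟨h1, h2, h3⟩ := hRB.near (x := z) fun _ => by linarith
  have h3 := h3 hzη
  set κ := v (z - η) - b₁ with hκ
  have hκ0 : 0 < κ := by rw [hκ]; linarith
  have hA0 : aeval η P ≠ 0 := hRB.1
  have hmem : aeval η P ∈ adj F η := by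
    rw [aeval_eq_sum_range]
    refine sum_mem fun i _ => ?_
    rw [Algebra.smul_def]
    exact mul_mem ((D2P.mem_adj_self F η).2 (P.coeff i).2)
      (pow_mem (D2P.mem_adj_self F η).1 i)
  have hcl : aeval η P ∈ Cl v d.S.K.toSubfield := by
    have h4 : aeval η P ∈ hen v (adj F η) := D2P.le_hen _ hmem
    rw [d.fr.hen_eq p h] at h4
    exact (D2P.mem_hen.1 h4).1
  obtain ⟨n, hn, hnA⟩ := hcl (v (aeval η P) + κ)
  have hn' : v.Ge (v (aeval η P) + κ) (n - aeval η P) := by
    have := hnA.neg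
    rwa [neg_sub] at this
  obtain ⟨hn0, hvn⟩ := E5Aux.of_near hκ0 hA0 hn'
  have hnK : n ∈ d.S.K := hn
  rw [P4bAux.K_eq, IntermediateField.mem_adjoin_range_iff] at hnK
  obtain ⟨U, T, rfl⟩ := hnK
  have hU : MvPolynomial.aeval d.S.s U ≠ 0 := fun h => hn0 (by rw [h, zero_div])
  have hT : MvPolynomial.aeval d.S.s T ≠ 0 := fun h => hn0 (by rw [h, div_zero])
  refine ⟨MvPolynomial.aeval d.S'.s U / MvPolynomial.aeval d.S'.s T, ?_, fun c hc => ?_⟩
  · rw [P4bAux.K_eq, IntermediateField.mem_adjoin_range_iff]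
    exact ⟨U, T, rfl⟩
  · have h4 := near_frac d.near hU hT
    rw [hvn] at h4
    have h5 := (h3.mono (by linarith : v (aeval η P) + κ ≤ _)).sub (hn'.add h4)
    rw [show aeval z P - aeval η P - (MvPolynomial.aeval d.S.s U / MvPolynomial.aeval d.S.s T -
      aeval η P + (MvPolynomial.aeval d.S'.s U / MvPolynomial.aeval d.S'.s T -
        MvPolynomial.aeval d.S.s U / MvPolynomial.aeval d.S.s T)) =
      aeval z P - MvPolynomial.aeval d.S'.s U / MvPolynomial.aeval d.S'.s T by ring] at h5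
    refine h5.mono ?_
    have := hc h1
    linarith

/-- The elements of `k(S')` are near to values of polynomials of degree `< n`. -/
theorem of_K (_h : Ctx k v r) (d : SD p k v r D F z η ρ b₁ b ε) [Fact p.Prime] [CharP k p]
    [CharP Ω p] [IsAlgClosed Ω] [IsAlgClosed k] {e : Ω} (he : e ∈ d.S'.K) :
    ∃ P : F[X], P.natDegree < (minpoly F η).natDegree ∧ ∀ c : ℝ, v.Ge c e →
      v.Ge (c + (v (z - η) - b₁)) (e - aeval z P) := by
  have hpos : 0 < (minpoly F η).natDegree := minpoly.natDegree_pos d.cen.sep.isIntegral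
  by_cases he0 : e = 0
  · refine ⟨0, by rw [natDegree_zero]; exact hpos, fun c _ => ?_⟩
    rw [he0, _root_.map_zero, sub_zero]
    exact RVal.Ge.zero
  have hzη : z ≠ η := fun h1 => d.cen.tr (h1 ▸ d.cen.sep.isIntegral.isAlgebraic)
  have hb1 := d.lt₁
  have hb2 := d.lt₂
  have hb3 := d.cen.lt'
  have hpε : (0 : ℝ) ≤ p * ε := mul_nonneg (Nat.cast_nonneg _) d.ε_nonneg
  rw [P4bAux.K_eq, IntermediateField.mem_adjoin_range_iff] at he
  obtain ⟨U, T, rfl⟩ := he
  have hU' : MvPolynomial.aeval d.S'.s U ≠ 0 := fun h => he0 (by rw [h, zero_div])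
  have hT' : MvPolynomial.aeval d.S'.s T ≠ 0 := fun h => he0 (by rw [h, div_zero])
  have hU := E5Aux.aeval_ne d hU'
  have hT := E5Aux.aeval_ne d hT'
  obtain ⟨-, hvU⟩ := E4.near_val d.near hU
  obtain ⟨-, hvT⟩ := E4.near_val d.near hT
  have hmemN : ∀ P : MvPolynomial (Fin (r + D)) k, MvPolynomial.aeval d.S.s P ∈ adj F η := by
    intro P
    induction P using MvPolynomial.induction_on with
    | C a =>
      rw [MvPolynomial.aeval_C]
      exact IntermediateField.algebraMap_mem _ a
    | add P Q hP hQ =>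
      rw [_root_.map_add]
      exact add_mem hP hQ
    | mul_X P i hP =>
      rw [_root_.map_mul, MvPolynomial.aeval_X]
      exact mul_mem hP (d.pb.mem i)
  obtain ⟨P, hP, hPe⟩ := E4.mem_adj_iff d.cen.sep (div_mem (hmemN U) (hmemN T))
  refine ⟨P, hP, fun c hc => ?_⟩
  have hP0 : P ≠ 0 := fun h1 => div_ne_zero hU hT (by rw [← hPe, h1, _root_.map_zero])
  have hRB := d.cen.tb P hP0 hP
  obtain ⟨h1, h2, h3⟩ := hRB.near (x := z) fun _ => by linarith
  have h3 := h3 hzη
  have h4 := near_frac d.near hU hT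
  rw [← hPe] at h4
  have h5 : v (MvPolynomial.aeval d.S'.s U / MvPolynomial.aeval d.S'.s T) = v (aeval η P) := by
    rw [hPe, v.map_div hU' hT', v.map_div hU hT, hvU, hvT]
  have h6 := h4.sub (h3.mono (by linarith :
    v (aeval η P) + (v (z - η) - b₁) ≤ _))
  rw [show MvPolynomial.aeval d.S'.s U / MvPolynomial.aeval d.S'.s T - aeval η P -
    (aeval z P - aeval η P) = MvPolynomial.aeval d.S'.s U / MvPolynomial.aeval d.S'.s T -
      aeval z P by ring] at h6
  refine h6.mono ?_
  have := hc he0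
  linarith

end Pool.Agent.TWJ2
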