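import Pool.Agent.Lib.TWJ2.DropLe
import Pool.Agent.Lib.TWJ2.Con3

/-!
# TANK W, ROW J: the constraint, growth at level 0

`Lo0 p v E r c κ A`: at the radii `r`, `c` the Gauss value of `A` modulo `p`-th powers is `≥ κ`.

* `growth0`: if, at all the radii `(r + τ, c + τ)`, the monomials of total degree `< q` are not
  responsible for the Gauss value modulo `p`-th powers, it grows at least with slope `q`;
* `con0`: 42's `con0_of` with `drop_le`;
* `grow`: the growth for the exact representations.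
-/

set_option autoImplicit false
set_option linter.unusedSectionVars false

open Polynomial

namespace Pool.Agent.TWJ2

open Pool.Agent.H15JM (RVal)
open Pool.Agent.LU1 (adj)
open Pool.Agent.D2 (Ctx0)
open Pool.Agent.D2P (hen clI mem_clI mem_adj_self adj_le)
open Pool.Agent.TW
open Pool.Agent.TWM (CompleteV le_clI clI_mono clI_clI clI_hen PI PII GB Gt C_mem_PI X_mem_PI)
open Pool.Agent.TWJ (IsMin MinS)
open Pool.Agent.TWJ2.Dg

universe u

variable {k Ω : Type u} [Field k] [Field Ω] [Algebra k Ω]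

/-- At the radii `r`, `c` the Gauss value of `A` modulo `p`-th powers is `≥ κ`. -/
def Lo0 (p : ℕ) (v : RVal Ω) (E : IntermediateField k Ω) (r c κ : ℝ)
    (A : Polynomial (Polynomial Ω)) : Prop :=
  ∀ ε : ℝ, 0 < ε → ∃ G, PII E G ∧
    ∀ l i : ℕ, v.Ge (κ - ε - l * r - i * c) (((A - G ^ p).coeff i).coeff l)

section

variable {v : RVal Ω} {E : IntermediateField k Ω} {p : ℕ} [hp : Fact p.Prime] [CharP Ω p]
  {r₀ c κ : ℝ} {q : ℕ} {A : Polynomial (Polynomial Ω)}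

/-- The splice of two approximations, monomial by monomial. -/
theorem splice0 (A : Polynomial (Polynomial Ω)) {G₁ G₂ : Polynomial (Polynomial Ω)}
    (h₁ : PII E G₁) (h₂ : PII E G₂) (q : ℕ) : ∃ G, PII E G ∧ ∀ l i : ℕ, ∀ lam : ℝ,
      (l + i < q → v.Ge lam (((A - G₁ ^ p).coeff i).coeff l)) →
      (q ≤ l + i → v.Ge lam (((A - G₂ ^ p).coeff i).coeff l)) →
      v.Ge lam (((A - G ^ p).coeff i).coeff l) := by
  classical
  obtain ⟨G, hG, h3⟩ := asm (E := E) (p := p) A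
    (fun l i => if p ∣ l ∧ p ∣ i then (if l + i < q then (G₁.coeff (i / p)).coeff (l / p)
      else (G₂.coeff (i / p)).coeff (l / p)) else 0)
    (fun l i => by
      split_ifs
      exacts [h₁ _ _, h₂ _ _, zero_mem _])
    (fun l i h => if_neg h)
  refine ⟨G, hG, fun l i lam h4 h5 => ?_⟩
  rcases h3 l i with h6 | h6
  · rw [h6]
    by_cases hd : p ∣ l ∧ p ∣ i
    · rw [if_pos hd]
      split_ifs with hq
      · have h7 := h4 hq
        rwa [coeff_sub, coeff_sub, cc_pow, if_pos hd] at h7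
      · have h7 := h5 (not_lt.1 hq)
        rwa [coeff_sub, coeff_sub, cc_pow, if_pos hd] at h7
    · rw [if_neg hd, zero_pow hp.out.ne_zero, sub_zero]
      rcases Nat.lt_or_ge (l + i) q with hq | hq
      · have h7 := h4 hq
        rwa [coeff_sub, coeff_sub, cc_pow, if_neg hd, sub_zero] at h7
      · have h7 := h5 hq
        rwa [coeff_sub, coeff_sub, cc_pow, if_neg hd, sub_zero] at h7
  · rw [h6.1]
    exact RVal.Ge.zero

/-- **Growth.** -/
theorem growth0 {t : ℝ} (ht : 0 ≤ t)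
    (hcon : ∀ τ : ℝ, 0 ≤ τ → τ < t → ∀ κ' : ℝ, Lo0 p v E (r₀ + τ) (c + τ) κ' A →
      ∃ e : ℝ, 0 < e ∧ ∃ G, PII E G ∧ ∀ l i : ℕ, l + i < q →
        v.Ge (κ' + e - l * (r₀ + τ) - i * (c + τ)) (((A - G ^ p).coeff i).coeff l))
    (hlo : Lo0 p v E r₀ c κ A) : Lo0 p v E (r₀ + t) (c + t) (κ + q * t) A := by
  classical
  have hq0 : (0 : ℝ) ≤ q := Nat.cast_nonneg q
  set S : Set ℝ := {τ | 0 ≤ τ ∧ τ ≤ t ∧ Lo0 p v E (r₀ + τ) (c + τ) (κ + q * τ) A} with hS
  have h0S : (0 : ℝ) ∈ S := ⟨le_rfl, ht, by simpa using hlo⟩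
  have hbdd : BddAbove S := ⟨t, fun τ hτ => hτ.2.1⟩
  set s := sSup S with hs
  have hs0 : 0 ≤ s := le_csSup hbdd h0S
  have hst : s ≤ t := csSup_le ⟨0, h0S⟩ fun τ hτ => hτ.2.1
  have hsS : s ∈ S := by
    refine ⟨hs0, hst, fun ε hε => ?_⟩
    have hδ : 0 < ε / (2 * (q + 1)) := by positivity
    obtain ⟨τ, hτ, hτs⟩ := exists_lt_of_lt_csSup ⟨0, h0S⟩
      (show s - ε / (2 * (q + 1)) < s by linarith)
    have hτs' : τ ≤ s := le_csSup hbdd hτ
    obtain ⟨G, hG, h1⟩ := hτ.2.2 (ε / 2) (half_pos hε)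
    refine ⟨G, hG, fun l i => (h1 l i).mono ?_⟩
    have h2 : (q : ℝ) * (s - τ) ≤ ε / 2 := by
      have h3 : s - τ ≤ ε / (2 * (q + 1)) := by linarith
      calc (q : ℝ) * (s - τ) ≤ (q + 1) * (ε / (2 * (q + 1))) := by
            apply mul_le_mul (by linarith) h3 (by linarith) (by positivity)
        _ = ε / 2 := by field_simp
    have h3 : (0 : ℝ) ≤ l * (s - τ) := mul_nonneg (Nat.cast_nonneg l) (by linarith)
    have h4 : (0 : ℝ) ≤ i * (s - τ) := mul_nonneg (Nat.cast_nonneg i) (by linarith)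
    nlinarith
  rcases hst.lt_or_eq with hlt | heq
  swap
  · rw [← heq]
    exact hsS.2.2
  exfalso
  obtain ⟨e, he, G₁, hG₁, h1⟩ := hcon s hs0 hlt _ hsS.2.2
  set σ := min (t - s) (e / (q + 1)) with hσ
  have hσ0 : 0 < σ := lt_min (by linarith) (by positivity)
  have hσt : s + σ ≤ t := by
    have := min_le_left (t - s) (e / (q + 1))
    linarith
  have hσe : q * σ ≤ e := by
    have h3 : σ ≤ e / (q + 1) := min_le_right _ _
    calc (q : ℝ) * σ ≤ (q + 1) * (e / (q + 1)) :=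
          mul_le_mul (by linarith) h3 hσ0.le (by positivity)
      _ = e := by field_simp
  have hmem : s + σ ∈ S := by
    refine ⟨by linarith, hσt, fun ε hε => ?_⟩
    obtain ⟨G₂, hG₂, h2⟩ := hsS.2.2 ε hε
    obtain ⟨G, hG, h3⟩ := splice0 (v := v) (p := p) A hG₁ hG₂ q
    refine ⟨G, hG, fun l i => h3 l i _ (fun hli => (h1 l i hli).mono ?_)
      fun hli => (h2 l i).mono ?_⟩
    · have h4 : (0 : ℝ) ≤ l * σ := mul_nonneg (Nat.cast_nonneg l) hσ0.le
      have h5 : (0 : ℝ) ≤ i * σ := mul_nonneg (Nat.cast_nonneg i) hσ0.le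
      nlinarith
    · have h4 : (q : ℝ) ≤ l + i := by exact_mod_cast hli
      have h5 : (q : ℝ) * σ ≤ (l + i) * σ := mul_le_mul_of_nonneg_right h4 hσ0.le
      nlinarith
  have := le_csSup hbdd hmem
  rw [← hs] at this
  linarith

end

section

variable {v : RVal Ω} {p : ℕ} {r D : ℕ} [hp : Fact p.Prime] [CharP k p] [CharP Ω p]
  [IsAlgClosed Ω] [IsAlgClosed k]

/-- **The constraint at level 0.** -/
theorem con0 (h : Ctx k v r) (hcv : CompleteV v)
    (hLU : ∀ E : IntermediateField k Ω, E.FG → Full v E →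
      Algebra.trdeg k E = (r + D : ℕ) → BD p v E → LU p v r E)
    {K : IntermediateField k Ω} {R : Fr k v r D} {X T : Ω} (hd : Dns v R.K)
    (htx : Transcendental R.K X) (htt : Transcendental (adj R.K X) T)
    (hbd : BD p v (adj (adj R.K X) T)) (hcl : K = clI v (adj (adj R.K X) T)) {a : Ω}
    (ha : a ∈ K) {μ₁ : ℝ} (hμ₁ : ∀ g ∈ K, ¬ v.Ge μ₁ (a - g ^ p))
    {A : Polynomial (Polynomial Ω)}
    (hrep : ∃ h ∈ K, h ≠ 0 ∧ ∃ g ∈ K, a * h ^ p - g ^ p = A.evalEval X T)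
    {r₀ c κ : ℝ} {D₀ : ℕ} (hA : PII R.K A) (hr : r₀ < v X) (hc : c < v T)
    (hlo : Lo0 p v R.K r₀ c κ A)
    (hi : ∀ e : ℝ, 0 < e → ∀ G, PII R.K G → ∃ l i : ℕ, l + i ≤ D₀ ∧
      ¬ v.Ge (κ + e - l * r₀ - i * c) (((A - G ^ p).coeff i).coeff l))
    {q : ℕ} (hq : MinS p v r (D + 1) K a q) (hpq : p ∣ q) : q ≤ D₀ :=
  con0_of p h htx htt hbd hcl hA hrep hd hr hc hlo hi hq hpq
    fun X' A' r' c' κ' μ' D' htx' htt' hbd' hcl' hrep' hP hpD hdr =>
      drop_le h hcv hLU hd htx' htt' hbd' hcl' ha hμ₁ hrep' hP.mem hP.ltx hP.ltt hP.pos hP.hi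
        (fun l i hli => hP.oth l i (by
          by_contra h1
          push Not at h1
          exact hli (Prod.ext h1.1 h1.2))) hq hpq hpD hdr

/-- **The growth at level 0**, for the exact representations. -/
theorem grow (h : Ctx k v r) (hcv : CompleteV v)
    (hLU : ∀ E : IntermediateField k Ω, E.FG → Full v E →
      Algebra.trdeg k E = (r + D : ℕ) → BD p v E → LU p v r E)
    {K : IntermediateField k Ω} {R : Fr k v r D} {X T : Ω} (hd : Dns v R.K)
    (htx : Transcendental R.K X) (htt : Transcendental (adj R.K X) T)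
    (hbd : BD p v (adj (adj R.K X) T)) (hcl : K = clI v (adj (adj R.K X) T)) {a : Ω}
    (ha : a ∈ K) {μ₁ : ℝ} (hμ₁ : ∀ g ∈ K, ¬ v.Ge μ₁ (a - g ^ p))
    {A : Polynomial (Polynomial Ω)}
    (hrep : ∃ h ∈ K, h ≠ 0 ∧ ∃ g ∈ K, a * h ^ p - g ^ p = A.evalEval X T)
    {r₀ c κ t : ℝ} (hA : PII R.K A) (ht : 0 ≤ t) (hr : r₀ + t ≤ v X) (hc : c + t ≤ v T)
    {q : ℕ} (hq : MinS p v r (D + 1) K a q) (hpq : p ∣ q)
    (hlo : Lo0 p v R.K r₀ c κ A) : Lo0 p v R.K (r₀ + t) (c + t) (κ + q * t) A := by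
  refine growth0 ht (fun τ hτ hτt κ' hlo' => ?_) hlo
  by_contra hno
  push Not at hno
  rcases Nat.eq_zero_or_pos q with hq0 | hq0
  · subst hq0
    obtain ⟨l, i, h1, -⟩ := hno 1 one_pos 0 (fun i => by
      rw [coeff_zero]
      exact zero_mem _)
    omega
  · have h1 := con0 h hcv hLU hd htx htt hbd hcl ha hμ₁ hrep (r₀ := r₀ + τ) (c := c + τ)
      (κ := κ') (D₀ := q - 1) hA (by linarith) (by linarith) hlo' (fun e he G hG => by
        obtain ⟨l, i, h2, h3⟩ := hno e he G hG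
        exact ⟨l, i, by omega, h3⟩) hq hpq
    omega

end

end Pool.Agent.TWJ2
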