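import Pool.Agent.Lib.TWJ2.Gauss
import Pool.Agent.Lib.TWJ2.Splice
import Pool.Agent.Lib.TWJ2.LevDT
import Pool.Agent.Lib.D2P.R0

/-!
# TANK W, ROW J, SOFT J, cell (A): Gauss values over a henselian field, by double counting

`M` is a henselian field (`hen v M = M`), `a` algebraic over `M`, `P` its minimal polynomial.
* `map_roots_conj`, `gval_conj`, `ncl_conj`, `nop_conj`: the roots of `G` over `M` seen from two
  conjugate points;
* `gval_rc`, `ncl_rc`, `nop_rc`: for `P`, `Q` minimal polynomials with a root in the disc,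
  `deg P * w(Q) = deg Q * w(P)`, and the same for the numbers of roots in the disc;
* `ncl_mul_le`, `nop_mul_le`: `deg P * n(G) ≤ deg G * n(P)` for all `G` over `M`;
* `gb_key_iff` (K1): `w(G + P ^ e * H) = min (w G) (w (P ^ e * H))` for `deg G < e * deg P`;
* `unit_disc`: a polynomial without roots in the disc has an approximate inverse;
* `LCd.of_root`: left compatibility of `P` at every smaller radius.
-/

set_option autoImplicit false

open Polynomial IntermediateField

namespace Pool.Agent.TWJ2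

open Pool.Agent.H15JM (RVal)
open Pool.Agent.D2 (Ctx0)
open Pool.Agent.D2P (hen clI)
open Pool.Agent.TWM (Gt GB PI C_mem_PI X_mem_PI isAlgebraic_root)

universe u

theorem sum_const_of {A : Type*} {s : Multiset A} {F : A → ℝ} {c : ℝ}
    (h : ∀ a ∈ s, F a = c) : (s.map F).sum = s.card * c := by
  rw [Multiset.map_congr rfl h, Multiset.map_const', Multiset.sum_replicate, nsmul_eq_mul]

section Cnt

variable {Ω : Type u} [Field Ω] {v : RVal Ω} {x b : ℝ} {y a : Ω} {f g : Polynomial Ω}

theorem ge_swap (r : ℝ) (a b : Ω) : v.Ge r (a - b) ↔ v.Ge r (b - a) := by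
  rw [← neg_sub b a]
  exact ⟨fun h => by simpa using h.neg, fun h => h.neg⟩

theorem cut_recentre (h : v.Ge x (y - a)) (η : Ω) : cut v x (a - η) = cut v x (y - η) := by
  by_cases h1 : v.Ge x (y - η)
  · have h2 : v.Ge x (a - η) := by
      have h3 : a - η = (y - η) - (y - a) := by ring
      rw [h3]
      exact h1.sub h
    rw [cut_of_ge h1, cut_of_ge h2]
  · have h2 : ¬ v.Ge x (a - η) := by
      intro h2
      apply h1
      have h3 : y - η = (y - a) + (a - η) := by ring
      rw [h3]
      exact h.add h2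
    obtain ⟨h3, h4, h5⟩ := cut_of_not_ge h1
    obtain ⟨h6, h7, h8⟩ := cut_of_not_ge h2
    rw [h5, h8]
    have h9 : a - η = (y - η) + -(y - a) := by ring
    rw [h9]
    by_cases h10 : -(y - a) = 0
    · rw [h10, add_zero]
    · exact (v.add_of_lt h3 h10 (h4.trans_le (h.neg h10))).2

theorem gval_recentre (h : v.Ge x (y - a)) (f : Polynomial Ω) : gval v a x f = gval v y x f := by
  unfold gval
  congr 2
  exact Multiset.map_congr rfl fun η _ => cut_recentre h η

theorem ge_recentre (h : v.Ge x (y - a)) (η : Ω) : v.Ge x (a - η) ↔ v.Ge x (y - η) := by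
  constructor
  · intro h2
    have h3 : y - η = (y - a) + (a - η) := by ring
    rw [h3]
    exact h.add h2
  · intro h1
    have h3 : a - η = (y - η) - (y - a) := by ring
    rw [h3]
    exact h1.sub h

theorem ncl_recentre (h : v.Ge x (y - a)) (f : Polynomial Ω) : ncl v a x f = ncl v y x f := by
  classical
  unfold ncl
  exact Multiset.countP_congr rfl fun η _ => propext (ge_recentre h η)

theorem gval_eq_sum : gval v a x f = v f.leadingCoeff +
    (f.roots.map fun η => cut v x (a - η)).sum := rfl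

theorem cut_swap (r : ℝ) (a b : Ω) : cut v r (a - b) = cut v r (b - a) := by
  unfold cut
  have h1 : a - b = 0 ↔ b - a = 0 := by rw [sub_eq_zero, sub_eq_zero, eq_comm]
  by_cases h : a - b = 0
  · rw [if_pos h, if_pos (h1.1 h)]
  · have h2 : v (a - b) = v (b - a) := by
      rw [← v.map_neg _ h, neg_sub]
    rw [if_neg h, if_neg fun h' => h (h1.2 h'), h2]

/-- Two terms with different last indices. -/
theorem GZ.add_lt {lam mu : ℝ} {n m : ℕ} (hf : GZ v b lam n f) (hg : GZ v b mu m g) (hnm : n < m)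
    {kap : ℝ} (h : GB v b kap (f + g)) : kap ≤ lam ∧ kap ≤ mu := by
  have h1 : kap ≤ mu := by
    by_contra hlt
    push Not at hlt
    rcases le_or_gt mu lam with h2 | h2
    · -- the index `m`
      have h3 : Gt v (mu - m * b) (f.coeff m) := (hf.lt m hnm).mono (by linarith)
      have h4 := add_gt hg.ne hg.eq h3
      have h5 := h m (by rw [coeff_add, add_comm]; exact h4.1)
      rw [coeff_add, add_comm (f.coeff m), h4.2] at h5
      linarith
    · have h3 : Gt v (lam - n * b) (g.coeff n) := fun h0 => by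
        have := hg.gb n h0
        linarith
      have h4 := add_gt hf.ne hf.eq h3
      have h5 := h n (by rw [coeff_add]; exact h4.1)
      rw [coeff_add, h4.2] at h5
      linarith
  refine ⟨?_, h1⟩
  have h2 : GB v b (min kap mu) f := by
    have h3 : f = (f + g) - g := by ring
    rw [h3]
    exact (h.mono (min_le_left _ _)).sub (hg.gb.mono (min_le_right _ _))
  rw [min_eq_left h1] at h2
  exact hf.le h2

end Cnt

section Conj

variable {k Ω : Type u} [Field k] [Field Ω] [Algebra k Ω] {v : RVal Ω}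
  {M : IntermediateField k Ω} {y a a' η : Ω} {x x' b b₁ : ℝ} {P Q G H : Polynomial Ω}

/-- **The roots of a polynomial over a henselian field, seen from two conjugate points.** -/
theorem map_roots_conj [IsAlgClosed Ω] (hk : Ctx0 k v) (hM : hen v M = M)
    (ha : IsAlgebraic M a) (h' : aeval a' (minpoly M a) = 0) (hG : G ∈ PI M) {B : Type*}
    (F : Ω → B) (hF : ∀ x x' : Ω, (x = 0 ↔ x' = 0) → v x = v x' → F x = F x') :
    G.roots.map (fun η => F (a' - η)) = G.roots.map (fun η => F (a - η)) := by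
  obtain ⟨G', rfl⟩ := exists_lift hG
  let E : IntermediateField M Ω := algebraicClosure M Ω
  have haE : a ∈ E := mem_algebraicClosure_iff.2 ha
  have ha'E : a' ∈ E := mem_algebraicClosure_iff.2
    ⟨minpoly M a, minpoly.ne_zero ha.isIntegral, h'⟩
  have : Normal M E := IsAlgClosure.normal M E
  have : IsAlgClosed E := IsAlgClosure.isAlgClosed M
  have h1 : minpoly M (⟨a, haE⟩ : E) = minpoly M a :=
    (minpoly.algebraMap_eq (algebraMap E Ω).injective (⟨a, haE⟩ : E)).symm
  obtain ⟨σ, hσ⟩ := minpoly.exists_algEquiv_of_root' (K := M) (L := E) (y := ⟨a, haE⟩)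
    (x := ⟨a', ha'E⟩) (Algebra.IsAlgebraic.isAlgebraic _) (by
      rw [h1]
      apply Subtype.ext
      have h2 := aeval_algebraMap_apply Ω (⟨a', ha'E⟩ : E) (minpoly M a)
      rw [show algebraMap E Ω ⟨a', ha'E⟩ = a' from rfl, h'] at h2
      exact h2.symm)
  have key : ∀ e : E, v ((σ e : E) : Ω) = v (e : Ω) := by
    intro e
    have he' : IsAlgebraic M (e : Ω) := mem_algebraicClosure_iff.1 e.2
    refine D2P.val_root hk hM he' ?_
    have h3 : aeval (σ e) (minpoly M e) = 0 := by
      have h := aeval_algHom_apply (σ : E →ₐ[M] E) e (minpoly M e)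
      rw [minpoly.aeval, map_zero] at h
      exact h
    have h4 : minpoly M e = minpoly M (e : Ω) :=
      (minpoly.algebraMap_eq (algebraMap E Ω).injective (e : E)).symm
    have h5 := aeval_algebraMap_apply Ω (σ e : E) (minpoly M e)
    rw [h3, map_zero, h4] at h5
    exact h5
  set GE : Polynomial E := G'.map (algebraMap M E) with hGE
  have hr : (G'.map (algebraMap M Ω)).roots = GE.roots.map (algebraMap E Ω) := by
    rw [← (IsAlgClosed.splits GE).roots_map, hGE, Polynomial.map_map]
    rfl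
  have hs : GE.roots.map σ = GE.roots := by
    have h3 : GE.map (σ : E →+* E) = GE := by
      rw [hGE, Polynomial.map_map]
      congr 1
      ext x
      exact congrArg _ (σ.commutes x)
    have h4 := (IsAlgClosed.splits GE).roots_map (σ : E →+* E)
    rw [h3] at h4
    exact h4.symm
  rw [hr, Multiset.map_map, Multiset.map_map]
  conv_lhs => rw [← hs]
  rw [Multiset.map_map]
  refine Multiset.map_congr rfl fun e _ => ?_
  have h5 : a' - ((σ e : E) : Ω) = ((σ (⟨a, haE⟩ - e) : E) : Ω) := by
    rw [map_sub, hσ]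
    rfl
  have h6 : a - (e : Ω) = (((⟨a, haE⟩ - e) : E) : Ω) := rfl
  change F (a' - ((σ e : E) : Ω)) = F (a - (e : Ω))
  refine hF _ _ ?_ ?_
  · rw [h5, h6, ZeroMemClass.coe_eq_zero, ZeroMemClass.coe_eq_zero, map_eq_zero_iff _ σ.injective]
  · rw [h5, h6, key]

theorem gval_conj [IsAlgClosed Ω] (hk : Ctx0 k v) (hM : hen v M = M)
    (ha : IsAlgebraic M a) (h' : aeval a' (minpoly M a) = 0) (hG : G ∈ PI M) (x : ℝ) :
    gval v a' x G = gval v a x G := by
  unfold gval
  rw [map_roots_conj hk hM ha h' hG (cut v x) fun z z' h1 h2 => by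
    unfold cut
    by_cases h : z = 0
    · rw [if_pos h, if_pos (h1.1 h)]
    · rw [if_neg h, if_neg fun h3 => h (h1.2 h3), h2]]

/-- The roots of the minimal polynomial. -/
theorem mem_roots_minpoly (hP : (minpoly M a).map (algebraMap M Ω) = P) (ha : IsAlgebraic M a)
    {a' : Ω} : a' ∈ P.roots ↔ aeval a' (minpoly M a) = 0 := by
  rw [← hP, mem_roots ((minpoly.monic ha.isIntegral).map _).ne_zero, IsRoot.def,
    eval_map_algebraMap]

theorem monic_minpoly (hP : (minpoly M a).map (algebraMap M Ω) = P) (ha : IsAlgebraic M a) :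
    P.Monic := by
  rw [← hP]
  exact (minpoly.monic ha.isIntegral).map _

theorem mem_minpoly (hP : (minpoly M a).map (algebraMap M Ω) = P) : P ∈ PI M := by
  rw [← hP]
  exact minpoly_mem_PI a

theorem self_mem_roots (hP : (minpoly M a).map (algebraMap M Ω) = P) (ha : IsAlgebraic M a) :
    a ∈ P.roots := (mem_roots_minpoly hP ha).2 (minpoly.aeval _ _)

theorem ncl_pos_of_root (hP : (minpoly M a).map (algebraMap M Ω) = P) (ha : IsAlgebraic M a)
    (h : v.Ge x (y - a)) : 0 < ncl v y x P :=
  (ncl_pos_iff (monic_minpoly hP ha).ne_zero).2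
    ⟨a, (mem_roots (monic_minpoly hP ha).ne_zero).1 (self_mem_roots hP ha), h⟩

/-- The sum over the conjugates. -/
theorem sum_conj [IsAlgClosed Ω] (hk : Ctx0 k v) (hM : hen v M = M)
    (ha : IsAlgebraic M a) (hP : (minpoly M a).map (algebraMap M Ω) = P)
    (hG : G ∈ PI M) (F : Ω → ℝ)
    (hF : ∀ x x' : Ω, (x = 0 ↔ x' = 0) → v x = v x' → F x = F x') :
    (P.roots.map fun a' => (G.roots.map fun η => F (a' - η)).sum).sum =
      P.natDegree * (G.roots.map fun η => F (a - η)).sum := by
  rw [sum_const_of (c := (G.roots.map fun η => F (a - η)).sum) fun a' ha' => ?_,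
    IsAlgClosed.card_roots_eq_natDegree]
  rw [map_roots_conj hk hM ha ((mem_roots_minpoly hP ha).1 ha') hG F hF]

/-- Double counting. -/
theorem double_count [IsAlgClosed Ω] (hk : Ctx0 k v) (hM : hen v M = M)
    (ha : IsAlgebraic M a) (hP : (minpoly M a).map (algebraMap M Ω) = P)
    (hG : G ∈ PI M) (F : Ω → ℝ)
    (hF : ∀ x x' : Ω, (x = 0 ↔ x' = 0) → v x = v x' → F x = F x')
    (hs : ∀ x x' : Ω, F (x - x') = F (x' - x)) :
    P.natDegree * (G.roots.map fun η => F (a - η)).sum =
      (G.roots.map fun η => (P.roots.map fun a' => F (η - a')).sum).sum := by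
  rw [← sum_conj hk hM ha hP hG F hF, Multiset.sum_map_sum_map]
  exact congrArg _ (Multiset.map_congr rfl fun b _ => congrArg _
      (Multiset.map_congr rfl fun a' _ => hs _ _))

theorem cut_inv (x : ℝ) (z z' : Ω) (h1 : z = 0 ↔ z' = 0) (h2 : v z = v z') :
    cut v x z = cut v x z' := by
  unfold cut
  by_cases h : z = 0
  · rw [if_pos h, if_pos (h1.1 h)]
  · rw [if_neg h, if_neg fun h3 => h (h1.2 h3), h2]

/-- **(RC)** The Gauss values of two minimal polynomials with a root in the disc are proportional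
to the degrees. -/
theorem gval_rc [IsAlgClosed Ω] (hk : Ctx0 k v) (hM : hen v M = M)
    (ha : IsAlgebraic M a) (hP : (minpoly M a).map (algebraMap M Ω) = P) (hya : v.Ge x (y - a))
    {c : Ω} (hc : IsAlgebraic M c) (hQ : (minpoly M c).map (algebraMap M Ω) = Q)
    (hyc : v.Ge x (y - c)) :
    P.natDegree * gval v y x Q = Q.natDegree * gval v y x P := by
  have h1 := double_count hk hM ha hP (mem_minpoly hQ) (cut v x) (cut_inv x) (cut_swap x)
  rw [sum_conj hk hM hc hQ (mem_minpoly hP) (cut v x) (cut_inv x)] at h1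
  rw [← gval_recentre hya Q, ← gval_recentre hyc P, gval_eq_sum, gval_eq_sum,
    (monic_minpoly hP ha).leadingCoeff, (monic_minpoly hQ hc).leadingCoeff, v.map_one, zero_add,
    zero_add]
  exact h1

open Classical in
/-- The characteristic function of the closed disc. -/
noncomputable def chiD (v : RVal Ω) (x : ℝ) (z : Ω) : ℝ := if v.Ge x z then 1 else 0

theorem ncl_eq_chiD : (ncl v a x G : ℝ) = (G.roots.map fun η => chiD v x (a - η)).sum := by
  classical
  unfold ncl chiD
  induction G.roots using Multiset.induction_on with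
  | empty => simp
  | cons c s ih =>
    rw [Multiset.map_cons, Multiset.sum_cons, Multiset.countP_cons, ← ih, add_comm]
    push_cast
    congr 1

theorem chiD_inv (x : ℝ) (z z' : Ω) (h1 : z = 0 ↔ z' = 0) (h2 : v z = v z') :
    chiD v x z = chiD v x z' := by
  classical
  have h3 : v.Ge x z ↔ v.Ge x z' := by
    unfold RVal.Ge
    rw [h2]
    exact ⟨fun h h0 => h fun h4 => h0 (h1.1 h4), fun h h0 => h fun h4 => h0 (h1.2 h4)⟩
  unfold chiD
  simp only [h3]

theorem chiD_swap (x : ℝ) (z z' : Ω) : chiD v x (z - z') = chiD v x (z' - z) := by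
  classical
  unfold chiD
  simp only [ge_swap x z z']

theorem ncl_conj [IsAlgClosed Ω] (hk : Ctx0 k v) (hM : hen v M = M)
    (ha : IsAlgebraic M a) (h' : aeval a' (minpoly M a) = 0) (hG : G ∈ PI M) (x : ℝ) :
    ncl v a' x G = ncl v a x G := by
  have h1 : (ncl v a' x G : ℝ) = ncl v a x G := by
    rw [ncl_eq_chiD, ncl_eq_chiD, map_roots_conj hk hM ha h' hG (chiD v x) (chiD_inv x)]
  exact_mod_cast h1

/-- The numbers of roots in the disc of two minimal polynomials are proportional to the degrees. -/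
theorem ncl_rc [IsAlgClosed Ω] (hk : Ctx0 k v) (hM : hen v M = M)
    (ha : IsAlgebraic M a) (hP : (minpoly M a).map (algebraMap M Ω) = P) (hya : v.Ge x (y - a))
    {c : Ω} (hc : IsAlgebraic M c) (hQ : (minpoly M c).map (algebraMap M Ω) = Q)
    (hyc : v.Ge x (y - c)) :
    P.natDegree * ncl v y x Q = Q.natDegree * ncl v y x P := by
  have h1 := double_count hk hM ha hP (mem_minpoly hQ) (chiD v x) (chiD_inv x) (chiD_swap x)
  rw [sum_conj hk hM hc hQ (mem_minpoly hP) (chiD v x) (chiD_inv x), ← ncl_eq_chiD, ← ncl_eq_chiD,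
    ncl_recentre hya Q, ncl_recentre hyc P] at h1
  exact_mod_cast h1

/-- The number of roots in a disc, around an arbitrary point. -/
theorem ncl_le_of_any [IsAlgClosed Ω] (hk : Ctx0 k v) (hM : hen v M = M)
    (ha : IsAlgebraic M a) (hP : (minpoly M a).map (algebraMap M Ω) = P) (hya : v.Ge x (y - a))
    (η : Ω) : ncl v η x P ≤ ncl v y x P := by
  rcases Nat.eq_zero_or_pos (ncl v η x P) with h | h
  · omega
  · obtain ⟨a', h1, h2⟩ := (ncl_pos_iff (monic_minpoly hP ha).ne_zero).1 h
    have h3 : aeval a' (minpoly M a) = 0 := (mem_roots_minpoly hP ha).1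
      ((mem_roots (monic_minpoly hP ha).ne_zero).2 h1)
    rw [← ncl_recentre h2 P, ncl_conj hk hM ha h3 (mem_minpoly hP) x, ncl_recentre hya P]

/-- **The number of roots in the disc of an arbitrary polynomial.** -/
theorem ncl_mul_le [IsAlgClosed Ω] (hk : Ctx0 k v) (hM : hen v M = M)
    (ha : IsAlgebraic M a) (hP : (minpoly M a).map (algebraMap M Ω) = P) (hya : v.Ge x (y - a))
    (hG : G ∈ PI M) : P.natDegree * ncl v y x G ≤ G.natDegree * ncl v y x P := by
  have h1 := double_count hk hM ha hP hG (chiD v x) (chiD_inv x) (chiD_swap x)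
  rw [← ncl_eq_chiD, ncl_recentre hya G] at h1
  have h2 : (G.roots.map fun η => (P.roots.map fun a' => chiD v x (η - a')).sum).sum ≤
      (G.roots.map fun _ => (ncl v y x P : ℝ)).sum := by
    refine Multiset.sum_map_le_sum_map _ _ fun η _ => ?_
    rw [← ncl_eq_chiD]
    exact_mod_cast ncl_le_of_any hk hM ha hP hya η
  rw [← h1, sum_const_of fun _ _ => rfl, IsAlgClosed.card_roots_eq_natDegree] at h2
  exact_mod_cast h2

/-- The property of the numbers of roots which is used below. -/
def Cnt (v : RVal Ω) (M : IntermediateField k Ω) (y : Ω) (x : ℝ) : Prop :=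
  ∀ a : Ω, IsAlgebraic M a → v.Ge x (y - a) → ∀ G ∈ PI M, G ≠ 0 →
    ((minpoly M a).map (algebraMap M Ω)).natDegree * ncl v y x G ≤
      G.natDegree * ncl v y x ((minpoly M a).map (algebraMap M Ω))

theorem Cnt.of_hen [IsAlgClosed Ω] (hk : Ctx0 k v) (hM : hen v M = M) : Cnt v M y x :=
  fun _ ha hya _ hG _ => ncl_mul_le hk hM ha rfl hya hG

/-- Polynomials of smaller degree. -/
theorem Cnt.ncl_lt_mul (hC : Cnt v M y x)
    (ha : IsAlgebraic M a) (hP : (minpoly M a).map (algebraMap M Ω) = P) (hya : v.Ge x (y - a))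
    (hG : G ∈ PI M) {e : ℕ} (hd : G.natDegree < e * P.natDegree) :
    ncl v y x G < e * ncl v y x P := by
  have h2 := ncl_pos_of_root hP ha hya
  by_cases h0 : G = 0
  · subst h0
    have he : 0 < e := by
      rcases Nat.eq_zero_or_pos e with h | h
      · rw [h, zero_mul] at hd
        exact absurd hd (Nat.not_lt_zero _)
      · exact h
    have h5 : ncl v y x (0 : Polynomial Ω) = 0 := by
      unfold ncl
      rw [roots_zero, Multiset.countP_zero]
    rw [h5]
    exact Nat.mul_pos he h2
  have h1 := hC a ha hya G hG h0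
  rw [hP] at h1
  have h3 : P.natDegree * ncl v y x G < P.natDegree * (e * ncl v y x P) := by
    refine h1.trans_lt ?_
    have h4 := Nat.mul_lt_mul_of_pos_right hd h2
    linarith
  exact Nat.lt_of_mul_lt_mul_left h3

/-- **(K1)** Left compatibility: `P` need not be a key polynomial at the radius `x`. -/
theorem Cnt.gb_key_iff [IsAlgClosed Ω] (hC : Cnt v M y x)
    (ha : IsAlgebraic M a) (hP : (minpoly M a).map (algebraMap M Ω) = P) (hya : v.Ge x (y - a))
    (hG : G ∈ PI M) {e : ℕ} (hd : G.degree < (P ^ e).degree) {lam : ℝ} :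
    GB v x lam (taylor y (G + P ^ e * H)) ↔
      GB v x lam (taylor y G) ∧ GB v x lam (taylor y (P ^ e * H)) := by
  refine ⟨fun h => ?_, fun h => by rw [map_add]; exact h.1.add h.2⟩
  by_cases hG0 : G = 0
  · subst hG0
    rw [zero_add] at h
    exact ⟨by rw [map_zero]; exact GB.zero, h⟩
  by_cases hH0 : H = 0
  · subst hH0
    rw [mul_zero, add_zero] at h
    exact ⟨h, by rw [mul_zero, map_zero]; exact GB.zero⟩
  have hm := monic_minpoly hP ha
  have hPe : P ^ e ≠ 0 := (hm.pow e).ne_zero
  have hd' : G.natDegree < e * P.natDegree := by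
    rw [← hm.natDegree_pow e]
    exact (natDegree_lt_natDegree_iff hG0).2 hd
  have h1 : ncl v y x G < ncl v y x (P ^ e * H) := by
    rw [ncl_mul hPe hH0, ncl_pow]
    exact (hC.ncl_lt_mul ha hP hya hG hd').trans_le (Nat.le_add_right _ _)
  rw [map_add] at h
  have h2 := (GZ_gval (v := v) (y := y) (b := x) hG0).add_lt
    (GZ_gval (v := v) (y := y) (b := x) (mul_ne_zero hPe hH0)) h1 h
  exact ⟨(GB_iff hG0).2 h2.1, (GB_iff (mul_ne_zero hPe hH0)).2 h2.2⟩

/-- The same by division with remainder. -/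
theorem Cnt.gb_div_iff [IsAlgClosed Ω] (hC : Cnt v M y x)
    (ha : IsAlgebraic M a) (hP : (minpoly M a).map (algebraMap M Ω) = P) (hya : v.Ge x (y - a))
    (hG : G ∈ PI M) (e : ℕ) {lam : ℝ} : GB v x lam (taylor y G) ↔
      GB v x lam (taylor y (G %ₘ P ^ e)) ∧ GB v x lam (taylor y (P ^ e * (G /ₘ P ^ e))) := by
  have hm := monic_minpoly hP ha
  have h1 := hC.gb_key_iff (H := G /ₘ P ^ e) (lam := lam) ha hP hya
    (Dg.PI_div (pow_mem (mem_minpoly hP) e) (hm.pow e) hG).2 (degree_modByMonic_lt G (hm.pow e))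
  rwa [modByMonic_add_div] at h1

/-- **(K1)** over a henselian field. -/
theorem gb_key_iff [IsAlgClosed Ω] (hk : Ctx0 k v) (hM : hen v M = M)
    (ha : IsAlgebraic M a) (hP : (minpoly M a).map (algebraMap M Ω) = P) (hya : v.Ge x (y - a))
    (hG : G ∈ PI M) {e : ℕ} (hd : G.degree < (P ^ e).degree) {lam : ℝ} :
    GB v x lam (taylor y (G + P ^ e * H)) ↔
      GB v x lam (taylor y G) ∧ GB v x lam (taylor y (P ^ e * H)) :=
  (Cnt.of_hen hk hM).gb_key_iff ha hP hya hG hd

/-- The same by division with remainder. -/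
theorem gb_div_iff [IsAlgClosed Ω] (hk : Ctx0 k v) (hM : hen v M = M)
    (ha : IsAlgebraic M a) (hP : (minpoly M a).map (algebraMap M Ω) = P) (hya : v.Ge x (y - a))
    (hG : G ∈ PI M) (e : ℕ) {lam : ℝ} : GB v x lam (taylor y G) ↔
      GB v x lam (taylor y (G %ₘ P ^ e)) ∧ GB v x lam (taylor y (P ^ e * (G /ₘ P ^ e))) :=
  (Cnt.of_hen hk hM).gb_div_iff ha hP hya hG e

/-- **Left compatibility at every smaller radius.** -/
theorem LCd.of_root [IsAlgClosed Ω] (hk : Ctx0 k v) (hM : hen v M = M)
    (ha : IsAlgebraic M a) (hP : (minpoly M a).map (algebraMap M Ω) = P)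
    (hya : v.Ge b₁ (y - a)) (hb : b < b₁) :
    LCd v M y b b₁ P ((gval v y b₁ P - gval v y b P) / (b₁ - b)) := by
  have hm := monic_minpoly hP ha
  have h0 : 0 < b₁ - b := sub_pos.2 hb
  have h1 := gval_lo (v := v) (y := y) (f := P) hb.le
  have h2 : (1 : ℝ) ≤ ncl v y b₁ P := by exact_mod_cast ncl_pos_of_root hP ha hya
  have h3 : 0 < gval v y b₁ P - gval v y b P := by nlinarith
  refine ⟨hb, div_pos h3 h0, fun f hf lam L hl =>
    ((gb_div_iff hk hM ha hP (hya.mono hb.le) hf L).1 hl).2, fun h hh lam L hl => ?_⟩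
  by_cases hh0 : h = 0
  · rw [hh0, mul_zero, map_zero]
    exact GB.zero
  have hPL : P ^ L ≠ 0 := (hm.pow L).ne_zero
  rw [GB_iff (mul_ne_zero hPL hh0), gval_mul hPL hh0, gval_pow hm.ne_zero] at hl ⊢
  have h4 := gval_mono (v := v) (y := y) (f := h) hb.le
  have h5 : (L : ℝ) * ((gval v y b₁ P - gval v y b P) / (b₁ - b)) * (b₁ - b) =
      L * (gval v y b₁ P - gval v y b P) := by
    rw [mul_assoc, div_mul_cancel₀ _ h0.ne']
  rw [h5]
  linarith

end Conj

end Pool.Agent.TWJ2
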