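import Pool.Agent.Lib.TWJ2.Gbl
import Pool.Agent.Lib.TWJ2.Dig

/-!
# TANK W, ROW J, J.1c: digits in two variables, and the ideal of relative order

* `DT`: the digit theorem at a level, as a structure;
* `part`: the part of a polynomial with prescribed digits;
* `Jid p φ S`: the ideal of the polynomials all whose monomials `φ ^ l T ^ i` are of relative
  order `> S`; digits, `p`-th powers, change of the centre.
-/

set_option autoImplicit false

open Polynomial

namespace Pool.Agent.TWJ2

open Pool.Agent.H15JM (RVal)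
open Pool.Agent.LU1 (adj)
open Pool.Agent.D2P (clI)
open Pool.Agent.TWM (SL MS PI PII TL Gt GB CompleteV)
open Pool.Agent.TWJ2.Dg

universe u

variable {k Ω : Type u} [Field k] [Field Ω] [Algebra k Ω]

/-- The digit theorem at a level. -/
structure DT (v : RVal Ω) (C : IntermediateField k Ω) (y : Ω) (b : ℝ) (φ : Polynomial Ω)
    (β : ℝ) : Prop where
  mem : φ ∈ PI C
  mon : φ.Monic
  pos : 0 < φ.natDegree
  nz : ∀ f ∈ PI C, f ≠ 0 → f.eval y ≠ 0
  gty : Gt v β (φ.eval y)
  iff : ∀ f ∈ PI C, ∀ lam : ℝ, GB v b lam (taylor y f) ↔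
    ∀ l : ℕ, v.Ge (lam - l * β) ((dig φ f l).eval y)

/-! ### Parts -/

section Part

open Classical in
/-- The part of `H` with the digits `(l, i)`, `l < N`, `i < M`, `s l i`. -/
noncomputable def part (φ : Polynomial Ω) (s : ℕ → ℕ → Prop) (N M : ℕ)
    (H : Polynomial (Polynomial Ω)) : Polynomial (Polynomial Ω) :=
  ∑ i ∈ Finset.range M, Polynomial.C (∑ l ∈ Finset.range N,
    (if s l i then dig φ (H.coeff i) l else 0) * φ ^ l) * Polynomial.X ^ i

variable {φ : Polynomial Ω} {s : ℕ → ℕ → Prop} {N M : ℕ} {H : Polynomial (Polynomial Ω)}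

open Classical in
theorem part_coeff (i : ℕ) : (part φ s N M H).coeff i = if i < M then
    ∑ l ∈ Finset.range N, (if s l i then dig φ (H.coeff i) l else 0) * φ ^ l else 0 := by
  rw [part, finsetSum_coeff]
  have h1 : ∀ j ∈ Finset.range M, (Polynomial.C (∑ l ∈ Finset.range N,
      (if s l j then dig φ (H.coeff j) l else 0) * φ ^ l) *
      (Polynomial.X : Polynomial (Polynomial Ω)) ^ j).coeff i = if i = j then
      ∑ l ∈ Finset.range N, (if s l i then dig φ (H.coeff i) l else 0) * φ ^ l else 0 := by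
    intro j _
    rw [coeff_C_mul_X_pow]
    split_ifs with h
    · rw [h]
    · rfl
  rw [Finset.sum_congr rfl h1, Finset.sum_ite_eq (Finset.range M) i]
  simp only [Finset.mem_range]

open Classical in
theorem dig_part (hφ : φ.Monic) (i l : ℕ) : dig φ ((part φ s N M H).coeff i) l =
    if i < M ∧ l < N ∧ s l i then dig φ (H.coeff i) l else 0 := by
  rw [part_coeff]
  by_cases hi : i < M
  · rw [if_pos hi, dig_sum_pow hφ N _ ?_ l]
    · by_cases hl : l < N
      · by_cases hs : s l i
        · rw [if_pos hl, if_pos hs, if_pos ⟨hi, hl, hs⟩]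
        · rw [if_pos hl, if_neg hs, if_neg (fun h => hs h.2.2)]
      · rw [if_neg hl, if_neg (fun h => hl h.2.1)]
    · intro l
      split_ifs
      · exact degree_dig hφ _ _
      · rw [degree_zero, degree_eq_natDegree hφ.ne_zero]
        exact WithBot.bot_lt_coe _
  · rw [if_neg hi, if_neg (fun h => hi h.1), dig_zero]

theorem part_mem {C : IntermediateField k Ω} (hφC : φ ∈ PI C) (hφ : φ.Monic) (hH : PII C H) :
    PII C (part φ s N M H) := by
  classical
  intro i
  rw [part_coeff]
  split_ifs
  · refine sum_mem fun l _ => mul_mem ?_ (pow_mem hφC l)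
    split_ifs
    · exact dig_mem hφC hφ (hH i) l
    · exact zero_mem _
  · exact zero_mem _

/-- The bounds `N`, `M` are big enough for `H`. -/
def Big (φ : Polynomial Ω) (N M : ℕ) (H : Polynomial (Polynomial Ω)) : Prop :=
  (∀ i, (H.coeff i).degree < (φ ^ N).degree) ∧ ∀ i, M ≤ i → H.coeff i = 0

theorem exists_Big (hφ : φ.Monic) (h0 : 0 < φ.natDegree) (H : Polynomial (Polynomial Ω)) :
    ∃ N M : ℕ, ∀ N' M' : ℕ, N ≤ N' → M ≤ M' → Big φ N' M' H := by
  have h1 : ∀ i, ∃ N : ℕ, (H.coeff i).degree < (φ ^ N).degree := fun i => exists_bound hφ h0 _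
  choose N hN using h1
  refine ⟨(Finset.range (H.natDegree + 1)).sup N, H.natDegree + 1, fun N' M' hN' hM' =>
    ⟨fun i => ?_, fun i hi => coeff_eq_zero_of_natDegree_lt (by omega)⟩⟩
  by_cases hi : i < H.natDegree + 1
  · have h2 : N i ≤ (Finset.range (H.natDegree + 1)).sup N :=
      Finset.le_sup (Finset.mem_range.2 hi)
    exact lt_of_lt_of_le (hN i) (degree_pow_mono hφ (h2.trans hN'))
  · rw [coeff_eq_zero_of_natDegree_lt (by omega), degree_zero,
      degree_eq_natDegree (hφ.pow _).ne_zero]
    exact WithBot.bot_lt_coe _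

theorem Big.dig_eq (hφ : φ.Monic) (h : Big φ N M H) {i l : ℕ} (hil : ¬ (i < M ∧ l < N)) :
    dig φ (H.coeff i) l = 0 := by
  by_cases hi : i < M
  · have hl : N ≤ l := by
      by_contra hl
      exact hil ⟨hi, by omega⟩
    exact dig_of_lt hφ (lt_of_lt_of_le (h.1 i) (degree_pow_mono hφ hl))
  · rw [h.2 i (by omega), dig_zero]

/-- The digits determine a polynomial. -/
theorem ext_dig (hφ : φ.Monic) (h0 : 0 < φ.natDegree) {f g : Polynomial Ω}
    (h : ∀ l, dig φ f l = dig φ g l) : f = g := by
  obtain ⟨N, hN⟩ := exists_bound hφ h0 f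
  obtain ⟨N', hN'⟩ := exists_bound hφ h0 g
  have h1 := expand_of_lt hφ (lt_of_lt_of_le hN (degree_pow_mono hφ (le_max_left N N')))
  have h2 := expand_of_lt hφ (lt_of_lt_of_le hN' (degree_pow_mono hφ (le_max_right N N')))
  rw [h1, h2]
  exact Finset.sum_congr rfl fun l _ => by rw [h l]

theorem ext_dig2 (hφ : φ.Monic) (h0 : 0 < φ.natDegree) {P Q : Polynomial (Polynomial Ω)}
    (h : ∀ i l, dig φ (P.coeff i) l = dig φ (Q.coeff i) l) : P = Q :=
  Polynomial.ext fun i => ext_dig hφ h0 (h i)

theorem part_add_part (hφ : φ.Monic) (h0 : 0 < φ.natDegree) (h : Big φ N M H) :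
    part φ s N M H + part φ (fun l i => ¬ s l i) N M H = H := by
  classical
  refine ext_dig2 hφ h0 fun i l => ?_
  rw [coeff_add, dig_add hφ, dig_part hφ, dig_part hφ]
  by_cases h1 : i < M ∧ l < N
  · by_cases h2 : s l i
    · rw [if_pos ⟨h1.1, h1.2, h2⟩, if_neg (fun h => h.2.2 h2), add_zero]
    · rw [if_neg (fun h => h2 h.2.2), if_pos ⟨h1.1, h1.2, h2⟩, zero_add]
  · rw [if_neg (fun h => h1 ⟨h.1, h.2.1⟩), if_neg (fun h => h1 ⟨h.1, h.2.1⟩), add_zero,
      h.dig_eq hφ h1]

end Part

/-! ### Gauss bounds by digits -/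

section DTc

variable {C : IntermediateField k Ω} {v : RVal Ω} {y : Ω} {b c β lam : ℝ} {φ : Polynomial Ω}
  {H : Polynomial (Polynomial Ω)}

theorem DT.gbl_iff (h : DT v C y b φ β) (hH : PII C H) : GBL v y b c lam H ↔
    ∀ i l : ℕ, v.Ge (lam - l * β - i * c) ((dig φ (H.coeff i) l).eval y) := by
  constructor
  · intro h1 i l
    exact ((h.iff _ (hH i) _).1 (h1 i) l).mono (by linarith)
  · intro h1 i
    refine (h.iff _ (hH i) _).2 fun l => (h1 i l).mono (by linarith)

theorem DT.gbl_part (h : DT v C y b φ β) (hH : PII C H) {s : ℕ → ℕ → Prop} {N M : ℕ}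
    (h1 : ∀ i l : ℕ, s l i → v.Ge (lam - l * β - i * c) ((dig φ (H.coeff i) l).eval y)) :
    GBL v y b c lam (part φ s N M H) := by
  classical
  rw [h.gbl_iff (part_mem h.mem h.mon hH)]
  intro i l
  rw [dig_part h.mon]
  split_ifs with h2
  · exact h1 i l h2.2.2
  · rw [eval_zero]
    exact RVal.Ge.zero

end DTc

/-! ### The ideal of relative order -/

section Jid

/-- The ideal of the polynomials all whose monomials `φ ^ l T ^ i` are of relative order `> S`. -/
noncomputable def Jid (p : ℕ) (φ : Polynomial Ω) (S : ℕ) : Ideal (Polynomial (Polynomial Ω)) :=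
  Ideal.span {P | ∃ l i : ℕ, S < ord2 p l i ∧ P = Polynomial.C φ ^ l * Polynomial.X ^ i}

/-- The exponent of `φ` in the coefficient of index `i`. -/
def mS (p S i : ℕ) : ℕ := if p ∣ i ∧ p ∣ S + 1 - i then S + 1 - i else S + 2 - i

theorem mS_succ (p S i : ℕ) : mS p S (i + 1) ≤ mS p S i := by
  unfold mS
  split_ifs <;> omega

theorem mS_anti (p S : ℕ) {i j : ℕ} (h : i ≤ j) : mS p S j ≤ mS p S i := by
  induction j, h using Nat.le_induction with
  | base => exact le_rfl
  | succ j _ ih => exact (mS_succ p S j).trans ih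

theorem ord2_ge (p l i : ℕ) : l + i - 1 ≤ ord2 p l i := by
  unfold ord2
  split_ifs <;> omega

theorem mS_le {p S l i : ℕ} (h : S < ord2 p l i) : mS p S i ≤ l := by
  unfold ord2 at h
  unfold mS
  by_cases h1 : p ∣ l ∧ p ∣ i
  · rw [if_pos h1] at h
    by_cases h2 : S + 1 = l + i
    · have h3 : S + 1 - i = l := by omega
      rw [h3, if_pos ⟨h1.2, h1.1⟩]
    · split_ifs <;> omega
  · rw [if_neg h1] at h
    split_ifs <;> omega

theorem lt_mS {p S l i : ℕ} (h : ord2 p l i ≤ S) : l < mS p S i := by
  unfold ord2 at h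
  unfold mS
  by_cases h1 : p ∣ l ∧ p ∣ i
  · rw [if_pos h1] at h
    split_ifs <;> omega
  · rw [if_neg h1] at h
    by_cases h2 : p ∣ i ∧ p ∣ S + 1 - i
    · rw [if_pos h2]
      have h3 : l ≤ S + 1 - i := by omega
      rcases Nat.lt_or_ge l (S + 1 - i) with h4 | h4
      · exact h4
      · have h5 : l = S + 1 - i := by omega
        exact absurd ⟨h5 ▸ h2.2, h2.1⟩ h1
    · rw [if_neg h2]
      omega

variable {p : ℕ} {φ : Polynomial Ω} {S : ℕ} {P : Polynomial (Polynomial Ω)}

theorem mono_mem {l i : ℕ} (h : S < ord2 p l i) (Q : Polynomial (Polynomial Ω)) :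
    Q * (Polynomial.C φ ^ l * Polynomial.X ^ i) ∈ Jid p φ S :=
  Ideal.mul_mem_left _ _ (Ideal.subset_span ⟨l, i, h, rfl⟩)

/-- The coefficients of the elements of the ideal. -/
theorem Jid_dvd (h : P ∈ Jid p φ S) (i : ℕ) : φ ^ mS p S i ∣ P.coeff i := by
  have key : ∀ P ∈ Jid p φ S, ∀ i, φ ^ mS p S i ∣ P.coeff i := by
    intro P hP
    induction hP using Submodule.span_induction with
    | mem P hP =>
      obtain ⟨l, i, h1, rfl⟩ := hP
      intro j
      rw [← C_pow, coeff_C_mul_X_pow]
      split_ifs with h2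
      · subst h2
        exact pow_dvd_pow _ (mS_le h1)
      · exact dvd_zero _
    | zero =>
      intro i
      rw [coeff_zero]
      exact dvd_zero _
    | add P Q _ _ hP hQ =>
      intro i
      rw [coeff_add]
      exact dvd_add (hP i) (hQ i)
    | smul Q P _ hP =>
      intro i
      rw [smul_eq_mul, coeff_mul]
      refine Finset.dvd_sum fun x hx => ?_
      have hx' : x.1 + x.2 = i := by simpa using hx
      exact dvd_mul_of_dvd_right ((pow_dvd_pow _ (mS_anti p S (by omega))).trans (hP x.2)) _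
  exact key P h i

/-- The digits of relative order `≤ S` of the elements of the ideal are zero. -/
theorem Jid_dig (hφ : φ.Monic) (h : P ∈ Jid p φ S) {l i : ℕ} (hli : ord2 p l i ≤ S) :
    dig φ (P.coeff i) l = 0 :=
  dig_of_dvd hφ (Jid_dvd h i) (lt_mS hli)

/-- A part with digits of relative order `> S`. -/
theorem part_mem_Jid {s : ℕ → ℕ → Prop} {N M : ℕ} (hs : ∀ l i, s l i → S < ord2 p l i)
    (H : Polynomial (Polynomial Ω)) : part φ s N M H ∈ Jid p φ S := by
  classical
  unfold part
  refine sum_mem fun i _ => ?_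
  rw [map_sum, Finset.sum_mul]
  refine sum_mem fun l _ => ?_
  split_ifs with h
  · have h1 := mono_mem (φ := φ) (hs l i h) (Polynomial.C (dig φ (H.coeff i) l))
    have h2 : Polynomial.C (dig φ (H.coeff i) l * φ ^ l) *
        (Polynomial.X : Polynomial (Polynomial Ω)) ^ i =
        Polynomial.C (dig φ (H.coeff i) l) * (Polynomial.C φ ^ l * Polynomial.X ^ i) := by
      rw [Polynomial.C_mul, Polynomial.C_pow, mul_assoc]
    rw [h2]
    exact h1
  · rw [zero_mul, map_zero, zero_mul]
    exact zero_mem _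

/-- Change of the centre by a multiple of `φ`. -/
theorem Jid_taylor [hp : Fact p.Prime] [CharP Ω p] {θ : Polynomial Ω} (hθ : φ ∣ θ)
    (h : P ∈ Jid p φ S) : taylor θ P ∈ Jid p φ S := by
  obtain ⟨ψ, rfl⟩ := hθ
  have key : ∀ P ∈ Jid p φ S, taylor (φ * ψ) P ∈ Jid p φ S := by
    intro P hP
    induction hP using Submodule.span_induction with
    | mem P hP =>
      obtain ⟨l, i, h1, rfl⟩ := hP
      have h2 : taylor (φ * ψ) (Polynomial.C φ ^ l * Polynomial.X ^ i) =
          Polynomial.C φ ^ l * (Polynomial.X + Polynomial.C (φ * ψ)) ^ i := by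
        rw [taylor_mul, ← C_pow, taylor_C, C_pow]
        congr 1
        rw [taylor_apply, pow_comp, X_comp]
      rw [h2]
      by_cases h3 : S + 2 ≤ l + i
      · rw [add_pow, Finset.mul_sum]
        refine sum_mem fun j hj => ?_
        have hj' : j ≤ i := by
          have := Finset.mem_range.1 hj
          omega
        have h4 : S < ord2 p (l + (i - j)) j := by
          have := ord2_ge p (l + (i - j)) j
          omega
        have h5 := mono_mem (φ := φ) h4 (Polynomial.C ψ ^ (i - j) *
          ((i.choose j : ℕ) : Polynomial (Polynomial Ω)))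
        have h6 : Polynomial.C φ ^ l * (Polynomial.X ^ j * Polynomial.C (φ * ψ) ^ (i - j) *
            ((i.choose j : ℕ) : Polynomial (Polynomial Ω))) =
            Polynomial.C ψ ^ (i - j) * ((i.choose j : ℕ) : Polynomial (Polynomial Ω)) *
              (Polynomial.C φ ^ (l + (i - j)) * Polynomial.X ^ j) := by
          rw [Polynomial.C_mul, mul_pow, pow_add]
          ring
        rw [h6]
        exact h5
      · have h4 : p ∣ l ∧ p ∣ i := by
          by_contra h4
          unfold ord2 at h1
          rw [if_neg h4] at h1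
          omega
        have h5 : ord2 p l i = l + i := by
          unfold ord2
          rw [if_pos h4]
        obtain ⟨i', rfl⟩ := h4.2
        rw [pow_mul, add_pow_char (Polynomial.X : Polynomial (Polynomial Ω))
          (Polynomial.C (φ * ψ)) p, add_pow, Finset.mul_sum]
        refine sum_mem fun j hj => ?_
        have hj' : j ≤ i' := by
          have := Finset.mem_range.1 hj
          omega
        have h6 : S < ord2 p (l + p * (i' - j)) (p * j) := by
          unfold ord2
          rw [if_pos ⟨dvd_add h4.1 (dvd_mul_right _ _), dvd_mul_right _ _⟩]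
          have h7 : p * (i' - j) + p * j = p * i' := by
            rw [← mul_add, Nat.sub_add_cancel hj']
          omega
        have h8 := mono_mem (φ := φ) h6 (Polynomial.C ψ ^ (p * (i' - j)) *
          ((i'.choose j : ℕ) : Polynomial (Polynomial Ω)))
        have h9 : Polynomial.C φ ^ l * ((Polynomial.X ^ p) ^ j *
            (Polynomial.C (φ * ψ) ^ p) ^ (i' - j) *
            ((i'.choose j : ℕ) : Polynomial (Polynomial Ω))) =
            Polynomial.C ψ ^ (p * (i' - j)) * ((i'.choose j : ℕ) : Polynomial (Polynomial Ω)) *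
              (Polynomial.C φ ^ (l + p * (i' - j)) * Polynomial.X ^ (p * j)) := by
          rw [Polynomial.C_mul, ← pow_mul, ← pow_mul, mul_pow, pow_add]
          ring
        rw [h9]
        exact h8
    | zero =>
      rw [map_zero]
      exact zero_mem _
    | add P Q _ _ hP hQ =>
      rw [map_add]
      exact add_mem hP hQ
    | smul Q P _ hP =>
      rw [smul_eq_mul, taylor_mul]
      exact Ideal.mul_mem_left _ _ hP
  exact key P h

end Jid

end Pool.Agent.TWJ2
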