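import Pool.Agent.Lib.TWJ2.LevDT
import Pool.Agent.Lib.TWJ2.Splice

/-!
# TANK W, ROW J: right of a jump level where the distance to the `p`-th powers increases
-/

set_option autoImplicit false

open Polynomial

namespace Pool.Agent.TWJ2

open Pool.Agent.H15JM (RVal)
open Pool.Agent.TWM (PI PII Gt GB)
open Pool.Agent.TWJ2.Dg

universe u

variable {k Ω : Type u} [Field k] [Field Ω] [Algebra k Ω]
  {C : IntermediateField k Ω} {v : RVal Ω} {y : Ω} {b b₁ w β L ρ : ℝ} {φ f g₀ : Polynomial Ω}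
  {p : ℕ}

/-- At the level `b₁`, for every `g` a digit `l < p` of `f - g ^ p` has value `≤ L`. -/
theorem DT.low_digit [hp : Fact p.Prime] [CharP Ω p] (h : DT v C y b₁ φ β) (hf : f ∈ PI C)
    (hL : ∀ e : ℝ, 0 < e → ∀ g ∈ PI C, ¬ GB v b₁ (L + e) (taylor y (f - g ^ p)))
    (hρ : 0 < ρ) (hg₀ : g₀ ∈ PI C)
    (hhi : ∀ l : ℕ, p ≤ l → v.Ge (L + ρ - l * β) ((dig φ (f - g₀ ^ p) l).eval y))
    {g : Polynomial Ω} (hg : g ∈ PI C) :
    ∃ l < p, (dig φ (f - g ^ p) l).eval y ≠ 0 ∧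
      v ((dig φ (f - g ^ p) l).eval y) ≤ L - l * β := by
  classical
  by_contra hcon
  push Not at hcon
  -- a common gain
  have key : ∀ n : ℕ, n ≤ p → ∃ e : ℝ, 0 < e ∧ e ≤ ρ ∧ ∀ l < n,
      v.Ge (L + e - l * β) ((dig φ (f - g ^ p) l).eval y) := by
    intro n
    induction n with
    | zero => exact fun _ => ⟨ρ, hρ, le_rfl, fun l hl => absurd hl (Nat.not_lt_zero l)⟩
    | succ n ih =>
      intro hn
      obtain ⟨e, he, heρ, h1⟩ := ih (by omega)
      by_cases h0 : (dig φ (f - g ^ p) n).eval y = 0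
      · refine ⟨e, he, heρ, fun l hl => ?_⟩
        rcases Nat.lt_succ_iff_lt_or_eq.1 hl with h2 | h2
        · exact h1 l h2
        · rw [h2, h0]
          exact RVal.Ge.zero
      · have h3 := hcon n (by omega) h0
        refine ⟨min e (v ((dig φ (f - g ^ p) n).eval y) - (L - n * β)),
          lt_min he (sub_pos.2 h3), (min_le_left _ _).trans heρ, fun l hl => ?_⟩
        rcases Nat.lt_succ_iff_lt_or_eq.1 hl with h2 | h2
        · refine (h1 l h2).mono ?_
          have := min_le_left e (v ((dig φ (f - g ^ p) n).eval y) - (L - n * β))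
          linarith
        · rw [h2]
          intro _
          have := min_le_right e (v ((dig φ (f - g ^ p) n).eval y) - (L - n * β))
          linarith
  obtain ⟨e, he, heρ, h1⟩ := key p le_rfl
  have hS : splice φ 1 g g₀ ∈ PI C := splice_mem h.mem h.mon 1 hg hg₀
  refine hL e he _ hS ((h.iff _ (sub_mem hf (pow_mem hS p)) _).2 fun l => ?_)
  rw [dig_splice_sub_pow h.mon h.pos, mul_one]
  split_ifs with h2
  · exact h1 l h2
  · exact (hhi l (not_lt.1 h2)).mono (by linarith)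

/-- The digits `l ≥ p` from a level `b < b₁` where the distance is not smaller than `L`. -/
theorem LCd.exists_high [hp : Fact p.Prime] {m : ℝ} (hl : LCd v C y b b₁ φ m)
    (h : DT v C y b₁ φ β) (hf : f ∈ PI C)
    (hlo : ∀ ε : ℝ, 0 < ε → ∃ g ∈ PI C, GB v b (L - ε) (taylor y (f - g ^ p))) :
    ∃ ρ : ℝ, 0 < ρ ∧ ∃ g₀ ∈ PI C, ∀ l : ℕ, p ≤ l →
      v.Ge (L + ρ - l * β) ((dig φ (f - g₀ ^ p) l).eval y) := by
  have hp0 : (0 : ℝ) < p := by exact_mod_cast hp.out.pos
  have h1 : 0 < (p : ℝ) * m * (b₁ - b) := mul_pos (mul_pos hp0 hl.pos) (sub_pos.2 hl.lt)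
  obtain ⟨g, hg, h2⟩ := hlo ((p : ℝ) * m * (b₁ - b) / 2) (half_pos h1)
  refine ⟨(p : ℝ) * m * (b₁ - b) / 2, half_pos h1, g, hg, fun l hpl => ?_⟩
  exact (hl.high h (sub_mem hf (pow_mem hg p)) h2 p l hpl).mono (by linarith)

/-- **Right of a jump level where the distance to the `p`-th powers increases.** -/
theorem jmp [hp : Fact p.Prime] [CharP Ω p] (hw : b₁ < w)
    (hDT : ∀ b : ℝ, b₁ ≤ b → b ≤ w → DT v C y b φ (gval v y b φ)) (hf : f ∈ PI C)
    (hL : ∀ e : ℝ, 0 < e → ∀ g ∈ PI C, ¬ GB v b₁ (L + e) (taylor y (f - g ^ p)))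
    (hρ : 0 < ρ) (hg₀ : g₀ ∈ PI C)
    (hhi : ∀ l : ℕ, p ≤ l → v.Ge (L + ρ - l * gval v y b₁ φ) ((dig φ (f - g₀ ^ p) l).eval y))
    (hup : ∀ b : ℝ, b₁ < b → b ≤ w → ∃ e : ℝ, 0 < e ∧ ∃ g ∈ PI C,
      GB v b (L + e) (taylor y (f - g ^ p))) {t : ℝ} (ht : 0 < t) :
    ∃ b b' κ κ' : ℝ, b₁ < b ∧ b < b' ∧ b' ≤ w ∧ b < b₁ + t ∧ L < κ ∧ κ < L + t ∧ κ < κ' ∧
      (∀ ε : ℝ, 0 < ε → ∃ g ∈ PI C, GB v b (κ - ε) (taylor y (f - g ^ p))) ∧
      (∀ e : ℝ, 0 < e → ∀ g ∈ PI C, ∃ l < p,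
        ¬ v.Ge (κ + e - l * gval v y b φ) ((dig φ (f - g ^ p) l).eval y)) ∧
      ∃ g ∈ PI C, GB v b' κ' (taylor y (f - g ^ p)) := by
  classical
  have hp1 : (1 : ℝ) ≤ p := by exact_mod_cast hp.out.one_le
  obtain ⟨e', he', g', hg', hGB'⟩ := hup w hw le_rfl
  -- `b`
  obtain ⟨d, hd0, hd⟩ : ∃ d : ℝ, 0 < d ∧ ∀ b, b₁ ≤ b → b < b₁ + d →
      (p : ℝ) * (gval v y b φ - gval v y b₁ φ) < min t e' := by
    have hn : (0 : ℝ) < (φ.natDegree : ℝ) + 1 := by positivity
    have hm : 0 < min t e' := lt_min ht he'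
    refine ⟨min t e' / (p * ((φ.natDegree : ℝ) + 1)), by positivity, fun b hb hb' => ?_⟩
    have h1 := gval_up_deg (v := v) (y := y) (f := φ) hb
    have h2 : b - b₁ < min t e' / (p * ((φ.natDegree : ℝ) + 1)) := by linarith
    rw [lt_div_iff₀ (by positivity)] at h2
    have h3 : gval v y b φ - gval v y b₁ φ ≤ ((φ.natDegree : ℝ) + 1) * (b - b₁) := by
      have : (0 : ℝ) ≤ b - b₁ := by linarith
      nlinarith
    calc (p : ℝ) * (gval v y b φ - gval v y b₁ φ)
        ≤ p * (((φ.natDegree : ℝ) + 1) * (b - b₁)) := mul_le_mul_of_nonneg_left h3 (by linarith)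
      _ = (b - b₁) * (p * ((φ.natDegree : ℝ) + 1)) := by ring
      _ < min t e' := h2
  set b : ℝ := b₁ + min (min d t) (w - b₁) / 2 with hb
  have hmpos : 0 < min (min d t) (w - b₁) := lt_min (lt_min hd0 ht) (sub_pos.2 hw)
  have hb1 : b₁ < b := by rw [hb]; linarith
  have hbw : b < w := by
    have := min_le_right (min d t) (w - b₁)
    rw [hb]
    linarith
  have hbd : b < b₁ + d := by
    have := (min_le_left (min d t) (w - b₁)).trans (min_le_left d t)
    rw [hb]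
    linarith
  have hbt : b < b₁ + t := by
    have := (min_le_left (min d t) (w - b₁)).trans (min_le_right d t)
    rw [hb]
    linarith
  have h1 := hDT b₁ le_rfl hw.le
  have hB := hDT b hb1.le hbw.le
  have hlow := hd b hb1.le hbd
  have hβ : gval v y b₁ φ ≤ gval v y b φ := gval_mono hb1.le
  -- upper bound for the distance at `b`
  set U : ℝ := L + ((p : ℝ) - 1) * (gval v y b φ - gval v y b₁ φ) with hU
  have hub : ∀ lam : ℝ, (∃ g ∈ PI C, GB v b lam (taylor y (f - g ^ p))) → lam ≤ U := by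
    rintro lam ⟨g, hg, h2⟩
    obtain ⟨l, hl, h3, h4⟩ := h1.low_digit hf hL hρ hg₀ hhi hg
    have h5 := (hB.iff _ (sub_mem hf (pow_mem hg p)) _).1 h2 l h3
    have h6 : (l : ℝ) ≤ p - 1 := by
      have : l + 1 ≤ p := hl
      have : ((l : ℝ) + 1) ≤ p := by exact_mod_cast this
      linarith
    have h7 : (l : ℝ) * (gval v y b φ - gval v y b₁ φ) ≤
        ((p : ℝ) - 1) * (gval v y b φ - gval v y b₁ φ) :=
      mul_le_mul_of_nonneg_right h6 (by linarith)
    rw [hU]
    linarith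
  obtain ⟨e₁, he₁, g₁, hg₁, hGB₁⟩ := hup b hb1 hbw.le
  set X : Set ℝ := {lam | ∃ g ∈ PI C, GB v b lam (taylor y (f - g ^ p))} with hX
  have hne : X.Nonempty := ⟨L + e₁, g₁, hg₁, hGB₁⟩
  have hbdd : BddAbove X := ⟨U, fun lam hlam => hub lam hlam⟩
  set κ : ℝ := sSup X with hκ
  have hκU : κ ≤ U := csSup_le hne fun lam hlam => hub lam hlam
  have hκL : L < κ := by
    have := le_csSup hbdd (show L + e₁ ∈ X from ⟨g₁, hg₁, hGB₁⟩)
    linarith
  have hUt : U < L + min t e' := by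
    rw [hU]
    have : ((p : ℝ) - 1) * (gval v y b φ - gval v y b₁ φ) ≤
        (p : ℝ) * (gval v y b φ - gval v y b₁ φ) :=
      mul_le_mul_of_nonneg_right (by linarith) (by linarith)
    linarith
  refine ⟨b, w, κ, L + e', hb1, hbw, le_rfl, hbt, hκL, ?_, ?_, fun ε hε => ?_,
    fun e he g hg => ?_, g', hg', hGB'⟩
  · have := min_le_left t e'
    linarith
  · have := min_le_right t e'
    linarith
  · obtain ⟨lam, ⟨g, hg, h2⟩, h3⟩ := exists_lt_of_lt_csSup hne (show κ - ε < sSup X by linarith)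
    exact ⟨g, hg, h2.mono h3.le⟩
  · by_contra hcon
    push Not at hcon
    -- the splice is too good
    have hS : splice φ 1 g g₀ ∈ PI C := splice_mem hB.mem hB.mon 1 hg hg₀
    have hUk : κ < L + ρ + p * (gval v y b φ - gval v y b₁ φ) := by
      rw [hU] at hκU
      nlinarith
    set m : ℝ := min (κ + e) (L + ρ + p * (gval v y b φ - gval v y b₁ φ)) with hm
    have hmX : m ∈ X := by
      refine ⟨_, hS, (hB.iff _ (sub_mem hf (pow_mem hS p)) _).2 fun l => ?_⟩
      rw [dig_splice_sub_pow hB.mon hB.pos, mul_one]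
      split_ifs with h2
      · exact (hcon l h2).mono (by
          have := min_le_left (κ + e) (L + ρ + p * (gval v y b φ - gval v y b₁ φ))
          linarith)
      · have h3 : (p : ℝ) ≤ l := by exact_mod_cast not_lt.1 h2
        refine (hhi l (not_lt.1 h2)).mono ?_
        have h4 := min_le_right (κ + e) (L + ρ + p * (gval v y b φ - gval v y b₁ φ))
        have h5 : (p : ℝ) * (gval v y b φ - gval v y b₁ φ) ≤
            l * (gval v y b φ - gval v y b₁ φ) := mul_le_mul_of_nonneg_right h3 (by linarith)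
        linarith
    have h2 := le_csSup hbdd hmX
    have h3 : κ < m := lt_min (by linarith) hUk
    linarith

end Pool.Agent.TWJ2
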