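import Mathlib.Analysis.Convex.Function
import Mathlib.Analysis.Convex.Basic
import Mathlib.Tactic

/-!
# TANK W, row J, soft form: LEMMA N

A chain `f 0, …, f m` of concave functions on `[u, w]` whose neighbours differ by the affine functions
`V 0, …, V (m - 1)` of increasing slopes, in the ultrametric sense: some member of the chain is at
least as good as `f 0` at `u` and at least as good as `f m` at `w`.
-/

set_option autoImplicit false

namespace Pool.Agent.TWJ2.LN

open Set

variable {u w : ℝ} {m : ℕ} {f V : ℕ → ℝ → ℝ} {s : ℕ → ℝ}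

/-- Near `u` two concave functions, one positive at `u`, the other nonnegative at `u` and positive at
`w`, are both positive. -/
theorem both_pos (huw : u < w) {g h : ℝ → ℝ} (hg : ConcaveOn ℝ (Icc u w) g)
    (hh : ConcaveOn ℝ (Icc u w) h) (h1 : 0 < g u) (h2 : 0 ≤ h u) (h3 : 0 < h w) :
    ∃ b ∈ Icc u w, 0 < g b ∧ 0 < h b := by
  have hu : u ∈ Icc u w := ⟨le_refl _, huw.le⟩
  have hw : w ∈ Icc u w := ⟨huw.le, le_refl _⟩
  -- a small parameter
  obtain ⟨t, ht0, ht1, ht2⟩ : ∃ t : ℝ, 0 < t ∧ t < 1 ∧ 0 < (1 - t) * g u + t * g w := by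
    rcases le_or_gt 0 (g w) with hgw | hgw
    · refine ⟨1 / 2, by norm_num, by norm_num, ?_⟩
      nlinarith
    · refine ⟨g u / (2 * (g u - g w)), ?_, ?_, ?_⟩
      · apply div_pos h1; linarith
      · rw [div_lt_one (by linarith)]; linarith
      · have h4 : (1 - g u / (2 * (g u - g w))) * g u + g u / (2 * (g u - g w)) * g w = g u / 2 := by
          have h5 : (g u - g w) ≠ 0 := by linarith
          field_simp
          ring
        rw [h4]; linarith
  have hb := (convex_Icc u w) hu hw (by linarith : (0:ℝ) ≤ 1 - t) ht0.le (by ring)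
  refine ⟨_, hb, ?_, ?_⟩
  · have h6 := hg.2 hu hw (by linarith : (0:ℝ) ≤ 1 - t) ht0.le (by ring)
    simp only [smul_eq_mul] at h6 ⊢
    linarith
  · have h6 := hh.2 hu hw (by linarith : (0:ℝ) ≤ 1 - t) ht0.le (by ring)
    simp only [smul_eq_mul] at h6 ⊢
    nlinarith [mul_nonneg (by linarith : (0:ℝ) ≤ 1 - t) h2, mul_pos ht0 h3]

/-- The same with the ends exchanged. -/
theorem both_pos' (huw : u < w) {g h : ℝ → ℝ} (hg : ConcaveOn ℝ (Icc u w) g)
    (hh : ConcaveOn ℝ (Icc u w) h) (h1 : 0 < g w) (h2 : 0 ≤ h w) (h3 : 0 < h u) :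
    ∃ b ∈ Icc u w, 0 < g b ∧ 0 < h b := by
  have hu : u ∈ Icc u w := ⟨le_refl _, huw.le⟩
  have hw : w ∈ Icc u w := ⟨huw.le, le_refl _⟩
  obtain ⟨t, ht0, ht1, ht2⟩ : ∃ t : ℝ, 0 < t ∧ t < 1 ∧ 0 < (1 - t) * g w + t * g u := by
    rcases le_or_gt 0 (g u) with hgw | hgw
    · refine ⟨1 / 2, by norm_num, by norm_num, ?_⟩
      nlinarith
    · refine ⟨g w / (2 * (g w - g u)), ?_, ?_, ?_⟩
      · apply div_pos h1; linarith
      · rw [div_lt_one (by linarith)]; linarith
      · have h4 : (1 - g w / (2 * (g w - g u))) * g w + g w / (2 * (g w - g u)) * g u = g w / 2 := by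
          have h5 : (g w - g u) ≠ 0 := by linarith
          field_simp
          ring
        rw [h4]; linarith
  have hb := (convex_Icc u w) hu hw ht0.le (by linarith : (0:ℝ) ≤ 1 - t) (by ring)
  refine ⟨_, hb, ?_, ?_⟩
  · have h6 := hg.2 hu hw ht0.le (by linarith : (0:ℝ) ≤ 1 - t) (by ring)
    simp only [smul_eq_mul] at h6 ⊢
    linarith
  · have h6 := hh.2 hu hw ht0.le (by linarith : (0:ℝ) ≤ 1 - t) (by ring)
    simp only [smul_eq_mul] at h6 ⊢
    nlinarith [mul_nonneg (by linarith : (0:ℝ) ≤ 1 - t) h2, mul_pos ht0 h3]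

/-- An affine function is convex. -/
theorem aff_conv {W : ℝ → ℝ} {c : ℝ} (hV : ∀ b ∈ Icc u w, W b = W u + c * (b - u)) :
    ConvexOn ℝ (Icc u w) W := by
  refine ⟨convex_Icc u w, ?_⟩
  intro x hx y hy a b ha hb hab
  have h := (convex_Icc u w) hx hy ha hb hab
  rw [hV _ h, hV x hx, hV y hy]
  simp only [smul_eq_mul]
  have h3 : a * (W u + c * (x - u)) + b * (W u + c * (y - u)) =
      (a + b) * W u + c * (a * x + b * y - (a + b) * u) := by ring
  rw [h3, hab, one_mul, one_mul]

/-- **LEMMA N.** -/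
theorem lemN (huw : u < w)
    (hs : ∀ i j, i < j → j < m → s i < s j)
    (hV : ∀ t < m, ∀ b ∈ Icc u w, V t b = V t u + s t * (b - u))
    (hf : ∀ L ≤ m, ConcaveOn ℝ (Icc u w) (f L))
    (h1 : ∀ L L', L < L' → L' ≤ m → ∀ b ∈ Icc u w, ∀ c, c ≤ f L b →
      (∀ t, L ≤ t → t < L' → c ≤ V t b) → c ≤ f L' b)
    (h2 : ∀ L L', L < L' → L' ≤ m → ∀ b ∈ Icc u w, ∀ c, c ≤ f L' b →
      (∀ t, L ≤ t → t < L' → c ≤ V t b) → c ≤ f L b)
    (h3 : ∀ L L', L < L' → L' ≤ m → ∀ b ∈ Icc u w, ∀ t, L ≤ t → t < L' →
      min (f L b) (f L' b) ≤ V t b) :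
    ∃ L ≤ m, f 0 u ≤ f L u ∧ f m w ≤ f L w := by
  classical
  have hu : u ∈ Icc u w := ⟨le_refl _, huw.le⟩
  have hw : w ∈ Icc u w := ⟨huw.le, le_refl _⟩
  by_contra hno
  push Not at hno
  -- neighbours
  have hd : ∀ L < m, f (L + 1) u < f L u → V L u ≤ f (L + 1) u ∧ f (L + 1) w ≤ V L w := by
    intro L hL hlt
    have h4 : V L u ≤ f (L + 1) u := by
      by_contra hcon
      push Not at hcon
      have h5 := h1 L (L + 1) (by omega) (by omega) u hu (min (f L u) (V L u)) (min_le_left _ _)
        (fun t ht ht' => by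
          obtain rfl : t = L := by omega
          exact min_le_right _ _)
      rcases min_le_iff.1 h5 with h6 | h6 <;> linarith
    refine ⟨h4, ?_⟩
    by_contra hcon
    push Not at hcon
    obtain ⟨b, hb, h6, h7⟩ := both_pos huw ((hf L (by omega)).sub (aff_conv (hV L hL)))
      ((hf (L + 1) (by omega)).sub (aff_conv (hV L hL)))
      (by simp only [Pi.sub_apply]; linarith) (by simp only [Pi.sub_apply]; linarith)
      (by simp only [Pi.sub_apply]; linarith)
    simp only [Pi.sub_apply] at h6 h7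
    have h8 := h3 L (L + 1) (by omega) (by omega) b hb L (le_refl _) (by omega)
    rcases min_le_iff.1 h8 with h9 | h9 <;> linarith
  have hr : ∀ L < m, f L w < f (L + 1) w → V L w ≤ f L w ∧ f L u ≤ V L u := by
    intro L hL hlt
    have h4 : V L w ≤ f L w := by
      by_contra hcon
      push Not at hcon
      have h5 := h2 L (L + 1) (by omega) (by omega) w hw (min (f (L + 1) w) (V L w))
        (min_le_left _ _)
        (fun t ht ht' => by
          obtain rfl : t = L := by omega
          exact min_le_right _ _)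
      rcases min_le_iff.1 h5 with h6 | h6 <;> linarith
    refine ⟨h4, ?_⟩
    by_contra hcon
    push Not at hcon
    obtain ⟨b, hb, h6, h7⟩ := both_pos' huw ((hf (L + 1) (by omega)).sub (aff_conv (hV L hL)))
      ((hf L (by omega)).sub (aff_conv (hV L hL)))
      (by simp only [Pi.sub_apply]; linarith) (by simp only [Pi.sub_apply]; linarith)
      (by simp only [Pi.sub_apply]; linarith)
    simp only [Pi.sub_apply] at h6 h7
    have h8 := h3 L (L + 1) (by omega) (by omega) b hb L (le_refl _) (by omega)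
    rcases min_le_iff.1 h8 with h9 | h9 <;> linarith
  -- a nearest pair
  have hm0 : 0 < m := by
    by_contra h
    obtain rfl : m = 0 := by omega
    exact absurd (hno 0 (le_refl _) (le_refl _)) (lt_irrefl _)
  have hex : ∃ d : ℕ, ∃ i j : ℕ, i + d = j ∧ i < j ∧ j ≤ m ∧ f 0 u ≤ f i u ∧ f m w ≤ f j w :=
    ⟨m, 0, m, by omega, hm0, le_refl _, le_refl _, le_refl _⟩
  obtain ⟨i, j, hij, hlt, hjm, hi, hj⟩ := Nat.find_spec hex
  have hmin : ∀ i' j' : ℕ, i' < j' → j' - i' < j - i → j' ≤ m → f 0 u ≤ f i' u → f m w ≤ f j' w →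
      False := by
    intro i' j' h4 h5 h6 h7 h8
    refine Nat.find_min hex (m := j' - i') (by omega) ⟨i', j', by omega, h4, h6, h7, h8⟩
  have hA : ∀ L, i < L → L ≤ j → f L u < f i u := by
    intro L hL hL'
    by_contra hcon
    push Not at hcon
    have h4 : f 0 u ≤ f L u := hi.trans hcon
    rcases Nat.lt_or_ge L j with h5 | h5
    · exact hmin L j h5 (by omega) hjm h4 hj
    · obtain rfl : L = j := by omega
      exact absurd (hno L hjm h4) (not_lt.2 hj)
  have hB : ∀ L, i ≤ L → L < j → f L w < f j w := by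
    intro L hL hL'
    by_contra hcon
    push Not at hcon
    have h4 : f m w ≤ f L w := hj.trans hcon
    rcases Nat.lt_or_ge i L with h5 | h5
    · exact hmin i L h5 (by omega) (by omega) hi h4
    · obtain rfl : L = i := by omega
      exact absurd (hno L (by omega) hi) (not_lt.2 h4)
  -- monotonicity
  have hA1 : ∀ L, i < L → L ≤ j → ∀ t, i ≤ t → t < L → f L u ≤ V t u := by
    intro L hL hL' t ht ht'
    have h4 := h3 i L hL (by omega) u hu t ht ht'
    rwa [min_eq_right (hA L hL hL').le] at h4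
  have hB1 : ∀ L, i ≤ L → L < j → ∀ t, L ≤ t → t < j → f L w ≤ V t w := by
    intro L hL hL' t ht ht'
    have h4 := h3 L j hL' hjm w hw t ht ht'
    rwa [min_eq_left (hB L hL hL').le] at h4
  have hmonA : ∀ L, i < L → L < j → f (L + 1) u ≤ f L u := by
    intro L hL hL'
    refine h1 i L hL (by omega) u hu _ (hA (L + 1) (by omega) (by omega)).le ?_
    intro t ht ht'
    exact hA1 (L + 1) (by omega) (by omega) t ht (by omega)
  have hmonB : ∀ L, i ≤ L → L + 1 < j → f L w ≤ f (L + 1) w := by
    intro L hL hL'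
    refine h2 (L + 1) j hL' hjm w hw _ (hB L hL (by omega)).le ?_
    intro t ht ht'
    exact hB1 L hL (by omega) t (by omega) ht'
  -- the first rise at `w`
  have hex2 : ∃ L : ℕ, i ≤ L ∧ L < j ∧ f L w < f (L + 1) w := by
    by_contra hcon
    push Not at hcon
    have h4 : ∀ d, i + d ≤ j → f (i + d) w ≤ f i w := by
      intro d
      induction d with
      | zero => intro _; simp
      | succ d ih =>
        intro hdj
        have := hcon (i + d) (by omega) (by omega)
        rw [← add_assoc]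
        exact this.trans (ih (by omega))
    have h5 := h4 (j - i) (by omega)
    rw [show i + (j - i) = j by omega] at h5
    exact absurd (hB i (le_refl _) hlt) (not_lt.2 h5)
  obtain ⟨hj1, hj2, hj3⟩ := Nat.find_spec hex2
  set j' := Nat.find hex2 with hj'
  have hjmin : ∀ L, i ≤ L → L < j' → f (L + 1) w ≤ f L w := by
    intro L hL hL'
    have := Nat.find_min hex2 hL'
    push Not at this
    exact this hL (by omega)
  have hQ : ∀ L, i ≤ L → L < j' → f L w = f (L + 1) w := by
    intro L hL hL'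
    exact le_antisymm (hmonB L hL (by omega)) (hjmin L hL hL')
  have hdropi : f (i + 1) u < f i u := hA (i + 1) (by omega) (by omega)
  have hij' : i < j' := by
    rcases Nat.lt_or_ge i j' with h | h
    · exact h
    exfalso
    have h4 : j' = i := by omega
    rw [h4] at hj3
    have h5 := (hd i (by omega) hdropi).2
    have h6 := h2 i (i + 1) (by omega) (by omega) w hw (f (i + 1) w) (le_refl _) (fun t ht ht' => by
      obtain rfl : t = i := by omega
      exact h5)
    linarith
  -- the last drop at `u` before `j'`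
  have hex3 : ∃ e : ℕ, ∃ L : ℕ, L + e + 1 = j' ∧ i ≤ L ∧ f (L + 1) u < f L u :=
    ⟨j' - 1 - i, i, by omega, le_refl _, hdropi⟩
  obtain ⟨i', hi1, hi2, hi3⟩ := Nat.find_spec hex3
  have himin : ∀ L, i' < L → L < j' → f L u ≤ f (L + 1) u := by
    intro L hL hL'
    by_contra hcon
    push Not at hcon
    exact Nat.find_min hex3 (m := j' - 1 - L) (by omega) ⟨L, by omega, by omega, hcon⟩
  have hi'j : i' < j' := by omega
  have hP : ∀ d, i' + 1 + d ≤ j' → f (i' + 1 + d) u = f (i' + 1) u := by
    intro d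
    induction d with
    | zero => intro _; rfl
    | succ d ih =>
      intro hdj
      rw [← ih (by omega), ← add_assoc]
      exact le_antisymm (hmonA _ (by omega) (by omega)) (himin _ (by omega) (by omega))
  have hQ2 : ∀ d, i' + 1 + d ≤ j' → f (i' + 1 + d) w = f (i' + 1) w := by
    intro d
    induction d with
    | zero => intro _; rfl
    | succ d ih =>
      intro hdj
      rw [← ih (by omega), ← add_assoc]
      exact (hQ _ (by omega) (by omega)).symm
  have hP' : f j' u = f (i' + 1) u := by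
    have := hP (j' - (i' + 1)) (by omega)
    rwa [show i' + 1 + (j' - (i' + 1)) = j' by omega] at this
  have hQ' : f j' w = f (i' + 1) w := by
    have := hQ2 (j' - (i' + 1)) (by omega)
    rwa [show i' + 1 + (j' - (i' + 1)) = j' by omega] at this
  obtain ⟨h5, h6⟩ := hd i' (by omega) hi3
  obtain ⟨h7, h8⟩ := hr j' (by omega) hj3
  have h9 := hs i' j' hi'j (by omega)
  have h10 := hV i' (by omega) w hw
  have h11 := hV j' (by omega) w hw
  have h12 : s i' * (w - u) < s j' * (w - u) := mul_lt_mul_of_pos_right h9 (by linarith)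
  linarith

end Pool.Agent.TWJ2.LN
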