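import Pool.Agent.Lib.TWJ2.BP
import Pool.Agent.Lib.TWJ2.Soft1

/-!
# TANK W, ROW J, SOFT J: (MU) in terms of `Cj` and `DG`
-/

set_option autoImplicit false

open Polynomial

namespace Pool.Agent.TWJ2.Soft

open Pool.Agent.H15JM (RVal)
open Pool.Agent.TWM (PI PII Gt GB)

universe u

variable {k Ω : Type u} [Field k] [Field Ω] [Algebra k Ω] {p : ℕ} [hp : Fact p.Prime]
  [CharP Ω p] {v : RVal Ω} {N : IntermediateField k Ω} {y η : Ω} {b lam κ : ℝ}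
  {G ρ : Polynomial Ω}

omit hp [CharP Ω p] in
/-- The numbers of roots. -/
theorem cnt_of_cj [IsAlgClosed Ω] (hN : Cj v N) (x : ℝ) : Cnt v N y x :=
  fun a ha hya G hG hG0 => by
  have h := count hN ha hya hG hG0
  rw [Nat.mul_comm (ncl v y x (mp N a))] at h
  exact h

/-- **(MU)** Multiplication by a `p`-th power. -/
theorem mu [IsAlgClosed Ω] (hN : Cj v N) (hη : IsAlgebraic N η) (hb : v.Ge b (y - η))
    (hG : G ∈ PI N) (hρ : ρ ∈ PI N) (hρ0 : ρ ≠ 0) (h : DG p v N y b lam (G * ρ ^ p)) :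
    DG p v N y b (lam - p * gval v y b ρ) G :=
  MUp.all (cnt_of_cj hN b) hη hb hρ hρ0 G hG lam h

/-- **(MU)**, as an equivalence. -/
theorem mu_iff [IsAlgClosed Ω] (hN : Cj v N) (hη : IsAlgebraic N η) (hb : v.Ge b (y - η))
    (hG : G ∈ PI N) (hρ : ρ ∈ PI N) (hρ0 : ρ ≠ 0) :
    DG p v N y b (lam + p * gval v y b ρ) (G * ρ ^ p) ↔ DG p v N y b lam G :=
  DGe.mul_pow_iff (cnt_of_cj hN b) hη hb hG hρ hρ0

end Pool.Agent.TWJ2.Soft
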