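import Pool.Agent.Lib.TWC.TightW
import Pool.Agent.Lib.TWCT.Defs
import Pool.Agent.Lib.TWCT.Red
import Pool.Agent.Lib.TWX.Ext

/-!
# TANK W, row J.8 over an infinite base: near inclusions

`M` locally discrete, `D` a derivation of `M` with `D τ = τ` which lowers the values by at most `δ`.

* `two_maps`: two isometric embeddings which are near at `ξ` are near on the closure of `k(ξ)`;
* `taylor_maps`: the first order term of the difference is given by `D`;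
* `eq_of_tau`: uniqueness; `exists_root`: existence (Newton);
* `exists_near_incl`: if every element of `M` has a near element in the closed field `C`, there is an
  isometric embedding of `M` in `C` which is near to the identity.
-/

set_option autoImplicit false

open Polynomial IntermediateField

namespace Pool.Agent.TWJ2

open Pool.Agent.H15JM (RVal)
open Pool.Agent.LU1 (VPos adj)
open Pool.Agent.D2 (Ctx0)
open Pool.Agent.D2P (hen clI mem_clI mem_adj_self)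
open Pool.Agent.TWM
open Pool.Agent.TWS (IsoE IsoL SphC)
open Pool.Agent.TWC (lau lau_mem lau_ge le_of_lau_ge exists_lau)
open Pool.Agent.TWCT (StrM LD)

universe u

variable {k Ω : Type u} [Field k] [Field Ω] [Algebra k Ω] {v : RVal Ω} {Φ Ψ : Ω →ₐ[k] Ω}
  {M C : IntermediateField k Ω} {ξ τ : Ω} {γ δ κ : ℝ}

/-- The distances to the constants. -/
theorem val_sub_const (hk : Ctx0 k v) (hξ : ξ ≠ 0) (hξv : v ξ ≠ 0) (c : k) :
    ξ - algebraMap k Ω c ≠ 0 ∧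
      v (ξ - algebraMap k Ω c) = (open Classical in if c = 0 then v ξ else min (v ξ) 0) := by
  classical
  by_cases hc : c = 0
  · rw [hc, map_zero, sub_zero, if_pos rfl]
    exact ⟨hξ, rfl⟩
  rw [if_neg hc]
  have h4 : v (algebraMap k Ω c) = 0 := hk.triv c hc
  have h5 : algebraMap k Ω c ≠ 0 := by rwa [Ne, _root_.map_eq_zero]
  rcases lt_or_gt_of_ne hξv with h6 | h6
  · have h7 := v.add_of_lt hξ (neg_ne_zero.2 h5) (by rw [v.map_neg _ h5, h4]; exact h6)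
    rw [← sub_eq_add_neg] at h7
    rw [min_eq_left h6.le]
    exact h7
  · have h7 := v.add_of_lt (neg_ne_zero.2 h5) hξ (by rw [v.map_neg _ h5, h4]; exact h6)
    have e : -algebraMap k Ω c + ξ = ξ - algebraMap k Ω c := by ring
    rw [e, v.map_neg _ h5, h4] at h7
    rw [min_eq_right h6.le]
    exact h7

/-- An isometric embedding with a prescribed image of `ξ`. -/
theorem exists_iso [IsAlgClosed k] [IsAlgClosed Ω] (hk : Ctx0 k v) (hw : SphC v)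
    (hval : ∀ ρ : ℝ, ∃ x : Ω, x ≠ 0 ∧ v x = ρ) (hξ : ξ ≠ 0) (hξv : v ξ ≠ 0) {z : Ω}
    (hz : z ≠ 0) (hzv : v z = v ξ) : ∃ Φ : Ω →ₐ[k] Ω, IsoE v v Φ ∧ Φ ξ = z := by
  have hcst : ∀ a : Ω, IsAlgebraic (⊥ : IntermediateField k Ω) a →
      ∃ c : k, algebraMap k Ω c = a := by
    intro a ha
    have h3 : IsAlgebraic k a := by
      have : Algebra.IsAlgebraic k (⊥ : IntermediateField k Ω) := inferInstance
      exact ha.restrictScalars k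
    exact minpoly.mem_range_of_degree_eq_one k a
      (IsAlgClosed.degree_eq_one_of_irreducible k (minpoly.irreducible h3.isIntegral))
  have hid : IsoE v v (AlgHom.id k Ω) := ⟨fun a _ => rfl⟩
  obtain ⟨Φ, h1, -, h2⟩ := hid.exists_move hk hw hval (B := (⊥ : IntermediateField k Ω))
    (z := ξ) (fun h0 => by
      obtain ⟨c, hc⟩ := hcst ξ h0
      have h1 := (val_sub_const hk hξ hξv c).1
      rw [hc, sub_self] at h1
      exact h1 rfl) (ζ := z) (fun a ha => by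
      obtain ⟨c, rfl⟩ := hcst a ha
      obtain ⟨h1, h2⟩ := val_sub_const hk hξ hξv c
      obtain ⟨h3, h4⟩ := val_sub_const hk hz (hzv ▸ hξv) c
      rw [AlgHom.id_apply]
      exact ⟨h3, by rw [h4, h2, hzv]⟩)
  exact ⟨Φ, h1, h2⟩

/-! ### Powers of units near to one -/

theorem natCast_ge (hk : Ctx0 k v) (n : ℕ) : v.Ge 0 (n : Ω) := by
  have := hk.ge (n : k)
  rwa [map_natCast] at this

theorem one_pow_ge (hk : Ctx0 k v) {w : Ω} (hw0 : v.Ge 0 w) (hw : v.Ge γ (w - 1))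
    (j : ℕ) : v.Ge γ (w ^ j - 1) ∧ v.Ge (2 * γ) (w ^ j - 1 - j * (w - 1)) := by
  induction j with
  | zero =>
    rw [pow_zero, sub_self, Nat.cast_zero, zero_mul, sub_zero]
    exact ⟨RVal.Ge.zero, RVal.Ge.zero⟩
  | succ j ih =>
    constructor
    · have e : w ^ (j + 1) - 1 = w * (w ^ j - 1) + (w - 1) := by ring
      rw [e]
      exact ((hw0.mul ih.1).mono (by linarith)).add hw
    · have e : w ^ (j + 1) - 1 - ((j + 1 : ℕ) : Ω) * (w - 1) =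
          w * (w ^ j - 1 - j * (w - 1)) + (j : Ω) * ((w - 1) * (w - 1)) := by
        push_cast
        ring
      rw [e]
      exact ((hw0.mul ih.2).mono (by linarith)).add
        (((natCast_ge hk j).mul (hw.mul hw)).mono (by linarith))

theorem one_zpow_ge (hk : Ctx0 k v) {w : Ω} (hw0 : w ≠ 0) (hwv : v w = 0)
    (hw : v.Ge γ (w - 1)) (j : ℤ) :
    v.Ge γ (w ^ j - 1) ∧ v.Ge (2 * γ) (w ^ j - 1 - j * (w - 1)) := by
  have hi0 : v.Ge 0 w⁻¹ := fun _ => by rw [v.map_inv hw0, hwv, neg_zero]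
  have hi : v.Ge γ (w⁻¹ - 1) := by
    have e : w⁻¹ - 1 = -(w⁻¹ * (w - 1)) := by
      field_simp
      ring
    rw [e]
    exact ((hi0.mul hw).mono (by linarith)).neg
  cases j with
  | ofNat n =>
    rw [Int.ofNat_eq_natCast, zpow_natCast, Int.cast_natCast]
    exact one_pow_ge hk (fun _ => hwv.ge) hw n
  | negSucc n =>
    rw [zpow_negSucc, ← inv_pow]
    obtain ⟨h1, h2⟩ := one_pow_ge hk hi0 hi (n + 1)
    refine ⟨h1, ?_⟩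
    have e : w⁻¹ ^ (n + 1) - 1 - ((Int.negSucc n : ℤ) : Ω) * (w - 1) =
        (w⁻¹ ^ (n + 1) - 1 - ((n + 1 : ℕ) : Ω) * (w⁻¹ - 1)) +
          ((n + 1 : ℕ) : Ω) * (w⁻¹ * ((w - 1) * (w - 1))) := by
      rw [Int.cast_negSucc]
      field_simp
      ring
    rw [e]
    exact h2.add (((natCast_ge hk (n + 1)).mul (hi0.mul (hw.mul hw))).mono (by linarith))

/-! ### Two embeddings -/

theorem lau_map (Φ : Ω →ₐ[k] Ω) (z : Ω) (F : Finset ℤ) (a : ℤ → k) :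
    Φ (lau z F a) = lau (Φ z) F a := by
  rw [lau, map_sum, lau]
  refine Finset.sum_congr rfl fun j _ => ?_
  rw [map_mul, map_zpow₀, Φ.commutes]

/-- The quotient of the images of `ξ`. -/
theorem quot_ge (hΦ : IsoE v v Φ) (hΨ : IsoE v v Ψ) (hξ : ξ ≠ 0)
    (h : v.Ge (v ξ + γ) (Ψ ξ - Φ ξ)) :
    Ψ ξ / Φ ξ ≠ 0 ∧ v (Ψ ξ / Φ ξ) = 0 ∧ v.Ge γ (Ψ ξ / Φ ξ - 1) := by
  have h1 : Φ ξ ≠ 0 := IsoE.ne_zero hξ
  have h2 : Ψ ξ ≠ 0 := IsoE.ne_zero hξ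
  refine ⟨div_ne_zero h2 h1, by rw [v.map_div h2 h1, hΦ.val ξ hξ, hΨ.val ξ hξ, sub_self], ?_⟩
  have e : Ψ ξ / Φ ξ - 1 = (Ψ ξ - Φ ξ) / Φ ξ := by
    field_simp
  rw [e]
  intro h3
  have h4 : Ψ ξ - Φ ξ ≠ 0 := fun h0 => h3 (by rw [h0, zero_div])
  rw [v.map_div h4 h1, hΦ.val ξ hξ]
  have := h h4
  linarith

/-- Linear combinations of terms. -/
theorem sum_ge_of_lau (hk : Ctx0 k v) (hξ : ξ ≠ 0) (hξv : 0 < v ξ) {F : Finset ℤ} {a : ℤ → k}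
    {r g : ℝ} (h : v.Ge r (lau ξ F a)) {f : ℤ → Ω}
    (hf : ∀ j ∈ F, v.Ge ((j : ℝ) * v ξ + g) (f j)) :
    v.Ge (r + g) (∑ j ∈ F, algebraMap k Ω (a j) * f j) := by
  refine RVal.Ge.sum _ _ fun j hj => ?_
  by_cases ha : a j = 0
  · rw [ha, map_zero, zero_mul]
    exact RVal.Ge.zero
  · have h1 := le_of_lau_ge hk hξ hξv h hj ha
    exact (RVal.Ge.mul (hk.ge (a j)) (hf j hj)).mono (by linarith)

theorem lau_two (hk : Ctx0 k v) (hΦ : IsoE v v Φ) (hΨ : IsoE v v Ψ) (hξ : ξ ≠ 0)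
    (hξv : 0 < v ξ) (h : v.Ge (v ξ + γ) (Ψ ξ - Φ ξ)) {F : Finset ℤ} {a : ℤ → k}
    {r : ℝ} (hr : v.Ge r (lau ξ F a)) :
    v.Ge (r + γ) (Ψ (lau ξ F a) - Φ (lau ξ F a)) ∧
      v.Ge (r + 2 * γ) (Ψ (lau ξ F a) - Φ (lau ξ F a) -
        (Ψ ξ / Φ ξ - 1) * Φ (lau ξ F fun j => (j : k) * a j)) := by
  obtain ⟨h1, h2, h3⟩ := quot_ge hΦ hΨ hξ h
  have h4 : Φ ξ ≠ 0 := IsoE.ne_zero hξ
  have hpow : ∀ j : ℤ, v.Ge ((j : ℝ) * v ξ) (Φ ξ ^ j) := fun j _ => by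
    rw [v.map_zpow h4, hΦ.val ξ hξ]
  have hquot : ∀ j : ℤ, Ψ ξ ^ j = Φ ξ ^ j * (Ψ ξ / Φ ξ) ^ j := fun j => by
    rw [← mul_zpow, mul_div_cancel₀ _ h4]
  rw [lau_map, lau_map, lau_map]
  constructor
  · have e : lau (Ψ ξ) F a - lau (Φ ξ) F a =
        ∑ j ∈ F, algebraMap k Ω (a j) * (Φ ξ ^ j * ((Ψ ξ / Φ ξ) ^ j - 1)) := by
      rw [lau, lau, ← Finset.sum_sub_distrib]
      refine Finset.sum_congr rfl fun j _ => ?_
      rw [hquot j]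
      ring
    rw [e]
    exact sum_ge_of_lau hk hξ hξv hr fun j _ => (hpow j).mul (one_zpow_ge hk h1 h2 h3 j).1
  · have e : lau (Ψ ξ) F a - lau (Φ ξ) F a -
        (Ψ ξ / Φ ξ - 1) * lau (Φ ξ) F (fun j => (j : k) * a j) =
        ∑ j ∈ F, algebraMap k Ω (a j) * (Φ ξ ^ j *
          ((Ψ ξ / Φ ξ) ^ j - 1 - j * (Ψ ξ / Φ ξ - 1))) := by
      rw [lau, lau, lau, ← Finset.sum_sub_distrib, Finset.mul_sum, ← Finset.sum_sub_distrib]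
      refine Finset.sum_congr rfl fun j _ => ?_
      rw [hquot j, map_mul, map_intCast]
      ring
    rw [e]
    exact sum_ge_of_lau hk hξ hξv hr fun j _ => (hpow j).mul (one_zpow_ge hk h1 h2 h3 j).2

/-- **Two isometric embeddings.** -/
theorem two_maps (hk : Ctx0 k v) (hΦ : IsoE v v Φ) (hΨ : IsoE v v Ψ) (hξ : ξ ≠ 0)
    (hξv : 0 < v ξ) (hγ : 0 ≤ γ) (h : v.Ge (v ξ + γ) (Ψ ξ - Φ ξ)) {a : Ω}
    (ha : a ∈ cadj v (⊥ : IntermediateField k Ω) ξ) {r : ℝ} (hr : v.Ge r a) :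
    v.Ge (r + γ) (Ψ a - Φ a) := by
  obtain ⟨F, c, h1⟩ := exists_lau hk hξ hξv ha (r + γ)
  have h2 : v.Ge r (lau ξ F c) := by
    have h3 := hr.sub (h1.mono (by linarith : r ≤ r + γ))
    rwa [sub_sub_cancel] at h3
  have h3 := (lau_two hk hΦ hΨ hξ hξv h h2).1
  have e : Ψ a - Φ a = (Ψ (lau ξ F c) - Φ (lau ξ F c)) +
      (Ψ (a - lau ξ F c) - Φ (a - lau ξ F c)) := by
    rw [map_sub, map_sub]
    ring
  rw [e]
  exact h3.add ((hΨ.ge_iff.2 h1).sub (hΦ.ge_iff.2 h1))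

/-- Two isometric embeddings which agree at `ξ`. -/
theorem eq_on_cadj (hk : Ctx0 k v) (hΦ : IsoE v v Φ) (hΨ : IsoE v v Ψ) (hξ : ξ ≠ 0)
    (hξv : 0 < v ξ) (h : Ψ ξ = Φ ξ) {a : Ω} (ha : a ∈ cadj v (⊥ : IntermediateField k Ω) ξ) :
    Ψ a = Φ a := by
  by_contra hne
  have h0 : Ψ a - Φ a ≠ 0 := sub_ne_zero.2 hne
  have h1 := two_maps hk hΦ hΨ hξ hξv (γ := |v (Ψ a - Φ a) - v a| + 1) (by positivity)
    (by rw [h, sub_self]; exact RVal.Ge.zero) ha (RVal.ge_self (v := v) a)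
  have h2 := h1 h0
  have := le_abs_self (v (Ψ a - Φ a) - v a)
  linarith

/-- The image of the closure of `k(ξ)`. -/
theorem map_mem_of (hΦ : IsoE v v Φ) (hC : Cld v C) (h : Φ ξ ∈ C) {a : Ω}
    (ha : a ∈ cadj v (⊥ : IntermediateField k Ω) ξ) : Φ a ∈ C := by
  refine hC (mem_clI.2 fun c => ?_)
  obtain ⟨b, hb, h1⟩ := (mem_clI.1 ha) c
  refine ⟨Φ b, ?_, ?_⟩
  · have h2 : adj (⊥ : IntermediateField k Ω) ξ ≤ C.comap Φ := D2P.adj_le bot_le h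
    exact h2 hb
  · have h2 : v.Ge c (a - b) := h1
    have h3 := hΦ.ge_iff.2 h2
    rwa [map_sub] at h3

/-! ### Normalized derivations -/

/-- A derivation of `M`, normalized at `τ`, which lowers the values by at most `δ`. -/
structure Nrm (v : RVal Ω) (M : IntermediateField k Ω) (τ : Ω) (δ : ℝ)
    (D : Derivation k M Ω) : Prop where
  mem : τ ∈ M
  ne : τ ≠ 0
  tau : D ⟨τ, mem⟩ = τ
  ge : ∀ (a : M) (r : ℝ), v.Ge r (a : Ω) → v.Ge (r - δ) (D a)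

/-- The derivation of a Laurent polynomial. -/
theorem der_lau (D : Derivation k M Ω) (hξM : ξ ∈ M) (hξ : ξ ≠ 0) (F : Finset ℤ) (c : ℤ → k) :
    D ⟨lau ξ F c, lau_mem hξM F c⟩ =
      D ⟨ξ, hξM⟩ * ξ⁻¹ * lau ξ F fun j => (j : k) * c j := by
  have e : (⟨lau ξ F c, lau_mem hξM F c⟩ : M) =
      ∑ j ∈ F, algebraMap k M (c j) * (⟨ξ, hξM⟩ : M) ^ j := by
    refine Subtype.ext ?_
    push_cast
    rfl
  rw [e, map_sum, lau, Finset.mul_sum]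
  refine Finset.sum_congr rfl fun j _ => ?_
  rw [Derivation.leibniz, Derivation.map_algebraMap, smul_zero, add_zero,
    Derivation.leibniz_zpow]
  have e1 : (⟨ξ, hξM⟩ : M) ^ (j - 1) • D ⟨ξ, hξM⟩ = ξ ^ (j - 1) * D ⟨ξ, hξM⟩ := by
    change ((((⟨ξ, hξM⟩ : M) ^ (j - 1) : M)) : Ω) * D ⟨ξ, hξM⟩ = _
    rfl
  rw [e1]
  change algebraMap k Ω (c j) * (j • (ξ ^ (j - 1) * D ⟨ξ, hξM⟩)) = _
  rw [zsmul_eq_mul, zpow_sub_one₀ hξ, map_mul, map_intCast]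
  ring

section Nrm

variable {D : Derivation k M Ω}

theorem Nrm.der_near (N : Nrm v M τ δ D) (hξM : ξ ∈ M) (hξ : ξ ≠ 0) {a : Ω} (haM : a ∈ M)
    {F : Finset ℤ} {c : ℤ → k} {R : ℝ} (h : v.Ge R (a - lau ξ F c)) :
    v.Ge (R - δ) (D ⟨a, haM⟩ - D ⟨ξ, hξM⟩ * ξ⁻¹ * lau ξ F fun j => (j : k) * c j) := by
  have h1 := N.ge (⟨a, haM⟩ - ⟨lau ξ F c, lau_mem hξM F c⟩) R h
  rwa [map_sub, der_lau D hξM hξ] at h1

/-- The logarithmic derivative of `ξ`. -/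
theorem Nrm.u_ne (hk : Ctx0 k v) (N : Nrm v M τ δ D) (hξM : ξ ∈ M) (hξ : ξ ≠ 0)
    (hξv : 0 < v ξ) (hτ : τ ∈ cadj v (⊥ : IntermediateField k Ω) ξ) :
    D ⟨ξ, hξM⟩ * ξ⁻¹ ≠ 0 ∧ -δ ≤ v (D ⟨ξ, hξM⟩ * ξ⁻¹) := by
  have h0 : D ⟨ξ, hξM⟩ ≠ 0 := by
    intro h0
    obtain ⟨F, c, h1⟩ := exists_lau hk hξ hξv hτ (v τ + 1 + δ)
    have h2 := N.der_near hξM hξ N.mem h1
    rw [N.tau, h0, zero_mul, zero_mul, sub_zero] at h2
    have := h2 N.ne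
    linarith
  refine ⟨mul_ne_zero h0 (inv_ne_zero hξ), ?_⟩
  rw [v.map_mul h0 (inv_ne_zero hξ), v.map_inv hξ]
  have h1 := N.ge ⟨ξ, hξM⟩ (v ξ) (RVal.ge_self ξ) h0
  linarith

/-- The derivative of `τ` with respect to `ξ`. -/
theorem Nrm.quot_near (hk : Ctx0 k v) (N : Nrm v M τ δ D) (hξM : ξ ∈ M) (hξ : ξ ≠ 0)
    (hξv : 0 < v ξ) (hτ : τ ∈ cadj v (⊥ : IntermediateField k Ω) ξ) {F : Finset ℤ} {c : ℤ → k}
    {R : ℝ} (h : v.Ge R (τ - lau ξ F c)) :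
    v.Ge (R - δ - v (D ⟨ξ, hξM⟩ * ξ⁻¹))
      (τ / (D ⟨ξ, hξM⟩ * ξ⁻¹) - lau ξ F fun j => (j : k) * c j) := by
  obtain ⟨hu, -⟩ := N.u_ne hk hξM hξ hξv hτ
  have h1 := N.der_near hξM hξ N.mem h
  rw [N.tau] at h1
  set u := D ⟨ξ, hξM⟩ * ξ⁻¹ with hudef
  have e : τ / u - lau ξ F (fun j => (j : k) * c j) =
      (τ - u * lau ξ F fun j => (j : k) * c j) / u := by
    field_simp
  rw [e]
  intro h2
  have h3 : τ - u * lau ξ F (fun j => (j : k) * c j) ≠ 0 := fun h0 => h2 (by rw [h0, zero_div])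
  rw [v.map_div h3 hu]
  have := h1 h3
  linarith

theorem Nrm.quot_mem (hk : Ctx0 k v) (N : Nrm v M τ δ D) (hξM : ξ ∈ M) (hξ : ξ ≠ 0)
    (hξv : 0 < v ξ) (hτ : τ ∈ cadj v (⊥ : IntermediateField k Ω) ξ) :
    τ / (D ⟨ξ, hξM⟩ * ξ⁻¹) ∈ cadj v (⊥ : IntermediateField k Ω) ξ := by
  refine mem_clI.2 fun b => ?_
  obtain ⟨F, c, h1⟩ := exists_lau hk hξ hξv hτ (b + δ + v (D ⟨ξ, hξM⟩ * ξ⁻¹))
  refine ⟨lau ξ F fun j => (j : k) * c j, lau_mem (mem_adj_self _ _).1 F _, ?_⟩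
  have h2 := N.quot_near hk hξM hξ hξv hτ h1
  have h3 : v.Ge b (τ / (D ⟨ξ, hξM⟩ * ξ⁻¹) - lau ξ F fun j => (j : k) * c j) :=
    h2.mono (by linarith)
  exact h3

/-- **The first order term.** -/
theorem Nrm.taylor (hk : Ctx0 k v) (N : Nrm v M τ δ D) (hξM : ξ ∈ M) (hξ : ξ ≠ 0)
    (hξv : 0 < v ξ) (hτ : τ ∈ cadj v (⊥ : IntermediateField k Ω) ξ) (hΦ : IsoE v v Φ)
    (hΨ : IsoE v v Ψ) (hγ : 0 ≤ γ) (h : v.Ge (v ξ + γ) (Ψ ξ - Φ ξ)) :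
    v.Ge (v τ + 2 * γ)
      (Ψ τ - Φ τ - (Ψ ξ / Φ ξ - 1) * Φ (τ / (D ⟨ξ, hξM⟩ * ξ⁻¹))) := by
  set u := D ⟨ξ, hξM⟩ * ξ⁻¹ with hudef
  obtain ⟨F, c, h1⟩ := exists_lau hk hξ hξv hτ (max (v τ + 2 * γ) (v τ + 2 * γ + δ + v u))
  have h2 : v.Ge (v τ + 2 * γ) (τ - lau ξ F c) := h1.mono (le_max_left _ _)
  have h3 : v.Ge (v τ + 2 * γ) (τ / u - lau ξ F fun j => (j : k) * c j) := by
    refine (N.quot_near hk hξM hξ hξv hτ h1).mono ?_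
    have := le_max_right (v τ + 2 * γ) (v τ + 2 * γ + δ + v u)
    rw [← hudef]
    linarith
  have h4 : v.Ge (v τ) (lau ξ F c) := by
    have h5 := (RVal.ge_self (v := v) τ).sub (h2.mono (by linarith : v τ ≤ v τ + 2 * γ))
    rwa [sub_sub_cancel] at h5
  have h5 := (lau_two hk hΦ hΨ hξ hξv h h4).2
  obtain ⟨-, -, h6⟩ := quot_ge hΦ hΨ hξ h
  have e : Ψ τ - Φ τ - (Ψ ξ / Φ ξ - 1) * Φ (τ / u) =
      (Ψ (lau ξ F c) - Φ (lau ξ F c) - (Ψ ξ / Φ ξ - 1) * Φ (lau ξ F fun j => (j : k) * c j)) +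
        ((Ψ (τ - lau ξ F c) - Φ (τ - lau ξ F c)) -
          (Ψ ξ / Φ ξ - 1) * Φ (τ / u - lau ξ F fun j => (j : k) * c j)) := by
    simp only [map_sub]
    ring
  rw [e]
  refine h5.add (RVal.Ge.sub ((hΨ.ge_iff.2 h2).sub (hΦ.ge_iff.2 h2)) ?_)
  exact (h6.mul (hΦ.ge_iff.2 h3)).mono (by linarith)

/-- The value of the derivative. -/
theorem Nrm.val_quot (hk : Ctx0 k v) (N : Nrm v M τ δ D) (hξM : ξ ∈ M) (hξ : ξ ≠ 0)
    (hξv : 0 < v ξ) (hτ : τ ∈ cadj v (⊥ : IntermediateField k Ω) ξ) (hΦ : IsoE v v Φ) :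
    Φ (τ / (D ⟨ξ, hξM⟩ * ξ⁻¹)) ≠ 0 ∧ v (Φ (τ / (D ⟨ξ, hξM⟩ * ξ⁻¹))) ≤ v τ + δ := by
  obtain ⟨hu, hv⟩ := N.u_ne hk hξM hξ hξv hτ
  have h1 := div_ne_zero N.ne hu
  refine ⟨IsoE.ne_zero h1, ?_⟩
  rw [hΦ.val _ h1, v.map_div N.ne hu]
  linarith

/-- **Uniqueness.** -/
theorem Nrm.eq_of_tau (hk : Ctx0 k v) (N : Nrm v M τ δ D) (hδ : 0 ≤ δ) (hξM : ξ ∈ M)
    (hξ : ξ ≠ 0) (hξv : 0 < v ξ) (hτ : τ ∈ cadj v (⊥ : IntermediateField k Ω) ξ)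
    (hΦ : IsoE v v Φ) (hΨ : IsoE v v Ψ) (hγ : δ < γ) (h : v.Ge (v ξ + γ) (Ψ ξ - Φ ξ))
    (hτ' : Ψ τ = Φ τ) : Ψ ξ = Φ ξ := by
  by_contra hne
  have h0 : Ψ ξ - Φ ξ ≠ 0 := sub_ne_zero.2 hne
  have h1 := h h0
  have hΦξ : Φ ξ ≠ 0 := IsoE.ne_zero hξ
  have h2 := N.taylor hk hξM hξ hξv hτ hΦ hΨ (γ := v (Ψ ξ - Φ ξ) - v ξ) (by linarith)
    (by
      intro _
      linarith)
  obtain ⟨h3, h4⟩ := N.val_quot hk hξM hξ hξv hτ hΦ
  have e : Ψ ξ / Φ ξ - 1 = (Ψ ξ - Φ ξ) / Φ ξ := by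
    field_simp
  have h5 : (Ψ ξ - Φ ξ) / Φ ξ ≠ 0 := div_ne_zero h0 hΦξ
  rw [hτ', sub_self, zero_sub, e] at h2
  have h6 := h2 (neg_ne_zero.2 (mul_ne_zero h5 h3))
  rw [v.map_neg _ (mul_ne_zero h5 h3), v.map_mul h5 h3, v.map_div h0 hΦξ, hΦ.val ξ hξ] at h6
  linarith

variable [IsAlgClosed k] [IsAlgClosed Ω]

/-- **One Newton step.** -/
theorem Nrm.improve (hk : Ctx0 k v) (hw : SphC v) (hval : ∀ ρ : ℝ, ∃ x : Ω, x ≠ 0 ∧ v x = ρ)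
    (N : Nrm v M τ δ D) (hξM : ξ ∈ M) (hξ : ξ ≠ 0) (hξv : 0 < v ξ)
    (hτ : τ ∈ cadj v (⊥ : IntermediateField k Ω) ξ) (hC : Cld v C) (hΦ : IsoE v v Φ)
    (hΦC : Φ ξ ∈ C) {σ : Ω} (hσ : σ ∈ C) {l : ℝ} (hl : 0 < l - δ)
    (h : v.Ge (v τ + l) (σ - Φ τ)) :
    ∃ Ψ : Ω →ₐ[k] Ω, IsoE v v Ψ ∧ Ψ ξ ∈ C ∧ v.Ge (v ξ + (l - δ)) (Ψ ξ - Φ ξ) ∧
      v.Ge (v τ + 2 * (l - δ)) (σ - Ψ τ) := by
  obtain ⟨h1, h2⟩ := N.val_quot hk hξM hξ hξv hτ hΦ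
  have hm := map_mem_of hΦ hC hΦC (N.quot_mem hk hξM hξ hξv hτ)
  have hτC := map_mem_of hΦ hC hΦC hτ
  have hΦξ : Φ ξ ≠ 0 := IsoE.ne_zero hξ
  set q := Φ (τ / (D ⟨ξ, hξM⟩ * ξ⁻¹)) with hq
  set ε := (σ - Φ τ) / q with hε
  have hεge : v.Ge (l - δ) ε := by
    intro h3
    have h4 : σ - Φ τ ≠ 0 := fun h0 => h3 (by rw [hε, h0, zero_div])
    rw [hε, v.map_div h4 h1]
    have := h h4
    linarith
  have h1ε : 1 + ε ≠ 0 ∧ v (1 + ε) = 0 := by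
    by_cases hε0 : ε = 0
    · rw [hε0, add_zero]
      exact ⟨one_ne_zero, v.map_one⟩
    · have h3 := v.add_of_lt (one_ne_zero) hε0 (by
        rw [v.map_one]
        exact hl.trans_le (hεge hε0))
      rw [v.map_one] at h3
      exact h3
  obtain ⟨Ψ, hΨ, hΨξ⟩ := exists_iso hk hw hval hξ hξv.ne' (z := Φ ξ * (1 + ε))
    (mul_ne_zero hΦξ h1ε.1) (by rw [v.map_mul hΦξ h1ε.1, h1ε.2, add_zero, hΦ.val ξ hξ])
  have hd : v.Ge (v ξ + (l - δ)) (Ψ ξ - Φ ξ) := by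
    have e : Ψ ξ - Φ ξ = Φ ξ * ε := by
      rw [hΨξ]
      ring
    rw [e, ← hΦ.val ξ hξ]
    exact (RVal.ge_self (v := v) (Φ ξ)).mul hεge
  refine ⟨Ψ, hΨ, ?_, hd, ?_⟩
  · rw [hΨξ]
    exact mul_mem hΦC (add_mem (one_mem _) (div_mem (sub_mem hσ hτC) hm))
  · have h3 := N.taylor hk hξM hξ hξv hτ hΦ hΨ hl.le hd
    rw [← hq] at h3
    have e : Ψ τ - Φ τ - (Ψ ξ / Φ ξ - 1) * q = -(σ - Ψ τ) := by
      have h4 : Ψ ξ / Φ ξ - 1 = ε := by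
        rw [hΨξ, mul_div_cancel_left₀ _ hΦξ, add_sub_cancel_left]
      rw [h4, hε, div_mul_cancel₀ _ h1]
      ring
    rw [e] at h3
    have h4 := h3.neg
    rwa [neg_neg] at h4

omit [IsAlgClosed k] [IsAlgClosed Ω] in
/-- An element near to `ξ`. -/
theorem val_of_near' (hξ : ξ ≠ 0) {z : Ω} (hγ : 0 < γ) (h : v.Ge (v ξ + γ) (z - ξ)) :
    z ≠ 0 ∧ v z = v ξ := by
  by_cases h0 : z - ξ = 0
  · rw [sub_eq_zero.1 h0]
    exact ⟨hξ, rfl⟩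
  · have h1 := v.add_of_lt hξ h0 (by linarith [h h0])
    rwa [add_sub_cancel] at h1

/-- **Existence.** -/
theorem Nrm.exists_root (hk : Ctx0 k v) (hw : SphC v)
    (hval : ∀ ρ : ℝ, ∃ x : Ω, x ≠ 0 ∧ v x = ρ) (N : Nrm v M τ δ D) (hδ : 0 ≤ δ)
    (hξM : ξ ∈ M) (hξ : ξ ≠ 0) (hξv : 0 < v ξ)
    (hτ : τ ∈ cadj v (⊥ : IntermediateField k Ω) ξ) (hC : Cld v C) (hκ : 2 * δ < κ) {z σ : Ω}
    (hz : z ∈ C) (hzξ : v.Ge (v ξ + κ) (z - ξ)) (hσ : σ ∈ C) (hστ : v.Ge (v τ + κ) (σ - τ)) :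
    ∃ Ψ : Ω →ₐ[k] Ω, IsoE v v Ψ ∧ Ψ ξ ∈ C ∧ Ψ τ = σ ∧ v.Ge (v ξ + (κ - δ)) (Ψ ξ - ξ) := by
  have hκ0 : 0 < κ := by linarith
  have hid : IsoE v v (AlgHom.id k Ω) := ⟨fun a _ => rfl⟩
  obtain ⟨hz0, hzv⟩ := val_of_near' hξ hκ0 hzξ
  obtain ⟨Φ₀, hΦ₀, hΦ₀ξ⟩ := exists_iso hk hw hval hξ hξv.ne' hz0 hzv
  have h0 : v.Ge (v τ + κ) (σ - Φ₀ τ) := by
    have h1 := two_maps hk hid hΦ₀ hξ hξv hκ0.le (by rw [hΦ₀ξ]; exact hzξ) hτ
      (RVal.ge_self (v := v) τ)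
    have h2 := hστ.sub h1
    rwa [AlgHom.id_apply, sub_sub_sub_cancel_right] at h2
  set μ := κ - 2 * δ with hμ
  have hμ0 : 0 < μ := by linarith
  let P : ℕ → (Ω →ₐ[k] Ω) → Prop := fun n Φ => IsoE v v Φ ∧ Φ ξ ∈ C ∧
    v.Ge (v τ + (κ + n * μ)) (σ - Φ τ)
  have hstep : ∀ n Φ, P n Φ → ∃ Ψ : Ω →ₐ[k] Ω, P (n + 1) Ψ ∧
      v.Ge (v ξ + (κ - δ + n * μ)) (Ψ ξ - Φ ξ) := by
    intro n Φ hΦ
    obtain ⟨h1, h2, h3⟩ := hΦ
    have hn : (0 : ℝ) ≤ n * μ := mul_nonneg (Nat.cast_nonneg n) hμ0.le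
    obtain ⟨Ψ, h4, h5, h6, h7⟩ := N.improve hk hw hval hξM hξ hξv hτ hC h1 h2 hσ
      (l := κ + n * μ) (by linarith) h3
    refine ⟨Ψ, ⟨h4, h5, h7.mono ?_⟩, h6.mono (by linarith)⟩
    push_cast
    linarith
  choose! g hgP hgE using hstep
  let F : ℕ → (Ω →ₐ[k] Ω) := fun n => Nat.rec Φ₀ (fun n Φ => g n Φ) n
  have hFP : ∀ n, P n (F n) := by
    intro n
    induction n with
    | zero =>
      refine ⟨hΦ₀, ?_, ?_⟩
      · change Φ₀ ξ ∈ C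
        rw [hΦ₀ξ]
        exact hz
      · rw [Nat.cast_zero, zero_mul, add_zero]
        exact h0
    | succ n ih => exact hgP n _ ih
  have hFE : ∀ n : ℕ, v.Ge (v ξ + (κ - δ + n * μ)) (F (n + 1) ξ - F n ξ) := fun n => hgE n _ (hFP n)
  have hcau : ∀ n m : ℕ, n ≤ m → v.Ge (v ξ + (κ - δ + n * μ)) (F m ξ - F n ξ) := by
    intro n m hnm
    induction m, hnm using Nat.le_induction with
    | base =>
      rw [sub_self]
      exact RVal.Ge.zero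
    | succ m hm ih =>
      have h1 : (n : ℝ) * μ ≤ m * μ := mul_le_mul_of_nonneg_right (by exact_mod_cast hm) hμ0.le
      have h2 := ((hFE m).mono (by linarith : v ξ + (κ - δ + n * μ) ≤ _)).add ih
      rwa [sub_add_sub_cancel] at h2
  obtain ⟨y, hy⟩ := hw (fun n => F n ξ) (fun n => v ξ + (κ - δ + n * μ)) hcau
  have hbig : ∀ c : ℝ, ∃ n : ℕ, c ≤ n * μ := by
    intro c
    obtain ⟨n, hn⟩ := exists_nat_ge (c / μ)
    exact ⟨n, by rwa [div_le_iff₀ hμ0] at hn⟩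
  have hyC : y ∈ C := by
    refine hC (mem_clI.2 fun c => ?_)
    obtain ⟨n, hn⟩ := hbig (c - (v ξ + (κ - δ)))
    have h1 : v.Ge c (y - F n ξ) := (hy n).mono (by linarith)
    exact ⟨F n ξ, (hFP n).2.1, h1⟩
  have hyξ : v.Ge (v ξ + (κ - δ)) (y - ξ) := by
    have h1 := hy 0
    rw [Nat.cast_zero, zero_mul, add_zero] at h1
    have h2 : v.Ge (v ξ + (κ - δ)) (F 0 ξ - ξ) := by
      change v.Ge (v ξ + (κ - δ)) (Φ₀ ξ - ξ)
      rw [hΦ₀ξ]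
      exact hzξ.mono (by linarith)
    have h3 := h1.add h2
    rwa [sub_add_sub_cancel] at h3
  obtain ⟨hy0, hyv⟩ := val_of_near' hξ (by linarith : 0 < κ - δ) hyξ
  obtain ⟨Ψ, hΨ, hΨξ⟩ := exists_iso hk hw hval hξ hξv.ne' hy0 hyv
  refine ⟨Ψ, hΨ, by rw [hΨξ]; exact hyC, ?_, by rw [hΨξ]; exact hyξ⟩
  by_contra hne
  have hne' : σ - Ψ τ ≠ 0 := sub_ne_zero.2 (Ne.symm hne)
  obtain ⟨n, hn⟩ := hbig (v (σ - Ψ τ) - v τ - (κ - δ) + 1)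
  have hn0 : (0 : ℝ) ≤ n * μ := mul_nonneg (Nat.cast_nonneg n) hμ0.le
  have h1 := two_maps hk (hFP n).1 hΨ hξ hξv (γ := κ - δ + n * μ) (by linarith)
    (by rw [hΨξ]; exact hy n) hτ (RVal.ge_self (v := v) τ)
  have h2 := ((hFP n).2.2.mono (by linarith : v τ + (κ - δ + n * μ) ≤ _)).sub h1
  rw [sub_sub_sub_cancel_right] at h2
  have := h2 hne'
  linarith

end Nrm

/-! ### The union -/

/-- A discrete field is in the closure of `k(π)`. -/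
theorem le_cadj_of_unif (hk : Ctx0 k v) {F : IntermediateField k Ω} {π : Ω} (hπ : π ∈ F)
    (hπ0 : π ≠ 0) (hπv : 0 < v π) (hF : ∀ g ∈ F, g ≠ 0 → ∃ m : ℤ, v g = m * v π) :
    F ≤ cadj v (⊥ : IntermediateField k Ω) π := by
  intro g hgF
  by_cases hg0 : g = 0
  · rw [hg0]
    exact zero_mem _
  obtain ⟨l, hl⟩ := hF g hgF hg0
  have key : ∀ n : ℕ, ∃ f ∈ F, f ∈ adj (⊥ : IntermediateField k Ω) π ∧
      v.Ge (v g + n * v π) (g - f) := by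
    intro n
    induction n with
    | zero =>
      refine ⟨0, zero_mem _, zero_mem _, ?_⟩
      rw [sub_zero, Nat.cast_zero, zero_mul, add_zero]
      exact RVal.ge_self g
    | succ n ih =>
      obtain ⟨f, hf, hfa, h1⟩ := ih
      by_cases h0 : g - f = 0
      · refine ⟨f, hf, hfa, ?_⟩
        rw [h0]
        exact RVal.Ge.zero
      obtain ⟨m, hm⟩ := hF (g - f) (sub_mem hgF hf) h0
      have hpm : π ^ m ≠ 0 := zpow_ne_zero _ hπ0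
      obtain ⟨c, -, hc⟩ := hk.res ((g - f) / π ^ m) (div_ne_zero h0 hpm) (by
        rw [v.map_div h0 hpm, v.map_zpow hπ0, hm, sub_self])
      refine ⟨f + algebraMap k Ω c * π ^ m, add_mem hf (mul_mem (F.algebraMap_mem c)
        (zpow_mem hπ m)), add_mem hfa (mul_mem ((adj _ π).algebraMap_mem c)
          (zpow_mem (mem_adj_self _ π).1 m)), fun h2 => ?_⟩
      have e : g - (f + algebraMap k Ω c * π ^ m) =
          ((g - f) / π ^ m - algebraMap k Ω c) * π ^ m := by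
        rw [sub_mul, div_mul_cancel₀ _ hpm]
        ring
      obtain ⟨m', hm'⟩ := hF _ (sub_mem hgF (add_mem hf (mul_mem (F.algebraMap_mem c)
        (zpow_mem hπ m)))) h2
      have h3 : (g - f) / π ^ m - algebraMap k Ω c ≠ 0 := fun h4 => h2 (by rw [e, h4, zero_mul])
      have h4 := hc h3
      have h5 : v (g - (f + algebraMap k Ω c * π ^ m)) =
          v ((g - f) / π ^ m - algebraMap k Ω c) + m * v π := by
        rw [e, v.map_mul h3 hpm, v.map_zpow hπ0]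
      have h6 := h1 h0
      rw [hl, hm] at h6
      have h7 : l + n ≤ m := by
        have h8 : ((l + n : ℤ) : ℝ) * v π ≤ m * v π := by
          push_cast
          linarith
        exact_mod_cast le_of_mul_le_mul_right h8 hπv
      have h8 : m < m' := by
        have h9 : (m : ℝ) * v π < m' * v π := by
          rw [← hm', h5]
          linarith
        exact_mod_cast lt_of_mul_lt_mul_right h9 hπv.le
      have h9 : (l : ℝ) + (n + 1) ≤ m' := by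
        have : l + (n + 1) ≤ m' := by omega
        exact_mod_cast this
      rw [hm', hl]
      push_cast
      nlinarith
  refine mem_clI.2 fun b => ?_
  obtain ⟨n, hn⟩ := exists_nat_ge ((b - v g) / v π)
  obtain ⟨f, -, hf, h1⟩ := key n
  rw [div_le_iff₀ hπv] at hn
  have h2 : v.Ge b (g - f) := h1.mono (by linarith)
  exact ⟨f, hf, h2⟩

/-- A finite set of elements of a locally discrete field is in the closure of some `k(ξ)`. -/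
theorem exists_stage (hk : Ctx0 k v) (hM : LD v M) (S : Finset Ω) (hS : ∀ s ∈ S, s ∈ M) :
    ∃ ξ ∈ M, ξ ≠ 0 ∧ 0 < v ξ ∧ ∀ s ∈ S, s ∈ cadj v (⊥ : IntermediateField k Ω) ξ := by
  obtain ⟨F, hFM, hSF, π, hπ, hπ0, hπv, hF⟩ := hM S hS
  exact ⟨π, hFM hπ, hπ0, hπv, fun g hg => le_cadj_of_unif hk hπ hπ0 hπv hF (hSF g hg)⟩

/-- A local embedding: a stage `ξ` and an isometric embedding `Φ` which moves it into `C`. -/
structure LEmb (v : RVal Ω) (M C : IntermediateField k Ω) (τ σ : Ω) (g : ℝ) (ξ : Ω)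
    (Φ : Ω →ₐ[k] Ω) : Prop where
  mem : ξ ∈ M
  ne : ξ ≠ 0
  pos : 0 < v ξ
  tau : τ ∈ cadj v (⊥ : IntermediateField k Ω) ξ
  iso : IsoE v v Φ
  im : Φ ξ ∈ C
  eq : Φ τ = σ
  near : v.Ge (v ξ + g) (Φ ξ - ξ)

section Union

variable {D : Derivation k M Ω} {σ : Ω} {g : ℝ}

theorem LEmb.str (hk : Ctx0 k v) (hg : 0 ≤ g) (h : LEmb v M C τ σ g ξ Φ) {a : Ω}
    (ha : a ∈ cadj v (⊥ : IntermediateField k Ω) ξ) {r : ℝ} (hr : v.Ge r a) :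
    v.Ge (r + g) (Φ a - a) :=
  two_maps hk (Φ := AlgHom.id k Ω) ⟨fun _ _ => rfl⟩ h.iso h.ne h.pos hg h.near ha hr

/-- A local embedding determines the smaller ones. -/
theorem LEmb.eq_of_le (hk : Ctx0 k v) (N : Nrm v M τ δ D) (hδ : 0 ≤ δ) (hg : δ < g) {ξ' : Ω}
    (h : LEmb v M C τ σ g ξ Φ) (h' : LEmb v M C τ σ g ξ' Ψ)
    (hξ : ξ' ∈ cadj v (⊥ : IntermediateField k Ω) ξ) {a : Ω}
    (ha : a ∈ cadj v (⊥ : IntermediateField k Ω) ξ') : Φ a = Ψ a := by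
  have h1 := h.str hk (by linarith) hξ (RVal.ge_self (v := v) ξ')
  have h2 := h1.sub h'.near
  rw [sub_sub_sub_cancel_right] at h2
  have h3 := N.eq_of_tau hk hδ h'.mem h'.ne h'.pos h'.tau h'.iso h.iso hg h2
    (by rw [h.eq, h'.eq])
  exact eq_on_cadj hk h'.iso h.iso h'.ne h'.pos h3 ha

variable [IsAlgClosed k] [IsAlgClosed Ω]

/-- **Near inclusions.** If every element of `M` has a near element in the closed field `C`, there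
is an isometric embedding of `M` in `C` which is near to the identity. -/
theorem exists_near_incl (hk : Ctx0 k v) (hw : SphC v) (hval : ∀ ρ : ℝ, ∃ x : Ω, x ≠ 0 ∧ v x = ρ)
    (hM : LD v M) (N : Nrm v M τ δ D) (hδ : 0 ≤ δ) (hC : Cld v C) (hκ : 2 * δ < κ)
    (hnear : ∀ a ∈ M, ∃ c ∈ C, v.Ge (v a + κ) (c - a)) :
    ∃ Φ : Ω →ₐ[k] Ω, IsoE v v Φ ∧ (∀ a ∈ M, Φ a ∈ C) ∧ StrM v Φ M (κ - δ) := by
  classical
  obtain ⟨σ, hσ, hστ⟩ := hnear τ N.mem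
  -- the local embeddings
  have hex : ∀ S : Finset Ω, (∀ s ∈ S, s ∈ M) → ∃ (ξ : Ω) (Φ : Ω →ₐ[k] Ω),
      LEmb v M C τ σ (κ - δ) ξ Φ ∧ ∀ s ∈ S, s ∈ cadj v (⊥ : IntermediateField k Ω) ξ := by
    intro S hS
    obtain ⟨ξ, hξM, hξ, hξv, h1⟩ := exists_stage hk hM (insert τ S) (by
      intro s hs
      rcases Finset.mem_insert.1 hs with rfl | hs
      · exact N.mem
      · exact hS s hs)
    have hτ := h1 τ (Finset.mem_insert_self _ _)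
    obtain ⟨z, hz, hzξ⟩ := hnear ξ hξM
    obtain ⟨Φ, h2, h3, h4, h5⟩ := N.exists_root hk hw hval hδ hξM hξ hξv hτ hC hκ hz hzξ hσ hστ
    exact ⟨ξ, Φ, ⟨hξM, hξ, hξv, hτ, h2, h3, h4, h5⟩,
      fun s hs => h1 s (Finset.mem_insert_of_mem hs)⟩
  have hg : δ < κ - δ := by linarith
  -- uniqueness
  have huniq : ∀ (ξ₁ ξ₂ : Ω) (Φ₁ Φ₂ : Ω →ₐ[k] Ω), LEmb v M C τ σ (κ - δ) ξ₁ Φ₁ →
      LEmb v M C τ σ (κ - δ) ξ₂ Φ₂ → ∀ a ∈ cadj v (⊥ : IntermediateField k Ω) ξ₁,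
      a ∈ cadj v (⊥ : IntermediateField k Ω) ξ₂ → Φ₁ a = Φ₂ a := by
    intro ξ₁ ξ₂ Φ₁ Φ₂ h1 h2 a ha1 ha2
    obtain ⟨ξ, Φ, h3, h4⟩ := hex {ξ₁, ξ₂} (by
      intro s hs
      rcases Finset.mem_insert.1 hs with rfl | hs
      · exact h1.mem
      · rw [Finset.mem_singleton.1 hs]
        exact h2.mem)
    rw [← h3.eq_of_le hk N hδ hg h1 (h4 _ (by simp)) ha1,
      ← h3.eq_of_le hk N hδ hg h2 (h4 _ (by simp)) ha2]
  have hone : ∀ a : M, ∃ b : Ω, ∀ (ξ : Ω) (Φ : Ω →ₐ[k] Ω), LEmb v M C τ σ (κ - δ) ξ Φ →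
      (a : Ω) ∈ cadj v (⊥ : IntermediateField k Ω) ξ → Φ a = b := by
    intro a
    obtain ⟨ξ, Φ, h1, h2⟩ := hex {(a : Ω)} (by
      intro s hs
      rw [Finset.mem_singleton.1 hs]
      exact a.2)
    exact ⟨Φ a, fun ξ' Φ' h3 h4 => huniq ξ' ξ Φ' Φ h3 h1 a h4 (h2 _ (by simp))⟩
  choose f hf using hone
  have htwo : ∀ a b : M, ∃ (ξ : Ω) (Φ : Ω →ₐ[k] Ω), LEmb v M C τ σ (κ - δ) ξ Φ ∧
      (a : Ω) ∈ cadj v (⊥ : IntermediateField k Ω) ξ ∧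
      (b : Ω) ∈ cadj v (⊥ : IntermediateField k Ω) ξ := by
    intro a b
    obtain ⟨ξ, Φ, h1, h2⟩ := hex {(a : Ω), (b : Ω)} (by
      intro s hs
      rcases Finset.mem_insert.1 hs with rfl | hs
      · exact a.2
      · rw [Finset.mem_singleton.1 hs]
        exact b.2)
    exact ⟨ξ, Φ, h1, h2 _ (by simp), h2 _ (by simp)⟩
  let e : M →ₐ[k] Ω :=
    { toFun := f
      map_one' := by
        obtain ⟨ξ, Φ, h1, h2, h3⟩ := htwo 1 1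
        rw [← hf 1 ξ Φ h1 h2, OneMemClass.coe_one, _root_.map_one]
      map_mul' := fun a b => by
        obtain ⟨ξ, Φ, h1, h2, h3⟩ := htwo a b
        rw [← hf a ξ Φ h1 h2, ← hf b ξ Φ h1 h3, ← hf (a * b) ξ Φ h1 (mul_mem h2 h3), ← map_mul]
        rfl
      map_zero' := by
        obtain ⟨ξ, Φ, h1, h2, h3⟩ := htwo 0 0
        rw [← hf 0 ξ Φ h1 h2, ZeroMemClass.coe_zero, map_zero]
      map_add' := fun a b => by
        obtain ⟨ξ, Φ, h1, h2, h3⟩ := htwo a b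
        rw [← hf a ξ Φ h1 h2, ← hf b ξ Φ h1 h3, ← hf (a + b) ξ Φ h1 (add_mem h2 h3), ← map_add]
        rfl
      commutes' := fun c => by
        obtain ⟨ξ, Φ, h1, h2, h3⟩ := htwo (algebraMap k M c) 0
        rw [← hf _ ξ Φ h1 h2]
        exact Φ.commutes c }
  have he : ∀ a : M, e a = f a := fun a => rfl
  have hI : IsoL v v (⟨M, e⟩ : Lifts k Ω Ω) := by
    intro a ha
    obtain ⟨ξ, Φ, h1, h2, h3⟩ := htwo a a
    have h4 := hf a ξ Φ h1 h2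
    change v (f a) = v (a : Ω)
    rw [← h4]
    exact h1.iso.val a fun h0 => ha (Subtype.ext h0)
  obtain ⟨Φ, hΦ, hΦe⟩ := hI.exists_total hk hw hval
  have hval' : ∀ a (ha : a ∈ M) (ξ : Ω) (Φ' : Ω →ₐ[k] Ω), LEmb v M C τ σ (κ - δ) ξ Φ' →
      a ∈ cadj v (⊥ : IntermediateField k Ω) ξ → Φ a = Φ' a := by
    intro a ha ξ Φ' h1 h2
    rw [hf ⟨a, ha⟩ ξ Φ' h1 h2]
    exact hΦe ⟨a, ha⟩
  refine ⟨Φ, hΦ, fun a ha => ?_, fun a ha r hr => ?_⟩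
  · obtain ⟨ξ, Φ', h1, h2, -⟩ := htwo ⟨a, ha⟩ ⟨a, ha⟩
    rw [hval' a ha ξ Φ' h1 h2]
    exact map_mem_of h1.iso hC h1.im h2
  · obtain ⟨ξ, Φ', h1, h2, -⟩ := htwo ⟨a, ha⟩ ⟨a, ha⟩
    rw [hval' a ha ξ Φ' h1 h2]
    exact h1.str hk (by linarith) h2 hr

end Union

end Pool.Agent.TWJ2
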