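import Pool.Agent.Lib.TWJ2.FJ8

/-!
# TANK W, row J.8 over an arbitrary base: the core

`F` arbitrary, `y` transcendental over `F`, `η` a centre of minimal degree `n`, `Q` its minimal
polynomial. `NC v F E y η κ`: the elements of `E` are near (relative precision `κ`) to the values
`P(y)`, `deg P < n`, and conversely.

* `NC.lim`: `Q(y)` is a limit of `E`;
* `NC.far`: no algebraic element over the henselian field `E` is nearer to `Q(y)`;
* `NC.gen`: the closure of `E(Q(y))` is the closure of `F(y)`.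
-/

set_option autoImplicit false

open Polynomial

namespace Pool.Agent.TWJ2

open Pool.Agent.H15JM (RVal)
open Pool.Agent.LU1 (adj)
open Pool.Agent.D2 (Ctx0)
open Pool.Agent.D2P (hen clI mem_clI)
open Pool.Agent.TW
open Pool.Agent.TWJ (IsMin exists_min cen_of_min val_roots GN_of_roots dns_K hen_eq)
open Pool.Agent.TWM (ge_of_eps TL Lim cadj)

universe u

variable {k Ω : Type u} [Field k] [Field Ω] [Algebra k Ω] {v : RVal Ω}
  {F E : IntermediateField k Ω} {y η : Ω} {ρ κ : ℝ}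

/-- The elements of `E` are near to the values at `y` of the polynomials over `F` of degree less
than the degree of `η`, and conversely. -/
structure NC (v : RVal Ω) (F E : IntermediateField k Ω) (y η : Ω) (κ : ℝ) : Prop where
  toE : ∀ P : F[X], P.natDegree < (minpoly F η).natDegree →
    ∃ m ∈ E, ∀ c : ℝ, v.Ge c (aeval y P) → v.Ge (c + κ) (aeval y P - m)
  ofE : ∀ e ∈ E, ∃ P : F[X], P.natDegree < (minpoly F η).natDegree ∧
    ∀ c : ℝ, v.Ge c e → v.Ge (c + κ) (e - aeval y P)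

theorem sub_deg_lt {η' : Ω} (h : IsMin v F y η ρ) (h' : IsMin v F y η' ρ) :
    (minpoly F η - minpoly F η').natDegree < (minpoly F η).natDegree := by
  have hn := min_deg_eq h h'
  have hint := h.sep.isIntegral
  have hint' := h'.sep.isIntegral
  have hpos : 0 < (minpoly F η).natDegree := minpoly.natDegree_pos hint
  by_cases he : minpoly F η - minpoly F η' = 0
  · rw [he, natDegree_zero]
    exact hpos
  · refine natDegree_lt_natDegree he (degree_sub_lt_left ?_ (minpoly.ne_zero hint) ?_)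
    · rw [degree_eq_natDegree (minpoly.ne_zero hint'),
        degree_eq_natDegree (minpoly.ne_zero hint), hn]
    · rw [(minpoly.monic hint').leadingCoeff, (minpoly.monic hint).leadingCoeff]

/-- `Q(y)` is a limit of `E`. -/
theorem NC.lim [IsAlgClosed Ω] (hy : Transcendental F y) (hmin : IsMin v F y η ρ)
    (N : NC v F E y η κ) (hκ0 : 0 ≤ κ) {W : ℝ}
    (hW2 : ∀ ε' : ℝ, 0 < ε' → ∃ b' c', GVal v F y ρ b' c' ∧ W - ε' < c')
    (hκ : W ≤ v (aeval y (minpoly F η)) + κ) {ε' : ℝ} (hε' : 0 < ε') :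
    ∃ a ∈ E, v.Ge (W - ε') (aeval y (minpoly F η) - a) := by
  obtain ⟨b', c', hg, hc'⟩ := hW2 ε' hε'
  obtain ⟨η', h1, h2⟩ := hg.ex
  have hgv := hg.all η' h1 h2
  have hyη' : y ≠ η' := fun h3 => hy (h3 ▸ h1.sep.isIntegral.isAlgebraic)
  have h3 : v.Ge c' (aeval y (minpoly F η')) :=
    (TWJ.IsGV.lt hgv (minpoly.aeval F η') hyη' h2).mono (by linarith)
  obtain ⟨a, ha, h4⟩ := N.toE _ (sub_deg_lt hmin h1)
  refine ⟨a, ha, ?_⟩
  have h5 : v.Ge (min (v (aeval y (minpoly F η))) c')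
      (aeval y (minpoly F η - minpoly F η')) := by
    rw [_root_.map_sub]
    exact ((v.ge_self _).mono (min_le_left _ _)).sub (h3.mono (min_le_right _ _))
  have h6 := h4 _ h5
  have e : aeval y (minpoly F η) - a = aeval y (minpoly F η') +
      (aeval y (minpoly F η - minpoly F η') - a) := by
    rw [_root_.map_sub]
    ring
  rw [e]
  refine (h3.mono hc'.le).add (h6.mono ?_)
  rw [← min_add_add_right]
  refine le_min (by linarith) (by linarith)

/-- The value of `Q(y)`. -/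
theorem val_Q_lt [IsAlgClosed Ω] (h0 : Ctx0 k v) (hy : Transcendental F y)
    (hmin : IsMin v F y η ρ) {s W : ℝ} (hs : ∀ ξ : Ω, IsAlgebraic F ξ → v (y - ξ) < s)
    (hex : ∀ x < s, ∃ b' c', x < b' ∧ GVal v F y ρ b' c')
    (hW1 : ∀ b' c', GVal v F y ρ b' c' → c' < W) : v (aeval y (minpoly F η)) < W := by
  have hQm := minpoly.monic hmin.sep.isIntegral
  obtain ⟨x, hx, hxr⟩ := exists_root_bound (v := v) hs hQm.ne_zero
  obtain ⟨b', c', hb', hg⟩ := hex x hx
  have h1 := hg.le_of_monic h0 hy hmin hQm (m := 1) (by rw [one_mul])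
    fun α hα => (hxr α hα).trans_lt hb'
  have h2 := hW1 b' c' hg
  push_cast at h1
  linarith

/-- Conjugates over a henselian field have the same distances from its elements. -/
theorem val_conj_sub [IsAlgClosed Ω] (h0 : Ctx0 k v) (hE : hen v E = E) {θ β : Ω}
    (hθ : IsAlgebraic E θ) (hβ : aeval β (minpoly E θ) = 0) {a : Ω} (ha : a ∈ E) :
    v (β - a) = v (θ - a) := by
  refine D2P.val_root h0 hE (a := θ - a) (hθ.sub ?_) ?_
  · exact isAlgebraic_algebraMap (⟨a, ha⟩ : E)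
  · have h2 : minpoly E θ ∣ (minpoly E (θ - a)).comp (X - C (⟨a, ha⟩ : E)) := by
      refine minpoly.dvd _ _ ?_
      rw [aeval_comp, _root_.map_sub, aeval_X, aeval_C]
      exact minpoly.aeval E (θ - a)
    obtain ⟨D, hD⟩ := h2
    have h3 := congrArg (aeval β) hD
    rw [aeval_comp, _root_.map_sub, aeval_X, aeval_C, _root_.map_mul, hβ, zero_mul] at h3
    exact h3

/-- No algebraic element over `E` is nearer to `Q(y)`. -/
theorem NC.far [IsAlgClosed Ω] (h0 : Ctx0 k v) (hy : Transcendental F y)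
    (hmin : IsMin v F y η ρ) (N : NC v F E y η κ) (hE : hen v E = E) {s W δ : ℝ}
    (hs : ∀ ξ : Ω, IsAlgebraic F ξ → v (y - ξ) < s)
    (hex : ∀ x < s, ∃ b' c', x < b' ∧ GVal v F y ρ b' c')
    (hW1 : ∀ b' c', GVal v F y ρ b' c' → c' < W)
    (hW2 : ∀ ε' : ℝ, 0 < ε' → ∃ b' c', GVal v F y ρ b' c' ∧ W - ε' < c') (hδ : 0 < δ)
    (hκ : W + δ ≤ v (aeval y (minpoly F η)) + κ) {θ : Ω}
    (hθ : IsAlgebraic E θ) : ¬ v.Ge W (aeval y (minpoly F η) - θ) := by
  classical
  intro hcon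
  have hint := hmin.sep.isIntegral
  have hQm := minpoly.monic hint
  -- the value of `Q(y)` is `< W`
  have hrW : v (aeval y (minpoly F η)) < W := val_Q_lt h0 hy hmin hs hex hW1
  set Q := minpoly F η with hQ
  have hκ0 : 0 < κ := by linarith
  have hQ0 : aeval y Q ≠ 0 := fun h1 => hy ⟨Q, hQm.ne_zero, h1⟩
  have hint₁ : IsIntegral E θ := hθ.isIntegral
  have hBm := minpoly.monic hint₁
  set B := minpoly E θ with hB
  set m := B.natDegree with hm
  have hm0 : 0 < m := minpoly.natDegree_pos hint₁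
  have hmR : (1 : ℝ) ≤ m := by exact_mod_cast hm0
  have hm0' : (0 : ℝ) < m := by linarith
  -- the precision
  set ε₀ := min (W - v (aeval y Q)) (min (δ / m) (κ / m)) with hε₀
  have hε₀0 : 0 < ε₀ := lt_min (by linarith) (lt_min (by positivity) (by positivity))
  have hε₀1 : ε₀ ≤ W - v (aeval y Q) := min_le_left _ _
  have hε₀2 : m * ε₀ ≤ δ := by
    have h1 : ε₀ ≤ δ / m := (min_le_right _ _).trans (min_le_left _ _)
    rw [le_div_iff₀ hm0'] at h1
    linarith
  have hε₀3 : m * ε₀ ≤ κ := by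
    have h1 : ε₀ ≤ κ / m := (min_le_right _ _).trans (min_le_right _ _)
    rw [le_div_iff₀ hm0'] at h1
    linarith
  obtain ⟨a, ha, har⟩ := N.lim hy hmin hκ0.le hW2 (by linarith) hε₀0
  rw [← hQ] at har
  -- the roots of `B`
  have hroot : ∀ (β : Ω), aeval β B = 0 → ∀ (ε' : ℝ) (a' : Ω), a' ∈ E → 0 < ε' →
      v.Ge (W - ε') (aeval y Q - a') → v.Ge (W - ε') (β - a') := by
    intro β hβ ε' a' ha' hε' har'
    have h1 : v.Ge (W - ε') (θ - a') := by
      have h2 := har'.sub (hcon.mono (by linarith : W - ε' ≤ W))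
      rwa [show aeval y Q - a' - (aeval y Q - θ) = θ - a' by ring] at h2
    by_cases h2 : θ - a' = 0
    · have h3 : θ = a' := sub_eq_zero.1 h2
      have h4 : aeval β B = β - a' := by
        rw [hB, h3]
        have h5 : a' = algebraMap E Ω ⟨a', ha'⟩ := rfl
        conv_lhs => rw [h5, minpoly.eq_X_sub_C]
        rw [_root_.map_sub, aeval_X, aeval_C]
        rfl
      rw [hβ] at h4
      rw [← h4]
      exact RVal.Ge.zero
    · intro _
      rw [val_conj_sub h0 hE hθ hβ ha']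
      exact h1 h2
  have hBr : v.Ge (m * W) (aeval (aeval y Q) B) := by
    have h1 := GN_of_roots (v := v) hBm (θ := aeval y Q) (c := W) (by
      intro β hβ
      refine ge_of_eps fun ε' hε' => ?_
      obtain ⟨a', ha', har'⟩ := N.lim hy hmin hκ0.le hW2 (by linarith) hε'
      have h2 := (hroot β hβ ε' a' ha' hε' har').sub har'
      rwa [sub_sub_sub_cancel_right] at h2) 0
    rw [TW.tc_zero, Nat.cast_zero, zero_mul, sub_zero] at h1
    exact h1
  have hBa := GN_of_roots (v := v) hBm (θ := a) (c := W - ε₀) (fun β hβ =>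
    hroot β hβ ε₀ a ha hε₀0 har)
  -- the coefficients at `a`
  have hadj : adj E a ≤ E := D2P.adj_le le_rfl ha
  have hcoe : ∀ j, tc E a B j ∈ E := fun j => hadj (E4.tc_mem B j)
  choose P hPd hP using fun j => N.ofE _ (hcoe j)
  obtain ⟨A, hAd, hA⟩ := N.ofE _ ha
  rw [← hQ] at hAd
  have htop : tc E a B m = 1 := by
    have hdeg : (taylor a (B.map (algebraMap E Ω))).natDegree = m := by
      rw [natDegree_taylor, hBm.natDegree_map]
    rw [tc, ← hdeg, natDegree_taylor, coeff_taylor_natDegree]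
    exact hBm.map _
  -- the values
  set x := aeval y Q - aeval y A with hx
  set x' := aeval y Q - a with hx'
  set w := W - ε₀ with hw
  have hav : v.Ge (v (aeval y Q)) a := by
    have h1 := (v.ge_self (aeval y Q)).sub (har.mono (by linarith : v (aeval y Q) ≤ W - ε₀))
    rwa [sub_sub_cancel] at h1
  have hxx : v.Ge (w + (ε₀ + δ)) (x - x') := by
    have h1 := (hA _ hav).mono (by linarith : w + (ε₀ + δ) ≤ v (aeval y Q) + κ)
    rwa [show x - x' = a - aeval y A by rw [hx, hx']; ring]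
  have hx'w : v.Ge w x' := har
  have hxw : v.Ge w x := by
    have h1 := (hxx.mono (by linarith : w ≤ w + (ε₀ + δ))).add hx'w
    rwa [sub_add_cancel] at h1
  obtain ⟨hmon, hdeg⟩ := monic_aux hQm hAd (m := m) P (fun j => hPd j)
  set Bt := (Q - A) ^ m + ∑ j ∈ Finset.range m, P j * (Q - A) ^ j with hBt
  have hval : v.Ge (m * W) (aeval y Bt) := by
    have e1 : aeval y Bt = x ^ m + ∑ j ∈ Finset.range m, aeval y (P j) * x ^ j := by
      rw [hBt, _root_.map_add, map_sum, _root_.map_pow, _root_.map_sub]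
      congr 1
      refine Finset.sum_congr rfl fun j _ => ?_
      rw [_root_.map_mul, _root_.map_pow, _root_.map_sub]
    have e2 : aeval (aeval y Q) B = x' ^ m + ∑ j ∈ Finset.range m, tc E a B j * x' ^ j := by
      rw [TW.aeval_eq_tc (η := a) B (aeval y Q), Finset.sum_range_succ, ← hm, htop, one_mul,
        add_comm]
    have e3 : aeval y Bt = aeval (aeval y Q) B + ((x ^ m - x' ^ m) +
        ∑ j ∈ Finset.range m, (tc E a B j * (x ^ j - x' ^ j) -
          (tc E a B j - aeval y (P j)) * x ^ j)) := by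
      rw [e1, e2, Finset.sum_sub_distrib]
      simp only [mul_sub, sub_mul, Finset.sum_sub_distrib]
      ring
    rw [e3]
    have hmw : (m : ℝ) * w = m * W - m * ε₀ := by rw [hw]; ring
    refine hBr.add (RVal.Ge.add ?_ (RVal.Ge.sum _ _ fun j hj => RVal.Ge.sub ?_ ?_))
    · exact (ge_pow_sub_pow hxw hx'w hxx m).mono (by linarith)
    · refine ((hBa j).mul (ge_pow_sub_pow hxw hx'w hxx j)).mono ?_
      linarith
    · refine ((hP j _ (hBa j)).mul (ge_pow' hxw j)).mono ?_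
      linarith
  -- the contradiction
  obtain ⟨x₀, hx₀, hx₀r⟩ := exists_root_bound (v := v) hs hmon.ne_zero
  obtain ⟨b', c', hb', hg⟩ := hex x₀ hx₀
  have h1 := hg.le_of_monic h0 hy hmin hmon (m := m) hdeg
    fun α hα => (hx₀r α hα).trans_lt hb'
  have h2 := hW1 b' c' hg
  have h3 := hval fun h4 => hy ⟨Bt, hmon.ne_zero, h4⟩
  have h4 : (m : ℝ) * c' < m * W := mul_lt_mul_of_pos_left h2 hm0'
  linarith

/-- Products. -/
theorem ge_mul_pow_sub {a a' x x' : Ω} {α w κ δ μ : ℝ} (ha : v.Ge α a)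
    (haa : v.Ge (α + κ) (a - a')) (hx : v.Ge w x) (hx' : v.Ge w x') (hxx : v.Ge (w + δ) (x - x'))
    (hκ : μ ≤ κ) (hδ : μ ≤ δ) (hμ : 0 ≤ μ) (j : ℕ) :
    v.Ge (α + j * w + μ) (a * x ^ j - a' * x' ^ j) := by
  have e : a * x ^ j - a' * x' ^ j = (a - a') * x ^ j + a' * (x ^ j - x' ^ j) := by ring
  have ha' : v.Ge α a' := by
    have h1 := ha.sub (haa.mono (by linarith : α ≤ α + κ))
    rwa [sub_sub_cancel] at h1
  rw [e]
  refine RVal.Ge.add ((haa.mul (ge_pow' hx j)).mono (by linarith)) ?_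
  exact (ha'.mul (ge_pow_sub_pow hx hx' hxx j)).mono (by linarith)

/-- The values of the polynomials are near to `E(Q(y))`, with one precision. -/
theorem NC.near_poly [IsAlgClosed Ω] (h0 : Ctx0 k v) (hy : Transcendental F y)
    (hmin : IsMin v F y η ρ) (N : NC v F E y η κ) {s W δ : ℝ}
    (hs : ∀ ξ : Ω, IsAlgebraic F ξ → v (y - ξ) < s)
    (hex : ∀ x < s, ∃ b' c', x < b' ∧ GVal v F y ρ b' c')
    (hW1 : ∀ b' c', GVal v F y ρ b' c' → c' < W)
    (hW2 : ∀ ε' : ℝ, 0 < ε' → ∃ b' c', GVal v F y ρ b' c' ∧ W - ε' < c') (hδ : 0 < δ)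
    (hκ : W + δ ≤ v (aeval y (minpoly F η)) + κ) {f : F[X]} (hf : f ≠ 0) :
    ∃ e ∈ adj E (aeval y (minpoly F η)),
      v.Ge (v (aeval y f) + min κ δ) (aeval y f - e) := by
  classical
  have hQm := minpoly.monic hmin.sep.isIntegral
  have hrW : v (aeval y (minpoly F η)) < W := val_Q_lt h0 hy hmin hs hex hW1
  have hκ0 : 0 < κ := by linarith
  -- a radius
  obtain ⟨b'', c'', hg'', hc''⟩ := hW2 (W - v (aeval y (minpoly F η))) (by linarith)
  have hb''s : b'' < s := by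
    obtain ⟨η', h1, h2⟩ := hg''.ex
    exact h2.trans (hs η' h1.sep.isIntegral.isAlgebraic)
  obtain ⟨x₀, hx₀, hx₀r⟩ := exists_root_bound (v := v) hs hf
  obtain ⟨b', c', hb', hg⟩ := hex (max x₀ b'') (max_lt hx₀ hb''s)
  have hb'1 : x₀ < b' := (le_max_left _ _).trans_lt hb'
  have hb'2 : b'' < b' := (le_max_right _ _).trans_lt hb'
  have hc' : v (aeval y (minpoly F η)) < c' := by
    have h1 := (hg''.slope hg hb'2.le hmin).1
    linarith
  have hc'W := hW1 _ _ hg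
  obtain ⟨η₁, h1, h2⟩ := hg.ex
  have hgv := hg.all η₁ h1 h2
  have hint₁ := h1.sep.isIntegral
  have hyη₁ : y ≠ η₁ := fun h3 => hy (h3 ▸ hint₁.isAlgebraic)
  obtain ⟨π, hπ, hπ0, hπb⟩ := hg.val
  have hlt := hg.lt
  have hcen := cen_of_min hy h1 hπ hπ0 (by rw [hπb]; exact hlt) (by rw [hπb]; exact h2)
  rw [hπb] at hcen
  have hneal : ∀ α : Ω, IsAlgebraic F α → y - α ≠ 0 := by
    intro α hα h0
    exact hy (by rw [sub_eq_zero.mp h0]; exact hα)
  -- `f` has no zeros near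
  have hRB : RB v F η₁ b' f := by
    refine RB.of_roots hf fun α hα => ?_
    have hαa : IsAlgebraic F α := ⟨f, hf, hα⟩
    have h3 := (hx₀r α hα).trans_lt hb'1
    have h4 := v.add_of_lt (hneal α hαa) (neg_ne_zero.mpr (hneal η₁ hint₁.isAlgebraic)) (by
      rw [v.map_neg _ (hneal η₁ hint₁.isAlgebraic)]
      linarith)
    rw [show y - α + -(y - η₁) = η₁ - α by ring] at h4
    refine ⟨fun h5 => h4.1 (by rw [h5, sub_self]), ?_⟩
    rw [h4.2]
    exact h3.le
  have h3 := (hRB.near (x := y) fun _ => h2).2.1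
  have h4 := hRB.gn le_rfl
  rw [← h3] at h4
  obtain ⟨m, a, ha, hfa⟩ := TW.exists_expansion F (minpoly.monic hint₁)
    (minpoly.natDegree_pos hint₁) f
  rw [hfa] at h4
  -- `Q₁(y)`
  have hψ := sub_deg_lt hmin h1
  obtain ⟨e', he', he'1⟩ := N.toE _ hψ
  have h5 : v.Ge c' (aeval y (minpoly F η₁)) :=
    (TWJ.IsGV.lt hgv (minpoly.aeval F η₁) hyη₁ h2).mono (by linarith)
  have h6 : v.Ge (v (aeval y (minpoly F η))) (aeval y (minpoly F η - minpoly F η₁)) := by
    rw [_root_.map_sub]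
    exact (v.ge_self _).sub (h5.mono hc'.le)
  have h7 := he'1 _ h6
  set r := aeval y (minpoly F η) with hr
  set q := r - e' with hq
  have hqmem : q ∈ adj E r :=
    sub_mem (D2P.mem_adj_self E r).1 ((D2P.mem_adj_self E r).2 he')
  have h8 : v.Ge (c' + δ) (aeval y (minpoly F η₁) - q) := by
    have e : aeval y (minpoly F η₁) - q = -(aeval y (minpoly F η - minpoly F η₁) - e') := by
      rw [_root_.map_sub, hq, hr]
      ring
    rw [e]
    exact h7.neg.mono (by linarith)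
  have h9 : v.Ge c' q := by
    have h10 := h5.sub (h8.mono (by linarith : c' ≤ c' + δ))
    rwa [sub_sub_cancel] at h10
  -- the digits
  have hdig : ∀ i : Fin m, ∃ e ∈ E, (a i = 0 → e = 0) ∧
      v.Ge (v (aeval y (a i)) + κ) (aeval y (a i) - e) := by
    intro i
    by_cases hi : a i = 0
    · refine ⟨0, zero_mem _, fun _ => rfl, ?_⟩
      rw [hi, _root_.map_zero, sub_zero]
      exact RVal.Ge.zero
    · obtain ⟨e, he, h10⟩ := N.toE (a i) (by rw [min_deg_eq hmin h1]; exact ha i)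
      exact ⟨e, he, fun h => absurd h hi, h10 _ (v.ge_self _)⟩
  choose e he he0 hee using hdig
  refine ⟨∑ i, e i * q ^ (i : ℕ), sum_mem fun i _ =>
    mul_mem ((D2P.mem_adj_self E r).2 (he i)) (pow_mem hqmem _), ?_⟩
  have e1 : aeval y f - ∑ i, e i * q ^ (i : ℕ) =
      ∑ i, (aeval y (a i) * aeval y (minpoly F η₁) ^ (i : ℕ) - e i * q ^ (i : ℕ)) := by
    rw [Finset.sum_sub_distrib]
    congr 1
    conv_lhs => rw [hfa]
    rw [map_sum]
    refine Finset.sum_congr rfl fun i _ => ?_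
    rw [_root_.map_mul, _root_.map_pow]
  rw [e1]
  refine RVal.Ge.sum _ _ fun i _ => ?_
  have h10 := ge_mul_pow_sub (v.ge_self (aeval y (a i))) (hee i) h5 h9 h8
    (min_le_left κ δ) (min_le_right κ δ) (le_min hκ0.le hδ.le) (i : ℕ)
  by_cases hi : a i = 0
  · rw [he0 i hi, hi, _root_.map_zero, zero_mul, zero_mul, sub_zero]
    exact RVal.Ge.zero
  · have h11 := key_poly h0 hcen hgv a ha h4 i hi
    have h12 := (hcen.tb (a i) hi (ha i)).near (x := y) fun _ => by linarith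
    rw [← h12.2.1] at h11
    rw [← hfa] at h11
    exact h10.mono (by linarith)

/-- Quotients. -/
theorem near_quot [IsAlgClosed Ω] {f g a b : Ω} {μ : ℝ} (hμ : 0 < μ) (hf : f ≠ 0) (hg : g ≠ 0)
    (hfa : v.Ge (v f + μ) (f - a)) (hgb : v.Ge (v g + μ) (g - b)) :
    b ≠ 0 ∧ v.Ge (v (f / g) + μ) (f / g - a / b) := by
  obtain ⟨hb0, hvb⟩ := E5Aux.of_near (v := v) (x := g) (y := b) hμ hg (by
    have := hgb.neg
    rwa [neg_sub] at this)
  refine ⟨hb0, ?_⟩
  have e : f / g - a / b = ((f - a) * b - a * (g - b)) * (g * b)⁻¹ := by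
    field_simp
    ring
  have ha : v.Ge (v f) a := by
    have h1 := (v.ge_self f).sub (hfa.mono (by linarith : v f ≤ v f + μ))
    rwa [sub_sub_cancel] at h1
  have h1 : v.Ge (v f + v g + μ) ((f - a) * b - a * (g - b)) := by
    refine RVal.Ge.sub ?_ ?_
    · refine (hfa.mul (v.ge_self b)).mono ?_
      rw [hvb]
      linarith
    · exact (ha.mul hgb).mono (by linarith)
  have h2 : v.Ge (-(v g + v g)) (g * b)⁻¹ := RVal.Ge.of_le (by
    rw [v.map_inv (mul_ne_zero hg hb0), v.map_mul hg hb0, hvb])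
  rw [e, v.map_div hf hg]
  exact (h1.mul h2).mono (by linarith)

/-- A uniform precision gives the closure. -/
theorem le_clI_of_near {A B : IntermediateField k Ω} {μ : ℝ} (hμ : 0 < μ) (hAB : A ≤ clI v B)
    (h : ∀ b ∈ B, b ≠ 0 → ∃ a ∈ A, v.Ge (v b + μ) (b - a)) : clI v B ≤ clI v A := by
  intro z hz
  have step : ∀ w ∈ clI v B, ∀ c : ℝ, v.Ge c w → ∃ a ∈ A, v.Ge (c + μ) (w - a) := by
    intro w hw c hwc
    obtain ⟨b, hb, hb1⟩ := (mem_clI.1 hw) (c + μ)
    by_cases hb0 : b = 0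
    · refine ⟨0, zero_mem _, ?_⟩
      rw [hb0] at hb1
      exact hb1
    obtain ⟨a, ha, ha1⟩ := h b hb hb0
    refine ⟨a, ha, ?_⟩
    have hb2 : v.Ge c b := by
      have h1 := hwc.sub (hb1.mono (by linarith : c ≤ c + μ))
      rwa [sub_sub_cancel] at h1
    have h3 := hb2 hb0
    have e : w - a = (w - b) + (b - a) := by ring
    rw [e]
    exact hb1.add (ha1.mono (by linarith))
  have hn : ∀ n : ℕ, ∃ a ∈ A, v.Ge (v z + n * μ) (z - a) := by
    intro n
    induction n with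
    | zero =>
      refine ⟨0, zero_mem _, ?_⟩
      rw [Nat.cast_zero, zero_mul, add_zero, sub_zero]
      exact v.ge_self z
    | succ n ih =>
      obtain ⟨a, ha, h1⟩ := ih
      obtain ⟨a', ha', h2⟩ := step (z - a) (sub_mem hz (hAB ha)) _ h1
      refine ⟨a + a', add_mem ha ha', ?_⟩
      have e : z - (a + a') = z - a - a' := by ring
      rw [e]
      refine h2.mono (le_of_eq ?_)
      push_cast
      ring
  rw [mem_clI]
  intro c
  obtain ⟨n, hn'⟩ := exists_nat_gt ((c - v z) / μ)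
  obtain ⟨a, ha, h1⟩ := hn n
  refine ⟨a, ha, h1.mono ?_⟩
  rw [div_lt_iff₀ hμ] at hn'
  linarith

/-- **Generation.** -/
theorem NC.gen [IsAlgClosed Ω] (h0 : Ctx0 k v) (hy : Transcendental F y)
    (hmin : IsMin v F y η ρ) (N : NC v F E y η κ) {s W δ : ℝ}
    (hs : ∀ ξ : Ω, IsAlgebraic F ξ → v (y - ξ) < s)
    (hex : ∀ x < s, ∃ b' c', x < b' ∧ GVal v F y ρ b' c')
    (hW1 : ∀ b' c', GVal v F y ρ b' c' → c' < W)
    (hW2 : ∀ ε' : ℝ, 0 < ε' → ∃ b' c', GVal v F y ρ b' c' ∧ W - ε' < c') (hδ : 0 < δ)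
    (hκ : W + δ ≤ v (aeval y (minpoly F η)) + κ) (hE : E ≤ cadj v F y) :
    cadj v E (aeval y (minpoly F η)) = cadj v F y := by
  have hrW : v (aeval y (minpoly F η)) < W := val_Q_lt h0 hy hmin hs hex hW1
  have hκ0 : 0 < κ := by linarith
  have hμ : 0 < min κ δ := lt_min hκ0 hδ
  have hr : aeval y (minpoly F η) ∈ adj F y := E10.aeval_mem_adj _
  have hle : adj E (aeval y (minpoly F η)) ≤ cadj v F y :=
    D2P.adj_le hE (TWM.le_clI _ hr)
  refine le_antisymm ?_ ?_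
  · have h1 := TWM.clI_mono (v := v) hle
    rw [TWM.cadj, TWM.clI_clI (adj F y)] at h1
    exact h1
  · refine le_clI_of_near hμ hle fun b hb _ => ?_
    rw [TW.adj_eq, IntermediateField.mem_restrictScalars,
      IntermediateField.mem_adjoin_simple_iff] at hb
    obtain ⟨f, g, rfl⟩ := hb
    by_cases hf : f = 0
    · refine ⟨0, zero_mem _, ?_⟩
      rw [hf, _root_.map_zero, zero_div, sub_zero]
      exact RVal.Ge.zero
    by_cases hg : g = 0
    · refine ⟨0, zero_mem _, ?_⟩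
      rw [hg, _root_.map_zero, div_zero, sub_zero]
      exact RVal.Ge.zero
    obtain ⟨a, ha, ha1⟩ := N.near_poly h0 hy hmin hs hex hW1 hW2 hδ hκ hf
    obtain ⟨b, hb, hb1⟩ := N.near_poly h0 hy hmin hs hex hW1 hW2 hδ hκ hg
    obtain ⟨-, h1⟩ := near_quot hμ (fun h => hy ⟨f, hf, h⟩) (fun h => hy ⟨g, hg, h⟩) ha1 hb1
    exact ⟨a / b, div_mem ha hb, h1⟩

/-- The data of a generator with finitely many jumps: `ρ` is beyond the last jump, `s` is the
distance, `W` the limit of the Gauss values. -/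
structure Sel (v : RVal Ω) (F : IntermediateField k Ω) (y : Ω) (ρ s W : ℝ) : Prop where
  lt : ρ < s
  near : ∀ ξ : Ω, IsAlgebraic F ξ → v (y - ξ) < s
  cen : ∀ x < s, ∃ η : Ω, IsMin v F y η ρ ∧ x < v (y - η)
  ex : ∀ x < s, ∃ b' c', x < b' ∧ GVal v F y ρ b' c'
  W1 : ∀ b' c', GVal v F y ρ b' c' → c' < W
  W2 : ∀ ε' : ℝ, 0 < ε' → ∃ b' c', GVal v F y ρ b' c' ∧ W - ε' < c'
  clo : ∀ δ : ℝ, 0 < δ → ∃ x < s, ∀ η : Ω, IsMin v F y η ρ → x < v (y - η) →
    W < v (aeval y (minpoly F η)) + δ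

theorem exists_sel [IsAlgClosed Ω] (h0 : Ctx0 k v) (hcl : ∀ ξ : Ω, IsAlgebraic F ξ →
      ∃ ξ' : Ω, IsAlgebraic F ξ' ∧ v (y - ξ) < v (y - ξ')) (hd : Dns v F)
    (hy : Transcendental F y) {M : ℝ} (hM : ∀ ξ : Ω, IsAlgebraic F ξ → v (y - ξ) ≤ M)
    (hFJ : FJ v F y) : ∃ ρ s W : ℝ, Sel v F y ρ s W := by
  classical
  obtain ⟨d₀, hFJ⟩ := hFJ
  -- the distance
  have hne : {x : ℝ | ∃ ξ : Ω, IsAlgebraic F ξ ∧ x = v (y - ξ)}.Nonempty :=
    ⟨_, 0, isAlgebraic_zero, rfl⟩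
  have hbd : BddAbove {x : ℝ | ∃ ξ : Ω, IsAlgebraic F ξ ∧ x = v (y - ξ)} := by
    refine ⟨M, ?_⟩
    rintro _ ⟨ξ, hξ, rfl⟩
    exact hM ξ hξ
  set s := sSup {x : ℝ | ∃ ξ : Ω, IsAlgebraic F ξ ∧ x = v (y - ξ)} with hsdef
  have hs : ∀ ξ : Ω, IsAlgebraic F ξ → v (y - ξ) < s := by
    intro ξ hξ
    obtain ⟨ξ', hξ', h1⟩ := hcl ξ hξ
    exact h1.trans_le (le_csSup hbd ⟨ξ', hξ', rfl⟩)
  have hs' : ∀ x < s, ∃ ξ : Ω, IsAlgebraic F ξ ∧ x < v (y - ξ) := by
    intro x hx
    obtain ⟨_, ⟨ξ, hξ, rfl⟩, h1⟩ := exists_lt_of_lt_csSup hne hx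
    exact ⟨ξ, hξ, h1⟩
  obtain ⟨ρ, hρ, hcen⟩ := exists_centres hd hy hs' hFJ
  have hex : ∀ x < s, ∃ b' c', x < b' ∧ GVal v F y ρ b' c' := by
    intro x hx
    obtain ⟨π, hπ, hπ0, h1, h2⟩ := hd (max x ρ) s (max_lt hx hρ)
    obtain ⟨η, h3, h4⟩ := hcen (v π) h2
    obtain ⟨c, hc⟩ := exists_gval h0 hy h3 hπ hπ0 ((le_max_right _ _).trans_lt h1) h4
    exact ⟨v π, c, (le_max_left _ _).trans_lt h1, hc⟩
  obtain ⟨η₀, hη₀, -⟩ := hcen ρ hρ
  set n := (minpoly F η₀).natDegree with hn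
  have hn1 : (1 : ℝ) ≤ n := by
    exact_mod_cast (minpoly.natDegree_pos hη₀.sep.isIntegral : 0 < (minpoly F η₀).natDegree)
  have hn0 : (0 : ℝ) < n := by linarith
  have hlts : ∀ b' c', GVal v F y ρ b' c' → b' < s := by
    intro b' c' hgv
    obtain ⟨η, h1, h2⟩ := hgv.ex
    exact h2.trans (hs η h1.sep.isIntegral.isAlgebraic)
  have hbound : ∀ b' c', GVal v F y ρ b' c' → ∀ b'' c'', GVal v F y ρ b'' c'' →
      c'' ≤ c' + n * (s - b') := by
    intro b' c' hg' b'' c'' hg''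
    have h0 := hlts _ _ hg'
    have h0' := hlts _ _ hg''
    rcases le_total b' b'' with h1 | h1
    · have h2 := (hg'.slope hg'' h1 hη₀).2
      have h3 : (n : ℝ) * (b'' - b') ≤ n * (s - b') :=
        mul_le_mul_of_nonneg_left (by linarith) hn0.le
      linarith
    · have h2 := (hg''.slope hg' h1 hη₀).1
      have h3 : (0 : ℝ) ≤ n * (s - b') := mul_nonneg hn0.le (by linarith)
      linarith
  obtain ⟨b₀, c₀, hb₀, hgv₀⟩ := hex ρ hρ
  have hWne : {c : ℝ | ∃ b', GVal v F y ρ b' c}.Nonempty := ⟨c₀, b₀, hgv₀⟩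
  have hWbd : BddAbove {c : ℝ | ∃ b', GVal v F y ρ b' c} := by
    refine ⟨c₀ + n * (s - b₀), ?_⟩
    rintro c ⟨b', hb'⟩
    exact hbound _ _ hgv₀ _ _ hb'
  set W := sSup {c : ℝ | ∃ b', GVal v F y ρ b' c} with hW
  have hW1 : ∀ b' c', GVal v F y ρ b' c' → c' < W := by
    intro b' c' hg'
    obtain ⟨b'', c'', h1, h2⟩ := hex b' (hlts _ _ hg')
    have h3 := (hg'.slope h2 h1.le hη₀).1
    have h4 : c'' ≤ W := le_csSup hWbd ⟨b'', h2⟩
    linarith
  have hW2 : ∀ ε' : ℝ, 0 < ε' → ∃ b' c', GVal v F y ρ b' c' ∧ W - ε' < c' := by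
    intro ε' hε'
    obtain ⟨c, ⟨b', hb'⟩, h1⟩ := exists_lt_of_lt_csSup hWne (by linarith : W - ε' < W)
    exact ⟨b', c, hb', h1⟩
  refine ⟨ρ, s, W, hρ, hs, hcen, hex, hW1, hW2, fun δ hδ => ?_⟩
  obtain ⟨b', c', h1, h2⟩ := hW2 δ hδ
  refine ⟨b', hlts _ _ h1, fun η hmin hη => ?_⟩
  have hyη : y ≠ η := fun h3 => hy (h3 ▸ hmin.sep.isIntegral.isAlgebraic)
  have hQ0 : aeval y (minpoly F η) ≠ 0 := fun h3 =>
    hy ⟨_, minpoly.ne_zero hmin.sep.isIntegral, h3⟩
  have h3 := TWJ.IsGV.lt (h1.all η hmin hη) (minpoly.aeval F η) hyη hη hQ0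
  linarith

/-- **J.8 over an arbitrary base, the core.** -/
theorem NC.main [IsAlgClosed Ω] (h0 : Ctx0 k v) (hy : Transcendental F y) {s W δ : ℝ}
    (S : Sel v F y ρ s W) (hmin : IsMin v F y η ρ) (N : NC v F E y η κ) (hδ : 0 < δ)
    (hκ : W + δ ≤ v (aeval y (minpoly F η)) + κ) (hEh : hen v E = E) (hE : E ≤ cadj v F y) :
    TL v E (aeval y (minpoly F η)) W ∧ cadj v E (aeval y (minpoly F η)) = cadj v F y := by
  have hrW : v (aeval y (minpoly F η)) < W := val_Q_lt h0 hy hmin S.near S.ex S.W1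
  have hκ0 : 0 < κ := by linarith
  refine ⟨⟨fun ε' hε' => N.lim hy hmin hκ0.le S.W2 (by linarith) hε', fun θ hθ => ?_⟩,
    N.gen h0 hy hmin S.near S.ex S.W1 S.W2 hδ hκ hE⟩
  have h1 := N.far h0 hy hmin hEh S.near S.ex S.W1 S.W2 hδ hκ hθ
  have hne : aeval y (minpoly F η) ≠ θ := by
    intro h2
    rw [h2, sub_self] at h1
    exact h1 RVal.Ge.zero
  refine ⟨hne, ?_⟩
  by_contra h2
  exact h1 (RVal.Ge.of_le (not_lt.1 h2))

end Pool.Agent.TWJ2
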