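import Pool.Agent.Lib.TWJ2.NearA
import Pool.Agent.Lib.TWF.FF2
import Pool.Agent.Lib.TW.BB

/-!
# TANK W, row J.8 over an infinite base: the derivation

`x` a `p`-basis of `M` of bounded distortion.

* `exists_der_pb`: a derivation `D` of `M` with `D x = x` which lowers the values by at most `c₀`;
* `exists_nrm`: for `0 < δ` there are `τ ∈ M` and a multiple `D'` of `D` with `D' τ = τ` which lowers
  the values by at most `δ`;
* `bd_adj_hen`: bounded distortion passes to finite separable extensions of a henselian field.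
-/

set_option autoImplicit false

open Polynomial

namespace Pool.Agent.TWJ2

open Pool.Agent.H15JM (RVal)
open Pool.Agent.LU1 (VPos adj)
open Pool.Agent.D2 (Ctx0)
open Pool.Agent.D2P (hen clI mem_clI mem_adj_self)
open Pool.Agent.TW (PBasis Orth BD BDq pcomb mon Qp Qp_mono Qp_le' orthq_adj bas_adj_alg)
open Pool.Agent.TWF (pcomb_one)

universe u

variable {k Ω : Type u} [Field k] [Field Ω] [Algebra k Ω] {v : RVal Ω}
  {M : IntermediateField k Ω} {x : Ω} {δ c₀ : ℝ}

section Der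

variable (p : ℕ) [hp : Fact p.Prime] [CharP Ω p]

/-- The combination `∑ i c_i ^ p x ^ i`. -/
def dcomb (x : Ω) (c : Fin p → Ω) : Ω := ∑ i : Fin p, ((i : ℕ) : Ω) * (c i ^ p * x ^ (i : ℕ))

/-- The combination `∑ c_i ^ p x ^ i`. -/
def scomb (x : Ω) (c : Fin p → Ω) : Ω := ∑ i : Fin p, c i ^ p * x ^ (i : ℕ)

omit hp [CharP Ω p] in
theorem scomb_eq (x : Ω) (c : Fin p → Ω) : scomb p x c = pcomb ![x] fun α => c (α 0) := by
  rw [pcomb_one]
  rfl

theorem scomb_add (x : Ω) (c d : Fin p → Ω) :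
    scomb p x (fun i => c i + d i) = scomb p x c + scomb p x d := by
  rw [scomb, scomb, scomb, ← Finset.sum_add_distrib]
  refine Finset.sum_congr rfl fun i _ => ?_
  rw [add_pow_char]
  ring

theorem dcomb_add (x : Ω) (c d : Fin p → Ω) :
    dcomb p x (fun i => c i + d i) = dcomb p x c + dcomb p x d := by
  rw [dcomb, dcomb, dcomb, ← Finset.sum_add_distrib]
  refine Finset.sum_congr rfl fun i _ => ?_
  rw [add_pow_char]
  ring

omit hp [CharP Ω p] in
theorem dcomb_leib (x : Ω) (c d : Fin p → Ω) :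
    ∑ i : Fin p, ∑ j : Fin p, (((i : ℕ) + (j : ℕ) : ℕ) : Ω) *
      ((c i * d j) ^ p * x ^ ((i : ℕ) + (j : ℕ))) =
      scomb p x c * dcomb p x d + scomb p x d * dcomb p x c := by
  rw [scomb, scomb, dcomb, dcomb, Finset.sum_mul_sum, Finset.sum_mul_sum,
    Finset.sum_comm (f := fun (i : Fin p) (j : Fin p) => d i ^ p * x ^ (i : ℕ) *
      (((j : ℕ) : Ω) * (c j ^ p * x ^ (j : ℕ)))), ← Finset.sum_add_distrib]
  refine Finset.sum_congr rfl fun i _ => ?_
  rw [← Finset.sum_add_distrib]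
  refine Finset.sum_congr rfl fun j _ => ?_
  rw [mul_pow, pow_add]
  push_cast
  ring

omit hp [CharP Ω p] in
/-- The coefficients of an element. -/
theorem exists_coeffs (hpb : PBasis p M ![x]) {a : Ω} (ha : a ∈ M) :
    ∃ c : Fin p → Ω, (∀ i, c i ∈ M) ∧ a = scomb p x c := by
  obtain ⟨c, hc, h1⟩ := hpb.span a ha
  exact ⟨fun i => c ![i], fun i => hc _, by rw [h1, pcomb_one]; rfl⟩

theorem coeffs_eq (hpb : PBasis p M ![x]) {c d : Fin p → Ω} (hc : ∀ i, c i ∈ M)
    (hd : ∀ i, d i ∈ M) (h : scomb p x c = scomb p x d) : c = d := by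
  have h1 : scomb p x (fun i => c i - d i) = 0 := by
    have h2 := scomb_add p x (fun i => c i - d i) d
    have h3 : (fun i => c i - d i + d i) = c := by
      funext i
      ring
    rw [h3, h] at h2
    linear_combination -h2
  rw [scomb_eq] at h1
  funext i
  have h2 := hpb.ind (fun α => c (α 0) - d (α 0)) (fun α => sub_mem (hc _) (hd _)) h1 ![i]
  exact sub_eq_zero.1 h2

theorem exists_der_pb [CharP k p] [PerfectRing k p] (hk : Ctx0 k v) (hpb : PBasis p M ![x])
    (ho : Orth p v M ![x] c₀) : ∃ D : Derivation k M Ω, (∀ h : x ∈ M, D ⟨x, h⟩ = x) ∧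
      ∀ (a : M) (r : ℝ), v.Ge r (a : Ω) → v.Ge (r - c₀) (D a) := by
  classical
  have hx : x ∈ M := hpb.mem 0
  have hp0 := hp.out.pos
  choose! c hc hac using fun (a : Ω) (ha : a ∈ M) => exists_coeffs p hpb ha
  have hsm : ∀ d : Fin p → Ω, (∀ i, d i ∈ M) → scomb p x d ∈ M := fun d hd =>
    sum_mem fun i _ => mul_mem (pow_mem (hd i) _) (pow_mem hx _)
  set Df : Ω → Ω := fun a => dcomb p x (c a) with hDf
  have hD : ∀ d : Fin p → Ω, (∀ i, d i ∈ M) → Df (scomb p x d) = dcomb p x d := by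
    intro d hd
    have h1 := hsm d hd
    rw [hDf]
    change dcomb p x (c (scomb p x d)) = _
    rw [coeffs_eq p hpb (hc _ h1) hd (hac _ h1).symm]
  have hadd : ∀ a ∈ M, ∀ b ∈ M, Df (a + b) = Df a + Df b := by
    intro a ha b hb
    have e : a + b = scomb p x (fun i => c a i + c b i) := by
      rw [scomb_add, ← hac a ha, ← hac b hb]
    rw [e, hD _ fun i => add_mem (hc a ha i) (hc b hb i), dcomb_add]
  have hmon : ∀ q ∈ M, ∀ n : ℕ, Df (q ^ p * x ^ n) = n * (q ^ p * x ^ n) := by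
    intro q hq n
    let i₀ : Fin p := ⟨n % p, Nat.mod_lt _ hp0⟩
    let d : Fin p → Ω := fun i => if i = i₀ then q * x ^ (n / p) else 0
    have hd : ∀ i, d i ∈ M := by
      intro i
      simp only [d]
      split_ifs
      · exact mul_mem hq (pow_mem hx _)
      · exact zero_mem _
    have h1 : (q * x ^ (n / p)) ^ p * x ^ (n % p) = q ^ p * x ^ n := by
      rw [mul_pow, ← pow_mul, mul_assoc, ← pow_add, mul_comm (n / p) p, Nat.div_add_mod]
    have h2 : scomb p x d = q ^ p * x ^ n := by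
      rw [scomb, Finset.sum_eq_single i₀]
      · simp only [d, if_pos rfl, i₀]
        exact h1
      · intro i _ hi
        simp only [d, if_neg hi]
        rw [zero_pow hp0.ne', zero_mul]
      · intro h
        exact absurd (Finset.mem_univ _) h
    have h3 : dcomb p x d = ((n % p : ℕ) : Ω) * (q ^ p * x ^ n) := by
      rw [dcomb, Finset.sum_eq_single i₀]
      · simp only [d, if_pos rfl, i₀]
        rw [h1]
      · intro i _ hi
        simp only [d, if_neg hi]
        rw [zero_pow hp0.ne', zero_mul, mul_zero]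
      · intro h
        exact absurd (Finset.mem_univ _) h
    rw [← h2, hD d hd, h3, h2, ← CharP.cast_eq_mod Ω p n]
  have hzero : Df 0 = 0 := by
    have h1 := hadd 0 (zero_mem _) 0 (zero_mem _)
    rw [add_zero] at h1
    exact left_eq_add.1 h1
  let T : M →+ Ω :=
    { toFun := fun a => Df a
      map_zero' := hzero
      map_add' := fun a b => hadd a a.2 b b.2 }
  have hT : ∀ a : M, T a = Df a := fun a => rfl
  have hrep : ∀ a : M, a = ∑ i : Fin p, (⟨c a i, hc a a.2 i⟩ : M) ^ p * (⟨x, hx⟩ : M) ^ (i : ℕ) := by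
    intro a
    refine Subtype.ext ?_
    push_cast
    exact hac a a.2
  have hTm : ∀ (q : M) (n : ℕ), T (q ^ p * (⟨x, hx⟩ : M) ^ n) =
      n * (((q : Ω)) ^ p * x ^ n) := fun q n => by
    rw [hT]
    push_cast
    exact hmon q q.2 n
  have hmul : ∀ a b : M, T (a * b) = (a : Ω) * T b + (b : Ω) * T a := by
    intro a b
    have h1 : T (a * b) = ∑ i : Fin p, ∑ j : Fin p,
        (((i : ℕ) + (j : ℕ) : ℕ) : Ω) * ((c a i * c b j) ^ p * x ^ ((i : ℕ) + (j : ℕ))) := by
      conv_lhs => rw [hrep a, hrep b, Finset.sum_mul_sum, map_sum]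
      refine Finset.sum_congr rfl fun i _ => ?_
      rw [map_sum]
      refine Finset.sum_congr rfl fun j _ => ?_
      have e : (⟨c a i, hc a a.2 i⟩ : M) ^ p * (⟨x, hx⟩ : M) ^ (i : ℕ) *
          ((⟨c b j, hc b b.2 j⟩ : M) ^ p * (⟨x, hx⟩ : M) ^ (j : ℕ)) =
          (⟨c a i, hc a a.2 i⟩ * ⟨c b j, hc b b.2 j⟩ : M) ^ p *
            (⟨x, hx⟩ : M) ^ ((i : ℕ) + (j : ℕ)) := by ring
      rw [e, hTm]
      rfl
    have h2 : ∀ a : M, (a : Ω) = ∑ i : Fin p, c a i ^ p * x ^ (i : ℕ) := fun a => hac a a.2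
    have h3 : ∀ a : M, T a = ∑ i : Fin p, ((i : ℕ) : Ω) * (c a i ^ p * x ^ (i : ℕ)) :=
      fun a => rfl
    rw [h1, dcomb_leib p x (c a) (c b), h3 a, h3 b, scomb, scomb, dcomb, dcomb, ← h2 a, ← h2 b]
  have hcst : ∀ l : k, T (algebraMap k M l) = 0 := by
    intro l
    obtain ⟨m, hm⟩ := surjective_frobenius k p l
    have e : algebraMap k M l = (algebraMap k M m) ^ p * (⟨x, hx⟩ : M) ^ 0 := by
      rw [pow_zero, mul_one, ← map_pow, ← hm, frobenius_def]
    rw [e, hTm, Nat.cast_zero, zero_mul]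
  refine ⟨Derivation.mk' { toFun := T, map_add' := map_add T, map_smul' := fun l a => ?_ }
    fun a b => hmul a b, fun h => ?_, fun a r hr => ?_⟩
  · rw [Algebra.smul_def, hmul, hcst, mul_zero, add_zero, RingHom.id_apply, Algebra.smul_def]
    rfl
  · change T ⟨x, h⟩ = x
    have e : (⟨x, h⟩ : M) = (1 : M) ^ p * (⟨x, hx⟩ : M) ^ 1 := by
      rw [one_pow, one_mul, pow_one]
    rw [e, hTm]
    simp
  · change v.Ge (r - c₀) (T a)
    by_cases ha : a = 0
    · rw [ha, map_zero]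
      exact RVal.Ge.zero
    have ha' : (a : Ω) ≠ 0 := fun h => ha (Subtype.ext h)
    have h1 : pcomb ![x] (fun α => c a (α 0)) = a := by
      rw [← scomb_eq, ← hac a a.2]
    have h2 := ho (fun α => c a (α 0)) (fun α => hc a a.2 _) (by rw [h1]; exact ha')
    rw [h1] at h2
    change v.Ge (r - c₀) (∑ i : Fin p, ((i : ℕ) : Ω) * (c a i ^ p * x ^ (i : ℕ)))
    refine RVal.Ge.sum _ _ fun i _ => ?_
    have h3 := h2 ![i]
    have h4 : mon (p := p) ![x] ![i] = x ^ (i : ℕ) := by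
      rw [mon, Fin.prod_univ_one]
      rfl
    rw [h4] at h3
    have h5 := (natCast_ge hk (i : ℕ)).mul h3
    exact h5.mono (by linarith [hr ha'])

end Der

/-- **The choice of `τ`.** -/
theorem exists_nrm (D : Derivation k M Ω) (hx : x ∈ M) (hx0 : x ≠ 0) (hDx : D ⟨x, hx⟩ = x)
    (hD : ∀ (a : M) (r : ℝ), v.Ge r (a : Ω) → v.Ge (r - c₀) (D a)) (hδ : 0 < δ) :
    ∃ (τ : Ω) (D' : Derivation k M Ω), Nrm v M τ δ D' := by
  have hne : {r : ℝ | ∃ a : M, D a ≠ 0 ∧ r = v (a : Ω) - v (D a)}.Nonempty :=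
    ⟨_, ⟨x, hx⟩, by rw [hDx]; exact hx0, rfl⟩
  have hbd : BddAbove {r : ℝ | ∃ a : M, D a ≠ 0 ∧ r = v (a : Ω) - v (D a)} := by
    refine ⟨c₀, ?_⟩
    rintro _ ⟨a, ha, rfl⟩
    have h1 := hD a _ (RVal.ge_self (a : Ω)) ha
    linarith
  obtain ⟨_, ⟨t, ht, rfl⟩, h1⟩ := exists_lt_of_lt_csSup hne
    (sub_lt_self (sSup {r : ℝ | ∃ a : M, D a ≠ 0 ∧ r = v (a : Ω) - v (D a)}) hδ)
  have ht0 : (t : Ω) ≠ 0 := by
    intro h2
    have h3 : t = 0 := Subtype.ext h2
    rw [h3, map_zero] at ht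
    exact ht rfl
  refine ⟨t, ((t : Ω) / D t) • D, ⟨t.2, ht0, ?_, fun a r hr => ?_⟩⟩
  · rw [Derivation.smul_apply, smul_eq_mul]
    exact div_mul_cancel₀ _ ht
  · rw [Derivation.smul_apply, smul_eq_mul]
    intro h2
    have h3 := left_ne_zero_of_mul h2
    have h4 := right_ne_zero_of_mul h2
    have h5 : v (a : Ω) - v (D a) ≤ sSup {r : ℝ | ∃ a : M, D a ≠ 0 ∧ r = v (a : Ω) - v (D a)} :=
      le_csSup hbd ⟨a, h4, rfl⟩
    rw [v.map_mul h3 h4, v.map_div ht0 ht]
    have h6 : (a : Ω) ≠ 0 := by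
      intro h7
      have h8 : a = 0 := Subtype.ext h7
      rw [h8, map_zero] at h4
      exact h4 rfl
    have := hr h6
    linarith

/-- Bounded distortion passes to finite separable extensions of a henselian field. -/
theorem bd_adj_hen (p : ℕ) [Fact p.Prime] [CharP Ω p] [IsAlgClosed Ω] (h : Ctx0 k v)
    {E : IntermediateField k Ω} (hE : hen v E = E) (hBD : BD p v E) {θ : Ω}
    (hθ : IsSeparable E θ) : BD p v (adj E θ) := by
  have hEM : E ≤ adj E θ := (mem_adj_self E θ).2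
  obtain ⟨C, hC⟩ := orthq_adj h hE hθ
  have h1 : BDq v E.toSubfield (adj E θ).toSubfield := BDq.of_bas (bas_adj_alg hθ.isIntegral) hC
  have h2 : BDq v (Qp p E) E.toSubfield := hBD.bdq
  have h3 : BDq v (Qp p E) (adj E θ).toSubfield := h1.trans h2 Qp_le' hEM
  exact BD.of_bdq (h3.mid (Qp_mono hEM) Qp_le').1

/-- The derivation of a field with the `p`-basis `x` and bounded distortion. -/
theorem exists_nrm_bd (p : ℕ) [Fact p.Prime] [CharP Ω p] [CharP k p] [PerfectRing k p]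
    (hk : Ctx0 k v) (hpb : PBasis p M ![x]) (hBD : BD p v M) (hx0 : x ≠ 0) (hδ : 0 < δ) :
    ∃ (τ : Ω) (D : Derivation k M Ω), Nrm v M τ δ D := by
  obtain ⟨c₀, ho⟩ := hBD.orth hpb
  obtain ⟨D, h1, h2⟩ := exists_der_pb p hk hpb ho
  exact exists_nrm D (hpb.mem 0) hx0 (h1 _) h2 hδ

end Pool.Agent.TWJ2
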