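import Pool.Agent.Lib.TWJ2.NearF
import Pool.Agent.Lib.TWF.InfAlt

/-!
# TANK W, row J.8 over an infinite `W`, part 2: the alternatives

* `hon_of_finf`: `FInf` with finitely many jumps over `W` gives `TWF.Hon` (`x'` and `y'`, the same `C`);
* `hon_tight`: if the base of an honest floor has a tight element, then it has one, `U 0`, algebraic
  over `k(t)`, which can be taken as the coordinate of the base;
* `alt_of_hon`: an honest first floor is of type (H) or (C).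
-/

set_option autoImplicit false

open Polynomial

namespace Pool.Agent.TWJ2

open Pool.Agent.H15JM (RVal)
open Pool.Agent.LU1 (adj)
open Pool.Agent.D2 (Ctx0)
open Pool.Agent.D2P (hen clI mem_clI mem_adj_self)
open Pool.Agent.TW
open Pool.Agent.TWM
open Pool.Agent.TWS (IsoE SphC VG)
open Pool.Agent.TWC (Tgt exists_rts)
open Pool.Agent.TWF

universe u

variable {k Ω : Type u} [Field k] [Field Ω] [Algebra k Ω] {v : RVal Ω}
  {C W : IntermediateField k Ω} {t y : Ω} {s : ℝ}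

/-- The algebraic closures of `k(t)` and of `k(a)`. -/
theorem algIn_exch [IsAlgClosed k] (hk : Ctx0 k v) {a : Ω} (ha0 : a ≠ 0) (hav : v a ≠ 0)
    (hat : IsAlgebraic (adj (⊥ : IntermediateField k Ω) t) a) :
    algIn W (adj ⊥ t) ≤ algIn W (adj (⊥ : IntermediateField k Ω) a) := by
  intro b hb
  obtain ⟨h1, h2⟩ := mem_algIn.1 hb
  refine mem_algIn.2 ⟨h1, ?_⟩
  have h3 : IsAlgebraic (adj (⊥ : IntermediateField k Ω) a) t :=
    D2P.alg_exchange (TWC.transcendental_of_val hk ha0 hav) hat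
  have h4 : adj (⊥ : IntermediateField k Ω) t ≤ TWM.algc (adj ⊥ a) :=
    D2P.adj_le bot_le (mem_algc.2 h3)
  exact TWM.isAlgebraic_of_algc (D2P.isAlgebraic_mono h4 h2)

/-- An element which is not a `p`-th power is a `p`-basis. -/
theorem pbasis_of_not_pow (p : ℕ) [hp : Fact p.Prime] [CharP Ω p] {M : IntermediateField k Ω}
    (ht : PBasis p M ![t]) {b : Ω} (hb : b ∈ M) (hbn : ∀ g ∈ M, g ^ p ≠ b) :
    PBasis p M ![b] := by
  have hbQ : b ∉ Qp p M := fun h => by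
    obtain ⟨c, hc, h1⟩ := mem_Qp.1 h
    exact hbn c hc h1
  have hx := bas_pow (Q := Qp p M) hbQ (mem_Qp.2 ⟨b, hb, rfl⟩)
  refine ⟨fun i => ?_, fun f hf => ?_, fun c hc h0 α => ?_⟩
  · fin_cases i
    exact hb
  · obtain ⟨h, hh, h1⟩ := TWCT.pb1_of_pbasis ht hb hbn f hf
    refine ⟨fun α => h (α 0 : ℕ), fun α => hh _, ?_⟩
    rw [pcomb_one, h1, Finset.sum_range]
    rfl
  · rw [pcomb_one] at h0
    have h1 := hx.ind (fun j : Fin p => c ![j] ^ p) (fun j => mem_Qp.2 ⟨_, hc _, rfl⟩) h0 (α 0)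
    have h3 : α = ![α 0] := by
      funext j
      fin_cases j
      rfl
    rw [h3]
    exact pow_eq_zero_iff hp.out.ne_zero |>.1 h1

/-- The powers of `x` are orthogonal. -/
theorem oi_fst {p : ℕ} [Fact p.Prime] {x : Ω} {c₀ : ℝ} (h : OI p v C ![x, y] c₀) :
    OI p v C ![x] c₀ := by
  intro c hc b hb α
  rw [pcomb_one] at hb
  have h1 := oi_x h (fun i => hc ![i]) hb (α 0)
  have h2 : α = ![α 0] := by
    funext j
    fin_cases j
    rfl
  have h3 : mon (p := p) ![x] α = x ^ (α 0 : ℕ) := by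
    rw [mon, Fin.prod_univ_one]
    rfl
  rw [h3]
  rwa [← h2] at h1

/-- **Finitely many jumps over `W`: an honest first floor.** -/
theorem hon_of_finf [IsAlgClosed k] [IsAlgClosed Ω] (p : ℕ) [hp : Fact p.Prime] [CharP k p]
    [CharP Ω p] (hk : Ctx0 k v) (hc : CompleteV v) (hw : SphC v)
    (hval : ∀ r : ℝ, ∃ x : Ω, x ≠ 0 ∧ v x = r) {x : Ω} {c₀ : ℝ} (h : FInf p v C x y s c₀)
    (hFJ : FJ v (WX v C x) y) :
    ∃ (W : IntermediateField k Ω) (t y' : Ω) (s' : ℝ), Hon p v C W t y' s' := by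
  obtain ⟨Φ, η, y', s', c', -, hH, -, -⟩ := hon_of_fj p hk hc hw hval h hFJ
  refine ⟨WX v C (Φ x), Φ x, y', s', cld_WX v C _, mem_WX hH.mx, hH.x0, hH.vx, ?_, ?_, hH.eq,
    hH.tl⟩
  · refine le_antisymm (clI_mono fun a ha => ?_) (WX_le (cld_WX v C _))
    obtain ⟨h1, h2⟩ := mem_algIn.1 ha
    exact mem_algIn.2 ⟨algIn_le_WX ha, h2⟩
  · have h5 : OI p v (WX v C (Φ x)) ![Φ x] c' :=
      (oi_fst hH.oi).mono (WX_le h.toFF.cld) le_rfl
    exact pbasis_clI hc (pb_W p hk hH.oi hH.x0 hH.vx hH.mx).2 h5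

/-- **A tight element of an honest base can be taken as its coordinate.** -/
theorem hon_tight (p : ℕ) [hp : Fact p.Prime] [CharP Ω p] [IsAlgClosed k] [IsAlgClosed Ω]
    (hk : Ctx0 k v) (h : Hon p v C W t y s) {X : ℕ → Ω} {r : ℝ} (hXv : v (X 0) ≠ 0)
    (hX : Tgt p v W X r) : ∃ U : ℕ → Ω, Hon p v C W (U 0) y s ∧ Tgt p v W U r := by
  have hX0 : X 0 ≠ 0 := fun h0 => hX.root_notMem (by
    have h1 := hX.root 0
    rw [h0, zero_add] at h1
    rw [pow_eq_zero_iff hp.out.ne_zero |>.1 h1]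
    exact zero_mem _)
  have hmem : X 0 ∈ WX v W t := h.alg ▸ hX.mem
  obtain ⟨a, ha, h1⟩ := (mem_clI.1 hmem) (max r (v (X 0)) + 1)
  have h1' : v.Ge (max r (v (X 0)) + 1) (X 0 - a) := h1
  obtain ⟨haW, hat⟩ := mem_algIn.1 ha
  obtain ⟨ha0, hav⟩ := Gt.val_eq (v := v) (x := X 0) (y := a) hX0 (fun h2 => by
    have := h1' h2
    linarith [le_max_right r (v (X 0))])
  obtain ⟨U, hU0, hU⟩ := exists_rts (p := p) a
  have hUT : Tgt p v W U r := hX.congr hU (by rw [hU0]; exact haW) (fun h2 => by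
    have h3 : X 0 - a ≠ 0 := by
      intro h4
      apply h2
      rw [hU0]
      linear_combination -h4
    have h5 : v (U 0 - X 0) = v (X 0 - a) := by
      rw [hU0, ← v.map_neg _ h3, neg_sub]
    have := h1' h3
    rw [h5]
    linarith [le_max_left r (v (X 0))])
  refine ⟨U, ?_, hUT⟩
  rw [hU0]
  refine ⟨h.cld, haW, ha0, by rw [hav]; exact hXv, ?_, ?_, h.eq, h.tl⟩
  · refine le_antisymm ?_ (WX_le h.cld)
    nth_rw 1 [h.alg]
    exact clI_mono (algIn_exch hk ha0 (by rw [hav]; exact hXv) hat)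
  · refine pbasis_of_not_pow p h.pb haW fun g hg hga => hUT.far_pow hg ?_
    rw [hU0, hga, sub_self]
    exact fun h0 => absurd rfl h0

/-- **An honest first floor: tight or contact.** -/
theorem alt_of_hon (p : ℕ) [hp : Fact p.Prime] [CharP Ω p] [IsAlgClosed k] [IsAlgClosed Ω]
    (hk : Ctx0 k v) (h : Hon p v C W t y s) : AltH p v C ∨ AltC p v C := by
  by_cases hT : ∃ (X : ℕ → Ω) (r : ℝ), v (X 0) ≠ 0 ∧ Tgt p v W X r
  · obtain ⟨X, r, hXv, hX⟩ := hT
    obtain ⟨U, h1, h2⟩ := hon_tight p hk h hXv hX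
    exact Or.inl ⟨W, U, y, r, s, h1, h2⟩
  · right
    push Not at hT
    exact ⟨W, t, y, s, h, fun X r h1 => hT X r h1⟩

end Pool.Agent.TWJ2
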