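import Pool.Agent.Lib.TWJ2.NearG
import Pool.Agent.Lib.TWJ2.NearD
import Pool.Agent.Lib.TWC.BaseX
import Pool.Agent.Lib.TWS7.Str

/-!
# TANK W: the near copy of a field inside a closed field, `Ω` complete

`M` is LD, with `p`-basis `x`, `BD`; every `a ∈ M` has a `c ∈ C` with `v (c - a) ≥ v a + κ`, `κ > 0`.

* `LD.map`: the transfer of `LD`;
* `NCp v w M W γ ι Φ`: `ι`, `Φ : Ω → H` isometric, `Φ` near to `ι` on `M` with gain `γ`, and
  `Φ(M) = ι(W)`: `W` is a near copy of `M`;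
* `NCp.rts`: the roots; `NCp.cld`, `.nr'`, `.lim`, `.dst`, `.root`, `.pb`, `.ew`, `.clI`: the transfer;
* **`exists_near_copy`**: the closure of `M` has a near copy in `C`, with any gain `γ < κ`.
-/

set_option autoImplicit false

open Polynomial

namespace Pool.Agent.TWJ2

open Pool.Agent.H15JM (RVal)
open Pool.Agent.LU1 (adj)
open Pool.Agent.D2 (Ctx0)
open Pool.Agent.D2P (hen clI mem_clI mem_adj_self)
open Pool.Agent.TW
open Pool.Agent.TWM
open Pool.Agent.TWM.Dense (apply_mem_map map_inj adj_map isAlgebraic_iff pbasis_iff)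
open Pool.Agent.TWS (IsoE SphC VG)
open Pool.Agent.TWC (Dst EW)
open Pool.Agent.TWCT

universe u

variable {k Ω H : Type u} [Field k] [Field Ω] [Algebra k Ω] [Field H] [Algebra k H]
  {v : RVal Ω} {w : RVal H} {ι Φ : Ω →ₐ[k] H} {M C W : IntermediateField k Ω}
  {γ : ℝ} {x y : Ω}

theorem LD.map (h : IsoE v w ι) (hM : LD v M) : LD w (M.map ι) := by
  intro S hS
  classical
  have h1 : ∀ s ∈ S, ∃ a ∈ M, ι a = s := fun s hs => Dense.mem_map.1 (hS s hs)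
  choose! g hgM hg using h1
  obtain ⟨F, hF, hSF, π, hπ, hπ0, hπv, hval⟩ := hM (S.image g) (fun a ha => by
    obtain ⟨s, hs, rfl⟩ := Finset.mem_image.1 ha
    exact hgM s hs)
  refine ⟨F.map ι, IntermediateField.map_mono ι hF, fun s hs => ?_, ι π, ⟨π, hπ, rfl⟩,
    IsoE.ne_zero hπ0, by rw [h.val π hπ0]; exact hπv, fun b hb hb0 => ?_⟩
  · rw [← hg s hs]
    exact apply_mem_map.2 (hSF _ (Finset.mem_image_of_mem g hs))
  · obtain ⟨a, ha, rfl⟩ := Dense.mem_map.1 hb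
    have ha0 : a ≠ 0 := fun h0 => hb0 (by rw [h0, map_zero])
    obtain ⟨m, hm⟩ := hval a ha ha0
    exact ⟨m, by rw [h.val a ha0, h.val π hπ0, hm]⟩

/-- `W` is a near copy of `M`, with gain `γ`. -/
structure NCp (v : RVal Ω) (w : RVal H) (M W : IntermediateField k Ω) (γ : ℝ)
    (ι Φ : Ω →ₐ[k] H) : Prop where
  ia : IsoE v w ι
  ib : IsoE v w Φ
  map : M.map Φ = W.map ι
  near : ∀ a ∈ M, ∀ r : ℝ, v.Ge r a → w.Ge (r + γ) (Φ a - ι a)

namespace NCp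

theorem mem (h : NCp v w M W γ ι Φ) {a b : Ω} (ha : a ∈ M) (hb : ι b = Φ a) : b ∈ W := by
  have h1 : ι b ∈ W.map ι := by
    rw [hb, ← h.map]
    exact ⟨a, ha, rfl⟩
  exact apply_mem_map.1 h1

theorem exists_img (h : NCp v w M W γ ι Φ) {a : Ω} (ha : a ∈ M) : ∃ b ∈ W, ι b = Φ a := by
  have h1 : Φ a ∈ W.map ι := by
    rw [← h.map]
    exact ⟨a, ha, rfl⟩
  exact Dense.mem_map.1 h1

theorem exists_src (h : NCp v w M W γ ι Φ) {b : Ω} (hb : b ∈ W) : ∃ a ∈ M, ι b = Φ a := by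
  have h1 : ι b ∈ M.map Φ := by
    rw [h.map]
    exact ⟨b, hb, rfl⟩
  obtain ⟨a, ha, h2⟩ := Dense.mem_map.1 h1
  exact ⟨a, ha, h2.symm⟩

theorem cld (h : NCp v w M W γ ι Φ) (hc : CompleteV v) (hM : Cld v M) : Cld v W := by
  have h1 : Cld w (M.map Φ) := (h.ib.cld_iff hc).2 hM
  rw [h.map] at h1
  exact (h.ia.cld_iff hc).1 h1

theorem nr' (h : NCp v w M W γ ι Φ) {a b : Ω} (hb : ι b = Φ a) {s : ℝ} :
    Nr' v W s b ↔ Nr' v M s a := by
  rw [← h.ia.nr'_iff, ← h.ib.nr'_iff, h.map, hb]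

theorem lim (h : NCp v w M W γ ι Φ) {a b : Ω} (hb : ι b = Φ a) {s : ℝ} :
    Lim v W s b ↔ Lim v M s a := by
  rw [← h.ia.lim_iff, ← h.ib.lim_iff, h.map, hb]

theorem dst (h : NCp v w M W γ ι Φ) {a b : Ω} (hb : ι b = Φ a) {s : ℝ} :
    Dst v W b s ↔ Dst v M a s :=
  ⟨fun h1 => ⟨fun h2 => h1.far ((h.nr' hb).2 h2), (h.lim hb).1 h1.near⟩,
    fun h1 => ⟨fun h2 => h1.far ((h.nr' hb).1 h2), (h.lim hb).2 h1.near⟩⟩

theorem clI (h : NCp v w M W γ ι Φ) (hc : CompleteV v) :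
    NCp v w (clI v M) (D2P.clI v W) γ ι Φ where
  ia := h.ia
  ib := h.ib
  map := by rw [← h.ib.clI_map hc, ← h.ia.clI_map hc, h.map]
  near := by
    intro a ha r hr
    obtain ⟨b, hb, h1⟩ := mem_clI.1 ha (max r (r + γ))
    have h2 : v.Ge (max r (r + γ)) (a - b) := h1
    have h3 : v.Ge r b := by
      have e : b = a - (a - b) := by ring
      rw [e]
      exact hr.sub (h2.mono (le_max_left _ _))
    have h4 := h.near b hb r h3
    have e : Φ a - ι a = Φ (a - b) + (Φ b - ι b) - ι (a - b) := by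
      rw [map_sub, map_sub]
      ring
    rw [e]
    exact ((h.ib.ge_iff.2 (h2.mono (le_max_right _ _))).add h4).sub
      (h.ia.ge_iff.2 (h2.mono (le_max_right _ _)))

theorem pb {p : ℕ} (h : NCp v w M W γ ι Φ) {a b : Ω} (hb : ι b = Φ a)
    (hpb : PBasis p M ![a]) : PBasis p W ![b] := by
  have h1 : PBasis p (M.map Φ) (fun i => Φ ((![a] : Fin 1 → Ω) i)) := pbasis_iff.2 hpb
  have h2 : (fun i => Φ ((![a] : Fin 1 → Ω) i)) = fun i => ι ((![b] : Fin 1 → Ω) i) := by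
    funext i
    fin_cases i
    exact hb.symm
  rw [h2, h.map] at h1
  exact pbasis_iff.1 h1

theorem root (h : NCp v w M W γ ι Φ) {p : ℕ} {a b : Ω} (hb : ι b = Φ a)
    (hM : ∀ c ∈ M, ∃ Q ∈ PI M, (Q.eval a) ^ p = c) :
    ∀ c ∈ W, ∃ Q ∈ PI W, (Q.eval b) ^ p = c := by
  intro c hc
  obtain ⟨c', hc', h1⟩ := h.exists_src hc
  obtain ⟨Q, hQ, h2⟩ := hM c' hc'
  have h3 : ∀ i, ∃ d ∈ W, ι d = Φ (Q.coeff i) := fun i => h.exists_img (hQ i)
  choose d hd hdi using h3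
  set R : Polynomial Ω := ∑ i ∈ Finset.range (Q.natDegree + 1), Polynomial.C (d i) * X ^ i with hR
  refine ⟨R, sum_mem fun i _ => mul_mem (C_mem_PI (hd i)) (pow_mem X_mem_PI _), ?_⟩
  apply Dense.inj ι
  have h4 : ι (R.eval b) = Φ (Q.eval a) := by
    rw [hR, eval_finsetSum, map_sum, eval_eq_sum_range, map_sum]
    refine Finset.sum_congr rfl fun i _ => ?_
    rw [eval_mul, eval_C, eval_pow, eval_X, map_mul, map_mul, map_pow, map_pow, hdi, hb]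
  rw [map_pow, h4, ← map_pow, h2, h1]

theorem ew (h : NCp v w M W γ ι Φ) (hc : CompleteV v) {t T : ℕ → Ω}
    (hT : ∀ n, ι (T n) = Φ (t n)) : (EW v M t).map Φ = (EW v W T).map ι := by
  rw [← h.ib.ew_map hc, ← h.ia.ew_map hc, h.map]
  congr 1
  funext n
  exact (hT n).symm

/-- **The roots of an element of `M` and of its image.** -/
theorem rts {p : ℕ} [hp : Fact p.Prime] [CharP Ω p] [CharP H p] [IsAlgClosed Ω]
    (h : NCp v w M W γ ι Φ) {t : ℕ → Ω} (ht : ∀ n, t (n + 1) ^ p = t n) (h0 : t 0 ∈ M) :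
    ∃ T : ℕ → Ω, (∀ n, ι (T n) = Φ (t n)) ∧ T 0 ∈ W ∧ (∀ n, T (n + 1) ^ p = T n) ∧
      ∀ n, v.Ge ((v (t 0) + γ) / p ^ n) (T n - t n) := by
  have hex : ∀ n, ∃ b, ι b = Φ (t n) := by
    intro n
    induction n with
    | zero =>
      obtain ⟨b, -, hb⟩ := h.exists_img h0
      exact ⟨b, hb⟩
    | succ n ih =>
      obtain ⟨b, hb⟩ := ih
      obtain ⟨c, hc⟩ := IsAlgClosed.exists_pow_nat_eq b hp.out.pos
      refine ⟨c, ?_⟩
      have h2 : (ι c - Φ (t (n + 1))) ^ p = 0 := by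
        rw [sub_pow_char, ← map_pow, ← map_pow, hc, hb, ht, sub_self]
      exact sub_eq_zero.1 (pow_eq_zero_iff hp.out.ne_zero |>.1 h2)
  choose T hT using hex
  have hT' : ∀ n, T (n + 1) ^ p = T n := by
    intro n
    apply Dense.inj ι
    rw [map_pow, hT, hT, ← map_pow, ht]
  refine ⟨T, hT, h.mem h0 (hT 0), hT', fun n => ?_⟩
  rw [← h.ia.ge_iff, map_sub, hT]
  refine (TWC.ge_pow_iff (v := w) (pow_pos hp.out.pos n)).1 ?_
  have h1 := h.near (t 0) h0 _ (RVal.ge_self _)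
  have h2 : (Φ (t n) - ι (t n)) ^ p ^ n = Φ (t 0) - ι (t 0) := by
    have h3 : t n ^ p ^ n = t 0 := by
      have := TWC.root_pow_add ht 0 n
      rwa [zero_add] at this
    rw [sub_pow_char_pow, ← map_pow, ← map_pow, h3]
  rw [h2]
  refine h1.mono (le_of_eq ?_)
  have hp0 : ((p : ℝ) ^ n) ≠ 0 := pow_ne_zero n (by exact_mod_cast hp.out.ne_zero)
  push_cast
  field_simp

end NCp

/-- **The near copy.** -/
theorem exists_near_copy [IsAlgClosed k] [IsAlgClosed Ω] (p : ℕ) [hp : Fact p.Prime]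
    [CharP Ω p] [CharP k p] (hk : Ctx0 k v) (hc : CompleteV v) (hM : LD v M)
    (hpb : PBasis p M ![x]) (hBD : BD p v M) (hx0 : x ≠ 0) (hC : Cld v C) {κ : ℝ} (hκ : 0 < κ)
    (hnear : ∀ a ∈ M, ∃ c ∈ C, v.Ge (v a + κ) (c - a)) (hγ : γ < κ) :
    ∃ (W : IntermediateField k Ω) (ι Φ : Ω →ₐ[k] TWS.HF k), W ≤ C ∧ Cld v W ∧
      NCp v (TWS.hv k) (clI v M) W γ ι Φ := by
  obtain ⟨ι, hι⟩ := TWS.exists_emb (k := k) hk
  have hI : IsoE v (TWS.hv k) ι := ⟨hι⟩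
  have : CharP (TWS.HF k) p :=
    charP_of_injective_algebraMap (algebraMap k (TWS.HF k)).injective p
  have hvec : (fun i => ι ((![x] : Fin 1 → Ω) i)) = ![ι x] := by
    funext i
    fin_cases i
    rfl
  have hpb' : PBasis p (M.map ι) ![ι x] := by
    have h1 := (pbasis_iff (ι := ι)).2 hpb
    rwa [hvec] at h1
  have hBD' : BD p (TWS.hv k) (M.map ι) := hI.bd_iff.2 hBD
  set δ : ℝ := min (κ / 3) (κ - γ) with hδ
  have hδ0 : 0 < δ := lt_min (by linarith) (by linarith)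
  have hδ1 : δ ≤ κ / 3 := min_le_left _ _
  have hδ2 : δ ≤ κ - γ := min_le_right _ _
  obtain ⟨τ, D, N⟩ := exists_nrm_bd p (TWS.ctx0_hv k) hpb' hBD' (IsoE.ne_zero hx0) hδ0
  obtain ⟨Ψ, h1, h2, h3⟩ := exists_near_incl (κ := κ) (TWS.ctx0_hv k) (TWS.sphC_hv k)
    (TWS.exists_val k) (LD.map hI hM) N hδ0.le ((hI.cld_iff hc).2 hC) (by linarith) (by
      intro b hb
      obtain ⟨a, ha, rfl⟩ := Dense.mem_map.1 hb
      by_cases ha0 : a = 0
      · refine ⟨0, zero_mem _, ?_⟩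
        rw [ha0, _root_.map_zero, sub_zero]
        exact RVal.Ge.zero
      · obtain ⟨c, hcC, h4⟩ := hnear a ha
        refine ⟨ι c, ⟨c, hcC, rfl⟩, ?_⟩
        rw [← map_sub, hI.ge_iff, hI.val a ha0]
        exact h4)
  have hΦ : IsoE v (TWS.hv k) (Ψ.comp ι) := ⟨fun a ha => by
    rw [AlgHom.comp_apply, h1.val _ (IsoE.ne_zero ha), hI.val a ha]⟩
  have hle : M.map (Ψ.comp ι) ≤ C.map ι := by
    rintro _ ⟨a, ha, rfl⟩
    exact h2 _ ⟨a, ha, rfl⟩
  have hW : M.map (Ψ.comp ι) = ((M.map (Ψ.comp ι)).comap ι).map ι := by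
    refine le_antisymm (fun a ha => ?_) ?_
    · obtain ⟨b, -, rfl⟩ := hle ha
      exact ⟨b, ha, rfl⟩
    · rintro _ ⟨a, ha, rfl⟩
      exact ha
  have hN : NCp v (TWS.hv k) M ((M.map (Ψ.comp ι)).comap ι) γ ι (Ψ.comp ι) :=
    { ia := hI
      ib := hΦ
      map := hW
      near := fun a ha r hr => by
        have h4 := h3 (ι a) ⟨a, ha, rfl⟩ r (hI.ge_iff.2 hr)
        exact h4.mono (by linarith) }
  have hWC : (M.map (Ψ.comp ι)).comap ι ≤ C := fun a ha => by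
    obtain ⟨b, hb, h4⟩ := hle ha
    rwa [← Dense.inj ι h4]
  have hN' := hN.clI hc
  exact ⟨clI v ((M.map (Ψ.comp ι)).comap ι), ι, Ψ.comp ι, TWC.clI_le' hWC hC, cld_clI v _, hN'⟩

end Pool.Agent.TWJ2
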