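import Pool.Agent.Lib.TWJ2.NearC
import Pool.Agent.Lib.TWJ2.NearD

/-!
# TANK W, row J.8 over an infinite base: the near copy

`F` henselian, locally discrete, with the `p`-basis `x` of bounded distortion, `y` transcendental over
`F`, `η` a centre of minimal degree.

* `exists_near_emb`: an isometric embedding of `F(η)` in the closure of `F(y)`, near to the identity;
* `nc_of_emb`: its image is a near copy of `F(η)`;
* `j8_base`: row J.8 over `F`.
-/

set_option autoImplicit false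

open Polynomial

namespace Pool.Agent.TWJ2

open Pool.Agent.H15JM (RVal)
open Pool.Agent.LU1 (adj)
open Pool.Agent.D2 (Ctx0)
open Pool.Agent.D2P (hen clI mem_clI mem_adj_self)
open Pool.Agent.TW
open Pool.Agent.TWJ (IsMin exists_min cen_of_min)
open Pool.Agent.TWM (TL cadj Cld cld_cadj CompleteV)
open Pool.Agent.TWS (IsoE SphC)
open Pool.Agent.TWCT (StrM LD)

universe u

variable {k Ω : Type u} [Field k] [Field Ω] [Algebra k Ω] {v : RVal Ω}
  {F : IntermediateField k Ω} {x y η : Ω} {ρ δ : ℝ}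

/-- A finite separable extension is separable. -/
theorem sep_adj (hη : IsSeparable F η) : ∀ a ∈ adj F η, IsSeparable F a := by
  have h1 : adj F η ≤ (separableClosure F Ω).restrictScalars k :=
    D2P.adj_le (fun a ha => mem_separableClosure_iff.2
      (isSeparable_algebraMap (F := F) (⟨a, ha⟩ : F))) (mem_separableClosure_iff.2 hη)
  exact fun a ha => mem_separableClosure_iff.1 (h1 ha)

/-- **An isometric embedding of `F(η)` in the closure of `F(y)`.** -/
theorem exists_near_emb [IsAlgClosed k] [IsAlgClosed Ω] (p : ℕ) [Fact p.Prime] [CharP Ω p]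
    [CharP k p] (hk : Ctx0 k v) (hw : SphC v) (hval : ∀ r : ℝ, ∃ x : Ω, x ≠ 0 ∧ v x = r)
    (hF : hen v F = F) (hLD : LD v F) (hpb : PBasis p F ![x]) (hBD : BD p v F) (hx0 : x ≠ 0)
    (hy : Transcendental F y) (hη : IsSeparable F η)
    (htb : ∀ P : F[X], P ≠ 0 → P.natDegree < (minpoly F η).natDegree → RB v F η ρ P)
    (hδ : 0 < δ) (h2 : 2 * δ < v (y - η) - ρ) :
    ∃ Φ : Ω →ₐ[k] Ω, IsoE v v Φ ∧ (∀ a ∈ adj F η, Φ a ∈ cadj v F y) ∧
      StrM v Φ (adj F η) (v (y - η) - ρ - δ) := by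
  have hle : F ≤ adj F η := (mem_adj_self F η).2
  have hyη : y ≠ η := fun h => hy (h ▸ hη.isIntegral.isAlgebraic)
  obtain ⟨τ, D, N⟩ := exists_nrm_bd (M := adj F η) p hk (hpb.of_sep p hle (sep_adj hη))
    (bd_adj_hen p hk hF hBD hη) hx0 hδ
  refine exists_near_incl hk hw hval (hLD.alg hle fun a ha => (sep_adj hη a ha).isIntegral.isAlgebraic)
    N hδ.le (cld_cadj v F y) h2 fun a ha => ?_
  obtain ⟨P, hP, rfl⟩ := E4.mem_adj_iff hη ha
  refine ⟨aeval y P, TWM.le_clI _ (E10.aeval_mem_adj _), ?_⟩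
  by_cases hP0 : P = 0
  · rw [hP0, _root_.map_zero, _root_.map_zero, sub_zero]
    exact RVal.Ge.zero
  · exact ((htb P hP0 hP).near (x := y) fun _ => by linarith).2.2 hyη

/-- The image is a near copy. -/
theorem nc_of_emb {Φ : Ω →ₐ[k] Ω} (hiso : IsoE v v Φ) (hy : Transcendental F y) (hη : IsSeparable F η)
    (htb : ∀ P : F[X], P ≠ 0 → P.natDegree < (minpoly F η).natDegree → RB v F η ρ P)
    (hδ : 0 < δ) (h2 : 2 * δ < v (y - η) - ρ)
    (hΦ : StrM v Φ (adj F η) (v (y - η) - ρ - δ)) :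
    NC v F ((adj F η).map Φ) y η (v (y - η) - ρ - δ) := by
  have hyη : y ≠ η := fun h => hy (h ▸ hη.isIntegral.isAlgebraic)
  have key : ∀ P : F[X], P.natDegree < (minpoly F η).natDegree → ∀ c : ℝ,
      v.Ge c (aeval η P) → v.Ge (c + (v (y - η) - ρ - δ)) (aeval y P - Φ (aeval η P)) := by
    intro P hP c hc
    have h3 := hΦ _ (E6.aeval_mem F η P) c hc
    have h4 : v.Ge (c + (v (y - η) - ρ - δ)) (aeval y P - aeval η P) := by
      by_cases hP0 : P = 0
      · rw [hP0, _root_.map_zero, _root_.map_zero, sub_zero]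
        exact RVal.Ge.zero
      · obtain ⟨h5, h6, h7⟩ := (htb P hP0 hP).near (x := y) fun _ => by linarith
        have h8 := hc (htb P hP0 hP).1
        exact (h7 hyη).mono (by linarith)
    have h5 := h4.sub h3
    rwa [sub_sub_sub_cancel_right] at h5
  refine ⟨fun P hP => ⟨Φ (aeval η P), ⟨_, E6.aeval_mem F η P, rfl⟩, fun c hc => ?_⟩, ?_⟩
  · refine key P hP c ?_
    by_cases hP0 : P = 0
    · rw [hP0, _root_.map_zero]
      exact RVal.Ge.zero
    · obtain ⟨h5, h6, h7⟩ := (htb P hP0 hP).near (x := y) fun _ => by linarith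
      intro h8
      rw [← h6]
      exact hc h5
  · rintro _ ⟨a, ha, rfl⟩
    obtain ⟨P, hP, rfl⟩ := E4.mem_adj_iff hη ha
    refine ⟨P, hP, fun c hc => ?_⟩
    have h5 : v.Ge c (aeval η P) := hiso.ge_iff.1 hc
    have h6 := (key P hP c h5).neg
    rwa [neg_sub] at h6

/-- **Row J.8 over `F`.** The closure of `F(y)` is the closure of `E(X)`, `X` of transcendental type
over `E`, and `E` is isometric to the finite separable extension `F(η)`. -/
theorem j8_base [IsAlgClosed k] [IsAlgClosed Ω] (p : ℕ) [Fact p.Prime] [CharP Ω p] [CharP k p]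
    (hk : Ctx0 k v) (hw : SphC v) (hval : ∀ r : ℝ, ∃ x : Ω, x ≠ 0 ∧ v x = r)
    (hF : hen v F = F) (hLD : LD v F) (hpb : PBasis p F ![x]) (hBD : BD p v F) (hx0 : x ≠ 0)
    (hy : Transcendental F y) {s W : ℝ} (S : Sel v F y ρ s W) :
    ∃ (η : Ω) (Φ : Ω →ₐ[k] Ω) (g : ℝ), IsMin v F y η ρ ∧ IsoE v v Φ ∧ 0 < g ∧
      StrM v Φ (adj F η) g ∧ (adj F η).map Φ ≤ cadj v F y ∧
      TL v ((adj F η).map Φ) (aeval y (minpoly F η)) W ∧
      cadj v ((adj F η).map Φ) (aeval y (minpoly F η)) = cadj v F y := by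
  set g := (s - ρ) / 4 with hg
  have hg0 : 0 < g := by
    have := S.lt
    rw [hg]
    linarith
  obtain ⟨x₁, hx₁, hclo⟩ := S.clo g hg0
  obtain ⟨b', c', hb', hgv⟩ := S.ex ρ S.lt
  have hb's : b' < s := by
    obtain ⟨η', h1, h2⟩ := hgv.ex
    exact h2.trans (S.near η' h1.sep.isIntegral.isAlgebraic)
  obtain ⟨η, hη, hηv⟩ := S.cen (max (max x₁ b') (ρ + 3 * g))
    (max_lt (max_lt hx₁ hb's) (by rw [hg]; linarith [S.lt]))
  have h1 : x₁ < v (y - η) := (le_max_left _ _).trans_lt ((le_max_left _ _).trans_lt hηv)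
  have h2 : b' < v (y - η) := (le_max_right _ _).trans_lt ((le_max_left _ _).trans_lt hηv)
  have h3 : ρ + 3 * g < v (y - η) := (le_max_right _ _).trans_lt hηv
  obtain ⟨π, hπ, hπ0, hπb⟩ := hgv.val
  have hcen := cen_of_min hy hη hπ hπ0 (by rw [hπb]; exact hgv.lt) (by rw [hπb]; exact h2)
  obtain ⟨Φ, hΦ, hΦC, hΦs⟩ := exists_near_emb p hk hw hval hF hLD hpb hBD hx0 hy hη.sep hcen.tb
    hg0 (by linarith)
  have hN := nc_of_emb hΦ hy hη.sep hcen.tb hg0 (by linarith) hΦs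
  have hEC : (adj F η).map Φ ≤ cadj v F y := by
    rintro _ ⟨a, ha, rfl⟩
    exact hΦC a ha
  have hEh : hen v ((adj F η).map Φ) = (adj F η).map Φ := by
    rw [hΦ.hen_map, D2P.hen_alg hk hF (mem_adj_self F η).2 fun a ha =>
      (sep_adj hη.sep a ha).isIntegral.isAlgebraic]
  have h4 := hclo η hη h1
  obtain ⟨h5, h6⟩ := hN.main hk hy S hη hg0 (by linarith) hEh hEC
  exact ⟨η, Φ, v (y - η) - ρ - g, hη, hΦ, by linarith, hΦs, hEC, h5, h6⟩

end Pool.Agent.TWJ2
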