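import Pool.Agent.Lib.TWJ.SEC2
import Pool.Agent.Lib.TWJ.STP
import Pool.Agent.Lib.TWJ.ST0
import Pool.Agent.Lib.TWJ2.Defs

/-!
# TANK W, ROW J: the flag of a seed

* `frame_split`: the field of a frame is generated by its last coordinate over the field of the
  first ones;
* `exists_seed_flag`: if `K₀(al)` is not henselian rational there is a seed of minimal index, with a
  flag `(C, y, z)`, `F = C(y)`, `C` the field of a frame.
-/

set_option autoImplicit false

open Polynomial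

namespace Pool.Agent.TWJ2

open Pool.Agent.H15JM (RVal)
open Pool.Agent.LU1 (adj)
open Pool.Agent.D2 (Ctx0)
open Pool.Agent.D2P (hen clI mem_clI mem_adj_self adj_le)
open Pool.Agent.TW
open Pool.Agent.TWM (CompleteV TL le_clI clI_hen clI_mono le_algc adj_range)
open Pool.Agent.TWJ (MinS Seed Fr_init Fr_init_s)

universe u

variable {k Ω : Type u} [Field k] [Field Ω] [Algebra k Ω] {v : RVal Ω} {r D : ℕ}

/-- The last coordinate of a frame. -/
theorem frame_split (R : Fr k v r (D + 1)) :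
    R.K = adj (Fr_init R).K (R.s (Fin.last (r + D))) := by
  rw [P1.K_eq, P1.K_eq, adj_range]
  congr 2
  have h1 : (Fr_init R).s = Fin.init (α := fun _ => Ω) R.s := funext fun i => Fr_init_s R i
  rw [h1]
  exact (Fin.snoc_init_self (α := fun _ => Ω) R.s).symm

/-- The last coordinate is transcendental. -/
theorem frame_split_tr (R : Fr k v r (D + 1)) :
    Transcendental (Fr_init R).K (R.s (Fin.last (r + D))) := by
  rw [P1.K_eq]
  have h1 : (Fr_init R).s = Fin.init (α := fun _ => Ω) R.s := funext fun i => Fr_init_s R i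
  rw [h1]
  have h2 : AlgebraicIndependent k (R.s : Fin (r + D + 1) → Ω) := E6.alg_s R
  exact TWJ.tr_last h2

variable [IsAlgClosed k] [IsAlgClosed Ω]

/-- The flag of a seed. -/
theorem flg_of_seed (p : ℕ) [hp : Fact p.Prime] [CharP k p] [CharP Ω p] (h : Ctx k v r)
    {K : IntermediateField k Ω} {a : Ω} {q : ℕ} {F : IntermediateField k Ω} {z : Ω}
    {s Dq e₀ c₀ : ℝ} {A : Polynomial Ω} (hs : Seed p v r (D + 1) K a q F z s Dq e₀ c₀ A) :
    ∃ (R : Fr k v r D) (y : Ω), F = adj R.K y ∧ Flg p v (r + D) K R.K y z ∧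
      TL v (clI v (adj R.K y)) z s := by
  obtain ⟨R, rfl⟩ := hs.rat
  have h1 := frame_split R
  have h2 := frame_split_tr R
  have hty : TL v (clI v R.K) z s := TWC.TL.base hs.ty (le_clI _) (clI_mono (le_algc _))
  refine ⟨Fr_init R, R.s (Fin.last (r + D)), h1, ⟨Est.fg_K _, Est.full_K h _, Est.trdeg_K _, ?_,
    h2, ?_, ?_, ?_⟩, ?_⟩
  · refine BD.of_adj p (Est.fg_K _) h2 ?_
    rw [← h1]
    exact hs.bd
  · rw [← h1]
    exact hs.bd
  · rw [← h1]
    intro h3
    exact (hs.ty.far z h3).1 rfl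
  · rw [← h1]
    exact hs.cl
  · rw [← h1]
    exact hty

/-- **The alternative, with a flag.** -/
theorem exists_seed_flag (p : ℕ) [hp : Fact p.Prime] [CharP k p] [CharP Ω p] (h : Ctx k v r)
    (hcv : CompleteV v)
    (hLU : ∀ E : IntermediateField k Ω, E.FG → Full v E →
      Algebra.trdeg k E = (r + (D + 1) : ℕ) → BD p v E → LU p v r E)
    (hDn : ∀ E : IntermediateField k Ω, E.FG → Full v E →
      Algebra.trdeg k E = (r + (D + 1) : ℕ) → BD p v E → Dns v E)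
    {K₀ : IntermediateField k Ω} (hK : K₀.FG) (hKf : Full v K₀)
    (htr : Algebra.trdeg k K₀ = (r + (D + 1) + 1 : ℕ)) (hBD : BD p v K₀) (hHR : HRone v K₀)
    {al : Ω} (hal : al ^ p ∈ K₀) (hBDal : BD p v (adj K₀ al)) (hno : ¬ HRone v (adj K₀ al)) :
    ∃ μ : ℝ, (∀ g ∈ clI v K₀, ¬ v.Ge μ (al ^ p - g ^ p)) ∧
      ∃ q : ℕ, p ∣ q ∧ 0 < q ∧ MinS p v r (D + 1) (clI v K₀) (al ^ p) q ∧
        ∃ (R : Fr k v r D) (y z : Ω) (s Dq e₀ c₀ : ℝ) (A : Polynomial Ω),
          Seed p v r (D + 1) (clI v K₀) (al ^ p) q (adj R.K y) z s Dq e₀ c₀ A ∧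
          Flg p v (r + D) (clI v K₀) R.K y z ∧ TL v (clI v (adj R.K y)) z s := by
  have hLUK : LU p v r K₀ := TW.LU_of_HRone p h hK hKf hBD htr hLU hHR
  obtain ⟨N, z, hN, hNf, hz, hhen⟩ := hHR
  have htrN : Algebra.trdeg k N = (r + (D + 1) : ℕ) := by
    have h1 : Algebra.trdeg k (adj N z) = ((r + (D + 1) + 1 : ℕ) : Cardinal) := by
      rw [← TW.HRLU.trdeg_hen (v := v), ← hhen, TW.HRLU.trdeg_hen, htr]
    rw [TW.HRLU.trdeg_adj hz] at h1
    push_cast at h1 ⊢
    exact Cardinal.add_one_inj.1 h1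
  rcases TWJ.seed_or_hrone (D := D + 1) p h hcv hLU hDn hK hKf htr hBD hal hBDal
      (fun hμ => TWJ.exists_Stt_of_LU p h hcv hK htr hBD hLUK (le_clI K₀ hal) hμ)
      ⟨N, z, hN, hNf, htrN, by rw [← clI_hen K₀, hhen, clI_hen]⟩ with h1 | h1
  · exact absurd h1 hno
  · obtain ⟨μ, hμ, q, hpq, hq, hmin, F, z, s, Dq, e₀, c₀, A, hs⟩ := h1
    obtain ⟨R, y, h2, h3, h4⟩ := flg_of_seed p h hs
    rw [h2] at hs
    exact ⟨μ, hμ, q, hpq, hq, hmin, R, y, z, s, Dq, e₀, c₀, A, hs, h3, h4⟩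

end Pool.Agent.TWJ2
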