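import Pool.Agent.Lib.TWJ2.Gauss
import Pool.Agent.Lib.TWJ2.Gbl

/-!
# TANK W, ROW J, soft form, cell (D): the polynomial of a seed over `C[Y]`

* `Evl v C y P`: `P b` for all the radii `b` bigger than the distance of some algebraic element;
* `evl_ncl`, `evl_GB`: the polynomials over `C` have no root in the small discs, a value at `y` is a
  Gauss value on the small discs;
* `PolyS p v C y q s Dq η c₁ c' A`: the properties of the polynomial `A` (inner variable `Y`, outer
  variable `Z`) of a seed of index `q`, at all the small levels;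
* `exists_polyS`: the polynomial of a seed, with a prescribed precision;
* `GBL.derivative`, `PolyS.np`: **(P)**, the coefficients of index prime to `p` are never visible;
* `PolyS.low`: **(L)**, the coefficients of index `i < q`, `p ∣ i`, after a change of the centre;
* `cutq`: the part of degree `≤ q`.
-/

set_option autoImplicit false

open Polynomial

namespace Pool.Agent.TWJ2

open Pool.Agent.H15JM (RVal)
open Pool.Agent.LU1 (adj)
open Pool.Agent.D2 (Ctx0)
open Pool.Agent.D2P (clI mem_clI)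
open Pool.Agent.TW (Full BD Fr)
open Pool.Agent.TWM (PI PII TL Gt GB C_mem_PI X_mem_PI isAlgebraic_root)
open Pool.Agent.TWJ (Seed Dst)

universe u

variable {k Ω : Type u} [Field k] [Field Ω] [Algebra k Ω] {v : RVal Ω}
  {C : IntermediateField k Ω} {y : Ω}

/-! ### The small levels -/

/-- `P b` for all the radii bigger than the distance of some algebraic element. -/
def Evl (v : RVal Ω) (C : IntermediateField k Ω) (y : Ω) (P : ℝ → Prop) : Prop :=
  ∃ ξ : Ω, IsAlgebraic C ξ ∧ ∀ b : ℝ, v (y - ξ) < b → P b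

theorem Evl.of_all {P : ℝ → Prop} (h : ∀ b, P b) : Evl v C y P :=
  ⟨0, isAlgebraic_zero, fun b _ => h b⟩

theorem Evl.mono {P Q : ℝ → Prop} (h : Evl v C y P) (h' : ∀ b, P b → Q b) : Evl v C y Q := by
  obtain ⟨ξ, h1, h2⟩ := h
  exact ⟨ξ, h1, fun b hb => h' b (h2 b hb)⟩

theorem Evl.and {P Q : ℝ → Prop} (h : Evl v C y P) (h' : Evl v C y Q) :
    Evl v C y fun b => P b ∧ Q b := by
  obtain ⟨ξ, h1, h2⟩ := h
  obtain ⟨ξ', h1', h2'⟩ := h'
  rcases le_total (v (y - ξ)) (v (y - ξ')) with h3 | h3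
  · exact ⟨ξ', h1', fun b hb => ⟨h2 b (h3.trans_lt hb), h2' b hb⟩⟩
  · exact ⟨ξ, h1, fun b hb => ⟨h2 b hb, h2' b (h3.trans_lt hb)⟩⟩

theorem Evl.finset {ι : Type*} (S : Finset ι) {P : ι → ℝ → Prop}
    (h : ∀ i ∈ S, Evl v C y (P i)) : Evl v C y fun b => ∀ i ∈ S, P i b := by
  classical
  induction S using Finset.induction_on with
  | empty => exact Evl.of_all fun b i hi => absurd hi (Finset.notMem_empty i)
  | insert a S ha ih =>
    refine ((h a (Finset.mem_insert_self a S)).and
      (ih fun i hi => h i (Finset.mem_insert_of_mem hi))).mono fun b hb i hi => ?_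
    rcases Finset.mem_insert.1 hi with rfl | h1
    · exact hb.1
    · exact hb.2 i h1

/-- A level in the set of the small levels, of big degree if there are infinitely many jumps. -/
theorem Evl.exists_Lev [IsAlgClosed Ω] (h0 : Ctx0 k v) (hfull : Full v C)
    (hy : Transcendental C y) (hFJ : ¬ FJ v C y) (d : ℕ) {P : ℝ → Prop} (h : Evl v C y P) :
    ∃ (b : ℝ) (φ : Polynomial Ω) (β : ℝ), P b ∧ d < φ.natDegree ∧ Lev v C y b φ β := by
  obtain ⟨ξ, h1, h2⟩ := h
  obtain ⟨b, φ, β, h3, h4, h5⟩ := exists_Lev_of_not_FJ h0 hfull hy hFJ d h1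
  exact ⟨b, φ, β, h2 b h3, h4, h5⟩

/-- The polynomials over `C` have no roots in the small discs. -/
theorem evl_ncl (hy : Transcendental C y) {g : Polynomial Ω} (hg : g ∈ PI C) (h0 : g ≠ 0) :
    Evl v C y fun b => ncl v y b g = 0 := by
  classical
  have h1 : Evl v C y fun b => ∀ η ∈ g.roots.toFinset, v (y - η) < b :=
    Evl.finset _ fun η hη => ⟨η, isAlgebraic_root hg h0
      ((mem_roots h0).1 (Multiset.mem_toFinset.1 hη)), fun b hb => hb⟩
  refine h1.mono fun b hb => ?_
  by_contra hn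
  obtain ⟨η, h2, h3⟩ := (ncl_pos_iff h0).1 (Nat.pos_of_ne_zero hn)
  have h4 := hb η (Multiset.mem_toFinset.2 ((mem_roots h0).2 h2))
  have h5 := h3 (root_ne hy hg h0 h2)
  linarith

/-- A value at `y` is a Gauss value on the small discs. -/
theorem evl_GB [IsAlgClosed Ω] (hy : Transcendental C y) {g : Polynomial Ω} (hg : g ∈ PI C)
    {lam : ℝ} (h : v.Ge lam (g.eval y)) : Evl v C y fun b => GB v b lam (taylor y g) := by
  by_cases h0 : g = 0
  · refine Evl.of_all fun b => ?_
    rw [h0, map_zero]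
    exact GB.zero
  · refine (evl_ncl hy hg h0).mono fun b hb => ?_
    obtain ⟨h1, h2⟩ := gval_eq_eval h0 hb
    rw [GB_iff h0, ← h2]
    exact h h1

theorem evl_GBL [IsAlgClosed Ω] (hy : Transcendental C y) {P : Polynomial (Polynomial Ω)}
    (hP : PII C P) {c lam : ℝ} (h : ∀ i : ℕ, v.Ge (lam - i * c) ((P.coeff i).eval y)) :
    Evl v C y fun b => GBL v y b c lam P := by
  have h1 : Evl v C y fun b => ∀ i ∈ Finset.range (P.natDegree + 1),
      GB v b (lam - i * c) (taylor y (P.coeff i)) :=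
    Evl.finset _ fun i _ => evl_GB hy (hP i) (h i)
  refine h1.mono fun b hb i => ?_
  by_cases hi : i ∈ Finset.range (P.natDegree + 1)
  · exact hb i hi
  · rw [coeff_eq_zero_of_natDegree_lt (by rw [Finset.mem_range] at hi; omega), map_zero]
    exact GB.zero

/-! ### Derivatives -/

/-- The derivative and the change of the centre. -/
theorem derivative_taylor' {R : Type*} [CommRing R] (r : R) (f : R[X]) :
    derivative (taylor r f) = taylor r (derivative f) := by
  rw [taylor_apply, taylor_apply, derivative_comp, derivative_add, derivative_X, derivative_C,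
    add_zero, one_mul]

/-- The part of degree `≤ q`. -/
noncomputable def cutq (q : ℕ) (A : Polynomial (Polynomial Ω)) : Polynomial (Polynomial Ω) :=
  ∑ l ∈ Finset.range (q + 1), Polynomial.C (A.coeff l) * Polynomial.X ^ l

theorem cutq_coeff (q : ℕ) (A : Polynomial (Polynomial Ω)) (i : ℕ) :
    (cutq q A).coeff i = if i ≤ q then A.coeff i else 0 := by
  rw [cutq, finsetSum_coeff]
  simp only [coeff_C_mul, coeff_X_pow, mul_ite, mul_one, mul_zero]
  rw [Finset.sum_ite_eq]
  simp

theorem cutq_natDegree (q : ℕ) (A : Polynomial (Polynomial Ω)) : (cutq q A).natDegree ≤ q := by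
  rw [natDegree_le_iff_coeff_eq_zero]
  intro i hi
  rw [cutq_coeff, if_neg (by omega)]

theorem cutq_mem {q : ℕ} {A : Polynomial (Polynomial Ω)} (hA : PII C A) : PII C (cutq q A) := by
  intro i
  rw [cutq_coeff]
  split_ifs
  exacts [hA i, zero_mem _]

/-- The coefficients of the derivative. -/
theorem GBL.cutq_derivative {A : Polynomial (Polynomial Ω)} {b c lam : ℝ} (q : ℕ)
    (h : GBL v y b c lam (derivative A)) : GBL v y b c lam (derivative (cutq q A)) := by
  intro i
  rw [coeff_derivative, cutq_coeff]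
  split_ifs
  · have h1 := h i
    rwa [coeff_derivative] at h1
  · rw [zero_mul, map_zero]
    exact GB.zero

variable {p : ℕ}

/-- **(P)**: the coefficients of index prime to `p` are bounded by the derivative. -/
theorem GBL.coeff_of_derivative [Fact p.Prime] [CharP Ω p] {Q : Polynomial (Polynomial Ω)}
    {b c lam : ℝ} (h : GBL v y b c lam (derivative Q)) {l : ℕ} (hl : ¬ p ∣ l) :
    GB v b (lam - (l - 1) * c) (taylor y (Q.coeff l)) := by
  have hl0 : l ≠ 0 := fun h0 => hl (h0 ▸ dvd_zero p)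
  obtain ⟨j, rfl⟩ := Nat.exists_eq_succ_of_ne_zero hl0
  have h1 := h j
  rw [coeff_derivative] at h1
  have h2 := TWM.val_natCast (v := v) (Ω := Ω) p hl
  have h3 : (Q.coeff (j + 1) * ((j : Polynomial Ω) + 1)) * Polynomial.C (((j + 1 : ℕ) : Ω)⁻¹) =
      Q.coeff (j + 1) := by
    have h4 : ((j : Polynomial Ω) + 1) = Polynomial.C ((j + 1 : ℕ) : Ω) := by
      rw [map_natCast]
      push_cast
      ring
    rw [h4, mul_assoc, ← C_mul, mul_inv_cancel₀ h2.1, C_1, mul_one]
  have h5 := h1.mul (GB.C (b := b) (v := v) (lam := 0)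
    (RVal.Ge.of_le (v := v) (x := ((j + 1 : ℕ) : Ω)⁻¹) (by rw [v.map_inv h2.1, h2.2, neg_zero])))
  rw [show taylor y (Q.coeff (j + 1)) = taylor y (Q.coeff (j + 1) * ((j : Polynomial Ω) + 1)) *
    Polynomial.C (((j + 1 : ℕ) : Ω)⁻¹) by
      conv_lhs => rw [← h3, taylor_mul, taylor_C]]
  refine h5.mono ?_
  push_cast
  linarith

/-- The Taylor coefficients. -/
theorem taylor_coeff_sum {R : Type*} [CommRing R] (r : R) (f : R[X]) {q : ℕ}
    (hf : f.natDegree ≤ q) (i : ℕ) : (taylor r f).coeff i =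
      ∑ j ∈ Finset.range (q + 1), ((j + i).choose i : R) * f.coeff (j + i) * r ^ j := by
  rw [taylor_coeff, eval_eq_sum_range' (n := q + 1)]
  · exact Finset.sum_congr rfl fun j _ => by rw [hasseDeriv_coeff]
  · exact Nat.lt_succ_of_le ((natDegree_hasseDeriv_le f i).trans ((Nat.sub_le _ _).trans hf))

theorem GB_natCast {R : Type*} [Field R] {v : RVal R} (b : ℝ) (y : R) (n : ℕ) :
    GB v b 0 (taylor y (n : Polynomial R)) := by
  rw [← C_eq_natCast, taylor_C]
  exact GB.C (TWM.ge_natCast v n)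

/-- **(L)**: the coefficients of index `i ≤ q`, `p ∣ i`, after a change of the centre. -/
theorem low_rule [hp : Fact p.Prime] [CharP Ω p] {Q : Polynomial (Polynomial Ω)} {q : ℕ}
     (hQd : Q.natDegree ≤ q) {b c₁ c' s Dq h : ℝ} {θ : Polynomial Ω} (hθ : θ ∈ PI C)
    (hθb : GB v b c' (taylor y θ)) (hder : GBL v y b c₁ (Dq + (q - 1) * s) (derivative Q))
    (h1 : c₁ ≤ s) (h2 : c' ≤ s) (hlo : ∀ m < q, p ∣ m → ∃ g ∈ PI C,
      GB v b (Dq + (q - m) * c') (taylor y (Q.coeff m - g ^ p)))
    (hq : ∃ g ∈ PI C, GB v b h (taylor y (Q.coeff q - g ^ p))) (hh : h ≤ Dq) {i : ℕ}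
    (hi : i ≤ q) (hpi : p ∣ i) : ∃ g ∈ PI C,
      GB v b (h + (q - i) * c') (taylor y ((taylor θ Q).coeff i - g ^ p)) := by
  classical
  have hcP : CharP (Polynomial Ω) p := inferInstance
  have hlo' : ∀ l : ℕ, ∃ g ∈ PI C, l ≤ q → p ∣ l →
      GB v b (h + (q - l) * c') (taylor y (Q.coeff l - g ^ p)) := by
    intro l
    by_cases hl : l ≤ q ∧ p ∣ l
    · rcases hl.1.lt_or_eq with h3 | h3
      · obtain ⟨g, hg, h4⟩ := hlo l h3 hl.2
        exact ⟨g, hg, fun _ _ => h4.mono (by linarith)⟩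
      · subst h3
        obtain ⟨g, hg, h4⟩ := hq
        exact ⟨g, hg, fun _ _ => h4.mono (by linarith)⟩
    · exact ⟨0, zero_mem _, fun h3 h4 => absurd ⟨h3, h4⟩ hl⟩
  choose g hg hgb using hlo'
  let G : Polynomial Ω := ∑ j ∈ Finset.range (q + 1),
    if j + i ≤ q ∧ p ∣ j + i then ((j + i).choose i : Polynomial Ω) * g (j + i) * θ ^ (j / p) else 0
  have hGC : G ∈ PI C := by
    refine sum_mem fun j _ => ?_
    split_ifs
    · exact mul_mem (mul_mem (natCast_mem _ _) (hg _)) (pow_mem hθ _)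
    · exact zero_mem _
  refine ⟨G, hGC, ?_⟩
  have hGp : G ^ p = ∑ j ∈ Finset.range (q + 1), if j + i ≤ q ∧ p ∣ j + i then
      ((j + i).choose i : Polynomial Ω) * g (j + i) ^ p * θ ^ j else 0 := by
    have e1 : G ^ p = ∑ j ∈ Finset.range (q + 1), (if j + i ≤ q ∧ p ∣ j + i then
        ((j + i).choose i : Polynomial Ω) * g (j + i) * θ ^ (j / p) else 0) ^ p :=
      sum_pow_char p _ _
    rw [e1]
    refine Finset.sum_congr rfl fun j _ => ?_
    split_ifs with h3
    · have h4 : p ∣ j := (Nat.dvd_add_left hpi).1 h3.2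
      have h5 : (((j + i).choose i : ℕ) : Polynomial Ω) ^ p = ((j + i).choose i : ℕ) := by
        have h6 := map_natCast (frobenius (Polynomial Ω) p) ((j + i).choose i)
        rwa [frobenius_def] at h6
      rw [mul_pow, mul_pow, h5, ← pow_mul, Nat.div_mul_cancel h4]
    · exact zero_pow hp.out.ne_zero
  rw [taylor_coeff_sum θ Q hQd i, hGp, ← Finset.sum_sub_distrib, map_sum]
  refine GB.sum _ _ fun j _ => ?_
  have hθj : GB v b (j * c') (taylor y (θ ^ j)) := by
    rw [taylor_pow]
    exact hθb.pow j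
  by_cases h3 : j + i ≤ q
  · by_cases h4 : p ∣ j + i
    · rw [if_pos ⟨h3, h4⟩]
      have e1 : ((j + i).choose i : Polynomial Ω) * Q.coeff (j + i) * θ ^ j -
          ((j + i).choose i : Polynomial Ω) * g (j + i) ^ p * θ ^ j =
          ((j + i).choose i : Polynomial Ω) * (Q.coeff (j + i) - g (j + i) ^ p) * θ ^ j := by ring
      rw [e1, taylor_mul, taylor_mul]
      refine (((GB_natCast b y _).mul (hgb _ h3 h4)).mul hθj).mono ?_
      push_cast
      linarith
    · rw [if_neg fun h5 => h4 h5.2, sub_zero, taylor_mul, taylor_mul]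
      refine (((GB_natCast b y _).mul (hder.coeff_of_derivative h4)).mul hθj).mono ?_
      have h5 : (1 : ℝ) ≤ (j : ℝ) + i := by
        have : 1 ≤ j + i := Nat.one_le_iff_ne_zero.2 fun h0 => h4 (h0 ▸ dvd_zero p)
        exact_mod_cast this
      have h6 : (j : ℝ) + i ≤ q := by exact_mod_cast h3
      push_cast
      nlinarith [mul_nonneg (sub_nonneg.2 h5) (sub_nonneg.2 h1),
        mul_nonneg (sub_nonneg.2 h6) (sub_nonneg.2 h2)]
  · rw [if_neg fun h5 => h3 h5.1, sub_zero,
      coeff_eq_zero_of_natDegree_lt (lt_of_le_of_lt hQd (not_le.1 h3)), mul_zero, zero_mul, map_zero]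
    exact GB.zero

/-! ### The polynomial of a seed -/

/-- The properties of the polynomial of a seed of index `q` at the small levels. -/
structure PolyS (p : ℕ) (v : RVal Ω) (C : IntermediateField k Ω) (y : Ω) (q : ℕ)
    (s Dq η c₁ c' : ℝ) (A : Polynomial (Polynomial Ω)) : Prop where
  mem : PII C A
  nh : ∀ e : ℝ, 0 < e → ∀ g ∈ PI C, ¬ v.Ge (Dq + e) ((A.coeff q - g ^ p).eval y)
  nl : ∀ ε : ℝ, 0 < ε → Evl v C y fun b => ∃ g ∈ PI C,
    GB v b (Dq - ε) (taylor y (A.coeff q - g ^ p))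
  lo : Evl v C y fun b => ∀ m < q, p ∣ m → ∃ g ∈ PI C,
    GB v b (Dq + (q - m) * c') (taylor y (A.coeff m - g ^ p))
  der : Evl v C y fun b => GBL v y b c₁ (Dq + (q - 1) * s) (derivative A)
  high : Evl v C y fun b => ∀ m : ℕ, q < m →
    GB v b (Dq + q * s + η - m * c₁) (taylor y (A.coeff m))

theorem coeff_pow_dvd [hp : Fact p.Prime] [CharP Ω p] (g : Polynomial Ω) (m : ℕ) :
    (g ^ p).coeff m = if p ∣ m then g.coeff (m / p) ^ p else 0 := by
  rw [← Polynomial.map_frobenius_expand (p := p), coeff_map, coeff_expand hp.out.pos, frobenius_def]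
  split_ifs
  · rfl
  · exact zero_pow hp.out.ne_zero

theorem exists_between_roots {z : Ω} {s c : ℝ} (hc : c < s) (S : Finset Ω)
    (hS : ∀ ρ ∈ S, v (z - ρ) < s) : ∃ c₁ : ℝ, c < c₁ ∧ c₁ < s ∧ ∀ ρ ∈ S, v (z - ρ) < c₁ := by
  classical
  induction S using Finset.induction_on with
  | empty => exact ⟨(c + s) / 2, by linarith, by linarith, fun ρ hρ =>
      absurd hρ (Finset.notMem_empty ρ)⟩
  | insert a S ha ih =>
    obtain ⟨c₁, h1, h2, h3⟩ := ih fun ρ hρ => hS ρ (Finset.mem_insert_of_mem hρ)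
    have h4 := hS a (Finset.mem_insert_self a S)
    refine ⟨(max c₁ (v (z - a)) + s) / 2, ?_, ?_, fun ρ hρ => ?_⟩
    · have := le_max_left c₁ (v (z - a))
      linarith
    · have := max_lt h2 h4
      linarith
    · rcases Finset.mem_insert.1 hρ with rfl | h5
      · have := le_max_right c₁ (v (z - ρ))
        linarith [max_lt h2 h4]
      · have := le_max_left c₁ (v (z - a))
        linarith [h3 ρ h5]

section Seed

variable [hp : Fact p.Prime] [CharP Ω p] {K F : IntermediateField k Ω} {a z : Ω} {r D q : ℕ}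
  {s Dq e₀ c₀ : ℝ} {A : Polynomial Ω}

/-- The coefficients of index prime to `p`. -/
theorem Seed.coeff_np (hS : Seed p v r D K a q F z s Dq e₀ c₀ A) {θ : Ω} (hθ : θ ∈ F)
    (hc : c₀ < v (z - θ)) {m : ℕ} (hm : m < q) (hpm : ¬ p ∣ m) :
    v.Ge (Dq + (q - m) * v (z - θ)) ((taylor θ A).coeff m) := by
  have hqm : (0 : ℝ) ≤ q - m := by
    have : (m : ℝ) ≤ q := by exact_mod_cast hm.le
    linarith
  refine TWM.ge_of_eps_mul ((q : ℝ) - m) hqm fun ε hε => ?_
  obtain ⟨c, h1, h2, h3⟩ : ∃ c : ℝ, c₀ ≤ c ∧ c < v (z - θ) ∧ v (z - θ) - ε ≤ c := by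
    refine ⟨max c₀ (v (z - θ) - ε), le_max_left _ _, max_lt hc (by linarith), le_max_right _ _⟩
  obtain ⟨e, he, g, -, -, h4⟩ := hS.low θ hθ c h1 h2
  have h5 := h4 m hm
  rw [coeff_sub, coeff_pow_dvd, if_neg hpm, sub_zero] at h5
  exact h5.mono (by nlinarith)

/-- The derivative on a small disc without roots. -/
theorem Seed.exists_der [IsAlgClosed Ω] (hS : Seed p v r D K a q F z s Dq e₀ c₀ A) (hpq : p ∣ q)
    (hq : 0 < q) {cs : ℝ} (hcs : cs < s) : ∃ c₁ : ℝ, cs < c₁ ∧ c₀ < c₁ ∧ c₁ < s ∧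
      GB v c₁ (Dq + (q - 1) * s) (taylor z (derivative A)) := by
  classical
  have hq1 : 1 < q := lt_of_lt_of_le hp.out.one_lt (Nat.le_of_dvd hq hpq)
  have hBF : derivative A ∈ PI F := fun i => by
    rw [coeff_derivative]
    exact mul_mem (hS.mem _) (add_mem (natCast_mem F i) (one_mem F))
  have hm : max cs c₀ < s := max_lt hcs hS.lt
  by_cases hB : derivative A = 0
  · refine ⟨(max cs c₀ + s) / 2, ?_, ?_, by linarith, ?_⟩
    · linarith [le_max_left cs c₀]
    · linarith [le_max_right cs c₀]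
    · rw [hB, map_zero]
      exact GB.zero
  have hroot : ∀ ρ ∈ (derivative A).roots.toFinset, v (z - ρ) < s := fun ρ hρ =>
    (hS.ty.far ρ (isAlgebraic_root hBF hB ((mem_roots hB).1 (Multiset.mem_toFinset.1 hρ)))).2
  obtain ⟨c₁, h1, h2, h3⟩ := exists_between_roots hm _ hroot
  have hn : ncl v z c₁ (derivative A) = 0 := by
    by_contra hn
    obtain ⟨η, h4, h5⟩ := (ncl_pos_iff hB).1 (Nat.pos_of_ne_zero hn)
    have h6 := h3 η (Multiset.mem_toFinset.2 ((mem_roots hB).2 h4))
    have h7 := (hS.ty.far η (isAlgebraic_root hBF hB h4)).1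
    linarith [h5 (sub_ne_zero.2 h7)]
  obtain ⟨h4, h5⟩ := gval_eq_eval hB hn
  refine ⟨c₁, (le_max_left _ _).trans_lt h1, (le_max_right _ _).trans_lt h1, h2, ?_⟩
  refine GB_gval.mono (lam := gval v z c₁ (derivative A)) ?_
  rw [← h5]
  -- the value of the derivative at `z`
  obtain ⟨δ, hδ, h6⟩ := hS.ty.near_val (TWM.PI_mono (TWM.le_algc F) hBF) hB
  have hge : v.Ge (Dq + (q - 1) * s) ((derivative A).eval z) := by
    have hq0 : (0 : ℝ) ≤ (q : ℝ) - 1 := by
      have : (1 : ℝ) ≤ q := by exact_mod_cast hq1.le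
      linarith
    refine TWM.ge_of_eps_mul ((q : ℝ) - 1) hq0 fun ε hε => ?_
    obtain ⟨ψ, hψ, h7⟩ := hS.ty.lim (min (min δ ε) ((s - c₀) / 2))
      (lt_min (lt_min hδ hε) (by linarith [hS.lt]))
    obtain ⟨h8, h9⟩ := h6 ψ (h7.mono (by
      have h10 := min_le_left (min δ ε) ((s - c₀) / 2)
      have h11 := min_le_left δ ε
      linarith))
    have hzψ : z - ψ ≠ 0 :=
      sub_ne_zero.2 (hS.ty.far ψ (isAlgebraic_algebraMap (R := F) (A := Ω) (⟨ψ, hψ⟩ : F))).1
    have h10 := h7 hzψ
    have h11 := min_le_left (min δ ε) ((s - c₀) / 2)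
    have h12 := min_le_right (min δ ε) ((s - c₀) / 2)
    have h13 := min_le_right δ ε
    have h14 := Seed.coeff_np hS hψ (by linarith [hS.lt]) hq1 (fun h => by
      have := Nat.le_of_dvd one_pos h
      have := hp.out.two_le
      omega)
    rw [taylor_coeff_one] at h14
    intro _
    have h15 := h14 h8
    rw [h9] at h15
    push_cast at h15
    nlinarith
  exact hge h4

/-- **Cell (D)**: the polynomial of a seed over `C[Y]`, with a prescribed precision. -/
theorem exists_polyS [IsAlgClosed Ω] (hS : Seed p v r D K a q F z s Dq e₀ c₀ A) (hpq : p ∣ q)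
    (hq : 0 < q) (hy : Transcendental C y) (hden : ∀ w ∈ F, ∀ B : ℝ, ∃ f ∈ PI C, v.Ge B (w - f.eval y))
    (hCF : adj C y ≤ clI v F) {cs : ℝ} (hcs : cs < s) : ∃ θ ∈ F, ∃ c₁ c' : ℝ, cs < c₁ ∧ c₀ < c₁ ∧
      c₁ < c' ∧ c' < v (z - θ) ∧ v (z - θ) < s ∧ ∀ M : ℝ, ∃ A₁ : Polynomial (Polynomial Ω),
        v.Ge M (A.eval z - A₁.evalEval y (z - θ)) ∧
        PolyS p v C y q s Dq (e₀ / 2) c₁ c' A₁ := by
  classical
  have hp0 : 0 < p := hp.out.pos
  set n := A.natDegree with hn
  -- the radii
  obtain ⟨c₁, h1, h2, h3, hder⟩ := Seed.exists_der hS hpq hq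
    (cs := max cs (s - e₀ / (2 * (n + 1)))) (max_lt hcs (by
      have : 0 < e₀ / (2 * ((n : ℝ) + 1)) := div_pos hS.pos (by positivity)
      linarith))
  have h1a : cs < c₁ := (le_max_left _ _).trans_lt h1
  have h1b : s - c₁ < e₀ / (2 * (n + 1)) := by
    have := (le_max_right cs (s - e₀ / (2 * (n + 1)))).trans_lt h1
    linarith
  obtain ⟨θ, hθ, h4⟩ := hS.ty.lim ((s - c₁) / 3) (by linarith)
  obtain ⟨hzθ, h5⟩ := hS.ty.far θ (isAlgebraic_algebraMap (R := F) (A := Ω) (⟨θ, hθ⟩ : F))
  have h6 := h4 (sub_ne_zero.2 hzθ)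
  obtain ⟨c', hc'⟩ : ∃ c' : ℝ, c' = s - (s - c₁) / 2 := ⟨_, rfl⟩
  have hc1 : c₁ < c' := by rw [hc']; linarith
  have hc2 : c' < v (z - θ) := by rw [hc']; linarith
  refine ⟨θ, hθ, c₁, c', h1a, h2, hc1, hc2, h5, fun M => ?_⟩
  have hcge : v.Ge c₁ (z - θ) := fun _ => by linarith
  -- the polynomial at `θ`
  set A' := taylor θ A with hA'
  have hA'F : A' ∈ PI F := TWM.taylor_mem_PI hS.mem hθ
  have hn' : A'.natDegree = n := natDegree_taylor A θ
  -- the precision
  obtain ⟨cz, hcz0, hcz⟩ : ∃ cz : ℝ, cz ≤ 0 ∧ v.Ge cz (z - θ) :=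
    ⟨min 0 (v (z - θ)), min_le_left _ _, (RVal.ge_self _).mono (min_le_right _ _)⟩
  obtain ⟨M', hM'⟩ : ∃ M' : ℝ, M' = |M| + |Dq| + q * |s| + q * |c'| + (n + 1) * |c₁| + e₀ + 1 -
    n * cz := ⟨_, rfl⟩
  have hn0 : (0 : ℝ) ≤ n := Nat.cast_nonneg n
  have hq0 : (1 : ℝ) ≤ q := by exact_mod_cast hq
  have hb0 : 0 ≤ (q : ℝ) * |s| := by positivity
  have hb1 : 0 ≤ (q : ℝ) * |c'| := by positivity
  have hb2 : 0 ≤ ((n : ℝ) + 1) * |c₁| := by positivity
  have hb3 : n * cz ≤ 0 := mul_nonpos_of_nonneg_of_nonpos hn0 hcz0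
  have he0 := hS.pos
  have hfl : ∀ l : ℕ, ∃ f ∈ PI C, v.Ge M' (A'.coeff l - f.eval y) := fun l => hden _ (hA'F l) M'
  choose f hfC hf using hfl
  set A₁ : Polynomial (Polynomial Ω) :=
    ∑ l ∈ Finset.range (n + 1), Polynomial.C (f l) * Polynomial.X ^ l with hA₁
  have hcoef : ∀ i, A₁.coeff i = if i ≤ n then f i else 0 := by
    intro i
    rw [hA₁, finsetSum_coeff]
    simp only [coeff_C_mul, coeff_X_pow, mul_ite, mul_one, mul_zero]
    rw [Finset.sum_ite_eq]
    simp
  have hnear : ∀ i, v.Ge M' (A'.coeff i - (A₁.coeff i).eval y) := by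
    intro i
    rw [hcoef]
    split_ifs with hi
    · exact hf i
    · rw [eval_zero, sub_zero, coeff_eq_zero_of_natDegree_lt (by omega)]
      exact RVal.Ge.zero
  have hA₁C : PII C A₁ := fun i => by
    rw [hcoef]
    split_ifs
    exacts [hfC i, zero_mem _]
  have hA₁n : A₁.natDegree ≤ n := by
    rw [natDegree_le_iff_coeff_eq_zero]
    intro i hi
    rw [hcoef, if_neg (by omega)]
  -- approximation of elements of `F`
  have happ : ∀ i, ∀ g ∈ F, ∀ B : ℝ, B ≤ M' → v.Ge B (A'.coeff i - g ^ p) →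
      ∃ g' ∈ PI C, v.Ge B ((A₁.coeff i - g' ^ p).eval y) := by
    intro i g hg B hB hgB
    obtain ⟨g', hg', h7⟩ := hden g hg (B / p)
    refine ⟨g', hg', ?_⟩
    have h8 : v.Ge B (g ^ p - g'.eval y ^ p) := by
      rw [← sub_pow_char]
      refine (TWM.ge_pow h7 p).mono (le_of_eq ?_)
      rw [mul_div_cancel₀]
      exact_mod_cast hp0.ne'
    have e1 : (A₁.coeff i - g' ^ p).eval y = (A'.coeff i - g ^ p) -
        (A'.coeff i - (A₁.coeff i).eval y) + (g ^ p - g'.eval y ^ p) := by
      rw [eval_sub, eval_pow]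
      ring
    rw [e1]
    exact (hgB.sub ((hnear i).mono hB)).add h8
  refine ⟨A₁, ?_, hA₁C, ?_, ?_, ?_, ?_, ?_⟩
  · -- the precision
    have e1 : A.eval z = A'.eval (z - θ) := by rw [hA', taylor_eval, sub_add_cancel]
    have e2 : A₁.evalEval y (z - θ) = ∑ i ∈ Finset.range (n + 1),
        (A₁.coeff i).eval y * (z - θ) ^ i := by
      rw [evalEval, eval_eq_sum_range' (Nat.lt_succ_of_le hA₁n), eval_finsetSum]
      refine Finset.sum_congr rfl fun i _ => ?_
      rw [eval_mul, eval_pow, eval_C]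
    rw [e1, e2, eval_eq_sum_range' (n := n + 1) (by rw [hn']; exact Nat.lt_succ_self n),
      ← Finset.sum_sub_distrib]
    refine RVal.Ge.sum _ _ fun i hi => ?_
    rw [← sub_mul]
    refine ((hnear i).mul (TWM.ge_pow hcz i)).mono ?_
    have h7 : (i : ℝ) ≤ n := by exact_mod_cast Nat.lt_succ_iff.1 (Finset.mem_range.1 hi)
    have h8 : (n : ℝ) * cz ≤ i * cz := mul_le_mul_of_nonpos_right h7 hcz0
    have h9 := le_abs_self M
    have h10 := abs_nonneg Dq
    rw [hM']
    linarith
  · -- the distance, upper bound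
    intro e he g hg hge
    obtain ⟨g', hg', h7⟩ := mem_clI.1 (hCF (TWM.eval_mem_adj hg y)) ((Dq + min e 1) / p)
    refine (hS.mid θ hθ (by intro _; linarith)).hi (min e 1) (lt_min he one_pos) g' hg' ?_
    have h8 : v.Ge (Dq + min e 1) (g.eval y ^ p - g' ^ p) := by
      rw [← sub_pow_char]
      refine (TWM.ge_pow h7 p).mono (le_of_eq ?_)
      rw [mul_div_cancel₀]
      exact_mod_cast hp0.ne'
    have e1 : (taylor θ A).coeff q - g' ^ p = (A₁.coeff q - g ^ p).eval y +
        (A'.coeff q - (A₁.coeff q).eval y) + (g.eval y ^ p - g' ^ p) := by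
      rw [eval_sub, eval_pow, hA']
      ring
    rw [e1]
    refine ((hge.mono (by linarith [min_le_left e 1])).add ((hnear q).mono ?_)).add h8
    rw [hM']
    have := min_le_right e 1
    have := le_abs_self Dq
    have := abs_nonneg M
    linarith
  · -- the distance, lower bound
    intro ε hε
    obtain ⟨g, hg, h7⟩ := (hS.mid θ hθ (by intro _; linarith)).lo ε hε
    obtain ⟨g', hg', h8⟩ := happ q g hg _ (by
      rw [hM']
      have := le_abs_self Dq
      have := abs_nonneg M
      linarith) h7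
    exact (evl_GB hy (sub_mem (hA₁C q) (pow_mem hg' p)) h8).mono fun b hb => ⟨g', hg', hb⟩
  · -- the coefficients of index `< q`
    obtain ⟨e, he, g, hg, -, h7⟩ := hS.low θ hθ c' (by linarith) hc2
    have h8 : Evl v C y fun b => ∀ m ∈ Finset.range q, p ∣ m → ∃ g ∈ PI C,
        GB v b (Dq + (q - m) * c') (taylor y (A₁.coeff m - g ^ p)) := by
      refine Evl.finset _ fun m hm => ?_
      by_cases hpm : p ∣ m
      · have h9 := h7 m (Finset.mem_range.1 hm)
        rw [coeff_sub, coeff_pow_dvd, if_pos hpm] at h9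
        have hmq : (m : ℝ) ≤ q := by exact_mod_cast (Finset.mem_range.1 hm).le
        have hm0 : (0 : ℝ) ≤ m := Nat.cast_nonneg m
        obtain ⟨g', hg', h10⟩ := happ m (g.coeff (m / p)) (hg _) (Dq + (q - m) * c') (by
          rw [hM']
          have := le_abs_self Dq
          have := abs_nonneg M
          have h11 : ((q : ℝ) - m) * c' ≤ q * |c'| := by
            have h12 : ((q : ℝ) - m) * c' ≤ (q - m) * |c'| :=
              mul_le_mul_of_nonneg_left (le_abs_self c') (by linarith)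
            have h13 : ((q : ℝ) - m) * |c'| ≤ q * |c'| :=
              mul_le_mul_of_nonneg_right (by linarith) (abs_nonneg c')
            linarith
          linarith) (h9.mono (by linarith))
        exact (evl_GB hy (sub_mem (hA₁C m) (pow_mem hg' p)) h10).mono fun b hb _ => ⟨g', hg', hb⟩
      · exact Evl.of_all fun b h => absurd h hpm
    exact h8.mono fun b hb m hm => hb m (Finset.mem_range.2 hm)
  · -- the derivative
    have hd : GB v c₁ (Dq + (q - 1) * s) (taylor θ (derivative A)) :=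
      GB.centre (z := z) (by rw [← neg_sub]; exact hcge.neg) hder
    refine evl_GBL hy (fun i => ?_) fun i => ?_
    · rw [coeff_derivative]
      exact mul_mem (hA₁C _) (add_mem (natCast_mem _ _) (one_mem _))
    · have h7 := hd i
      rw [← derivative_taylor', ← hA', coeff_derivative] at h7
      rw [coeff_derivative]
      by_cases hi : i + 1 ≤ n
      · have e1 : (A₁.coeff (i + 1) * ((i : Polynomial Ω) + 1)).eval y =
            A'.coeff (i + 1) * ((i : Ω) + 1) -
              (A'.coeff (i + 1) - (A₁.coeff (i + 1)).eval y) * ((i : Ω) + 1) := by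
          rw [eval_mul, eval_add, eval_natCast, eval_one]
          ring
        have h8 : v.Ge 0 ((i : Ω) + 1) := by
          have := TWM.ge_natCast v (i + 1)
          push_cast at this
          exact this
        rw [e1]
        refine h7.sub (((hnear (i + 1)).mul h8).mono ?_)
        rw [hM']
        have := le_abs_self Dq
        have := abs_nonneg M
        have h9 : ((q : ℝ) - 1) * s ≤ q * |s| := by
          have h10 : ((q : ℝ) - 1) * s ≤ (q - 1) * |s| :=
            mul_le_mul_of_nonneg_left (le_abs_self s) (by linarith)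
          nlinarith [abs_nonneg s]
        have h11 : -(i * c₁) ≤ (n + 1) * |c₁| := by
          have h12 : -(i * c₁) ≤ i * |c₁| := by
            have := neg_le_abs c₁
            nlinarith [(Nat.cast_nonneg i : (0 : ℝ) ≤ i)]
          have h13 : (i : ℝ) * |c₁| ≤ (n + 1) * |c₁| :=
            mul_le_mul_of_nonneg_right (by
              have : (i : ℝ) + 1 ≤ n := by exact_mod_cast hi
              linarith) (abs_nonneg c₁)
          linarith
        linarith
      · rw [hcoef, if_neg hi, zero_mul, eval_zero]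
        exact RVal.Ge.zero
  · -- the coefficients of index `> q`
    have h8 : Evl v C y fun b => ∀ m ∈ Finset.range (n + 1), q < m →
        GB v b (Dq + q * s + e₀ / 2 - m * c₁) (taylor y (A₁.coeff m)) := by
      refine Evl.finset _ fun m hm => ?_
      by_cases hqm : q < m
      · have h9 := hS.high θ hθ (by intro _; linarith) m hqm
        have hmn : (m : ℝ) ≤ n := by exact_mod_cast Nat.lt_succ_iff.1 (Finset.mem_range.1 hm)
        have hm0 : (0 : ℝ) ≤ m := Nat.cast_nonneg m
        have h10 : m * (s - c₁) ≤ e₀ / 2 := by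
          have h11 : (m : ℝ) * (s - c₁) ≤ (n + 1) * (s - c₁) :=
            mul_le_mul_of_nonneg_right (by linarith) (by linarith)
          have h12 : ((n : ℝ) + 1) * (s - c₁) ≤ (n + 1) * (e₀ / (2 * (n + 1))) :=
            mul_le_mul_of_nonneg_left h1b.le (by linarith)
          have h13 : ((n : ℝ) + 1) * (e₀ / (2 * (n + 1))) = e₀ / 2 := by
            field_simp
          linarith
        have e1 : (A₁.coeff m).eval y = A'.coeff m - (A'.coeff m - (A₁.coeff m).eval y) := by ring
        have h14 : v.Ge (Dq + q * s + e₀ / 2 - m * c₁) ((A₁.coeff m).eval y) := by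
          rw [e1]
          refine (h9.mono (by nlinarith)).sub ((hnear m).mono ?_)
          rw [hM']
          have := le_abs_self Dq
          have := abs_nonneg M
          have h15 : (q : ℝ) * s ≤ q * |s| :=
            mul_le_mul_of_nonneg_left (le_abs_self s) (by linarith)
          have h16 : -(m * c₁) ≤ (n + 1) * |c₁| := by
            have h12 : -(m * c₁) ≤ m * |c₁| := by
              have := neg_le_abs c₁
              nlinarith
            have h13 : (m : ℝ) * |c₁| ≤ (n + 1) * |c₁| :=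
              mul_le_mul_of_nonneg_right (by linarith) (abs_nonneg c₁)
            linarith
          linarith
        exact (evl_GB hy (hA₁C m) h14).mono fun b hb _ => hb
      · exact Evl.of_all fun b h => absurd h hqm
    refine h8.mono fun b hb m hm => ?_
    by_cases hmn : m ∈ Finset.range (n + 1)
    · exact hb m hmn hm
    · rw [hcoef, if_neg (by rw [Finset.mem_range] at hmn; omega), map_zero]
      exact GB.zero

end Seed

/-! ### The properties of the polynomial of a seed, after a change of the centre -/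

theorem GBL.radius_c {P : Polynomial (Polynomial Ω)} {b c c' lam : ℝ} (h : GBL v y b c lam P)
    (hc : c ≤ c') : GBL v y b c' lam P := fun i =>
  (h i).mono (by nlinarith [(Nat.cast_nonneg i : (0 : ℝ) ≤ i)])

section Rul

variable [hp : Fact p.Prime] [CharP Ω p] {q : ℕ} {s Dq η c₁ c' : ℝ}
  {A : Polynomial (Polynomial Ω)}

theorem PolyS.coeff_ne (h : PolyS p v C y q s Dq η c₁ c' A) : A.coeff q ≠ 0 := by
  intro h0
  refine h.nh 1 one_pos 0 (zero_mem _) ?_
  rw [h0, zero_pow hp.out.ne_zero, sub_zero, eval_zero]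
  exact RVal.Ge.zero

theorem cutq_coeff_le {A : Polynomial (Polynomial Ω)} {i : ℕ} (hi : i ≤ q) :
    (cutq q A).coeff i = A.coeff i := by rw [cutq_coeff, if_pos hi]

theorem PolyS.cutq_natDegree (h : PolyS p v C y q s Dq η c₁ c' A) : (cutq q A).natDegree = q :=
  le_antisymm (TWJ2.cutq_natDegree q A) (le_natDegree_of_ne_zero (by
    rw [cutq_coeff_le le_rfl]
    exact h.coeff_ne))

omit hp [CharP Ω p] in
/-- The coefficient of index `q` does not change. -/
theorem taylor_cutq_coeff (θ : Polynomial Ω) : (taylor θ (cutq q A)).coeff q = A.coeff q := by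
  classical
  rw [taylor_coeff_sum θ _ (TWJ2.cutq_natDegree q A), Finset.sum_eq_single 0]
  · rw [Nat.zero_add, Nat.choose_self, Nat.cast_one, one_mul, pow_zero, mul_one,
      cutq_coeff_le le_rfl]
  · intro j _ hj
    rw [cutq_coeff, if_neg (by omega), mul_zero, zero_mul]
  · intro h
    exact absurd (Finset.mem_range.2 (Nat.succ_pos q)) h

omit hp [CharP Ω p] in
/-- The distance of the coefficient of index `q` is at most `Dq` at all levels. -/
theorem PolyS.le_Dq (h : PolyS p v C y q s Dq η c₁ c' A) {b lam : ℝ} {g : Polynomial Ω}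
    (hg : g ∈ PI C) (hb : GB v b lam (taylor y (A.coeff q - g ^ p))) : lam ≤ Dq := by
  by_contra hlt
  push Not at hlt
  refine h.nh (lam - Dq) (by linarith) g hg ?_
  have h1 := hb 0
  rw [taylor_coeff_zero] at h1
  exact h1.mono (by push_cast; linarith)

/-- **(P)**: the coefficients of index prime to `p` are never visible. -/
theorem PolyS.P (h : PolyS p v C y q s Dq η c₁ c' A) : Evl v C y fun b => ∀ θ ∈ PI C,
    GB v b c₁ (taylor y θ) → ∀ l : ℕ, ¬ p ∣ l →
      GB v b (Dq + (q - 1) * s - (l - 1) * c₁) (taylor y ((taylor θ (cutq q A)).coeff l)) ∧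
      GB v b (Dq + (q - 1) * s - (l - 1) * c₁) (taylor y ((taylor θ A).coeff l)) := by
  refine h.der.mono fun b hb θ _ hθb l hl => ⟨?_, ?_⟩
  · have h1 : GBL v y b c₁ (Dq + (q - 1) * s) (derivative (taylor θ (cutq q A))) := by
      rw [derivative_taylor']
      exact (hb.cutq_derivative q).recentre hθb
    exact h1.coeff_of_derivative hl
  · have h1 : GBL v y b c₁ (Dq + (q - 1) * s) (derivative (taylor θ A)) := by
      rw [derivative_taylor']
      exact hb.recentre hθb
    exact h1.coeff_of_derivative hl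

/-- **(L)**: the coefficients of index `i ≤ q`, `p ∣ i`, at the centre `θ`, at the level `b`. -/
theorem PolyS.L (h : PolyS p v C y q s Dq η c₁ c' A) (h1 : c₁ ≤ s) (h2 : c' ≤ s) :
    Evl v C y fun b => ∀ θ ∈ PI C, GB v b c' (taylor y θ) → ∀ lam : ℝ, ∀ g₀ ∈ PI C,
      GB v b lam (taylor y (A.coeff q - g₀ ^ p)) → ∀ i ≤ q, p ∣ i → ∃ g ∈ PI C,
        GB v b (lam + (q - i) * c') (taylor y ((taylor θ (cutq q A)).coeff i - g ^ p)) := by
  refine (h.der.and h.lo).mono fun b hb θ hθ hθb lam g₀ hg₀ hlam i hi hpi => ?_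
  refine low_rule (TWJ2.cutq_natDegree q A) hθ hθb (hb.1.cutq_derivative q) h1 h2
    (fun m hm hpm => ?_) ⟨g₀, hg₀, ?_⟩ (h.le_Dq hg₀ hlam) hi hpi
  · rw [cutq_coeff_le hm.le]
    exact hb.2 m hm hpm
  · rw [cutq_coeff_le le_rfl]
    exact hlam

omit hp [CharP Ω p] in
/-- The part of degree `> q` is never visible. -/
theorem PolyS.H (h : PolyS p v C y q s Dq η c₁ c' A) : Evl v C y fun b => ∀ θ ∈ PI C,
    GB v b c₁ (taylor y θ) → ∀ c : ℝ, c₁ ≤ c →
      GBL v y b c (Dq + q * s + η) (taylor θ A - taylor θ (cutq q A)) := by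
  refine h.high.mono fun b hb θ _ hθb c hc => ?_
  rw [← map_sub]
  refine GBL.radius_c (GBL.recentre hθb fun i => ?_) hc
  rw [coeff_sub, cutq_coeff]
  by_cases hi : i ≤ q
  · rw [if_pos hi, sub_self, map_zero]
    exact GB.zero
  · rw [if_neg hi, sub_zero]
    exact hb i (not_le.1 hi)

end Rul

end Pool.Agent.TWJ2
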