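import Pool.Agent.Lib.TWJ2.LemR
import Pool.Agent.Lib.TWJ2.RowJ0

/-!
# TANK W, ROW J: the seed with polynomial coefficients

* `seed_scale`: multiplication of the polynomial of a seed by the `p`-th power of a constant;
* `exists_seed_poly`: over `F = C(y)` one may assume that the coefficients are polynomials in `y`.
-/

set_option autoImplicit false

open Polynomial

namespace Pool.Agent.TWJ2

open Pool.Agent.H15JM (RVal)
open Pool.Agent.LU1 (adj)
open Pool.Agent.D2P (clI mem_adj_self)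
open Pool.Agent.TW
open Pool.Agent.TWM (TL PI le_clI)
open Pool.Agent.TWJ (MinS Seed Dst)

universe u

variable {k Ω : Type u} [Field k] [Field Ω] [Algebra k Ω] {v : RVal Ω} {r D : ℕ}

theorem ge_of_pow_mul {u x : Ω} {c : ℝ} (p : ℕ) (hu : u ≠ 0) (h : v.Ge (p * v u + c) (u ^ p * x)) :
    v.Ge c x := by
  intro hx
  have h1 := h (mul_ne_zero (pow_ne_zero p hu) hx)
  rw [v.map_mul (pow_ne_zero p hu) hx, v.map_pow hu] at h1
  linarith

theorem ge_pow_mul {u x : Ω} {c : ℝ} (p : ℕ) (h : v.Ge c x) :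
    v.Ge (p * v u + c) (u ^ p * x) := by
  intro hx
  have hu : u ^ p ≠ 0 := left_ne_zero_of_mul hx
  by_cases hp : p = 0
  · subst hp
    rw [pow_zero, one_mul, Nat.cast_zero, zero_mul, zero_add]
    exact h (right_ne_zero_of_mul hx)
  have hu' : u ≠ 0 := fun h0 => hu (by rw [h0, zero_pow hp])
  have h1 := h (right_ne_zero_of_mul hx)
  rw [v.map_mul hu (right_ne_zero_of_mul hx), v.map_pow hu']
  linarith

/-- Multiplication by the `p`-th power of a constant. -/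
theorem seed_scale {p : ℕ} {K : IntermediateField k Ω} {a : Ω} {q : ℕ} {F : IntermediateField k Ω}
    {z : Ω} {s Dq e₀ c₀ : ℝ} {A : Polynomial Ω} (hS : Seed p v r D K a q F z s Dq e₀ c₀ A) {u : Ω}
    (hu : u ∈ F) (hu0 : u ≠ 0) :
    Seed p v r D K a q F z s (Dq + p * v u) e₀ c₀ (C (u ^ p) * A) := by
  have hFK : F ≤ K := by
    rw [hS.cl]
    exact fun x hx => le_clI _ ((mem_adj_self F z).2 hx)
  have hco : ∀ (θ : Ω) (m : ℕ), (taylor θ (C (u ^ p) * A)).coeff m =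
      u ^ p * (taylor θ A).coeff m := by
    intro θ m
    rw [taylor_mul, taylor_C, coeff_C_mul]
  refine ⟨hS.rat, hS.fg, hS.full, hS.tr, hS.bd, hS.ty, hS.cl, ?_, ?_, hS.lt, hS.pos, ?_, ?_, ?_⟩
  · obtain ⟨h, hh, hh0, g, hg, h1⟩ := hS.rep
    refine ⟨h * u, mul_mem hh (hFK hu), mul_ne_zero hh0 hu0, g * u, mul_mem hg (hFK hu), ?_⟩
    rw [eval_mul, eval_C, ← h1]
    ring
  · intro i
    rw [coeff_C_mul]
    exact mul_mem (pow_mem hu p) (hS.mem i)
  · intro θ hθ h1 m hm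
    rw [hco]
    exact (ge_pow_mul p (hS.high θ hθ h1 m hm)).mono (by linarith)
  · intro θ hθ h1
    obtain ⟨h2, h3⟩ := hS.mid θ hθ h1
    refine ⟨fun ε hε => ?_, fun e he g hg h4 => ?_⟩
    · obtain ⟨g, hg, h4⟩ := h2 ε hε
      refine ⟨u * g, mul_mem hu hg, ?_⟩
      rw [hco, mul_pow, ← mul_sub]
      exact (ge_pow_mul p h4).mono (by linarith)
    · refine h3 e he (g / u) (div_mem hg hu) (ge_of_pow_mul p hu0 ?_)
      have h5 : u ^ p * ((taylor θ A).coeff q - (g / u) ^ p) =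
          (taylor θ (C (u ^ p) * A)).coeff q - g ^ p := by
        rw [hco, mul_sub, div_pow, mul_div_cancel₀ _ (pow_ne_zero p hu0)]
      rw [h5]
      exact h4.mono (by linarith)
  · intro θ hθ c hc h1
    obtain ⟨e, he, g, hg, h2, h3⟩ := hS.low θ hθ c hc h1
    refine ⟨e, he, C u * g, ?_, ?_, fun m hm => ?_⟩
    · intro i
      rw [coeff_C_mul]
      exact mul_mem hu (hg i)
    · rwa [natDegree_C_mul hu0]
    · have h4 : taylor θ (C (u ^ p) * A) - (C u * g) ^ p = C (u ^ p) * (taylor θ A - g ^ p) := by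
        rw [taylor_mul, taylor_C, mul_pow, ← C_pow]
        ring
      rw [h4, coeff_C_mul]
      exact (ge_pow_mul p (h3 m hm)).mono (by linarith)

/-- A common denominator. -/
theorem exists_common_den {C₀ : IntermediateField k Ω} {y : Ω}
    {A : Polynomial Ω} (hA : A ∈ PI (adj C₀ y)) :
    ∃ d ∈ PI C₀, d.eval y ≠ 0 ∧ ∀ l : ℕ, ∃ f ∈ PI C₀, d.eval y * A.coeff l = f.eval y := by
  classical
  have h1 : ∀ n : ℕ, ∃ d ∈ PI C₀, d.eval y ≠ 0 ∧ ∀ l < n, ∃ f ∈ PI C₀,
      d.eval y * A.coeff l = f.eval y := by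
    intro n
    induction n with
    | zero =>
      refine ⟨1, one_mem _, by rw [eval_one]; exact one_ne_zero, fun l hl => absurd hl (by omega)⟩
    | succ n ih =>
      obtain ⟨d, hd, hd0, h1⟩ := ih
      obtain ⟨P, Q, hQ0, hPQ⟩ := adj_frac (hA n)
      have hm : ∀ R : C₀[X], R.map (algebraMap C₀ Ω) ∈ PI C₀ ∧
          (R.map (algebraMap C₀ Ω)).eval y = aeval y R := fun R =>
        ⟨fun i => by rw [coeff_map]; exact (R.coeff i).2, by rw [eval_map_algebraMap]⟩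
      obtain ⟨hP1, hP2⟩ := hm P
      obtain ⟨hQ1, hQ2⟩ := hm Q
      refine ⟨d * Q.map (algebraMap C₀ Ω), mul_mem hd hQ1, ?_, fun l hl => ?_⟩
      · rw [eval_mul, hQ2]
        exact mul_ne_zero hd0 hQ0
      · rcases Nat.lt_succ_iff_lt_or_eq.1 hl with hl | rfl
        · obtain ⟨f, hf, h2⟩ := h1 l hl
          refine ⟨f * Q.map (algebraMap C₀ Ω), mul_mem hf hQ1, ?_⟩
          rw [eval_mul, eval_mul, ← h2]
          ring
        · refine ⟨d * P.map (algebraMap C₀ Ω), mul_mem hd hP1, ?_⟩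
          rw [eval_mul, eval_mul, hPQ, hP2, hQ2]
          field_simp
  obtain ⟨d, hd, hd0, h2⟩ := h1 (A.natDegree + 1)
  refine ⟨d, hd, hd0, fun l => ?_⟩
  by_cases hl : l < A.natDegree + 1
  · exact h2 l hl
  · refine ⟨0, zero_mem _, ?_⟩
    rw [coeff_eq_zero_of_natDegree_lt (by omega), mul_zero, eval_zero]

/-- **The seed with polynomial coefficients.** -/
theorem exists_seed_poly {p : ℕ} {K : IntermediateField k Ω} {a : Ω} {q : ℕ}
    {C₀ : IntermediateField k Ω} {y z : Ω} {s Dq e₀ c₀ : ℝ} {A : Polynomial Ω} (hp : p ≠ 0)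
    (hS : Seed p v r D K a q (adj C₀ y) z s Dq e₀ c₀ A) :
    ∃ (Dq' : ℝ) (A' : Polynomial Ω), Seed p v r D K a q (adj C₀ y) z s Dq' e₀ c₀ A' ∧
      ∃ f : ℕ → Polynomial Ω, (∀ l, f l ∈ PI C₀) ∧ ∀ l, A'.coeff l = (f l).eval y := by
  obtain ⟨d, hd, hd0, h1⟩ := exists_common_den hS.mem
  choose f hf h2 using h1
  have hdF : d.eval y ∈ adj C₀ y := TWJ.eval_mem_adj hd
  refine ⟨_, _, seed_scale hS hdF hd0, fun l => d ^ (p - 1) * f l, fun l => mul_mem (pow_mem hd _) (hf l),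
    fun l => ?_⟩
  rw [coeff_C_mul, eval_mul, ← h2, eval_pow, ← mul_assoc, ← pow_succ,
    Nat.sub_add_cancel (Nat.one_le_iff_ne_zero.2 hp)]

end Pool.Agent.TWJ2
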