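import Pool.Agent.Lib.TWJ2.Soft1

/-!
# TANK W, ROW J, SOFT J: slopes, backward propagation

* `Ky.gap`: the slope of `gval P - gval θ`, `deg θ < deg P`, is at least the one of the key polynomial;
* `CI`: comparison of increments;
* `D_slope`: the slope of the distance of a polynomial of small degree;
* `BP`: backward propagation.
-/

set_option autoImplicit false

open Polynomial

namespace Pool.Agent.TWJ2.Soft

open Pool.Agent.H15JM (RVal)
open Pool.Agent.TWM (PI PII Gt GB isAlgebraic_root)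

universe u

variable {k Ω : Type u} [Field k] [Field Ω] [Algebra k Ω]

/-! ### the predicate `DG` -/

section DG

variable {p : ℕ} {v : RVal Ω} {N : IntermediateField k Ω} {y : Ω} {b b' lam lam' : ℝ}
  {f g G H ρ : Polynomial Ω}

theorem DG.mono (h : DG p v N y b lam G) (hl : lam' ≤ lam) : DG p v N y b lam' G := by
  intro ε hε
  obtain ⟨g, hg, h1⟩ := h ε hε
  exact ⟨g, hg, h1.mono (by linarith)⟩

theorem DG.up (h : DG p v N y b lam G) (hb : b ≤ b') : DG p v N y b' lam G := by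
  intro ε hε
  obtain ⟨g, hg, h1⟩ := h ε hε
  exact ⟨g, hg, h1.radius_le hb⟩

theorem DG.closed (h : ∀ ε : ℝ, 0 < ε → DG p v N y b (lam - ε) G) : DG p v N y b lam G := by
  intro ε hε
  obtain ⟨g, hg, h1⟩ := h (ε / 2) (by linarith) (ε / 2) (by linarith)
  exact ⟨g, hg, h1.mono (by linarith)⟩

theorem DG.of_gb [hp : Fact p.Prime] (h : GB v b lam (taylor y G)) : DG p v N y b lam G := by
  intro ε hε
  refine ⟨0, zero_mem _, ?_⟩
  rw [zero_pow hp.out.ne_zero, sub_zero]
  exact h.mono (by linarith)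

theorem DG.of_one (hg : g ∈ PI N) (h : GB v b lam (taylor y (G - g ^ p))) :
    DG p v N y b lam G := fun ε hε => ⟨g, hg, h.mono (by linarith)⟩

theorem DG.add [hp : Fact p.Prime] [CharP Ω p] (h : DG p v N y b lam G)
    (h' : DG p v N y b lam H) : DG p v N y b lam (G + H) := by
  intro ε hε
  obtain ⟨g, hg, h1⟩ := h ε hε
  obtain ⟨g', hg', h2⟩ := h' ε hε
  refine ⟨g + g', add_mem hg hg', ?_⟩
  have e : G + H - (g + g') ^ p = (G - g ^ p) + (H - g' ^ p) := by
    rw [add_pow_char]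
    ring
  rw [e, map_add]
  exact h1.add h2

theorem DG.mul_pow (h : DG p v N y b lam G) (hρ : ρ ∈ PI N)
    (h' : GB v b lam' (taylor y ρ)) : DG p v N y b (lam + p * lam') (G * ρ ^ p) := by
  intro ε hε
  obtain ⟨g, hg, h1⟩ := h ε hε
  refine ⟨g * ρ, mul_mem hg hρ, ?_⟩
  have e : G * ρ ^ p - (g * ρ) ^ p = (G - g ^ p) * ρ ^ p := by
    rw [_root_.mul_pow]
    ring
  rw [e, taylor_mul, taylor_pow]
  exact (h1.mul (h'.pow p)).mono (by linarith)

end DG

section Slopes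

variable {p : ℕ} {v : RVal Ω} {N : IntermediateField k Ω} {y η : Ω} {u b w lam lam' : ℝ}
  {f g G H P Q R θ : Polynomial Ω}

/-- The gain of a multiple of `P`. -/
theorem gb_gain [IsAlgClosed Ω] (hP : P ≠ 0) (hub : u ≤ b) (h : GB v u lam (taylor y (P * H))) :
    GB v b (lam + (gval v y b P - gval v y u P)) (taylor y (P * H)) := by
  by_cases h0 : H = 0
  · rw [h0, mul_zero, map_zero]
    exact TWM.GB.zero
  · rw [GB_iff (mul_ne_zero hP h0), gval_mul hP h0] at h ⊢
    have := gval_mono (v := v) (y := y) (f := H) hub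
    linarith

/-- The loss of a polynomial with few roots. -/
theorem gb_loss [IsAlgClosed Ω] (hub : u ≤ b) {L : ℕ} (hL : R ≠ 0 → nop v y u R ≤ L)
    (h : GB v b lam (taylor y R)) : GB v u (lam - L * (b - u)) (taylor y R) := by
  by_cases h0 : R = 0
  · rw [h0, map_zero]
    exact TWM.GB.zero
  · rw [GB_iff h0] at h ⊢
    have h1 := gval_up (v := v) (y := y) (f := R) hub
    have h2 : (nop v y u R : ℝ) ≤ L := by exact_mod_cast hL h0
    nlinarith

/-- The slope of `gval P - gval θ`. -/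
theorem Ky.gap [IsAlgClosed Ω] (hN : Cj v N) (hy : Transcendental N y) (hη : IsAlgebraic N η)
    (hb : b < v (y - η)) (hQ : Ky v N y b Q) (hθ : θ ∈ PI N) (h0 : θ ≠ 0)
    (hd : θ.natDegree < (mp N η).natDegree) :
    nop v y b θ + nop v y b Q ≤ nop v y b (mp N η) := by
  have h1 := count_open hN hη hb hθ h0
  obtain ⟨L₁, h2⟩ := hQ.mult hy hθ h0
  obtain ⟨L₂, h3⟩ := hQ.mult hy (mp_mem η) (mp_monic hη).ne_zero
  have hpos : 0 < nop v y b (mp N η) :=
    (nop_pos_iff (mp_monic hη).ne_zero).2 ⟨η, mp_eval η, fun _ => hb⟩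
  have h4 : (mp N η).natDegree * nop v y b θ < (mp N η).natDegree * nop v y b (mp N η) := by
    calc _ ≤ nop v y b (mp N η) * θ.natDegree := h1
      _ < nop v y b (mp N η) * (mp N η).natDegree := Nat.mul_lt_mul_of_pos_left hd hpos
      _ = _ := Nat.mul_comm _ _
  have h5 := Nat.lt_of_mul_lt_mul_left h4
  rw [h2, h3] at h5 ⊢
  have h6 : L₁ < L₂ := Nat.lt_of_mul_lt_mul_right h5
  calc L₁ * nop v y b Q + nop v y b Q = (L₁ + 1) * nop v y b Q := by ring
    _ ≤ L₂ * nop v y b Q := Nat.mul_le_mul_right _ h6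

/-- The slope of a polynomial of small degree. -/
theorem Ky.low [IsAlgClosed Ω] (hN : Cj v N) (hy : Transcendental N y) (hQ : Ky v N y b Q)
    (hR : R ∈ PI N) (h0 : R ≠ 0) {M : ℕ} (hd : R.natDegree < M * Q.natDegree) :
    nop v y b R ≤ (M - 1) * nop v y b Q := by
  obtain ⟨η, h1, h2⟩ := hQ.root
  have hη := hQ.alg h1
  have hQη := hQ.eq_mp h1 h2
  have h3 := count_open hN hη h2 hR h0
  rw [← hQη] at h3
  obtain ⟨L, h4⟩ := hQ.mult hy hR h0
  have h5 : Q.natDegree * nop v y b R < Q.natDegree * (M * nop v y b Q) := by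
    calc _ ≤ nop v y b Q * R.natDegree := h3
      _ < nop v y b Q * (M * Q.natDegree) := Nat.mul_lt_mul_of_pos_left hd hQ.nop_pos
      _ = _ := by ring
  have h6 := Nat.lt_of_mul_lt_mul_left h5
  rw [h4] at h6 ⊢
  have h7 : L < M := Nat.lt_of_mul_lt_mul_right h6
  exact Nat.mul_le_mul_right _ (Nat.le_sub_one_of_lt h7)

/-- From local to global. -/
theorem mono_of_local {Φ : ℝ → ℝ} {u b : ℝ} (hub : u ≤ b)
    (hloc : ∀ x, u ≤ x → x < b → ∃ x₁, x < x₁ ∧ ∀ t, x < t → t ≤ x₁ → Φ x ≤ Φ t)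
    (hleft : ∀ x, u < x → x ≤ b → ∀ ε : ℝ, 0 < ε → ∃ x', x' < x ∧
      ∀ t, x' ≤ t → t ≤ x → Φ t ≤ Φ x + ε) : Φ u ≤ Φ b := by
  set S : Set ℝ := {x | u ≤ x ∧ x ≤ b ∧ Φ u ≤ Φ x} with hS
  have hne : S.Nonempty := ⟨u, le_rfl, hub, le_rfl⟩
  have hbd : BddAbove S := ⟨b, fun x hx => hx.2.1⟩
  set x := sSup S with hx
  have hxu : u ≤ x := le_csSup hbd ⟨le_rfl, hub, le_rfl⟩
  have hxb : x ≤ b := csSup_le hne fun t ht => ht.2.1
  have hΦ : Φ u ≤ Φ x := by
    rcases hxu.eq_or_lt with h1 | h1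
    · rw [← h1]
    by_contra hcon
    push Not at hcon
    obtain ⟨x', h2, h3⟩ := hleft x h1 hxb ((Φ u - Φ x) / 2) (by linarith)
    obtain ⟨t, ht, h4⟩ := exists_lt_of_lt_csSup hne h2
    have h5 := h3 t h4.le (le_csSup hbd ht)
    have h6 := ht.2.2
    linarith
  rcases hxb.eq_or_lt with h1 | h1
  · rwa [h1] at hΦ
  exfalso
  obtain ⟨x₁, h2, h3⟩ := hloc x hxu h1
  have h4 : x < min x₁ b := lt_min h2 h1
  have h5 : min x₁ b ∈ S := ⟨hxu.trans h4.le, min_le_right _ _, hΦ.trans (h3 _ h4 (min_le_left _ _))⟩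
  exact absurd (le_csSup hbd h5) (not_le.2 h4)

/-- **Comparison of increments.** -/
theorem CI [IsAlgClosed Ω] (hN : Cj v N) (hy : Transcendental N y) (hη : IsAlgebraic N η)
    (hub : u ≤ b) (hb : b ≤ v (y - η)) (hθ : θ ∈ PI N) (h0 : θ ≠ 0)
    (hd : θ.natDegree < (mp N η).natDegree) {g : ℝ → ℝ}
    (hg : ∀ (x : ℝ) (Q : Polynomial Ω), u ≤ x → x < b → Ky v N y x Q → ∃ x₁, x < x₁ ∧
      ∀ t, x < t → t ≤ x₁ → g t - g x ≤ nop v y x Q * (t - x))
    (hgl : ∀ x, u < x → x ≤ b → ∀ ε : ℝ, 0 < ε → ∃ x', x' < x ∧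
      ∀ t, x' ≤ t → t ≤ x → g x ≤ g t + ε) :
    gval v y u (mp N η) - gval v y u θ - g u ≤ gval v y b (mp N η) - gval v y b θ - g b := by
  refine mono_of_local (Φ := fun x => gval v y x (mp N η) - gval v y x θ - g x) hub ?_ ?_
  · intro x hux hxb
    obtain ⟨Q, hQ⟩ := exists_Ky hη (hxb.trans_le hb)
    obtain ⟨x₁, h1, h2⟩ := hg x Q hux hxb hQ
    obtain ⟨x₂, h3, h4⟩ := exists_nop_eq v y x (mp N η)
    refine ⟨min x₁ x₂, lt_min h1 h3, fun t ht1 ht2 => ?_⟩
    have h5 := h2 t ht1 (ht2.trans (min_le_left _ _))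
    have h6 := gval_affine ht1.le (h4 t ht1 (ht2.trans (min_le_right _ _)))
    have h7 := gval_up (v := v) (y := y) (f := θ) ht1.le
    have h8 := Ky.gap hN hy hη (hxb.trans_le hb) hQ hθ h0 hd
    have h9 : (nop v y x θ : ℝ) + nop v y x Q ≤ nop v y x (mp N η) := by exact_mod_cast h8
    have h10 : 0 < t - x := sub_pos.2 ht1
    rw [h6]
    nlinarith
  · intro x hux hxb ε hε
    obtain ⟨x', h1, h2⟩ := hgl x hux hxb (ε / 2) (by linarith)
    have hD : (0 : ℝ) < 2 * (θ.natDegree + 1) := by positivity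
    refine ⟨max x' (x - ε / (2 * (θ.natDegree + 1))), max_lt h1 (by
      have : 0 < ε / (2 * ((θ.natDegree : ℝ) + 1)) := div_pos hε hD
      linarith), fun t ht1 ht2 => ?_⟩
    have h3 := h2 t ((le_max_left _ _).trans ht1) ht2
    have h4 := gval_mono (v := v) (y := y) (f := mp N η) ht2
    have h5 := gval_up_deg (v := v) (y := y) (f := θ) ht2
    have h6 : x - t ≤ ε / (2 * (θ.natDegree + 1)) := by
      have := (le_max_right _ _).trans ht1
      linarith
    have h7 : (θ.natDegree : ℝ) * (x - t) ≤ ε / 2 := by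
      have h8 : (θ.natDegree : ℝ) * (x - t) ≤ θ.natDegree * (ε / (2 * (θ.natDegree + 1))) :=
        mul_le_mul_of_nonneg_left h6 (Nat.cast_nonneg _)
      refine h8.trans ?_
      rw [mul_div_assoc', div_le_div_iff₀ hD two_pos]
      nlinarith [Nat.cast_nonneg (α := ℝ) θ.natDegree]
    linarith

/-- The growth of the Gauss value of a minimal polynomial. -/
theorem growth [IsAlgClosed Ω] (hN : Cj v N) (hη : IsAlgebraic N η) (hub : u ≤ b)
    (hb : v.Ge b (y - η)) (hQ : Q ∈ PI N) (h0 : Q ≠ 0) (hr : 0 < ncl v y b Q) :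
    (mp N η).natDegree * (b - u) ≤ Q.natDegree * (gval v y b (mp N η) - gval v y u (mp N η)) := by
  have h1 := count hN hη hb hQ h0
  have h2 := gval_lo (v := v) (y := y) (f := mp N η) hub
  have h3 : ((mp N η).natDegree : ℝ) ≤ ncl v y b (mp N η) * Q.natDegree := by
    have h4 : (mp N η).natDegree ≤ ncl v y b (mp N η) * Q.natDegree :=
      (Nat.le_mul_of_pos_right _ hr).trans h1
    exact_mod_cast h4
  have h5 : 0 ≤ b - u := sub_nonneg.2 hub
  have h6 : (0 : ℝ) ≤ Q.natDegree := Nat.cast_nonneg _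
  calc ((mp N η).natDegree : ℝ) * (b - u) ≤ (ncl v y b (mp N η) * Q.natDegree) * (b - u) :=
        mul_le_mul_of_nonneg_right h3 h5
    _ = Q.natDegree * (ncl v y b (mp N η) * (b - u)) := by ring
    _ ≤ _ := mul_le_mul_of_nonneg_left (by linarith) h6

/-- `p`-th powers and division. -/
theorem pow_div [hp : Fact p.Prime] [CharP Ω p] {Φ : Polynomial Ω} (hΦ : Φ.Monic)
    (g : Polynomial Ω) : g ^ p /ₘ Φ ^ p = (g /ₘ Φ) ^ p ∧ g ^ p %ₘ Φ ^ p = (g %ₘ Φ) ^ p := by
  refine div_modByMonic_unique ((g /ₘ Φ) ^ p) ((g %ₘ Φ) ^ p) (hΦ.pow p) ⟨?_, ?_⟩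
  · have h1 := modByMonic_add_div g Φ
    conv_rhs => rw [← h1]
    rw [add_pow_char, _root_.mul_pow]
  · by_cases h0 : g %ₘ Φ = 0
    · rw [h0, zero_pow hp.out.ne_zero, degree_zero]
      exact bot_lt_iff_ne_bot.2 (degree_ne_bot.2 (hΦ.pow p).ne_zero)
    · have h1 : (g %ₘ Φ).degree < Φ.degree := degree_modByMonic_lt g hΦ
      rw [degree_pow, degree_pow]
      rw [degree_eq_natDegree h0, degree_eq_natDegree hΦ.ne_zero] at h1 ⊢
      have h2 : (g %ₘ Φ).natDegree < Φ.natDegree := by exact_mod_cast h1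
      rw [nsmul_eq_mul, nsmul_eq_mul]
      exact_mod_cast Nat.mul_lt_mul_of_pos_left h2 hp.out.pos

/-- The remainder of a bounded polynomial is bounded. -/
theorem gb_mod [IsAlgClosed Ω] (hN : Cj v N) (hη : IsAlgebraic N η) (hb : v.Ge b (y - η))
    (hf : f ∈ PI N) (h : GB v b lam (taylor y f)) (e : ℕ) :
    GB v b lam (taylor y (f %ₘ mp N η ^ e)) := by
  have h1 := split hN hη hb hf h e
  have h2 : f %ₘ mp N η ^ e = f - mp N η ^ e * (f /ₘ mp N η ^ e) := by
    have h3 := modByMonic_add_div f (mp N η ^ e)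
    linear_combination h3
  rw [h2, map_sub]
  exact h.sub h1

/-- **The slope of the distance of a polynomial of degree smaller than the key degree.** -/
theorem D_slope [hp : Fact p.Prime] [CharP Ω p] [IsAlgClosed Ω] (hN : Cj v N)
    (hy : Transcendental N y) (hQ : Ky v N y b Q) (hη : Q.eval η = 0) (hb : b < v (y - η))
    (hw : w ≤ v (y - η)) (hbw : b ≤ w) (hG : G ∈ PI N) (hd : G.natDegree < Q.natDegree)
    (h : DG p v N y w lam G) :
    DG p v N y b (lam - (p - 1) * nop v y b Q * (w - b)) G := by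
  have halg := hQ.alg hη
  have hQη := hQ.eq_mp hη hb
  intro ε hε
  obtain ⟨g, hg, h1⟩ := h ε hε
  have h2 := div_mem hQ.mem hQ.mon hg
  refine ⟨g %ₘ Q, h2.2, ?_⟩
  have hR : G - (g %ₘ Q) ^ p = (G - g ^ p) %ₘ Q ^ p := by
    rw [sub_modByMonic, (pow_div hQ.mon g).2]
    congr 1
    refine ((modByMonic_eq_self_iff (hQ.mon.pow p)).2 ?_).symm
    refine degree_lt_degree ?_
    rw [hQ.mon.natDegree_pow]
    exact hd.trans_le (Nat.le_mul_of_pos_left _ hp.out.pos)
  have h3 : GB v w (lam - ε) (taylor y (G - (g %ₘ Q) ^ p)) := by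
    rw [hR]
    have := gb_mod hN halg (b := w) (y := y) (fun _ => hw) (sub_mem hG (pow_mem hg p)) h1 p
    rwa [← hQη] at this
  have h4 := gb_loss hbw (L := (p - 1) * nop v y b Q) (fun h0 => by
    refine hQ.low hN hy (sub_mem hG (pow_mem h2.2 p)) h0 ?_
    rw [hR]
    have h5 := natDegree_modByMonic_lt (G - g ^ p) (hQ.mon.pow p) (by
      intro h6
      have h7 := hQ.mon.natDegree_pow p
      rw [h6, natDegree_one] at h7
      have h8 := Nat.mul_pos hp.out.pos hQ.deg_pos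
      omega)
    rwa [hQ.mon.natDegree_pow] at h5) h3
  refine h4.mono (le_of_eq ?_)
  rw [Nat.cast_mul, Nat.cast_sub hp.out.one_lt.le]
  push_cast
  ring

/-- **Backward propagation.** -/
theorem BP [hp : Fact p.Prime] [CharP Ω p] [IsAlgClosed Ω] (hN : Cj v N)
    (hy : Transcendental N y) (hQ : Ky v N y b Q) (hη : Q.eval η = 0)
    (hw : w ≤ v (y - η)) (hub : u ≤ b) (hbw : b < w) (haff : ncl v y w Q = nop v y b Q)
    (hG : G ∈ PI N) {K : ℕ} (hK : 0 < K)
    (hup : ∀ lam', DG p v N y b lam' G → lam' ≤ lam)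
    (hD : DG p v N y w (lam + (p * K : ℕ) * (gval v y w Q - gval v y b Q)) G) :
    ∀ lam', DG p v N y u lam' G → lam' ≤ lam - (p * K : ℕ) * (gval v y b Q - gval v y u Q) := by
  intro lam' hlam'
  by_contra hcon
  push Not at hcon
  have hb : b < v (y - η) := hbw.trans_le hw
  have halg := hQ.alg hη
  have hQη := hQ.eq_mp hη hb
  have hτ := gval_affine hbw.le haff
  set n := nop v y b Q with hn
  have hn1 : (1 : ℝ) ≤ n := by exact_mod_cast hQ.nop_pos
  have hwb : 0 < w - b := sub_pos.2 hbw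
  set τ := gval v y w Q - gval v y b Q with hτd
  have hτ1 : τ = n * (w - b) := by rw [hτd, hτ]; ring
  have hτ0 : 0 < τ := by rw [hτ1]; positivity
  set δ := lam' - (lam - (p * K : ℕ) * (gval v y b Q - gval v y u Q)) with hδ
  have hδ0 : 0 < δ := by rw [hδ]; linarith
  set μ := min (τ / 2) (δ / 2) with hμ
  have hμ0 : 0 < μ := lt_min (by linarith) (by linarith)
  obtain ⟨gw, hgw, h1⟩ := hD μ hμ0
  obtain ⟨gu, hgu, h2⟩ := hlam' μ hμ0
  have hΦm : (Q ^ K).Monic := hQ.mon.pow K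
  have hΦN : Q ^ K ∈ PI N := pow_mem hQ.mem K
  have hΦp : (Q ^ K) ^ p = Q ^ (p * K) := by rw [← pow_mul, mul_comm K p]
  have hfw := sub_mem hG (pow_mem hgw p)
  have hfu := sub_mem hG (pow_mem hgu p)
  have hdw := div_mem hΦN hΦm hgw
  have hdu := div_mem hΦN hΦm hgu
  set g := gw %ₘ Q ^ K + Q ^ K * (gu /ₘ Q ^ K) with hg
  have hgN : g ∈ PI N := add_mem hdw.2 (mul_mem hΦN hdu.1)
  have hsplit : G - g ^ p = (G - gw ^ p) %ₘ Q ^ (p * K) +
      Q ^ (p * K) * ((G - gu ^ p) /ₘ Q ^ (p * K)) := by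
    rw [← hΦp, sub_modByMonic, (pow_div hΦm gw).2, Dg.sub_div _ _ (hΦm.pow p),
      (pow_div hΦm gu).1, hg, add_pow_char, _root_.mul_pow]
    have h3 := modByMonic_add_div G ((Q ^ K) ^ p)
    linear_combination -h3
  -- the low part
  have hlow : GB v b (lam + μ) (taylor y ((G - gw ^ p) %ₘ Q ^ (p * K))) := by
    have h3 := gb_mod hN halg (b := w) (y := y) (fun _ => hw) hfw h1 (p * K)
    rw [← hQη] at h3
    have h4 := gb_loss hbw.le (L := (p * K - 1) * n) (fun h0 => by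
      refine hQ.low hN hy (div_mem (pow_mem hQ.mem _) (hQ.mon.pow _) hfw).2 h0 ?_
      have h5 := natDegree_modByMonic_lt (G - gw ^ p) (hQ.mon.pow (p * K)) (by
        intro h6
        have h7 := hQ.mon.natDegree_pow (p * K)
        rw [h6, natDegree_one] at h7
        have h8 := Nat.mul_pos (Nat.mul_pos hp.out.pos hK) hQ.deg_pos
        omega)
      rwa [hQ.mon.natDegree_pow] at h5) h3
    refine h4.mono ?_
    have h5 : 1 ≤ p * K := Nat.mul_pos hp.out.pos hK
    have h6 : (((p * K - 1) * n : ℕ) : ℝ) * (w - b) = (p * K : ℕ) * τ - τ := by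
      rw [hτ1, Nat.cast_mul, Nat.cast_sub h5]
      push_cast
      ring
    rw [h6]
    have h7 : μ ≤ τ / 2 := min_le_left _ _
    linarith
  -- the high part
  have hhigh : GB v b (lam + μ) (taylor y (Q ^ (p * K) * ((G - gu ^ p) /ₘ Q ^ (p * K)))) := by
    have h3 := split hN halg (b := u) (y := y) (fun _ => (hub.trans hb.le)) hfu h2 (p * K)
    rw [← hQη] at h3
    have h4 := gb_gain (hQ.mon.pow (p * K)).ne_zero hub h3
    refine h4.mono ?_
    rw [gval_pow hQ.ne, gval_pow hQ.ne]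
    have h7 : μ ≤ δ / 2 := min_le_right _ _
    have h8 : lam' = lam - (p * K : ℕ) * (gval v y b Q - gval v y u Q) + δ := by rw [hδ]; ring
    rw [h8]
    nlinarith
  have h3 : GB v b (lam + μ) (taylor y (G - g ^ p)) := by
    rw [hsplit, map_add]
    exact hlow.add hhigh
  have h4 := hup _ (DG.of_one hgN h3)
  linarith

end Slopes

end Pool.Agent.TWJ2.Soft
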