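import Pool.Agent.Lib.TWJ2.Soft2

/-!
# TANK W, ROW J, SOFT J: the coefficients at a centre

* `MU`: the multiplicativity of the distance (hypothesis);
* `hv`: the distance as a number;
* `tay_coeff`: the Taylor coefficients of `A` at `θ`, and the bounds for them;
* `FG`: the index `q` is responsible at the radius `c`.
-/

set_option autoImplicit false

open Polynomial

namespace Pool.Agent.TWJ2.Soft

open Pool.Agent.H15JM (RVal)
open Pool.Agent.TWM (PI PII Gt GB isAlgebraic_root)

universe u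

variable {k Ω : Type u} [Field k] [Field Ω] [Algebra k Ω]

/-- Multiplicativity of the distance. -/
def MU (p : ℕ) (v : RVal Ω) (N : IntermediateField k Ω) (y : Ω) : Prop :=
  ∀ (b lam : ℝ) (G ρ : Polynomial Ω), (∃ η : Ω, IsAlgebraic N η ∧ b < v (y - η)) → G ∈ PI N →
    ρ ∈ PI N → ρ ≠ 0 → DG p v N y b lam (G * ρ ^ p) →
    DG p v N y b (lam - p * gval v y b ρ) G

/-- The distance as a number. -/
noncomputable def hv (p : ℕ) (v : RVal Ω) (N : IntermediateField k Ω) (y : Ω) (b : ℝ)
    (G : Polynomial Ω) : ℝ := sSup {lam | DG p v N y b lam G}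

section One

variable {p q : ℕ} [hp : Fact p.Prime] [CharP Ω p] {v : RVal Ω} {N : IntermediateField k Ω}
  {y z : Ω} {s Dq c' b₀ b b' lam lam' c : ℝ} {f g G θ δ : Polynomial Ω}
  {A : Polynomial (Polynomial Ω)}

theorem DG.neg (h : DG p v N y b lam G) : DG p v N y b lam (-G) := by
  intro ε hε
  obtain ⟨g, hg, h1⟩ := h ε hε
  refine ⟨-g, neg_mem hg, ?_⟩
  have e1 : (-g) ^ p = -(g ^ p) := by
    have h2 : (g + -g) ^ p = g ^ p + (-g) ^ p := add_pow_char ..
    rw [add_neg_cancel, zero_pow hp.out.ne_zero] at h2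
    linear_combination -h2
  have e : -G - (-g) ^ p = -(G - g ^ p) := by
    rw [e1]
    ring
  rw [e, map_neg]
  exact h1.neg

theorem DG.sub (h : DG p v N y b lam G) (h' : DG p v N y b lam g) :
    DG p v N y b lam (G - g) := by
  rw [sub_eq_add_neg]
  exact h.add h'.neg

omit [CharP Ω p] in
theorem DG.zero : DG p v N y b lam (0 : Polynomial Ω) := DG.of_gb (by
  rw [map_zero]; exact TWM.GB.zero)

theorem DG.sum {ι : Type*} (S : Finset ι) (F : ι → Polynomial Ω)
    (h : ∀ i ∈ S, DG p v N y b lam (F i)) : DG p v N y b lam (∑ i ∈ S, F i) := by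
  classical
  induction S using Finset.induction_on with
  | empty =>
    rw [Finset.sum_empty]
    exact DG.zero
  | insert a S ha ih =>
    rw [Finset.sum_insert ha]
    exact (h a (Finset.mem_insert_self a S)).add
      (ih fun i hi => h i (Finset.mem_insert_of_mem hi))

omit hp [CharP Ω p] in
theorem gb_natCast (n : ℕ) : GB v b 0 (taylor y (n : Polynomial Ω)) := by
  have h1 : (n : Polynomial Ω) = C (n : Ω) := by simp
  rw [h1, taylor_C]
  exact TWM.GB.C (TWM.ge_natCast v n)

theorem natCast_pow_char (n : ℕ) : ((n : Polynomial Ω)) ^ p = (n : Polynomial Ω) := by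
  induction n with
  | zero => rw [Nat.cast_zero, zero_pow hp.out.ne_zero]
  | succ n ih => rw [Nat.cast_succ, add_pow_char, ih, one_pow]

theorem DG.natCast_mul (n : ℕ) (h : DG p v N y b lam G) :
    DG p v N y b lam ((n : Polynomial Ω) * G) := by
  have h1 := h.mul_pow (ρ := (n : Polynomial Ω)) (lam' := 0) (natCast_mem (PI N) n) (gb_natCast n)
  rw [natCast_pow_char, mul_comm (G : Polynomial Ω)] at h1
  exact h1.mono (by rw [mul_zero, add_zero])

omit [CharP Ω p] in
/-- The distance as a number: the properties. -/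
theorem hv_spec [IsAlgClosed Ω] {B : ℝ} (hB : ∀ lam, DG p v N y b lam G → lam ≤ B) :
    DG p v N y b (hv p v N y b G) G ∧ ∀ lam, DG p v N y b lam G → lam ≤ hv p v N y b G := by
  have hne : {lam | DG p v N y b lam G}.Nonempty := ⟨_, DG.of_gb GB_gval⟩
  have hbd : BddAbove {lam | DG p v N y b lam G} := ⟨B, fun x hx => hB x hx⟩
  refine ⟨DG.closed fun ε hε => ?_, fun lam h => le_csSup hbd h⟩
  obtain ⟨x, hx, h1⟩ := exists_lt_of_lt_csSup hne (sub_lt_self _ hε)
  exact DG.mono hx h1.le

omit hp [CharP Ω p] in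
/-- Left continuity. -/
theorem DG.left [IsAlgClosed Ω] (h : DG p v N y b lam G) {ε : ℝ} (hε : 0 < ε) :
    ∃ b', b' < b ∧ ∀ t, b' ≤ t → t ≤ b → DG p v N y t (lam - ε) G := by
  obtain ⟨g, hg, h1⟩ := h (ε / 2) (by linarith)
  set f := G - g ^ p with hf
  have hD : (0 : ℝ) < 2 * (f.natDegree + 1) := by positivity
  refine ⟨b - ε / (2 * (f.natDegree + 1)), by
    have : 0 < ε / (2 * ((f.natDegree : ℝ) + 1)) := div_pos hε hD
    linarith, fun t ht1 ht2 => DG.of_one hg ?_⟩
  rw [← hf]
  by_cases h0 : f = 0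
  · rw [h0, map_zero]
    exact TWM.GB.zero
  · rw [GB_iff h0] at h1 ⊢
    have h5 := gval_up_deg (v := v) (y := y) (f := f) ht2
    have h6 : b - t ≤ ε / (2 * (f.natDegree + 1)) := by linarith
    have h7 : (f.natDegree : ℝ) * (b - t) ≤ ε / 2 := by
      have h8 : (f.natDegree : ℝ) * (b - t) ≤ f.natDegree * (ε / (2 * (f.natDegree + 1))) :=
        mul_le_mul_of_nonneg_left h6 (Nat.cast_nonneg _)
      refine h8.trans ?_
      rw [mul_div_assoc', div_le_div_iff₀ hD two_pos]
      nlinarith [Nat.cast_nonneg (α := ℝ) f.natDegree]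
    linarith

/-! ### Taylor coefficients -/

omit hp [CharP Ω p] in
theorem tay_coeff {R : Type*} [CommRing R] {A : Polynomial R} {n : ℕ} (hA : A.natDegree ≤ n)
    (θ : R) (i : ℕ) : (taylor θ A).coeff i =
      ∑ l ∈ Finset.range (n + 1), ((l.choose i : ℕ) : R) * (A.coeff l * θ ^ (l - i)) := by
  rw [taylor_coeff, hasseDeriv_apply, Polynomial.sum_over_range' _ _ (n + 1) (by omega),
    eval_finsetSum]
  · refine Finset.sum_congr rfl fun l _ => ?_
    rw [eval_monomial, mul_assoc]
  · intro l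
    rw [mul_zero, monomial_zero_right]

omit hp [CharP Ω p] in
theorem tay_mem (hA : PII N A) (hθ : θ ∈ PI N) (i : ℕ) : (taylor θ A).coeff i ∈ PI N := by
  rw [tay_coeff (le_refl A.natDegree)]
  exact sum_mem fun l _ => mul_mem (natCast_mem _ _) (mul_mem (hA l) (pow_mem hθ _))

omit hp [CharP Ω p] in
theorem tay_deg {R : Type*} [CommRing R] {A : Polynomial R} {n : ℕ} (hA : A.natDegree ≤ n)
    (θ : R) : (taylor θ A).natDegree ≤ n := by
  rwa [natDegree_taylor]

omit hp [CharP Ω p] in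
theorem tay_top {R : Type*} [CommRing R] {A : Polynomial R} {n : ℕ} (hA : A.natDegree ≤ n)
    (θ : R) : (taylor θ A).coeff n = A.coeff n := by
  rw [tay_coeff hA, Finset.sum_eq_single_of_mem n (Finset.mem_range.2 (Nat.lt_succ_self n))]
  · rw [Nat.choose_self, Nat.cast_one, Nat.sub_self, pow_zero, one_mul, mul_one]
  · intro l hl hne
    have : l < n := lt_of_le_of_ne (Nat.le_of_lt_succ (Finset.mem_range.1 hl)) hne
    rw [Nat.choose_eq_zero_of_lt this, Nat.cast_zero, zero_mul]

omit [CharP Ω p] in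
theorem dvd_choose_of {m l : ℕ} (hm : p ∣ m) (hl : ¬ p ∣ l) : p ∣ m.choose l := by
  rcases l with _ | l
  · exact absurd (dvd_zero p) hl
  rcases m with _ | m
  · rw [Nat.choose_eq_zero_of_lt (Nat.succ_pos l)]
    exact dvd_zero p
  have h1 := Nat.add_one_mul_choose_eq m l
  have h2 : p ∣ (m + 1).choose (l + 1) * (l + 1) := by
    rw [← h1]
    exact Dvd.dvd.mul_right hm _
  exact (hp.out.dvd_mul.1 h2).resolve_right hl

/-- The coefficients of index prime to `p`. -/
theorem nd_at (D : SoftD p q v N y z s Dq c' b₀ A) (hb : b₀ ≤ b)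
    (hθ : GB v b c' (taylor y θ)) {l : ℕ} (hl : ¬ p ∣ l) :
    GB v b (Dq + (q - 1) * s - (l - 1) * c') (taylor y ((taylor θ A).coeff l)) := by
  rw [tay_coeff D.deg, map_sum]
  refine TWM.GB.sum _ _ fun m _ => ?_
  by_cases hm : p ∣ m
  · have h1 : ((m.choose l : ℕ) : Polynomial Ω) = 0 :=
      (CharP.cast_eq_zero_iff (Polynomial Ω) p _).2 (dvd_choose_of hm hl)
    rw [h1, zero_mul, map_zero]
    exact TWM.GB.zero
  · by_cases hml : m < l
    · rw [Nat.choose_eq_zero_of_lt hml, Nat.cast_zero, zero_mul, map_zero]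
      exact TWM.GB.zero
    · rw [taylor_mul, taylor_mul, taylor_pow]
      refine ((gb_natCast _).mul (((D.nd m hm).radius_le hb).mul (hθ.pow (m - l)))).mono ?_
      rw [Nat.cast_sub (not_lt.1 hml)]
      linarith

/-- The coefficients of index `i < q`, `p ∣ i`: the bound at `c'`. -/
theorem lo_at (D : SoftD p q v N y z s Dq c' b₀ A) (hc : c' ≤ s) (hq : 0 < q) (hpq : p ∣ q)
    (hb : b₀ ≤ b) (hθ : θ ∈ PI N) (hθc : GB v b c' (taylor y θ)) {h : ℝ} (hh : h ≤ Dq)
    (hA : DG p v N y b h (A.coeff q)) {i : ℕ} (hi : p ∣ i) (hiq : i ≤ q) :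
    DG p v N y b (h + (q - i) * c') ((taylor θ A).coeff i) := by
  have hq1 : (1 : ℝ) ≤ q := by exact_mod_cast hq
  rw [tay_coeff D.deg]
  refine DG.sum _ _ fun m hm => ?_
  have hmq : m ≤ q := Nat.le_of_lt_succ (Finset.mem_range.1 hm)
  have hmq' : (m : ℝ) ≤ q := by exact_mod_cast hmq
  by_cases hml : m < i
  · rw [Nat.choose_eq_zero_of_lt hml, Nat.cast_zero, zero_mul]
    exact DG.zero
  have hml' : i ≤ m := not_lt.1 hml
  have hcast : ((m - i : ℕ) : ℝ) = m - i := by rw [Nat.cast_sub hml']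
  refine DG.natCast_mul _ ?_
  by_cases hpm : p ∣ m
  · obtain ⟨e, he⟩ := (Nat.dvd_sub hpm hi : p ∣ m - i)
    have hpow : A.coeff m * θ ^ (m - i) = A.coeff m * (θ ^ e) ^ p := by
      rw [he, ← pow_mul, mul_comm e p]
    have he' : (p : ℝ) * (e * c') = (m - i) * c' := by
      have h1 : ((p * e : ℕ) : ℝ) = m - i := by rw [← he, hcast]
      push_cast at h1
      rw [← h1]
      ring
    have hθe : GB v b (e * c') (taylor y (θ ^ e)) := by
      rw [taylor_pow]
      exact hθc.pow e
    rw [hpow]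
    rcases hmq.eq_or_lt with h1 | h1
    · subst h1
      refine (hA.mul_pow (pow_mem hθ e) hθe).mono ?_
      rw [he']
    · refine (((D.lo m h1 hpm).up hb).mul_pow (pow_mem hθ e) hθe).mono ?_
      rw [he']
      linarith
  · refine DG.of_gb ?_
    rw [taylor_mul, taylor_pow]
    refine (((D.nd m hpm).radius_le hb).mul (hθc.pow (m - i))).mono ?_
    rw [hcast]
    nlinarith

/-- The index `q` is responsible at the radius `c`. -/
def FG (p q : ℕ) (v : RVal Ω) (N : IntermediateField k Ω) (y : Ω) (h : ℝ → ℝ)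
    (A : Polynomial (Polynomial Ω)) (b : ℝ) (θ : Polynomial Ω) (c : ℝ) : Prop :=
  ∀ i < q, p ∣ i → DG p v N y b (h b + (q - i) * c) ((taylor θ A).coeff i)

omit hp [CharP Ω p] in
theorem FG.mono {h : ℝ → ℝ} {c₁ : ℝ} (hF : FG p q v N y h A b θ c) (hc : c₁ ≤ c) :
    FG p q v N y h A b θ c₁ := by
  intro i hi hpi
  refine (hF i hi hpi).mono ?_
  have h1 : (i : ℝ) < q := by exact_mod_cast hi
  nlinarith

omit [CharP Ω p] in
/-- The edge. -/
theorem exists_edge [IsAlgClosed Ω] {h : ℝ → ℝ} {V c₀ : ℝ} (hF : ¬ FG p q v N y h A b θ V)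
    (h0 : FG p q v N y h A b θ c₀) :
    ∃ (i : ℕ) (c : ℝ), i < q ∧ p ∣ i ∧ c₀ ≤ c ∧ c < V ∧ FG p q v N y h A b θ c ∧
      ∀ lam, DG p v N y b lam ((taylor θ A).coeff i) → lam ≤ h b + (q - i) * c := by
  classical
  set I : Finset ℕ := (Finset.range q).filter fun i => p ∣ i ∧
    ¬ DG p v N y b (h b + (q - i) * V) ((taylor θ A).coeff i) with hI
  have hIne : I.Nonempty := by
    unfold FG at hF
    push Not at hF
    obtain ⟨i, h1, h2, h3⟩ := hF
    exact ⟨i, Finset.mem_filter.2 ⟨Finset.mem_range.2 h1, h2, h3⟩⟩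
  set D : ℕ → ℝ := fun i => hv p v N y b ((taylor θ A).coeff i) with hD
  have hsp : ∀ i ∈ I, DG p v N y b (D i) ((taylor θ A).coeff i) ∧
      ∀ lam, DG p v N y b lam ((taylor θ A).coeff i) → lam ≤ D i := by
    intro i hi
    have h1 := (Finset.mem_filter.1 hi).2.2
    refine hv_spec (B := h b + (q - i) * V) fun lam h2 => ?_
    by_contra h3
    exact h1 (h2.mono (not_le.1 h3).le)
  obtain ⟨i, hi, hmin⟩ := I.exists_min_image (fun i => (D i - h b) / (q - i)) hIne
  obtain ⟨h1, h2, h3⟩ := Finset.mem_filter.1 hi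
  have hiq : i < q := Finset.mem_range.1 h1
  have hpos : ∀ j, j < q → (0 : ℝ) < q - j := fun j hj => by
    have : (j : ℝ) < q := by exact_mod_cast hj
    linarith
  have hqi := hpos i hiq
  have heq : h b + (q - i) * ((D i - h b) / (q - i)) = D i := by
    field_simp
    ring
  refine ⟨i, (D i - h b) / (q - i), hiq, h2, ?_, ?_, ?_, fun lam h4 => ?_⟩
  · rw [le_div_iff₀ hqi]
    have := (hsp i hi).2 _ (h0 i hiq h2)
    linarith
  · rw [div_lt_iff₀ hqi]
    by_contra h4
    push Not at h4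
    exact h3 ((hsp i hi).1.mono (by linarith))
  · intro j hj hpj
    by_cases hjI : j ∈ I
    · refine (hsp j hjI).1.mono ?_
      have h4 := hmin j hjI
      have h5 := hpos j hj
      have h6 : (q - j) * ((D i - h b) / (q - i)) ≤ (q - j) * ((D j - h b) / (q - j)) :=
        mul_le_mul_of_nonneg_left h4 h5.le
      have h7 : (q - j : ℝ) * ((D j - h b) / (q - j)) = D j - h b := by field_simp
      linarith
    · have h4 : DG p v N y b (h b + (q - j) * V) ((taylor θ A).coeff j) := by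
        by_contra h5
        exact hjI (Finset.mem_filter.2 ⟨Finset.mem_range.2 hj, hpj, h5⟩)
      refine h4.mono ?_
      have h5 := hpos j hj
      have h6 : (D i - h b) / (q - i) ≤ V := by
        rw [div_le_iff₀ hqi]
        by_contra h7
        push Not at h7
        exact h3 ((hsp i hi).1.mono (by linarith))
      nlinarith
  · rw [heq]
    exact (hsp i hi).2 lam h4

end One

end Pool.Agent.TWJ2.Soft
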