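import Pool.Agent.Lib.TWJ2.Soft4

/-!
# TANK W, ROW J, SOFT J: uniqueness and the end

* `U`: two good centres are near;
* `soft`: `z` is a limit, up to `s`, of `θ(y)`, `θ` of bounded degree.
-/

set_option autoImplicit false

open Polynomial

namespace Pool.Agent.TWJ2.Soft

open Pool.Agent.H15JM (RVal)
open Pool.Agent.TWM (PI PII Gt GB isAlgebraic_root)

universe u

variable {k Ω : Type u} [Field k] [Field Ω] [Algebra k Ω]

section End

variable {p q : ℕ} [hp : Fact p.Prime] [CharP Ω p] [IsAlgClosed Ω] {v : RVal Ω}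
  {N : IntermediateField k Ω} {y z : Ω} {s Dq c' b₀ b u u' c : ℝ} {f g G Q Qu θ δ : Polynomial Ω}
  {A : Polynomial (Polynomial Ω)}

/-- **(U).** -/
theorem U (hMU : MU p v N y) (D : SoftD p q v N y z s Dq c' b₀ A) (hq : 0 < q) (hpq : p ∣ q)
    (hb : b₀ ≤ b) (hη : ∃ η : Ω, IsAlgebraic N η ∧ b < v (y - η)) (hδ : δ ∈ PI N)
    (hθc : GB v b c' (taylor y θ)) (hδc : GB v b c' (taylor y (θ + δ))) (hcs : c < s)
    (hF : FG p q v N y (hA p q v N y A) A b θ c)
    (hF' : FG p q v N y (hA p q v N y A) A b (θ + δ) c) : GB v b c (taylor y δ) := by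
  by_cases hδ0 : δ = 0
  · rw [hδ0, map_zero]
    exact TWM.GB.zero
  rw [GB_iff hδ0]
  by_contra hcon
  push Not at hcon
  set W := gval v y b δ with hW
  have hδ1 : GB v b c' (taylor y δ) := by
    have h1 := hδc.sub hθc
    rw [← map_sub, add_sub_cancel_left] at h1
    exact h1
  have hcW : c' ≤ W := (GB_iff hδ0).1 hδ1
  have hδW : GB v b W (taylor y δ) := GB_gval
  have hsp := hA_spec D b
  have hle := hA_le D b
  set h := hA p q v N y A b with hh
  set μ := c - W with hμ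
  have hμ0 : 0 < μ := by rw [hμ]; linarith
  have hq1 : (1 : ℝ) ≤ q := by exact_mod_cast hq
  have hcs' := c_lt_s D
  -- the expansion
  have hA0 := tay_coeff (tay_deg D.deg θ) δ 0
  rw [taylor_taylor, add_comm δ θ, Finset.sum_range_succ] at hA0
  have hsum : A.coeff q * δ ^ q = (taylor (θ + δ) A).coeff 0 -
      ∑ x ∈ Finset.range q, ((x.choose 0 : ℕ) : Polynomial Ω) *
        ((taylor θ A).coeff x * δ ^ (x - 0)) := by
    rw [hA0, tay_top D.deg, Nat.choose_zero_right, Nat.cast_one, Nat.sub_zero]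
    ring
  have h1 : DG p v N y b (h + q * W + μ) ((taylor (θ + δ) A).coeff 0) := by
    refine (hF' 0 hq (dvd_zero p)).mono ?_
    rw [← hh, Nat.cast_zero, sub_zero, hμ]
    nlinarith
  have h2 : ∀ l ∈ Finset.range q, DG p v N y b (h + q * W + μ)
      (((l.choose 0 : ℕ) : Polynomial Ω) * ((taylor θ A).coeff l * δ ^ (l - 0))) := by
    intro l hl
    have hlq : l < q := Finset.mem_range.1 hl
    have hlq' : (1 : ℝ) ≤ (q : ℝ) - l := by
      have h3 : ((l + 1 : ℕ) : ℝ) ≤ q := by exact_mod_cast hlq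
      push_cast at h3
      linarith
    rw [Nat.sub_zero]
    refine DG.natCast_mul _ ?_
    by_cases hpl : p ∣ l
    · obtain ⟨e, he⟩ := id hpl
      have hpow : (taylor θ A).coeff l * δ ^ l = (taylor θ A).coeff l * (δ ^ e) ^ p := by
        rw [he, ← pow_mul, mul_comm e p]
      rw [hpow]
      have hδe : GB v b (e * W) (taylor y (δ ^ e)) := by
        rw [taylor_pow]
        exact hδW.pow e
      refine ((hF l hlq hpl).mul_pow (pow_mem hδ e) hδe).mono ?_
      have h3 : (p : ℝ) * (e * W) = l * W := by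
        rw [he]
        push_cast
        ring
      rw [← hh, h3, hμ]
      nlinarith
    · refine DG.of_gb ?_
      rw [taylor_mul, taylor_pow]
      refine ((nd_at D hb hθc hpl).mul (hδW.pow l)).mono ?_
      have h3 : 1 ≤ l := Nat.one_le_iff_ne_zero.2 fun h4 => hpl (h4 ▸ dvd_zero p)
      have h4 : (1 : ℝ) ≤ l := by exact_mod_cast h3
      have h5 : 0 ≤ ((q : ℝ) - 1) * (s - c) := mul_nonneg (by linarith) (by linarith)
      have h6 : 0 ≤ ((l : ℝ) - 1) * (c - c') := mul_nonneg (by linarith) (by linarith)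
      have h7 : 0 ≤ ((q : ℝ) - l - 1) * (c - W) := mul_nonneg (by linarith) (by linarith)
      rw [hμ]
      nlinarith
  have h3 : DG p v N y b (h + q * W + μ) (A.coeff q * δ ^ q) := by
    rw [hsum]
    exact h1.sub (DG.sum _ _ h2)
  obtain ⟨e, he⟩ := id hpq
  have hpow : δ ^ q = (δ ^ e) ^ p := by
    rw [← pow_mul, mul_comm e p, ← he]
  rw [hpow] at h3
  have h4 := hMU b _ (A.coeff q) (δ ^ e) hη (D.mem q) (pow_mem hδ e) (pow_ne_zero e hδ0) h3
  have h5 := hsp.2 _ h4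
  rw [gval_pow hδ0, ← hW] at h5
  have h6 : (p : ℝ) * (e * W) = q * W := by
    rw [he]
    push_cast
    ring
  rw [h6] at h5
  linarith

/-- **SOFT J.** -/
theorem soft (hN : Cj v N) (hy : Transcendental N y) (hJ : Joo v N y) (hMU : MU p v N y)
    (D : SoftD p q v N y z s Dq c' b₀ A) (hq : 0 < q) (hpq : p ∣ q) {Q₀ : Polynomial Ω}
    (hQ₀ : Ky v N y b₀ Q₀) (hQu : Ky v N y u Qu) (hdeg : (A.coeff q).natDegree < Qu.natDegree)
    (huu : u < u') {ηu : Ω} (hηu : Qu.eval ηu = 0) (hu' : u' < v (y - ηu))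
    (hc : p * (s - c') < u' - u) :
    ∃ d : ℕ, ∀ c < s, ∃ θ ∈ PI N, θ.natDegree < d ∧ c < v (z - θ.eval y) := by
  classical
  obtain ⟨b₁, Q₁, hQ₁, hb₁, hG⟩ := G1 hN hy hJ D hq hpq hQ₀ hQu hdeg huu hηu hu' hc
  refine ⟨Q₁.natDegree, ?_⟩
  by_contra hcon
  push Not at hcon
  obtain ⟨r, hrs, hr⟩ := hcon
  have hz : v z ≤ r := by
    have h1 := hr 0 (zero_mem _) (by rw [natDegree_zero]; exact hQ₁.deg_pos)
    rwa [eval_zero, sub_zero] at h1
  -- a centre of minimal degree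
  have hex : ∃ e : ℕ, ∃ θ ∈ PI N, θ.natDegree = e ∧ r < v (z - θ.eval y) := by
    obtain ⟨θ, h1, h2⟩ := D.sup r hrs
    exact ⟨_, θ, h1, rfl, h2⟩
  obtain ⟨θ, hθ, hθd, hθr⟩ := Nat.find_spec hex
  set e := Nat.find hex with he
  have hmin : ∀ θ' ∈ PI N, θ'.natDegree < e → v (z - θ'.eval y) ≤ r := by
    intro θ' h1 h2
    by_contra h3
    exact Nat.find_min hex h2 ⟨θ', h1, rfl, not_le.1 h3⟩
  have hed : Q₁.natDegree ≤ e := by
    by_contra h1
    have h2 := hr θ hθ (by omega)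
    linarith
  have hz0 : z ≠ 0 := by
    have h1 := D.ne 0 (zero_mem _)
    rwa [eval_zero] at h1
  have hzθ : z - θ.eval y ≠ 0 := sub_ne_zero.2 (D.ne θ hθ)
  have hθ0 : θ ≠ 0 := by
    intro h1
    rw [h1, eval_zero, sub_zero] at hθr
    linarith
  have hθy : v.Ge (v z) (θ.eval y) := by
    have h1 : θ.eval y = z - (z - θ.eval y) := by ring
    rw [h1]
    have h2 : v.Ge (v z) z := fun _ => le_rfl
    have h3 : v.Ge (v z) (z - θ.eval y) := fun _ => by linarith
    exact h2.sub h3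
  -- the first level with key degree `> e`
  set S : Set ℝ := {b | ∃ Q, Ky v N y b Q ∧ e < Q.natDegree} with hS
  have hSne : S.Nonempty := by
    obtain ⟨b, Q, h1, h2⟩ := hJ e
    exact ⟨b, Q, h1, h2⟩
  have hSb : ∀ b ∈ S, b₁ ≤ b := by
    rintro b ⟨Q, h1, h2⟩
    by_contra h3
    have h4 := h1.deg_mono hQ₁ (not_le.1 h3).le
    omega
  set bp := sInf S with hbp
  have hbS : BddBelow S := ⟨b₁, hSb⟩
  have hb1p : b₁ ≤ bp := le_csInf hSne hSb
  obtain ⟨Qp, hQp⟩ : ∃ Qp, Ky v N y bp Qp := by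
    obtain ⟨b, Q, h1, h2⟩ := hSne
    obtain ⟨η, h3, h4⟩ := h1.root
    exact exists_Ky (h1.alg h3) ((csInf_le hbS ⟨Q, h1, h2⟩).trans_lt h4)
  have hQpe : e < Qp.natDegree := by
    obtain ⟨η, h1, h2⟩ := hQp.root
    obtain ⟨b, ⟨Q, h3, h4⟩, h5⟩ := exists_lt_of_csInf_lt hSne h2
    exact h4.trans_le (h3.min _ hQp.mem hQp.ne ⟨η, h1, h5⟩)
  have hlt : b₁ < bp := by
    refine lt_of_le_of_ne hb1p fun h1 => ?_
    have h2 := hQ₁.deg_mono (h1 ▸ hQp) le_rfl
    have h3 : Qp.natDegree = Q₁.natDegree := by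
      refine le_antisymm ?_ h2
      exact (h1 ▸ hQp : Ky v N y b₁ Qp).deg_mono hQ₁ le_rfl
    omega
  -- (G1) at this level
  have hFp := hG bp Qp θ hb1p hQp hθ (by omega) (hθy.mono D.cen.le)
  -- the Gauss value of `θ`
  have hθp := gval_eq_eval' hθ0 (hQp.nop_eq hy hθ hθ0 (by omega))
  have hθp' : v z ≤ gval v y bp θ := by
    rw [← hθp.2]
    exact hθy hθp.1
  -- left continuity
  have hleft : ∃ b', b' < bp ∧ ∀ t, b' ≤ t → t ≤ bp → FG p q v N y (hA p q v N y A) A t θ r ∧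
      GB v t c' (taylor y θ) := by
    have h1 : ∀ i ∈ Finset.range q, ∃ b', b' < bp ∧ ∀ t, b' ≤ t → t ≤ bp → p ∣ i →
        DG p v N y t (hA p q v N y A t + (q - i) * r) ((taylor θ A).coeff i) := by
      intro i hi
      have hiq : i < q := Finset.mem_range.1 hi
      by_cases hpi : p ∣ i
      · obtain ⟨b', h2, h3⟩ := (hFp i hiq hpi).left (sub_pos.2 hθr)
        refine ⟨b', h2, fun t ht1 ht2 _ => (h3 t ht1 ht2).mono ?_⟩
        have h4 := hA_mono D ht2
        have h5 : (1 : ℝ) ≤ (q : ℝ) - i := by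
          have h6 : ((i + 1 : ℕ) : ℝ) ≤ q := by exact_mod_cast hiq
          push_cast at h6
          linarith
        nlinarith
      · exact ⟨bp - 1, by linarith, fun t _ _ h2 => absurd h2 hpi⟩
    choose! B hB1 hB2 using h1
    have hD : (0 : ℝ) < θ.natDegree + 1 := by positivity
    have hcz : 0 < v z - c' := sub_pos.2 D.cen
    set b'' := bp - (v z - c') / (θ.natDegree + 1) with hb''
    have hb2 : b'' < bp := by
      have : 0 < (v z - c') / ((θ.natDegree : ℝ) + 1) := div_pos hcz hD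
      linarith
    obtain ⟨b', h3, h4⟩ : ∃ b', b' < bp ∧ (∀ i ∈ Finset.range q, B i ≤ b') ∧ b'' ≤ b' := by
      have h5 : ∀ T : Finset ℕ, (∀ i ∈ T, i ∈ Finset.range q) →
          ∃ b', b' < bp ∧ (∀ i ∈ T, B i ≤ b') ∧ b'' ≤ b' := by
        intro T
        induction T using Finset.induction_on with
        | empty => exact fun _ => ⟨b'', hb2, fun i hi => absurd hi (Finset.notMem_empty i), le_rfl⟩
        | insert a T ha ih =>
          intro hT
          obtain ⟨b', h6, h7, h8⟩ := ih fun i hi => hT i (Finset.mem_insert_of_mem hi)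
          refine ⟨max b' (B a), max_lt h6 (hB1 a (hT a (Finset.mem_insert_self a T))), ?_,
            h8.trans (le_max_left _ _)⟩
          intro i hi
          rcases Finset.mem_insert.1 hi with rfl | hi
          · exact le_max_right _ _
          · exact (h7 i hi).trans (le_max_left _ _)
      exact h5 _ fun i hi => hi
    refine ⟨b', h3, fun t ht1 ht2 => ⟨fun i hi hpi => ?_, ?_⟩⟩
    · exact hB2 i (Finset.mem_range.2 hi) t ((h4.1 i (Finset.mem_range.2 hi)).trans ht1) ht2 hpi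
    · rw [GB_iff hθ0]
      have h5 := gval_up_deg (v := v) (y := y) (f := θ) ht2
      have h6 : bp - t ≤ (v z - c') / (θ.natDegree + 1) := by
        have := h4.2.trans ht1
        rw [hb''] at this
        linarith
      have h7 : (θ.natDegree : ℝ) * (bp - t) ≤ v z - c' := by
        have h8 : (θ.natDegree : ℝ) * (bp - t) ≤ (θ.natDegree + 1) * (bp - t) := by
          have : 0 ≤ bp - t := sub_nonneg.2 ht2
          nlinarith
        have h9 : ((θ.natDegree : ℝ) + 1) * (bp - t) ≤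
            (θ.natDegree + 1) * ((v z - c') / (θ.natDegree + 1)) :=
          mul_le_mul_of_nonneg_left h6 hD.le
        have h10 : ((θ.natDegree : ℝ) + 1) * ((v z - c') / (θ.natDegree + 1)) = v z - c' := by
          field_simp
        linarith
      linarith
  obtain ⟨b', h1, h2⟩ := hleft
  obtain ⟨b, hb1, hb2⟩ := exists_between (max_lt hlt h1)
  have hbb1 : b₁ ≤ b := ((le_max_left _ _).trans_lt hb1).le
  obtain ⟨hFθ, hθc⟩ := h2 b ((le_max_right _ _).trans hb1.le) hb2.le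
  obtain ⟨ηp, h3, h4⟩ := hQp.root
  obtain ⟨Q, hQ⟩ := exists_Ky (hQp.alg h3) (hb2.trans h4)
  have hQe : Q.natDegree ≤ e := by
    by_contra h5
    have h6 : bp ≤ b := csInf_le hbS ⟨Q, hQ, not_le.1 h5⟩
    linarith
  obtain ⟨η, hη1, hη2⟩ := hQ.root
  have halg := hQ.alg hη1
  have hQη := hQ.eq_mp hη1 hη2
  obtain ⟨hη'N, hθ0N⟩ := div_mem hQ.mem hQ.mon hθ
  set η' := θ /ₘ Q with hη'
  set θ₀ := θ %ₘ Q with hθ₀
  have hdec : θ₀ + Q * η' = θ := modByMonic_add_div θ Q
  have hθ₀d : θ₀.natDegree < Q.natDegree := by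
    refine natDegree_modByMonic_lt θ hQ.mon fun h5 => ?_
    have h6 := hQ.deg_pos
    rw [h5, natDegree_one] at h6
    exact absurd h6 (lt_irrefl _)
  have hV0 : v (z - θ₀.eval y) ≤ r := hmin θ₀ hθ0N (by omega)
  have hη'0 : η' ≠ 0 := by
    intro h5
    rw [h5, mul_zero, add_zero] at hdec
    rw [hdec] at hV0
    linarith
  have hθ₀c : GB v b c' (taylor y θ₀) := by
    have h5 := gb_mod hN halg (b := b) (y := y) (fun _ => hη2.le) hθ hθc 1
    rwa [← hQη, pow_one] at h5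
  have hθ₀y : v.Ge c' (θ₀.eval y) := by
    have h5 := hθ₀c 0
    rw [taylor_coeff_zero] at h5
    exact h5.mono (by simp)
  have hF0 := hG b Q θ₀ hbb1 hQ hθ0N hθ₀d hθ₀y
  have hUU := U (δ := Q * η') hMU D hq hpq (hb₁.trans hbb1) ⟨η, halg, hη2⟩
    (mul_mem hQ.mem hη'N) hθ₀c (by rw [hdec]; exact hθc) (D.lt θ₀ hθ0N) hF0
    (by rw [hdec]; exact hFθ.mono hV0)
  have hQη0 : Q * η' ≠ 0 := mul_ne_zero hQ.ne hη'0
  rw [GB_iff hQη0] at hUU
  have hev0 : (Q * η').eval y ≠ 0 := eval_ne hy (mul_mem hQ.mem hη'N) hQη0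
  have hnop : 0 < nop v y b (Q * η') := by
    rw [nop_mul hQ.ne hη'0]
    exact hQ.nop_pos.trans_le (Nat.le_add_right _ _)
  have h5 := gt_eval hQη0 hnop hev0
  have h6 : (Q * η').eval y = (z - θ₀.eval y) - (z - θ.eval y) := by
    have h7 : θ.eval y = θ₀.eval y + (Q * η').eval y := by rw [← eval_add, hdec]
    rw [h7]
    ring
  have hz1 : z - θ₀.eval y ≠ 0 := sub_ne_zero.2 (D.ne θ₀ hθ0N)
  have h7 : v ((Q * η').eval y) = v (z - θ₀.eval y) := by
    have h8 : Gt v (v (z - θ₀.eval y)) (-(z - θ.eval y)) := Gt.neg fun _ => by linarith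
    have h9 := add_gt hz1 rfl h8
    rw [← sub_eq_add_neg, ← h6] at h9
    exact h9.2
  linarith

end End

end Pool.Agent.TWJ2.Soft
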