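import Pool.Agent.Lib.TWJ2.Soft3
import Pool.Agent.Lib.TWJ2.MuS
import Pool.Agent.Lib.TWM.S3e
import Pool.Agent.Lib.TW_NFG.PR

/-!
# TANK W, ROW J, SOFT J: uniqueness of the centres

`uniq`: two centres `θ` and `θ + δ` at the level `b`, at which all the coefficients of index
`i < q`, `p ∣ i`, are at the height `h + (q - i) c`: then the Gauss value of `δ` is `≥ c`.
-/

set_option autoImplicit false

open Polynomial

namespace Pool.Agent.TWJ2.Soft

open Pool.Agent.H15JM (RVal)
open Pool.Agent.TWM (PI PII Gt GB ge_natCast)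

universe u

variable {k Ω : Type u} [Field k] [Field Ω] [Algebra k Ω]

/-! ### the coefficients of a change of the centre -/

section Coef

variable {R : Type*} [CommRing R]

/-- The coefficients of the change of the centre. -/
theorem tc_sum (θ : R) (A : Polynomial R) {q : ℕ} (hA : A.natDegree ≤ q) (i : ℕ) :
    (taylor θ A).coeff i =
      ∑ l ∈ Finset.range (q + 1), ((l.choose i : ℕ) : R) * A.coeff l * θ ^ (l - i) := by
  rw [TWM.taylor_coeff_sum]
  refine (Finset.sum_subset (fun l hl => ?_) fun l _ hl => ?_).trans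
    (Finset.sum_congr rfl fun l _ => by ring)
  · rw [Finset.mem_range]
    have := (le_natDegree_of_mem_supp l hl).trans hA
    omega
  · rw [notMem_support_iff.1 hl, zero_mul]

theorem tc_natDegree (θ : R) (A : Polynomial R) {q : ℕ} (hA : A.natDegree ≤ q) :
    (taylor θ A).natDegree ≤ q := by
  rwa [natDegree_taylor]

theorem tc_top (θ : R) (A : Polynomial R) {q : ℕ} (hA : A.natDegree ≤ q) :
    (taylor θ A).coeff q = A.coeff q := by
  rw [tc_sum θ A hA, Finset.sum_range_succ, Finset.sum_eq_zero, zero_add, Nat.choose_self,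
    Nat.cast_one, one_mul, Nat.sub_self, pow_zero, mul_one]
  intro l hl
  rw [Nat.choose_eq_zero_of_lt (Finset.mem_range.1 hl), Nat.cast_zero, zero_mul, zero_mul]

end Coef

/-! ### the calculus of `DG` -/

section DG

variable {p : ℕ} {v : RVal Ω} {N : IntermediateField k Ω} {y : Ω} {b lam lam' : ℝ}
  {f g G H ρ : Polynomial Ω}

theorem gb_nat (n : ℕ) (h : GB v b lam (taylor y G)) :
    GB v b lam (taylor y ((n : Polynomial Ω) * G)) := by
  have h1 : ((n : ℕ) : Polynomial Ω) = C ((n : ℕ) : Ω) := by simp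
  rw [taylor_mul, h1, taylor_C]
  have h2 := (TWM.GB.C (b := b) (ge_natCast v n)).mul h
  rwa [zero_add] at h2

theorem nat_pow_char [hp : Fact p.Prime] [CharP Ω p] (n : ℕ) :
    ((n : ℕ) : Polynomial Ω) ^ p = n := by
  induction n with
  | zero => rw [Nat.cast_zero, zero_pow hp.out.ne_zero]
  | succ n ih => rw [Nat.cast_succ, add_pow_char, ih, one_pow]

theorem DG.nat [hp : Fact p.Prime] [CharP Ω p] (n : ℕ) (h : DG p v N y b lam G) :
    DG p v N y b lam ((n : Polynomial Ω) * G) := by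
  intro ε hε
  obtain ⟨g, hg, h1⟩ := h ε hε
  refine ⟨(n : Polynomial Ω) * g, mul_mem (natCast_mem _ n) hg, ?_⟩
  have e : (n : Polynomial Ω) * G - ((n : Polynomial Ω) * g) ^ p =
      (n : Polynomial Ω) * (G - g ^ p) := by
    rw [_root_.mul_pow, nat_pow_char]
    ring
  rw [e]
  exact gb_nat n h1

/-- A unit of the prime field. -/
theorem DG.of_nat [hp : Fact p.Prime] [CharP Ω p] {n : ℕ} (hn : ¬ p ∣ n)
    (h : DG p v N y b lam ((n : Polynomial Ω) * G)) : DG p v N y b lam G := by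
  have h1 : Nat.Coprime n p := ((Nat.Prime.coprime_iff_not_dvd hp.out).2 hn).symm
  obtain ⟨m, -, hm⟩ := Nat.exists_mul_mod_eq_one_of_coprime h1 hp.out.one_lt
  have h2 : ((n : ℕ) : Polynomial Ω) * ((m : ℕ) : Polynomial Ω) = 1 := by
    rw [← Nat.cast_mul, ← Nat.div_add_mod (n * m) p, hm, Nat.cast_add, Nat.cast_mul,
      CharP.cast_eq_zero, zero_mul, zero_add, Nat.cast_one]
  have h3 := h.nat m
  have e : ((m : ℕ) : Polynomial Ω) * (((n : ℕ) : Polynomial Ω) * G) = G := by
    linear_combination G * h2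
  rwa [e] at h3

end DG

section U

variable {p q : ℕ} {v : RVal Ω} {N : IntermediateField k Ω} {y η : Ω}
  {b c c' s h Dq lam : ℝ} {θ δ : Polynomial Ω} {A : Polynomial (Polynomial Ω)}

/-- The coefficients of index prime to `p` at another centre. -/
theorem nd_recentre [hp : Fact p.Prime] [CharP Ω p] (hdeg : A.natDegree ≤ q)
    (hnd : ∀ l : ℕ, ¬ p ∣ l → GB v b (Dq + (q - 1) * s - (l - 1) * c') (taylor y (A.coeff l)))
    (hθ : GB v b c' (taylor y θ)) {l : ℕ} (hl : ¬ p ∣ l) :
    GB v b (Dq + (q - 1) * s - (l - 1) * c') (taylor y ((taylor θ A).coeff l)) := by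
  rw [tc_sum θ A hdeg, map_sum]
  refine TWM.GB.sum _ _ fun m _ => ?_
  rcases lt_or_ge m l with h1 | h1
  · rw [Nat.choose_eq_zero_of_lt h1, Nat.cast_zero, zero_mul, zero_mul, map_zero]
    exact TWM.GB.zero
  · by_cases h2 : p ∣ m
    · have h3 : ((m.choose l : ℕ) : Polynomial Ω) = 0 := by
        have h4 : p ∣ m.choose l := by
          have h5 := Choose.choose_modEq_choose_mod_mul_choose_div_nat (n := m) (k := l) (p := p)
          rw [Nat.mod_eq_zero_of_dvd h2, Nat.choose_eq_zero_of_lt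
            (Nat.pos_of_ne_zero fun h6 => hl (Nat.dvd_of_mod_eq_zero h6)), zero_mul] at h5
          exact (Nat.modEq_zero_iff_dvd).1 h5
        exact (CharP.cast_eq_zero_iff (Polynomial Ω) p _).2 h4
      rw [h3, zero_mul, zero_mul, map_zero]
      exact TWM.GB.zero
    · rw [mul_assoc]
      refine gb_nat _ ?_
      rw [taylor_mul, taylor_pow]
      refine ((hnd m h2).mul (hθ.pow (m - l))).mono (le_of_eq ?_)
      rw [Nat.cast_sub h1]
      ring

/-- **(U)** Uniqueness of the centres. -/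
theorem uniq [hp : Fact p.Prime] [CharP Ω p] [IsAlgClosed Ω] (hN : Cj v N) (hη : IsAlgebraic N η)
    (hb : v.Ge b (y - η)) (hA : PII N A) (hdeg : A.natDegree ≤ q) (hpq : p ∣ q) (hq : 0 < q)
    (hsup : ∀ lam, DG p v N y b lam (A.coeff q) → lam ≤ h) (hDq : h ≤ Dq)
    (hnd : ∀ l : ℕ, ¬ p ∣ l → GB v b (Dq + (q - 1) * s - (l - 1) * c') (taylor y (A.coeff l)))
    (hδ : δ ∈ PI N) (g₁ : GB v b c' (taylor y θ)) (g₂ : GB v b c' (taylor y (θ + δ)))
    (hc : c ≤ s)
    (F₁ : ∀ i < q, p ∣ i → DG p v N y b (h + (q - i) * c) ((taylor θ A).coeff i))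
    (F₂ : ∀ i < q, p ∣ i → DG p v N y b (h + (q - i) * c) ((taylor (θ + δ) A).coeff i)) :
    GB v b c (taylor y δ) := by
  by_contra hcon
  have hδ0 : δ ≠ 0 := by
    rintro rfl
    exact hcon (by rw [map_zero]; exact TWM.GB.zero)
  rw [GB_iff hδ0, not_le] at hcon
  set w := gval v y b δ with hw
  have hw' : c' ≤ w := by
    have h1 : GB v b c' (taylor y δ) := by
      have h2 : δ = (θ + δ) - θ := by ring
      rw [h2, map_sub]
      exact g₂.sub g₁
    exact (GB_iff hδ0).1 h1
  have hgw : GB v b w (taylor y δ) := GB_gval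
  obtain ⟨e, m, hm, hqm⟩ := Nat.exists_eq_pow_mul_and_not_dvd hq.ne' p hp.out.ne_one
  have he : 1 ≤ e := by
    rcases Nat.eq_zero_or_pos e with h1 | h1
    · rw [h1, pow_zero, one_mul] at hqm
      exact absurd (hqm ▸ hpq) hm
    · exact h1
  set P := p ^ e with hP
  have hP0 : 0 < P := pow_pos hp.out.pos _
  have hpP : p ∣ P := dvd_pow_self p (by omega)
  have hm0 : 0 < m := Nat.pos_of_ne_zero fun h1 => hm (h1 ▸ dvd_zero p)
  have hPq : P ≤ q := by
    rw [hqm]
    exact Nat.le_mul_of_pos_right _ hm0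
  set i₁ := q - P with hi₁
  have hi₁q : i₁ < q := by omega
  have hpi : p ∣ i₁ := Nat.dvd_sub hpq hpP
  have hch : ¬ p ∣ q.choose i₁ := by
    intro h1
    have h2 := TWN.choose_modEq hp.out m e
    rw [← hP, ← hqm] at h2
    rw [hi₁, Nat.choose_symm hPq] at h1
    exact hm ((Nat.modEq_zero_iff_dvd).1 (h2.symm.trans ((Nat.modEq_zero_iff_dvd).2 h1)))
  set B := taylor θ A with hB
  have hBdeg : B.natDegree ≤ q := tc_natDegree θ A hdeg
  have hBq : B.coeff q = A.coeff q := tc_top θ A hdeg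
  have hμ : 0 < c - w := by linarith
  have hqr : (i₁ : ℝ) = q - P := by rw [hi₁, Nat.cast_sub hPq]
  have hPr : (1 : ℝ) ≤ P := by exact_mod_cast hP0
  have hq2 : (2 : ℝ) ≤ q := by
    have : 2 ≤ q := hp.out.two_le.trans (Nat.le_of_dvd hq hpq)
    exact_mod_cast this
  -- the expansion
  have hexp : (taylor (θ + δ) A).coeff i₁ = ∑ l ∈ Finset.range (q + 1),
      ((l.choose i₁ : ℕ) : Polynomial Ω) * B.coeff l * δ ^ (l - i₁) := by
    have h1 : taylor (θ + δ) A = taylor δ B := by
      rw [hB, taylor_taylor, add_comm]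
    rw [h1, tc_sum δ B hBdeg]
  rw [Finset.sum_range_succ, hBq] at hexp
  have hqi : q - i₁ = P := by omega
  rw [hqi] at hexp
  -- the terms below
  have hlow : DG p v N y b (h + P * w + (c - w)) (∑ l ∈ Finset.range q,
      ((l.choose i₁ : ℕ) : Polynomial Ω) * B.coeff l * δ ^ (l - i₁)) := by
    refine DG.sum _ _ fun l hl => ?_
    have hlq : l < q := Finset.mem_range.1 hl
    rcases lt_or_ge l i₁ with h1 | h1
    · rw [Nat.choose_eq_zero_of_lt h1, Nat.cast_zero, zero_mul, zero_mul]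
      exact DG.zero
    have hlr : ((l - i₁ : ℕ) : ℝ) = l - q + P := by rw [Nat.cast_sub h1, hqr]; ring
    have hlq' : (l : ℝ) + 1 ≤ q := by exact_mod_cast hlq
    by_cases hpl : p ∣ l
    · rw [mul_assoc]
      refine DG.nat _ ?_
      obtain ⟨j, hj⟩ := (Nat.dvd_sub hpl hpi : p ∣ l - i₁)
      have h2 : δ ^ (l - i₁) = (δ ^ j) ^ p := by rw [← pow_mul, hj, mul_comm]
      rw [h2]
      refine (DG.mul_pow (F₁ l hlq hpl) (pow_mem hδ j)
        (lam' := j * w) (by rw [taylor_pow]; exact hgw.pow j)).mono ?_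
      have h3 : (p : ℝ) * (j * w) = (l - q + P) * w := by
        rw [← hlr, hj]
        push_cast
        ring
      rw [h3]
      nlinarith
    · refine DG.of_gb ?_
      rw [mul_assoc]
      refine gb_nat _ ?_
      rw [taylor_mul, taylor_pow]
      have hl1 : (1 : ℝ) ≤ l := by
        have : 1 ≤ l := Nat.pos_of_ne_zero fun h2 => hpl (h2 ▸ dvd_zero p)
        exact_mod_cast this
      refine ((nd_recentre hdeg hnd g₁ hpl).mul (hgw.pow (l - i₁))).mono ?_
      rw [hlr]
      have h5 : 0 ≤ ((l : ℝ) - 1) * (w - c') := mul_nonneg (by linarith) (by linarith)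
      have h6 : 0 ≤ ((q : ℝ) - 2) * (s - w) := mul_nonneg (by linarith) (by linarith)
      nlinarith
  -- the top term
  have htop : DG p v N y b (h + P * w + (c - w))
      (((q.choose i₁ : ℕ) : Polynomial Ω) * (A.coeff q * (δ ^ (P / p)) ^ p)) := by
    have h1 : (δ ^ (P / p)) ^ p = δ ^ P := by
      rw [← pow_mul, Nat.div_mul_cancel hpP]
    have h2 : ((q.choose i₁ : ℕ) : Polynomial Ω) * (A.coeff q * (δ ^ (P / p)) ^ p) =
        (taylor (θ + δ) A).coeff i₁ - ∑ l ∈ Finset.range q,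
          ((l.choose i₁ : ℕ) : Polynomial Ω) * B.coeff l * δ ^ (l - i₁) := by
      rw [hexp, h1]
      ring
    rw [h2]
    refine DG.sub ((F₂ i₁ hi₁q hpi).mono ?_) hlow
    rw [hqr]
    have h3 : 0 ≤ ((P : ℝ) - 1) * (c - w) := mul_nonneg (by linarith) hμ.le
    nlinarith
  have h1 := mu hN hη hb (hA q) (pow_mem hδ (P / p)) (pow_ne_zero _ hδ0) (DG.of_nat hch htop)
  have h2 := hsup _ h1
  rw [gval_pow hδ0, ← hw] at h2
  have h3 : (p : ℝ) * (((P / p : ℕ) : ℝ) * w) = P * w := by
    have h4 : ((P / p : ℕ) : ℝ) * p = P := by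
      rw [← Nat.cast_mul, Nat.div_mul_cancel hpP]
    rw [← h4]
    ring
  rw [h3] at h2
  linarith

end U

end Pool.Agent.TWJ2.Soft
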