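import Pool.Agent.Lib.TWM.S3a
import Pool.Agent.Lib.TWM.S3c
import Pool.Agent.Lib.TWM.S4

/-!
# TANK W, row J.7: the swap

`C` a field, `y`, `z`, `A` a polynomial in `Y` (inner variable) and `T` (outer variable) over `C`.
Near the level `b` of `y` and for the radii `t → s` of `z` there are centres `Θ t` in `C[Y]` which
differ only by constants (up to `s`), and at the centre `Θ t` the coefficient of `T ^ q` is
responsible for the distance of `A` to the `p`-th powers, in degree `≤ S` in `Y`. Then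
`z - Θ t₀ (y)` is of transcendental type over `C`, and over `C (z - Θ t₀ (y))` the first slope of
`A(Y, z)` in `Y` is `≤ S` (`swap_SL`).
-/

set_option autoImplicit false
set_option linter.unusedSectionVars false

open Polynomial

namespace Pool.Agent.TWJ2

open Pool.Agent.H15JM (RVal)
open Pool.Agent.LU1 (adj)
open Pool.Agent.D2P (clI mem_adj_self)
open Pool.Agent.TWM

universe u

/-! ### Gauss bounds, in degree `≤ S` in the inner variable -/

section Gauss

variable {Ω : Type u} [Field Ω] {v : RVal Ω} {b c lam lam' : ℝ} {S : ℕ}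
  {H H' : Polynomial (Polynomial Ω)} {ψ : Polynomial Ω}

/-- The coefficients of degree `n ≤ S` in the inner variable and of degree `i` in the outer variable
have values `≥ lam - n b - i c`. -/
def GBt (v : RVal Ω) (b c : ℝ) (S : ℕ) (lam : ℝ) (H : Polynomial (Polynomial Ω)) : Prop :=
  ∀ n i : ℕ, n ≤ S → v.Ge (lam - n * b - i * c) ((H.coeff i).coeff n)

theorem GBt.zero : GBt v b c S lam (0 : Polynomial (Polynomial Ω)) := fun n i _ => by
  rw [coeff_zero, coeff_zero]
  exact RVal.Ge.zero

theorem GBt.add (h : GBt v b c S lam H) (h' : GBt v b c S lam H') : GBt v b c S lam (H + H') :=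
  fun n i hn => by
    rw [coeff_add, coeff_add]
    exact (h n i hn).add (h' n i hn)

theorem GBt.mono (h : GBt v b c S lam H) (hl : lam' ≤ lam) : GBt v b c S lam' H :=
  fun n i hn => (h n i hn).mono (by linarith)

theorem GBt.sum {ι : Type*} (s : Finset ι) (F : ι → Polynomial (Polynomial Ω))
    (h : ∀ i ∈ s, GBt v b c S lam (F i)) : GBt v b c S lam (∑ i ∈ s, F i) := fun n i hn => by
  rw [finsetSum_coeff, finsetSum_coeff]
  exact RVal.Ge.sum _ _ fun a ha => h a ha n i hn

theorem GBt.mul (h : GBt v b c S lam H) (h' : GBt v b c S lam' H') :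
    GBt v b c S (lam + lam') (H * H') := by
  intro n i hn
  rw [coeff_mul, finsetSum_coeff]
  refine RVal.Ge.sum _ _ fun x hx => ?_
  rw [coeff_mul]
  refine RVal.Ge.sum _ _ fun x' hx' => ?_
  have h1 : x.1 + x.2 = i := by simpa using hx
  have h2 : x'.1 + x'.2 = n := by simpa using hx'
  refine (RVal.Ge.mul (h x'.1 x.1 (by omega)) (h' x'.2 x.2 (by omega))).mono ?_
  rw [← h1, ← h2]
  push_cast
  linarith

/-- A polynomial in the inner variable. -/
theorem GBt.C (h : ∀ n : ℕ, n ≤ S → v.Ge (lam - n * b) (ψ.coeff n)) :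
    GBt v b c S lam (C ψ) := by
  intro n i hn
  rw [coeff_C]
  split_ifs with hi
  · subst hi
    refine (h n hn).mono ?_
    simp
  · rw [coeff_zero]
    exact RVal.Ge.zero

theorem GBt.X : GBt v b c S c (X : Polynomial (Polynomial Ω)) := by
  intro n i _
  rw [coeff_X]
  split_ifs with hi
  · subst hi
    rw [coeff_one]
    split_ifs with hn
    · subst hn
      intro _
      rw [v.map_one]
      simp
    · exact RVal.Ge.zero
  · rw [coeff_zero]
    exact RVal.Ge.zero

theorem GBt.one : GBt v b c S 0 (1 : Polynomial (Polynomial Ω)) := by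
  rw [← C_1]
  refine GBt.C fun n _ => ?_
  rw [coeff_one]
  split_ifs with hn
  · subst hn
    intro _
    rw [v.map_one]
    simp
  · exact RVal.Ge.zero

theorem GBt.pow (h : GBt v b c S lam H) (m : ℕ) : GBt v b c S (m * lam) (H ^ m) := by
  induction m with
  | zero =>
    rw [pow_zero, Nat.cast_zero, zero_mul]
    exact GBt.one
  | succ m ih =>
    rw [pow_succ]
    exact (ih.mul h).mono (by push_cast; linarith)

/-- Change of the centre of the outer variable. -/
theorem GBt.taylor (h : GBt v b c S lam H) (hψ : ∀ n : ℕ, n ≤ S → v.Ge (c - n * b) (ψ.coeff n)) :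
    GBt v b c S lam (Polynomial.taylor ψ H) := by
  have h1 : Polynomial.taylor ψ H = ∑ i ∈ Finset.range (H.natDegree + 1),
      Polynomial.C (H.coeff i) * (Polynomial.X + Polynomial.C ψ) ^ i := by
    rw [taylor_apply, Polynomial.comp, eval₂_eq_sum_range]
  rw [h1]
  refine GBt.sum _ _ fun i _ => ?_
  have h2 : GBt v b c S (lam - i * c) (Polynomial.C (H.coeff i)) :=
    GBt.C fun n hn => (h n i hn).mono (by linarith)
  have h3 : GBt v b c S c (Polynomial.X + Polynomial.C ψ) := GBt.X.add (GBt.C hψ)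
  exact (h2.mul (h3.pow i)).mono (by linarith)

/-- The value of the outer variable. -/
theorem GBt.eval (h : GBt v b c S lam H) (hψ : ∀ n : ℕ, n ≤ S → v.Ge (c - n * b) (ψ.coeff n)) :
    ∀ n : ℕ, n ≤ S → v.Ge (lam - n * b) ((H.eval ψ).coeff n) := by
  intro n hn
  have h1 := h.taylor hψ n 0 hn
  rw [taylor_coeff_zero] at h1
  refine h1.mono ?_
  simp

/-- The coefficient of degree `n` in the inner variable. -/
noncomputable def row (n : ℕ) (H : Polynomial (Polynomial Ω)) : Polynomial Ω :=
  H.sum fun i f => monomial i (f.coeff n)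

theorem row_add (n : ℕ) (H H' : Polynomial (Polynomial Ω)) :
    row n (H + H') = row n H + row n H' := by
  rw [row, row, row, sum_add_index]
  · intro i
    rw [coeff_zero, monomial_zero_right]
  · intro i f g
    rw [coeff_add, map_add]

theorem row_monomial (n i : ℕ) (f : Polynomial Ω) :
    row n (monomial i f) = monomial i (f.coeff n) := by
  rw [row, sum_monomial_index]
  rw [coeff_zero, monomial_zero_right]

theorem coeff_row (n i : ℕ) (H : Polynomial (Polynomial Ω)) :
    (row n H).coeff i = (H.coeff i).coeff n := by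
  induction H using Polynomial.induction_on' with
  | add P Q hP hQ => rw [row_add, coeff_add, coeff_add, coeff_add, hP, hQ]
  | monomial j f =>
    rw [row_monomial, coeff_monomial, coeff_monomial]
    split_ifs
    · rfl
    · rw [coeff_zero]

theorem row_taylor (n : ℕ) (z : Ω) (H : Polynomial (Polynomial Ω)) :
    row n (Polynomial.taylor (Polynomial.C z) H) = Polynomial.taylor z (row n H) := by
  induction H using Polynomial.induction_on' with
  | add P Q hP hQ => rw [map_add, row_add, row_add, map_add, hP, hQ]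
  | monomial j f =>
    rw [row_monomial]
    ext l
    rw [coeff_row, taylor_monomial, taylor_monomial, coeff_C_mul, coeff_C_mul, coeff_X_add_C_pow,
      coeff_X_add_C_pow, ← Polynomial.C_pow, ← Polynomial.C_eq_natCast, ← Polynomial.C_mul,
      coeff_mul_C]

theorem row_mem {k : Type u} [Field k] [Algebra k Ω] {A : IntermediateField k Ω} (hH : PII A H)
    (n : ℕ) : row n H ∈ PI A := fun i => by
  rw [coeff_row]
  exact hH i n

/-- The coefficients of a polynomial which is strict at `z`. -/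
theorem exists_delta_taylor {z : Ω} {s mu : ℝ} {f : Polynomial Ω}
    (h : f ≠ 0 → Str v s (Polynomial.taylor z f)) (hv : v.Ge mu (f.eval z)) :
    ∃ δ : ℝ, 0 < δ ∧ ∀ t : ℝ, s - δ ≤ t → ∀ l : ℕ,
      v.Ge (mu - l * t) ((Polynomial.taylor z f).coeff l) := by
  by_cases hf : f = 0
  · refine ⟨1, one_pos, fun t _ l => ?_⟩
    rw [hf, _root_.map_zero, coeff_zero]
    exact RVal.Ge.zero
  · have h1 := h hf
    obtain ⟨δ, hδ, h2⟩ := h1.exists_delta (Finset.Icc 1 f.natDegree)
      fun l hl => (Finset.mem_Icc.1 hl).1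
    have h3 : mu ≤ v ((Polynomial.taylor z f).coeff 0) := by
      have h4 := h1.ne
      rw [taylor_coeff_zero] at h4 ⊢
      exact hv h4
    refine ⟨δ, hδ, fun t ht l => ?_⟩
    rcases Nat.eq_zero_or_pos l with rfl | hl
    · rw [taylor_coeff_zero]
      refine hv.mono ?_
      simp
    · by_cases hlN : l ≤ f.natDegree
      · refine (h2 l (Finset.mem_Icc.2 ⟨hl, hlN⟩)).mono ?_
        have h5 : (l : ℝ) * (s - δ) ≤ l * t := mul_le_mul_of_nonneg_left ht (Nat.cast_nonneg l)
        linarith
      · rw [coeff_eq_zero_of_natDegree_lt]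
        · exact RVal.Ge.zero
        · rw [natDegree_taylor]
          omega

/-- Finitely many conditions near `s`. -/
theorem exists_delta_all {s : ℝ} (P : ℕ → ℝ → Prop)
    (h : ∀ n ≤ S, ∃ δ : ℝ, 0 < δ ∧ ∀ t : ℝ, s - δ ≤ t → P n t) :
    ∃ δ : ℝ, 0 < δ ∧ ∀ t : ℝ, s - δ ≤ t → ∀ n ≤ S, P n t := by
  induction S with
  | zero =>
    obtain ⟨δ, hδ, h1⟩ := h 0 le_rfl
    exact ⟨δ, hδ, fun t ht n hn => by rw [Nat.le_zero.1 hn]; exact h1 t ht⟩
  | succ S ih =>
    obtain ⟨δ, hδ, h1⟩ := ih fun n hn => h n (hn.trans (Nat.le_succ S))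
    obtain ⟨δ', hδ', h2⟩ := h (S + 1) le_rfl
    refine ⟨min δ δ', lt_min hδ hδ', fun t ht n hn => ?_⟩
    rcases Nat.lt_or_ge n (S + 1) with h3 | h3
    · exact h1 t (by linarith [min_le_left δ δ']) n (Nat.lt_succ_iff.1 h3)
    · rw [le_antisymm hn h3]
      exact h2 t (by linarith [min_le_right δ δ'])

end Gauss

theorem coeff_pow_ite2 {Ω : Type u} [Field Ω] {p : ℕ} [Fact p.Prime] [CharP Ω p]
    (G : Polynomial (Polynomial Ω)) (n : ℕ) :
    (G ^ p).coeff n = if p ∣ n then G.coeff (n / p) ^ p else 0 := by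
  rw [← map_frobenius_expand, coeff_map, coeff_expand (Fact.out : p.Prime).pos]
  split_ifs
  · rfl
  · rw [map_zero]

/-! ### The swap -/

section Swap

variable {k Ω : Type u} [Field k] [Field Ω] [Algebra k Ω] {v : RVal Ω} {p : ℕ} [Fact p.Prime]
  [CharP Ω p] {E : IntermediateField k Ω} {y z : Ω} {s b κ₀ t₀ : ℝ} {q S : ℕ}
  {A : Polynomial (Polynomial Ω)} {Θ : ℝ → Polynomial Ω}

/-- Centres in `E[Y]` which differ by constants (up to `s`), with the radii `t → s`; at the centre
`Θ t` the coefficient of `T ^ q` is responsible for the distance to the `p`-th powers, in degree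
`≤ S` in `Y`. -/
structure Cen (p : ℕ) (v : RVal Ω) (E : IntermediateField k Ω) (y z : Ω) (b s t₀ κ₀ : ℝ) (q S : ℕ)
    (A : Polynomial (Polynomial Ω)) (Θ : ℝ → Polynomial Ω) : Prop where
  lt : t₀ < s
  mem : ∀ t, t₀ ≤ t → t < s → Θ t ∈ PI E
  near : ∀ t, t₀ ≤ t → t < s → v.Ge t (z - (Θ t).eval y)
  cst : ∀ t, t₀ ≤ t → t < s → ∀ m : ℕ, 1 ≤ m → v.Ge (s - m * b) ((Θ t - Θ t₀).coeff m)
  lo : ∀ t, t₀ ≤ t → t < s → ∀ ε : ℝ, 0 < ε → ∃ G, PII E G ∧
    ∀ N : ℕ, GBt v b t N (κ₀ + q * t - ε) (Polynomial.taylor (Θ t) A - G ^ p)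
  hi : ∀ t, t₀ ≤ t → t < s → ∀ e : ℝ, 0 < e → ∀ g ∈ PI E, ∃ n ≤ S,
    ¬ v.Ge (κ₀ + e - n * b) (((Polynomial.taylor (Θ t) A).coeff q - g ^ p).coeff n)

/-- The new coordinate. -/
noncomputable def zs (y z : Ω) (t₀ : ℝ) (Θ : ℝ → Polynomial Ω) : Ω := z - (Θ t₀).eval y

/-- The bounds for `z* - (Θ t - Θ t₀)`. -/
theorem Cen.psi (h : Cen p v E y z b s t₀ κ₀ q S A Θ) (hy : v.Ge b y) {t : ℝ} (ht₀ : t₀ ≤ t)
    (ht : t < s) (n : ℕ) :
    v.Ge (t - n * b) ((C (zs y z t₀ Θ) - (Θ t - Θ t₀)).coeff n) := by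
  have hc := h.cst t ht₀ ht
  set f := Θ t - Θ t₀ with hf
  rcases Nat.eq_zero_or_pos n with rfl | hn
  · -- the constant coefficient
    have h1 : GB v b s (f - C (f.coeff 0)) := by
      intro m
      rw [coeff_sub, coeff_C]
      split_ifs with hm
      · subst hm
        rw [sub_self]
        exact RVal.Ge.zero
      · rw [sub_zero]
        exact hc m (Nat.one_le_iff_ne_zero.2 hm)
    have h2 := h1.eval hy
    rw [eval_sub, eval_C] at h2
    have h3 : (C (zs y z t₀ Θ) - f).coeff 0 = (z - (Θ t).eval y) + (f.eval y - f.coeff 0) := by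
      rw [coeff_sub, coeff_C_zero, zs]
      have : f.eval y = (Θ t).eval y - (Θ t₀).eval y := by rw [hf, eval_sub]
      rw [this]
      ring
    rw [h3, Nat.cast_zero, zero_mul, sub_zero]
    exact (h.near t ht₀ ht).add (h2.mono ht.le)
  · rw [coeff_sub, coeff_C, if_neg (by omega), zero_sub]
    exact (hc n hn).neg.mono (by linarith)

/-- `z*` is of transcendental type over `E`. -/
theorem Cen.tl (h : Cen p v E y z b s t₀ κ₀ q S A Θ) (hy : v.Ge b y)
    (hz : ∀ θ : Ω, IsAlgebraic (adj E y) θ → z ≠ θ ∧ v (z - θ) < s) :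
    TL v E (zs y z t₀ Θ) s where
  lim := fun ε hε => by
    set t := max t₀ (s - ε) with ht
    have ht₀ : t₀ ≤ t := le_max_left _ _
    have hts : t < s := max_lt h.lt (by linarith)
    refine ⟨(Θ t - Θ t₀).coeff 0, sub_mem (h.mem t ht₀ hts) (h.mem t₀ le_rfl h.lt) 0, ?_⟩
    have h1 := h.psi hy ht₀ hts 0
    rw [coeff_sub, coeff_C_zero] at h1
    refine h1.mono ?_
    have := le_max_right t₀ (s - ε)
    simp only [Nat.cast_zero, zero_mul, sub_zero]
    linarith
  far := fun θ hθ => by
    have hle : E ≤ adj E y := fun a ha => (mem_adj_self E y).2 ha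
    have h1 : IsAlgebraic (adj E y) ((Θ t₀).eval y + θ) := by
      refine IsAlgebraic.add ?_ (D2P.isAlgebraic_mono hle hθ)
      exact isAlgebraic_algebraMap (R := adj E y)
        (⟨(Θ t₀).eval y, eval_mem_adj (h.mem t₀ le_rfl h.lt) y⟩ : adj E y)
    obtain ⟨h2, h3⟩ := hz _ h1
    have h4 : zs y z t₀ Θ - θ = z - ((Θ t₀).eval y + θ) := by rw [zs]; ring
    refine ⟨fun h5 => h2 ?_, by rw [h4]; exact h3⟩
    rw [← sub_eq_zero, ← h4, h5, sub_self]

/-- **The swap.** -/
theorem swap_SL [IsAlgClosed Ω] (h : Cen p v E y z b s t₀ κ₀ q S A Θ) (hy : Gt v b y)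
    (hz : ∀ θ : Ω, IsAlgebraic (adj E y) θ → z ≠ θ ∧ v (z - θ) < s) (hA : PII E A) (hq : p ∣ q) :
    SL p v (adj E (zs y z t₀ Θ)) y b (κ₀ + q * s) S (A.eval (C (zs y z t₀ Θ) + Θ t₀)) := by
  classical
  have hpp : 0 < p := (Fact.out : p.Prime).pos
  have hp0 : (0 : ℝ) < p := by exact_mod_cast hpp
  have hy' : v.Ge b y := hy.ge
  have hT := h.tl hy' hz
  set x := zs y z t₀ Θ with hx
  have hEx : E ≤ adj E x := fun a ha => (mem_adj_self E x).2 ha
  have hΘ₀ : Θ t₀ ∈ PI E := h.mem t₀ le_rfl h.lt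
  have hevmem : ∀ (P : Polynomial (Polynomial Ω)) (f : Polynomial Ω), PII E P →
      f ∈ PI (adj E x) → P.eval f ∈ PI (adj E x) := by
    intro P f hP hf
    rw [eval_eq_sum_range]
    exact sum_mem fun i _ => mul_mem (PI_mono hEx (hP i)) (pow_mem hf i)
  have hCx : (C x : Polynomial Ω) ∈ PI (adj E x) := C_mem_PI (mem_adj_self E x).1
  have hAe : ∀ t, (Polynomial.taylor (Θ t) A).eval (C x - (Θ t - Θ t₀)) =
      A.eval (C x + Θ t₀) := by
    intro t
    rw [taylor_eval]
    congr 1
    ring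
  refine ⟨hevmem A _ hA (add_mem hCx (PI_mono hEx hΘ₀)), hy, fun ε hε => ?_, fun e he g hg => ?_⟩
  · -- the upper bound for the distance
    have hq0 : (0 : ℝ) < 2 * (q + 1) := by positivity
    set t := max t₀ (s - ε / (2 * (q + 1))) with ht
    have ht₀ : t₀ ≤ t := le_max_left _ _
    have hts : t < s := max_lt h.lt (by
      have := div_pos hε hq0
      linarith)
    have ht2 : s - ε / (2 * (q + 1)) ≤ t := le_max_right _ _
    obtain ⟨G, hG, hGb⟩ := h.lo t ht₀ hts (ε / 2) (by linarith)
    refine ⟨G.eval (C x - (Θ t - Θ t₀)), hevmem G _ hG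
      (sub_mem hCx (PI_mono hEx (sub_mem (h.mem t ht₀ hts) hΘ₀))), fun m => ?_⟩
    have h1 := (hGb m).eval (fun n _ => h.psi hy' ht₀ hts n) m le_rfl
    rw [eval_sub, eval_pow, ← hx, hAe] at h1
    refine h1.mono ?_
    have h2 : (q : ℝ) * (ε / (2 * (q + 1))) ≤ ε / 2 := by
      rw [mul_div_assoc', div_le_div_iff₀ hq0 (by norm_num)]
      nlinarith
    have h3 : (q : ℝ) * (s - ε / (2 * (q + 1))) ≤ q * t :=
      mul_le_mul_of_nonneg_left ht2 (Nat.cast_nonneg q)
    nlinarith
  · -- the lower bound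
    by_contra hcon
    push Not at hcon
    set μ := κ₀ + q * s + e with hμ
    set B : ℝ := (|μ| + S * |b|) / p with hB
    have hBp : ∀ m ≤ S, μ - m * b ≤ p * B := by
      intro m hm
      have h1 : (p : ℝ) * B = |μ| + S * |b| := by
        rw [hB]
        field_simp
      rw [h1]
      have h2 := le_abs_self μ
      have h3 : -(m * b) ≤ S * |b| := by
        have h4 : (m : ℝ) ≤ S := by exact_mod_cast hm
        have h5 := neg_abs_le b
        have h6 : (m : ℝ) * |b| ≤ S * |b| := mul_le_mul_of_nonneg_right h4 (abs_nonneg b)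
        nlinarith [(Nat.cast_nonneg m : (0 : ℝ) ≤ m)]
      linarith
    -- polynomial approximations
    have hden : ∀ j : ℕ, ∃ f ∈ PI E, v.Ge B (g.coeff j - f.eval x) := fun j =>
      hT.dense (le_clI _ (hg j)) B
    choose F hF hFB using hden
    set G : Polynomial (Polynomial Ω) := ∑ j ∈ Finset.range (g.natDegree + 1),
      (F j).map C * C (X ^ j) with hG
    have hGm : PII E G := by
      have h1 : G ∈ PIIs E := by
        rw [hG]
        refine sum_mem fun j _ => mul_mem ?_ (C_mem_PIIs (pow_mem X_mem_PI j))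
        intro i
        rw [coeff_map]
        exact C_mem_PI (hF j i)
      exact h1
    have hGe : G.eval (C x) = ∑ j ∈ Finset.range (g.natDegree + 1), C ((F j).eval x) * X ^ j := by
      rw [hG, eval_finsetSum]
      refine Finset.sum_congr rfl fun j _ => ?_
      rw [eval_mul, eval_C, eval_map, eval₂_at_apply]
    have hGc : ∀ j : ℕ, v.Ge B ((g - G.eval (C x)).coeff j) := by
      intro j
      rw [coeff_sub, hGe, finsetSum_coeff]
      simp only [coeff_C_mul, coeff_X_pow, mul_ite, mul_one, mul_zero]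
      rw [Finset.sum_ite_eq]
      split_ifs with hj
      · exact hFB j
      · rw [coeff_eq_zero_of_natDegree_lt, sub_zero]
        · exact RVal.Ge.zero
        · by_contra h1
          exact hj (Finset.mem_range.2 (by omega))
    set H : Polynomial (Polynomial Ω) := Polynomial.taylor (Θ t₀) A - G ^ p with hH
    have hHm : PII E H := by
      have h1 : H ∈ PIIs E := sub_mem (show Polynomial.taylor (Θ t₀) A ∈ PIIs E from hA.taylor hΘ₀)
        (pow_mem (show G ∈ PIIs E from hGm) p)
      exact h1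
    have hHe : ∀ m ≤ S, v.Ge (μ - m * b) ((H.eval (C x)).coeff m) := by
      intro m hm
      have h1 : H.eval (C x) = (A.eval (C x + Θ t₀) - g ^ p) + (g - G.eval (C x)) ^ p := by
        rw [hH, eval_sub, eval_pow, taylor_eval, sub_pow_char]
        ring
      rw [h1, coeff_add]
      refine ((hcon m hm).mono ?_).add ?_
      · rw [hμ]
      · rw [coeff_pow_ite]
        split_ifs with hpm
        · exact (ge_pow (hGc _) p).mono (hBp m hm)
        · exact RVal.Ge.zero
    -- the Taylor coefficients at `x`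
    obtain ⟨δ, hδ, hδ'⟩ := exists_delta_all (S := S) (s := s)
      (fun n t => ∀ l : ℕ, v.Ge (μ - n * b - l * t)
        (((Polynomial.taylor (C x) H).coeff l).coeff n)) (fun n hn => by
      obtain ⟨δ, hδ, h1⟩ := exists_delta_taylor (v := v) (z := x) (s := s) (mu := μ - n * b)
        (f := row n H) (fun hne => hT.str' (row_mem hHm n) hne) (by
          have h2 : (row n H).eval x = (H.eval (C x)).coeff n := by
            rw [← taylor_coeff_zero x, ← row_taylor, coeff_row, taylor_coeff_zero]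
          rw [h2]
          exact hHe n hn)
      refine ⟨δ, hδ, fun t ht l => ?_⟩
      have h2 := h1 t ht l
      rwa [← row_taylor, coeff_row] at h2)
    set t := max t₀ (s - δ) with ht
    have ht₀ : t₀ ≤ t := le_max_left _ _
    have hts : t < s := max_lt h.lt (by linarith)
    have hGBt : GBt v b t S μ (Polynomial.taylor (C x) H) := fun n i hn =>
      hδ' t (le_max_right _ _) n hn i
    have hψ : ∀ n : ℕ, n ≤ S → v.Ge (t - n * b) (((Θ t - Θ t₀) - C x).coeff n) := fun n _ => by
      have h1 := (h.psi hy' ht₀ hts n).neg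
      rwa [← coeff_neg, neg_sub, ← hx] at h1
    have h1 := hGBt.taylor hψ
    rw [taylor_taylor, sub_add_cancel] at h1
    have h2 : Polynomial.taylor (Θ t - Θ t₀) H =
        Polynomial.taylor (Θ t) A - (Polynomial.taylor (Θ t - Θ t₀) G) ^ p := by
      rw [hH, map_sub, taylor_taylor, sub_add_cancel, taylor_pow]
    rw [h2] at h1
    have hG' : PII E (Polynomial.taylor (Θ t - Θ t₀) G) :=
      hGm.taylor (sub_mem (h.mem t ht₀ hts) hΘ₀)
    obtain ⟨n, hn, hno⟩ := h.hi t ht₀ hts e he _ (hG' (q / p))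
    refine hno ?_
    have h3 := h1 n q hn
    rw [coeff_sub (Polynomial.taylor (Θ t) A), coeff_pow_ite2, if_pos hq] at h3
    refine h3.mono ?_
    rw [hμ]
    have h4 : (q : ℝ) * t ≤ q * s := mul_le_mul_of_nonneg_left hts.le (Nat.cast_nonneg q)
    linarith

end Swap

end Pool.Agent.TWJ2
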