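import Pool.Agent.Lib.TWJ2.Aut

/-!
# TANK W, ROW J: exactness in two variables, precision independent of the frame

`two_near`: `K` closed with bounded distortion, `a ∈ K`, `h₁, g₁ ∈ K`. There is `N₁` such that for
every frame `R` and `X, T` with `K` the closure of `R.K(X, T)` and every polynomial `P` over `R.K`
with `P(X, T)` nearer than `N₁` to `f = a h₁ ^ p - g₁ ^ p`, there are `R', X', T', P'` of the same
kind with `f = P'(X', T')`; the coefficients of `P'` are the images of those of `P` under an
isometry of `R.K` and `R'.K`.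
-/

set_option autoImplicit false

open Polynomial

namespace Pool.Agent.TWJ2

open Pool.Agent.H15JM (RVal)
open Pool.Agent.LU1 (adj)
open Pool.Agent.D2 (Ctx0)
open Pool.Agent.D2P (hen clI mem_clI mem_adj_self adj_le)
open Pool.Agent.TW
open Pool.Agent.TWM (CompleteV le_clI clI_mono clI_clI OI pbasis_clI gen_of_bas adj_range SL PI PII)
open Pool.Agent.TWJ

universe u

variable {k Ω : Type u} [Field k] [Field Ω] [Algebra k Ω] {v : RVal Ω} {r D : ℕ}

theorem two_near [IsAlgClosed k] [IsAlgClosed Ω] (p : ℕ) [Fact p.Prime] [CharP k p]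
    [CharP Ω p] (h : Ctx k v r) (hcv : CompleteV v) {K₀ K : IntermediateField k Ω} (hK₀ : K₀.FG)
    (htr : Algebra.trdeg k K₀ = (r + D + 1 + 1 : ℕ)) (hBD : BD p v K₀) (hK : K = clI v K₀)
    {t₀ : Fin (r + D + 1 + 1) → Ω} (ht₀ : clI v (kr k t₀) = K) {a : Ω}
    (ha : a ∈ K) {μ₁ : ℝ} (hμ : ∀ g ∈ K, ¬ v.Ge μ₁ (a - g ^ p)) {h₁ g₁ : Ω} (hh : h₁ ∈ K)
    (hh0 : h₁ ≠ 0) (hg : g₁ ∈ K) :
    ∃ N₁ : ℝ, ∀ (R : Fr k v r D) (X T : Ω), clI v (adj (adj R.K X) T) = K →
      ∀ P : Polynomial (Polynomial Ω), ∀ hP : PII R.K P,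
      v.Ge N₁ (a * h₁ ^ p - g₁ ^ p - P.evalEval X T) →
      ∃ (R' : Fr k v r D) (X' T' : Ω) (P' : Polynomial (Polynomial Ω)) (ψ : VIso v R.K R'.K),
        PII R'.K P' ∧ a * h₁ ^ p - g₁ ^ p = P'.evalEval X' T' ∧
        (∀ i l, ((P'.coeff i).coeff l) = (ψ.e ⟨(P.coeff i).coeff l, hP i l⟩ : Ω)) ∧
        clI v (adj (adj R'.K X') T') = K ∧ BD p v (adj (adj R'.K X') T') ∧
        Transcendental R'.K X' ∧ Transcendental (adj R'.K X') T' ∧
        Transcendental (adj R'.K T') X' ∧
        (∀ i, v (R'.s i) = v (R.s i)) ∧ v X' = v X ∧ v T' = v T ∧ X' ≠ 0 ∧ T' ≠ 0 := by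
  classical
  obtain ⟨m, s, hsb, C, hC⟩ := id hBD
  have hm : m = r + D + 1 + 1 := by
    have h4 := (hsb.trdeg p hK₀).1
    rw [htr] at h4
    exact_mod_cast h4.symm
  subst hm
  have hos : OI p v (clI v K₀) s C := (OI.of_orth_pb hC hsb).cl
  have hpb : PBasis p K s := by
    rw [hK]
    exact pbasis_clI hcv hsb hos
  have hBDK : BD p v K := ⟨_, s, hpb, C, by rw [hK]; exact hos.orth⟩
  have haK : a * h₁ ^ p - g₁ ^ p ∈ K := sub_mem (mul_mem ha (pow_mem hh p)) (pow_mem hg p)
  have hdist : ∀ g ∈ K, ¬ v.Ge (μ₁ + p * v h₁) (a * h₁ ^ p - g₁ ^ p - g ^ p) := by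
    intro g hg' h1
    refine hμ ((g + g₁) / h₁) (div_mem (add_mem hg' hg) hh) fun hne => ?_
    have e1 : a - ((g + g₁) / h₁) ^ p = (a * h₁ ^ p - g₁ ^ p - g ^ p) / h₁ ^ p := by
      rw [div_pow, add_pow_char, eq_div_iff (pow_ne_zero p hh0), sub_mul,
        div_mul_cancel₀ _ (pow_ne_zero p hh0)]
      ring
    rw [e1] at hne ⊢
    have h2 : a * h₁ ^ p - g₁ ^ p - g ^ p ≠ 0 := fun h3 => hne (by rw [h3, zero_div])
    rw [v.map_div h2 (pow_ne_zero p hh0), v.map_pow hh0]
    have := h1 h2
    linarith
  obtain ⟨N₁, hN₁⟩ := exists_aut p h.toCtx0 hcv hK₀ htr hBD hK ht₀ (μ₁ + p * v h₁)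
    (v (a * h₁ ^ p - g₁ ^ p))
  refine ⟨N₁, fun R X T hcl P hP hge => ?_⟩
  set t : Fin (r + D + 1 + 1) → Ω := Fin.snoc (Fin.snoc R.s X : Fin (r + D + 1) → Ω) T with ht
  have hTadj : adj (adj R.K X) T = kr k t := adj_adj_eq R X T
  have hTcl : clI v (kr k t) = K := by rw [← hTadj, hcl]
  -- the members
  have htT : t (Fin.last _) = T := by rw [ht, Fin.snoc_last]
  have htX : t (Fin.last (r + D)).castSucc = X := by rw [ht, Fin.snoc_castSucc, Fin.snoc_last]
  have hts : ∀ i : Fin (r + D), t i.castSucc.castSucc = R.s i := fun i => by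
    rw [ht, Fin.snoc_castSucc, Fin.snoc_castSucc]
  have hRt : R.K ≤ kr k t := by
    rw [← hTadj]
    exact fun x hx => (mem_adj_self _ _).2 ((mem_adj_self _ _).2 hx)
  have hXt : X ∈ kr k t := by
    rw [← htX]
    exact mem_kr t _
  have hTt : T ∈ kr k t := by
    rw [← htT]
    exact mem_kr t _
  obtain ⟨P₀, hP₀⟩ := exists_lift_PII (M := kr k t) fun i l => hRt (hP i l)
  have hPc : ∀ i l, (P.coeff i).coeff l = ((P₀.coeff i).coeff l : Ω) := by
    intro i l
    rw [← hP₀, coeff_map, coe_mapRingHom, coeff_map]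
    rfl
  have hPe : P.evalEval X T = (P₀.evalEval ⟨X, hXt⟩ ⟨T, hTt⟩ : kr k t) := by
    rw [← hP₀]
    exact map_mapRingHom_evalEval (algebraMap (kr k t) Ω) P₀ ⟨X, hXt⟩ ⟨T, hTt⟩
  have hPm : P.evalEval X T ∈ kr k t := by
    rw [hPe]
    exact Subtype.mem _
  have hPK : P.evalEval X T ∈ K := by
    rw [← hTcl]
    exact le_clI _ hPm
  obtain ⟨ψ₀, hψ₀⟩ := hN₁ _ haK (v.ge_self _) hdist (P.evalEval X T) hPK hge
  obtain ⟨t', ht'K, htcl, φ, hφ, hφψ⟩ := exists_aut_kr ψ₀ hTcl
  have hφb : (φ.e ⟨P.evalEval X T, hPm⟩ : Ω) = a * h₁ ^ p - g₁ ^ p := by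
    rw [hφψ _ hPK]
    exact hψ₀
  obtain ⟨hpT, hT0, -, -⟩ := gen_of_bas hBDK hpb hTcl
  obtain ⟨hpt', ht'0, C₃, hot'⟩ := gen_of_bas hBDK hpb htcl
  have hai : AlgebraicIndependent k t' := (hot'.mono (by
    rw [← htcl]
    exact le_clI _) le_rfl).algInd ht'0
  have hval : ∀ i, v (t' i) = v (t i) := by
    intro i
    have h1 := φ.val ⟨t i, mem_kr t i⟩ (hT0 i)
    rwa [hφ] at h1
  have hFG' : (kr k t').FG := IntermediateField.fg_adjoin_of_finite (Set.finite_range _)
  have hbd' : BD p v (kr k t') := (BD_dense hBDK hpb hFG' htcl).2 (by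
    rw [trdeg_adjoin_eq hai.to_subtype_range]
    have h2 := Cardinal.mk_range_eq_of_injective hai.injective
    simpa using h2)
  -- the new coordinates
  have hai1 : AlgebraicIndependent k (Fin.init t') := hai.comp _ (Fin.castSucc_injective _)
  have hai0 : AlgebraicIndependent k (Fin.init (Fin.init t')) :=
    hai1.comp _ (Fin.castSucc_injective _)
  have hinit : Fin.snoc (Fin.init t') (t' (Fin.last _)) = t' := Fin.snoc_init_self t'
  have hinit' : Fin.snoc (Fin.init (Fin.init t')) (Fin.init t' (Fin.last _)) = Fin.init t' :=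
    Fin.snoc_init_self _
  obtain ⟨R', hR'⟩ := exists_frame R (t := Fin.init (Fin.init t')) hai0
    (fun i => ht'0 _) fun i => by
      rw [Fin.init, Fin.init, hval, hts]
  have hR'K : R'.K = kr k (Fin.init (Fin.init t')) := by rw [P1.K_eq, hR']
  have hadj1 : adj R'.K (Fin.init t' (Fin.last _)) = kr k (Fin.init t') := by
    rw [hR'K, adj_range, hinit']
  have hadj2 : adj (adj R'.K (Fin.init t' (Fin.last _))) (t' (Fin.last _)) = kr k t' := by
    rw [hadj1, adj_range, hinit]
  have htz : Transcendental (adj R'.K (Fin.init t' (Fin.last _))) (t' (Fin.last _)) := by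
    rw [hadj1]
    exact tr_last hai
  have htx : Transcendental R'.K (Fin.init t' (Fin.last _)) := by
    rw [hR'K]
    exact tr_last hai1
  -- the coordinate `X'` over `R'.K(T')`
  have htx' : Transcendental (adj R'.K (t' (Fin.last _))) (Fin.init t' (Fin.last _)) := by
    rw [hR'K, adj_range]
    refine TWM.transcendental_kr (s := (Fin.snoc (Fin.init (Fin.init t')) (t' (Fin.last _)) :
      Fin (r + D + 1) → Ω)) ?_ ?_
    · have h1 := hai.comp (Fin.snoc (fun i : Fin (r + D) => i.castSucc.castSucc)
        (Fin.last _) : Fin (r + D + 1) → Fin (r + D + 1 + 1)) (by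
          intro i j hij
          induction i using Fin.lastCases with
          | last =>
            induction j using Fin.lastCases with
            | last => rfl
            | cast j =>
              rw [Fin.snoc_last, Fin.snoc_castSucc] at hij
              exact absurd hij.symm (Fin.castSucc_lt_last _).ne
          | cast i =>
            induction j using Fin.lastCases with
            | last =>
              rw [Fin.snoc_last, Fin.snoc_castSucc] at hij
              exact absurd hij (Fin.castSucc_lt_last _).ne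
            | cast j =>
              rw [Fin.snoc_castSucc, Fin.snoc_castSucc] at hij
              rw [Fin.castSucc_injective _ (Fin.castSucc_injective _ hij)])
      convert h1 using 1
      funext i
      induction i using Fin.lastCases with
      | last => rw [Fin.snoc_last, Function.comp_apply, Fin.snoc_last]
      | cast i => rw [Fin.snoc_castSucc, Function.comp_apply, Fin.snoc_castSucc]; rfl
    · have h1 := hai.comp (fun o : Option (Fin (r + D + 1)) => o.elim
        (Fin.last (r + D)).castSucc (Fin.snoc (fun i : Fin (r + D) => i.castSucc.castSucc)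
        (Fin.last _) : Fin (r + D + 1) → Fin (r + D + 1 + 1))) (by
          have hne : ∀ j : Fin (r + D + 1), (Fin.snoc (fun i : Fin (r + D) =>
              i.castSucc.castSucc) (Fin.last _) : Fin (r + D + 1) → Fin (r + D + 1 + 1)) j ≠
              (Fin.last (r + D)).castSucc := by
            intro j
            induction j using Fin.lastCases with
            | last =>
              rw [Fin.snoc_last]
              exact (Fin.castSucc_lt_last _).ne'
            | cast j =>
              rw [Fin.snoc_castSucc]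
              intro hj
              exact (Fin.castSucc_lt_last j).ne (Fin.castSucc_injective _ hj)
          have hinj : Function.Injective (Fin.snoc (fun i : Fin (r + D) =>
              i.castSucc.castSucc) (Fin.last _) : Fin (r + D + 1) → Fin (r + D + 1 + 1)) := by
            intro i j hij
            induction i using Fin.lastCases with
            | last =>
              induction j using Fin.lastCases with
              | last => rfl
              | cast j =>
                rw [Fin.snoc_last, Fin.snoc_castSucc] at hij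
                exact absurd hij.symm (Fin.castSucc_lt_last _).ne
            | cast i =>
              induction j using Fin.lastCases with
              | last =>
                rw [Fin.snoc_last, Fin.snoc_castSucc] at hij
                exact absurd hij (Fin.castSucc_lt_last _).ne
              | cast j =>
                rw [Fin.snoc_castSucc, Fin.snoc_castSucc] at hij
                rw [Fin.castSucc_injective _ (Fin.castSucc_injective _ hij)]
          rintro (_ | i) (_ | j) hij
          · rfl
          · exact absurd hij.symm (hne j)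
          · exact absurd hij (hne i)
          · exact congrArg some (hinj hij))
      convert h1 using 1
      funext o
      rcases o with _ | o
      · rfl
      · show (Fin.snoc (Fin.init (Fin.init t')) (t' (Fin.last _)) : Fin (r + D + 1) → Ω) o =
          t' ((Fin.snoc (fun i : Fin (r + D) => i.castSucc.castSucc) (Fin.last _) :
            Fin (r + D + 1) → Fin (r + D + 1 + 1)) o)
        induction o using Fin.lastCases with
        | last => rw [Fin.snoc_last, Fin.snoc_last]
        | cast i => rw [Fin.snoc_castSucc, Fin.snoc_castSucc]; rfl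
  -- the isometry
  have hRK : R.K = kr k (t ∘ fun i : Fin (r + D) => i.castSucc.castSucc) := by
    rw [P1.K_eq R]
    congr 2
    exact (funext hts).symm
  have hR'K' : R'.K = kr k (t' ∘ fun i : Fin (r + D) => i.castSucc.castSucc) := hR'K
  have hR't : R'.K ≤ kr k t' := by
    rw [← hadj2]
    exact fun x hx => (mem_adj_self _ _).2 ((mem_adj_self _ _).2 hx)
  obtain ⟨ψ, hψ⟩ := VIso.exists_restrict (F := R.K) (F' := R'.K) φ hRt (fun b => by
    rw [hRK, hR'K']
    exact mem_kr_iff φ hφ _ b) hR't
  have hco : ∀ i l, ((trpp φ P₀).coeff i).coeff l =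
      (ψ.e ⟨(P.coeff i).coeff l, hP i l⟩ : Ω) := by
    intro i l
    rw [trpp_coeff, hψ]
    congr 2
    exact Subtype.ext (hPc i l).symm
  have hφX : (φ.e ⟨X, hXt⟩ : Ω) = Fin.init t' (Fin.last _) := by
    have h1 := hφ (Fin.last (r + D)).castSucc (mem_kr t _)
    rw [Fin.init, ← h1]
    congr 2
    exact Subtype.ext htX.symm
  have hφT : (φ.e ⟨T, hTt⟩ : Ω) = t' (Fin.last _) := by
    have h1 := hφ (Fin.last _) (mem_kr t _)
    rw [← h1]
    congr 2
    exact Subtype.ext htT.symm
  refine ⟨R', Fin.init t' (Fin.last _), t' (Fin.last _), trpp φ P₀, ψ, fun i l => ?_, ?_, hco,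
    ?_, ?_, htx, htz, htx', fun i => ?_, ?_, ?_, ht'0 _, ht'0 _⟩
  · rw [hco]
    exact Subtype.mem _
  · rw [← hφX, ← hφT, trpp_evalEval, ← hφb]
    congr 2
    exact Subtype.ext hPe
  · rw [hadj2, htcl]
  · rw [hadj2]
    exact hbd'
  · rw [hR', ← hts]
    exact hval _
  · rw [← htX]
    exact hval _
  · rw [← htT]
    exact hval _

end Pool.Agent.TWJ2
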