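import Pool.Agent.Lib.TWJ2.Drop
import Pool.Agent.Lib.TWJ2.Two
import Pool.Agent.Lib.TWJ2.Con1

/-!
# TANK W, ROW J: from a leading monomial at a level to a leading monomial of a flag

`trans_P1`: at the level `(b, Q)` of `y` over `C`, radius `c` of `T`, the monomial `Q ^ l T ^ i` of
`B` is the leading one, and `B(y, T) = a h ^ p - g ^ p`. Then there are a frame `R`, `X`, `T'` and
`B'` over `R.K` with the same leading monomial `X ^ l T' ^ i` and `B'(X, T') = a h ^ p - g ^ p`.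
-/

set_option autoImplicit false
set_option linter.unusedSectionVars false

open Polynomial

namespace Pool.Agent.TWJ2

open Pool.Agent.H15JM (RVal)
open Pool.Agent.LU1 (adj)
open Pool.Agent.D2 (Ctx0)
open Pool.Agent.D2P (hen clI mem_clI mem_adj_self adj_le)
open Pool.Agent.TW
open Pool.Agent.TWM (CompleteV le_clI clI_mono clI_clI clI_hen PI PII GB Gt C_mem_PI X_mem_PI)
open Pool.Agent.TWJ (IsMin)
open Pool.Agent.TWJ2.Dg
open Pool.Agent.TWJ2.Con (P1)

universe u

variable {k Ω : Type u} [Field k] [Field Ω] [Algebra k Ω] {v : RVal Ω}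
  {C : IntermediateField k Ω} {y : Ω}

section

variable {p : ℕ} {r D : ℕ} {η : Ω} {ρ b₁ b ε : ℝ} [hp : Fact p.Prime] [CharP k p]
    [CharP Ω p] [IsAlgClosed Ω] [IsAlgClosed k]

/-- The flag of the centre has the same closure. -/
theorem clI_flag (h : Ctx k v r) (hd : Dns v C) (d : SD p k v r D C y η ρ b₁ b ε) (T : Ω) :
    clI v (adj (adj d.S'.K d.X) T) = clI v (adj (adj C y) T) := by
  obtain ⟨h1, h2, -, -, -, -, -, h8⟩ := level0_facts h hd d
  refine TWJ.clI_adj_congr ?_ T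
  rw [← clI_hen (adj d.S'.K d.X), h8, clI_hen]

/-- The value `v d.q` is the Gauss value of the key polynomial. -/
theorem gval_q (d : SD p k v r D C y η ρ b₁ b ε) :
    gval v y b ((minpoly C η).map (algebraMap C Ω)) = v d.q := by
  have hint : IsIntegral C η := d.cen.sep.isIntegral
  have hQ0 : (minpoly C η).map (algebraMap C Ω) ≠ 0 := ((minpoly.monic hint).map _).ne_zero
  have hbη : v.Ge b (y - η) := RVal.Ge.of_le d.cen.lt'.le
  refine le_antisymm ?_ ?_
  · have h1 : GN v C η b (gval v y b ((minpoly C η).map (algebraMap C Ω))) (minpoly C η) := by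
      rw [gn_iff hbη]
      exact GB_gval
    obtain ⟨j, -, hj0, hj⟩ := d.q_val.2
    have h2 := h1 j hj0
    linarith
  · rw [← GB_iff hQ0, ← gn_iff hbη]
    exact d.q_val.1

/-- The digits in the flag of the centre. -/
theorem exists_digit_rep (h : Ctx k v r) (hd : Dns v C) (d : SD p k v r D C y η ρ b₁ b ε)
    {b₀ β : ℝ} (hL : Lev v C y b₀ ((minpoly C η).map (algebraMap C Ω)) β) (hb₀ : b₀ ≤ b)
    {g : Polynomial Ω} (hg : g ∈ PI C)
    (hgd : g.natDegree < ((minpoly C η).map (algebraMap C Ω)).natDegree) {ε₁ : ℝ} (hε₁ : 0 < ε₁)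
    (N : ℝ) : ∃ f' ∈ PI d.S'.K, (g = 0 → f' = 0) ∧
      (∀ lam, v.Ge lam (g.eval y) → ∀ j, v.Ge (lam - ε₁) (f'.coeff j)) ∧
      v.Ge N (g.eval y - f'.eval d.X) := by
  by_cases h0 : g = 0
  · refine ⟨0, zero_mem _, fun _ => rfl, fun lam _ j => ?_, ?_⟩
    · rw [coeff_zero]
      exact RVal.Ge.zero
    · rw [h0, eval_zero, eval_zero, sub_zero]
      exact RVal.Ge.zero
  · have hbη : v.Ge b (y - η) := RVal.Ge.of_le d.cen.lt'.le
    have hint : IsIntegral C η := d.cen.sep.isIntegral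
    have hyη : y ≠ η := by
      intro h1
      refine d.cen.tr ?_
      rw [h1]
      exact hint.isAlgebraic
    have hne : g.eval y ≠ 0 := hL.eval_ne hg h0 hgd
    obtain ⟨a, ha⟩ := exists_lift hg
    have h1 : GN v C η b (v (g.eval y)) a := by
      rw [gn_iff hbη, ha]
      exact (hL.gb_small hg hgd hb₀).2 (v.ge_self _)
    obtain ⟨f', hf', h2, h3⟩ := rep_of_GN h hd d h1
      (lam' := v (g.eval y) - ε₁) (by linarith) N
    refine ⟨f', hf', fun h4 => absurd h4 h0, fun lam hlam j => (h2 j).mono ?_, ?_⟩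
    · linarith [hlam hne]
    · have h4 := TWJ.Reg.ge hyη d.cen.lt' d.lt₂ h3
      rw [← ha, eval_map_algebraMap]
      exact h4

omit [CharP k p] [CharP Ω p] [IsAlgClosed Ω] [IsAlgClosed k] hp in
theorem evalEval_range {B : Polynomial (Polynomial Ω)} {M : ℕ} (hM : ∀ i, M ≤ i → B.coeff i = 0)
    (y T : Ω) : B.evalEval y T = ∑ i ∈ Finset.range M, (B.coeff i).eval y * T ^ i := by
  have h1 : B = ∑ i ∈ Finset.range M, Polynomial.C (B.coeff i) * Polynomial.X ^ i := by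
    ext1 j
    rw [finsetSum_coeff]
    simp only [coeff_C_mul, coeff_X_pow, mul_ite, mul_one, mul_zero]
    rw [Finset.sum_ite_eq]
    split_ifs with h2
    · rfl
    · exact hM j (by simpa using h2)
  conv_lhs => rw [h1]
  rw [evalEval, eval_finsetSum, eval_finsetSum]
  refine Finset.sum_congr rfl fun i _ => ?_
  rw [eval_mul, eval_C, eval_pow, eval_X, eval_mul, eval_pow, eval_C]

/-- The polynomial in the flag of the centre. -/
theorem exists_repP (h : Ctx k v r) (hd : Dns v C) (d : SD p k v r D C y η ρ b₁ b ε)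
    {b₀ β : ℝ} (hL : Lev v C y b₀ ((minpoly C η).map (algebraMap C Ω)) β) (hb₀ : b₀ ≤ b)
    {B : Polynomial (Polynomial Ω)} (hB : PII C B) {ε₁ : ℝ} (hε₁ : 0 < ε₁) (T : Ω) (N₁ : ℝ) :
    ∃ (N : ℕ) (f' : ℕ → ℕ → Polynomial Ω) (P : Polynomial (Polynomial Ω)), PII d.S'.K P ∧
      (∀ l i, N ≤ l → dig ((minpoly C η).map (algebraMap C Ω)) (B.coeff i) l = 0) ∧
      (∀ l i lam, v.Ge lam ((dig ((minpoly C η).map (algebraMap C Ω)) (B.coeff i) l).eval y) →
        ∀ j, v.Ge (lam - ε₁) ((f' l i).coeff j)) ∧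
      (∀ l i, v.Ge N₁ ((dig ((minpoly C η).map (algebraMap C Ω)) (B.coeff i) l).eval y -
        (f' l i).eval d.X)) ∧
      (∀ i m, (P.coeff i).coeff m =
        ∑ l ∈ Finset.range N, if l ≤ m then d.q ^ l * (f' l i).coeff (m - l) else 0) ∧
      v.Ge N₁ (B.evalEval y T - P.evalEval d.X T) := by
  classical
  set Q := (minpoly C η).map (algebraMap C Ω) with hQ
  have hQm : Q.Monic := hL.mon
  have hQ0 := hL.natDegree_pos
  obtain ⟨N, M, hbig⟩ := exists_Big hQm hQ0 B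
  have hbig := hbig N M le_rfl le_rfl
  -- a large bound
  obtain ⟨N₂, hN₂, hN₂'⟩ : ∃ N₂ : ℝ, N₁ ≤ N₂ ∧ ∀ i < M, ∀ l < N,
      v.Ge (N₁ - N₂) (Q.eval y ^ l * T ^ i) := by
    have h1 : ∃ W : ℝ, ∀ x ∈ Finset.range M ×ˢ Finset.range N,
        W ≤ v (Q.eval y ^ x.2 * T ^ x.1) := by
      rcases (Finset.range M ×ˢ Finset.range N).eq_empty_or_nonempty with h0 | h0
      · exact ⟨0, fun x hx => by rw [h0] at hx; exact absurd hx (Finset.notMem_empty x)⟩
      · exact ⟨(Finset.range M ×ˢ Finset.range N).inf' h0 fun x => v (Q.eval y ^ x.2 * T ^ x.1),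
          fun x hx => Finset.inf'_le (f := fun x : ℕ × ℕ => v (Q.eval y ^ x.2 * T ^ x.1)) hx⟩
    obtain ⟨W, hW⟩ := h1
    refine ⟨max N₁ (N₁ - W), le_max_left _ _, fun i hi l hl _ => ?_⟩
    have h2 := hW (i, l) (Finset.mem_product.2 ⟨Finset.mem_range.2 hi, Finset.mem_range.2 hl⟩)
    have h3 := le_max_right N₁ (N₁ - W)
    simp only at h2
    linarith
  have hex : ∀ l i : ℕ, ∃ f' ∈ PI d.S'.K, (dig Q (B.coeff i) l = 0 → f' = 0) ∧
      (∀ lam, v.Ge lam ((dig Q (B.coeff i) l).eval y) → ∀ j, v.Ge (lam - ε₁) (f'.coeff j)) ∧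
      v.Ge N₂ ((dig Q (B.coeff i) l).eval y - f'.eval d.X) := fun l i =>
    exists_digit_rep h hd d hL hb₀ (dig_mem hL.mem hQm (fun j => hB i j) l)
      (natDegree_modByMonic_lt _ hQm hL.ne_one) hε₁ N₂
  choose f' hf' h0 h1 h2 using hex
  set G : ℕ → Polynomial Ω := fun i => ∑ l ∈ Finset.range N, (Polynomial.C d.q * X) ^ l * f' l i
    with hG
  have hGm : ∀ i, G i ∈ PI d.S'.K := fun i => sum_mem fun l _ =>
    mul_mem (pow_mem (mul_mem (C_mem_PI d.q_mem) X_mem_PI) l) (hf' l i)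
  have hGc : ∀ i m, (G i).coeff m =
      ∑ l ∈ Finset.range N, if l ≤ m then d.q ^ l * (f' l i).coeff (m - l) else 0 := by
    intro i m
    simp only [hG]
    rw [finsetSum_coeff]
    refine Finset.sum_congr rfl fun l _ => ?_
    rw [mul_pow, ← C_pow, mul_assoc, coeff_C_mul, coeff_X_pow_mul', mul_ite, mul_zero]
  have hzero : ∀ i, M ≤ i → G i = 0 := by
    intro i hi
    simp only [hG]
    refine Finset.sum_eq_zero fun l _ => ?_
    rw [h0 l i (hbig.dig_eq hQm (by omega)), mul_zero]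
  set P : Polynomial (Polynomial Ω) := ∑ i ∈ Finset.range M, Polynomial.C (G i) *
    Polynomial.X ^ i with hP
  have hPc : ∀ i, P.coeff i = G i := by
    intro i
    rw [hP, finsetSum_coeff]
    simp only [coeff_C_mul, coeff_X_pow, mul_ite, mul_one, mul_zero]
    rw [Finset.sum_ite_eq]
    split_ifs with h3
    · rfl
    · exact (hzero i (by simpa using h3)).symm
  have hqX : d.q * d.X = Q.eval y := by
    rw [SD.X, hQ, eval_map_algebraMap]
    have h3 := d.q_ne
    field_simp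
  refine ⟨N, f', P, fun i m => by rw [hPc]; exact hGm i m, fun l i hl =>
    hbig.dig_eq hQm (by omega), h1, fun l i => (h2 l i).mono hN₂, fun i m => by
      rw [hPc]; exact hGc i m, ?_⟩
  have e1 : B.evalEval y T = ∑ i ∈ Finset.range M, ∑ l ∈ Finset.range N,
      (dig Q (B.coeff i) l).eval y * (Q.eval y ^ l * T ^ i) := by
    rw [evalEval_range hbig.2]
    refine Finset.sum_congr rfl fun i _ => ?_
    conv_lhs => rw [expand_of_lt hQm (hbig.1 i)]
    rw [eval_finsetSum, Finset.sum_mul]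
    refine Finset.sum_congr rfl fun l _ => ?_
    rw [eval_mul, eval_pow]
    ring
  have e2 : P.evalEval d.X T = ∑ i ∈ Finset.range M, ∑ l ∈ Finset.range N,
      (f' l i).eval d.X * (Q.eval y ^ l * T ^ i) := by
    rw [evalEval_range (M := M) fun i hi => by rw [hPc]; exact hzero i hi]
    refine Finset.sum_congr rfl fun i _ => ?_
    rw [hPc]
    simp only [hG]
    rw [eval_finsetSum, Finset.sum_mul]
    refine Finset.sum_congr rfl fun l _ => ?_
    rw [eval_mul, eval_pow, eval_mul, eval_C, eval_X, hqX]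
    ring
  rw [e1, e2, ← Finset.sum_sub_distrib]
  refine RVal.Ge.sum _ _ fun i hi => ?_
  rw [← Finset.sum_sub_distrib]
  refine RVal.Ge.sum _ _ fun l hl => ?_
  rw [← sub_mul]
  exact ((h2 l i).mul (hN₂' i (Finset.mem_range.1 hi) l (Finset.mem_range.1 hl))).mono (by linarith)

/-- **The transport of a leading monomial.** -/
theorem trans_P1 (h : Ctx k v r) (hcv : CompleteV v) (hd : Dns v C)
    (hLU : ∀ E : IntermediateField k Ω, E.FG → Full v E →
      Algebra.trdeg k E = (r + D : ℕ) → BD p v E → LU p v r E)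
    {K : IntermediateField k Ω} {T : Ω} (F : Flg p v (r + D) K C y T)
    (hbd : BD p v (adj (adj C y) T)) {a : Ω} (ha : a ∈ K) {μ₁ : ℝ}
    (hμ₁ : ∀ g ∈ K, ¬ v.Ge μ₁ (a - g ^ p)) {h₁ g₁ : Ω} (hh : h₁ ∈ K) (hh0 : h₁ ≠ 0)
    (hg : g₁ ∈ K) {B : Polynomial (Polynomial Ω)} (hB : PII C B)
    (hrep : a * h₁ ^ p - g₁ ^ p = B.evalEval y T) {b₀ β κ μ c : ℝ} {l₀ i₀ : ℕ}
    (hη : IsMin v C y η b₀) (hL : Lev v C y b₀ ((minpoly C η).map (algebraMap C Ω)) β)
    (hc : c < v T) (hμ : 0 < μ)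
    (hne : (dig ((minpoly C η).map (algebraMap C Ω)) (B.coeff i₀) l₀).eval y ≠ 0)
    (hval : v ((dig ((minpoly C η).map (algebraMap C Ω)) (B.coeff i₀) l₀).eval y) =
      κ - l₀ * β - i₀ * c)
    (hoth : ∀ l i : ℕ, (l ≠ l₀ ∨ i ≠ i₀) → v.Ge (κ + μ - l * β - i * c)
      ((dig ((minpoly C η).map (algebraMap C Ω)) (B.coeff i) l).eval y)) :
    ∃ (R : Fr k v r D) (X T' : Ω) (r₀ κ' μ' : ℝ) (A : Polynomial (Polynomial Ω)),
      Dns v R.K ∧ Transcendental R.K X ∧ Transcendental (adj R.K X) T' ∧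
      BD p v (adj (adj R.K X) T') ∧ K = clI v (adj (adj R.K X) T') ∧
      (∃ h ∈ K, h ≠ 0 ∧ ∃ g ∈ K, a * h ^ p - g ^ p = A.evalEval X T') ∧
      P1 v R.K X T' r₀ c κ' μ' l₀ i₀ A := by
  classical
  set Q := (minpoly C η).map (algebraMap C Ω) with hQ
  have hQm : Q.Monic := hL.mon
  -- the exact precision
  set K₀ := adj (adj C y) T with hK₀
  have hfgy : (adj C y).FG := IntermediateField.fg_sup F.fg
    ⟨{y}, by rw [Finset.coe_singleton]⟩
  have hfg : K₀.FG := IntermediateField.fg_sup hfgy ⟨{T}, by rw [Finset.coe_singleton]⟩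
  have htr : Algebra.trdeg k K₀ = (r + D + 1 + 1 : ℕ) := by
    rw [HRLU.trdeg_adj F.tz, HRLU.trdeg_adj F.ty, F.tr]
    push_cast
    ring
  -- a small radius
  set n : ℝ := (Q.natDegree : ℝ) with hn
  have hn0 : 0 < n := by
    rw [hn]
    exact_mod_cast hL.natDegree_pos
  set σ := μ / (4 * (l₀ + 1)) with hσ
  have hl0 : (0 : ℝ) ≤ l₀ := Nat.cast_nonneg _
  have hσ0 : 0 < σ := by positivity
  have hσl : l₀ * σ ≤ μ / 4 := by
    rw [hσ, mul_div_assoc', div_le_div_iff₀ (by positivity) (by norm_num)]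
    nlinarith
  obtain ⟨b, b₁, ε, hb1, hb2, ⟨d⟩⟩ := exists_level0 (ρ' := min (v (y - η)) (b₀ + σ / (2 * n))) p h
    F.fg F.full F.bd F.tr hLU hd F.ty hη
    (lt_min hη.lt (by
      have : 0 < σ / (2 * n) := by positivity
      linarith)) (min_le_left _ _)
  obtain ⟨-, -, -, hXpos, -, -, -, -⟩ := level0_facts h hd d
  have hq1 : β ≤ v d.q := by
    rw [← gval_q d, ← hQ, hL.beta]
    exact gval_mono hb1.le
  have hq2 : v d.q ≤ β + σ / 2 := by
    have h3 := gval_up_deg (v := v) (y := y) (f := Q) hb1.le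
    rw [← hL.beta, hQ, gval_q d, ← hQ, ← hn] at h3
    have h4 : b - b₀ ≤ σ / (2 * n) := by
      have := hb2.trans_le (min_le_right _ _)
      linarith
    have h5 : n * (b - b₀) ≤ σ / 2 := by
      calc n * (b - b₀) ≤ n * (σ / (2 * n)) := mul_le_mul_of_nonneg_left h4 hn0.le
        _ = σ / 2 := by field_simp
    linarith
  set r₀ := min (v d.X / 2) (σ / 2) with hr₀
  have hr₀0 : 0 < r₀ := lt_min (half_pos hXpos) (half_pos hσ0)
  have hr₀X : r₀ < v d.X := (min_le_left _ _).trans_lt (half_lt_self hXpos)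
  have hr₀σ : r₀ ≤ σ / 2 := min_le_right _ _
  set ε₁ := min (r₀ / 2) (μ / 4) with hε₁
  have hε₁0 : 0 < ε₁ := lt_min (half_pos hr₀0) (by positivity)
  have hε₁r : ε₁ ≤ r₀ / 2 := min_le_left _ _
  have hε₁μ : ε₁ ≤ μ / 4 := min_le_right _ _
  set κ' := κ + l₀ * (v d.q + r₀ - β) with hκ'
  have hκ'1 : κ' ≤ κ + μ / 4 := by
    have h3 : l₀ * (v d.q + r₀ - β) ≤ l₀ * σ := mul_le_mul_of_nonneg_left (by linarith) hl0
    linarith
  set μ' := min (μ / 2) (r₀ / 2) with hμ'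
  have hμ'0 : 0 < μ' := lt_min (half_pos hμ) (half_pos hr₀0)
  have hμ'1 : μ' ≤ μ / 2 := min_le_left _ _
  have hμ'2 : μ' ≤ r₀ / 2 := min_le_right _ _
  -- the exact representation
  have hclK : clI v (adj (adj d.S'.K d.X) T) = K := by rw [clI_flag h hd d T, F.cl]
  obtain ⟨N₁, hN₁⟩ := two_near p h hcv hfg htr hbd F.cl
    (t₀ := Fin.snoc (Fin.snoc d.S'.s d.X : Fin (r + D + 1) → Ω) T)
    (by rw [← adj_adj_eq, hclK]) ha hμ₁ hh hh0 hg
  set u := (dig Q (B.coeff i₀) l₀).eval y with hu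
  obtain ⟨N, f', P, hPm, hN, hf1, hf2, hPc, hPev⟩ := exists_repP h hd d hL hb1.le hB hε₁0 T
    (max N₁ (v u + 1))
  obtain ⟨R', X', T', P', ψ, hP'm, hP'e, hP'c, hcl', hbd', htx', htz', -, -, hvX, hvT, hX'0, hT'0⟩ :=
    hN₁ d.S' d.X T hclK P hPm (by
      rw [hrep]
      exact hPev.mono (le_max_left _ _))
  -- the coefficients of `P`
  have hterm : ∀ l i j lam, v.Ge lam ((dig Q (B.coeff i) l).eval y) →
      v.Ge (l * v d.q + (lam - ε₁)) (d.q ^ l * (f' l i).coeff j) := by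
    intro l i j lam h3
    refine RVal.Ge.mul ?_ (hf1 l i lam h3 j)
    intro _
    rw [v.map_pow d.q_ne]
  have hPoth : ∀ l i : ℕ, (l ≠ l₀ ∨ i ≠ i₀) →
      v.Ge (κ' + μ' - l * r₀ - i * c) ((P.coeff i).coeff l) := by
    intro m i hmi
    rw [hPc]
    refine RVal.Ge.sum _ _ fun l _ => ?_
    split_ifs with hlm
    · have hm0 : (0 : ℝ) ≤ m := Nat.cast_nonneg _
      by_cases hli : l = l₀ ∧ i = i₀
      · obtain ⟨rfl, rfl⟩ := hli
        have hml : l + 1 ≤ m := by
          rcases hmi with h4 | h4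
          · omega
          · exact absurd rfl h4
        have hml' : (l : ℝ) + 1 ≤ m := by exact_mod_cast hml
        refine (hterm l i _ (κ - l * β - i * c) (fun _ => hval.ge)).mono ?_
        have h5 : ((l : ℝ) + 1) * r₀ ≤ m * r₀ := mul_le_mul_of_nonneg_right hml' hr₀0.le
        rw [hκ']
        nlinarith
      · have hli' : l ≠ l₀ ∨ i ≠ i₀ := by
          by_contra h4
          push Not at h4
          exact hli h4
        refine (hterm l i _ _ (hoth l i hli')).mono ?_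
        have h5 : (0 : ℝ) ≤ l * (v d.q - β) := mul_nonneg (Nat.cast_nonneg _) (by linarith)
        have h6 : 0 ≤ m * r₀ := mul_nonneg hm0 hr₀0.le
        nlinarith
    · exact RVal.Ge.zero
  have hl₀N : l₀ < N := by
    by_contra h3
    refine hne ?_
    rw [hu, hN l₀ i₀ (not_lt.1 h3), eval_zero]
  -- the leading coefficient
  have hw : (f' l₀ i₀).coeff 0 ≠ 0 ∧ v ((f' l₀ i₀).coeff 0) = v u := by
    have h3 : Gt v (v u) ((f' l₀ i₀).eval d.X - (f' l₀ i₀).coeff 0) := by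
      have h4 : (f' l₀ i₀).eval d.X - (f' l₀ i₀).coeff 0 =
          ∑ j ∈ Finset.Icc 1 (f' l₀ i₀).natDegree, (f' l₀ i₀).coeff j * d.X ^ j := by
        rw [eval_eq_sum_range, Finset.sum_range_eq_add_Ico _ (Nat.succ_pos _)]
        rw [pow_zero, mul_one, add_sub_cancel_left]
        rfl
      rw [h4]
      refine Gt.sum _ _ fun j hj => ?_
      have hj1 : 1 ≤ j := (Finset.mem_Icc.1 hj).1
      have hj1' : (1 : ℝ) ≤ j := by exact_mod_cast hj1
      have h5 : v.Ge (v u - ε₁ + j * v d.X) ((f' l₀ i₀).coeff j * d.X ^ j) :=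
        (hf1 l₀ i₀ (v u) (v.ge_self _) j).mul (TWM.ge_pow (v.ge_self _) j)
      refine Gt.of_ge h5 ?_
      nlinarith
    have h4 : Gt v (v u) ((f' l₀ i₀).coeff 0 - u) := by
      have h5 : (f' l₀ i₀).coeff 0 - u = -((f' l₀ i₀).eval d.X - (f' l₀ i₀).coeff 0) -
          (u - (f' l₀ i₀).eval d.X) := by ring
      rw [h5]
      refine h3.neg.sub (Gt.of_ge (hf2 l₀ i₀) ?_)
      have := le_max_right N₁ (v u + 1)
      linarith
    have h5 := add_gt_dom hne h4
    rwa [add_sub_cancel] at h5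
  have hlead : (P.coeff i₀).coeff l₀ ≠ 0 ∧
      v ((P.coeff i₀).coeff l₀) = l₀ * v d.q + v u := by
    rw [hPc, ← Finset.add_sum_erase _ _ (Finset.mem_range.2 hl₀N), if_pos le_rfl, Nat.sub_self]
    have h3 : v (d.q ^ l₀ * (f' l₀ i₀).coeff 0) = l₀ * v d.q + v u := by
      rw [v.map_mul (pow_ne_zero _ d.q_ne) hw.1, v.map_pow d.q_ne, hw.2]
    have h4 := add_gt_dom (mul_ne_zero (pow_ne_zero l₀ d.q_ne) hw.1) (v := v)
      (y := ∑ l ∈ (Finset.range N).erase l₀,
        if l ≤ l₀ then d.q ^ l * (f' l i₀).coeff (l₀ - l) else 0) (by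
        rw [h3]
        refine Gt.sum _ _ fun l hl => ?_
        split_ifs with hll
        · have hne' : l ≠ l₀ := (Finset.mem_erase.1 hl).1
          refine Gt.of_ge (hterm l i₀ _ _ (hoth l i₀ (Or.inl hne'))) ?_
          rw [hval]
          have h5 : (0 : ℝ) ≤ l * (v d.q - β) := mul_nonneg (Nat.cast_nonneg _) (by linarith)
          have h6 : l₀ * (v d.q - β) ≤ l₀ * σ := mul_le_mul_of_nonneg_left (by linarith) hl0
          nlinarith
        · exact Gt.zero)
    rw [h3] at h4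
    exact h4
  -- the transfer
  have hge : ∀ (lam : ℝ) (i l : ℕ), v.Ge lam ((P.coeff i).coeff l) →
      v.Ge lam ((P'.coeff i).coeff l) := by
    intro lam i l h3
    rw [hP'c]
    intro h4
    have h5 : (P.coeff i).coeff l ≠ 0 := fun h6 => h4 ((ψ.coe_eq_zero _).2 h6)
    rw [ψ.val _ h5]
    exact h3 h5
  have hl1 : (P'.coeff i₀).coeff l₀ ≠ 0 := by
    rw [hP'c]
    exact fun h4 => hlead.1 ((ψ.coe_eq_zero _).1 h4)
  have hl2 : v ((P'.coeff i₀).coeff l₀) = l₀ * v d.q + v u := by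
    rw [hP'c, ψ.val _ hlead.1]
    exact hlead.2
  refine ⟨R', X', T', r₀, κ', μ', P', ?_, htx', htz', hbd', hcl'.symm,
    ⟨h₁, hh, hh0, g₁, hg, hP'e⟩, ⟨hP'm, by rw [hvX]; exact hr₀X, by rw [hvT]; exact hc, hμ'0, hl1,
      ?_, fun l i hli => hge _ i l (hPoth l i hli)⟩⟩
  · intro s t hst
    obtain ⟨x, hx, hx0, h3, h4⟩ := TWJ.dns_K h hd d s t hst
    exact ⟨ψ.e ⟨x, hx⟩, Subtype.mem _, fun h5 => hx0 ((ψ.coe_eq_zero _).1 h5),
      by rw [ψ.val _ hx0]; exact h3, by rw [ψ.val _ hx0]; exact h4⟩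
  · rw [hl2, hval, hκ']
    ring

end

end Pool.Agent.TWJ2
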