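import Pool.Agent.Lib.TW_NFG.J6b
import Pool.Agent.Lib.TWJ2.Defs

/-!
# TANK W, ROW J, J.9a: the transport between a level and the flag of its centre

The setting: `F` finitely generated, `z` transcendental over `F`, `d : SD …` the star data of a
centre `η` of `z` (radius `b`); `E := d.S'.K`, `X := d.X`, the Gauss value of `X` at a radius
`b' ≥ b` is `γ(b') - v d.q`.

* `exists_level0`: the star data for a minimal centre and a small radius;
* `rep_of_GN`: a polynomial of Gauss value `> lam` at the radius `b` is a polynomial in `X` over `E`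
  with coefficients of value `≥ lam`, up to a regular function of large Gauss value;
* `key_poly_RB`: the Gauss value of a sum of terms `A_i Q ^ i`, `A_i` without zeros near `η`;
* `coeff_ge_of_reg`: a polynomial `P(X)` over `E` of Gauss value `≥ L` at the radius `b'` has
  coefficients of value `≥ L - i (γ - v d.q)`.
-/

set_option autoImplicit false

open Polynomial

namespace Pool.Agent.TWJ2

open Pool.Agent.H15JM (RVal)
open Pool.Agent.LU1 (adj)
open Pool.Agent.D2 (Ctx0)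
open Pool.Agent.D2P (hen)
open Pool.Agent.TW
open Pool.Agent.TWM (PI GB Gt)
open Pool.Agent.TWJ

universe u

section KeyPoly

variable {k Ω : Type u} [Field k] [Field Ω] [Algebra k Ω] {v : RVal Ω}
  {F : IntermediateField k Ω} {z η : Ω} {ρ b₁ b : ℝ}

/-- The Gauss value of a sum of terms `a_i Q ^ i`, `a_i` without zeros near `η`. -/
theorem key_poly_RB {cQ : ℝ} (hρb : ρ < b) {Q : F[X]} (hQ : IsGV v F η b cQ Q) {m : ℕ}
    (a : ℕ → F[X]) (ha : ∀ i < m, a i ≠ 0 → RB v F η ρ (a i)) {c : ℝ}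
    (hA : GN v F η b c (∑ i ∈ Finset.range m, a i * Q ^ i)) (i : ℕ) (him : i < m)
    (hi : a i ≠ 0) : c ≤ v (aeval η (a i)) + i * cQ := by
  classical
  by_contra hcon
  push Not at hcon
  obtain ⟨J, hJ, hGT⟩ := hQ.gt
  let S := (Finset.range m).filter fun i => a i ≠ 0
  let f : ℕ → ℝ := fun i => v (aeval η (a i)) + i * cQ
  have hmemS : ∀ i < m, a i ≠ 0 → i ∈ S := fun i him hi =>
    Finset.mem_filter.mpr ⟨Finset.mem_range.2 him, hi⟩
  obtain ⟨i₁, hi₁, hmin⟩ := S.exists_min_image f ⟨i, hmemS i him hi⟩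
  let T := S.filter fun i => f i = f i₁
  obtain ⟨i₀, hi₀, hmax⟩ := T.exists_max_image (fun i => i) ⟨i₁, Finset.mem_filter.mpr ⟨hi₁, rfl⟩⟩
  have hi₀' := Finset.mem_filter.mp hi₀
  have hi₀m : i₀ < m := Finset.mem_range.1 (Finset.mem_filter.mp hi₀'.1).1
  have hi₀a : a i₀ ≠ 0 := (Finset.mem_filter.mp hi₀'.1).2
  have hc₀ : f i₀ < c := by
    rw [hi₀'.2]
    exact (hmin i (hmemS i him hi)).trans_lt hcon
  have hterm : ∀ i < m, a i ≠ 0 → GT v F η b (f i) (i * J) (a i * Q ^ i) := by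
    intro i him hi
    have h1 := (GT.of_RB hρb (ha i him hi)).mul (hGT.pow i)
    rw [zero_add] at h1
    exact h1
  have hco : tc F η (∑ i ∈ Finset.range m, a i * Q ^ i) (i₀ * J) ≠ 0 ∧
      v (tc F η (∑ i ∈ Finset.range m, a i * Q ^ i) (i₀ * J)) =
        f i₀ - ((i₀ * J : ℕ) : ℝ) * b := by
    rw [tc_sum, ← Finset.add_sum_erase _ _ (Finset.mem_range.2 hi₀m)]
    refine Sg.add_eq (hterm i₀ hi₀m hi₀a).ne (hterm i₀ hi₀m hi₀a).eq (Sg.sum _ _ fun i hi => ?_)
    have hne : i ≠ i₀ := (Finset.mem_erase.mp hi).1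
    have him' : i < m := Finset.mem_range.1 (Finset.mem_erase.mp hi).2
    by_cases hai : a i = 0
    · rw [hai, zero_mul]
      have : tc F η (0 : F[X]) (i₀ * J) = 0 := by simp [tc]
      rw [this]
      exact Sg.zero
    have hle : f i₀ ≤ f i := by
      rw [hi₀'.2]
      exact hmin i (hmemS i him' hai)
    rcases hle.lt_or_eq with hlt | heq
    · exact Sg.of_ge (by linarith) ((hterm i him' hai).ge (i₀ * J))
    · have hiT : i ∈ T := Finset.mem_filter.mpr ⟨hmemS i him' hai, by rw [← heq, hi₀'.2]⟩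
      have hlt : i < i₀ := lt_of_le_of_ne (hmax i hiT) hne
      have hlt' : i * J < i₀ * J := Nat.mul_lt_mul_of_pos_right hlt hJ
      rw [heq]
      exact (hterm i him' hai).gt _ hlt'
  have h1 := hA (i₀ * J) hco.1
  rw [hco.2] at h1
  linarith

theorem RB.prod {ι : Type*} (s : Finset ι) (B : ι → F[X]) (hB : ∀ i ∈ s, RB v F η b₁ (B i)) :
    RB v F η b₁ (∏ i ∈ s, B i) ∧
      v (aeval η (∏ i ∈ s, B i)) = ∑ i ∈ s, v (aeval η (B i)) := by
  classical
  induction s using Finset.induction_on with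
  | empty =>
    rw [Finset.prod_empty, Finset.sum_empty, _root_.map_one, v.map_one]
    exact ⟨RB.one, rfl⟩
  | insert a s ha ih =>
    obtain ⟨h1, h2⟩ := ih fun i hi => hB i (Finset.mem_insert_of_mem hi)
    have h3 := hB a (Finset.mem_insert_self a s)
    rw [Finset.prod_insert ha, Finset.sum_insert ha]
    refine ⟨h3.mul h1, ?_⟩
    rw [_root_.map_mul, v.map_mul h3.1 h1.1, h2]

theorem RB.pow {B : F[X]} (hB : RB v F η b₁ B) (n : ℕ) :
    RB v F η b₁ (B ^ n) ∧ v (aeval η (B ^ n)) = n * v (aeval η B) := by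
  induction n with
  | zero =>
    rw [pow_zero, _root_.map_one, v.map_one, Nat.cast_zero, zero_mul]
    exact ⟨RB.one, rfl⟩
  | succ n ih =>
    rw [pow_succ]
    refine ⟨ih.1.mul hB, ?_⟩
    rw [_root_.map_mul, v.map_mul ih.1.1 hB.1, ih.2]
    push_cast
    ring

end KeyPoly

section Main

variable {k Ω : Type u} [Field k] [Field Ω] [Algebra k Ω] {v : RVal Ω}
  {F : IntermediateField k Ω} {z η : Ω} {ρ b₁ b : ℝ}
  {p : ℕ} {r D : ℕ} {ε : ℝ} [Fact p.Prime] [CharP k p] [CharP Ω p] [IsAlgClosed Ω]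
  [IsAlgClosed k]

/-- The elements of `E` are quotients of functions without zeros near `η`. -/
theorem exists_RB_div (d : SD p k v r D F z η ρ b₁ b ε) {m : Ω} (hm : m ∈ d.S'.K)
    (hm0 : m ≠ 0) : ∃ A B : F[X], RB v F η b₁ A ∧ RB v F η b₁ B ∧ aeval z A ≠ 0 ∧
      aeval z B ≠ 0 ∧ m = aeval z A / aeval z B ∧ v m = v (aeval η A) - v (aeval η B) := by
  rw [P4bAux.K_eq, IntermediateField.mem_adjoin_range_iff] at hm
  obtain ⟨U, T, rfl⟩ := hm
  have hU' : MvPolynomial.aeval d.S'.s U ≠ 0 := fun h0 => hm0 (by rw [h0, zero_div])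
  have hT' : MvPolynomial.aeval d.S'.s T ≠ 0 := fun h0 => hm0 (by rw [h0, div_zero])
  have hU := E5Aux.aeval_ne d hU'
  have hT := E5Aux.aeval_ne d hT'
  obtain ⟨BU, hBU, hBUη, hBUz⟩ := d.rb U hU
  obtain ⟨BT, hBT, hBTη, hBTz⟩ := d.rb T hT
  refine ⟨BU, BT, hBU, hBT, by rwa [hBUz], by rwa [hBTz], by rw [hBUz, hBTz], ?_⟩
  rw [v.map_div hU' hT', (E5Aux.val_aeval d hU).2, (E5Aux.val_aeval d hT).2, hBTη, hBUη]

/-- **T3.** A polynomial `P(X)` over `E` of Gauss value `≥ L` at the radius `b'` has coefficients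
of value `≥ L - i (γ - v d.q)`. -/
theorem coeff_ge_of_reg (d : SD p k v r D F z η ρ b₁ b ε) {b' : ℝ} (hbb : b ≤ b') {γ : ℝ}
    (hQ : IsGV v F η b' γ (minpoly F η)) {P : Polynomial Ω} (hP : P ∈ PI d.S'.K) {L : ℝ}
    (hreg : Reg v F z η b₁ b' L (P.eval d.X)) (i : ℕ) :
    v.Ge (L - i * (γ - v d.q)) (P.coeff i) := by
  classical
  intro hi0
  have hb : b₁ < b' := lt_of_lt_of_le d.lt₂ hbb
  have hz := d.cen.tr
  set n := P.natDegree with hn
  have hin : i ≤ n := le_natDegree_of_ne_zero hi0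
  -- the coefficients as quotients
  have hex : ∀ j : ℕ, ∃ A B : F[X], RB v F η b₁ B ∧ aeval z B ≠ 0 ∧
      P.coeff j = aeval z A / aeval z B ∧ (P.coeff j ≠ 0 → RB v F η b₁ A ∧
        v (P.coeff j) = v (aeval η A) - v (aeval η B)) ∧ (P.coeff j = 0 → A = 0) := by
    intro j
    by_cases hj : P.coeff j = 0
    · exact ⟨0, 1, RB.one, by simp, by simp [hj], fun h0 => absurd hj h0, fun _ => rfl⟩
    · obtain ⟨A, B, hA, hB, -, hBz, h1, h2⟩ := exists_RB_div d (hP j) hj
      exact ⟨A, B, hB, hBz, h1, fun _ => ⟨hA, h2⟩, fun h0 => absurd h0 hj⟩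
  choose A B hB hBz hAB hA1 hA0 using hex
  obtain ⟨Aq, Bq, hAq, hBq, hAqz, hBqz, hq1, hq2⟩ := exists_RB_div d d.q_mem d.q_ne
  set Q := minpoly F η with hQdef
  -- the common denominator
  set Dn : F[X] := (∏ j ∈ Finset.range (n + 1), B j) * Aq ^ n with hDn
  have hDB := RB.prod (v := v) (η := η) (b₁ := b₁) (Finset.range (n + 1)) B fun j _ => hB j
  have hDRB : RB v F η b₁ Dn := hDB.1.mul (RB.pow hAq n).1
  have hDv : v (aeval η Dn) = (∑ j ∈ Finset.range (n + 1), v (aeval η (B j))) +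
      n * v (aeval η Aq) := by
    rw [hDn, _root_.map_mul, v.map_mul hDB.1.1 (RB.pow hAq n).1.1, hDB.2, (RB.pow hAq n).2]
  set a : ℕ → F[X] := fun j =>
    A j * ((∏ l ∈ (Finset.range (n + 1)).erase j, B l) * (Bq ^ j * Aq ^ (n - j))) with ha
  have haRB : ∀ j, P.coeff j ≠ 0 → j < n + 1 → RB v F η b₁ (a j) ∧
      v (aeval η (a j)) = v (P.coeff j) + v (aeval η Dn) - j * v d.q := by
    intro j hj hjn
    obtain ⟨h1, h2⟩ := hA1 j hj
    have h3 := RB.prod (v := v) (η := η) (b₁ := b₁) ((Finset.range (n + 1)).erase j) B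
      fun l _ => hB l
    have h4 := RB.pow hBq j
    have h5 := RB.pow hAq (n - j)
    have h6 := h4.1.mul h5.1
    refine ⟨h1.mul (h3.1.mul h6), ?_⟩
    rw [ha]
    simp only
    rw [_root_.map_mul, v.map_mul h1.1 (h3.1.mul h6).1, _root_.map_mul, v.map_mul h3.1.1 h6.1,
      _root_.map_mul, v.map_mul h4.1.1 h5.1.1, h3.2, h4.2, h5.2, hDv, h2, hq2,
      ← Finset.add_sum_erase _ _ (Finset.mem_range.2 hjn), Nat.cast_sub (by omega)]
    ring
  have ha0 : ∀ j, a j ≠ 0 → P.coeff j ≠ 0 := by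
    intro j h1 h2
    refine h1 ?_
    rw [ha]
    simp only
    rw [hA0 j h2, zero_mul]
  -- the polynomial identity
  have hqz : d.q * aeval z Bq = aeval z Aq := by
    rw [hq1]
    field_simp
  have hXq : d.X * aeval z Aq = aeval z Q * aeval z Bq := by
    rw [SD.X, ← hqz]
    have h1 := d.q_ne
    field_simp
    ring
  have hev : aeval z (∑ j ∈ Finset.range (n + 1), a j * Q ^ j) = P.eval d.X * aeval z Dn := by
    rw [_root_.map_sum, eval_eq_sum_range, Finset.sum_mul]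
    refine Finset.sum_congr rfl fun j hj => ?_
    have hjn : j < n + 1 := Finset.mem_range.1 hj
    have h1 : aeval z (∏ l ∈ Finset.range (n + 1), B l) =
        aeval z (B j) * aeval z (∏ l ∈ (Finset.range (n + 1)).erase j, B l) := by
      rw [← Finset.mul_prod_erase _ _ hj, _root_.map_mul]
    have h2 : P.coeff j * aeval z (B j) = aeval z (A j) := by
      rw [hAB j]
      field_simp [hBz j]
    have h3 : (aeval z Aq : Ω) ^ n = aeval z Aq ^ j * aeval z Aq ^ (n - j) := by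
      rw [← pow_add]
      congr 1
      omega
    rw [ha]
    simp only [_root_.map_mul, _root_.map_pow]
    rw [hDn, _root_.map_mul, h1, _root_.map_pow, h3, ← h2]
    have h4 : d.X ^ j * aeval z Aq ^ j = aeval z Q ^ j * aeval z Bq ^ j := by
      rw [← mul_pow, hXq, mul_pow]
    linear_combination (-(P.coeff j) * aeval z (B j) *
      aeval z (∏ l ∈ (Finset.range (n + 1)).erase j, B l) * aeval z Aq ^ (n - j)) * h4
  have hGN : GN v F η b' (L + v (aeval η Dn)) (∑ j ∈ Finset.range (n + 1), a j * Q ^ j) := by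
    refine GN.of_Reg hz hb.le (b₁ := b₁) ?_
    rw [hev]
    exact hreg.mul (Reg.of_RB hb.le hDRB)
  have hai := haRB i hi0 (by omega)
  have hai0 : a i ≠ 0 := by
    intro h0
    have h1 := hai.1.1
    rw [h0, _root_.map_zero] at h1
    exact h1 rfl
  have h1 := key_poly_RB (ρ := b₁) hb hQ a (fun j hj hj0 => (haRB j (ha0 j hj0) hj).1) hGN i
    (by omega) hai0
  rw [hai.2] at h1
  linarith

/-- **T1.** A polynomial of Gauss value `> lam` at the radius `b`, as a polynomial in `X`. -/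
theorem rep_of_GN (h : Ctx k v r) (hd : Dns v F) (d : SD p k v r D F z η ρ b₁ b ε) {f : F[X]}
    {lam lam' : ℝ} (hf : GN v F η b lam f) (hlam : lam' < lam) (N : ℝ) :
    ∃ f' ∈ PI d.S'.K, (∀ i, v.Ge lam' (f'.coeff i)) ∧
      Reg v F z η b₁ b N (aeval z f - f'.eval d.X) := by
  obtain ⟨w, hw, hw0, hw1, hw2⟩ := dns_K h hd d lam' lam hlam
  obtain ⟨f', hf', hf'w, hrep⟩ := exists_rep h d hw hw0
    (Reg.mono hw2.le (Reg.of_GN (z := z) hf)) N
  exact ⟨f', hf', fun i => (hf'w i).mono hw1.le, hrep⟩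

/-- **T1 and T3 together.** `f` has the Gauss values `≥ lam` at the radius `b` and `≥ lam₁` at the
radius `b'`: it is, up to a regular function of large Gauss value, a polynomial in `X` over `E`
with coefficients of value `≥ lam'` and `≥ lam₁ - i (γ - v d.q)`. -/
theorem rep_of_GN₂ (h : Ctx k v r) (hd : Dns v F) (d : SD p k v r D F z η ρ b₁ b ε) {b' : ℝ}
    (hbb : b ≤ b') {γ : ℝ} (hQ : IsGV v F η b' γ (minpoly F η)) {f : F[X]} {lam lam' lam₁ : ℝ}
    (hf : GN v F η b lam f) (hlam : lam' < lam) (hf₁ : GN v F η b' lam₁ f) (N : ℝ) :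
    ∃ f' ∈ PI d.S'.K, (∀ i, v.Ge lam' (f'.coeff i)) ∧
      (∀ i : ℕ, v.Ge (lam₁ - i * (γ - v d.q)) (f'.coeff i)) ∧
      Reg v F z η b₁ b N (aeval z f - f'.eval d.X) := by
  have hb : b₁ < b' := lt_of_lt_of_le d.lt₂ hbb
  obtain ⟨f', hf', h1, h2⟩ := rep_of_GN h hd d hf hlam (max N lam₁)
  refine ⟨f', hf', h1, fun i => coeff_ge_of_reg d hbb hQ hf' ?_ i,
    Reg.mono (le_max_left _ _) h2⟩
  have h3 : f'.eval d.X = aeval z f - (aeval z f - f'.eval d.X) := by ring
  rw [h3]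
  exact Reg.sub' hb.le (Reg.of_GN hf₁) (Reg.radius hbb (Reg.mono (le_max_right _ _) h2))

/-- The value of `X` at the radius `b'`. -/
theorem gt_X (d : SD p k v r D F z η ρ b₁ b ε) {b' γ : ℝ} (hb' : b' < v (z - η))
    (hQ : IsGV v F η b' γ (minpoly F η)) : Gt v (γ - v d.q) d.X := by
  intro _
  have hz := d.cen.tr
  have hint : IsIntegral F η := d.cen.sep.isIntegral
  have hzη : z ≠ η := by
    intro h0
    refine hz ?_
    rw [h0]
    exact hint.isAlgebraic
  have h1 := IsGV.lt hQ (minpoly.aeval F η) hzη hb'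
  have h2 : aeval z (minpoly F η) ≠ 0 := by
    intro h3
    exact hz ⟨minpoly F η, minpoly.ne_zero hint, h3⟩
  have h3 := h1 h2
  rw [SD.X, v.map_div h2 d.q_ne]
  linarith

/-- The radius `γ(b') - v d.q` of `X` is positive for `b' > b`. -/
theorem radius_pos (d : SD p k v r D F z η ρ b₁ b ε) {b' γ : ℝ} (hb' : b < b')
    (hQ : IsGV v F η b' γ (minpoly F η)) : v d.q + (b' - b) ≤ γ := by
  obtain ⟨j, hj, hj0, hjv⟩ := hQ.2
  have h1 := d.q_val.1 j hj0
  have h2 : (1 : ℝ) * (b' - b) ≤ j * (b' - b) :=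
    mul_le_mul_of_nonneg_right (by exact_mod_cast hj) (by linarith)
  linarith

/-- The radius is at most `m (b' - b)`, `m` the degree. -/
theorem radius_le (d : SD p k v r D F z η ρ b₁ b ε) {b' γ : ℝ} (hb' : b ≤ b')
    (hQ : IsGV v F η b' γ (minpoly F η)) :
    γ ≤ v d.q + (minpoly F η).natDegree * (b' - b) := by
  classical
  have hint : IsIntegral F η := d.cen.sep.isIntegral
  obtain ⟨j, hj, hj0, hjv⟩ := d.q_val.2
  have h1 := hQ.1 j hj0
  have h3 : j ≤ (minpoly F η).natDegree := by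
    by_contra hcon
    push Not at hcon
    exact hj0 (tc_eq_zero hcon)
  have h2 : (j : ℝ) * (b' - b) ≤ (minpoly F η).natDegree * (b' - b) :=
    mul_le_mul_of_nonneg_right (by exact_mod_cast h3) (by linarith)
  linarith

end Main

/-- **T0.** The star data of a minimal centre, with radius in a prescribed interval. -/
theorem exists_level0 {k Ω : Type u} [Field k] [Field Ω] [Algebra k Ω] {v : RVal Ω}
    [IsAlgClosed Ω] [IsAlgClosed k] (p : ℕ) [hp : Fact p.Prime] [CharP k p] [CharP Ω p]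
    {r D : ℕ} {F : IntermediateField k Ω} {z η : Ω} {ρ ρ' : ℝ}
    (h : Ctx k v r) (hF : F.FG) (hfull : Full v F) (hBD : BD p v F)
    (htr : Algebra.trdeg k F = (r + D : ℕ))
    (hLU : ∀ E : IntermediateField k Ω, E.FG → Full v E →
      Algebra.trdeg k E = (r + D : ℕ) → BD p v E → LU p v r E)
    (hd : Dns v F) (hz : Transcendental F z) (hη : IsMin v F z η ρ) (hρ : ρ < ρ')
    (hρ' : ρ' ≤ v (z - η)) :
    ∃ b b₁ ε : ℝ, ρ < b ∧ b < ρ' ∧ Nonempty (SD p k v r D F z η ρ b₁ b ε) := by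
  obtain ⟨π, hπF, hπ0, hb1, hb2⟩ := hd ρ ρ' hρ
  obtain ⟨b₁, ε, hd'⟩ := exists_SD p h hF hfull hBD htr hLU hd
    (cen_of_min hz hη hπF hπ0 hb1 (hb2.trans_le hρ'))
  exact ⟨v π, b₁, ε, hb1, hb2, hd'⟩

/-- The facts about the flag of the centre. -/
theorem level0_facts {k Ω : Type u} [Field k] [Field Ω] [Algebra k Ω] {v : RVal Ω}
    [IsAlgClosed Ω] [IsAlgClosed k] {p : ℕ} [hp : Fact p.Prime] [CharP k p] [CharP Ω p]
    {r D : ℕ} {F : IntermediateField k Ω} {z η : Ω} {ρ b₁ b ε : ℝ}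
    (h : Ctx k v r) (hd : Dns v F) (d : SD p k v r D F z η ρ b₁ b ε) :
    (∀ i, d.S'.s i ∈ adj F z) ∧ d.X ∈ adj F z ∧ d.X ≠ 0 ∧ 0 < v d.X ∧ BD p v d.S'.K ∧
      Dns v d.S'.K ∧ Transcendental d.S'.K d.X ∧ hen v (adj d.S'.K d.X) = hen v (adj F z) := by
  have hK8 := E10.K_le_adj d
  have hXp := d.X_pos h
  exact ⟨fun i => hK8 (d.pb'.mem i), div_mem (E10.aeval_mem_adj _) (hK8 d.q_mem), hXp.1, hXp.2,
    ⟨_, _, d.pb', _, d.orth'⟩, dns_K h hd d, d.e8_X_tr h, hen_eq h d hXp.2 (d.frac h)⟩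

end Pool.Agent.TWJ2
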